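import Pool.Agent.Mg.F6d294b.G28e636

set_option linter.all false

section

open Finset

namespace Pool.Agent.MP_6d294b_pr

lemma image_Perc {α β : Type} [DecidableEq β] (Ω : Finset α) (f : α → β)
    (hf : Function.Injective f) (p : ℝ) (E : Finset β → Prop) :
    Pr Ω p (fun A => E (A.image f)) = Pr (Ω.image f) p E := by
  classical
  unfold Pr
  rw [Finset.powerset_image, Finset.sum_image fun A _ B _ h => Finset.image_injective hf h]
  refine Finset.sum_congr rfl fun A _ => ?_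
  rw [Finset.card_image_of_injective _ hf, Finset.card_image_of_injective _ hf]

lemma emb_inj_Perc (d n : ℕ) : Function.Injective (emb d n) := by
  intro u v h
  funext i
  have := congrFun h i
  simp only [emb, Nat.cast_inj] at this
  exact Fin.ext this

theorem sPerc (hA : SPrA) (hG : SGeoA) (hB : SGeoB) (h1 : SRect) (h2 : SCrit) (h3 : SInt)
    (h4 : SPar) : SPerc := by
  classical
  intro d hd
  obtain ⟨C₁, q₁, hC₁, hq₁, h4⟩ := h4 d hd
  have hd0 : (0 : ℝ) < d := by exact_mod_cast (by omega : 0 < d)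
  refine ⟨3 * d + C₁ + 404 * d ^ 2 * C₁ + d, min q₁ (1 / 3), by positivity,
    lt_min hq₁ (by norm_num), fun q hq hq' n hn => ?_⟩
  obtain ⟨T, M, N, B, hpar, hN1, hN2, hu, hB1, hB2, hB3, hM⟩ :=
    h4 q hq (hq'.trans (min_le_left _ _))
  have hq3 : q ≤ 1 / 3 := hq'.trans (min_le_right _ _)
  set l : ℝ := Real.log (1 / q) with hl
  have hq4 : 3 ≤ 1 / q := by
    rw [le_div_iff₀ hq]
    linarith
  have hl1 : 1 ≤ l := by
    rw [hl, Real.le_log_iff_exp_le (by positivity)]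
    linarith [Real.exp_one_lt_d9]
  set p : ℝ := 1 - Real.exp (- q ^ (d - 1)) with hp
  have hp0 : 0 ≤ p := by
    rw [hp, sub_nonneg]
    exact Real.exp_le_one_iff.2 (by have := pow_pos hq (d - 1); linarith)
  have hp1 : p ≤ 1 := by
    rw [hp]
    linarith [Real.exp_pos (- q ^ (d - 1))]
  have hNn : N + 1 ≤ n := by
    have : (N : ℝ) + 1 ≤ n := by linarith
    exact_mod_cast this
  have hn0 : (0 : ℝ) < n := by exact_mod_cast (by omega : 0 < n)
  set X : Finset (Bx d) := (boxes (cube d n)).filter fun R =>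
    Val R ∧ R ≤ cube d n ∧ N ≤ psi R ∧ psi R ≤ 2 * N with hX
  set Ω : Finset (Pt d) := (univ : Finset (Fin d → Fin n)).image (emb d n) with hΩ
  set Sg : ℝ := ∑ t ∈ range N, Gt d M (q ^ (d - 1)) ((((t : ℝ) + d + 1) / d) ^ (d - 1)) with hSg
  have hcard : X.card ≤ n ^ d * (2 * N + 1) ^ d :=
    (hB d).2.2.1 n (2 * N) X fun R hR =>
      ⟨(Finset.mem_filter.1 hR).2.1, (Finset.mem_filter.1 hR).2.2.1,
        (Finset.mem_filter.1 hR).2.2.2.2⟩
  have step1 : Pr (univ : Finset (Fin d → Fin n)) p (Perc d n) ≤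
      (n : ℝ) ^ d * (2 * N + 1) ^ d * Real.exp (epsMax d T N (q ^ (d - 1)) - Sg) := by
    calc Pr (univ : Finset (Fin d → Fin n)) p (Perc d n)
        ≤ Pr (univ : Finset (Fin d → Fin n)) p
            (fun A => (fun A' => ∃ R ∈ X, ISp R A') (A.image (emb d n))) := by
          refine (hA _ _ p hp0 hp1).2.2.1 _ _ fun A _ hP => ?_
          obtain ⟨R, a1, a2, a3, a4, a5⟩ := h1 d n N (by omega) hN1 hNn A hP
          exact ⟨R, Finset.mem_filter.2
            ⟨((hG d).2.2.2.1 R _ a1 a2).2.2.2.2, a1, a2, a3, a4⟩, a5⟩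
      _ = Pr Ω p (fun A' => ∃ R ∈ X, ISp R A') :=
          image_Perc univ (emb d n) (emb_inj_Perc d n) p (fun A' => ∃ R ∈ X, ISp R A')
      _ ≤ ∑ R ∈ X, Pr Ω p (ISp R) := (hA _ Ω p hp0 hp1).2.2.2.2.1 _ X (fun R => ISp R)
      _ ≤ ∑ _R ∈ X, Real.exp (epsMax d T N (q ^ (d - 1)) - Sg) := by
          refine Finset.sum_le_sum fun R hR => ?_
          obtain ⟨-, a1, -, a3, a4⟩ := Finset.mem_filter.1 hR
          exact h2 d T M N p _ Ω hpar hp R a1 a3 a4
      _ = X.card * Real.exp (epsMax d T N (q ^ (d - 1)) - Sg) := by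
          rw [Finset.sum_const, nsmul_eq_mul]
      _ ≤ _ := by
          refine mul_le_mul_of_nonneg_right ?_ (Real.exp_pos _).le
          exact_mod_cast hcard
  refine step1.trans ?_
  have e1 : (n : ℝ) ^ d = Real.exp (d * Real.log n) := by
    rw [Real.exp_nat_mul, Real.exp_log hn0]
  have e2 : (2 * N + 1 : ℝ) ^ d = Real.exp (d * Real.log (2 * N + 1)) := by
    rw [Real.exp_nat_mul, Real.exp_log (by positivity)]
  rw [e1, e2, ← Real.exp_add, ← Real.exp_add]
  refine Real.exp_le_exp.2 ?_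
  have hint := (h3 d hd).2 q B M N hq hu hB1 hB2
  rw [hB3, ← hSg, ← hl] at hint
  have e3 : Real.exp (- l) = q := by
    rw [hl, Real.exp_neg, Real.exp_log (by positivity)]
    simp
  rw [e3] at hint
  have e4 : d / q * (lam d - d * (q * (2 + 200 * (M + 1))) * (1 + l) - q) =
      d * lam d / q - d ^ 2 * ((2 + 200 * (M + 1)) * (1 + l)) - d := by
    field_simp
  rw [e4] at hint
  have hsq0 : 0 < Real.sqrt q := Real.sqrt_pos.2 hq
  have hsq1 : Real.sqrt q ≤ 1 := Real.sqrt_le_one.2 (by linarith)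
  set W : ℝ := l ^ 3 / Real.sqrt q with hW
  set V : ℝ := l ^ 2 / Real.sqrt q with hV
  have hV1 : 1 ≤ V := by
    rw [hV, le_div_iff₀ hsq0]
    nlinarith
  have hVW : W = V * l := by
    rw [hW, hV]
    ring
  have hM' : (M : ℝ) + 1 ≤ C₁ * V := by
    rw [hV, ← mul_div_assoc]
    exact hM
  have hM0 : (0 : ℝ) ≤ M := Nat.cast_nonneg _
  have hlW : l ≤ W := by rw [hVW]; nlinarith
  have hVW' : V ≤ W := by rw [hVW]; nlinarith
  have f1 : Real.log (2 * N + 1) ≤ 3 * l := by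
    have g1 : (2 * N + 1 : ℝ) ≤ (1 / q) ^ 3 := by
      have g2 : (N : ℝ) ≤ (1 / q) ^ 2 := by rwa [one_div_pow]
      nlinarith
    have := Real.log_le_log (by positivity) g1
    rw [Real.log_pow] at this
    exact_mod_cast this
  have f2 : epsMax d T N (q ^ (d - 1)) ≤ C₁ * W := by
    have g1 := hpar.2.2.2.1
    have g2 : (0 : ℝ) ≤ T := Nat.cast_nonneg _
    have g3 := mul_le_mul_of_nonneg_left hVW' hC₁.le
    linarith
  have f3 : (2 + 200 * ((M : ℝ) + 1)) * (1 + l) ≤ 404 * C₁ * W := by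
    have g1 : (2 + 200 * ((M : ℝ) + 1)) ≤ 202 * (C₁ * V) := by linarith
    have g2 : 1 + l ≤ 2 * l := by linarith
    have := mul_le_mul g1 g2 (by linarith) (by positivity)
    rw [hVW]
    linarith
  have f4 := mul_le_mul_of_nonneg_left f3 (sq_nonneg (d : ℝ))
  have f5 := mul_le_mul_of_nonneg_left (f1.trans (mul_le_mul_of_nonneg_left hlW (by norm_num)))
    hd0.le
  have f6 := mul_le_mul_of_nonneg_left (hl1.trans hlW) hd0.le
  have e5 : (3 * d + C₁ + 404 * d ^ 2 * C₁ + d) * l ^ 3 / Real.sqrt q =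
      (3 * d + C₁ + 404 * d ^ 2 * C₁ + d) * W := by
    rw [hW, mul_div_assoc]
  rw [e5]
  nlinarith

end Pool.Agent.MP_6d294b_pr

end

section

open Finset

namespace Pool.Agent.MP_6d294b_pr

/-- the jog in the block `t` with the letter `o` -/
def jog_UWord (s k : ℕ) (t : Fin k) (o : Fin k × Fin k) : ℕ × ℕ :=
  (s + 4 * (k * t) + 2 * o.1, s + 4 * (k * t) + 2 * o.1 + 1 + o.2)

theorem far_UWord (s k : ℕ) {t t' : Fin k} (h : t ≠ t') (o o' : Fin k × Fin k) :
    (jog_UWord s k t o).1 + 3 ≤ (jog_UWord s k t' o').1 ∨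
      (jog_UWord s k t' o').1 + 3 ≤ (jog_UWord s k t o).1 := by
  have h1 := o.1.2
  have h2 := o'.1.2
  simp only [jog_UWord]
  rcases lt_or_gt_of_ne (Fin.val_ne_of_ne h) with h3 | h3
  · have := Nat.mul_le_mul_left k (Nat.succ_le_of_lt h3)
    rw [Nat.mul_succ] at this
    omega
  · have := Nat.mul_le_mul_left k (Nat.succ_le_of_lt h3)
    rw [Nat.mul_succ] at this
    omega

theorem sUWord : SUWord := by
  intro s k N hk hs hN
  set W : (Fin k → Option (Fin k × Fin k)) → Finset (ℕ × ℕ) := fun w =>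
    univ.biUnion fun t => (w t).toFinset.image (jog_UWord s k t) with hW
  have hm : ∀ w u, u ∈ W w ↔ ∃ t o, w t = some o ∧ jog_UWord s k t o = u := fun w u => by
    simp only [hW, mem_biUnion, mem_univ, true_and, mem_image, Option.mem_toFinset, Option.mem_def]
  have key : ∀ w w' t o, w t = some o → (∀ o', w' t = some o' → o'.1 ≠ o.1) →
      UInc (W w) (W w') := fun w w' t o h h' => by
    refine ⟨_, (hm _ _).2 ⟨t, o, h, rfl⟩, .inl fun u' hu' => ?_⟩
    obtain ⟨t', o', h1, rfl⟩ := (hm _ _).1 hu'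
    by_cases e : t = t'
    · subst e
      have := Fin.val_ne_of_ne (h' o' h1)
      simp only [jog_UWord]
      omega
    · have := far_UWord s k e o o'
      omega
  have key2 : ∀ w w' t o o', w t = some o → w' t = some o' → o'.1 = o.1 → o'.2 < o.2 →
      UInc (W w) (W w') := fun w w' t o o' h h' h1 h2 => by
    refine ⟨_, (hm _ _).2 ⟨t, o, h, rfl⟩, .inr ⟨_, (hm _ _).2 ⟨t, o', h', rfl⟩, ?_⟩⟩
    have := Fin.lt_def.1 h2
    simp only [jog_UWord, h1, true_and]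
    omega
  refine ⟨_, univ, W, fun w _ => ⟨fun u hu => ?_, fun u hu u' hu' h => ?_⟩,
    fun w _ w' _ h => ?_, fun x h0 h1 => ?_⟩
  · obtain ⟨t, o, -, rfl⟩ := (hm _ _).1 hu
    have h1 := o.1.2
    have h2 := o.2.2
    have h3 := Nat.mul_le_mul_left k (Nat.succ_le_of_lt t.2)
    rw [Nat.mul_succ, ← sq] at h3
    simp only [jog_UWord]
    omega
  · obtain ⟨t, o, e, rfl⟩ := (hm _ _).1 hu
    obtain ⟨t', o', e', rfl⟩ := (hm _ _).1 hu'
    refine far_UWord s k (fun h1 => h ?_) o o'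
    subst h1
    rw [Option.some.inj (e.symm.trans e')]
  · obtain ⟨t, ht⟩ := Function.ne_iff.1 h
    rcases e : w t with _ | o <;> rcases e' : w' t with _ | o'
    · exact absurd (e.trans e'.symm) ht
    · exact .inr (key _ _ t o' e' fun _ h => by simp [e] at h)
    · exact .inl (key _ _ t o e fun _ h => by simp [e'] at h)
    · by_cases h1 : o'.1 = o.1
      · rcases lt_trichotomy o'.2 o.2 with h2 | h2 | h2
        · exact .inl (key2 _ _ t o o' e e' h1 h2)
        · exact absurd (by rw [e, e', Prod.ext h1 h2]) ht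
        · exact .inr (key2 _ _ t o' o e' e h1.symm h2)
      · exact .inl (key _ _ t o e fun _ h => Option.some.inj (e'.symm.trans h) ▸ h1)
  · calc (1 + (k : ℝ) ^ 2 * x) ^ k
        = ∏ _t : Fin k, ∑ o : Option (Fin k × Fin k), x ^ o.toFinset.card := by
          simp [Fintype.sum_option, sq]
      _ = ∑ w : Fin k → Option (Fin k × Fin k), ∏ t, x ^ (w t).toFinset.card := by
          rw [prod_univ_sum, Fintype.piFinset_univ]
      _ ≤ _ := sum_le_sum fun w _ => by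
          rw [prod_pow_eq_pow_sum]
          exact pow_le_pow_of_le_one h0 h1
            (card_biUnion_le.trans (sum_le_sum fun t _ => card_image_le))

theorem sUTrans : SUTrans := by
  intro d n p h0 h1
  have hg : ∀ x, x ∈ grid d n ↔ ∃ v, emb d n v = x := fun x => by
    rw [mem_grid]
    refine ⟨fun h => ⟨fun i => ⟨(x i).toNat, by have := h i; omega⟩, funext fun i => ?_⟩, ?_⟩
    · have := h i
      simp only [emb]
      omega
    · rintro ⟨v, rfl⟩ j
      have := (v j).2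
      simp only [emb]
      omega
  have e : grid d n = univ.image (emb d n) := by
    ext x
    simp only [hg, mem_image, mem_univ, true_and]
  rw [e, ← image_Perc univ _ (emb_inj_Perc d n)]
  refine (sPrA _ _ p h0 h1).2.2.1 _ _ fun A _ hA S hS hc => Set.eq_univ_of_forall fun v => ?_
  have nb : ∀ (u v : Fin d → Fin n) (i : Fin d) (a : ℤ), (a = 1 ∨ a = -1) →
      emb d n u = Function.update (emb d n v) i (emb d n v i + a) →
      ∑ l, Int.natAbs (((u l : ℕ) : ℤ) - ((v l : ℕ) : ℤ)) = 1 := fun u v i a ha h => by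
    rw [sum_eq_single i (fun l _ hl => ?_) (by simp)]
    · have := congrFun h i
      simp only [Function.update_self, emb] at this
      omega
    · have := congrFun h l
      simp only [Function.update_of_ne hl, emb] at this
      omega
  obtain ⟨v', hv, e'⟩ := hA (emb d n '' S) (fun x hx i j a b ha hb hab _ _ ⟨u, hu, e1⟩
    ⟨u', hu', e2⟩ => by
      obtain ⟨v, rfl⟩ := (hg x).1 hx
      refine ⟨v, hc v ((Set.one_lt_ncard (Set.toFinite _)).2
        ⟨u, ⟨hu, nb u v i a ha e1⟩, u', ⟨hu', nb u' v j b hb e2⟩, fun h => ?_⟩), rfl⟩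
      have h2 := congrFun (e1.symm.trans (h ▸ e2)) i
      by_cases h3 : i = j
      · subst h3
        simp only [Function.update_self] at h2
        omega
      · simp only [Function.update_self, Function.update_of_ne h3] at h2
        omega)
    (fun x hx => by
      obtain ⟨u, hu, rfl⟩ := mem_image.1 hx
      exact ⟨u, hS hu, rfl⟩) (emb d n v) ((hg _).2 ⟨v, rfl⟩)
  exact emb_inj_Perc d n e' ▸ hv

end Pool.Agent.MP_6d294b_pr

end

section

/-! Upper bound: the choice of the parameters. -/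

open Finset

namespace Pool.Agent.MP_6d294b_pr

theorem ev_UPar (a C : ℝ) (ha : 0 < a) (m : ℕ) :
    ∃ X : ℝ, ∀ x, X ≤ x → C * x ^ m ≤ Real.exp (a * x) := by
  have h1 : Filter.Tendsto (fun x : ℝ => a * x) Filter.atTop Filter.atTop :=
    Filter.Tendsto.const_mul_atTop ha Filter.tendsto_id
  have h2 := (Real.tendsto_exp_div_pow_atTop m).comp h1
  have h3 := (h2.eventually_ge_atTop (C / a ^ m)).and (Filter.eventually_gt_atTop 0)
  obtain ⟨X, hX⟩ := Filter.eventually_atTop.1 h3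
  refine ⟨X, fun x hx => ?_⟩
  obtain ⟨h4, h5⟩ := hX x hx
  simp only [Function.comp] at h4
  rw [le_div_iff₀ (by positivity), mul_pow] at h4
  calc C * x ^ m = C / a ^ m * (a ^ m * x ^ m) := by field_simp
    _ ≤ _ := h4

theorem div_UPar (a b : ℕ) (hb : 0 < b) (h : b ≤ a) :
    (a : ℝ) ≤ 2 * b * ((a / b : ℕ) : ℝ) := by
  have h1 := Nat.lt_mul_div_succ a hb
  have h2 := Nat.div_pos h hb
  have h3 : a ≤ 2 * b * (a / b) := by nlinarith
  exact_mod_cast h3

theorem prob_UPar (u : ℝ) (h0 : 0 ≤ u) (h1 : u ≤ 1) : u / 2 ≤ 1 - Real.exp (-u) := by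
  have h2 : u + 1 ≤ Real.exp u := Real.add_one_le_exp u
  have h3 : Real.exp (-u) * Real.exp u = 1 := by rw [← Real.exp_add]; simp
  have h4 := Real.exp_pos (-u)
  have h5 : Real.exp (-u) * (u + 1) ≤ 1 := by nlinarith
  by_contra hc
  have h6 : 1 - u / 2 < Real.exp (-u) := by linarith
  nlinarith

theorem sUPar : SUPar := by
  intro d κ la hd hκ hla
  have hd2 : (2 : ℝ) ≤ d := by exact_mod_cast hd
  have hd0 : (0 : ℝ) < d := by linarith
  obtain ⟨g, hg0, hg⟩ : ∃ g : ℝ, 0 < g ∧ Real.exp (2 * g) = 1 + κ / 4 := by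
    refine ⟨Real.log (1 + κ / 4) / 2, ?_, ?_⟩
    · have := Real.log_pos (show 1 < 1 + κ / 4 by linarith)
      linarith
    · rw [mul_div_cancel₀ _ two_ne_zero, Real.exp_log (by linarith)]
  obtain ⟨c, hc0, hc⟩ : ∃ c : ℝ, 0 < c ∧ d * c = g / 2 :=
    ⟨g / (2 * d), by positivity, by field_simp⟩
  obtain ⟨X1, h1⟩ := ev_UPar 1 3 one_pos (2 * (d + 1))
  obtain ⟨X2, h2⟩ := ev_UPar (g / 2) (2 * 6 ^ d) (by positivity) (2 * (d * 2 ^ d + (d + 1) * d))
  obtain ⟨X, hX1, hX2, hX3, hX4, hX5, hX6⟩ : ∃ X : ℝ, X1 ≤ X ∧ X2 ≤ X ∧ 2 ≤ X ∧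
      (c + 1) / la ≤ X ∧ d * la + 1 ≤ X ∧ 4 * d ≤ X := by
    refine ⟨max (max X1 X2) (max (max 2 ((c + 1) / la)) (max (d * la + 1) (4 * d))), ?_⟩
    simp only [le_max_iff, le_refl, true_or, or_true, and_self]
  refine ⟨c, 1 / X ^ 2, hc0, by positivity, fun q n hq hq0 hn1 hn2 => ?_⟩
  obtain ⟨x, hx0, hsq⟩ : ∃ x : ℝ, 0 < x ∧ Real.sqrt q = 1 / x :=
    ⟨1 / Real.sqrt q, by positivity, by simp⟩
  have hqx : q * x ^ 2 = 1 := by
    have := Real.sq_sqrt hq.le
    rw [hsq] at this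
    rw [← this]; field_simp
  have hq1 : 1 / q = x ^ 2 := by
    rw [div_eq_iff hq.ne']; linarith
  have hXx : X ≤ x := by
    have h3 : X ^ 2 ≤ x ^ 2 := by
      rw [le_div_iff₀ (by positivity), ← hqx] at hq0
      exact le_of_mul_le_mul_left hq0 hq
    exact (pow_le_pow_iff_left₀ (by linarith) hx0.le two_ne_zero).1 h3
  have hx2 : 2 ≤ x := hX3.trans hXx
  have hxx : x ≤ x ^ 2 := le_self_pow₀ (by linarith) two_ne_zero
  have hx4 : (2 : ℝ) ^ 2 ≤ x ^ 2 := pow_le_pow_left₀ (by norm_num) hx2 2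
  have hq4 : q ≤ 1 / 4 := by linarith [mul_le_mul_of_nonneg_left hx4 hq.le]
  have hlq : la / q = la * x ^ 2 := by rw [← hq1]; ring
  have hcq : c / Real.sqrt q = c * x := by rw [hsq]; field_simp
  rw [hlq] at hn1 hn2
  rw [hcq] at hn1
  -- lower bound for n
  have hlx : c + 1 ≤ la * x := by
    have := hX4.trans hXx
    rw [div_le_iff₀ hla] at this
    linarith
  have hlog : x ≤ Real.log n := by linarith [mul_le_mul_of_nonneg_right hlx hx0.le]
  have hnpos : (0 : ℝ) < n := by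
    rcases Nat.eq_zero_or_pos n with h | h
    · subst h; simp at hlog; linarith
    · exact_mod_cast h
  have hnexp : Real.exp (Real.log n) = n := Real.exp_log hnpos
  -- the parameters
  set Y : ℝ := x ^ (2 * (d + 1)) with hY
  have hY1 : x ^ 6 ≤ Y := pow_le_pow_right₀ (by linarith) (by omega)
  have hx6 : 12 * x ^ 2 < x ^ 6 := by
    have h4 : (2 : ℝ) ^ 4 ≤ x ^ 4 := pow_le_pow_left₀ (by norm_num) hx2 4
    linarith [mul_le_mul_of_nonneg_right h4 (show 0 ≤ x ^ 2 by positivity)]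
  have hs1 : x ^ 2 ≤ (⌈x ^ 2⌉₊ : ℝ) := Nat.le_ceil _
  have hs2 : (⌈x ^ 2⌉₊ : ℝ) < x ^ 2 + 1 := Nat.ceil_lt_add_one (by positivity)
  have hk1 : (⌊x⌋₊ : ℝ) ≤ x := Nat.floor_le hx0.le
  have hk2 : x < (⌊x⌋₊ : ℝ) + 1 := Nat.lt_floor_add_one x
  have hk3 : 1 ≤ ⌊x⌋₊ := Nat.le_floor (by push_cast; linarith)
  have hk4 : (1 : ℝ) ≤ ⌊x⌋₊ := by exact_mod_cast hk3
  have hN1 : Y ≤ (⌈Y⌉₊ : ℝ) := Nat.le_ceil _
  have hN2 : (⌈Y⌉₊ : ℝ) < Y + 1 := Nat.ceil_lt_add_one (by positivity)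
  have hYone : 1 ≤ Y := by linarith
  have hqY : q ^ (d - 1) * Y = (x ^ 2) ^ 2 := by
    obtain ⟨e, rfl⟩ : ∃ e, d = e + 1 := ⟨d - 1, by omega⟩
    rw [hY, Nat.add_sub_cancel, pow_mul, show e + 1 + 1 = e + 2 by ring, pow_add, ← mul_assoc,
      ← mul_pow, hqx, one_pow, one_mul]
  refine ⟨⌈x ^ 2⌉₊, ⌊x⌋₊, ⌈Y⌉₊, by linarith, by rw [hq1]; exact hs1, ?_, hk3, ?_, ?_, ?_, ?_⟩
  · have : 2 / q = 2 * x ^ 2 := by rw [← hq1]; ring
    rw [this]; linarith
  · have : ((⌊x⌋₊ : ℝ)) ^ 2 ≤ (⌈x ^ 2⌉₊ : ℝ) :=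
      (pow_le_pow_left₀ (by positivity) hk1 2).trans hs1
    exact_mod_cast this
  · have : (5 * (⌈x ^ 2⌉₊ : ℝ) + 2) < (⌈Y⌉₊ : ℝ) := by linarith
    exact_mod_cast this
  · rw [sub_sub_cancel, ← Real.exp_nat_mul]
    have e1 : (n : ℝ) ^ d ≤ Real.exp (d * (la * x ^ 2)) := by
      rw [Real.exp_nat_mul, ← hnexp]
      exact pow_le_pow_left₀ (Real.exp_pos _).le (Real.exp_le_exp.2 hn2) d
    have e2 : Real.exp ((⌈Y⌉₊ : ℝ) * -q ^ (d - 1)) ≤ Real.exp (-(x ^ 2) ^ 2) := by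
      refine Real.exp_le_exp.2 ?_
      have := mul_le_mul_of_nonneg_left hN1 (show 0 ≤ q ^ (d - 1) by positivity)
      linarith
    have e3 : Real.exp (d * (la * x ^ 2)) * Real.exp (-(x ^ 2) ^ 2) ≤ Real.exp (-x ^ 2) := by
      rw [← Real.exp_add]
      refine Real.exp_le_exp.2 ?_
      have : d * la + 1 ≤ x ^ 2 := by linarith
      linarith [mul_le_mul_of_nonneg_right this (show 0 ≤ x ^ 2 by positivity)]
    have e4 : Real.exp (-x ^ 2) * (4 * d) ≤ 1 := by
      have a1 : x ^ 2 + 1 ≤ Real.exp (x ^ 2) := Real.add_one_le_exp _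
      have a2 : Real.exp (-x ^ 2) * Real.exp (x ^ 2) = 1 := by rw [← Real.exp_add]; simp
      have a3 := Real.exp_pos (-x ^ 2)
      have a4 : 4 * (d : ℝ) ≤ Real.exp (x ^ 2) := by linarith
      linarith [mul_le_mul_of_nonneg_left a4 a3.le]
    have e5 : (n : ℝ) ^ d * Real.exp ((⌈Y⌉₊ : ℝ) * -q ^ (d - 1)) ≤ Real.exp (-x ^ 2) :=
      (mul_le_mul e1 e2 (Real.exp_pos _).le (Real.exp_pos _).le).trans e3
    rw [mul_assoc]
    linarith [mul_le_mul_of_nonneg_left e5 hd0.le]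
  · have hp : q ^ d ≤ 1 - Real.exp (-q ^ (d - 1)) := by
      refine le_trans ?_ (prob_UPar _ (by positivity) (pow_le_one₀ hq.le (by linarith)))
      obtain ⟨e, rfl⟩ : ∃ e, d = e + 1 := ⟨d - 1, by omega⟩
      rw [Nat.add_sub_cancel, pow_succ]
      linarith [mul_le_mul_of_nonneg_left hq4 (pow_pos hq e).le, pow_pos hq e]
    have f1 : q ^ (d * 2 ^ d) ≤ (1 - Real.exp (-q ^ (d - 1))) ^ (2 ^ d) := by
      rw [pow_mul]
      exact pow_le_pow_left₀ (by positivity) hp _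
    have f2 : Real.exp (g * x) ≤ (1 + (⌊x⌋₊ : ℝ) ^ 2 * (κ * q)) ^ ⌊x⌋₊ := by
      have a1 : x ≤ 2 * (⌊x⌋₊ : ℝ) := by linarith
      have a2 : x ^ 2 ≤ (2 * (⌊x⌋₊ : ℝ)) ^ 2 := pow_le_pow_left₀ hx0.le a1 2
      have a3 : 1 / 4 ≤ (⌊x⌋₊ : ℝ) ^ 2 * q := by
        linarith [mul_le_mul_of_nonneg_left a2 hq.le]
      have a4 : Real.exp (2 * g) ≤ 1 + (⌊x⌋₊ : ℝ) ^ 2 * (κ * q) := by
        rw [hg]; linarith [mul_le_mul_of_nonneg_left a3 hκ.le]
      refine le_trans ?_ (pow_le_pow_left₀ (Real.exp_pos _).le a4 _)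
      rw [← Real.exp_nat_mul]
      refine Real.exp_le_exp.2 ?_
      linarith [mul_le_mul_of_nonneg_left a1 hg0.le]
    have f3 : ⌈Y⌉₊ + 1 ≤ n := by
      have a1 := h1 x (hX1.trans hXx)
      have a2 : Real.exp (1 * x) ≤ n := by
        rw [← hnexp, one_mul]; exact Real.exp_le_exp.2 hlog
      have a3 : ((⌈Y⌉₊ : ℝ) + 1) ≤ n := by linarith
      exact_mod_cast a3
    have f4 := div_UPar n (⌈Y⌉₊ + 1) (by omega) f3
    set t : ℝ := ((n / (⌈Y⌉₊ + 1) : ℕ) : ℝ) with ht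
    have ht0 : 0 ≤ t := by positivity
    have f5 : Real.exp (la * x ^ 2 - c * x) ≤ 6 * Y * t := by
      have a1 : Real.exp (la * x ^ 2 - c * x) ≤ n := by
        rw [← hnexp]; exact Real.exp_le_exp.2 hn1
      push_cast at f4
      have a2 : 2 * ((⌈Y⌉₊ : ℝ) + 1) ≤ 6 * Y := by linarith
      linarith [mul_le_mul_of_nonneg_right a2 ht0]
    have f6 : Real.exp (d * (la * x ^ 2 - c * x)) ≤ 6 ^ d * Y ^ d * t ^ d := by
      rw [Real.exp_nat_mul, ← mul_pow, ← mul_pow]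
      exact pow_le_pow_left₀ (Real.exp_pos _).le f5 d
    have f7 := h2 x (hX2.trans hXx)
    have f8 : x ^ (2 * (d * 2 ^ d + (d + 1) * d)) * q ^ (d * 2 ^ d) = Y ^ d := by
      rw [hY, ← pow_mul, mul_add, pow_add, pow_mul x 2 (d * 2 ^ d), mul_right_comm, ← mul_pow,
        mul_comm (x ^ 2), hqx, one_pow, one_mul, mul_assoc]
    have f9 : Real.exp (-(d * la / q)) * Real.exp (g * x) * Real.exp (d * (la * x ^ 2 - c * x)) =
        Real.exp (g / 2 * x) := by
      rw [← Real.exp_add, ← Real.exp_add, mul_div_assoc, hlq, ← hc]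
      congr 1
      have : g = 2 * (d * c) := by linarith
      rw [this]; ring
    have hE := Real.exp_pos (-(d * la / q))
    have hA : (0 : ℝ) < 6 ^ d * Y ^ d := by positivity
    have hQ : (0 : ℝ) < q ^ (d * 2 ^ d) := by positivity
    have g1 : 2 * (6 ^ d * Y ^ d) ≤ q ^ (d * 2 ^ d) * Real.exp (g / 2 * x) := by
      rw [← f8]
      linarith [mul_le_mul_of_nonneg_left f7 hQ.le]
    have g2 : q ^ (d * 2 ^ d) * Real.exp (g / 2 * x) ≤
        q ^ (d * 2 ^ d) * Real.exp (-(d * la / q)) * Real.exp (g * x) * t ^ d *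
          (6 ^ d * Y ^ d) := by
      rw [← f9]
      have := mul_le_mul_of_nonneg_left f6
        (show 0 ≤ q ^ (d * 2 ^ d) * Real.exp (-(d * la / q)) * Real.exp (g * x) by positivity)
      linarith
    have g3 : 2 ≤ q ^ (d * 2 ^ d) * Real.exp (-(d * la / q)) * Real.exp (g * x) * t ^ d :=
      le_of_mul_le_mul_right (g1.trans g2) hA
    refine g3.trans ?_
    have hp0 : 0 ≤ (1 - Real.exp (-q ^ (d - 1))) ^ (2 ^ d) := hQ.le.trans f1
    refine mul_le_mul_of_nonneg_right ?_ (by positivity)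
    exact mul_le_mul (mul_le_mul_of_nonneg_right f1 hE.le) f2 (Real.exp_pos _).le
      (mul_nonneg hp0 hE.le)

end Pool.Agent.MP_6d294b_pr

end
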