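import Pool.Agent.Mg.F6d294b.G4e8bb7

set_option linter.all false

section

open Finset

namespace Pool.Agent.MP_6d294b_pr

theorem exmono_GP1 {d : ℕ} {S R : Bx d} (hS : Val S) (h : S ≤ R) : ex S ≤ ex R :=
  ((bGeoA d).2.2.2.1 S R hS h).2.1

theorem exle_GP1 {d : ℕ} (R : Bx d) (i : Fin d) : ex R i ≤ psi R :=
  single_le_sum (f := ex R) (fun _ _ => Nat.zero_le _) (mem_univ i)

theorem uni_GP1 {β : Type} {inst : DecidableEq β} (X Y : Finset β) (f : β → ℝ)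
    (hf : ∀ x, 0 ≤ f x) : ∑ x ∈ X ∪ Y, f x ≤ ∑ x ∈ X, f x + ∑ x ∈ Y, f x := by
  have h1 := sum_union_inter (s₁ := X) (s₂ := Y) (f := f)
  have h2 : 0 ≤ ∑ x ∈ X ∩ Y, f x := sum_nonneg fun x _ => hf x
  linarith

theorem oz_GP1 {D : ℕ} {m : ℕ → ℕ} {S R : Bx D} {M : ℕ} {z : ℕ → Bx D} (hm : Monotone m)
    (hS : Val S) (hSR : S ≤ R) (hz : IsPath m S R M z) (e : ℕ) (s : Sd D) (j : ℤ) :
    Val (oz m R M e z s j) ∧ ∀ i, ex (oz m R M e z s j) i ≤
      ex (z (tm z M s j)) i + 2 * m (ex (z (tm z M s j)) i) + 2 * e := by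
  obtain ⟨-, z2, -, z4, -⟩ := bPathA D m S R M z hm hS hSR hz
  refine ⟨((bGeoA D).2.2.2.1 _ _ (z2 (tm z M s j)).2.2 fun t => ?_).1,
    fun i => (z4 (tm z M s j)).2.2.2 e i⟩
  have h1 := (z4 (tm z M s j)).1 t
  have h2 : (0 : ℤ) ≤ e := Int.natCast_nonneg e
  unfold oz
  linarith

theorem mono_GP1 (h7 : GN2) (h8 : GCost) {D k : ℕ} {q p : ℝ} {w : ℕ} {η ε : ℝ}
    {Φ : (Fin D → ℕ) → ℝ} (hB : Bas2 D k q p w η ε Φ) {S R : Bx D} (hS : Val S) (hSR : S ≤ R)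
    {M : ℕ} {z : ℕ → Bx D} (hz : IsPath (m2 q w) S R M z) (s : Sd D) (j : ℤ) :
    F2 q w w (ex (z (tm z M s j))) s.1 ≤ F2 q w w (ex (z (tm z M s (j + 1)))) s.1 := by
  obtain ⟨-, -, c3, -⟩ := h8 D k q p w η ε Φ hB
  obtain ⟨-, -, hq, -, -, hw, -⟩ := hB
  obtain ⟨z1, z2, -, -, z5, -⟩ :=
    bPathA D (m2 q w) S R M z (h7 q w hq (by omega)).1 hS hSR hz
  exact c3 w s.1 (exmono_GP1 (z2 (tm z M s j)).2.2 (z1 (z5 s (by omega : j ≤ j + 1))))

theorem line_GP1 (h1 : GLY) (h3 : GLine) (h7 : GN2) (h8 : GCost) {D d : ℕ} {q p : ℝ} {w : ℕ}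
    {η ε : ℝ} {Φ : (Fin D → ℕ) → ℝ} (F : Fr D d) (Ω : Finset (Pt d))
    (hB : Bas2 D (d - D + 1) q p w η ε Φ) {S R : Bx D} (hS : Val S) (hSR : S ≤ R) {M : ℕ}
    {z : ℕ → Bx D} (hz : IsPath (m2 q w) S R M z) (s : Sd D) (J : Finset ℤ) :
    Pr Ω p (NG2 (fun j => LY F 0 (reg (m2 q w) R M 0 z s j))
      (fun j => LY F 1 (reg (m2 q w) R M 0 z s j)) J) ≤
      ∏ j ∈ J, Real.exp (- gk (d - D + 1) (F2 q w w (ex (z (tm z M s (j + 1)))) s.1)) := by
  have hmono := mono_GP1 h7 h8 hB hS hSR hz s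
  obtain ⟨⟨p0, -, -, p2, -⟩, -, -, -, c5, c6, -, c8, -⟩ := h8 D _ q p w η ε Φ hB
  obtain ⟨-, hk, hq, -, hp, hw, -⟩ := hB
  have hm := (h7 q w hq (by omega)).1
  have hL := h1.1 D d F
  have h := h3 (Pt d) Ω p (q ^ (D - 1)) (d - D + 1) hk (pow_pos hq _).le hp
    (fun j => LY F 0 (reg (m2 q w) R M 0 z s j)) (fun j => LY F 1 (reg (m2 q w) R M 0 z s j))
    (fun j => F2 q w w (ex (z (tm z M s j))) s.1) J (fun _ => True)
    (fun i j _ _ hij => by
      rw [disjoint_left]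
      intro x hi hj
      have e1 := (((bLay D _ s i).1 _).1 (((hL _).1 1 x).1 hi).1).1
      have e2 := (((bLay D _ s j).1 _).1 (((hL _).1 1 x).1 hj).1).1
      exact hij (e1.symm.trans e2))
    (fun j _ => by
      obtain ⟨o1, o2⟩ := oz_GP1 hm hS hSR hz 0 s j
      have e0 : (reg (m2 q w) R M 0 z s j).card = sg (ex (oz (m2 q w) R M 0 z s j)) s.1 :=
        (bLay D _ s j).2 o1
      have e1 := c6 w (ex (z (tm z M s j))) (ex (oz (m2 q w) R M 0 z s j)) s.1 fun i => by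
        have := o2 i
        omega
      refine ⟨fun x hx => ?_, ?_, ?_, (c8 _ (c5 w _ _ le_rfl)).1⟩
      · obtain ⟨a1, a2, a3⟩ := ((hL _).1 0 x).1 hx
        refine ((hL _).1 1 x).2 ⟨a1, a2, a3.trans ?_⟩
        exact_mod_cast Nat.zero_le 1
      · rw [(hL _).2.1, e0]
        exact e1
      · rw [(hL _).2.2.1, e0, Nat.cast_mul, mul_left_comm]
        exact mul_le_mul_of_nonneg_left e1 (Nat.cast_nonneg _))
    (fun j _ => hmono j) (fun _ _ _ => Iff.rfl)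
  rw [true_PrA, one_mul] at h
  exact le_trans (mono_PrA Ω p0 (by linarith) _ _ fun A _ hA => ⟨trivial, hA⟩) h

theorem face_GP1 (h7 : GN2) {D : ℕ} {κ q : ℝ} {w : ℕ} (hκ : 1 ≤ κ) (hq : 0 < q) (hw : 1 ≤ w)
    (y : Fin D → ℕ) (hy : ∀ j, q * ((y j : ℝ) + 2 * w + 1) ≤ κ) (i : Fin D) :
    F2 q w w y i ≤ (κ + 4 * κ * (1 + κ)) ^ (D - 1) := by
  obtain ⟨-, -, -, n4, -⟩ := h7 q w hq hw
  have h1 : (univ.erase i).card = D - 1 := by
    rw [card_erase_of_mem (mem_univ i), card_univ, Fintype.card_fin]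
  unfold F2
  rw [← h1, ← prod_const, ← prod_const, ← prod_mul_distrib]
  refine prod_le_prod (fun j _ => mul_nonneg hq.le (by unfold t2; positivity)) fun j _ => ?_
  have hw0 : (0 : ℝ) ≤ w := Nat.cast_nonneg _
  have hy0 : (0 : ℝ) ≤ y j := Nat.cast_nonneg _
  have h2 : Real.sqrt ((y j : ℝ) + 2 * w + 1) ≤ (y j : ℝ) + 2 * w + 1 := by
    rw [Real.sqrt_le_left (by positivity)]
    nlinarith
  have h3 : q * Real.sqrt ((y j : ℝ) + 2 * w + 1) ≤ κ :=
    (mul_le_mul_of_nonneg_left h2 hq.le).trans (hy j)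
  have h4 : q * Real.sqrt ((y j : ℝ) + 2 * w + 1) * (1 + q * ((y j : ℝ) + 2 * w + 1)) ≤
      κ * (1 + κ) :=
    mul_le_mul h3 (by linarith [hy j]) (by positivity) (by linarith)
  have h5 := mul_le_mul_of_nonneg_left (n4 (y j)) hq.le
  have h6 := hy j
  have h8 : 0 ≤ q * w := mul_nonneg hq.le hw0
  unfold t2
  nlinarith

theorem om_GP1 {D : ℕ} {q p φ σ β : ℝ} (p0 : 0 ≤ p) (p1 : p ≤ q ^ (D - 1)) (hσ : 0 ≤ σ)
    (h1 : q ^ (D - 1) * σ ≤ φ) (h2 : β ^ 2 ≤ 1 + 1 / φ) :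
    p ^ 2 * σ * β ^ 4 ≤ om D q φ := by
  have a0 : 0 ≤ q ^ (D - 1) := p0.trans p1
  have a1 : p ^ 2 * σ ≤ q ^ (D - 1) * φ := by
    calc p ^ 2 * σ ≤ (q ^ (D - 1)) ^ 2 * σ :=
          mul_le_mul_of_nonneg_right (pow_le_pow_left₀ p0 p1 2) hσ
      _ = q ^ (D - 1) * (q ^ (D - 1) * σ) := by ring
      _ ≤ _ := mul_le_mul_of_nonneg_left h1 a0
  have a2 : β ^ 4 ≤ (1 + 1 / φ) ^ 2 := by
    calc β ^ 4 = (β ^ 2) ^ 2 := by ring
      _ ≤ _ := pow_le_pow_left₀ (sq_nonneg β) h2 2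
  have a3 : 0 ≤ β ^ 4 := by positivity
  unfold om
  exact mul_le_mul a1 a2 a3 (le_trans (by positivity) a1)

theorem gP1 (h1 : GLY) (h2 : GExtA) (h3 : GLine) (h4 : GCrA) (h5 : GWM) (h6 : GW1) (h7 : GN2)
    (h8 : GCost) (h9 : GShift) : GP1 := by
  intro D d κ hκ
  obtain ⟨CM, hCM, HM⟩ := h5 D d
  obtain ⟨C, hC, HC⟩ := h6 D d κ hκ
  obtain ⟨A, c, hA, hc, HA⟩ := h9 D (d - D + 1) ((κ + 4 * κ * (1 + κ)) ^ (D - 1)) CM hCM
  refine ⟨A, C, hA, hC, ?_⟩
  intro q p w T η ε Φ F Ω S R M z hB hAw hT hS hSR hk hz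
  have hline := line_GP1 h1 h3 h7 h8 F Ω hB hS hSR hz
  have hmono := mono_GP1 h7 h8 hB hS hSR hz
  have hD := HC (d - D + 1) q p w η ε Φ F Ω S R M z hB hS hSR hk hz
  have hsh := fun y i j => HA q p w η ε Φ y i j hB hAw
  obtain ⟨⟨p0, p1, -, p2, -⟩, -, -, c4, c5, c6, c7, c8, c9, -, c11⟩ := h8 D _ q p w η ε Φ hB
  obtain ⟨hD2, hk1, hq, -, -, hw, -, -, -, hΦ⟩ := hB
  have hm := (h7 q w hq (by omega)).1
  obtain ⟨-, z2, -⟩ := bPathA D (m2 q w) S R M z hm hS hSR hz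
  obtain ⟨φ, hφ⟩ : ∃ φ : Sd D → ℤ → ℝ, φ = fun s j => F2 q w w (ex (z (tm z M s j))) s.1 :=
    ⟨_, rfl⟩
  have φ0 : ∀ s j, φ s j = F2 q w w (ex (z (tm z M s j))) s.1 := fun s j => by rw [hφ]
  have φ1 : ∀ s j, (q * w) ^ (D - 1) ≤ φ s j := fun s j => by
    rw [φ0]
    exact c5 w _ _ le_rfl
  simp only [← φ0] at hline hmono hD
  have hb : ∀ s j, 0 < Real.exp (- gk (d - D + 1) (φ s j)) ∧
      Real.exp (- gk (d - D + 1) (φ s j)) ≤ 1 := fun s j =>
    ⟨Real.exp_pos _, Real.exp_le_one_iff.2 (by linarith [(c8 _ (φ1 s j)).2.1])⟩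
  have hTw : 2 * T + 3 ≤ w := by
    have e1 : D ≤ d := (bLiftA D d F).1.2
    have e2 : 2 * T + 1 ≤ (2 * T + 1) ^ d := Nat.le_self_pow (by omega) _
    omega
  have hW := HM F Ω p p0 (by linarith) T R S R (oz (m2 q w) R M (T + 1) z)
    (fun s j => Real.exp (- gk (d - D + 1) (φ s j))) fun s j _ _ =>
      ⟨(oz_GP1 hm hS hSR hz (T + 1) s j).1, (hb s j).1, (hb s j).2, (c11 d T hT).2 _ (φ1 s j)⟩
  have hco : ∀ s j, co2 (d - D + 1) q w η ε (ex (z (tm z M s j))) s.1 +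
      CM * (p ^ 2 * sg (ex (oz (m2 q w) R M (T + 1) z s j)) s.1 *
        (Real.exp (- gk (d - D + 1) (φ s j)))⁻¹ ^ 4) ≤ gk (d - D + 1) (φ s j) := by
    intro s j
    have : Nontrivial (Fin D) := Fin.nontrivial_iff_two_le.2 hD2
    obtain ⟨l, hl⟩ := exists_ne s.1
    have e1 := hsh (ex (z (tm z M s j))) s.1 l hl (face_GP1 h7 hκ hq (by omega) _ (fun i => by
      have : (ex (z (tm z M s j)) i : ℝ) ≤ psi R := by
        exact_mod_cast (exmono_GP1 (z2 _).2.2 (z2 _).2.1 i).trans (exle_GP1 R i)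
      exact le_trans (mul_le_mul_of_nonneg_left (by linarith) hq.le) hk) s.1)
    have e2 : 0 ≤ c * w / t2 q w w (ex (z (tm z M s j)) l) := by
      unfold t2
      positivity
    have e3 := c6 w (ex (z (tm z M s j))) (ex (oz (m2 q w) R M (T + 1) z s j)) s.1 fun i => by
      have := (oz_GP1 hm hS hSR hz (T + 1) s j).2 i
      omega
    rw [← φ0] at e1 e3
    have e4 := om_GP1 p0 p1 (Nat.cast_nonneg _) e3 (c8 _ (φ1 s j)).2.2.2
    have e5 := mul_le_mul_of_nonneg_left e4 hCM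
    have e6 := (c7 (ex (z (tm z M s j))) s.1).2.1
    linarith
  have h := h4 D d F Ω p p0 p2
    (admM F T R S R (oz (m2 q w) R M (T + 1) z) ∪ admD F (m2 q w) M R z)
    (fun s j => LY F 0 (reg (m2 q w) R M 0 z s j)) (fun s j => LY F 1 (reg (m2 q w) R M 0 z s j))
    S R (fun s j => Real.exp (- gk (d - D + 1) (φ s j)))
    (fun s j => ⟨(hb s j).1, (hb s j).2, Real.exp_le_exp.2 (neg_le_neg
      ((bSlope _ hk1).2 _ _ (c8 _ (φ1 s j)).1 (hmono s j)).1)⟩)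
    (fun s J _ => hline s J)
  refine le_trans (mono_PrA Ω p0 (by linarith) _ _ fun B _ hB =>
    h2 D d F (m2 q w) S R M T z B hm hS hSR hz hB) (h.trans ?_)
  have hU := uni_GP1 (inst := inferInstance) (admM F T R S R (oz (m2 q w) R M (T + 1) z))
    (admD F (m2 q w) M R z)
    (fun u => Pr Ω p (ISp u.1) * aw F (fun s j => Real.exp (- gk (d - D + 1) (φ s j))) u)
    fun u => mul_nonneg (nonneg_PrA Ω p0 (by linarith) _)
      (prod_nonneg fun s _ => prod_nonneg fun j _ => inv_nonneg.2 (Real.exp_pos _).le)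
  simp only [← Real.exp_sum]
  rw [← Real.exp_add]
  refine Real.exp_le_exp.2 ?_
  have e1 := bPathC D (m2 q w) S R M z (co2 (d - D + 1) q w η ε) Φ hm hS hSR hz hΦ.2.1 c4
  have e2 : ∑ s : Sd D, (∑ j ∈ Ioc (S s) (R s),
      co2 (d - D + 1) q w η ε (ex (z (tm z M s j))) s.1 +
      ∑ j ∈ Ioc (S s) (R s), CM * (p ^ 2 * sg (ex (oz (m2 q w) R M (T + 1) z s j)) s.1 *
        (Real.exp (- gk (d - D + 1) (φ s j)))⁻¹ ^ 4) +
      ∑ j ∈ Ioo (S s) (R s), - gk (d - D + 1) (φ s (j + 1))) ≤ ∑ _s : Sd D, cz D q w := by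
    refine sum_le_sum fun s _ => ?_
    have e3 := bTrick.2.1 (S s) (R s) (fun j => gk (d - D + 1) (φ s j)) (cz D q w)
      (by linarith) fun j _ _ => (c8 _ (φ1 s j)).2.2.1
    have e4 := sum_le_sum (s := Ioc (S s) (R s)) fun j _ => hco s j
    rw [sum_add_distrib] at e4
    rw [sum_neg_distrib]
    linarith
  rw [sum_add_distrib, sum_add_distrib, sum_const, card_univ, Fintype.card_prod, Fintype.card_fin,
    Fintype.card_bool, nsmul_eq_mul] at e2
  push_cast at e2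
  linarith

end Pool.Agent.MP_6d294b_pr

end

section

open Finset

namespace Pool.Agent.MP_6d294b_pr

theorem sum_GD0 {D : ℕ} (i : Fin D) (f : Sd D → ℝ) (h : ∀ s : Sd D, s.1 ≠ i → f s = 0) :
    ∑ s, f s = f (i, true) + f (i, false) := by
  rw [Fintype.sum_prod_type, sum_eq_single i (fun j _ hj => by simp [h (j, _) hj]) (by simp)]
  simp

theorem gD0 (h1 : GLY) (h2 : GExtC) (h3 : GLine) (h4 : GCrA) (h5 : GWM) (h6 : GCost) : GD0 := by
  intro D d
  obtain ⟨C, hC, h5⟩ := h5 D d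
  refine ⟨C, hC, fun q p w T η ε Φ F Ω G S R i φ γ hB hT hS hSR f1 f2 hγ => ?_⟩
  obtain ⟨⟨p0, p1, -, p2, -⟩, -, -, -, -, -, -, c8, -, -, c11⟩ := h6 D _ q p w η ε Φ hB
  obtain ⟨-, hk, hq, -, hp, hw, -⟩ := hB
  obtain ⟨g0, g1, g2, g3⟩ := c8 φ f2
  have g4 := (c11 d T hT).2 φ f2
  obtain ⟨g, hg⟩ : ∃ g, g = gk (d - D + 1) φ := ⟨_, rfl⟩
  rw [← hg] at g1 g2 g3 g4 hγ
  obtain ⟨hR, e1, e2, -⟩ := (bGeoA D).2.2.2.1 S R hS hSR
  have hL := h1.1 D d F
  have b1 : Real.exp (- g) ≤ 1 := Real.exp_le_one_iff.2 (by linarith)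
  have hc := h4 D d F Ω p p0 p2 (admM F T R S (dirB S R i) fun _ _ => R)
    (fun s j => LY F 0 (lay R s j)) (fun s j => LY F 1 (lay R s j)) S (dirB S R i)
    (fun _ _ => Real.exp (- g)) (fun _ _ => ⟨Real.exp_pos _, b1, le_rfl⟩) (fun s J hJ => by
      by_cases hs : s.1 = i
      swap
      · have : J = ∅ := by
          rw [dirB, if_neg hs, Ioo_self] at hJ
          exact subset_empty.1 hJ
        rw [this, prod_empty]
        exact (bPrA _ Ω p p0 (by linarith)).2.1 _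
      have h := h3 (Pt d) Ω p (q ^ (D - 1)) (d - D + 1) hk (pow_pos hq _).le hp
        (fun j => LY F 0 (lay R s j)) (fun j => LY F 1 (lay R s j)) (fun _ => φ) J (fun _ => True)
        (fun a b _ _ hab => by
          rw [disjoint_left]
          intro x ha hb
          have e1 := (((bLay D _ s a).1 _).1 (((hL _).1 1 x).1 ha).1).1
          have e2 := (((bLay D _ s b).1 _).1 (((hL _).1 1 x).1 hb).1).1
          exact hab (e1.symm.trans e2))
        (fun j _ => by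
          refine ⟨fun x hx => ?_, ?_, ?_, g0⟩
          · obtain ⟨a1, a2, a3⟩ := ((hL _).1 0 x).1 hx
            refine ((hL _).1 1 x).2 ⟨a1, a2, a3.trans ?_⟩
            exact_mod_cast Nat.zero_le 1
          · rw [(hL _).2.1, (bLay D R s j).2 hR, hs]
            exact f1
          · rw [(hL _).2.2.1, (bLay D R s j).2 hR, hs, Nat.cast_mul, mul_left_comm]
            exact mul_le_mul_of_nonneg_left f1 (Nat.cast_nonneg _))
        (fun _ _ => le_rfl) (fun _ _ _ => Iff.rfl)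
      rw [true_PrA, one_mul, ← hg] at h
      exact le_trans (mono_PrA Ω p0 (by linarith) _ _ fun A _ hA => ⟨trivial, hA⟩) h)
  have hw5 := h5 F Ω p p0 (by linarith) T R S (dirB S R i) (fun _ _ => R)
    (fun _ _ => Real.exp (- g)) fun _ _ _ _ => ⟨hR, Real.exp_pos _, b1, g4⟩
  have o1 := om_GP1 p0 p1 (Nat.cast_nonneg (sg (ex R) i)) f1 g3
  have o2 := mul_le_mul_of_nonneg_left o1 hC
  have t1 : S (i, true) ≤ R (i, true) := hSR _
  have t2 : S (i, false) ≤ R (i, false) := hSR _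
  obtain ⟨a, ha⟩ : ∃ a : ℕ, R (i, true) = S (i, true) + a :=
    ⟨(R (i, true) - S (i, true)).toNat, by omega⟩
  obtain ⟨b, hb⟩ : ∃ b : ℕ, R (i, false) = S (i, false) + b :=
    ⟨(R (i, false) - S (i, false)).toNat, by omega⟩
  have e3 : (ex R i : ℝ) = ex S i + a + b := by
    have a1 := e1 i
    have a2 := e2 i
    exact_mod_cast (show ex R i = ex S i + a + b by omega)
  have d1 : dirB S R i (i, true) = S (i, true) + a := by rw [dirB, if_pos rfl, ha]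
  have d2 : dirB S R i (i, false) = S (i, false) + b := by rw [dirB, if_pos rfl, hb]
  rw [sum_GD0 i _ (fun s hs => by rw [dirB, if_neg hs, Ioc_self, sum_empty]), d1, d2] at hw5
  simp only [sum_const, Int.card_Ioc, add_sub_cancel_left, Int.toNat_natCast, nsmul_eq_mul] at hw5
  refine (mono_PrA Ω p0 (by linarith) _ _ fun A _ hA => h2 D d F T G S R i A hS hA).trans
    (hc.trans ?_)
  simp only [← Real.exp_sum]
  rw [← Real.exp_add, Real.exp_le_exp,
    sum_GD0 i _ (fun s hs => by rw [dirB, if_neg hs, Ioo_self, sum_empty]), d1, d2]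
  simp only [sum_const, Int.card_Ioo, add_sub_cancel_left, nsmul_eq_mul]
  have k1 : (a : ℝ) - 1 ≤ (((a : ℤ) - 1).toNat : ℕ) := by
    have : (a : ℤ) - 1 ≤ (((a : ℤ) - 1).toNat : ℕ) := Int.self_le_toNat _
    exact_mod_cast this
  have k2 : (b : ℝ) - 1 ≤ (((b : ℤ) - 1).toNat : ℕ) := by
    have : (b : ℤ) - 1 ≤ (((b : ℤ) - 1).toNat : ℕ) := Int.self_le_toNat _
    exact_mod_cast this
  have k3 := mul_le_mul_of_nonneg_right k1 g1
  have k4 := mul_le_mul_of_nonneg_right k2 g1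
  have k5 := mul_le_mul_of_nonneg_left o2 (Nat.cast_nonneg (α := ℝ) a)
  have k6 := mul_le_mul_of_nonneg_left o2 (Nat.cast_nonneg (α := ℝ) b)
  have k7 := mul_le_mul_of_nonneg_left hγ (Nat.cast_nonneg (α := ℝ) a)
  have k8 := mul_le_mul_of_nonneg_left hγ (Nat.cast_nonneg (α := ℝ) b)
  rw [e3]
  linarith

end Pool.Agent.MP_6d294b_pr

end

section

open Finset

namespace Pool.Agent.MP_6d294b_pr

lemma alg_GRat {k x s t b h c : ℝ} (hk : 0 ≤ k) (x0 : 0 < x) (x1 : x < 1) (s0 : 0 < s)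
    (s1 : s ≤ 1) (st : s * t = 1) (b0 : 0 < b) (ub : 1 - x ≤ b)
    (hq : b ^ 2 = (1 - s) * b + s * (1 - x))
    (hh : h * (b ^ 2 * t + (1 - x)) = k * (b - (1 - x)) + x) (hc : c * b ^ 2 ≤ x * s)
    (c0 : 0 ≤ c) :
    (k * (h * b - x) - x) * (b ^ 2 * t + (1 - x)) -
      (k * (b - (1 - x)) + x) * (2 * h * b ^ 2 * t + k * (b ^ 2 * t) + x) +
      (k * (b - (1 - x)) + x) * (c * (b ^ 2 * t + (1 - x))) ≤ 0 := by
  have t0 : 0 < t := pos_of_mul_pos_left (by rw [mul_comm, st]; exact one_pos) s0.le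
  have a0 : s * (1 - x) ≤ b ^ 2 := by nlinarith [mul_nonneg (sub_nonneg.2 s1) b0.le]
  have a1 : 1 - x ≤ b ^ 2 * t := by
    have := mul_le_mul_of_nonneg_right a0 t0.le
    rwa [mul_right_comm, st, one_mul] at this
  have D0 : 0 < b ^ 2 * t + (1 - x) := by linarith
  have N0 : 0 < k * (b - (1 - x)) + x := by
    have := mul_nonneg hk (sub_nonneg.2 ub)
    linarith
  have h0 : 0 ≤ h := nonneg_of_mul_nonneg_left (hh ▸ N0.le) D0
  have a2 : k * (b - (1 - x)) + x ≤ 2 * h * b ^ 2 * t := by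
    have := mul_le_mul_of_nonneg_left a1 h0
    linarith
  have a3 : k * b + 2 * x ≤ 2 * h * b ^ 2 * t + k * (b ^ 2 * t) + x := by
    have := mul_le_mul_of_nonneg_left a1 hk
    linarith
  have a5 : c * (b ^ 2 * t + (1 - x)) ≤ 2 * x := by
    have e1 := mul_le_mul_of_nonneg_left a1 c0
    have e2 := mul_le_mul_of_nonneg_right hc t0.le
    rw [mul_assoc x, st] at e2
    linarith
  have a6 : (k * (h * b - x) - x) * (b ^ 2 * t + (1 - x)) ≤ (k * (b - (1 - x)) + x) * (k * b) := by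
    rw [← hh]
    have := mul_nonneg (add_nonneg (mul_nonneg hk x0.le) x0.le) D0.le
    linarith
  have a7 := mul_le_mul_of_nonneg_left a3 N0.le
  have a8 := mul_le_mul_of_nonneg_left a5 N0.le
  linarith

lemma bas_GRat {k : ℕ} (hk : 1 ≤ k) {z : ℝ} (hz : 0 < z) :
    1 - Real.exp (- z) ≤ bz k z ∧ bz k z ≤ 1 ∧
    bz k z ^ 2 = (1 - Real.exp (- z) ^ k) * bz k z + Real.exp (- z) ^ k * (1 - Real.exp (- z)) ∧
    - mkk k z * (bz k z ^ 2 * Real.exp (k * z) + (1 - Real.exp (- z))) =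
      k * (bz k z - (1 - Real.exp (- z))) + Real.exp (- z) ∧
    Real.exp (- z) ^ k * Real.exp (k * z) = 1 ∧ bz k z ^ 2 ≤ (k + 1) ^ 2 * z := by
  obtain ⟨-, -, b0, b1, -⟩ := bDer k hk z hz
  have y0 : 0 < Real.exp (-z) := Real.exp_pos _
  have y1 : Real.exp (-z) < 1 := Real.exp_lt_one_iff.2 (by linarith)
  obtain ⟨u1, u2, u3⟩ := (bBet k hk).1 (1 - Real.exp (-z)) (by linarith) (by linarith)
  rw [sub_sub_cancel] at u3
  change _ ≤ bz k z at u1
  change bz k z ≤ 1 at u2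
  change bz k z ^ 2 = (1 - Real.exp (-z) ^ k) * bz k z + _ at u3
  have D0 : 0 < dl k z := b0.trans_le b1
  have st : Real.exp (- z) ^ k * Real.exp (k * z) = 1 := by
    rw [← Real.exp_nat_mul, ← Real.exp_add]
    simp
  have s0 : 0 < Real.exp (- z) ^ k := pow_pos y0 k
  have k1 : (1 : ℝ) ≤ k := by exact_mod_cast hk
  refine ⟨u1, u2, u3, ?_, st, ?_⟩
  · have hc : -mkk k z * bz k z * dl k z =
        k * (bz k z * (1 - bz k z)) + Real.exp (-z) ^ k * Real.exp (-z) := by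
      rw [mkk]
      field_simp
      ring
    refine mul_left_cancel₀ s0.ne' ?_
    rw [dl] at hc
    linear_combination hc - mkk k z * bz k z ^ 2 * st + mkk k z * u3 - k * u3
  · rcases le_total 1 z with h | h
    · nlinarith [mul_le_mul u2 u2 b0.le zero_le_one]
    · have e1 := pow_RSlope k z
      have e2 := Real.add_one_le_exp (- z)
      have e3 : Real.exp (- z) ^ k ≤ 1 := pow_le_one₀ y0.le y1.le
      have e4 := mul_le_mul_of_nonneg_right (by linarith : 1 - Real.exp (- z) ^ k ≤ k * z) b0.le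
      have e5 := mul_le_mul_of_nonneg_right e3 (sub_nonneg.2 y1.le)
      have e6 := sq_nonneg (bz k z - k * z)
      have e7 := mul_le_mul_of_nonneg_left h (by positivity : 0 ≤ (k : ℝ) ^ 2 * z)
      have e8 := mul_le_mul_of_nonneg_right k1 hz.le
      nlinarith

lemma small_GRat {k : ℕ} (hk : 1 ≤ k) {c a Z : ℝ} (c0 : 0 ≤ c) (ha : 0 < a) (haZ : a < Z)
    (hc : c * ((k + 1) ^ 2 * Z) ≤ Real.exp (- ((k + 1) * Z))) :
    - mkk k Z * Real.exp (c * Z) ≤ - mkk k a * Real.exp (c * a) := by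
  have D0 : ∀ z : ℝ, 0 < z → 0 < bz k z ^ 2 * Real.exp (k * z) + (1 - Real.exp (- z)) :=
    fun z hz => add_pos_of_nonneg_of_pos (by positivity)
      (sub_pos.2 (Real.exp_lt_one_iff.2 (by linarith)))
  have e : ∀ z : ℝ, 0 < z → - mkk k z = (k * (bz k z - (1 - Real.exp (- z))) + Real.exp (- z)) /
      (bz k z ^ 2 * Real.exp (k * z) + (1 - Real.exp (- z))) := fun z hz =>
    eq_div_of_mul_eq (D0 z hz).ne' (bas_GRat hk hz).2.2.2.1
  have hy : ∀ z : ℝ, HasDerivAt (fun t : ℝ => Real.exp (- t)) (- Real.exp (- z)) z := fun z => by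
    simpa using (hasDerivAt_neg z).exp
  have hx : ∀ r z : ℝ, HasDerivAt (fun t : ℝ => Real.exp (r * t)) (Real.exp (r * z) * r) z :=
    fun r z => by simpa using ((hasDerivAt_id z).const_mul r).exp
  obtain ⟨z, z1, z2, hz⟩ := mvt_RSlope (fun z hz =>
    ((((((bDer k hk z hz).2.1.sub ((hy z).const_sub 1)).const_mul (k : ℝ)).add (hy z)).div
      ((((bDer k hk z hz).2.1.pow 2).mul (hx k z)).add ((hy z).const_sub 1)) (D0 z hz).ne').mul
      (hx c z))) ha haZ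
  have z0 := ha.trans z1
  obtain ⟨u1, -, u3, u4, u5, u6⟩ := bas_GRat hk z0
  have y0 : 0 < Real.exp (-z) := Real.exp_pos _
  have y1 : Real.exp (-z) < 1 := Real.exp_lt_one_iff.2 (by linarith)
  have i1 := alg_GRat (c := c) (Nat.cast_nonneg k) y0 y1 (pow_pos y0 k) (pow_le_one₀ y0.le y1.le)
    u5 (bDer k hk z z0).2.2.1 u1 u3 u4 (by
      refine (mul_le_mul_of_nonneg_left (u6.trans (mul_le_mul_of_nonneg_left z2.le
        (sq_nonneg _))) c0).trans (hc.trans ?_)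
      rw [← pow_succ', ← Real.exp_nat_mul, Real.exp_le_exp]
      push_cast
      nlinarith [Nat.cast_nonneg (α := ℝ) k]) c0
  rw [e a ha, e Z (ha.trans haZ), ← sub_nonpos]
  refine le_of_eq_of_le hz (mul_nonpos_of_nonpos_of_nonneg ?_ (sub_pos.2 haZ).le)
  simp only [Pi.add_apply, Pi.mul_apply, Pi.pow_apply, Pi.sub_apply, Pi.div_apply]
  have d0 := D0 z z0
  refine le_of_eq_of_le ?_ (mul_nonpos_of_nonpos_of_nonneg
    (div_nonpos_of_nonpos_of_nonneg i1 (pow_pos d0 2).le) (Real.exp_pos (c * z)).le)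
  field_simp
  push_cast
  ring

theorem gRat (h1 : GSlpA) : GRat := by
  intro k hk
  have k1 : (1 : ℝ) ≤ k := by exact_mod_cast hk
  obtain ⟨-, -, p3, -, p5, p6⟩ := h1 k hk
  refine ⟨Real.exp (- ((k + 1) * 8)) / (4 * (k + 1) ^ 2), by positivity, fun Z hZ => ?_⟩
  have m0 : 0 ≤ - mkk k Z := neg_nonneg.2 (p3 Z hZ)
  rcases le_total Z 8 with h | h
  · obtain ⟨c, hc⟩ : ∃ c : ℝ, c = Real.exp (- ((k + 1) * 8)) / ((k + 1) ^ 2 * Z) := ⟨_, rfl⟩
    have c0 : 0 ≤ c := by rw [hc]; positivity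
    have i1 := small_GRat hk c0 (a := 3 * Z / 4) (Z := Z) (by linarith) (by linarith) (by
      rw [hc, div_mul_cancel₀ _ (by positivity), Real.exp_le_exp]
      nlinarith)
    rw [show c * Z = c * Z / 4 + c * (3 * Z / 4) by ring, Real.exp_add, ← mul_assoc] at i1
    refine le_trans ?_ (le_of_mul_le_mul_right i1 (Real.exp_pos _))
    rw [mul_comm]
    refine mul_le_mul_of_nonneg_left (le_trans (le_of_eq ?_) (Real.add_one_le_exp _)) m0
    rw [hc]
    field_simp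
    ring
  · have d1 : Real.exp (- ((k + 1) * 8)) / (4 * (k + 1) ^ 2) ≤ 1 := by
      rw [div_le_one (by positivity)]
      have : Real.exp (- ((k + 1) * 8)) ≤ 1 := Real.exp_le_one_iff.2 (by linarith)
      nlinarith
    refine le_trans ?_ (p5 _ (by linarith))
    have i1 := p6 Z hZ
    have E0 := Real.exp_pos (- ((k + 1) * Z))
    have i2 : - mkk k Z ≤ 9 / 8 * (k + 1) * Real.exp (- ((k + 1) * Z)) := by
      refine le_of_mul_le_mul_left (i1.trans ?_) hZ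
      have := mul_le_mul_of_nonneg_right h
        (by positivity : 0 ≤ (k + 1) * Real.exp (- ((k + 1) * Z)))
      linarith
    have i3 : 9 / 2 * (k + 1) ≤ Real.exp ((k + 1) * (Z / 4)) := by
      have e1 : Real.exp ((k + 1) + (k + 1)) ≤ Real.exp ((k + 1) * (Z / 4)) :=
        Real.exp_le_exp.2 (by nlinarith)
      rw [Real.exp_add] at e1
      have e2 := Real.add_one_le_exp (k + 1)
      nlinarith [mul_le_mul e2 e2 (by linarith) (Real.exp_pos _).le]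
    rw [show - ((k + 1) * (3 * Z / 4)) = (k + 1) * (Z / 4) + - ((k + 1) * Z) by ring,
      Real.exp_add]
    have i4 := mul_le_mul_of_nonneg_right i3 E0.le
    have i5 := mul_le_mul_of_nonneg_right d1 m0
    linarith

end Pool.Agent.MP_6d294b_pr

end

section

open Finset

namespace Pool.Agent.MP_6d294b_pr

theorem three_GSplG {x y z a b c v : ℝ} (hy0 : 0 ≤ y) (hz0 : 0 ≤ z) (hx : x ≤ Real.exp a)
    (hy : y ≤ Real.exp b) (hz : z ≤ Real.exp c) (h : a + b + c ≤ v) :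
    x * y * z ≤ Real.exp v := by
  calc x * y * z ≤ Real.exp a * Real.exp b * Real.exp c := by
        apply mul_le_mul _ hz hz0 (by positivity)
        exact mul_le_mul hx hy hy0 (by positivity)
    _ = Real.exp (a + b + c) := by rw [Real.exp_add, Real.exp_add]
    _ ≤ Real.exp v := Real.exp_le_exp.mpr h

theorem gSplG (h1 : GDir) (h2 : GNdl) (h3 : GSpl) (h4 : GSL) (h5 : GN2) (h6 : GCost) :
    GSplG := by
  intro D d C hC
  obtain ⟨Cd, hCd, H1⟩ := h1 D d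
  obtain ⟨An, hAn, H2⟩ := h2 D (d - D + 1) Cd hCd
  obtain ⟨As, hAs, H3⟩ := h3 D (d - D + 1) An C (by omega) hAn hC
  refine ⟨An + As, by linarith, ?_⟩
  intro A hA q p N w T K Y ε ρ X G Φ F Ω hB hk hP Q P S hQ hPv hQS hPS hS hPQ hq hp
  obtain ⟨-, hw8, -, hAw, hTw, hAqw, -, -, hρ, -, hAq, hX, hG, hT, hN, hAc, he1, he2, he3, -⟩ := hP
  obtain ⟨⟨hp0, -, -, hp2, -⟩, -, -, -, c5, c6, -, -, hc, -, c11⟩ :=
    h6 D (d - D + 1) q p w _ ε Φ hB
  have hD : 2 ≤ D := hB.1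
  have hq0 : 0 < q := hB.2.2.1
  have hA1 : 1 ≤ A := by linarith
  have hAnA : An ≤ A := by linarith
  have hAsA : As ≤ A := by linarith
  have hsq : 0 ≤ Real.sqrt q := Real.sqrt_nonneg q
  have hc0 : 0 ≤ cz D q w := by linarith
  have hη : 0 ≤ 2 * (A * Real.sqrt q) * ρ := by positivity
  obtain ⟨-, g2, -, -, -⟩ := (bGeoA D).2.2.2.1 Q S hQ hQS
  obtain ⟨-, g3, -, g4, -⟩ := (bGeoA D).2.2.2.1 P S hPv hPS
  have hQS' : psi Q ≤ psi S := Finset.sum_le_sum fun i _ => g2 i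
  have hPS' : psi P ≤ psi S := by omega
  have hL := (h4 D d F Ω p (cz D q w) T N S (by omega) hp0 (by linarith) hc0 hk
    (c11 d T hTw).1 hS).2 (dfc (ex Q) (ex P) (ex S))
  have hpos := (bPrA (Pt d) Ω p hp0 (by linarith)).1
  have hAs1 : As * Real.sqrt q ≤ 1 := by
    have e1 : As * Real.sqrt q ≤ A * Real.sqrt q := mul_le_mul_of_nonneg_right hAsA hsq
    have e2 : 0 ≤ A * Real.sqrt q * (q * (2 * N + 1)) := by positivity
    nlinarith
  have hAs2 : 4 * As * q * w ≤ 1 := by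
    have e1 : As * (q * w) ≤ A * (q * w) := mul_le_mul_of_nonneg_right hAsA (by positivity)
    nlinarith
  have hAs3 : As * cz D q w ≤ w := le_trans (mul_le_mul_of_nonneg_right hAsA hc0) hAc
  obtain ⟨k1, k2⟩ := H3 q p w N _ ε _ Φ hB hη hAs3 hAs1 hAs2 he1 he2 he3 (ex Q) (ex P) (ex S)
    g2 g3 hPQ hS
  have hsqc : As * cz D q w ^ 2 ≤ A * cz D q w ^ 2 :=
    mul_le_mul_of_nonneg_right hAsA (by positivity)
  have hsq0 : 0 ≤ A * cz D q w ^ 2 := by positivity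
  rcases k2 with ⟨i, hi⟩ | k2
  · obtain ⟨n1, n2⟩ := H2 q p w N _ ε Φ (ex Q) i hB (le_trans hAnA hAw) hN
      (le_trans hQS' hS) hi
    have hX2 : 2 * cz D q w ≤ X := by
      have e1 : (2 : ℝ) ≤ D := by exact_mod_cast hD
      have e2 : 0 ≤ A * q * N * (1 + q * (2 * N + 1)) ^ D := by positivity
      have e3 : 0 ≤ Real.log (2 * (N : ℝ) + 1) :=
        Real.log_nonneg (by linarith [(Nat.cast_nonneg N : (0 : ℝ) ≤ N)])
      have e4 : 0 ≤ 2 * D * Real.log (2 * (N : ℝ) + 1) := by positivity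
      have e5 : 2 * cz D q w ≤ D * cz D q w := mul_le_mul_of_nonneg_right e1 hc0
      nlinarith
    have hQ2 := H1 q p w T K Y N _ ε G Φ F Ω Q i (F2 q w w (ex Q) i) _ hB hTw hk hQ
      (le_trans hQS' hS) (by linarith) (by linarith)
      (c6 w (ex Q) (ex Q) i fun j => by omega) (c5 w (ex Q) i le_rfl) n1 le_rfl
    refine three_GSplG (hpos _) (hpos _) hQ2 hp hL ?_
    have hNV : NV q w (ex P) ≤ NV q w (ex S) :=
      Finset.sum_le_sum fun j _ => (h5 q w hq0 (by omega)).2.1 (g3 j)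
    have e1 : C * NV q w (ex P) ≤ C * NV q w (ex S) := mul_le_mul_of_nonneg_left hNV hC
    have e2 : 2 * (A * Real.sqrt q) * ρ * (psi P : ℝ) ≤
        2 * (A * Real.sqrt q) * ρ * (psi S : ℝ) :=
      mul_le_mul_of_nonneg_left (by exact_mod_cast hPS') hη
    unfold Vg
    linarith
  · refine three_GSplG (hpos _) (hpos _) hq hp hL ?_
    have f1 : (∑ l, ex Q l : ℕ) = psi Q := rfl
    have f2 : (∑ l, ex P l : ℕ) = psi P := rfl
    have f3 : (∑ l, ex S l : ℕ) = psi S := rfl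
    rw [f1, f2, f3] at k2
    unfold Vg
    linarith

end Pool.Agent.MP_6d294b_pr

end
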