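import Mathlib

set_option linter.all false

section

open Finset

namespace Pool.Agent.MP_6d294b_pr

open Classical in
/-- probability of the event `E` for a `p`-random subset of the ground set `Ω` -/
noncomputable def Pr {α : Type*} (Ω : Finset α) (p : ℝ) (E : Finset α → Prop) : ℝ :=
  ∑ A ∈ Ω.powerset, if E A then p ^ A.card * (1 - p) ^ (Ω.card - A.card) else 0

/-- increasing events -/
def Incr {α : Type*} (E : Finset α → Prop) : Prop := ∀ A B : Finset α, A ⊆ B → E A → E B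

abbrev Pt (d : ℕ) := Fin d → ℤ
abbrev Sd (d : ℕ) := Fin d × Bool
abbrev Bx (d : ℕ) := Sd d → ℤ
abbrev Dat (d : ℕ) := Bx d × (Sd d → ℕ)

variable {d : ℕ}

/-- signed coordinate of a point seen from the side `s` -/
def kap (s : Sd d) (x : Pt d) : ℤ := if s.2 then x s.1 else - x s.1

def opp (s : Sd d) : Sd d := (s.1, !s.2)

/-- the box consisting of one point; a box is given by its `2d` tops -/
def ptB (x : Pt d) : Bx d := fun s => kap s x

def InB (x : Pt d) (R : Bx d) : Prop := ∀ s, kap s x ≤ R s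

/-- nonempty boxes -/
def Val (R : Bx d) : Prop := ∀ i, 0 ≤ R (i, true) + R (i, false)

/-- side length minus one -/
def ex (R : Bx d) (i : Fin d) : ℕ := (R (i, true) + R (i, false)).toNat

/-- sum of the side lengths minus `d` -/
def psi (R : Bx d) : ℕ := ∑ i, ex R i

/-- distance of two boxes -/
def gap (Q P : Bx d) : ℕ := ∑ s, (- P (opp s) - Q s).toNat

/-- the rectangle process -/
inductive Span : Finset (Pt d) → Bx d → Prop
  | pt (x : Pt d) : Span {x} (ptB x)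
  | merge {A B : Finset (Pt d)} {Q P : Bx d} : Span A Q → Span B P → Disjoint A B →
      gap Q P ≤ 2 → Span (A ∪ B) (Q ⊔ P)

def ISp (R : Bx d) (A : Finset (Pt d)) : Prop := ∃ B, B ⊆ A ∧ Span B R

/-- cross section orthogonal to the direction `i` of a box with side lengths `y j + 1` -/
def sg (y : Fin d → ℕ) (i : Fin d) : ℕ := ∏ j ∈ univ.erase i, (y j + 1)

noncomputable def boxes (R : Bx d) : Finset (Bx d) :=
  Fintype.piFinset fun s => Finset.Icc (- R (opp s)) (R s)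

/-- record of an overhanging merge -/
def Adm (T : ℕ) (S R : Bx d) (u : Dat d) : Prop :=
  Val u.1 ∧ u.1 ≤ R ∧ psi u.1 < T ∧ ∑ s, u.2 s ≤ psi u.1 + 2 ∧
  (∀ s, u.2 s ≠ 0 → S s + u.2 s ≤ u.1 s) ∧
  ∃ s s' : Sd d, s.1 ≠ s'.1 ∧ u.2 s ≠ 0 ∧ u.2 s' ≠ 0

open Classical in
noncomputable def admSet (T : ℕ) (S R : Bx d) : Finset (Dat d) :=
  (boxes R ×ˢ Fintype.piFinset fun _ => Finset.range (T + 2)).filter (Adm T S R)

open Classical in
/-- layers that are not deleted -/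
noncomputable def JS (S R : Bx d) (U : Finset (Dat d)) (s : Sd d) : Finset ℤ :=
  (Finset.Ioc (S s) (R s)).filter fun j => ∀ u ∈ U, ¬ (u.1 s - u.2 s < j ∧ j ≤ u.1 s)

def Occ (R : Bx d) (s : Sd d) (j : ℤ) (W : Finset (Pt d)) : Prop :=
  ∃ x ∈ W, InB x R ∧ kap s x = j

/-- no double gap among the layers in `J` -/
def Good (R : Bx d) (s : Sd d) (J : Finset ℤ) (W : Finset (Pt d)) : Prop :=
  ∀ j ∈ J, Occ R s j W ∨ (j + 1 ∈ J ∧ Occ R s (j + 1) W)

def Cross (T : ℕ) (S R : Bx d) (A : Finset (Pt d)) : Prop :=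
  ∃ (U : Finset (Dat d)) (w : Dat d → Finset (Pt d)) (W : Sd d → Finset (Pt d)),
    (∀ u ∈ U, Adm T S R u ∧ w u ⊆ A ∧ Span (w u) u.1) ∧
    (∀ s, W s ⊆ A ∧ Good R s (JS S R U s) (W s)) ∧
    (∀ u ∈ U, ∀ v ∈ U, u ≠ v → Disjoint (w u) (w v)) ∧
    (∀ s t, s ≠ t → Disjoint (W s) (W t)) ∧
    (∀ u ∈ U, ∀ s, Disjoint (w u) (W s))

noncomputable def bet (u : ℝ) : ℝ := (u + Real.sqrt (u * (4 - 3 * u))) / 2

noncomputable def gf (z : ℝ) : ℝ := - Real.log (bet (1 - Real.exp (- z)))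

noncomputable def lam (d : ℕ) : ℝ := ∫ z in Set.Ioi (0 : ℝ), gf (z ^ (d - 1))

/-- shortest path potential on side lengths -/
def IsPot (G : ℕ → ℝ) (Φ : (Fin d → ℕ) → ℝ) : Prop :=
  Φ 0 = 0 ∧ (∀ y i, Φ (y + Pi.single i 1) ≤ Φ y + G (sg y i)) ∧
  ∀ y, y ≠ 0 → ∃ y' i, y = y' + Pi.single i 1 ∧ Φ y = Φ y' + G (sg y' i)

/-- sum of the logarithms of the side lengths -/
noncomputable def lg (R : Bx d) : ℝ := ∑ i, Real.log ((ex R i : ℝ) + 1)

/-- the box `[0,n)^d` -/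
def cube (d n : ℕ) : Bx d := fun s => if s.2 then (n : ℤ) - 1 else 0

noncomputable def grid (d n : ℕ) : Finset (Pt d) := Fintype.piFinset fun _ => Finset.Ico (0 : ℤ) n

/-- percolation in the form used in the problem, for `r = 2` -/
def Perc (d n : ℕ) (A : Finset (Fin d → Fin n)) : Prop :=
  ∀ S : Set (Fin d → Fin n), (↑A : Set (Fin d → Fin n)) ⊆ S →
    (∀ v : Fin d → Fin n,
      2 ≤ Set.ncard {u : Fin d → Fin n | u ∈ S ∧
        (∑ i : Fin d, Int.natAbs (((u i : ℕ) : ℤ) - ((v i : ℕ) : ℤ))) = 1} → v ∈ S) →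
    S = Set.univ

def emb (d n : ℕ) (u : Fin d → Fin n) : Pt d := fun i => ((u i : ℕ) : ℤ)

/-- error budget -/
noncomputable def theta (d T N : ℕ) (p' : ℝ) : ℝ :=
  (2 * T + 1) * (1 + 2 ^ (3 * d + 3) * d * (p' * (2 * N + 1) ^ (d - 1) + 1))

noncomputable def eta (d T : ℕ) : ℝ := (2 * d * Real.log (2 * T + 2) + Real.log 2) / T

noncomputable def epsMax (d T N : ℕ) (p' : ℝ) : ℝ :=
  2 * N * eta d T + theta d T N p' * (d * Real.log (2 * N + 1))

/-- shift of the argument of `gf` -/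
def sst (d M : ℕ) : ℕ := 200 * (M + 1) ^ (d - 1)

noncomputable def Gt (d M : ℕ) (p' : ℝ) (k : ℝ) : ℝ := gf (p' * (k + sst d M))

/-- conditions on the parameters -/
def Par (d T M N : ℕ) (p' : ℝ) : Prop :=
  2 ≤ d ∧ 0 < p' ∧ 1 ≤ T ∧ 808 * (epsMax d T N p' + T) ≤ M ∧
  p' * (202 * (M + 1) ^ (d - 1)) ≤ 2 / 5 ∧
  (2 * N + 1 : ℝ) ^ (4 * d) * (2 / (p' * sst d M)) * Real.exp (- T) ≤ 1 / 2

end Pool.Agent.MP_6d294b_pr

end

section

open Finset

namespace Pool.Agent.MP_6d294b_pr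

/-! ### probability -/

/-- elementary facts -/
def SPrA : Prop := ∀ (α : Type) [DecidableEq α] (Ω : Finset α) (p : ℝ), 0 ≤ p → p ≤ 1 →
  (∀ E : Finset α → Prop, 0 ≤ Pr Ω p E) ∧ (∀ E : Finset α → Prop, Pr Ω p E ≤ 1) ∧
  (∀ E F : Finset α → Prop, (∀ A, A ⊆ Ω → E A → F A) → Pr Ω p E ≤ Pr Ω p F) ∧
  (∀ E F : Finset α → Prop, Pr Ω p (fun A => E A ∨ F A) ≤ Pr Ω p E + Pr Ω p F) ∧
  (∀ (ι : Type) (I : Finset ι) (E : ι → Finset α → Prop),
    Pr Ω p (fun A => ∃ k ∈ I, E k A) ≤ ∑ k ∈ I, Pr Ω p (E k)) ∧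
  (∀ (X : Finset α) (m : ℕ), Pr Ω p (fun A => m ≤ (A ∩ X).card) ≤ (X.card.choose m : ℝ) * p ^ m)

/-- independence, empty sets, monotonicity in `p` -/
def SPrB : Prop := ∀ (α : Type) [DecidableEq α] (Ω : Finset α) (p : ℝ), 0 ≤ p → p ≤ 1 →
  (∀ (X : Finset α) (E F : Finset α → Prop), (∀ A, E A ↔ E (A ∩ X)) → (∀ A, F A ↔ F (A \ X)) →
    Pr Ω p (fun A => E A ∧ F A) = Pr Ω p E * Pr Ω p F) ∧
  (∀ E : Finset α → Prop, Pr Ω p (fun A => ¬ E A) = 1 - Pr Ω p E) ∧
  (∀ X : Finset α, (1 - p) ^ X.card ≤ Pr Ω p (fun A => A ∩ X = ∅)) ∧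
  (∀ E : Finset α → Prop, Incr E → ∀ p₀ : ℝ, p ≤ p₀ → p₀ ≤ 1 → Pr Ω p E ≤ Pr Ω p₀ E)

/-- van den Berg - Kesten inequality for `p ≤ 1/2` -/
def SBK : Prop := ∀ (α : Type) [DecidableEq α] (Ω : Finset α) (p : ℝ), 0 ≤ p → p ≤ 1 / 2 →
  ∀ (ι : Type) (I : Finset ι) (E : ι → Finset α → Prop), (∀ k ∈ I, Incr (E k)) →
    Pr Ω p (fun A => ∃ w : ι → Finset α, (∀ k ∈ I, w k ⊆ A ∧ E k (w k)) ∧
      ∀ k ∈ I, ∀ l ∈ I, k ≠ l → Disjoint (w k) (w l)) ≤ ∏ k ∈ I, Pr Ω p (E k)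

/-! ### geometry -/

def SGeoA : Prop := ∀ d : ℕ,
  (∀ (A : Finset (Pt d)) (R : Bx d), Span A R →
    Val R ∧ (∀ x ∈ A, InB x R) ∧ psi R + 2 ≤ 2 * A.card ∧
    ∀ (s : Sd d) (j : ℤ), - R (opp s) - 1 ≤ j → j ≤ R s →
      ∃ x ∈ A, kap s x = j ∨ kap s x = j + 1) ∧
  (∀ Q P : Bx d, gap Q P = gap P Q) ∧
  (∀ R : Bx d, Val R → (psi R : ℤ) = ∑ s, R s) ∧
  (∀ S R : Bx d, Val S → S ≤ R → Val R ∧ (∀ i, ex S i ≤ ex R i) ∧
    (∀ i, ex R i - ex S i = (R (i, true) - S (i, true)).toNat + (R (i, false) - S (i, false)).toNat) ∧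
    psi R = psi S + ∑ s, (R s - S s).toNat ∧ S ∈ boxes R) ∧
  (∀ Q P : Bx d, Val Q → Val P →
    ∑ i, (ex (Q ⊔ P) i - (ex Q i + ex P i)) ≤ gap Q P ∧ psi (Q ⊔ P) ≤ psi Q + psi P + gap Q P)

/-- counting -/
def SGeoB : Prop := ∀ d : ℕ,
  (∀ (R : Bx d) (K : ℕ), (∀ i, ex R i + 1 ≤ K) → (boxes R).card ≤ K ^ (2 * d)) ∧
  (∀ (R : Bx d) (D : ℕ) (X : Finset (Bx d)), (∀ S ∈ X, Val S ∧ S ≤ R ∧ psi R ≤ psi S + D) →
    X.card ≤ (D + 1) ^ (2 * d)) ∧
  (∀ (n D : ℕ) (X : Finset (Bx d)), (∀ S ∈ X, Val S ∧ S ≤ cube d n ∧ psi S ≤ D) →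
    X.card ≤ n ^ d * (D + 1) ^ d) ∧
  (∀ (R : Bx d) (X : Finset (Pt d)), (∀ x ∈ X, InB x R) → X.card ≤ ∏ i, (ex R i + 1)) ∧
  (∀ (R : Bx d) (s : Sd d) (j : ℤ) (X : Finset (Pt d)), (∀ x ∈ X, InB x R ∧ kap s x = j) →
    X.card ≤ sg (ex R) s.1)

/-- rectangle process and Aizenman - Lebowitz lemma -/
def SRect : Prop := ∀ (d n N : ℕ), 1 ≤ d → 1 ≤ N → N + 1 ≤ n → ∀ A : Finset (Fin d → Fin n),
  Perc d n A → ∃ R : Bx d, Val R ∧ R ≤ cube d n ∧ N ≤ psi R ∧ psi R ≤ 2 * N ∧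
    ISp R (A.image (emb d n))

/-- the chain decomposition -/
def SChain : Prop := ∀ (d T : ℕ) (A : Finset (Pt d)) (R : Bx d), Span A R → 1 ≤ T → T ≤ psi R →
  (∃ (S : Bx d) (B C : Finset (Pt d)), B ⊆ A ∧ C ⊆ A ∧ Disjoint B C ∧ Span B S ∧ Cross T S R C ∧
    S ≤ R ∧ psi S + T ≤ psi R ∧ psi R ≤ psi S + (2 * T + 1)) ∨
  (∃ (Q P : Bx d) (B₁ B₂ C : Finset (Pt d)), B₁ ⊆ A ∧ B₂ ⊆ A ∧ C ⊆ A ∧ Disjoint B₁ B₂ ∧
    Disjoint B₁ C ∧ Disjoint B₂ C ∧ Span B₁ Q ∧ Span B₂ P ∧ Cross T (Q ⊔ P) R C ∧ Q ⊔ P ≤ R ∧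
    gap Q P ≤ 2 ∧ T ≤ psi P ∧ psi P ≤ psi Q ∧ psi Q < psi (Q ⊔ P) ∧ psi R < psi (Q ⊔ P) + T)

/-! ### the function `gf` -/

def SBet : Prop :=
  (∀ u : ℝ, 0 ≤ u → u ≤ 1 → u ≤ bet u ∧ bet u ≤ 1 ∧ bet u ^ 2 = u * bet u + u * (1 - u)) ∧
  (∀ z : ℝ, 0 < z → Real.exp (- gf z) = bet (1 - Real.exp (- z)) ∧ 0 ≤ gf z ∧
    gf z ≤ Real.log (1 + 1 / z) / 2 ∧ (1 ≤ z → gf z ≤ Real.exp (- z)))

def SSlope : Prop :=
  (∃ m : ℝ → ℝ, (∀ z z' : ℝ, 0 < z → 0 < z' → gf z + m z * (z' - z) ≤ gf z') ∧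
    (∀ z z' : ℝ, 0 < z → z ≤ z' → m z ≤ m z') ∧ (∀ z : ℝ, 0 < z → m z ≤ 0) ∧
    (∀ z : ℝ, 0 < z → z ≤ 2 / 5 → z * m z ≤ - (1 / 4))) ∧
  (∀ z z' : ℝ, 0 < z → z ≤ z' → gf z' ≤ gf z ∧ gf z - gf z' ≤ Real.log z' - Real.log z)

/-! ### probability bounds -/

def SGood : Prop := ∀ (d : ℕ) (Ω : Finset (Pt d)) (p : ℝ), 0 ≤ p → p ≤ 1 →
  ∀ (R : Bx d) (s : Sd d) (u : ℝ), 1 - (1 - p) ^ sg (ex R) s.1 ≤ u → u ≤ 1 →
    ∀ J : Finset ℤ, Pr Ω p (Good R s J) ≤ bet u ^ J.card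

def SCross : Prop := ∀ (d : ℕ) (Ω : Finset (Pt d)) (p : ℝ), 0 ≤ p → p ≤ 1 / 2 →
  ∀ (T : ℕ) (S R : Bx d) (b : Fin d → ℝ), S ≤ R → (∀ i, 0 < b i ∧ b i ≤ 1) →
    (∀ (s : Sd d) (J : Finset ℤ), Pr Ω p (Good R s J) ≤ b s.1 ^ J.card) →
    Pr Ω p (Cross T S R) ≤ (∏ s : Sd d, b s.1 ^ (R s - S s).toNat) *
      Real.exp (∑ u ∈ admSet T S R, Pr Ω p (ISp u.1) * ∏ s : Sd d, (b s.1)⁻¹ ^ u.2 s)

/-- a priori bounds from counting infected sites -/
def SSeed : Prop := ∀ (d : ℕ) (Ω : Finset (Pt d)) (p : ℝ), 0 ≤ p → p ≤ 1 →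
  ∀ (R : Bx d) (i : Fin d) (c : ℝ), 0 ≤ c →
    (2 * Real.exp 1 * p * sg (ex R) i ≤ Real.exp (- (2 * c)) →
      Pr Ω p (ISp R) ≤ Real.exp (- (psi R * c))) ∧
    (3 * Real.exp 1 * p * sg (ex R) i * Real.exp (2 * c) ≤ 1 / 64 →
      Pr Ω p (ISp R) * Real.exp (c * psi R) ≤ p * (1 / 4) ^ psi R)

/-- total weight of the overhanging merges -/
def SWsum : Prop := ∀ (d T D : ℕ) (S R : Bx d) (f : Bx d → ℝ) (b : Fin d → ℝ) (c Z p' : ℝ),
  Val S → S ≤ R → psi R ≤ psi S + D → 0 < p' → (∀ i, 0 < b i ∧ b i ≤ 1) →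
  (∀ i, (b i)⁻¹ ≤ Real.exp c) → (∀ i, (b i)⁻¹ ^ 2 ≤ 1 + 1 / (p' * sg (ex R) i)) →
  (∀ i, p' * sg (ex R) i ≤ Z) →
  (∀ P : Bx d, Val P → psi P < T → 0 ≤ f P ∧ f P * Real.exp (c * psi P) ≤ p' * (1 / 4) ^ psi P) →
  ∑ u ∈ admSet T S R, f u.1 * ∏ s : Sd d, (b s.1)⁻¹ ^ u.2 s ≤
    2 ^ (3 * d + 3) * d * (Z + 1) * D * (lg R - lg S)

/-! ### the potential -/

def SPotA : Prop := ∀ (d : ℕ) (G : ℕ → ℝ), (∃ Φ : (Fin d → ℕ) → ℝ, IsPot G Φ) ∧
  ∀ (Φ : (Fin d → ℕ) → ℝ) (c : ℝ), IsPot G Φ → Antitone G → (∀ k, 0 ≤ G k ∧ G k ≤ c) →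
    (∀ a y : Fin d → ℕ, a ≤ y → Φ y ≤ Φ a + ∑ i, ((y i - a i : ℕ) : ℝ) * G (sg a i)) ∧
    (∀ y : Fin d → ℕ, Φ y ≤ ((∑ i, y i : ℕ) : ℝ) * c) ∧
    (∀ (a b y : Fin d → ℕ) (M : ℕ) (γ : ℝ), a ≤ y → b ≤ y → ∑ i, (y i - (a i + b i)) ≤ 2 →
      0 ≤ γ → M ≤ ∑ i, b i → (∀ i k, k ≤ (M + 1) ^ (d - 1) → G (sg a i) + γ ≤ G k) →
      Φ y ≤ Φ a + Φ b + 2 * c - γ * M)

def SPotB : Prop := ∀ (d : ℕ) (H m : ℝ → ℝ) (Φ : (Fin d → ℕ) → ℝ), 1 ≤ d →
  IsPot (fun k : ℕ => H k) Φ →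
  (∀ z z' : ℝ, 0 ≤ z → 0 ≤ z' → H z + m z * (z' - z) ≤ H z') →
  (∀ z z' : ℝ, 0 ≤ z → z ≤ z' → m z ≤ m z') → (∀ z : ℝ, 0 ≤ z → m z ≤ 0) →
  ∀ y : Fin d → ℕ, ∑ t ∈ range (∑ i, y i), H ((((t : ℝ) + d + 1) / d) ^ (d - 1)) ≤ Φ y

/-! ### the induction -/

/-- crossing bound in final form -/
def SStep : Prop := ∀ (d T M N : ℕ) (p p' : ℝ) (Ω : Finset (Pt d)) (Φ : (Fin d → ℕ) → ℝ),
  Par d T M N p' → p = 1 - Real.exp (- p') → IsPot (fun k : ℕ => Gt d M p' k) Φ →
  ∀ S R : Bx d, Val S → S ≤ R → psi R ≤ 2 * N → psi R ≤ psi S + (2 * T + 1) →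
    Pr Ω p (Cross T S R) ≤
      Real.exp (Φ (ex S) - Φ (ex R) + theta d T N p' * (lg R - lg S))

/-- seeds, and merging of two boxes -/
def SMerge : Prop := ∀ (d T M N : ℕ) (p p' : ℝ) (Ω : Finset (Pt d)) (Φ : (Fin d → ℕ) → ℝ),
  Par d T M N p' → p = 1 - Real.exp (- p') → IsPot (fun k : ℕ => Gt d M p' k) Φ →
  (∀ R : Bx d, (∃ i, sg (ex R) i ≤ 2 * (M + 1) ^ (d - 1)) →
    Pr Ω p (ISp R) ≤ Real.exp (- Φ (ex R) - psi R)) ∧
  (∀ R : Bx d, (∀ i, 2 * (M + 1) ^ (d - 1) < sg (ex R) i) → M < psi R) ∧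
  (∀ Q P : Bx d, Val Q → Val P → gap Q P ≤ 2 →
    Real.exp (Φ (ex (Q ⊔ P)) - Φ (ex Q) - Φ (ex P)) ≤ 2 / (p' * sst d M) ∧
    ((∀ i, 2 * (M + 1) ^ (d - 1) < sg (ex Q) i) → M ≤ psi P →
      Real.exp (Φ (ex (Q ⊔ P)) - Φ (ex Q) - Φ (ex P) + M / 808) ≤ 2 / (p' * sst d M)))

def SInd : Prop := ∀ (d T M N : ℕ) (p p' : ℝ) (Ω : Finset (Pt d)) (Φ : (Fin d → ℕ) → ℝ),
  Par d T M N p' → p = 1 - Real.exp (- p') → IsPot (fun k : ℕ => Gt d M p' k) Φ →
  ∀ R : Bx d, Val R → psi R ≤ 2 * N →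
    Pr Ω p (ISp R) ≤ Real.exp (- Φ (ex R) + eta d T * psi R + theta d T N p' * lg R)

/-- bound for critical droplets -/
def SCrit : Prop := ∀ (d T M N : ℕ) (p p' : ℝ) (Ω : Finset (Pt d)),
  Par d T M N p' → p = 1 - Real.exp (- p') →
  ∀ R : Bx d, Val R → N ≤ psi R → psi R ≤ 2 * N →
    Pr Ω p (ISp R) ≤ Real.exp (epsMax d T N p' -
      ∑ t ∈ range N, Gt d M p' ((((t : ℝ) + d + 1) / d) ^ (d - 1)))

/-! ### analysis -/

def SInt : Prop := ∀ d : ℕ, 2 ≤ d → 1 / 40 ≤ lam d ∧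
  ∀ (q B : ℝ) (M N : ℕ), 0 < q → q * (2 + 200 * (M + 1)) ≤ 1 → 1 ≤ B → B * d ≤ q * N →
    d / q * (lam d - d * (q * (2 + 200 * (M + 1))) * (1 + Real.log (1 / q))
      - Real.exp (- B ^ (d - 1))) ≤
    ∑ t ∈ range N, Gt d M (q ^ (d - 1)) ((((t : ℝ) + d + 1) / d) ^ (d - 1))

/-- choice of the parameters -/
def SPar : Prop := ∀ d : ℕ, 2 ≤ d → ∃ C q₀ : ℝ, 0 < C ∧ 0 < q₀ ∧ ∀ q : ℝ, 0 < q → q ≤ q₀ →
  ∃ (T M N : ℕ) (B : ℝ), Par d T M N (q ^ (d - 1)) ∧ 1 ≤ N ∧ (N : ℝ) ≤ 1 / q ^ 2 ∧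
    q * (2 + 200 * (M + 1)) ≤ 1 ∧ 1 ≤ B ∧ B * d ≤ q * N ∧ B ^ (d - 1) = Real.log (1 / q) ∧
    (M : ℝ) + 1 ≤ C * Real.log (1 / q) ^ 2 / Real.sqrt q

/-- percolation probability -/
def SPerc : Prop := ∀ d : ℕ, 2 ≤ d → ∃ C q₀ : ℝ, 0 < C ∧ 0 < q₀ ∧ ∀ q : ℝ, 0 < q → q ≤ q₀ →
  ∀ n : ℕ, 1 / q ^ 2 + 1 ≤ n →
    Pr (univ : Finset (Fin d → Fin n)) (1 - Real.exp (- q ^ (d - 1))) (Perc d n) ≤
      Real.exp (d * Real.log n - d * lam d / q + C * Real.log (1 / q) ^ 3 / Real.sqrt q)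

/-- the final statement -/
def SFinal : Prop := ∀ d : ℕ, 2 ≤ d → ∃ C : ℝ, ∃ n₀ : ℕ, ∀ n : ℕ, n₀ ≤ n →
  lam d / Real.log n -
    (sInf {p : ℝ | 0 ≤ p ∧ p ≤ 1 ∧
      (1 / 2 : ℝ) ≤ Pr (univ : Finset (Fin d → Fin n)) p (Perc d n)}) ^ (1 / ((d : ℝ) - 1))
    ≤ C * Real.log (Real.log n) ^ 3 / Real.log n ^ (3 / 2 : ℝ)

end Pool.Agent.MP_6d294b_pr

end

section

open Finset

namespace Pool.Agent.MP_6d294b_pr

lemma wt_PrA {p : ℝ} (h0 : 0 ≤ p) (h1 : p ≤ 1) (a b : ℕ) : 0 ≤ p ^ a * (1 - p) ^ b :=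
  mul_nonneg (pow_nonneg h0 _) (pow_nonneg (by linarith) _)

lemma insert_PrA {α : Type} [DecidableEq α] (O : Finset α) (a : α) (ha : a ∉ O) (p : ℝ)
    (E : Finset α → Prop) :
    Pr (insert a O) p E = (1 - p) * Pr O p E + p * Pr O p (fun A => E (insert a A)) := by
  classical
  unfold Pr
  rw [Finset.sum_powerset_insert ha, Finset.mul_sum, Finset.mul_sum]
  congr 1
  · refine Finset.sum_congr rfl fun A hA => ?_
    have hc := Finset.card_le_card (Finset.mem_powerset.1 hA)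
    rw [Finset.card_insert_of_notMem ha]
    by_cases h : E A
    · simp only [if_pos h]
      rw [show O.card + 1 - A.card = (O.card - A.card) + 1 by omega, pow_succ]
      ring
    · simp only [if_neg h, mul_zero]
  · refine Finset.sum_congr rfl fun A hA => ?_
    have hc := Finset.card_le_card (Finset.mem_powerset.1 hA)
    have haA : a ∉ A := fun h => ha (Finset.mem_powerset.1 hA h)
    rw [Finset.card_insert_of_notMem ha, Finset.card_insert_of_notMem haA]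
    by_cases h : E (insert a A)
    · simp only [if_pos h]
      rw [show O.card + 1 - (A.card + 1) = O.card - A.card by omega, pow_succ]
      ring
    · simp only [if_neg h, mul_zero]

lemma nonneg_PrA {α : Type} (Ω : Finset α) {p : ℝ} (h0 : 0 ≤ p) (h1 : p ≤ 1)
    (E : Finset α → Prop) : 0 ≤ Pr Ω p E := by
  classical
  unfold Pr
  refine Finset.sum_nonneg fun A _ => ?_
  split_ifs
  · exact wt_PrA h0 h1 _ _
  · exact le_rfl

lemma mono_PrA {α : Type} (Ω : Finset α) {p : ℝ} (h0 : 0 ≤ p) (h1 : p ≤ 1)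
    (E F : Finset α → Prop) (h : ∀ A, A ⊆ Ω → E A → F A) : Pr Ω p E ≤ Pr Ω p F := by
  classical
  unfold Pr
  refine Finset.sum_le_sum fun A hA => ?_
  by_cases hE : E A
  · rw [if_pos hE, if_pos (h A (Finset.mem_powerset.1 hA) hE)]
  · rw [if_neg hE]
    split_ifs
    · exact wt_PrA h0 h1 _ _
    · exact le_rfl

lemma true_PrA {α : Type} (Ω : Finset α) (p : ℝ) : Pr Ω p (fun _ => True) = 1 := by
  classical
  unfold Pr
  simp only [if_true]
  rw [Finset.sum_pow_mul_eq_add_pow]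
  simp

lemma false_PrA {α : Type} (Ω : Finset α) (p : ℝ) : Pr Ω p (fun _ => False) = 0 := by
  classical
  unfold Pr
  simp

lemma or_PrA {α : Type} (Ω : Finset α) {p : ℝ} (h0 : 0 ≤ p) (h1 : p ≤ 1)
    (E F : Finset α → Prop) : Pr Ω p (fun A => E A ∨ F A) ≤ Pr Ω p E + Pr Ω p F := by
  classical
  unfold Pr
  rw [← Finset.sum_add_distrib]
  refine Finset.sum_le_sum fun A _ => ?_
  have := wt_PrA h0 h1 A.card (Ω.card - A.card)
  by_cases hE : E A <;> by_cases hF : F A <;> simp [hE, hF, this]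

lemma union_PrA {α : Type} (Ω : Finset α) {p : ℝ} (h0 : 0 ≤ p) (h1 : p ≤ 1)
    {ι : Type} (I : Finset ι) (E : ι → Finset α → Prop) :
    Pr Ω p (fun A => ∃ k ∈ I, E k A) ≤ ∑ k ∈ I, Pr Ω p (E k) := by
  classical
  induction I using Finset.induction_on with
  | empty =>
    rw [Finset.sum_empty, ← false_PrA Ω p]
    exact mono_PrA Ω h0 h1 _ _ (by simp)
  | insert k I hk ih =>
    rw [Finset.sum_insert hk]
    refine le_trans (mono_PrA Ω h0 h1 _ (fun A => E k A ∨ ∃ k ∈ I, E k A) ?_)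
      ((or_PrA Ω h0 h1 _ _).trans (by linarith))
    rintro A _ ⟨l, hl, hE⟩
    rcases Finset.mem_insert.1 hl with rfl | hl
    · exact Or.inl hE
    · exact Or.inr ⟨l, hl, hE⟩

lemma sub_PrA {α : Type} [DecidableEq α] (Ω : Finset α) {p : ℝ} (h0 : 0 ≤ p) (h1 : p ≤ 1)
    (B : Finset α) : Pr Ω p (fun A => B ⊆ A) ≤ p ^ B.card := by
  induction Ω using Finset.induction_on generalizing B with
  | empty =>
    by_cases hB : B = ∅
    · subst hB
      rw [Finset.card_empty, pow_zero, ← true_PrA (∅ : Finset α) p]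
      exact mono_PrA _ h0 h1 _ _ fun _ _ _ => trivial
    · refine le_trans (mono_PrA _ h0 h1 _ (fun _ => False) ?_) ?_
      · intro A hA hBA
        exact hB (Finset.subset_empty.1 (hBA.trans hA))
      · rw [false_PrA]
        positivity
  | insert a O ha ih =>
    rw [insert_PrA O a ha]
    by_cases hB : a ∈ B
    · have e1 : Pr O p (fun A => B ⊆ A) ≤ 0 := by
        rw [← false_PrA O p]
        exact mono_PrA _ h0 h1 _ _ fun A hA hBA => ha (hA (hBA hB))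
      have e2 : Pr O p (fun A => B ⊆ insert a A) ≤ p ^ (B.erase a).card :=
        le_trans (mono_PrA _ h0 h1 _ _ fun A _ hBA => Finset.subset_insert_iff.1 hBA) (ih _)
      have e3 : B.card = (B.erase a).card + 1 := (Finset.card_erase_add_one hB).symm
      rw [e3, pow_succ]
      have := mul_le_mul_of_nonneg_left e1 (show 0 ≤ 1 - p by linarith)
      have := mul_le_mul_of_nonneg_left e2 h0
      linarith
    · have e2 : Pr O p (fun A => B ⊆ insert a A) ≤ p ^ B.card :=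
        le_trans (mono_PrA _ h0 h1 _ _ fun A _ hBA =>
          (Finset.subset_insert_iff_of_notMem hB).1 hBA) (ih _)
      have := mul_le_mul_of_nonneg_left (ih B) (show 0 ≤ 1 - p by linarith)
      have := mul_le_mul_of_nonneg_left e2 h0
      linarith

theorem sPrA : SPrA := by
  intro α _ Ω p h0 h1
  refine ⟨nonneg_PrA Ω h0 h1, fun E => ?_, mono_PrA Ω h0 h1, or_PrA Ω h0 h1,
    fun ι I E => union_PrA Ω h0 h1 I E, fun X m => ?_⟩
  · rw [← true_PrA Ω p]
    exact mono_PrA Ω h0 h1 _ _ fun _ _ _ => trivial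
  · calc Pr Ω p (fun A => m ≤ (A ∩ X).card)
        ≤ Pr Ω p (fun A => ∃ B ∈ Finset.powersetCard m X, B ⊆ A) := by
          refine mono_PrA Ω h0 h1 _ _ fun A _ hA => ?_
          obtain ⟨B, hB, hc⟩ := Finset.exists_subset_card_eq hA
          exact ⟨B, Finset.mem_powersetCard.2 ⟨hB.trans Finset.inter_subset_right, hc⟩,
            hB.trans Finset.inter_subset_left⟩
      _ ≤ ∑ B ∈ Finset.powersetCard m X, Pr Ω p (fun A => B ⊆ A) :=
          union_PrA Ω h0 h1 _ _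
      _ ≤ ∑ B ∈ Finset.powersetCard m X, p ^ m := by
          refine Finset.sum_le_sum fun B hB => ?_
          rw [← (Finset.mem_powersetCard.1 hB).2]
          exact sub_PrA Ω h0 h1 B
      _ = (X.card.choose m : ℝ) * p ^ m := by
          rw [Finset.sum_const, Finset.card_powersetCard, nsmul_eq_mul]

end Pool.Agent.MP_6d294b_pr

end

section

open Finset

namespace Pool.Agent.MP_6d294b_pr

/-- disjoint occurrence of two events -/
def Box_BK {α : Type} (E F : Finset α → Prop) (A : Finset α) : Prop :=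
  ∃ B C : Finset α, B ⊆ A ∧ C ⊆ A ∧ Disjoint B C ∧ E B ∧ F C

lemma incl_BK {α : Type} (Ω : Finset α) {p : ℝ} (h0 : 0 ≤ p) (h1 : p ≤ 1)
    (E F G : Finset α → Prop) (hE : ∀ A, G A → E A) (hF : ∀ A, G A → F A) :
    Pr Ω p (fun A => E A ∨ F A) + Pr Ω p G ≤ Pr Ω p E + Pr Ω p F := by
  classical
  unfold Pr
  rw [← Finset.sum_add_distrib, ← Finset.sum_add_distrib]
  refine Finset.sum_le_sum fun A _ => ?_
  have := wt_PrA h0 h1 A.card (Ω.card - A.card)
  have a1 := hE A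
  have a2 := hF A
  by_cases hG : G A
  · simp [hG, a1 hG, a2 hG]
  · by_cases e : E A <;> by_cases f : F A <;> simp [hG, e, f, this]

lemma two_BK {α : Type} [DecidableEq α] (Ω : Finset α) {p : ℝ} (h0 : 0 ≤ p) (h2 : p ≤ 1 / 2)
    (E F : Finset α → Prop) (hE : Incr E) (hF : Incr F) :
    Pr Ω p (Box_BK E F) ≤ Pr Ω p E * Pr Ω p F := by
  classical
  have h1 : p ≤ 1 := by linarith
  induction Ω using Finset.induction_on generalizing E F with
  | empty =>
    by_cases h : Box_BK E F ∅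
    · obtain ⟨B, C, hB, hC, -, e, f⟩ := h
      rw [Finset.subset_empty] at hB hC
      subst hB hC
      have a1 : Pr (∅ : Finset α) p E = 1 := by simp [Pr, e]
      have a2 : Pr (∅ : Finset α) p F = 1 := by simp [Pr, f]
      rw [a1, a2, one_mul, ← true_PrA (∅ : Finset α) p]
      exact mono_PrA _ h0 h1 _ _ fun _ _ _ => trivial
    · have a1 : Pr (∅ : Finset α) p (Box_BK E F) = 0 := by simp [Pr, h]
      rw [a1]
      exact mul_nonneg (nonneg_PrA _ h0 h1 _) (nonneg_PrA _ h0 h1 _)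
  | insert a O ha ih =>
    rw [insert_PrA O a ha, insert_PrA O a ha, insert_PrA O a ha]
    set E1 : Finset α → Prop := fun A => E (insert a A) with hE1
    set F1 : Finset α → Prop := fun A => F (insert a A) with hF1
    have iE : Incr E1 := fun A B hAB hA => hE _ _ (Finset.insert_subset_insert a hAB) hA
    have iF : Incr F1 := fun A B hAB hA => hF _ _ (Finset.insert_subset_insert a hAB) hA
    have a0 := ih E F hE hF
    have a1 := ih E1 F iE hF
    have a2 := ih E F1 hE iF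
    have a3 : Pr O p (fun A => Box_BK E F (insert a A)) ≤
        Pr O p (fun A => Box_BK E1 F A ∨ Box_BK E F1 A) := by
      refine mono_PrA O h0 h1 _ _ ?_
      rintro A - ⟨B, C, hB, hC, hd, e, f⟩
      by_cases haC : a ∈ C
      · have haB : a ∉ B := fun h => Finset.disjoint_left.1 hd h haC
        refine Or.inr ⟨B, C.erase a, (Finset.subset_insert_iff_of_notMem haB).1 hB,
          Finset.subset_insert_iff.1 hC, hd.mono_right (Finset.erase_subset _ _), e, ?_⟩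
        simp only [hF1]
        rwa [Finset.insert_erase haC]
      · exact Or.inl ⟨B.erase a, C, Finset.subset_insert_iff.1 hB,
          (Finset.subset_insert_iff_of_notMem haC).1 hC, hd.mono_left (Finset.erase_subset _ _),
          hE _ _ (Finset.subset_insert_iff.2 (Finset.Subset.refl _)) e, f⟩
    have a4 := incl_BK O h0 h1 (Box_BK E1 F) (Box_BK E F1) (Box_BK E F)
      (fun A ⟨B, C, hB, hC, hd, e, f⟩ =>
        ⟨B, C, hB, hC, hd, hE _ _ (Finset.subset_insert a B) e, f⟩)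
      (fun A ⟨B, C, hB, hC, hd, e, f⟩ =>
        ⟨B, C, hB, hC, hd, e, hF _ _ (Finset.subset_insert a C) f⟩)
    have a5 : Pr O p E ≤ Pr O p E1 :=
      mono_PrA O h0 h1 _ _ fun A _ hA => hE _ _ (Finset.subset_insert a A) hA
    have a6 : Pr O p F ≤ Pr O p F1 :=
      mono_PrA O h0 h1 _ _ fun A _ hA => hF _ _ (Finset.subset_insert a A) hA
    have b0 := mul_le_mul_of_nonneg_left a0 (show 0 ≤ 1 - 2 * p by linarith)
    have b1 := mul_le_mul_of_nonneg_left a1 h0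
    have b2 := mul_le_mul_of_nonneg_left a2 h0
    have b3 := mul_le_mul_of_nonneg_left a3 h0
    have b4 := mul_le_mul_of_nonneg_left a4 h0
    have b5 := mul_nonneg (sq_nonneg p) (mul_nonneg (sub_nonneg.2 a5) (sub_nonneg.2 a6))
    nlinarith

theorem sBK (hA : SPrA) : SBK := by
  classical
  intro α _ Ω p h0 h2 ι I E hE
  have h1 : p ≤ 1 := by linarith
  induction I using Finset.induction_on with
  | empty =>
    rw [Finset.prod_empty, ← true_PrA Ω p]
    exact mono_PrA _ h0 h1 _ _ fun _ _ _ => trivial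
  | insert k I hk ih =>
    rw [Finset.prod_insert hk]
    set F : Finset α → Prop := fun A => ∃ w : ι → Finset α, (∀ k ∈ I, w k ⊆ A ∧ E k (w k)) ∧
      ∀ k ∈ I, ∀ l ∈ I, k ≠ l → Disjoint (w k) (w l) with hF
    have iF : Incr F := by
      rintro A B hAB ⟨w, h3, h4⟩
      exact ⟨w, fun l hl => ⟨(h3 l hl).1.trans hAB, (h3 l hl).2⟩, h4⟩
    have a1 := ih fun l hl => hE l (Finset.mem_insert_of_mem hl)
    have a2 := two_BK Ω h0 h2 (E k) F (hE k (Finset.mem_insert_self _ _)) iF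
    refine le_trans (mono_PrA Ω h0 h1 _ (Box_BK (E k) F) ?_)
      (a2.trans (mul_le_mul_of_nonneg_left a1 (nonneg_PrA Ω h0 h1 _)))
    rintro A - ⟨w, h3, h4⟩
    refine ⟨w k, I.biUnion w, (h3 k (Finset.mem_insert_self _ _)).1, ?_, ?_,
      (h3 k (Finset.mem_insert_self _ _)).2, w, fun l hl => ⟨?_, ?_⟩, fun l hl m hm hlm => ?_⟩
    · exact Finset.biUnion_subset.2 fun l hl => (h3 l (Finset.mem_insert_of_mem hl)).1
    · rw [Finset.disjoint_biUnion_right]
      intro l hl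
      refine h4 k (Finset.mem_insert_self _ _) l (Finset.mem_insert_of_mem hl) ?_
      rintro rfl
      exact hk hl
    · exact Finset.subset_biUnion_of_mem w hl
    · exact (h3 l (Finset.mem_insert_of_mem hl)).2
    · exact h4 l (Finset.mem_insert_of_mem hl) m (Finset.mem_insert_of_mem hm) hlm

end Pool.Agent.MP_6d294b_pr

end

section

open Finset

namespace Pool.Agent.MP_6d294b_pr

variable {d : ℕ}

lemma opp_true_GeoA (i : Fin d) : opp ((i, true) : Sd d) = (i, false) := rfl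

lemma opp_false_GeoA (i : Fin d) : opp ((i, false) : Sd d) = (i, true) := rfl

lemma opp_opp_GeoA (s : Sd d) : opp (opp s) = s := by
  obtain ⟨i, t⟩ := s
  cases t <;> rfl

lemma kap_opp_GeoA (s : Sd d) (x : Pt d) : kap (opp s) x = - kap s x := by
  obtain ⟨i, t⟩ := s
  cases t <;> simp [kap, opp]

lemma gap_eq_GeoA (Q P : Bx d) : gap Q P =
    ∑ i, ((- P (i, false) - Q (i, true)).toNat + (- P (i, true) - Q (i, false)).toNat) := by
  unfold gap
  rw [Fintype.sum_prod_type]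
  refine Finset.sum_congr rfl fun i _ => ?_
  rw [Fintype.sum_bool, opp_true_GeoA, opp_false_GeoA]

lemma sup_GeoA (Q P : Bx d) (s : Sd d) : (Q ⊔ P) s = max (Q s) (P s) := rfl

lemma dir_GeoA (Q P : Bx d) (hQ : Val Q) (hP : Val P) (i : Fin d) :
    ex (Q ⊔ P) i ≤ ex Q i + ex P i +
      ((- P (i, false) - Q (i, true)).toNat + (- P (i, true) - Q (i, false)).toNat) := by
  have a1 := hQ i
  have a2 := hP i
  simp only [ex, sup_GeoA]
  omega

lemma five_GeoA (Q P : Bx d) (hQ : Val Q) (hP : Val P) :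
    ∑ i, (ex (Q ⊔ P) i - (ex Q i + ex P i)) ≤ gap Q P ∧
      psi (Q ⊔ P) ≤ psi Q + psi P + gap Q P := by
  rw [gap_eq_GeoA]
  constructor
  · refine Finset.sum_le_sum fun i _ => ?_
    have := dir_GeoA Q P hQ hP i
    omega
  · unfold psi
    rw [← Finset.sum_add_distrib, ← Finset.sum_add_distrib]
    exact Finset.sum_le_sum fun i _ => dir_GeoA Q P hQ hP i

lemma span_GeoA (A : Finset (Pt d)) (R : Bx d) (h : Span A R) :
    Val R ∧ (∀ x ∈ A, InB x R) ∧ psi R + 2 ≤ 2 * A.card ∧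
    ∀ (s : Sd d) (j : ℤ), - R (opp s) - 1 ≤ j → j ≤ R s →
      ∃ x ∈ A, kap s x = j ∨ kap s x = j + 1 := by
  classical
  induction h with
  | pt x =>
    refine ⟨fun i => ?_, fun y hy s => ?_, ?_, fun s j h1 h2 => ⟨x, Finset.mem_singleton_self x, ?_⟩⟩
    · simp [ptB, kap]
    · rw [Finset.mem_singleton.1 hy]
      exact le_rfl
    · have : psi (ptB x) = 0 := by
        unfold psi
        refine Finset.sum_eq_zero fun i _ => ?_
        simp [ex, ptB, kap]
      rw [this, Finset.card_singleton]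
    · simp only [ptB, kap_opp_GeoA] at h1 h2
      omega
  | @merge A B Q P _ _ hd hg ihA ihB =>
    obtain ⟨a1, a2, a3, a4⟩ := ihA
    obtain ⟨b1, b2, b3, b4⟩ := ihB
    refine ⟨fun i => ?_, fun y hy s => ?_, ?_, fun s j h1 h2 => ?_⟩
    · have := a1 i
      simp only [sup_GeoA]
      omega
    · rw [sup_GeoA]
      rcases Finset.mem_union.1 hy with hy | hy
      · exact le_max_of_le_left (a2 y hy s)
      · exact le_max_of_le_right (b2 y hy s)
    · have := (five_GeoA Q P a1 b1).2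
      rw [Finset.card_union_of_disjoint hd]
      omega
    · have g1 : (- P (opp s) - Q s).toNat ≤ gap Q P :=
        Finset.single_le_sum (f := fun s => (- P (opp s) - Q s).toNat)
          (fun _ _ => Nat.zero_le _) (Finset.mem_univ s)
      have g2 : (- P (opp (opp s)) - Q (opp s)).toNat ≤ gap Q P :=
        Finset.single_le_sum (f := fun s => (- P (opp s) - Q s).toNat)
          (fun _ _ => Nat.zero_le _) (Finset.mem_univ (opp s))
      rw [opp_opp_GeoA] at g2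
      rw [sup_GeoA] at h1 h2
      by_cases hj : - Q (opp s) - 1 ≤ j ∧ j ≤ Q s
      · obtain ⟨x, hx, h⟩ := a4 s j hj.1 hj.2
        exact ⟨x, Finset.mem_union_left _ hx, h⟩
      · obtain ⟨x, hx, h⟩ := b4 s j (by omega) (by omega)
        exact ⟨x, Finset.mem_union_right _ hx, h⟩

theorem sGeoA : SGeoA := by
  intro d
  refine ⟨span_GeoA, fun Q P => ?_, fun R hR => ?_, fun S R hS hSR => ?_, five_GeoA⟩
  · rw [gap_eq_GeoA, gap_eq_GeoA]
    refine Finset.sum_congr rfl fun i _ => ?_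
    omega
  · unfold psi
    rw [Fintype.sum_prod_type, Nat.cast_sum]
    refine Finset.sum_congr rfl fun i _ => ?_
    rw [Fintype.sum_bool]
    have := hR i
    simp only [ex]
    omega
  · have key : ∀ i, ex R i = ex S i +
        ((R (i, true) - S (i, true)).toNat + (R (i, false) - S (i, false)).toNat) := by
      intro i
      have a1 := hS i
      have a2 : S (i, true) ≤ R (i, true) := hSR _
      have a3 : S (i, false) ≤ R (i, false) := hSR _
      simp only [ex]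
      omega
    refine ⟨fun i => ?_, fun i => ?_, fun i => ?_, ?_, ?_⟩
    · have a1 := hS i
      have a2 : S (i, true) ≤ R (i, true) := hSR _
      have a3 : S (i, false) ≤ R (i, false) := hSR _
      omega
    · have := key i
      omega
    · have := key i
      omega
    · unfold psi
      rw [Fintype.sum_prod_type, ← Finset.sum_add_distrib]
      refine Finset.sum_congr rfl fun i _ => ?_
      rw [Fintype.sum_bool]
      exact key i
    · unfold boxes
      rw [Fintype.mem_piFinset]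
      rintro ⟨i, t⟩
      have a1 := hS i
      have a2 : S (i, true) ≤ R (i, true) := hSR _
      have a3 : S (i, false) ≤ R (i, false) := hSR _
      rw [Finset.mem_Icc]
      cases t
      · rw [opp_false_GeoA]
        omega
      · rw [opp_true_GeoA]
        omega

end Pool.Agent.MP_6d294b_pr

end

section

open Finset

namespace Pool.Agent.MP_6d294b_pr

variable {d : ℕ}

lemma sum_single_PotA (y : Fin d → ℕ) (i : Fin d) :
    ∑ j, (y + Pi.single i 1 : Fin d → ℕ) j = ∑ j, y j + 1 := by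
  simp [Finset.sum_add_distrib]

lemma split_PotA {y : Fin d → ℕ} {i : Fin d} (h : y i ≠ 0) :
    y = (y - Pi.single i 1) + Pi.single i 1 := by
  funext j
  by_cases hj : j = i
  · subst hj; simp; omega
  · simp [hj]

lemma ind_PotA (P : (Fin d → ℕ) → Prop) (h0 : P 0) (hs : ∀ y i, P y → P (y + Pi.single i 1)) :
    ∀ y, P y := by
  intro y
  induction hn : ∑ j, y j generalizing y with
  | zero =>
    have : y = 0 := funext fun j => (Finset.sum_eq_zero_iff.1 hn) j (mem_univ j)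
    rw [this]; exact h0
  | succ n ih =>
    obtain ⟨i, -, hi⟩ := Finset.exists_ne_zero_of_sum_ne_zero (s := univ) (f := y) (by omega)
    rw [split_PotA hi]
    refine hs _ _ (ih _ ?_)
    have := sum_single_PotA (y - Pi.single i 1) i
    rw [← split_PotA hi] at this
    omega

lemma sg_mono_PotA {a y : Fin d → ℕ} (h : a ≤ y) (i : Fin d) : sg a i ≤ sg y i :=
  Finset.prod_le_prod' fun j _ => Nat.succ_le_succ (h j)

noncomputable def pot_PotA (G : ℕ → ℝ) : ℕ → (Fin d → ℕ) → ℝ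
  | 0, _ => 0
  | k + 1, y => if h : (univ.filter (fun i => y i ≠ 0)).Nonempty then
      (univ.filter (fun i => y i ≠ 0)).inf' h
        (fun i => pot_PotA G k (y - Pi.single i 1) + G (sg (y - Pi.single i 1) i)) else 0

lemma exists_PotA (G : ℕ → ℝ) : ∃ Φ : (Fin d → ℕ) → ℝ, IsPot G Φ := by
  refine ⟨fun y => pot_PotA G (∑ j, y j) y, by simp [pot_PotA], fun y i => ?_, fun y hy => ?_⟩
  · have hi : i ∈ univ.filter (fun j => (y + Pi.single i 1 : Fin d → ℕ) j ≠ 0) := by simp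
    have hne : (univ.filter (fun j => (y + Pi.single i 1 : Fin d → ℕ) j ≠ 0)).Nonempty := ⟨i, hi⟩
    simp only [sum_single_PotA, pot_PotA]
    rw [dif_pos hne]
    refine le_trans (Finset.inf'_le _ hi) (le_of_eq ?_)
    rw [add_tsub_cancel_right]
  · have hne : (univ.filter (fun i => y i ≠ 0)).Nonempty := by
      obtain ⟨i, hi⟩ := Function.ne_iff.1 hy
      exact ⟨i, mem_filter.2 ⟨mem_univ _, hi⟩⟩
    obtain ⟨i, hi, he⟩ := Finset.exists_mem_eq_inf' hne (fun i =>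
      pot_PotA G (∑ j, y j - 1) (y - Pi.single i 1) + G (sg (y - Pi.single i 1) i))
    have hi' := (mem_filter.1 hi).2
    have hs := sum_single_PotA (y - Pi.single i 1) i
    rw [← split_PotA hi'] at hs
    refine ⟨y - Pi.single i 1, i, split_PotA hi', ?_⟩
    have e1 : ∑ j, y j - 1 = ∑ j, (y - Pi.single i 1 : Fin d → ℕ) j := by omega
    rw [e1] at he
    simp only [hs, pot_PotA, dif_pos hne]
    exact he

lemma p1_PotA {G : ℕ → ℝ} {Φ : (Fin d → ℕ) → ℝ} (hΦ : IsPot G Φ) (hG : Antitone G)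
    (a y : Fin d → ℕ) (h : a ≤ y) : Φ y ≤ Φ a + ∑ i, ((y i - a i : ℕ) : ℝ) * G (sg a i) := by
  have key : ∀ z : Fin d → ℕ, Φ (a + z) ≤ Φ a + ∑ i, (z i : ℝ) * G (sg a i) := by
    refine ind_PotA _ (by simp) fun z i ih => ?_
    have h1 := hΦ.2.1 (a + z) i
    have h2 : G (sg (a + z) i) ≤ G (sg a i) := hG (sg_mono_PotA le_self_add i)
    have h3 : ∑ j, (((z + Pi.single i 1 : Fin d → ℕ) j : ℕ) : ℝ) * G (sg a j) =
        ∑ j, (z j : ℝ) * G (sg a j) + G (sg a i) := by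
      simp [add_mul, Finset.sum_add_distrib, Pi.single_apply]
    rw [← add_assoc, h3]
    linarith
  have := key (y - a)
  rwa [add_tsub_cancel_of_le h] at this

theorem sPotA : SPotA := by
  intro d G
  refine ⟨exists_PotA G, fun Φ c hΦ hG hc => ⟨p1_PotA hΦ hG, fun y => ?_, ?_⟩⟩
  · have h := p1_PotA hΦ hG 0 y bot_le
    rw [hΦ.1, zero_add] at h
    refine h.trans ?_
    rw [Nat.cast_sum, Finset.sum_mul]
    exact Finset.sum_le_sum fun i _ => mul_le_mul_of_nonneg_left (hc _).2 (Nat.cast_nonneg _)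
  · intro a b y M γ hay hby h2 hγ hM hk
    have key : ∀ n, ∀ z : Fin d → ℕ, ∑ j, z j = n → z ≤ y →
        Φ (fun i => min (a i + z i) (y i)) ≤ Φ a + Φ z - γ * (min n M : ℕ) := by
      intro n
      induction n with
      | zero =>
        intro z hz _
        have : z = 0 := funext fun j => (Finset.sum_eq_zero_iff.1 hz) j (mem_univ j)
        subst this
        have e : (fun i => min (a i + (0 : Fin d → ℕ) i) (y i)) = a :=
          funext fun i => by simpa using hay i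
        rw [e, hΦ.1]; simp
      | succ n ih =>
        intro z hz hzy
        obtain ⟨z', i, rfl, hΦz⟩ := hΦ.2.2 z (by rintro rfl; simp at hz)
        rw [sum_single_PotA] at hz
        have hz' : z' ≤ y := le_self_add.trans hzy
        have ih' := ih z' (by omega) hz'
        have ga := (hc (sg a i)).1
        have gz := (hc (sg z' i)).1
        have d1 : G (sg (fun j => min (a j + z' j) (y j)) i) ≤ G (sg a i) :=
          hG (sg_mono_PotA (fun j => le_min (Nat.le_add_right _ _) (hay j)) i)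
        have d2 : G (sg (fun j => min (a j + z' j) (y j)) i) ≤ G (sg z' i) :=
          hG (sg_mono_PotA (fun j => le_min (Nat.le_add_left _ _) (hz' j)) i)
        have step : Φ (fun j => min (a j + (z' + Pi.single i 1 : Fin d → ℕ) j) (y j)) ≤
            Φ (fun j => min (a j + z' j) (y j)) + G (sg (fun j => min (a j + z' j) (y j)) i) := by
          by_cases hlt : a i + z' i < y i
          · refine le_trans (le_of_eq (congrArg Φ (funext fun j => ?_))) (hΦ.2.1 _ i)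
            by_cases hj : j = i
            · subst hj; simp; omega
            · simp [hj]
          · refine le_trans (le_of_eq (congrArg Φ (funext fun j => ?_)))
              (le_add_of_nonneg_right (hc _).1)
            by_cases hj : j = i
            · subst hj; simp; omega
            · simp [hj]
        rw [hΦz]
        by_cases hn : n < M
        · have hs : sg z' i ≤ (M + 1) ^ (d - 1) := by
            have := Finset.prod_le_pow_card (univ.erase i) (fun j => z' j + 1) (M + 1) (fun j _ => by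
              have := Finset.single_le_sum (f := z') (fun _ _ => Nat.zero_le _) (mem_univ j)
              omega)
            rwa [Finset.card_erase_of_mem (mem_univ _), card_univ, Fintype.card_fin] at this
          have h3 := hk i _ hs
          rw [min_eq_left hn.le] at ih'
          rw [min_eq_left (Nat.succ_le_of_lt hn)]
          push_cast
          linarith
        · rw [min_eq_right (not_lt.1 hn)] at ih'
          rw [min_eq_right (by omega)]
          linarith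
    have k1 := key _ b rfl hby
    rw [min_eq_right hM] at k1
    have k2 := p1_PotA hΦ hG (fun i => min (a i + b i) (y i)) y (fun i => min_le_right _ _)
    have c0 : 0 ≤ c := (hc 0).1.trans (hc 0).2
    have k3 : ∑ i, ((y i - min (a i + b i) (y i) : ℕ) : ℝ) *
        G (sg (fun i => min (a i + b i) (y i)) i) ≤ 2 * c := by
      calc _ ≤ ∑ i, ((y i - (a i + b i) : ℕ) : ℝ) * c := by
            refine Finset.sum_le_sum fun i _ => ?_
            rw [show y i - min (a i + b i) (y i) = y i - (a i + b i) by omega]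
            exact mul_le_mul_of_nonneg_left (hc _).2 (Nat.cast_nonneg _)
        _ = ((∑ i, (y i - (a i + b i)) : ℕ) : ℝ) * c := by rw [Nat.cast_sum, Finset.sum_mul]
        _ ≤ 2 * c := mul_le_mul_of_nonneg_right (by exact_mod_cast h2) c0
    linarith

end Pool.Agent.MP_6d294b_pr

end

section

open Finset

namespace Pool.Agent.MP_6d294b_pr

theorem pow_bd_PotB (a b : ℝ) (hb : 0 ≤ b) (hab : b ≤ a) (n : ℕ) :
    (n + 1) * b ^ n * (a - b) ≤ a ^ (n + 1) - b ^ (n + 1) ∧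
      a ^ (n + 1) - b ^ (n + 1) ≤ (n + 1) * a ^ n * (a - b) := by
  have ha : 0 ≤ a := hb.trans hab
  have hd : 0 ≤ a - b := sub_nonneg.2 hab
  induction n with
  | zero => simp
  | succ n ih =>
    obtain ⟨h1, h2⟩ := ih
    have hX : 0 ≤ a ^ (n + 1) - b ^ (n + 1) := sub_nonneg.2 (pow_le_pow_left₀ hb hab _)
    have e : a ^ (n + 1 + 1) - b ^ (n + 1 + 1) =
        a * (a ^ (n + 1) - b ^ (n + 1)) + b ^ (n + 1) * (a - b) := by ring
    have h3 : b * ((n + 1) * b ^ n * (a - b)) ≤ a * (a ^ (n + 1) - b ^ (n + 1)) :=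
      le_trans (mul_le_mul_of_nonneg_left h1 hb) (mul_le_mul_of_nonneg_right hab hX)
    have h4 : a * (a ^ (n + 1) - b ^ (n + 1)) ≤ a * ((n + 1) * a ^ n * (a - b)) :=
      mul_le_mul_of_nonneg_left h2 ha
    have h5 : b ^ (n + 1) * (a - b) ≤ a ^ (n + 1) * (a - b) :=
      mul_le_mul_of_nonneg_right (pow_le_pow_left₀ hb hab _) hd
    rw [e]
    push_cast
    constructor
    · have : ((n : ℝ) + 1 + 1) * b ^ (n + 1) * (a - b) =
          b * ((n + 1) * b ^ n * (a - b)) + b ^ (n + 1) * (a - b) := by ring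
      linarith
    · have : ((n : ℝ) + 1 + 1) * a ^ (n + 1) * (a - b) =
          a * ((n + 1) * a ^ n * (a - b)) + a ^ (n + 1) * (a - b) := by ring
      linarith

noncomputable def W_PotB (n t : ℕ) : ℝ := (((t : ℝ) + (n + 1)) / (n + 1)) ^ (n + 1)

noncomputable def D_PotB (n t : ℕ) : ℝ := W_PotB n (t + 1) - W_PotB n t

theorem D_bd_PotB (n t : ℕ) :
    (((t : ℝ) + (n + 1)) / (n + 1)) ^ n ≤ D_PotB n t ∧
      D_PotB n t ≤ (((t : ℝ) + (n + 1) + 1) / (n + 1)) ^ n := by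
  have hn : (0 : ℝ) < n + 1 := by positivity
  have h := pow_bd_PotB (((t : ℝ) + (n + 1) + 1) / (n + 1)) (((t : ℝ) + (n + 1)) / (n + 1))
    (by positivity) (div_le_div_of_nonneg_right (by linarith) hn.le) n
  have e : ((t : ℝ) + (n + 1) + 1) / (n + 1) - ((t : ℝ) + (n + 1)) / (n + 1) = 1 / (n + 1) := by
    ring
  have e2 : ∀ x : ℝ, ((n : ℝ) + 1) * x * (1 / (n + 1)) = x := by
    intro x
    field_simp
  rw [e, e2, e2] at h
  have e3 : D_PotB n t = (((t : ℝ) + (n + 1) + 1) / (n + 1)) ^ (n + 1) -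
      (((t : ℝ) + (n + 1)) / (n + 1)) ^ (n + 1) := by
    unfold D_PotB W_PotB
    push_cast
    congr 2
    ring
  rw [e3]
  exact h

theorem D_nonneg_PotB (n t : ℕ) : 0 ≤ D_PotB n t :=
  le_trans (by positivity) (D_bd_PotB n t).1

theorem D_mono_PotB (n t : ℕ) : D_PotB n t ≤ D_PotB n (t + 1) := by
  refine le_trans (D_bd_PotB n t).2 (le_trans (le_of_eq ?_) (D_bd_PotB n (t + 1)).1)
  push_cast
  congr 2
  ring

theorem amgm_PotB (n : ℕ) (y : Fin (n + 1) → ℕ) :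
    ∏ i, ((y i : ℝ) + 1) ≤ W_PotB n (∑ i, y i) := by
  set μ : ℝ := (((∑ i, y i : ℕ) : ℝ) + (n + 1)) / (n + 1) with hμ
  have hn : (0 : ℝ) < n + 1 := by positivity
  have hμ0 : 0 < μ := by positivity
  have h1 : ∏ i, ((y i : ℝ) + 1) ≤ ∏ i, (μ * Real.exp (((y i : ℝ) + 1) / μ - 1)) := by
    refine prod_le_prod (fun i _ => by positivity) (fun i _ => ?_)
    have := Real.add_one_le_exp (((y i : ℝ) + 1) / μ - 1)
    calc (y i : ℝ) + 1 = μ * (((y i : ℝ) + 1) / μ - 1 + 1) := by field_simp; ring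
      _ ≤ _ := mul_le_mul_of_nonneg_left this hμ0.le
  refine le_trans h1 (le_of_eq ?_)
  rw [prod_mul_distrib, ← Real.exp_sum, prod_const, card_univ, Fintype.card_fin]
  have h2 : ∑ i, (((y i : ℝ) + 1) / μ - 1) = 0 := by
    rw [sum_sub_distrib, ← sum_div, sum_add_distrib]
    simp only [sum_const, card_univ, Fintype.card_fin, nsmul_eq_mul, mul_one]
    have h3 : ∑ i, (y i : ℝ) + ((n + 1 : ℕ) : ℝ) = μ * (n + 1) := by
      rw [hμ]
      push_cast
      field_simp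
    rw [h3]
    push_cast
    field_simp
    ring
  rw [h2, Real.exp_zero, mul_one]
  rfl

theorem prod_step_PotB {d : ℕ} (y : Fin d → ℕ) (i : Fin d) :
    ∏ j, ((((y + Pi.single i 1 : Fin d → ℕ) j : ℕ) : ℝ) + 1) =
      ∏ j, ((y j : ℝ) + 1) + (sg y i : ℝ) := by
  rw [← mul_prod_erase univ _ (mem_univ i), ← mul_prod_erase univ (fun j => (y j : ℝ) + 1)
    (mem_univ i)]
  have h : ∏ j ∈ univ.erase i, ((((y + Pi.single i 1 : Fin d → ℕ) j : ℕ) : ℝ) + 1) =
      ∏ j ∈ univ.erase i, ((y j : ℝ) + 1) := by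
    refine prod_congr rfl fun j hj => ?_
    simp [Pi.single_eq_of_ne (mem_erase.1 hj).1]
  rw [h]
  unfold sg
  push_cast
  simp only [Pi.add_apply, Pi.single_eq_same]
  push_cast
  ring

theorem sPotB : SPotB := by
  intro d H m Φ hd hΦ hsup hm hm0 y
  obtain ⟨n, rfl⟩ : ∃ n, d = n + 1 := ⟨d - 1, by omega⟩
  have key : ∀ s : ℕ, ∀ y : Fin (n + 1) → ℕ, ∑ i, y i = s →
      ∑ t ∈ range s, H (D_PotB n t) + m (D_PotB n s) * (∏ i, ((y i : ℝ) + 1) - W_PotB n s)
        ≤ Φ y := by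
    intro s
    induction s with
    | zero =>
      intro y hy
      have h0 : y = 0 := by
        funext i
        exact (sum_eq_zero_iff.1 hy) i (mem_univ i)
      subst h0
      have hn : ((n : ℝ) + 1) ≠ 0 := by positivity
      simp [hΦ.1, W_PotB, div_self hn]
    | succ s ih =>
      intro y hy
      have hy0 : y ≠ 0 := by
        rintro rfl
        simp at hy
      obtain ⟨y', i, rfl, hΦy⟩ := hΦ.2.2 y hy0
      have hs : ∑ j, y' j = s := by
        simp only [Pi.add_apply, sum_add_distrib] at hy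
        rw [Finset.sum_pi_single'] at hy
        simp at hy
        exact hy
      have h1 := ih y' hs
      have h2 := hsup (D_PotB n s) (sg y' i) (D_nonneg_PotB n s) (Nat.cast_nonneg _)
      have h3 := amgm_PotB n (y' + Pi.single i 1)
      rw [hy] at h3
      have h4 := hm _ _ (D_nonneg_PotB n s) (D_mono_PotB n s)
      have h5 := mul_le_mul_of_nonpos_right h4 (sub_nonpos.2 h3)
      rw [sum_range_succ, hΦy]
      rw [prod_step_PotB] at h5 ⊢
      have h6 : W_PotB n (s + 1) = W_PotB n s + D_PotB n s := by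
        unfold D_PotB
        ring
      rw [h6] at h5 ⊢
      nlinarith
  have h1 := key _ y rfl
  have h2 := mul_nonneg_of_nonpos_of_nonpos (hm0 _ (D_nonneg_PotB n (∑ i, y i)))
    (sub_nonpos.2 (amgm_PotB n y))
  refine le_trans (sum_le_sum fun t _ => ?_) (le_trans (le_add_of_nonneg_right h2) h1)
  have h3 := (D_bd_PotB n t).2
  have h4 : (0 : ℝ) ≤ (((t : ℝ) + (n + 1) + 1) / (n + 1)) ^ n := by positivity
  have h5 := hsup _ _ h4 (D_nonneg_PotB n t)
  have h6 := mul_nonneg_of_nonpos_of_nonpos (hm0 _ h4) (sub_nonpos.2 h3)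
  simp only [Nat.add_sub_cancel]
  push_cast
  linarith

end Pool.Agent.MP_6d294b_pr

end

section

open Finset

namespace Pool.Agent.MP_6d294b_pr

lemma congr_PrB {α : Type} (Ω : Finset α) (p : ℝ) (E F : Finset α → Prop)
    (h : ∀ A, E A ↔ F A) : Pr Ω p E = Pr Ω p F := by
  have : E = F := funext fun A => propext (h A)
  rw [this]

lemma empty_PrB {α : Type} (p : ℝ) (E : Finset α → Prop) [Decidable (E ∅)] :
    Pr (∅ : Finset α) p E = if E ∅ then 1 else 0 := by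
  unfold Pr
  by_cases h : E ∅ <;> simp [h]

lemma indep_PrB {α : Type} [DecidableEq α] (Ω : Finset α) (p : ℝ) (X : Finset α)
    (E F : Finset α → Prop) (hE : ∀ A, E A ↔ E (A ∩ X)) (hF : ∀ A, F A ↔ F (A \ X)) :
    Pr Ω p (fun A => E A ∧ F A) = Pr Ω p E * Pr Ω p F := by
  classical
  induction Ω using Finset.induction_on generalizing E F with
  | empty =>
    rw [empty_PrB, empty_PrB, empty_PrB]
    by_cases h1 : E ∅ <;> by_cases h2 : F ∅ <;> simp [h1, h2]
  | insert a O ha ih =>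
    rw [insert_PrA O a ha, insert_PrA O a ha, insert_PrA O a ha, ih E F hE hF]
    by_cases hX : a ∈ X
    · have f1 : ∀ A, F (insert a A) ↔ F A := by
        intro A
        rw [hF (insert a A), hF A, Finset.insert_sdiff_of_mem _ hX]
      have e1 : ∀ A, E (insert a A) ↔ E (insert a (A ∩ X)) := by
        intro A
        rw [hE (insert a A), Finset.insert_inter_of_mem hX]
      rw [congr_PrB O p (fun A => E (insert a A) ∧ F (insert a A))
          (fun A => E (insert a A) ∧ F A) (fun A => by rw [f1 A]),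
        ih (fun A => E (insert a A)) F e1 hF, congr_PrB O p (fun A => F (insert a A)) F f1]
      ring
    · have e1 : ∀ A, E (insert a A) ↔ E A := by
        intro A
        rw [hE (insert a A), hE A, Finset.insert_inter_of_notMem hX]
      have f1 : ∀ A, F (insert a A) ↔ F (insert a (A \ X)) := by
        intro A
        rw [hF (insert a A), Finset.insert_sdiff_of_notMem _ hX]
      rw [congr_PrB O p (fun A => E (insert a A) ∧ F (insert a A))
          (fun A => E A ∧ F (insert a A)) (fun A => by rw [e1 A]),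
        ih E (fun A => F (insert a A)) hE f1, congr_PrB O p (fun A => E (insert a A)) E e1]
      ring

lemma compl_PrB {α : Type} (Ω : Finset α) (p : ℝ) (E : Finset α → Prop) :
    Pr Ω p (fun A => ¬ E A) = 1 - Pr Ω p E := by
  classical
  rw [← true_PrA Ω p]
  unfold Pr
  rw [← Finset.sum_sub_distrib]
  refine Finset.sum_congr rfl fun A _ => ?_
  by_cases h : E A <;> simp [h]

lemma avoid_PrB {α : Type} [DecidableEq α] (Ω : Finset α) {p : ℝ} (h0 : 0 ≤ p) (h1 : p ≤ 1)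
    (X : Finset α) : (1 - p) ^ X.card ≤ Pr Ω p (fun A => A ∩ X = ∅) := by
  classical
  have hq : 0 ≤ 1 - p := by linarith
  induction Ω using Finset.induction_on generalizing X with
  | empty =>
    rw [empty_PrB]
    simp only [Finset.empty_inter, if_true]
    exact pow_le_one₀ hq (by linarith)
  | insert a O ha ih =>
    rw [insert_PrA O a ha]
    by_cases hX : a ∈ X
    · have e1 : (1 - p) ^ (X.erase a).card ≤ Pr O p (fun A => A ∩ X = ∅) := by
        refine (ih (X.erase a)).trans (mono_PrA O h0 h1 _ _ fun A hA h => ?_)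
        rw [Finset.eq_empty_iff_forall_notMem] at h ⊢
        intro x hx
        obtain ⟨hx1, hx2⟩ := Finset.mem_inter.1 hx
        refine h x (Finset.mem_inter.2 ⟨hx1, Finset.mem_erase.2 ⟨?_, hx2⟩⟩)
        rintro rfl
        exact ha (hA hx1)
      have e3 : X.card = (X.erase a).card + 1 := (Finset.card_erase_add_one hX).symm
      rw [e3, pow_succ]
      have := mul_le_mul_of_nonneg_left e1 hq
      have := mul_nonneg h0 (nonneg_PrA O h0 h1 (fun A => insert a A ∩ X = ∅))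
      linarith
    · rw [congr_PrB O p (fun A => insert a A ∩ X = ∅) (fun A => A ∩ X = ∅)
        (fun A => by rw [Finset.insert_inter_of_notMem hX])]
      have := ih X
      linarith

lemma monop_PrB {α : Type} [DecidableEq α] (Ω : Finset α) {p p₀ : ℝ} (h0 : 0 ≤ p) (h : p ≤ p₀)
    (h1 : p₀ ≤ 1) (E : Finset α → Prop) (hE : Incr E) : Pr Ω p E ≤ Pr Ω p₀ E := by
  classical
  induction Ω using Finset.induction_on generalizing E with
  | empty => rw [empty_PrB, empty_PrB]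
  | insert a O ha ih =>
    rw [insert_PrA O a ha, insert_PrA O a ha]
    have hE1 : Incr (fun A => E (insert a A)) := fun A B hAB hA =>
      hE _ _ (Finset.insert_subset_insert a hAB) hA
    have a1 := ih E hE
    have a2 := ih _ hE1
    have a3 : Pr O p₀ E ≤ Pr O p₀ (fun A => E (insert a A)) :=
      mono_PrA O (h0.trans h) h1 _ _ fun A _ hA => hE _ _ (Finset.subset_insert a A) hA
    have b1 := mul_le_mul_of_nonneg_left a1 (show 0 ≤ 1 - p by linarith)
    have b2 := mul_le_mul_of_nonneg_left a2 h0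
    have b3 := mul_nonneg (sub_nonneg.2 h) (sub_nonneg.2 a3)
    nlinarith

theorem sPrB (hA : SPrA) : SPrB := by
  intro α _ Ω p h0 h1
  exact ⟨fun X E F hE hF => indep_PrB Ω p X E F hE hF, compl_PrB Ω p, avoid_PrB Ω h0 h1,
    fun E hE p₀ h h2 => monop_PrB Ω h0 h h2 E hE⟩

end Pool.Agent.MP_6d294b_pr

end

section

open Finset

namespace Pool.Agent.MP_6d294b_pr

theorem pow_div_Seed (x y : ℝ) (k : ℕ) (hx : 0 ≤ x) (hy : 0 ≤ y) (h : k ≠ 0 → x ≤ k * y) :
    x ^ k / k.factorial ≤ (Real.exp 1 * y) ^ k := by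
  rcases Nat.eq_zero_or_pos k with rfl | hk
  · simp
  have h1 : x ^ k ≤ (k : ℝ) ^ k * y ^ k := by
    rw [← mul_pow]
    exact pow_le_pow_left₀ hx (h hk.ne') k
  have h2 : (k : ℝ) ^ k / k.factorial ≤ Real.exp 1 ^ k := by
    rw [← Real.exp_nat_mul, mul_one]
    exact Real.pow_div_factorial_le_exp _ (Nat.cast_nonneg k) k
  calc x ^ k / k.factorial ≤ (k : ℝ) ^ k * y ^ k / k.factorial := by gcongr
    _ = (k : ℝ) ^ k / k.factorial * y ^ k := by ring
    _ ≤ Real.exp 1 ^ k * y ^ k := by gcongr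
    _ = (Real.exp 1 * y) ^ k := by rw [mul_pow]

theorem sSeed (hA : SPrA) (hG : SGeoA) (hB : SGeoB) : SSeed := by
  classical
  intro d Ω p hp0 hp1 R i c hc
  obtain ⟨-, -, hmono, -, -, hch⟩ := hA (Pt d) Ω p hp0 hp1
  set X := Ω.filter (fun x => InB x R) with hX
  obtain ⟨k, hk⟩ : ∃ k, k = (psi R + 1) / 2 := ⟨_, rfl⟩
  have hcard : X.card ≤ ∏ j, (ex R j + 1) :=
    (hB d).2.2.2.1 R X (fun x hx => (Finset.mem_filter.1 hx).2)
  have hi : ex R i ≤ psi R := Finset.single_le_sum (f := ex R) (fun _ _ => Nat.zero_le _)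
    (Finset.mem_univ i)
  have h1 : X.card ≤ (psi R + 1) * sg (ex R) i := by
    refine hcard.trans ?_
    rw [← Finset.mul_prod_erase Finset.univ (fun j => ex R j + 1) (Finset.mem_univ i)]
    exact Nat.mul_le_mul_right _ (by omega)
  have h2 : X.card ≤ 2 ^ psi R := by
    refine hcard.trans ?_
    rw [psi, ← Finset.prod_pow_eq_pow_sum]
    exact Finset.prod_le_prod' (fun j _ => Nat.lt_two_pow_self)
  have h3 : Pr Ω p (ISp R) ≤ ((X.card : ℝ) * p) ^ (k + 1) / (k + 1).factorial := by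
    refine (hmono _ (fun A => k + 1 ≤ (A ∩ X).card) ?_).trans ((hch X (k + 1)).trans ?_)
    · rintro A hA ⟨B, hBA, hS⟩
      obtain ⟨-, hin, hps, -⟩ := (hG d).1 B R hS
      have : B.card ≤ (A ∩ X).card := Finset.card_le_card (fun x hx =>
        Finset.mem_inter.2 ⟨hBA hx, Finset.mem_filter.2 ⟨hA (hBA hx), hin x hx⟩⟩)
      omega
    · have := Nat.choose_le_pow_div (α := ℝ) (k + 1) X.card
      calc (X.card.choose (k + 1) : ℝ) * p ^ (k + 1)
          ≤ (X.card : ℝ) ^ (k + 1) / (k + 1).factorial * p ^ (k + 1) := by gcongr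
        _ = _ := by rw [mul_pow]; ring
  have h1' : (X.card : ℝ) ≤ (psi R + 1) * sg (ex R) i := by exact_mod_cast h1
  have hs0 : (0 : ℝ) ≤ sg (ex R) i := Nat.cast_nonneg _
  have hk1 : (psi R : ℝ) ≤ 2 * k := by exact_mod_cast (show psi R ≤ 2 * k by omega)
  have hk2 : (psi R : ℝ) + 1 ≤ 2 * k + 1 := by linarith
  constructor
  · intro h
    refine h3.trans ((pow_div_Seed _ (2 * p * sg (ex R) i) (k + 1) (by positivity) (by positivity)
      (fun _ => ?_)).trans ?_)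
    · push_cast
      calc (X.card : ℝ) * p ≤ (2 * k + 2) * sg (ex R) i * p := by
            gcongr
            exact h1'.trans (by gcongr; linarith)
        _ = _ := by ring
    · calc (Real.exp 1 * (2 * p * sg (ex R) i)) ^ (k + 1) ≤ Real.exp (-(2 * c)) ^ (k + 1) := by
            gcongr
            linarith
        _ = Real.exp ((k + 1 : ℕ) * -(2 * c)) := by rw [Real.exp_nat_mul]
        _ ≤ _ := by
            rw [Real.exp_le_exp]
            push_cast
            nlinarith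
  · intro h
    have h4 : ((X.card : ℝ) * p) ^ k / k.factorial ≤
        (Real.exp 1 * (3 * p * sg (ex R) i)) ^ k := by
      refine pow_div_Seed _ _ k (by positivity) (by positivity) (fun hk0 => ?_)
      have : (1 : ℝ) ≤ k := by exact_mod_cast Nat.one_le_iff_ne_zero.2 hk0
      calc (X.card : ℝ) * p ≤ (3 * k) * sg (ex R) i * p := by
            gcongr
            exact h1'.trans (by gcongr; linarith)
        _ = _ := by ring
    have he : 0 < Real.exp c := Real.exp_pos c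
    have he1 : 1 ≤ Real.exp c := Real.one_le_exp hc
    have h5 : Real.exp 1 * (3 * p * sg (ex R) i) ≤ (1 / (8 * Real.exp c)) ^ 2 := by
      rw [two_mul c, Real.exp_add] at h
      rw [div_pow, le_div_iff₀ (by positivity)]
      nlinarith
    have h6 : (Real.exp 1 * (3 * p * sg (ex R) i)) ^ k ≤ (1 / (8 * Real.exp c)) ^ psi R := by
      refine (pow_le_pow_left₀ (by positivity) h5 k).trans ?_
      rw [← pow_mul]
      refine pow_le_pow_of_le_one (by positivity) ?_ (by omega)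
      rw [div_le_one (by positivity)]
      linarith
    have h2' : (X.card : ℝ) ≤ 2 ^ psi R := by exact_mod_cast h2
    have h7 : ((X.card : ℝ) * p) ^ (k + 1) / (k + 1).factorial ≤
        (2 ^ psi R * p) * (1 / (8 * Real.exp c)) ^ psi R := by
      have hf : (k.factorial : ℝ) ≤ (k + 1).factorial := by
        exact_mod_cast Nat.factorial_le (Nat.le_succ k)
      calc ((X.card : ℝ) * p) ^ (k + 1) / (k + 1).factorial
          ≤ ((X.card : ℝ) * p) ^ (k + 1) / k.factorial := by gcongr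
        _ = (X.card * p) * (((X.card : ℝ) * p) ^ k / k.factorial) := by ring
        _ ≤ _ := by
          gcongr
          exact h4.trans h6
    have h8 : Real.exp (c * psi R) = Real.exp c ^ psi R := by
      rw [mul_comm, Real.exp_nat_mul]
    rw [h8]
    calc Pr Ω p (ISp R) * Real.exp c ^ psi R
        ≤ (2 ^ psi R * p) * (1 / (8 * Real.exp c)) ^ psi R * Real.exp c ^ psi R := by
          gcongr
          exact h3.trans h7
      _ = p * (2 * (1 / (8 * Real.exp c)) * Real.exp c) ^ psi R := by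
          rw [mul_pow, mul_pow]
          ring
      _ = p * (1 / 4) ^ psi R := by
          congr 2
          field_simp
          norm_num

end Pool.Agent.MP_6d294b_pr

end

section

open Finset

namespace Pool.Agent.MP_6d294b_pr

lemma one_Bet (u : ℝ) (h0 : 0 ≤ u) (h1 : u ≤ 1) :
    u ≤ bet u ∧ bet u ≤ 1 ∧ bet u ^ 2 = u * bet u + u * (1 - u) := by
  have hn : 0 ≤ u * (4 - 3 * u) := mul_nonneg h0 (by linarith)
  have hs := Real.sq_sqrt hn
  have a1 : u ≤ Real.sqrt (u * (4 - 3 * u)) := Real.le_sqrt_of_sq_le (by nlinarith)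
  have a2 : Real.sqrt (u * (4 - 3 * u)) ≤ 2 - u :=
    Real.sqrt_le_iff.2 ⟨by linarith, by nlinarith [sq_nonneg (1 - u)]⟩
  unfold bet
  refine ⟨by linarith, by linarith, ?_⟩
  linear_combination hs / 4

theorem sBet : SBet := by
  refine ⟨one_Bet, fun z hz => ?_⟩
  have hw0 : 0 < Real.exp (- z) := Real.exp_pos _
  have hw1 : Real.exp (- z) * (1 + z) ≤ 1 := by
    have := Real.add_one_le_exp z
    calc Real.exp (- z) * (1 + z) ≤ Real.exp (- z) * Real.exp z := by gcongr; linarith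
      _ = 1 := by rw [← Real.exp_add]; simp
  unfold gf
  generalize Real.exp (- z) = w at *
  have hu0 : 0 < 1 - w := by nlinarith
  obtain ⟨b1, b2, b3⟩ := one_Bet (1 - w) hu0.le (by linarith)
  have b0 : 0 < bet (1 - w) := hu0.trans_le b1
  have key : - Real.log (bet (1 - w)) ≤ - Real.log (1 - w) / 2 := by
    have h : Real.log (1 - w) ≤ Real.log (bet (1 - w) ^ 2) :=
      Real.log_le_log hu0 (by nlinarith)
    rw [Real.log_pow] at h
    push_cast at h
    linarith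
  refine ⟨by rw [neg_neg, Real.exp_log b0], ?_, key.trans ?_, fun h1 => key.trans ?_⟩
  · have := Real.log_nonpos b0.le b2
    linarith
  · have h : Real.log (1 - w)⁻¹ ≤ Real.log (1 + 1 / z) := by
      refine Real.log_le_log (inv_pos.2 hu0) ?_
      rw [inv_eq_one_div, div_le_iff₀ hu0]
      have e : (1 + 1 / z) * (1 - w) = 1 + (1 - w * (1 + z)) / z := by field_simp; ring
      rw [e]
      have : 0 ≤ (1 - w * (1 + z)) / z := div_nonneg (by linarith) hz.le
      linarith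
    rw [Real.log_inv] at h
    linarith
  · have hw : w ≤ 1 / 2 := by nlinarith
    have h := Real.one_sub_inv_le_log_of_pos hu0
    have h2 : (1 - w)⁻¹ ≤ 1 + 2 * w := by
      rw [inv_eq_one_div, div_le_iff₀ hu0]; nlinarith
    linarith

end Pool.Agent.MP_6d294b_pr

end

section

open Finset

namespace Pool.Agent.MP_6d294b_pr

/-- disjoint occurrence of two events -/
def BoxInd {α : Type} (E F : Finset α → Prop) (A : Finset α) : Prop :=
  ∃ B C : Finset α, B ⊆ A ∧ C ⊆ A ∧ Disjoint B C ∧ E B ∧ F C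

theorem box_incr_Ind {α : Type} (E F : Finset α → Prop) : Incr (BoxInd E F) := by
  rintro A A' h ⟨B, C, h1, h2, h3⟩
  exact ⟨B, C, h1.trans h, h2.trans h, h3⟩

theorem bk_Ind (hA : SPrA) (hBK : SBK) {α : Type} [DecidableEq α] (Ω : Finset α) {p : ℝ}
    (h0 : 0 ≤ p) (h1 : p ≤ 1 / 2) {E F : Finset α → Prop} (hE : Incr E) (hF : Incr F) :
    Pr Ω p (BoxInd E F) ≤ Pr Ω p E * Pr Ω p F := by
  have h := hBK α Ω p h0 h1 Bool univ (fun k => cond k E F) (by
    intro k _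
    cases k
    · exact hF
    · exact hE)
  rw [Fintype.prod_bool] at h
  refine le_trans ((hA α Ω p h0 (by linarith)).2.2.1 _ _ ?_) h
  rintro A - ⟨B, C, g1, g2, g3, g4, g5⟩
  refine ⟨fun k => cond k B C, fun k _ => ?_, fun k _ l _ hkl => ?_⟩
  · cases k
    · exact ⟨g2, g5⟩
    · exact ⟨g1, g4⟩
  · cases k <;> cases l
    · exact absurd rfl hkl
    · exact g3.symm
    · exact g3
    · exact absurd rfl hkl

variable {d : ℕ}

theorem isp_incr_Ind (R : Bx d) : Incr (ISp R) := by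
  rintro A A' h ⟨B, h1, h2⟩
  exact ⟨B, h1.trans h, h2⟩

theorem cross_incr_Ind (T : ℕ) (S R : Bx d) : Incr (Cross T S R) := by
  rintro A A' h ⟨U, w, W, h1, h2, h3⟩
  exact ⟨U, w, W, fun u hu => ⟨(h1 u hu).1, (h1 u hu).2.1.trans h, (h1 u hu).2.2⟩,
    fun s => ⟨(h2 s).1.trans h, (h2 s).2⟩, h3⟩

theorem lg_nonneg_Ind (R : Bx d) : 0 ≤ lg R :=
  sum_nonneg fun i _ => Real.log_nonneg (by have := Nat.cast_nonneg (α := ℝ) (ex R i); linarith)

theorem lg_mono_Ind {S R : Bx d} (h : ∀ i, ex S i ≤ ex R i) : lg S ≤ lg R :=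
  sum_le_sum fun i _ => Real.log_le_log (by positivity)
    (by have : (ex S i : ℝ) ≤ ex R i := by exact_mod_cast h i
        linarith)

theorem ex_le_Ind (R : Bx d) (i : Fin d) : ex R i ≤ psi R :=
  single_le_sum (f := ex R) (fun _ _ => Nat.zero_le _) (mem_univ i)

theorem lg_le_Ind {R : Bx d} {N : ℕ} (h : psi R ≤ 2 * N) : lg R ≤ d * Real.log (2 * N + 1) := by
  have : ∀ i ∈ (univ : Finset (Fin d)), Real.log ((ex R i : ℝ) + 1) ≤ Real.log (2 * N + 1) := by
    intro i _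
    refine Real.log_le_log (by positivity) ?_
    have : (ex R i : ℝ) ≤ 2 * N := by exact_mod_cast (ex_le_Ind R i).trans h
    linarith
  have h2 := sum_le_card_nsmul _ _ _ this
  rwa [card_univ, Fintype.card_fin, nsmul_eq_mul] at h2

theorem eta_nonneg_Ind (d T : ℕ) : 0 ≤ eta d T := by
  have h1 : 0 ≤ Real.log (2 * T + 2) :=
    Real.log_nonneg (by have := Nat.cast_nonneg (α := ℝ) T; linarith)
  have h2 : 0 ≤ Real.log 2 := Real.log_nonneg (by norm_num)
  unfold eta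
  positivity

theorem eta_exp_Ind (d : ℕ) {T : ℕ} (hT : 1 ≤ T) :
    ((2 * T + 1 + 1) ^ (2 * d) : ℕ) * Real.exp (- (eta d T * T)) = 1 / 2 := by
  have h0 : (T : ℝ) ≠ 0 := by positivity
  have h1 : eta d T * T = ((2 * d : ℕ) : ℝ) * Real.log (2 * T + 2) + Real.log 2 := by
    rw [eta, div_mul_cancel₀ _ h0]
    push_cast
    ring
  rw [h1, Real.exp_neg, Real.exp_add, Real.exp_nat_mul, Real.exp_log (by positivity),
    Real.exp_log (by norm_num)]
  push_cast
  rw [show (2 * T + 1 + 1 : ℝ) = 2 * T + 2 by ring]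
  field_simp

theorem sInd (hA : SPrA) (hBK : SBK) (hG : SGeoA) (hB : SGeoB) (hC : SChain) (hS : SStep)
    (hM : SMerge) : SInd := by
  classical
  intro d T M N p p' Ω Φ hPar hp hΦ
  have hS' := hS d T M N p p' Ω Φ hPar hp hΦ
  obtain ⟨m1, m2, m3⟩ := hM d T M N p p' Ω Φ hPar hp hΦ
  obtain ⟨-, q1, q2, q3, q4, q5⟩ := hPar
  have p0 : 0 ≤ p := by
    have := Real.exp_le_one_iff.2 (neg_nonpos.2 q1.le)
    linarith
  have p1 : p ≤ 1 / 2 := by
    have a1 := Real.add_one_le_exp (- p')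
    have a2 : (1 : ℝ) ≤ (M + 1) ^ (d - 1) :=
      one_le_pow₀ (by have := Nat.cast_nonneg (α := ℝ) M; linarith)
    nlinarith
  obtain ⟨a1, -, a3, a4, a5, -⟩ := hA (Pt d) Ω p p0 (by linarith)
  have hη := eta_nonneg_Ind d T
  have hθ : 0 ≤ theta d T N p' := by
    unfold theta
    positivity
  have hε : 0 ≤ epsMax d T N p' := by
    have : 0 ≤ Real.log (2 * N + 1) :=
      Real.log_nonneg (by have := Nat.cast_nonneg (α := ℝ) N; linarith)
    unfold epsMax
    positivity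
  have hTM : T ≤ M := by
    have : (T : ℝ) ≤ M := by
      have := Nat.cast_nonneg (α := ℝ) T
      linarith
    exact_mod_cast this
  obtain ⟨K, hK⟩ : ∃ K : ℝ, K = 2 / (p' * sst d M) := ⟨_, rfl⟩
  have hK0 : 0 ≤ K := by
    rw [hK]
    positivity
  rw [← hK] at q5 m3
  generalize hη' : eta d T = η at *
  generalize hθ' : theta d T N p' = θ at *
  suffices h : ∀ n, ∀ R : Bx d, psi R < n → Val R → psi R ≤ 2 * N →
      Pr Ω p (ISp R) ≤ Real.exp (- Φ (ex R) + η * psi R + θ * lg R) from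
    fun R => h _ R (Nat.lt_succ_self _)
  intro n
  induction n with
  | zero => exact fun R h => absurd h (Nat.not_lt_zero _)
  | succ n ih =>
  intro R hn hR hRN
  by_cases hseed : ∃ i, sg (ex R) i ≤ 2 * (M + 1) ^ (d - 1)
  · refine (m1 R hseed).trans (Real.exp_le_exp.2 ?_)
    have b1 := mul_nonneg hη (Nat.cast_nonneg (α := ℝ) (psi R))
    have b2 := mul_nonneg hθ (lg_nonneg_Ind R)
    have b3 := Nat.cast_nonneg (α := ℝ) (psi R)
    linarith
  push Not at hseed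
  have hMR := m2 R hseed
  obtain ⟨X₁, hX₁⟩ : ∃ X : Finset (Bx d), X = (boxes R).filter fun S => Val S ∧ S ≤ R ∧
    psi S + T ≤ psi R ∧ psi R ≤ psi S + (2 * T + 1) := ⟨_, rfl⟩
  obtain ⟨X₂, hX₂⟩ : ∃ X : Finset (Bx d × Bx d), X = (boxes R ×ˢ boxes R).filter fun z =>
    Val z.1 ∧ Val z.2 ∧ z.1 ⊔ z.2 ≤ R ∧ gap z.1 z.2 ≤ 2 ∧ T ≤ psi z.2 ∧ psi z.2 ≤ psi z.1 ∧
      psi z.1 < psi (z.1 ⊔ z.2) ∧ psi R < psi (z.1 ⊔ z.2) + T := ⟨_, rfl⟩
  have hincl : Pr Ω p (ISp R) ≤ Pr Ω p fun A => (∃ S ∈ X₁, BoxInd (ISp S) (Cross T S R) A) ∨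
      ∃ z ∈ X₂, BoxInd (ISp z.1) (BoxInd (ISp z.2) (Cross T (z.1 ⊔ z.2) R)) A := by
    refine a3 _ _ ?_
    rintro A - ⟨A', hA', hsp⟩
    rcases hC d T A' R hsp q2 (by omega) with ⟨S, B, C, g1, g2, g3, g4, g5, g6, g7, g8⟩ |
      ⟨Q, P, B₁, B₂, C, g1, g2, g3, g4, g5, g6, g7, g8, g9, g10, g11⟩
    · have hv := ((hG d).1 _ _ g4).1
      refine Or.inl ⟨S, ?_, B, C, g1.trans hA', g2.trans hA', g3, ⟨B, Subset.refl _, g4⟩, g5⟩
      rw [hX₁, mem_filter]
      exact ⟨((hG d).2.2.2.1 S R hv g6).2.2.2.2, hv, g6, g7, g8⟩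
    · have hv := ((hG d).1 _ _ g7).1
      have hv' := ((hG d).1 _ _ g8).1
      refine Or.inr ⟨(Q, P), ?_, B₁, B₂ ∪ C, g1.trans hA', (union_subset g2 g3).trans hA',
        disjoint_union_right.2 ⟨g4, g5⟩, ⟨B₁, Subset.refl _, g7⟩, B₂, C, subset_union_left,
        subset_union_right, g6, ⟨B₂, Subset.refl _, g8⟩, g9⟩
      rw [hX₂, mem_filter, mem_product]
      exact ⟨⟨((hG d).2.2.2.1 Q R hv (le_sup_left.trans g10)).2.2.2.2,
        ((hG d).2.2.2.1 P R hv' (le_sup_right.trans g10)).2.2.2.2⟩, hv, hv', g10, g11⟩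
  obtain ⟨b, hb⟩ : ∃ b, b = Real.exp (- Φ (ex R) + η * psi R + θ * lg R) := ⟨_, rfl⟩
  have hb0 : 0 ≤ b := hb ▸ (Real.exp_pos _).le
  have t1 : ∀ S ∈ X₁, Pr Ω p (BoxInd (ISp S) (Cross T S R)) ≤ b * Real.exp (- (η * T)) := by
    intro S hS
    rw [hX₁, mem_filter] at hS
    obtain ⟨-, g1, g2, g3, g4⟩ := hS
    refine (bk_Ind hA hBK Ω p0 p1 (isp_incr_Ind S) (cross_incr_Ind T S R)).trans
      ((mul_le_mul (ih S (by omega) g1 (by omega)) (hS' S R g1 g2 hRN g4) (a1 _)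
        (Real.exp_pos _).le).trans ?_)
    rw [hb, ← Real.exp_add, ← Real.exp_add, Real.exp_le_exp]
    have c1 : (psi S : ℝ) + T ≤ psi R := by exact_mod_cast g3
    have c2 := mul_le_mul_of_nonneg_left c1 hη
    linarith
  have t2 : ∀ z ∈ X₂, Pr Ω p (BoxInd (ISp z.1) (BoxInd (ISp z.2) (Cross T (z.1 ⊔ z.2) R))) ≤
      b * (K * Real.exp (- T)) := by
    rintro ⟨Q, P⟩ hz
    rw [hX₂, mem_filter] at hz
    obtain ⟨-, g1, g2, g3, g4, g5, g6, g7, g8⟩ := hz
    simp only at g1 g2 g3 g4 g5 g6 g7 g8 ⊢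
    obtain ⟨v1, v2, -⟩ := (hG d).2.2.2.1 Q (Q ⊔ P) g1 le_sup_left
    obtain ⟨-, v3, -⟩ := (hG d).2.2.2.1 P (Q ⊔ P) g2 le_sup_right
    have v4 := ((hG d).2.2.2.1 _ R v1 g3).2.2.2.1
    have iQ := ih Q (by omega) g1 (by omega)
    have iP := ih P (by omega) g2 (by omega)
    obtain ⟨n1, n2⟩ := m3 Q P g1 g2 g4
    have c1 : (T : ℝ) ≤ psi P := by exact_mod_cast g5
    have c2 : (psi P : ℝ) ≤ psi Q := by exact_mod_cast g6
    have c3 : (psi Q : ℝ) ≤ psi R := by exact_mod_cast (by omega : psi Q ≤ psi R)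
    have c4 := mul_le_mul_of_nonneg_left c3 hη
    have c5 := mul_le_mul_of_nonneg_left (c2.trans c3) hη
    have c6 := mul_le_mul_of_nonneg_left (lg_mono_Ind v2) hθ
    have c7 := mul_le_mul_of_nonneg_left (lg_mono_Ind v3) hθ
    have key : ∀ x y D : ℝ, Pr Ω p (ISp Q) ≤ Real.exp x → Pr Ω p (ISp P) ≤ Real.exp y →
        Real.exp D ≤ K → x + y ≤ - Φ (ex (Q ⊔ P)) + η * psi R + θ * lg (Q ⊔ P) + D - T →
        Pr Ω p (BoxInd (ISp Q) (BoxInd (ISp P) (Cross T (Q ⊔ P) R))) ≤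
          b * (K * Real.exp (- T)) := by
      intro x y D hx hy hD hxy
      refine (bk_Ind hA hBK Ω p0 p1 (isp_incr_Ind Q) (box_incr_Ind _ _)).trans
        ((mul_le_mul hx ((bk_Ind hA hBK Ω p0 p1 (isp_incr_Ind P) (cross_incr_Ind T _ R)).trans
          (mul_le_mul hy (hS' _ R v1 g3 hRN (by omega)) (a1 _) (Real.exp_pos _).le)) (a1 _)
          (Real.exp_pos _).le).trans (le_trans ?_ (mul_le_mul_of_nonneg_left
            (mul_le_mul_of_nonneg_right hD (Real.exp_pos _).le) hb0)))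
      rw [hb, ← Real.exp_add, ← Real.exp_add, ← Real.exp_add, ← Real.exp_add, Real.exp_le_exp]
      linarith
    by_cases s1 : ∃ i, sg (ex P) i ≤ 2 * (M + 1) ^ (d - 1)
    · exact key _ _ _ iQ (m1 P s1) n1 (by linarith)
    by_cases s2 : ∃ i, sg (ex Q) i ≤ 2 * (M + 1) ^ (d - 1)
    · exact key _ _ _ (m1 Q s2) iP n1 (by linarith)
    push Not at s1 s2
    refine key _ _ _ iQ iP (n2 s2 (m2 P s1).le) ?_
    have e1 : (psi P : ℝ) ≤ 2 * N := by exact_mod_cast (by omega : psi P ≤ 2 * N)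
    have e2 := mul_le_mul_of_nonneg_left e1 hη
    have e3 := mul_le_mul_of_nonneg_left (lg_le_Ind (by omega : psi P ≤ 2 * N)) hθ
    rw [epsMax, hη', hθ'] at q3
    linarith
  have k1 : (X₁.card : ℝ) ≤ ((2 * T + 1 + 1) ^ (2 * d) : ℕ) := by
    refine Nat.cast_le.2 ((hB d).2.1 R (2 * T + 1) X₁ fun S hS => ?_)
    rw [hX₁, mem_filter] at hS
    exact ⟨hS.2.1, hS.2.2.1, hS.2.2.2.2⟩
  have k2 : (X₂.card : ℝ) ≤ (2 * N + 1 : ℝ) ^ (4 * d) := by
    have e1 := (hB d).1 R (2 * N + 1) fun i => by have := ex_le_Ind R i; omega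
    have e2 : X₂.card ≤ (2 * N + 1) ^ (4 * d) := by
      rw [hX₂, show 4 * d = 2 * d + 2 * d by ring, pow_add]
      refine (card_filter_le _ _).trans ?_
      rw [card_product]
      exact Nat.mul_le_mul e1 e1
    exact_mod_cast e2
  have u1 := (a5 _ X₁ fun S => BoxInd (ISp S) (Cross T S R)).trans (sum_le_card_nsmul _ _ _ t1)
  have u2 := (a5 _ X₂ fun z => BoxInd (ISp z.1) (BoxInd (ISp z.2) (Cross T (z.1 ⊔ z.2) R))).trans
    (sum_le_card_nsmul _ _ _ t2)
  rw [nsmul_eq_mul] at u1 u2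
  have u3 := eta_exp_Ind d q2
  rw [hη'] at u3
  have u4 := mul_le_mul_of_nonneg_right k1 (mul_nonneg hb0 (Real.exp_pos (- (η * T))).le)
  have u5 := mul_le_mul_of_nonneg_right k2
    (mul_nonneg hb0 (mul_nonneg hK0 (Real.exp_pos (- (T : ℝ))).le))
  have u6 := mul_le_mul_of_nonneg_left q5 hb0
  have u7 : (((2 * T + 1 + 1) ^ (2 * d) : ℕ) : ℝ) * (b * Real.exp (- (η * T))) = b * (1 / 2) := by
    rw [← u3]
    ring
  rw [← hb]
  refine (hincl.trans (a4 _ _)).trans ?_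
  linarith

end Pool.Agent.MP_6d294b_pr

end

section

/-! Upper bound: objects and statements of the steps. -/

open Finset

namespace Pool.Agent.MP_6d294b_pr

section defs

variable {d : ℕ}

/-- the box with corners `lo` (included) and `hi` (excluded) -/
noncomputable def ubox (lo hi : Pt d) : Finset (Pt d) :=
  Fintype.piFinset fun j => Finset.Ico (lo j) (hi j)

theorem mem_ubox {lo hi x : Pt d} : x ∈ ubox lo hi ↔ ∀ j, lo j ≤ x j ∧ x j < hi j := by
  simp [ubox, Fintype.mem_piFinset]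

theorem mem_grid {n : ℕ} {x : Pt d} : x ∈ grid d n ↔ ∀ j, 0 ≤ x j ∧ x j < n := by
  simp [grid, Fintype.mem_piFinset]

theorem card_ubox (lo hi : Pt d) : (ubox lo hi).card = ∏ j, (hi j - lo j).toNat := by
  simp [ubox, Fintype.card_piFinset]

/-- the cube of side `m` with lowest corner `v` -/
noncomputable def ucube (v : Pt d) (m : ℕ) : Finset (Pt d) := ubox v fun j => v j + m

/-- layer number `l` in the direction `i`, with cross section of side `h` -/
noncomputable def ulay (v : Pt d) (i : Fin d) (l h : ℕ) : Finset (Pt d) :=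
  ubox (fun j => if j = i then v j + l + 1 else v j)
    (fun j => if j = i then v j + l + 2 else v j + h)

/-- the strip in which the jog from `a` to `b` ends -/
noncomputable def ustrip (v : Pt d) (i₁ i₂ : Fin d) (a b : ℕ) : Finset (Pt d) :=
  ubox (fun j => if j = i₁ then v j + a + 1 else if j = i₂ then v j + b else v j)
    (fun j => if j = i₁ then v j + a + 2 else if j = i₂ then v j + b + 1 else v j + a)

/-- the region that is empty for the jog from `a` to `b` -/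
noncomputable def uhole (v : Pt d) (i₁ i₂ : Fin d) (a b : ℕ) : Finset (Pt d) :=
  ubox (fun j => if j = i₁ then v j + a + 1 else v j)
    (fun j => if j = i₁ then v j + a + 3 else if j = i₂ then v j + b else v j + a + 1)

/-- segment of length `N` in the direction `i` -/
noncomputable def useg (x : Pt d) (i : Fin d) (N : ℕ) : Finset (Pt d) :=
  ubox x fun j => if j = i then x j + N else x j + 1

def Hit {α : Type} (X A : Finset α) : Prop := ∃ x ∈ A, x ∈ X

/-- no double gap -/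
def UNG {α : Type} (X : ℕ → Finset α) (J : Finset ℕ) (A : Finset α) : Prop :=
  ∀ l ∈ J, l + 1 ∈ J → Hit (X l) A ∨ Hit (X (l + 1)) A

/-- side of the cross section of the layer `l` -/
noncomputable def upsi (W : Finset (ℕ × ℕ)) (l : ℕ) : ℕ :=
  sInf {h | h = l ∨ ∃ u ∈ W, l ≤ u.2 ∧ h = u.1}

theorem upsi_le (W : Finset (ℕ × ℕ)) (l : ℕ) : upsi W l ≤ l := Nat.sInf_le (Or.inl rfl)

theorem upsi_le_jog {W : Finset (ℕ × ℕ)} {l : ℕ} {u : ℕ × ℕ} (hu : u ∈ W) (h : l ≤ u.2) :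
    upsi W l ≤ u.1 := Nat.sInf_le (Or.inr ⟨u, hu, h, rfl⟩)

theorem upsi_mem (W : Finset (ℕ × ℕ)) (l : ℕ) :
    upsi W l = l ∨ ∃ u ∈ W, l ≤ u.2 ∧ upsi W l = u.1 :=
  Nat.sInf_mem (s := {h | h = l ∨ ∃ u ∈ W, l ≤ u.2 ∧ h = u.1}) ⟨l, Or.inl rfl⟩

theorem upsi_mono (W : Finset (ℕ × ℕ)) (l : ℕ) : upsi W l ≤ upsi W (l + 1) := by
  rcases upsi_mem W (l + 1) with h | ⟨u, hu, h1, h⟩
  · have := upsi_le W l
    omega
  · rw [h]
    exact upsi_le_jog hu (by omega)

open Classical in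
/-- layers that take part in the growth in the direction `i` -/
noncomputable def uJ (W : Finset (ℕ × ℕ)) (N : ℕ) (i₁ i : Fin d) : Finset ℕ :=
  (Finset.Ico 1 N).filter fun l => i = i₁ → ∀ u ∈ W, l ≠ u.1 ∧ l ≠ u.1 + 1

/-- the increasing part of the growth event with the jogs `W` -/
def UPos (v : Pt d) (i₁ i₂ : Fin d) (N : ℕ) (W : Finset (ℕ × ℕ)) (A : Finset (Pt d)) : Prop :=
  ucube v 2 ⊆ A ∧ (∀ i, UNG (fun l => ulay v i l (upsi W l)) (uJ W N i₁ i) A) ∧
  ∀ u ∈ W, Hit (ustrip v i₁ i₂ u.1 u.2) A ∧ Hit (ulay v i₁ (u.1 + 2) (upsi W (u.1 + 2))) A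

/-- the growth event with the jogs `W` -/
def UEv (v : Pt d) (i₁ i₂ : Fin d) (N : ℕ) (W : Finset (ℕ × ℕ)) (A : Finset (Pt d)) : Prop :=
  UPos v i₁ i₂ N W A ∧ ∀ u ∈ W, ¬ Hit (uhole v i₁ i₂ u.1 u.2) A

/-- admissible sets of jogs -/
def USep (s k N : ℕ) (W : Finset (ℕ × ℕ)) : Prop :=
  (∀ u ∈ W, s ≤ u.1 ∧ u.1 < u.2 ∧ u.2 ≤ u.1 + k ∧ u.2 + 2 < N ∧ u.2 ≤ 5 * s) ∧
  ∀ u ∈ W, ∀ u' ∈ W, u ≠ u' → u.1 + 3 ≤ u'.1 ∨ u'.1 + 3 ≤ u.1

/-- incompatible sets of jogs -/
def UInc (W W' : Finset (ℕ × ℕ)) : Prop :=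
  ∃ u ∈ W, (∀ u' ∈ W', u'.1 ≠ u.1 ∧ u'.1 ≠ u.1 + 1 ∧ u'.1 + 1 ≠ u.1) ∨
    ∃ u' ∈ W', u'.1 = u.1 ∧ u'.2 < u.2

/-- closed sets of the two-neighbour rule in the grid -/
def UCl (n : ℕ) (S : Set (Pt d)) : Prop :=
  ∀ x ∈ grid d n, ∀ (i j : Fin d) (a b : ℤ), (a = 1 ∨ a = -1) → (b = 1 ∨ b = -1) →
    (i ≠ j ∨ a ≠ b) → Function.update x i (x i + a) ∈ grid d n →
    Function.update x j (x j + b) ∈ grid d n → Function.update x i (x i + a) ∈ S →
    Function.update x j (x j + b) ∈ S → x ∈ S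

/-- a droplet of side `N` grows from the sites in the cube of side `N + 1` -/
def UDrop (n : ℕ) (v : Pt d) (N : ℕ) (A : Finset (Pt d)) : Prop :=
  ∀ S : Set (Pt d), UCl n S → (∀ x ∈ A, x ∈ ucube v (N + 1) → x ∈ S) → ∀ x ∈ ucube v N, x ∈ S

def ULines (n N : ℕ) (A : Finset (Pt d)) : Prop :=
  ∀ x ∈ grid d n, ∀ i : Fin d, x i + N ≤ n → Hit (useg x i N) A

def UFull (n : ℕ) (A : Finset (Pt d)) : Prop :=
  ∀ S : Set (Pt d), UCl n S → (∀ x ∈ A, x ∈ S) → ∀ x ∈ grid d n, x ∈ S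

/-- lower bound for the probability of a growth event -/
noncomputable def uwt (d : ℕ) (p : ℝ) (N : ℕ) (W : Finset (ℕ × ℕ)) : ℝ :=
  (∏ l ∈ Finset.Ico 1 N, bet (1 - (1 - p) ^ (upsi W l ^ (d - 1)))) ^ d *
    ∏ u ∈ W, (1 - (1 - p) ^ (u.1 ^ (d - 2))) * (1 - (1 - p) ^ (upsi W (u.1 + 2) ^ (d - 1))) *
      (1 - p) ^ (2 * u.2 * (u.1 + 1) ^ (d - 2))

end defs

/-- Harris inequality and exact probabilities -/
def SUHar : Prop := ∀ (α : Type) [DecidableEq α] (Ω : Finset α) (p : ℝ), 0 ≤ p → p ≤ 1 →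
  (∀ E F : Finset α → Prop, Incr E → Incr F →
    Pr Ω p E * Pr Ω p F ≤ Pr Ω p (fun A => E A ∧ F A)) ∧
  (∀ (ι : Type) (I : Finset ι) (E : ι → Finset α → Prop), (∀ k ∈ I, Incr (E k)) →
    ∏ k ∈ I, Pr Ω p (E k) ≤ Pr Ω p (fun A => ∀ k ∈ I, E k A)) ∧
  (∀ X : Finset α, X ⊆ Ω → Pr Ω p (Hit X) = 1 - (1 - p) ^ X.card) ∧
  (∀ X : Finset α, X ⊆ Ω → Pr Ω p (fun A => X ⊆ A) = p ^ X.card)

/-- independent families and disjoint unions -/
def SUInd : Prop := ∀ (α : Type) [DecidableEq α] (Ω : Finset α) (p : ℝ), 0 ≤ p → p ≤ 1 →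
  ∀ (ι : Type) (I : Finset ι) (E : ι → Finset α → Prop),
  (∀ X : ι → Finset α, (∀ k ∈ I, ∀ l ∈ I, k ≠ l → Disjoint (X k) (X l)) →
    (∀ k ∈ I, ∀ A, E k A ↔ E k (A ∩ X k)) →
    Pr Ω p (fun A => ∀ k ∈ I, E k A) = ∏ k ∈ I, Pr Ω p (E k)) ∧
  ((∀ k ∈ I, ∀ l ∈ I, k ≠ l → ∀ A, ¬ (E k A ∧ E l A)) →
    Pr Ω p (fun A => ∃ k ∈ I, E k A) = ∑ k ∈ I, Pr Ω p (E k))

/-- probability of having no double gap -/
def SUNG : Prop := ∀ (α : Type) [DecidableEq α] (Ω : Finset α) (p : ℝ), 0 ≤ p → p ≤ 1 →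
  ∀ (X : ℕ → Finset α) (J : Finset ℕ), (∀ l ∈ J, X l ⊆ Ω) →
    (∀ l ∈ J, ∀ l' ∈ J, l ≠ l' → Disjoint (X l) (X l')) →
    (∀ l ∈ J, l + 1 ∈ J → (X l).card ≤ (X (l + 1)).card) →
    ∏ l ∈ J, bet (1 - (1 - p) ^ (X l).card) ≤ Pr Ω p (UNG X J)

/-- filling a layer: `c` is the height of the new layer, `c - e` that of the filled one -/
def SUFill : Prop := ∀ (d n : ℕ) (S : Set (Pt d)) (lo hi y : Pt d) (i : Fin d) (c e : ℤ),
  UCl n S → (e = 1 ∨ e = -1) → (∀ j, j ≠ i → 0 ≤ lo j ∧ hi j ≤ n) → 0 ≤ c → c < n → 0 ≤ c - e →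
  c - e < n → (∀ x : Pt d, x i = c - e → (∀ j, j ≠ i → lo j ≤ x j ∧ x j < hi j) → x ∈ S) →
  y ∈ S → y i = c → (∀ j, j ≠ i → lo j ≤ y j ∧ y j < hi j) →
  ∀ x : Pt d, x i = c → (∀ j, j ≠ i → lo j ≤ x j ∧ x j < hi j) → x ∈ S

def SUGrow : Prop := ∀ (d n s k N : ℕ) (v : Pt d) (i₁ i₂ : Fin d) (W : Finset (ℕ × ℕ))
  (A : Finset (Pt d)), i₁ ≠ i₂ → 2 ≤ s → USep s k N W → ucube v (N + 1) ⊆ grid d n →
  UPos v i₁ i₂ N W A → UDrop n v N A

def SUComp : Prop := ∀ (d n N : ℕ) (v : Pt d) (A : Finset (Pt d)), 2 ≤ d → 1 ≤ N →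
  ucube v (N + 1) ⊆ grid d n → UDrop n v N A → ULines n N A → UFull n A

def SUTrans : Prop := ∀ (d n : ℕ) (p : ℝ), 0 ≤ p → p ≤ 1 →
  Pr (grid d n) p (UFull n) ≤ Pr (univ : Finset (Fin d → Fin n)) p (Perc d n)

def SUDisj : Prop := ∀ (d s k N : ℕ) (v : Pt d) (i₁ i₂ : Fin d) (W W' : Finset (ℕ × ℕ))
  (A : Finset (Pt d)), i₁ ≠ i₂ → 1 ≤ s → USep s k N W → UInc W W' →
  ¬ (UEv v i₁ i₂ N W A ∧ UEv v i₁ i₂ N W' A)

def SUEv : Prop := ∀ (d s k N : ℕ) (Ω : Finset (Pt d)) (p : ℝ) (v : Pt d) (i₁ i₂ : Fin d)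
  (W : Finset (ℕ × ℕ)), 0 ≤ p → p ≤ 1 → i₁ ≠ i₂ → 1 ≤ s → 1 ≤ N → USep s k N W →
  ucube v (N + 1) ⊆ Ω → p ^ (2 ^ d) * uwt d p N W ≤ Pr Ω p (UEv v i₁ i₂ N W)

/-- many pairwise incompatible sets of jogs -/
def SUWord : Prop := ∀ s k N : ℕ, 1 ≤ k → k ^ 2 ≤ s → 5 * s + 2 < N →
  ∃ (ι : Type) (I : Finset ι) (W : ι → Finset (ℕ × ℕ)), (∀ w ∈ I, USep s k N (W w)) ∧
    (∀ w ∈ I, ∀ w' ∈ I, w ≠ w' → UInc (W w) (W w') ∨ UInc (W w') (W w)) ∧
    ∀ x : ℝ, 0 ≤ x → x ≤ 1 → (1 + (k : ℝ) ^ 2 * x) ^ k ≤ ∑ w ∈ I, x ^ (W w).card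

def SUSum : Prop := ∀ (d N : ℕ) (q : ℝ), 2 ≤ d → 0 < q →
  ∑ l ∈ Finset.Ico 1 N, gf ((q * l) ^ (d - 1)) ≤ lam d / q

def SUCost : Prop := ∀ d : ℕ, 2 ≤ d → ∃ κ : ℝ, 0 < κ ∧ κ ≤ 1 ∧
  ∀ (q : ℝ) (s k N : ℕ) (W : Finset (ℕ × ℕ)), 0 < q → q ≤ 1 → 1 / q ≤ s → (s : ℝ) ≤ 2 / q →
    k ^ 2 ≤ s → USep s k N W →
    Real.exp (- (d * lam d / q)) * (κ * q) ^ W.card ≤ uwt d (1 - Real.exp (- q ^ (d - 1))) N W

def SUDrop : Prop := ∀ d : ℕ, 2 ≤ d → ∃ κ : ℝ, 0 < κ ∧
  ∀ (q : ℝ) (s k N n : ℕ) (v : Pt d), 0 < q → q ≤ 1 / 2 → 1 / q ≤ s → (s : ℝ) ≤ 2 / q → 1 ≤ k →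
    k ^ 2 ≤ s → 5 * s + 2 < N → ucube v (N + 1) ⊆ grid d n →
    (1 - Real.exp (- q ^ (d - 1))) ^ (2 ^ d) * Real.exp (- (d * lam d / q)) *
      (1 + (k : ℝ) ^ 2 * (κ * q)) ^ k ≤ Pr (grid d n) (1 - Real.exp (- q ^ (d - 1))) (UDrop n v N)

def SUGlob : Prop := ∀ (d n N : ℕ) (p δ : ℝ), 2 ≤ d → 1 ≤ N → 0 ≤ p → p ≤ 1 →
  (∀ v : Pt d, ucube v (N + 1) ⊆ grid d n → δ ≤ Pr (grid d n) p (UDrop n v N)) →
  1 - Real.exp (- (δ * ((n / (N + 1) : ℕ) : ℝ) ^ d)) - d * (n : ℝ) ^ d * (1 - p) ^ N ≤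
    Pr (grid d n) p (UFull n)

/-- choice of the parameters -/
def SUPar : Prop := ∀ (d : ℕ) (κ la : ℝ), 2 ≤ d → 0 < κ → 0 < la → ∃ c q₀ : ℝ, 0 < c ∧ 0 < q₀ ∧
  ∀ (q : ℝ) (n : ℕ), 0 < q → q ≤ q₀ → la / q - c / Real.sqrt q ≤ Real.log n →
    Real.log n ≤ la / q → ∃ s k N : ℕ, q ≤ 1 / 2 ∧ 1 / q ≤ s ∧ (s : ℝ) ≤ 2 / q ∧ 1 ≤ k ∧
      k ^ 2 ≤ s ∧ 5 * s + 2 < N ∧
      d * (n : ℝ) ^ d * (1 - (1 - Real.exp (- q ^ (d - 1)))) ^ N ≤ 1 / 4 ∧
      2 ≤ (1 - Real.exp (- q ^ (d - 1))) ^ (2 ^ d) * Real.exp (- (d * la / q)) *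
        (1 + (k : ℝ) ^ 2 * (κ * q)) ^ k * ((n / (N + 1) : ℕ) : ℝ) ^ d

def SUPerc : Prop := ∀ d : ℕ, 2 ≤ d → ∃ c q₀ : ℝ, 0 < c ∧ 0 < q₀ ∧ ∀ (q : ℝ) (n : ℕ), 0 < q →
  q ≤ q₀ → lam d / q - c / Real.sqrt q ≤ Real.log n → Real.log n ≤ lam d / q →
    1 / 2 ≤ Pr (univ : Finset (Fin d → Fin n)) (1 - Real.exp (- q ^ (d - 1))) (Perc d n)

/-- the upper bound for the critical probability -/
def SUFinal : Prop := ∀ d : ℕ, 2 ≤ d → ∃ c : ℝ, 0 < c ∧ ∃ n₀ : ℕ, ∀ n : ℕ, n₀ ≤ n →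
  c / Real.log n ^ (3 / 2 : ℝ) ≤ lam d / Real.log n -
    (sInf {p : ℝ | 0 ≤ p ∧ p ≤ 1 ∧
      (1 / 2 : ℝ) ≤ Pr (univ : Finset (Fin d → Fin n)) p (Perc d n)}) ^ (1 / ((d : ℝ) - 1))

end Pool.Agent.MP_6d294b_pr

end

section

open Finset

namespace Pool.Agent.MP_6d294b_pr

lemma congr_UHar {α : Type} (Ω : Finset α) (p : ℝ) (E F : Finset α → Prop)
    (h : ∀ A, A ⊆ Ω → (E A ↔ F A)) : Pr Ω p E = Pr Ω p F := by
  classical
  unfold Pr
  refine Finset.sum_congr rfl fun A hA => ?_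
  have := h A (Finset.mem_powerset.1 hA)
  by_cases hE : E A
  · rw [if_pos hE, if_pos (this.1 hE)]
  · rw [if_neg hE, if_neg (fun hF => hE (this.2 hF))]

lemma harris_UHar {α : Type} [DecidableEq α] (Ω : Finset α) {p : ℝ} (h0 : 0 ≤ p) (h1 : p ≤ 1)
    (E F : Finset α → Prop) (hE : Incr E) (hF : Incr F) :
    Pr Ω p E * Pr Ω p F ≤ Pr Ω p (fun A => E A ∧ F A) := by
  classical
  induction Ω using Finset.induction_on generalizing E F with
  | empty =>
    rw [empty_PrB, empty_PrB, empty_PrB]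
    by_cases a1 : E ∅ <;> by_cases a2 : F ∅ <;> simp [a1, a2]
  | insert a O ha ih =>
    rw [insert_PrA O a ha, insert_PrA O a ha, insert_PrA O a ha]
    have hE1 : Incr (fun A => E (insert a A)) := fun A B hAB hA =>
      hE _ _ (Finset.insert_subset_insert a hAB) hA
    have hF1 : Incr (fun A => F (insert a A)) := fun A B hAB hA =>
      hF _ _ (Finset.insert_subset_insert a hAB) hA
    have a1 := ih E F hE hF
    have a2 := ih _ _ hE1 hF1
    have a3 : Pr O p E ≤ Pr O p (fun A => E (insert a A)) :=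
      mono_PrA O h0 h1 _ _ fun A _ hA => hE _ _ (Finset.subset_insert a A) hA
    have a4 : Pr O p F ≤ Pr O p (fun A => F (insert a A)) :=
      mono_PrA O h0 h1 _ _ fun A _ hA => hF _ _ (Finset.subset_insert a A) hA
    have hq : 0 ≤ 1 - p := by linarith
    have b1 := mul_le_mul_of_nonneg_left a1 hq
    have b2 := mul_le_mul_of_nonneg_left a2 h0
    have b3 := mul_nonneg (mul_nonneg h0 hq) (mul_nonneg (sub_nonneg.2 a3) (sub_nonneg.2 a4))
    nlinarith

lemma fam_UHar {α : Type} [DecidableEq α] (Ω : Finset α) {p : ℝ} (h0 : 0 ≤ p) (h1 : p ≤ 1)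
    {ι : Type} (I : Finset ι) (E : ι → Finset α → Prop) (hE : ∀ k ∈ I, Incr (E k)) :
    ∏ k ∈ I, Pr Ω p (E k) ≤ Pr Ω p (fun A => ∀ k ∈ I, E k A) := by
  classical
  induction I using Finset.induction_on with
  | empty =>
    rw [Finset.prod_empty, ← true_PrA Ω p]
    exact mono_PrA Ω h0 h1 _ _ (by simp)
  | insert k I hk ih =>
    rw [Finset.prod_insert hk]
    have a1 := ih fun l hl => hE l (Finset.mem_insert_of_mem hl)
    have a2 := harris_UHar Ω h0 h1 (E k) (fun A => ∀ l ∈ I, E l A)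
      (hE k (Finset.mem_insert_self _ _))
      (fun A B hAB hA l hl => hE l (Finset.mem_insert_of_mem hl) A B hAB (hA l hl))
    refine le_trans (mul_le_mul_of_nonneg_left a1 (nonneg_PrA Ω h0 h1 _)) (a2.trans ?_)
    refine mono_PrA Ω h0 h1 _ _ fun A _ hA l hl => ?_
    rcases Finset.mem_insert.1 hl with rfl | hl
    · exact hA.1
    · exact hA.2 l hl

lemma indfam_UHar {α : Type} [DecidableEq α] (Ω : Finset α) (p : ℝ)
    {ι : Type} (I : Finset ι) (E : ι → Finset α → Prop) (X : ι → Finset α)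
    (hX : ∀ k ∈ I, ∀ l ∈ I, k ≠ l → Disjoint (X k) (X l))
    (hE : ∀ k ∈ I, ∀ A, E k A ↔ E k (A ∩ X k)) :
    Pr Ω p (fun A => ∀ k ∈ I, E k A) = ∏ k ∈ I, Pr Ω p (E k) := by
  classical
  induction I using Finset.induction_on with
  | empty =>
    rw [Finset.prod_empty, ← true_PrA Ω p]
    exact congr_PrB Ω p _ _ (by simp)
  | insert k I hk ih =>
    rw [Finset.prod_insert hk, ← ih (fun a ha b hb => hX a (Finset.mem_insert_of_mem ha) b
      (Finset.mem_insert_of_mem hb)) (fun l hl => hE l (Finset.mem_insert_of_mem hl)),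
      ← indep_PrB Ω p (X k) (E k) (fun A => ∀ l ∈ I, E l A) (hE k (Finset.mem_insert_self _ _))]
    · exact congr_PrB Ω p _ _ fun A => Finset.forall_mem_insert _ _ _
    · intro A
      refine forall₂_congr fun l hl => ?_
      have hl' := Finset.mem_insert_of_mem (b := k) hl
      have hd := hX k (Finset.mem_insert_self _ _) l hl' (by rintro rfl; exact hk hl)
      have e : A \ X k ∩ X l = A ∩ X l := by
        ext x
        simp only [Finset.mem_inter, Finset.mem_sdiff]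
        exact ⟨fun h => ⟨h.1.1, h.2⟩,
          fun h => ⟨⟨h.1, fun hx => Finset.disjoint_left.1 hd hx h.2⟩, h.2⟩⟩
      rw [hE l hl' A, hE l hl' (A \ X k), e]

lemma one_UHar {α : Type} [DecidableEq α] (Ω : Finset α) (p : ℝ) {x : α} (hx : x ∈ Ω) :
    Pr Ω p (fun A => x ∈ A) = p := by
  rw [← Finset.insert_erase hx, insert_PrA _ x (Finset.notMem_erase x Ω),
    congr_UHar (Ω.erase x) p (fun A => x ∈ A) (fun _ => False)
      (fun A hA => ⟨fun h => Finset.notMem_erase x Ω (hA h), False.elim⟩),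
    congr_PrB (Ω.erase x) p (fun A => x ∈ insert x A) (fun _ => True) (by simp),
    false_PrA, true_PrA]
  ring

theorem sUHar : SUHar := by
  intro α _ Ω p h0 h1
  refine ⟨harris_UHar Ω h0 h1, fun ι I E => fam_UHar Ω h0 h1 I E, fun X hX => ?_, fun X hX => ?_⟩
  · have a1 := indfam_UHar Ω p X (fun x A => ¬ x ∈ A) (fun x => {x})
      (fun k _ l _ h => Finset.disjoint_singleton.2 h) (fun k _ A => by simp)
    rw [Finset.prod_congr rfl (g := fun _ => 1 - p)
      (fun x hx => by rw [compl_PrB Ω p (fun A => x ∈ A), one_UHar Ω p (hX hx)]),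
      Finset.prod_const] at a1
    rw [← a1, ← compl_PrB]
    refine congr_PrB Ω p _ _ fun A => ⟨?_, fun h => ?_⟩
    · rintro ⟨x, hxA, hxX⟩ h
      exact h x hxX hxA
    · by_contra hc
      exact h fun x hxX hxA => hc ⟨x, hxA, hxX⟩
  · have a1 := indfam_UHar Ω p X (fun x A => x ∈ A) (fun x => {x})
      (fun k _ l _ h => Finset.disjoint_singleton.2 h) (fun k _ A => by simp)
    rw [Finset.prod_congr rfl (g := fun _ => p) (fun x hx => one_UHar Ω p (hX hx)),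
      Finset.prod_const] at a1
    rw [← a1]
    exact congr_PrB Ω p _ _ fun A => Iff.rfl

theorem sUInd : SUInd := by
  classical
  intro α _ Ω p _ _ ι I E
  refine ⟨fun X => indfam_UHar Ω p I E X, fun h => ?_⟩
  unfold Pr
  rw [Finset.sum_comm]
  refine Finset.sum_congr rfl fun A _ => ?_
  by_cases hA : ∃ k ∈ I, E k A
  · rw [if_pos hA]
    obtain ⟨k, hk, hE⟩ := hA
    rw [Finset.sum_eq_single_of_mem k hk, if_pos hE]
    intro l hl hne
    exact if_neg fun hl' => h l hl k hk hne A ⟨hl', hE⟩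
  · rw [if_neg hA]
    exact (Finset.sum_eq_zero fun k hk => if_neg fun hE => hA ⟨k, hk, hE⟩).symm

end Pool.Agent.MP_6d294b_pr

end

section

open Finset

namespace Pool.Agent.MP_6d294b_pr

variable {d : ℕ}

/-- the box with corner `v` and sides `t` lies in `S` -/
def Bt_UGrow (S : Set (Pt d)) (v : Pt d) (t : Fin d → ℕ) : Prop :=
  ∀ x : Pt d, (∀ j, v j ≤ x j ∧ x j < v j + t j) → x ∈ S

lemma mono_UGrow {S : Set (Pt d)} {v : Pt d} {t t' : Fin d → ℕ} (h : Bt_UGrow S v t)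
    (ht : ∀ j, t' j ≤ t j) : Bt_UGrow S v t' := fun x hx =>
  h x fun j => ⟨(hx j).1, (hx j).2.trans_le (by have := ht j; omega)⟩

lemma bd_UGrow {n N : ℕ} {v : Pt d} (h : ucube v (N + 1) ⊆ grid d n) (j : Fin d) :
    0 ≤ v j ∧ v j + N < n := by
  have h1 := mem_grid.1 (h (mem_ubox.2 fun j => ⟨le_rfl, by push_cast; omega⟩ : v ∈ _)) j
  have h2 := mem_grid.1 (h (mem_ubox.2 fun j => ⟨by omega, by push_cast; omega⟩ :
    (fun j => v j + N) ∈ ucube v (N + 1))) j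
  exact ⟨h1.1, h2.2⟩

lemma ext_UGrow (hF : SUFill) {n N : ℕ} {S : Set (Pt d)} {v y : Pt d} {t : Fin d → ℕ} {i : Fin d}
    (hS : UCl n S) (hv : ∀ j, 0 ≤ v j ∧ v j + N < n) (hB : Bt_UGrow S v t) (ht : ∀ j, t j ≤ N + 1)
    (h1 : 1 ≤ t i) (hy : y ∈ S) (hi : y i = v i + t i ∨ y i = v i + t i + 1) (hN : y i ≤ v i + N)
    (hc : ∀ j, j ≠ i → v j ≤ y j ∧ y j < v j + t j) :
    Bt_UGrow S v (Function.update t i (t i + 1)) := by
  have g : ∀ c : ℤ, v i ≤ c → c ≤ v i + N → Function.update y i c ∈ grid d n := fun c c1 c2 =>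
    mem_grid.2 fun j => by
      have := hv j
      rcases eq_or_ne j i with rfl | hj
      · rw [Function.update_self]
        omega
      · have := hc j hj
        have := ht j
        rw [Function.update_of_ne hj]
        omega
  have hz : Function.update y i (v i + t i) ∈ S := by
    rcases hi with hi | hi
    · rw [← hi, Function.update_eq_self]
      exact hy
    · refine hS _ (g _ (by omega) (by omega)) i i 1 (-1) (Or.inl rfl) (Or.inr rfl)
        (Or.inr (by norm_num)) ?_ ?_ ?_ ?_ <;> rw [Function.update_idem, Function.update_self]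
      · exact g _ (by omega) (by omega)
      · exact g _ (by omega) (by omega)
      · rw [← hi, Function.update_eq_self]
        exact hy
      · refine hB _ fun j => ?_
        rcases eq_or_ne j i with rfl | hj
        · rw [Function.update_self]
          omega
        · rw [Function.update_of_ne hj]
          exact hc j hj
  have hvi := hv i
  have hf := hF d n S v (fun j => v j + t j) _ i (v i + t i) 1 hS (Or.inl rfl)
    (fun j _ => by have := hv j; have := ht j; omega) (by omega) (by omega) (by omega) (by omega)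
    (fun x hx hx' => hB x fun j => by
      rcases eq_or_ne j i with rfl | hj
      · omega
      · exact hx' j hj) hz (Function.update_self ..)
    (fun j hj => by rw [Function.update_of_ne hj]; exact hc j hj)
  intro x hx
  have hx' : ∀ j, j ≠ i → v j ≤ x j ∧ x j < v j + t j := fun j hj => by
    have := hx j
    rwa [Function.update_of_ne hj] at this
  have hxi := hx i
  rw [Function.update_self] at hxi
  rcases eq_or_ne (x i) (v i + t i) with h | h
  · exact hf x h hx'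
  · refine hB x fun j => ?_
    rcases eq_or_ne j i with rfl | hj
    · push_cast at hxi
      omega
    · exact hx' j hj

lemma cube_UGrow (hF : SUFill) {n N m : ℕ} {S : Set (Pt d)} {v : Pt d} (hS : UCl n S)
    (hv : ∀ j, 0 ≤ v j ∧ v j + N < n) (hB : Bt_UGrow S v fun _ => m) (h1 : 1 ≤ m) (hm : m < N)
    (hy : ∀ i, ∃ y ∈ S, (y i = v i + m ∨ y i = v i + m + 1) ∧
      ∀ j, j ≠ i → v j ≤ y j ∧ y j < v j + m) : Bt_UGrow S v fun _ => m + 1 := by
  classical
  have key : ∀ T : Finset (Fin d), Bt_UGrow S v fun j => if j ∈ T then m + 1 else m := by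
    intro T
    induction T using Finset.induction_on with
    | empty => exact mono_UGrow hB fun j => by simp
    | insert i T hi ih =>
      obtain ⟨y, y1, y2, y3⟩ := hy i
      refine mono_UGrow (ext_UGrow hF (i := i) hS hv ih (fun j => by split_ifs <;> omega)
        (by simp only [if_neg hi]; omega) y1 (by simp only [if_neg hi]; exact y2) (by omega)
        fun j hj => ⟨(y3 j hj).1, (y3 j hj).2.trans_le (by split_ifs <;> omega)⟩) fun j => ?_
      rcases eq_or_ne j i with rfl | hj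
      · simp [hi]
      · simp [hj]
  exact mono_UGrow (key univ) fun j => by simp

lemma lay_UGrow {v y : Pt d} {i : Fin d} {l h : ℕ} (hy : y ∈ ulay v i l h) :
    y i = v i + l + 1 ∧ ∀ j, j ≠ i → v j ≤ y j ∧ y j < v j + h := by
  have := mem_ubox.1 hy
  refine ⟨?_, fun j hj => by simpa [hj] using this j⟩
  have := this i
  simp only [if_true] at this
  omega

theorem sUGrow (hF : SUFill) : SUGrow := by
  intro d n s k N v i₁ i₂ W A h12 hs hW hg hP S hS hA
  have hv := bd_UGrow hg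
  obtain ⟨p1, p2, p3⟩ := hP
  have lay : ∀ i l, l < N → Hit (ulay v i l (upsi W l)) A →
      ∃ y ∈ S, y i = v i + l + 1 ∧ ∀ j, j ≠ i → v j ≤ y j ∧ y j < v j + upsi W l := by
    rintro i l hl ⟨y, y1, y2⟩
    obtain ⟨y3, y4⟩ := lay_UGrow y2
    refine ⟨y, hA y y1 (mem_ubox.2 fun j => ?_), y3, y4⟩
    have := upsi_le W l
    rcases eq_or_ne j i with rfl | hj
    · push_cast
      omega
    · have := y4 j hj
      push_cast
      omega
  have pair : ∀ i m h, m + 1 < N → m ∈ uJ W N i₁ i → m + 1 ∈ uJ W N i₁ i → upsi W (m + 1) ≤ h →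
      ∃ y ∈ S, (y i = v i + (m + 1 : ℕ) ∨ y i = v i + (m + 1 : ℕ) + 1) ∧
        ∀ j, j ≠ i → v j ≤ y j ∧ y j < v j + h := by
    intro i m h hm m1 m2 hh
    have := upsi_mono W m
    rcases p2 i m m1 m2 with h1 | h1
    · obtain ⟨y, y1, y2, y3⟩ := lay i m (by omega) h1
      exact ⟨y, y1, Or.inl (by push_cast; omega), fun j hj => by have := y3 j hj; omega⟩
    · obtain ⟨y, y1, y2, y3⟩ := lay i (m + 1) hm h1
      exact ⟨y, y1, Or.inr y2, fun j hj => by have := y3 j hj; omega⟩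
  have jog : ∀ u ∈ W, (Bt_UGrow S v fun _ => u.1) → Function.update v i₁ (v i₁ + u.1 + 1) ∈ S := by
    intro u hu hB
    obtain ⟨a1, a2, -, a4, -⟩ := hW.1 u hu
    have run : ∀ r, u.1 + r ≤ u.2 + 1 → Bt_UGrow S v (Function.update (fun _ => u.1) i₂ (u.1 + r)) := by
      intro r
      induction r with
      | zero => exact fun _ => mono_UGrow hB fun j => by simp
      | succ r ih =>
        intro hr
        obtain ⟨m, hm⟩ : ∃ m, u.1 + r = m + 1 := ⟨u.1 + r - 1, by omega⟩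
        have mem : ∀ l, 1 ≤ l → l < N → l ∈ uJ W N i₁ i₂ := fun l l1 l2 =>
          Finset.mem_filter.2 ⟨Finset.mem_Ico.2 ⟨l1, l2⟩, fun h => absurd h h12.symm⟩
        obtain ⟨y, y1, y2, y3⟩ := pair i₂ m u.1 (by omega) (mem _ (by omega) (by omega))
          (mem _ (by omega) (by omega)) (upsi_le_jog hu (by omega))
        have := ext_UGrow hF (i := i₂) hS hv (ih (by omega)) (fun j => by
            rcases eq_or_ne j i₂ with rfl | hj
            · rw [Function.update_self]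
              omega
            · rw [Function.update_of_ne hj]
              omega) (by rw [Function.update_self]; omega) y1
          (by rw [Function.update_self, hm]; exact y2) (by omega)
          fun j hj => by rw [Function.update_of_ne hj]; exact y3 j hj
        rwa [Function.update_idem, Function.update_self] at this
    have b0 := run (u.2 + 1 - u.1) (by omega)
    rw [show u.1 + (u.2 + 1 - u.1) = u.2 + 1 by omega] at b0
    obtain ⟨y, y1, y2⟩ := (p3 u hu).1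
    have y3 := mem_ubox.1 y2
    have y4 : y i₁ = v i₁ + u.1 + 1 := by
      have := y3 i₁
      simp only [if_true] at this
      omega
    have y5 : ∀ j, j ≠ i₁ → v j ≤ y j ∧
        y j < v j + (Function.update (fun _ => u.1) i₂ (u.2 + 1) j : ℕ) := fun j hj => by
      have := y3 j
      rcases eq_or_ne j i₂ with rfl | hj2
      · simp only [if_neg hj, if_true] at this
        rw [Function.update_self]
        push_cast
        omega
      · simp only [if_neg hj, if_neg hj2] at this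
        rw [Function.update_of_ne hj2]
        exact this
    have t1 : ∀ j, Function.update (fun _ => u.1) i₂ (u.2 + 1) j ≤ N := fun j => by
      rcases eq_or_ne j i₂ with rfl | hj
      · rw [Function.update_self]
        omega
      · rw [Function.update_of_ne hj]
        omega
    have yS : y ∈ S := hA y y1 (mem_ubox.2 fun j => by
      rcases eq_or_ne j i₁ with rfl | hj
      · push_cast
        omega
      · have := y5 j hj
        have := t1 j
        push_cast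
        omega)
    have b1 := ext_UGrow hF (i := i₁) hS hv b0 (fun j => (t1 j).trans (Nat.le_succ N))
      (by rw [Function.update_of_ne h12]; omega) yS
      (by rw [Function.update_of_ne h12]; exact Or.inr y4) (by omega) y5
    rw [Function.update_of_ne h12] at b1
    have b2 := ext_UGrow hF (i := i₁) hS hv b1 (fun j => by
        rcases eq_or_ne j i₁ with rfl | hj
        · rw [Function.update_self]
          omega
        · rw [Function.update_of_ne hj]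
          exact (t1 j).trans (Nat.le_succ N)) (by rw [Function.update_self]; omega) yS
      (by rw [Function.update_self]; push_cast; omega) (by omega)
      fun j hj => by rw [Function.update_of_ne hj]; exact y5 j hj
    rw [Function.update_idem, Function.update_self] at b2
    refine b2 _ fun j => ?_
    rcases eq_or_ne j i₁ with rfl | hj
    · rw [Function.update_self, Function.update_self]
      push_cast
      omega
    · rw [Function.update_of_ne hj, Function.update_of_ne hj]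
      rcases eq_or_ne j i₂ with rfl | hj2
      · rw [Function.update_self]
        push_cast
        omega
      · rw [Function.update_of_ne hj2]
        omega
  have main : ∀ m, m ≤ N → Bt_UGrow S v fun _ => m := by
    intro m
    induction m with
    | zero =>
      intro _ x hx
      have := hx i₁
      simp only at this
      omega
    | succ m ih =>
      intro hm
      rcases le_or_gt (m + 1) 2 with h2 | h2
      · exact fun x hx => hA x (p1 (mem_ubox.2 fun j => by have := hx j; push_cast at *; omega))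
          (mem_ubox.2 fun j => by have := hx j; push_cast at *; omega)
      have hB := ih (by omega)
      obtain ⟨m, rfl⟩ : ∃ r, m = r + 1 := ⟨m - 1, by omega⟩
      refine cube_UGrow hF hS hv hB (by omega) (by omega) fun i => ?_
      by_cases hJ : m ∈ uJ W N i₁ i ∧ m + 1 ∈ uJ W N i₁ i
      · exact pair i m (m + 1) (by omega) hJ.1 hJ.2 (upsi_le W _)
      have hx : i = i₁ ∧ ∃ u ∈ W, m + 1 = u.1 ∨ m = u.1 ∨ m = u.1 + 1 := by
        by_contra hc
        refine hJ ⟨Finset.mem_filter.2 ⟨Finset.mem_Ico.2 ⟨by omega, by omega⟩, fun h u hu => ?_⟩,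
          Finset.mem_filter.2 ⟨Finset.mem_Ico.2 ⟨by omega, by omega⟩, fun h u hu => ?_⟩⟩ <;>
        · by_contra hc'
          exact hc ⟨h, u, hu, by omega⟩
      obtain ⟨rfl, u, hu, hx⟩ := hx
      rcases or_assoc.2 hx with hx | hx
      · refine ⟨_, jog u hu (mono_UGrow hB fun _ => by omega), ?_, fun j hj => ?_⟩
        · rw [Function.update_self]
          push_cast
          omega
        · rw [Function.update_of_ne hj]
          push_cast
          omega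
      · obtain ⟨y, y1, y2, y3⟩ := lay i (u.1 + 2) (by omega) (p3 u hu).2
        have := upsi_le W (u.1 + 2)
        exact ⟨y, y1, Or.inr (by push_cast at *; omega), fun j hj => by
          have := y3 j hj
          push_cast
          omega⟩
  exact fun x hx => main N le_rfl x (mem_ubox.1 hx)

theorem sUDisj : SUDisj := by
  rintro d s k N v i₁ i₂ W W' A h12 hs hW ⟨u, hu, hI⟩ ⟨⟨-, e1⟩, ⟨-, p2, p3⟩, -⟩
  obtain ⟨a1, a2, -, a4, -⟩ := hW.1 u hu
  refine e1 u hu ?_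
  have lay : ∀ l, (l = u.1 ∨ l = u.1 + 1) → Hit (ulay v i₁ l (upsi W' l)) A →
      Hit (uhole v i₁ i₂ u.1 u.2) A := by
    rintro l hl ⟨y, y1, y2⟩
    obtain ⟨y3, y4⟩ := lay_UGrow y2
    have := upsi_le W' l
    refine ⟨y, y1, mem_ubox.2 fun j => ?_⟩
    rcases eq_or_ne j i₁ with rfl | hj
    · simp only [if_true]
      omega
    · have := y4 j hj
      simp only [if_neg hj]
      split_ifs <;> omega
  rcases hI with hI | ⟨u', hu', e2, e3⟩
  · have mem : ∀ l, (l = u.1 ∨ l = u.1 + 1) → l ∈ uJ W' N i₁ i₁ := fun l hl =>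
      Finset.mem_filter.2 ⟨Finset.mem_Ico.2 ⟨by omega, by omega⟩, fun _ u' hu' => by
        have := hI u' hu'
        omega⟩
    exact (p2 i₁ u.1 (mem _ (Or.inl rfl)) (mem _ (Or.inr rfl))).elim (lay _ (Or.inl rfl))
      (lay _ (Or.inr rfl))
  · obtain ⟨y, y1, y2⟩ := (p3 u' hu').1
    refine ⟨y, y1, mem_ubox.2 fun j => ?_⟩
    have := mem_ubox.1 y2 j
    split_ifs at this ⊢ <;> omega

end Pool.Agent.MP_6d294b_pr

end

section

open Finset

namespace Pool.Agent.MP_6d294b_pr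

variable {d : ℕ}

lemma card1_UEv (i : Fin d) (a h : ℕ) : ∏ j : Fin d, (if j = i then a else h) = a * h ^ (d - 1) := by
  rw [← Finset.mul_prod_erase _ _ (mem_univ i), if_pos rfl,
    Finset.prod_congr rfl fun j hj => if_neg (Finset.ne_of_mem_erase hj), Finset.prod_const,
    Finset.card_erase_of_mem (mem_univ i), Finset.card_univ, Fintype.card_fin]

lemma card2_UEv {i₁ i₂ : Fin d} (h12 : i₁ ≠ i₂) (a b h : ℕ) :
    ∏ j : Fin d, (if j = i₁ then a else if j = i₂ then b else h) = a * b * h ^ (d - 2) := by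
  have m2 : i₂ ∈ univ.erase i₁ := Finset.mem_erase.2 ⟨h12.symm, mem_univ _⟩
  rw [← Finset.mul_prod_erase _ _ (mem_univ i₁), if_pos rfl, ← Finset.mul_prod_erase _ _ m2,
    if_neg h12.symm, if_pos rfl, Finset.prod_congr rfl fun j hj => (if_neg
      (Finset.ne_of_mem_erase (Finset.mem_of_mem_erase hj))).trans
      (if_neg (Finset.ne_of_mem_erase hj)), Finset.prod_const, Finset.card_erase_of_mem m2,
    Finset.card_erase_of_mem (mem_univ i₁), Finset.card_univ, Fintype.card_fin, mul_assoc]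
  rfl

lemma clay_UEv (v : Pt d) (i : Fin d) (l h : ℕ) : (ulay v i l h).card = h ^ (d - 1) := by
  rw [ulay, card_ubox, ← one_mul (h ^ (d - 1)), ← card1_UEv i]
  exact Finset.prod_congr rfl fun j _ => by split_ifs <;> omega

lemma cstrip_UEv (v : Pt d) {i₁ i₂ : Fin d} (h12 : i₁ ≠ i₂) (a b : ℕ) :
    (ustrip v i₁ i₂ a b).card = a ^ (d - 2) := by
  rw [ustrip, card_ubox, show a ^ (d - 2) = 1 * 1 * a ^ (d - 2) by ring, ← card2_UEv h12]
  exact Finset.prod_congr rfl fun j _ => by split_ifs <;> omega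

lemma chole_UEv (v : Pt d) {i₁ i₂ : Fin d} (h12 : i₁ ≠ i₂) (a b : ℕ) :
    (uhole v i₁ i₂ a b).card = 2 * b * (a + 1) ^ (d - 2) := by
  rw [uhole, card_ubox, ← card2_UEv h12]
  exact Finset.prod_congr rfl fun j _ => by split_ifs <;> omega

lemma ccube_UEv (v : Pt d) (m : ℕ) : (ucube v m).card = m ^ d := by
  rw [ucube, card_ubox, Finset.prod_congr rfl fun j _ => (by omega : (v j + m - v j).toNat = m)]
  simp

lemma hit_UEv {α : Type} (X : Finset α) : Incr (Hit X) :=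
  fun _ _ h ⟨x, x1, x2⟩ => ⟨x, h x1, x2⟩

lemma ng_UEv {α : Type} (X : ℕ → Finset α) (J : Finset ℕ) : Incr (UNG X J) :=
  fun A B h hA l h1 h2 => (hA l h1 h2).imp (hit_UEv _ A B h) (hit_UEv _ A B h)

lemma laysub_UEv (v : Pt d) (i : Fin d) {l h N : ℕ} (hl : l < N) (hh : h ≤ l) :
    ulay v i l h ⊆ ucube v (N + 1) := fun y hy => by
  obtain ⟨y3, y4⟩ := lay_UGrow hy
  refine mem_ubox.2 fun j => ?_
  rcases eq_or_ne j i with rfl | hj
  · push_cast
    omega
  · have := y4 j hj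
    push_cast
    omega

lemma pos_UEv (h1 : SUHar) (h2 : SUNG) {s k N : ℕ} {Ω : Finset (Pt d)} {p : ℝ} {v : Pt d}
    {i₁ i₂ : Fin d} {W : Finset (ℕ × ℕ)} (p0 : 0 ≤ p) (p1 : p ≤ 1) (h12 : i₁ ≠ i₂) (hN : 1 ≤ N)
    (hW : USep s k N W) (hg : ucube v (N + 1) ⊆ Ω) :
    p ^ (2 ^ d) * ((∏ l ∈ Finset.Ico 1 N, bet (1 - (1 - p) ^ (upsi W l ^ (d - 1)))) ^ d *
      ∏ u ∈ W, (1 - (1 - p) ^ (u.1 ^ (d - 2))) * (1 - (1 - p) ^ (upsi W (u.1 + 2) ^ (d - 1)))) ≤
      Pr Ω p (UPos v i₁ i₂ N W) := by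
  obtain ⟨H1, H2, H3, H4⟩ := h1 _ Ω p p0 p1
  have u0 : ∀ m : ℕ, 0 ≤ 1 - (1 - p) ^ m ∧ 1 - (1 - p) ^ m ≤ 1 := fun m =>
    ⟨sub_nonneg.2 (pow_le_one₀ (by linarith) (by linarith)),
      by linarith [pow_nonneg (sub_nonneg.2 p1) m]⟩
  have b0 : ∀ m : ℕ, 0 ≤ bet (1 - (1 - p) ^ m) ∧ bet (1 - (1 - p) ^ m) ≤ 1 := fun m =>
    ⟨(u0 m).1.trans (one_Bet _ (u0 m).1 (u0 m).2).1, (one_Bet _ (u0 m).1 (u0 m).2).2.1⟩
  have e1 : Pr Ω p (fun A => ucube v 2 ⊆ A) = p ^ (2 ^ d) := by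
    rw [H4 _ (Finset.Subset.trans (fun x hx => mem_ubox.2 fun j => by
      have := mem_ubox.1 hx j
      push_cast at *
      omega) hg), ccube_UEv]
  have e2 : (∏ l ∈ Finset.Ico 1 N, bet (1 - (1 - p) ^ (upsi W l ^ (d - 1)))) ^ d ≤
      Pr Ω p (fun A => ∀ i ∈ univ, UNG (fun l => ulay v i l (upsi W l)) (uJ W N i₁ i) A) := by
    refine le_trans ?_ (H2 _ univ _ fun i _ => ng_UEv _ _)
    have := Finset.prod_le_prod (s := (univ : Finset (Fin d)))
      (f := fun _ => ∏ l ∈ Finset.Ico 1 N, bet (1 - (1 - p) ^ (upsi W l ^ (d - 1))))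
      (g := fun i => Pr Ω p (UNG (fun l => ulay v i l (upsi W l)) (uJ W N i₁ i)))
      (fun _ _ => Finset.prod_nonneg fun l _ => (b0 _).1) fun i _ => ?_
    · simpa using this
    have sub : uJ W N i₁ i ⊆ Finset.Ico 1 N := Finset.filter_subset _ _
    refine le_trans ?_ (h2 _ Ω p p0 p1 _ _ (fun l hl => (laysub_UEv v i
      (Finset.mem_Ico.1 (sub hl)).2 (upsi_le W l)).trans hg) (fun l _ l' _ h => ?_) fun l _ _ => ?_)
    · simp only [clay_UEv]
      exact Finset.prod_le_prod_of_subset_of_le_one sub (fun l _ => (b0 _).1) fun l _ _ => (b0 _).2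
    · refine Finset.disjoint_left.2 fun y y1 y2 => ?_
      have := (lay_UGrow y1).1
      have := (lay_UGrow y2).1
      omega
    · rw [clay_UEv, clay_UEv]
      exact Nat.pow_le_pow_left (upsi_mono W l) _
  have i3 : ∀ u : ℕ × ℕ, Incr fun A => Hit (ustrip v i₁ i₂ u.1 u.2) A ∧
      Hit (ulay v i₁ (u.1 + 2) (upsi W (u.1 + 2))) A :=
    fun u A B h hA => ⟨hit_UEv _ A B h hA.1, hit_UEv _ A B h hA.2⟩
  have e3 : ∏ u ∈ W, (1 - (1 - p) ^ (u.1 ^ (d - 2))) * (1 - (1 - p) ^ (upsi W (u.1 + 2) ^ (d - 1)))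
      ≤ Pr Ω p (fun A => ∀ u ∈ W, Hit (ustrip v i₁ i₂ u.1 u.2) A ∧
        Hit (ulay v i₁ (u.1 + 2) (upsi W (u.1 + 2))) A) := by
    refine le_trans ?_ (H2 _ W _ fun u _ => i3 u)
    refine Finset.prod_le_prod (fun u _ => mul_nonneg (u0 _).1 (u0 _).1) fun u hu => ?_
    obtain ⟨-, a2, -, a4, -⟩ := hW.1 u hu
    refine le_trans (le_of_eq ?_) (H1 _ _ (hit_UEv _) (hit_UEv _))
    rw [H3 _ ((laysub_UEv v i₁ (by omega) (upsi_le W _)).trans hg), clay_UEv, H3 _
      (Finset.Subset.trans (fun x hx => mem_ubox.2 fun j => by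
        have := mem_ubox.1 hx j
        push_cast
        split_ifs at this <;> omega) hg), cstrip_UEv v h12]
  have i2 : Incr fun A => ∀ i ∈ univ, UNG (fun l => ulay v i l (upsi W l)) (uJ W N i₁ i) A :=
    fun A B h hA i hi => ng_UEv _ _ A B h (hA i hi)
  have i4 : Incr fun A => ∀ u ∈ W, Hit (ustrip v i₁ i₂ u.1 u.2) A ∧
      Hit (ulay v i₁ (u.1 + 2) (upsi W (u.1 + 2))) A := fun A B h hA u hu => i3 u A B h (hA u hu)
  have f1 := H1 _ _ i2 i4
  have f2 := H1 (fun A => ucube v 2 ⊆ A) _ (fun A B h hA => hA.trans h)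
    (fun A B h (hA : _ ∧ _) => And.intro (i2 A B h hA.1) (i4 A B h hA.2))
  rw [e1] at f2
  refine le_trans (mul_le_mul_of_nonneg_left (le_trans (mul_le_mul e2 e3
    (Finset.prod_nonneg fun u _ => mul_nonneg (u0 _).1 (u0 _).1) (nonneg_PrA Ω p0 p1 _)) f1)
    (pow_nonneg p0 _)) (f2.trans (mono_PrA Ω p0 p1 _ _ fun A _ h => ?_))
  exact ⟨h.1, fun i => h.2.1 i (mem_univ i), h.2.2⟩

lemma away_UEv {s k N : ℕ} {v : Pt d} {i₁ i₂ : Fin d} {W : Finset (ℕ × ℕ)} (h12 : i₁ ≠ i₂)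
    (hs : 1 ≤ s) (hW : USep s k N W) (A : Finset (Pt d)) (h : UPos v i₁ i₂ N W A) :
    UPos v i₁ i₂ N W (A \ W.biUnion fun u => uhole v i₁ i₂ u.1 u.2) := by
  have key : ∀ X : Finset (Pt d), (∀ x ∈ X, ∀ u ∈ W, x ∉ uhole v i₁ i₂ u.1 u.2) → Hit X A →
      Hit X (A \ W.biUnion fun u => uhole v i₁ i₂ u.1 u.2) := by
    rintro X hX ⟨x, x1, x2⟩
    refine ⟨x, Finset.mem_sdiff.2 ⟨x1, fun hx => ?_⟩, x2⟩
    obtain ⟨u, hu, hx⟩ := Finset.mem_biUnion.1 hx
    exact hX x x2 u hu hx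
  have h1 : ∀ u ∈ W, ∀ x ∈ uhole v i₁ i₂ u.1 u.2, v i₁ + u.1 + 1 ≤ x i₁ ∧ x i₁ < v i₁ + u.1 + 3 ∧
      ∀ j, j ≠ i₁ → x j < v j + u.2 := fun u hu x hx => by
    have := (hW.1 u hu).2.1
    have h1 := mem_ubox.1 hx i₁
    simp only [if_true] at h1
    refine ⟨h1.1, h1.2, fun j hj => ?_⟩
    have h2 := mem_ubox.1 hx j
    simp only [if_neg hj] at h2
    split_ifs at h2 <;> omega
  have lay : ∀ i l, (i = i₁ → ∀ u ∈ W, l ≠ u.1 ∧ l ≠ u.1 + 1) → ∀ x ∈ ulay v i l (upsi W l),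
      ∀ u ∈ W, x ∉ uhole v i₁ i₂ u.1 u.2 := fun i l hl x hx u hu hx' => by
    obtain ⟨y1, y2⟩ := lay_UGrow hx
    obtain ⟨z1, z2, z3⟩ := h1 u hu x hx'
    rcases eq_or_ne i i₁ with rfl | hi
    · have := hl rfl u hu
      omega
    · have := z3 i hi
      have := y2 i₁ hi.symm
      have := upsi_le_jog hu (l := l) (by omega)
      omega
  refine ⟨fun x hx => Finset.mem_sdiff.2 ⟨h.1 hx, fun hx' => ?_⟩, fun i l l1 l2 => ?_,
    fun u hu => ⟨key _ (fun x hx u' hu' hx' => ?_) (h.2.2 u hu).1,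
      key _ (lay _ _ fun _ u' hu' => ?_) (h.2.2 u hu).2⟩⟩
  · obtain ⟨u, hu, hx'⟩ := Finset.mem_biUnion.1 hx'
    have := (h1 u hu x hx').1
    have := (hW.1 u hu).1
    have := mem_ubox.1 hx i₁
    push_cast at this
    omega
  · exact (h.2.1 i l l1 l2).imp (key _ (lay i l (Finset.mem_filter.1 l1).2))
      (key _ (lay i (l + 1) (Finset.mem_filter.1 l2).2))
  · obtain ⟨z1, z2, z3⟩ := h1 u' hu' x hx'
    have y1 := mem_ubox.1 hx i₁
    have y2 := mem_ubox.1 hx i₂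
    have := z3 i₂ h12.symm
    simp only [if_true, if_neg h12.symm] at y1 y2
    rcases eq_or_ne u u' with rfl | hne
    · omega
    · have := hW.2 u hu u' hu' hne
      omega
  · rcases eq_or_ne u u' with rfl | hne
    · omega
    · have := hW.2 u hu u' hu' hne
      omega

theorem sUEv (h1 : SUHar) (h2 : SUNG) : SUEv := by
  intro d s k N Ω p v i₁ i₂ W p0 p1 h12 hs hN hW hg
  have q0 : 0 ≤ 1 - p := sub_nonneg.2 p1
  have inc : Incr (UPos v i₁ i₂ N W) := fun A B h hA => ⟨hA.1.trans h,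
    fun i => ng_UEv _ _ A B h (hA.2.1 i), fun u hu =>
      ⟨hit_UEv _ A B h (hA.2.2 u hu).1, hit_UEv _ A B h (hA.2.2 u hu).2⟩⟩
  obtain ⟨H, hH⟩ : ∃ H, H = W.biUnion fun u => uhole v i₁ i₂ u.1 u.2 := ⟨_, rfl⟩
  have e := indep_PrB Ω p H (fun A => A ∩ H = ∅) (UPos v i₁ i₂ N W)
    (fun A => by rw [Finset.inter_assoc, Finset.inter_self])
    fun A => ⟨fun h => hH ▸ away_UEv h12 hs hW A h, inc _ _ Finset.sdiff_subset⟩
  have e1 : ∏ u ∈ W, (1 - p) ^ (2 * u.2 * (u.1 + 1) ^ (d - 2)) ≤ Pr Ω p fun A => A ∩ H = ∅ := by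
    refine le_trans ?_ (avoid_PrB Ω p0 p1 H)
    rw [Finset.prod_pow_eq_pow_sum]
    refine pow_le_pow_of_le_one q0 (by linarith) ?_
    rw [hH]
    exact Finset.card_biUnion_le.trans (le_of_eq (Finset.sum_congr rfl fun u _ => chole_UEv v h12 _ _))
  have e2 := pos_UEv h1 h2 p0 p1 h12 hN hW hg
  have e3 := mul_le_mul e2 e1 (Finset.prod_nonneg fun u _ => pow_nonneg q0 _) (nonneg_PrA Ω p0 p1 _)
  rw [mul_comm (Pr Ω p _), ← e] at e3
  refine le_trans (le_of_eq ?_) (e3.trans (mono_PrA Ω p0 p1 _ _ fun A _ h => ⟨h.2, ?_⟩))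
  · rw [uwt, Finset.prod_mul_distrib]
    ring
  · rintro u hu ⟨x, x1, x2⟩
    have : x ∈ A ∩ H := Finset.mem_inter.2 ⟨x1, hH ▸ Finset.mem_biUnion.2 ⟨u, hu, x2⟩⟩
    rw [h.1] at this
    exact absurd this (Finset.notMem_empty x)

end Pool.Agent.MP_6d294b_pr

end
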