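import Pool.Agent.Mg.F6d294b.G28e636

set_option linter.all false

section

open Finset

namespace Pool.Agent.MP_6d294b_pr

variable {d D : ℕ}

/-- graph distance in the lattice -/
def dst (x y : Pt d) : ℕ := ∑ i, (x i - y i).natAbs

/-- number of neighbours of `v` in `K` -/
def nb (v : Pt d) (K : Finset (Pt d)) : ℕ := (K.filter fun u => dst u v = 1).card

/-- `Fill θ A K P`: the cluster `K` is filled from `A` with thresholds `θ`, its bounding box is `P` -/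
inductive Fill (θ : Pt d → ℕ) : Finset (Pt d) → Finset (Pt d) → Bx d → Prop
  | pt (x : Pt d) : Fill θ {x} {x} (ptB x)
  | merge {A B K L : Finset (Pt d)} {Q P : Bx d} {x y : Pt d} : Fill θ A K Q → Fill θ B L P →
      Disjoint A B → x ∈ K → y ∈ L → dst x y ≤ 2 → Fill θ (A ∪ B) (K ∪ L) (Q ⊔ P)
  | add {A K : Finset (Pt d)} {P : Bx d} {v : Pt d} : Fill θ A K P → θ v ≤ nb v K →
      Fill θ A (insert v K) P

/-- there is a filled cluster with the property `E` -/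
def Ev (θ : Pt d → ℕ) (E : Finset (Pt d) → Bx d → Prop) (A : Finset (Pt d)) : Prop :=
  ∃ (B K : Finset (Pt d)) (P : Bx d), B ⊆ A ∧ Fill θ B K P ∧ E K P

/-- number of points of a box -/
def volB (P : Bx d) : ℕ := ∏ i, (ex P i + 1)

/-- a frame: `D` long directions, the others have thickness `k` and a chosen corner -/
structure Fr (D d : ℕ) where
  io : Fin D → Fin d
  inj : Function.Injective io
  ta : Fin d → Bool
  c : Fin d → ℤ
  k : ℕ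

/-- thick directions -/
def Fr.th (F : Fr D d) : Finset (Fin d) := univ.filter fun t => ∀ i, F.io i ≠ t

def Fr.pp (F : Fr D d) (x : Pt d) : Pt D := fun i => x (F.io i)

def Fr.pr (F : Fr D d) (P : Bx d) : Bx D := fun s => P (F.io s.1, s.2)

/-- level of the lowest corner of a box -/
def Fr.lev (F : Fr D d) (P : Bx d) : ℤ := ∑ t ∈ F.th, (F.c t - P (t, F.ta t))

/-- the box lies in the slab -/
def Fr.Reg (F : Fr D d) (P : Bx d) : Prop :=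
  ∀ t ∈ F.th, P (t, F.ta t) ≤ F.c t ∧ P (t, !F.ta t) ≤ (F.k : ℤ) - 1 - F.c t

def Fr.thr (F : Fr D d) (x : Pt d) : ℕ := if F.lev (ptB x) = 0 then 2 else 3

open Classical in
/-- the brick over a projected box -/
noncomputable def Fr.lift (F : Fr D d) (B : Bx D) : Bx d := fun s =>
  if h : ∃ i, F.io i = s.1 then B (h.choose, s.2)
  else if s.2 = F.ta s.1 then F.c s.1 else (F.k : ℤ) - 1 - F.c s.1

/-- some cluster of the one-corner structure has projected box `R` -/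
def IFl (F : Fr D d) (R : Bx D) : Finset (Pt d) → Prop :=
  Ev F.thr fun _ P => F.Reg P ∧ F.pr P = R

def Oc (F : Fr D d) (h : ℤ) (R : Bx D) (s : Sd D) (j : ℤ) (W : Finset (Pt d)) : Prop :=
  ∃ x ∈ W, F.Reg (ptB x) ∧ F.lev (ptB x) ≤ h ∧ InB (F.pp x) R ∧ kap s (F.pp x) = j

/-- no gap among the layers in `J` -/
def GdR (F : Fr D d) (R : Bx D) (s : Sd D) (J : Finset ℤ) (W : Finset (Pt d)) : Prop :=
  ∀ j ∈ J, Oc F 1 R s j W ∨ (j + 1 ∈ J ∧ Oc F 0 R s (j + 1) W)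

/-- records: box, numbers of deleted layers, big or not -/
abbrev Rc (D d : ℕ) := Bx d × (Sd D → ℕ) × Bool

def Two (e : Sd D → ℕ) : Prop := ∃ s s' : Sd D, s.1 ≠ s'.1 ∧ e s ≠ 0 ∧ e s' ≠ 0

def Adm2 (F : Fr D d) (a b T : ℕ) (S B : Bx D) (u : Rc D d) : Prop :=
  Val u.1 ∧ F.Reg u.1 ∧ F.pr u.1 ≤ B ∧
  (∀ s, u.2.1 s ≠ 0 → S s + u.2.1 s ≤ F.pr u.1 s) ∧ (∃ s, u.2.1 s ≠ 0) ∧
  (u.2.2 = false → psi u.1 ≤ a + b ∧ ∑ s, u.2.1 s ≤ psi (F.pr u.1) + 2 ∧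
    (a ≤ psi u.1 ∨ (F.lev u.1 ≤ 1 ∧ (1 ≤ psi u.1 ∨ Two u.2.1)))) ∧
  (u.2.2 = true → b ≤ psi u.1 ∧ ∑ s, u.2.1 s ≤ psi (F.pr u.1) + a + 3 ∧
    (∑ s, u.2.1 s ≤ 2 * D * (a + 1) ∨ psi (F.pr u.1) < T) ∧
    ∑ s, u.2.1 s + psi (F.pr u.1) ≤ psi B + 2 * D * (a + 1))

def Wit (F : Fr D d) (u : Rc D d) (w : Finset (Pt d)) : Prop :=
  Span w u.1 ∧ (u.2.2 = true → ∃ K, Fill F.thr w K u.1)

def WE (F : Fr D d) (u : Rc D d) (A : Finset (Pt d)) : Prop := ∃ w, w ⊆ A ∧ Wit F u w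

open Classical in
noncomputable def admS (F : Fr D d) (a b T : ℕ) (S B : Bx D) : Finset (Rc D d) :=
  (boxes (F.lift B) ×ˢ (Fintype.piFinset fun _ => Finset.range (psi B + 1)) ×ˢ univ).filter
    (Adm2 F a b T S B)

/-- low small records -/
def LowR (a : ℕ) (u : Rc D d) : Prop := u.2.2 = false ∧ psi u.1 < a

open Classical in
/-- layers that are not deleted -/
noncomputable def JT (F : Fr D d) (S B : Bx D) (U : Finset (Rc D d)) (s : Sd D) : Finset ℤ :=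
  (Finset.Ioc (S s) (B s)).filter fun j =>
    ∀ u ∈ U, ¬ (F.pr u.1 s - u.2.1 s < j ∧ j ≤ F.pr u.1 s)

def Crs (F : Fr D d) (a b T : ℕ) (S B : Bx D) (A : Finset (Pt d)) : Prop :=
  ∃ (U : Finset (Rc D d)) (w : Rc D d → Finset (Pt d)) (W : Sd D → Finset (Pt d)),
    (∀ u ∈ U, Adm2 F a b T S B u ∧ w u ⊆ A ∧ Wit F u (w u)) ∧
    (∀ s, W s ⊆ A ∧ GdR F B s (JT F S B U s) (W s)) ∧
    (∀ u ∈ U, ∀ v ∈ U, u ≠ v → Disjoint (w u) (w v)) ∧
    (∀ s t, s ≠ t → Disjoint (W s) (W t)) ∧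
    (∀ u ∈ U, ∀ s, Disjoint (w u) (W s))

/-- boxes that are not absorbed by the brick -/
def Pend (F : Fr D d) (a : ℕ) (P : Bx d) : Prop :=
  psi P < a ∧ F.lev P ≠ 0 ∧ (F.lev P ≤ 1 → psi P = 0)

/-- state: brick `B`, used sites `C`, pending boxes `I` -/
def Stx (F : Fr D d) (a b T : ℕ) (S : Bx D) (A : Finset (Pt d)) (P : Bx d) (B : Bx D)
    (C : Finset (Pt d)) (I : Finset (Finset (Pt d) × Bx d)) : Prop :=
  S ≤ B ∧ B ≤ F.pr P ∧ C ⊆ A ∧ Crs F a b T S B C ∧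
  (∀ u ∈ I, u.1 ⊆ A ∧ Disjoint u.1 C ∧ Span u.1 u.2 ∧ u.2 ≤ P ∧ gap B (F.pr u.2) ≤ 2 ∧
    Pend F a u.2) ∧
  ∀ u ∈ I, ∀ v ∈ I, u ≠ v → Disjoint u.1 v.1

def Sta (F : Fr D d) (a b T : ℕ) (S : Bx D) (A K : Finset (Pt d)) (P : Bx d) : Prop :=
  ∃ (B : Bx D) (C : Finset (Pt d)) (I : Finset (Finset (Pt d) × Bx d)),
    Stx F a b T S A P B C I ∧ ∀ x ∈ K, InB (F.pp x) B ∨ ∃ u ∈ I, InB x u.2

/-! ### the functions of Balogh, Bollobas and Morris -/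

noncomputable def betk (k : ℕ) (u : ℝ) : ℝ :=
  1 / 2 - (1 - u) ^ k / 2 +
    Real.sqrt (1 + (4 * u - 2) * (1 - u) ^ k + (1 - u) ^ (2 * k)) / 2

noncomputable def gk (k : ℕ) (z : ℝ) : ℝ := - Real.log (betk k (1 - Real.exp (- z)))

noncomputable def lamk (d r : ℕ) : ℝ := ∫ z in Set.Ioi (0 : ℝ), gk (r - 1) (z ^ (d - r + 1))

noncomputable def bz (k : ℕ) (z : ℝ) : ℝ := betk k (1 - Real.exp (- z))

noncomputable def dl (k : ℕ) (z : ℝ) : ℝ := 2 * bz k z - 1 + Real.exp (- z) ^ k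

/-- derivative of `gk` -/
noncomputable def mkk (k : ℕ) (z : ℝ) : ℝ :=
  - (k * (1 - bz k z) / dl k z + Real.exp (- z) ^ (k + 1) / (bz k z * dl k z))

/-! ### parameters -/

structure Pm where
  T : ℕ
  M : ℕ
  N : ℕ
  a : ℕ
  b : ℕ
  k : ℕ
  G : ℕ
  C : ℝ
  p : ℝ

noncomputable def Pm.vol (π : Pm) (d : ℕ) : ℝ := (2 * π.N + 1 + π.k : ℝ) ^ (2 * d)

/-- shift of the argument of `gk` -/
def Pm.ss (π : Pm) (D : ℕ) : ℕ := π.G * (π.M + 1) ^ (D - 1)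

noncomputable def Pm.gm (π : Pm) : ℝ := Real.log (2 / π.p) / 2

noncomputable def Pm.gx (π : Pm) (D : ℕ) : ℝ := Real.log (2 / (π.p * π.ss D)) / 2

noncomputable def Pm.Z (π : Pm) (D : ℕ) : ℝ := π.p * (2 * π.N + 1) ^ (D - 1)

noncomputable def Pm.the (π : Pm) (D : ℕ) : ℝ := (2 * π.T + 1) * π.C * (π.Z D + 1)

noncomputable def Pm.et1 (π : Pm) (D d : ℕ) : ℝ :=
  (2 * Real.log (π.vol d) + 2 * D * (π.a + 1) * π.gm + 2) / π.T

noncomputable def Pm.et2 (π : Pm) (D : ℕ) : ℝ := π.C * (π.p * π.Z D + 1 / π.T)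

noncomputable def Pm.eps (π : Pm) (D d : ℕ) : ℝ :=
  Real.log (π.vol d) + 2 * π.N * (π.et1 D d + π.et2 D) + π.the D * (D * Real.log (2 * π.N + 1))

/-- cost of one layer with cross section `x` -/
noncomputable def Pm.co (π : Pm) (D d : ℕ) (x : ℝ) : ℝ := gk (d - D + 1) (π.p * (x + π.ss D))

/-- scale dependent exponent for seeds -/
noncomputable def Pm.cs (π : Pm) (D : ℕ) (t : ℕ) : ℝ :=
  π.gx D + 2 - Real.log (t + 1) / Real.log (2 * π.N + 1)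

noncomputable def Pm.de (π : Pm) : ℝ := 1 / (10 * Real.log (2 * π.N + 1))

/-- the infection probability -/
noncomputable def Pm.pb (π : Pm) : ℝ := 1 - Real.exp (- π.p)

def ParR (D d : ℕ) (π : Pm) : Prop :=
  2 ≤ D ∧ D ≤ d ∧ 0 < π.p ∧ 1 ≤ π.C ∧ 1 ≤ π.T ∧ 1 ≤ π.N ∧ 1 ≤ π.a ∧ 1 ≤ π.k ∧ 1 ≤ π.G ∧
  2 * D * (π.a + 1) + 2 * (π.a + 3) ≤ π.b ∧
  4 * (d + 1) ^ 2 * (π.p * ((π.G + 2) * (π.M + 1) ^ (D - 1))) ≤ 1 ∧
  π.C * (2 * π.b + 1) ^ d ≤ π.ss D ∧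
  4 * π.vol d ^ 3 * (1 / 4) ^ π.a ≤ 1 ∧
  4 * π.vol d ^ 3 * Real.exp (- (π.de * π.b / 2) + (π.gm + 3) * (2 * D + 1) * (π.a + 3) + 1) ≤ 1 ∧
  π.C * Real.log (2 * π.N + 1) ≤ π.G ∧
  12 * (π.G + 2) * (π.eps D d + π.T) ≤ π.M ∧
  π.vol d ^ 4 * Real.exp ((2 * D * (π.a + 1) + 2) * π.gm + 1 - π.T) ≤ 1 / 2

/-! ### slabs and the reduction of the dimension -/

/-- thresholds in a slab with infected outside -/
def thS (r k : ℕ) (Θ : Finset (Fin d)) (c : Fin d → ℤ) (x : Pt d) : ℕ :=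
  r - (Θ.filter fun t => x t = c t ∨ x t = c t + k - 1).card

def InS (k : ℕ) (Θ : Finset (Fin d)) (c : Fin d → ℤ) (Y : Bx d) : Prop :=
  ∀ t ∈ Θ, Y (t, false) ≤ - c t ∧ Y (t, true) ≤ c t + k - 1

/-- density of large clusters -/
def H1 (d r k j : ℕ) (p : ℝ) (s : ℕ) (ε : ℝ) : Prop :=
  ∀ (Ω : Finset (Pt d)) (Θ : Finset (Fin d)) (c : Fin d → ℤ) (Y : Bx d), Θ.card = j →
    InS k Θ c Y → Pr Ω p (Ev (thS r k Θ c) fun _ P => P ≤ Y ∧ s ≤ psi P) ≤ ε * volB Y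

/-- expected size of small clusters -/
def H2 (d r k j : ℕ) (p : ℝ) (s : ℕ) (χ : ℝ) : Prop :=
  ∀ (Ω : Finset (Pt d)) (Θ : Finset (Fin d)) (c : Fin d → ℤ) (x : Pt d) (Z : Finset (Pt d)),
    Θ.card = j → ∑ y ∈ Z, Pr Ω p
      (Ev (thS r k Θ c) fun K P => InS k Θ c P ∧ psi P < s ∧ x ∈ K ∧ y ∈ K) ≤ χ

/-- offsets of the slab number `n` in the direction `i` -/
def off (k : ℕ) (c : Fin d → ℤ) (i : Fin d) (z n : ℤ) : Fin d → ℤ :=
  Function.update c i (z + n * k)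

/-- `x` and `y` lie in a small cluster of some slab -/
def Cn (r k : ℕ) (Θ : Finset (Fin d)) (c : Fin d → ℤ) (i : Fin d) (z : ℤ) (s : ℕ) (x y : Pt d)
    (W : Finset (Pt d)) : Prop :=
  ∃ n : ℤ, Ev (thS r k (insert i Θ) (off k c i z n))
    (fun K P => InS k (insert i Θ) (off k c i z n) P ∧ psi P < s ∧ x ∈ K ∧ y ∈ K) W

/-- a path of `n + 1` small clusters with disjoint witnesses -/
def Pth (r k : ℕ) (Θ : Finset (Fin d)) (c : Fin d → ℤ) (i : Fin d) (z : ℤ) (s : ℕ) (x : Pt d) :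
    ℕ → Pt d → Finset (Pt d) → Prop
  | 0, y, W => Cn r k Θ c i z s x y W
  | n + 1, y, W => ∃ (y' x' : Pt d) (W₁ W₂ : Finset (Pt d)), W₁ ⊆ W ∧ W₂ ⊆ W ∧ Disjoint W₁ W₂ ∧
      Pth r k Θ c i z s x n y' W₁ ∧ dst y' x' ≤ 2 ∧ Cn r k Θ c i z s x' y W₂

/-- a large cluster in the slab number `n` -/
def BigS (r k : ℕ) (Θ : Finset (Fin d)) (c : Fin d → ℤ) (i : Fin d) (z : ℤ) (s : ℕ) (Y : Bx d)
    (n : ℤ) : Finset (Pt d) → Prop :=
  Ev (thS r k (insert i Θ) (off k c i z n))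
    fun _ P => P ≤ Y ∧ InS k (insert i Θ) (off k c i z n) P ∧ s ≤ psi P

noncomputable def chi (d j : ℕ) : ℝ := (1 / 4) ^ j / (2 * 5 ^ d)

/-- the level `j` structure is subcritical up to the length `m` -/
def GG (d r k j : ℕ) (p : ℝ) (m : ℕ) : Prop :=
  ∃ (s : ℕ) (ε : ℝ), s ≤ m ∧ 0 ≤ ε ∧ H1 d r k j p s ε ∧ H2 d r k j p s (chi d j) ∧
    ε * (m : ℝ) ^ (d - j) * (k * Real.log m) ^ (8 * d + 6) ≤ 1

/-- percolation in the form used in the problem -/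
def PercR (d n r : ℕ) (A : Finset (Fin d → Fin n)) : Prop :=
  ∀ S : Set (Fin d → Fin n), (↑A : Set (Fin d → Fin n)) ⊆ S →
    (∀ v : Fin d → Fin n,
      r ≤ Set.ncard {u : Fin d → Fin n | u ∈ S ∧
        (∑ i : Fin d, Int.natAbs (((u i : ℕ) : ℤ) - ((v i : ℕ) : ℤ))) = 1} → v ∈ S) →
    S = Set.univ

end Pool.Agent.MP_6d294b_pr

end

section

open Finset

namespace Pool.Agent.MP_6d294b_pr

/-! ### geometry -/

def RGap : Prop := ∀ d : ℕ,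
  (∀ x y : Pt d, dst x y = dst y x) ∧
  (∀ x y z : Pt d, dst x z ≤ dst x y + dst y z) ∧
  (∀ (x y : Pt d) (s : Sd d), kap s x ≤ kap s y + dst x y) ∧
  (∀ (Q P : Bx d) (x y : Pt d), InB x Q → InB y P → gap Q P ≤ dst x y) ∧
  (∀ Q Q' P P' : Bx d, Q ≤ Q' → P ≤ P' → gap Q' P' ≤ gap Q P) ∧
  (∀ (Q P : Bx d) (x y : Pt d), InB x P → gap Q (ptB y) ≤ gap Q P + psi P + dst x y) ∧
  (∀ (Q : Bx d) (x : Pt d), gap Q (ptB x) = ∑ s, (kap s x - Q s).toNat) ∧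
  (∀ (Q : Bx d) (u u' v : Pt d), u ≠ u' → dst u v = 1 → dst u' v = 1 → InB u Q → InB u' Q →
    InB v Q) ∧
  (∀ u v : Pt d, dst u v = 1 → ∃ s : Sd d, kap s u = kap s v + 1 ∧ ∀ j, j ≠ s.1 → u j = v j) ∧
  (∀ (P : Bx d) (x y : Pt d), InB x P → InB y P → dst x y ≤ psi P) ∧
  (∀ x : Pt d, psi (ptB x) = 0) ∧
  (∀ (P : Bx d) (x : Pt d), (InB x P ↔ ptB x ≤ P) ∧ (InB x P → Val P) ∧
    (InB x P → psi P = 0 → P = ptB x)) ∧
  (∀ Q P : Bx d, Val Q → psi (Q ⊔ P) = psi Q + ∑ s, (P s - Q s).toNat) ∧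
  (∀ (x : Pt d) (n : ℕ), ∃ Z : Finset (Pt d), Z.card ≤ (2 * n + 1) ^ d ∧
    ∀ y, dst x y ≤ n → y ∈ Z)

/-- basic facts on filled clusters, with the Aizenman - Lebowitz lemma -/
def RFill : Prop := ∀ (d : ℕ) (θ : Pt d → ℕ), (∀ v, 2 ≤ θ v) →
  ∀ (A K : Finset (Pt d)) (P : Bx d), Fill θ A K P →
    Span A P ∧ A ⊆ K ∧ A.Nonempty ∧ (∀ x ∈ K, InB x P) ∧ (∀ s, ∃ x ∈ A, kap s x = P s) ∧
    (∀ φ : Pt d → Prop, (∀ x ∈ K, ∀ y ∈ K, dst x y ≤ 2 → φ x → φ y) →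
      ∀ x ∈ K, ∀ y ∈ K, φ x → φ y) ∧
    (∀ θ' : Pt d → ℕ, (∀ v, InB v P → θ' v ≤ θ v) → Fill θ' A K P) ∧
    (∀ (μ : Bx d → ℕ) (N : ℕ), (∀ x, μ (ptB x) = 0) →
      (∀ Q Q' : Bx d, Val Q → Val Q' → gap Q Q' ≤ 2 → μ (Q ⊔ Q') ≤ μ Q + μ Q' + 2) →
      1 ≤ N → N ≤ μ P → ∃ (A' K' : Finset (Pt d)) (P' : Bx d), A' ⊆ A ∧ Fill θ A' K' P' ∧
        P' ≤ P ∧ N ≤ μ P' ∧ μ P' ≤ 2 * N)

/-- the final family of clusters -/
def RFam : Prop := ∀ (d : ℕ) (θ : Pt d → ℕ), (∀ v, 2 ≤ θ v) → ∀ A : Finset (Pt d),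
  ∃ I : Finset (Finset (Pt d) × Finset (Pt d) × Bx d),
    (∀ u ∈ I, u.1 ⊆ A ∧ Fill θ u.1 u.2.1 u.2.2) ∧
    (∀ u ∈ I, ∀ v ∈ I, u ≠ v → Disjoint u.1 v.1 ∧ ∀ x ∈ u.2.1, ∀ y ∈ v.2.1, 3 ≤ dst x y) ∧
    A ⊆ I.biUnion (fun u => u.2.1) ∧
    ∀ v, θ v ≤ nb v (I.biUnion fun u => u.2.1) → v ∈ I.biUnion fun u => u.2.1

/-- restriction to a slab -/
def RCut : Prop := ∀ (d : ℕ) (θ θ' : Pt d → ℕ) (A K Z : Finset (Pt d)) (P : Bx d) (i : Fin d)
  (z : ℤ) (h : ℕ), Fill θ A K P → 2 ≤ h →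
  (∀ v : Pt d, z ≤ v i → v i < z + h →
    θ' v + (if v i = z ∨ v i = z + h - 1 then 1 else 0) ≤ θ v) →
  (∀ v, θ' v ≤ nb v Z → v ∈ Z) → (∀ x ∈ A, z ≤ x i → x i < z + h → x ∈ Z) →
  ∀ x ∈ K, z ≤ x i → x i < z + h → x ∈ Z

def RLiftA : Prop := ∀ (D d : ℕ) (F : Fr D d),
  (F.th.card = d - D ∧ D ≤ d) ∧
  (∀ v, 2 ≤ F.thr v) ∧
  (∀ x, F.pr (ptB x) = ptB (F.pp x)) ∧
  (∀ Q P, F.pr (Q ⊔ P) = F.pr Q ⊔ F.pr P) ∧
  (∀ Q P, Q ≤ P → F.pr Q ≤ F.pr P) ∧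
  (∀ P, Val P → Val (F.pr P)) ∧
  (∀ x P, InB x P → InB (F.pp x) (F.pr P)) ∧
  (∀ Q P, gap (F.pr Q) (F.pr P) ≤ gap Q P) ∧
  (∀ x y, dst (F.pp x) (F.pp y) ≤ dst x y) ∧
  (∀ P, psi P = psi (F.pr P) + ∑ t ∈ F.th, ex P t) ∧
  (∀ P, volB (F.pr P) ≤ volB P) ∧
  (∀ P, F.Reg P → ∀ t ∈ F.th, ex P t ≤ F.k - 1) ∧
  (∀ B P, P ≤ F.lift B ↔ F.pr P ≤ B ∧ F.Reg P) ∧
  (∀ B, F.pr (F.lift B) = B) ∧
  (∀ Q P, Q ≤ P → F.lev P ≤ F.lev Q ∧ (F.Reg P → F.Reg Q)) ∧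
  (∀ Q P, F.Reg Q → F.Reg P → F.Reg (Q ⊔ P)) ∧
  (∀ P, F.Reg P → 0 ≤ F.lev P) ∧
  (∀ u v, dst u v = 1 → F.lev (ptB u) ≤ F.lev (ptB v) + 1 ∧
    (F.pp u = F.pp v ∨ (dst (F.pp u) (F.pp v) = 1 ∧ F.lev (ptB u) = F.lev (ptB v))))

def RLiftB : Prop := ∀ (D d : ℕ) (F : Fr D d),
  (∀ P P' : Bx d, P ≤ P' → boxes P ⊆ boxes P') ∧
  (∀ (K : ℕ) (B : Bx D), (∀ i, ex B i + 1 ≤ K) → 1 ≤ F.k →
    (boxes (F.lift B)).card ≤ (K + F.k) ^ (2 * d)) ∧
  (∀ (a b T : ℕ) (S B : Bx D), Val S → S ≤ B →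
    ∀ u, u ∈ admS F a b T S B ↔ Adm2 F a b T S B u) ∧
  (∀ (a b T K : ℕ) (S B : Bx D), psi B + 1 ≤ K → 1 ≤ F.k →
    (admS F a b T S B).card ≤ 2 * (K + F.k) ^ (2 * d) * K ^ (2 * D)) ∧
  (∀ (X : Finset (Pt d)) (Xp : Finset (Pt D)), (∀ x ∈ X, F.Reg (ptB x) ∧ F.pp x ∈ Xp) →
    ((∀ x ∈ X, F.lev (ptB x) ≤ 0) → X.card ≤ Xp.card) ∧
    ((∀ x ∈ X, F.lev (ptB x) ≤ 1) → X.card ≤ (d - D + 1) * Xp.card))

/-- sum over low boxes with a given projection -/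
def RLowC : Prop := ∀ (D d : ℕ) (F : Fr D d) (Pp : Bx D) (ρ : ℝ) (X : Finset (Bx d)),
  0 ≤ ρ → ρ ≤ 1 / 2 → (∀ P ∈ X, Val P ∧ F.Reg P ∧ F.lev P ≤ 1 ∧ F.pr P = Pp) →
  ∑ P ∈ X, ρ ^ psi P ≤ (d + 1) * 2 ^ d * ρ ^ psi Pp

/-- counting boxes -/
def RBoxC : Prop := ∀ d : ℕ,
  (∀ (B : Bx d) (X : Finset (Bx d)), (∀ P ∈ X, Val P ∧ P ≤ B) →
    ∑ P ∈ X, (1 / 2 : ℝ) ^ psi P ≤ 2 ^ d * volB B ∧
    (∀ (s : Sd d) (j : ℤ), (∀ P ∈ X, j < P s) →
      ∑ P ∈ X, (1 / 2 : ℝ) ^ psi P ≤ 2 ^ d * ((B s - j).toNat * sg (ex B) s.1 : ℕ)) ∧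
    (∀ n : ℕ, (∀ P ∈ X, psi P ≤ n) → X.card ≤ volB B * (n + 1) ^ d)) ∧
  (∀ (x : Pt d) (X : Finset (Bx d)), (∀ P ∈ X, InB x P) →
    ∑ P ∈ X, (1 / 2 : ℝ) ^ psi P ≤ 2 ^ (2 * d)) ∧
  (∀ (x : Pt d) (t : ℕ), ∃ X : Finset (Bx d), X.card ≤ (t + 1) ^ (2 * d) ∧
    ∀ P, InB x P → psi P ≤ t → P ∈ X) ∧
  (∀ P : Bx d, volB P ≤ (psi P + 1) ^ d ∧
    (∀ i, volB P = sg (ex P) i * (ex P i + 1) ∧ sg (ex P) i ≤ (psi P + 1) ^ (d - 1) ∧
      ex P i ≤ psi P) ∧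
    (∃ X : Finset (Pt d), X.card ≤ volB P ∧ ∀ x, x ∈ X ↔ InB x P) ∧
    (1 ≤ d → ∃ i, psi P ≤ d * ex P i)) ∧
  (∀ m : ℕ, ∃ C : ℝ, 0 ≤ C ∧ ∀ t : ℕ, ((t : ℝ) + 3) ^ m * (1 / 4) ^ t ≤ C * (1 / 2) ^ t)

/-! ### the chain with a brick -/

def RAbsR : Prop := ∀ (D d : ℕ) (F : Fr D d) (a b T : ℕ) (S B : Bx D) (C w : Finset (Pt d))
  (u : Rc D d), Val S → S ≤ B → Crs F a b T S B C →
  (∀ s, u.2.1 s = (F.pr u.1 s - B s).toNat) → Adm2 F a b T S (B ⊔ F.pr u.1) u → Wit F u w →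
  Disjoint w C → Crs F a b T S (B ⊔ F.pr u.1) (C ∪ w)

def RAbsS : Prop := ∀ (D d : ℕ) (F : Fr D d) (a b T : ℕ) (S B : Bx D) (C : Finset (Pt d))
  (x : Pt d) (s : Sd D), Val S → S ≤ B → Crs F a b T S B C → x ∉ C → F.Reg (ptB x) →
  (∀ s', s' ≠ s → kap s' (F.pp x) ≤ B s') →
  ((F.lev (ptB x) ≤ 1 ∧ kap s (F.pp x) = B s + 1) ∨
    (F.lev (ptB x) ≤ 0 ∧ kap s (F.pp x) = B s + 2)) →
  Crs F a b T S (B ⊔ ptB (F.pp x)) (insert x C)

def RNew : Prop := ∀ (D d : ℕ) (F : Fr D d) (a b T : ℕ) (S B : Bx D) (A C A' : Finset (Pt d))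
  (P P' : Bx d) (I : Finset (Finset (Pt d) × Bx d)), Val S → F.Reg P →
  Stx F a b T S A P B C I → A' ⊆ A → Disjoint A' C → (∀ u ∈ I, Disjoint A' u.1) →
  Span A' P' → P' ≤ P → gap B (F.pr P') ≤ 2 → psi P' ≤ a + b →
  ∃ (B' : Bx D) (C' : Finset (Pt d)) (I' : Finset (Finset (Pt d) × Bx d)),
    Stx F a b T S A P B' C' I' ∧ B ≤ B' ∧ I ⊆ I' ∧
    ∀ x, InB x P' → InB (F.pp x) B' ∨ ∃ u ∈ I', InB x u.2

def RAdd : Prop := ∀ (D d : ℕ) (F : Fr D d) (a b T : ℕ) (S : Bx D) (A K : Finset (Pt d))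
  (P : Bx d) (v : Pt d), Val S → a ≤ b → F.Reg P → (∀ x ∈ K, InB x P) →
  Sta F a b T S A K P → F.thr v ≤ nb v K → Sta F a b T S A (insert v K) P

/-- arms are short -/
def REnd : Prop := ∀ (D d : ℕ) (F : Fr D d) (a b T : ℕ) (S B : Bx D) (A C K : Finset (Pt d))
  (P : Bx d) (I : Finset (Finset (Pt d) × Bx d)), Stx F a b T S A P B C I →
  (∀ x ∈ K, InB (F.pp x) B ∨ ∃ u ∈ I, InB x u.2) →
  (∀ x ∈ K, gap B (ptB (F.pp x)) ≤ a + 1) ∧
  ((∀ s, ∃ z ∈ K, kap s z = P s) → ∀ s, F.pr P s ≤ B s + (a + 1))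

def RMer : Prop := ∀ (D d : ℕ) (F : Fr D d) (a b T : ℕ) (S : Bx D) (A K A' K' : Finset (Pt d))
  (Q P : Bx d) (x y : Pt d), Val S → F.Reg (Q ⊔ P) → (∀ s, ∃ z ∈ K, kap s z = Q s) →
  Sta F a b T S A K Q → Fill F.thr A' K' P → Disjoint A A' → x ∈ K → y ∈ K' → dst x y ≤ 2 →
  psi (F.pr P) ≤ psi (F.pr Q) → (psi (F.pr P) < T ∨ F.pr P ≤ F.pr Q) →
  Sta F a b T S (A ∪ A') (K ∪ K') (Q ⊔ P)

def RChain : Prop := ∀ (D d : ℕ) (F : Fr D d) (a b T : ℕ) (A K : Finset (Pt d)) (P : Bx d),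
  Fill F.thr A K P → F.Reg P → a ≤ b → 1 ≤ T →
  (∃ (S B : Bx D) (A₀ C : Finset (Pt d)), A₀ ⊆ A ∧ C ⊆ A ∧ Disjoint A₀ C ∧ IFl F S A₀ ∧
    Crs F a b T S B C ∧ Val S ∧ S ≤ B ∧ B ≤ F.pr P ∧ (∀ s, F.pr P s ≤ B s + (a + 1)) ∧
    (psi S + T ≤ psi (F.pr P) ∨ psi S = 0) ∧ psi (F.pr P) ≤ psi S + (2 * T + 1)) ∨
  (∃ (Q Q' B : Bx D) (A₁ A₂ C : Finset (Pt d)), A₁ ⊆ A ∧ A₂ ⊆ A ∧ C ⊆ A ∧ Disjoint A₁ A₂ ∧
    Disjoint A₁ C ∧ Disjoint A₂ C ∧ IFl F Q A₁ ∧ IFl F Q' A₂ ∧ Crs F a b T (Q ⊔ Q') B C ∧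
    Val Q ∧ Val Q' ∧ Q ⊔ Q' ≤ B ∧ B ≤ F.pr P ∧ (∀ s, F.pr P s ≤ B s + (a + 1)) ∧
    gap Q Q' ≤ 2 ∧ T ≤ psi Q' ∧ psi Q' ≤ psi Q ∧ psi Q < psi (Q ⊔ Q') ∧
    psi (F.pr P) < psi (Q ⊔ Q') + T)

/-! ### the functions `gk` -/

def RBet : Prop := ∀ k : ℕ, 1 ≤ k →
  (∀ u : ℝ, 0 ≤ u → u ≤ 1 → u ≤ betk k u ∧ betk k u ≤ 1 ∧
    betk k u ^ 2 = (1 - (1 - u) ^ k) * betk k u + (1 - u) ^ k * u) ∧
  (∀ z : ℝ, 0 < z → Real.exp (- gk k z) = betk k (1 - Real.exp (- z)) ∧ 0 ≤ gk k z ∧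
    gk k z ≤ Real.log (1 + 1 / z) / 2 ∧ (1 ≤ z → gk k z ≤ Real.exp (- z)))

def RDer : Prop := ∀ k : ℕ, 1 ≤ k → ∀ z : ℝ, 0 < z →
  HasDerivAt (gk k) (mkk k z) z ∧ HasDerivAt (bz k) (- mkk k z * bz k z) z ∧
  0 < bz k z ∧ bz k z ≤ dl k z ∧
  dl k z ^ 2 = (1 - Real.exp (- z) ^ k) ^ 2 + 4 * Real.exp (- z) ^ k * (1 - Real.exp (- z))

def RConv : Prop := ∀ k : ℕ, 1 ≤ k → ∀ z z' : ℝ, 0 < z → z ≤ z' → mkk k z ≤ mkk k z'

def RSlope : Prop := ∀ k : ℕ, 1 ≤ k →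
  (∃ m : ℝ → ℝ, (∀ z z' : ℝ, 0 < z → 0 < z' → gk k z + m z * (z' - z) ≤ gk k z') ∧
    (∀ z z' : ℝ, 0 < z → z ≤ z' → m z ≤ m z') ∧ (∀ z : ℝ, 0 < z → m z ≤ 0) ∧
    (∀ z : ℝ, 0 < z → 4 * (k : ℝ) ^ 2 * z ≤ 1 → z * m z ≤ - (1 / 12))) ∧
  (∀ z z' : ℝ, 0 < z → z ≤ z' → gk k z' ≤ gk k z ∧
    gk k z - gk k z' ≤ (k + 1) * (Real.log z' - Real.log z))

def RInt : Prop := ∀ (D : ℕ) (g : ℝ → ℝ), 2 ≤ D →
  (∀ z z' : ℝ, 0 < z → z ≤ z' → g z' ≤ g z) →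
  (∀ z : ℝ, 0 < z → 0 ≤ g z ∧ g z ≤ Real.log (1 + 1 / z) / 2 ∧ (1 ≤ z → g z ≤ Real.exp (- z))) →
  ∀ (q B σ : ℝ) (Y N : ℕ), 0 < q → q * (2 + Y) ≤ 1 → 1 ≤ B → B * D ≤ q * N → 0 ≤ σ →
    σ ≤ (Y : ℝ) ^ (D - 1) →
    D / q * ((∫ z in Set.Ioi (0 : ℝ), g (z ^ (D - 1))) - D * (q * (2 + Y)) * (1 + Real.log (1 / q))
      - Real.exp (- B ^ (D - 1))) ≤
    ∑ t ∈ range N, g (q ^ (D - 1) * ((((t : ℝ) + D + 1) / D) ^ (D - 1) + σ))

/-! ### probability bounds in a frame -/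

def RGood : Prop := ∀ (D d : ℕ) (F : Fr D d) (Ω : Finset (Pt d)) (p : ℝ), 0 ≤ p → p ≤ 1 →
  ∀ (R : Bx D) (s : Sd D) (u : ℝ), 1 - (1 - p) ^ sg (ex R) s.1 ≤ u → u ≤ 1 →
    ∀ J : Finset ℤ, Pr Ω p (GdR F R s J) ≤ betk (d - D + 1) u ^ J.card

def RCrossB : Prop := ∀ (D d : ℕ) (F : Fr D d) (Ω : Finset (Pt d)) (p : ℝ), 0 ≤ p → p ≤ 1 / 2 →
  ∀ (a b T : ℕ) (S B : Bx D) (β : Fin D → ℝ), Val S → S ≤ B → (∀ i, 0 < β i ∧ β i ≤ 1) →
    (∀ (s : Sd D) (J : Finset ℤ), Pr Ω p (GdR F B s J) ≤ β s.1 ^ J.card) →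
    Pr Ω p (Crs F a b T S B) ≤ (∏ s : Sd D, β s.1 ^ (B s - S s).toNat) *
      Real.exp (∑ u ∈ admS F a b T S B, Pr Ω p (WE F u) * ∏ s : Sd D, (β s.1)⁻¹ ^ u.2.1 s)

def RCrossC : Prop := ∀ (D d : ℕ) (F : Fr D d) (Ω : Finset (Pt d)) (p : ℝ), 0 ≤ p → p ≤ 1 / 2 →
  ∀ (a b T : ℕ) (S B : Bx D) (x : ℝ), Val S → S ≤ B → 1 ≤ x →
    Pr Ω p (Crs F a b T S B) ≤ x⁻¹ ^ (psi B - psi S) *
      Real.exp ((d + 1) * volB B * p * x ^ 2 +
        ∑ u ∈ admS F a b T S B, Pr Ω p (WE F u) * x ^ (∑ s, u.2.1 s))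

/-- universal bounds -/
def RUni : Prop := ∀ (d : ℕ) (Ω : Finset (Pt d)) (p : ℝ), 0 ≤ p → p ≤ 1 →
  (∀ (P : Bx d) (x : ℝ), 1 ≤ x → 1 ≤ psi P → 16 * ((psi P : ℝ) + 1) ^ d * p * x ^ 2 ≤ 1 →
    Pr Ω p (ISp P) * x ^ (psi P + 2) ≤
      16 * (((psi P : ℝ) + 1) ^ d * p * x ^ 2) ^ 2 * (1 / 4) ^ psi P) ∧
  (∀ (θ : Pt d → ℕ) (Y : Bx d) (t : ℕ) (c : ℝ), (∀ v, 2 ≤ θ v) → 1 ≤ t → 0 ≤ c →
    3 * Real.exp 1 * p * (2 * t + 1) ^ (d - 1) * Real.exp (2 * c) ≤ 1 / 64 →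
    Pr Ω p (Ev θ fun _ P => P ≤ Y ∧ t ≤ psi P) ≤
      (boxes Y).card * Real.exp (- (c * t)) * (1 / 4) ^ t)

open Classical in
def RWL0 : Prop := ∀ D d : ℕ, ∃ C : ℝ, 0 ≤ C ∧ ∀ (F : Fr D d) (Ω : Finset (Pt d)) (p : ℝ),
  0 ≤ p → p ≤ 1 → ∀ (a b T : ℕ) (S B : Bx D) (x : ℝ), 1 ≤ x →
    3 * Real.exp 1 * p * a ^ (d - 1) * x ^ 2 ≤ 1 / 64 →
    ∑ u ∈ (admS F a b T S B).filter (LowR a), Pr Ω p (WE F u) * x ^ (∑ s, u.2.1 s) ≤
      C * volB B * p * x ^ 2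

open Classical in
def RWL1 : Prop := ∀ D d : ℕ, ∃ C : ℝ, 0 ≤ C ∧ ∀ (F : Fr D d) (Ω : Finset (Pt d)) (p : ℝ),
  0 ≤ p → p ≤ 1 → ∀ (a b T : ℕ) (S B : Bx D) (x : Fin D → ℝ) (η : ℝ), Val S → S ≤ B →
    (∀ i, 1 ≤ x i ∧ 16 * (a : ℝ) ^ d * p * x i ^ 2 ≤ 1 ∧
      sg (ex B) i * (p * x i ^ 2) ^ 2 ≤ η) →
    ∑ u ∈ (admS F a b T S B).filter (fun u => LowR a u ∧ ¬ Two u.2.1),
      Pr Ω p (WE F u) * ∏ s : Sd D, x s.1 ^ u.2.1 s ≤ C * η * ((psi B : ℝ) - psi S)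

open Classical in
def RWL2 : Prop := ∀ D d : ℕ, ∃ C : ℝ, 0 ≤ C ∧ ∀ (F : Fr D d) (Ω : Finset (Pt d)) (p p' : ℝ),
  0 ≤ p → p ≤ 1 → p ≤ p' → 0 < p' → ∀ (a b T Dr : ℕ) (S B : Bx D) (β : Fin D → ℝ) (c Z : ℝ),
    Val S → S ≤ B → psi B ≤ psi S + Dr → 0 ≤ c → (∀ i, 0 < β i ∧ β i ≤ 1) →
    (∀ i, (β i)⁻¹ ≤ Real.exp c) → (∀ i, (β i)⁻¹ ^ 2 ≤ 1 + 1 / (p' * sg (ex B) i)) →
    (∀ i, p' * sg (ex B) i ≤ Z) →
    3 * Real.exp 1 * p * a ^ (d - 1) * Real.exp (2 * c) ≤ 1 / 64 →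
    ∑ u ∈ (admS F a b T S B).filter (fun u => LowR a u ∧ Two u.2.1),
      Pr Ω p (WE F u) * ∏ s : Sd D, (β s.1)⁻¹ ^ u.2.1 s ≤ C * (Z + 1) * Dr * (lg B - lg S)

/-- numerical consequences of the conditions on the parameters -/
def RNum : Prop := ∀ (D d : ℕ) (π : Pm), ParR D d π →
  0 ≤ π.pb ∧ π.pb ≤ π.p ∧ π.p ≤ 1 / 2 ∧ 0 ≤ π.gx D ∧ π.gx D ≤ π.gm ∧
  π.p * Real.exp (2 * π.gx D) = 2 / π.ss D ∧ 1 ≤ Real.log (2 * π.N + 1) ∧
  0 < π.de ∧ π.de ≤ 1 / 10 ∧ 1 ≤ π.vol d ∧ (2 * π.N + 1 : ℝ) ^ (2 * D) ≤ π.vol d ∧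
  0 ≤ π.et1 D d ∧ 0 ≤ π.et2 D ∧ 0 ≤ π.the D ∧ 0 ≤ π.eps D d ∧ π.T ≤ π.M ∧ π.T < π.ss D ∧
  π.a ≤ π.b ∧ (∀ x x' : ℝ, 0 ≤ x → x ≤ x' → π.co D d x' ≤ π.co D d x) ∧
  (∀ x : ℝ, 0 ≤ x → 0 ≤ π.co D d x ∧ π.co D d x ≤ π.gx D ∧
    Real.exp (π.co D d x) ^ 2 ≤ 1 + 1 / (π.p * (x + π.ss D))) ∧
  (∀ t : ℕ, t ≤ 2 * π.N → π.gx D + 1 ≤ π.cs D t ∧ π.cs D t ≤ π.gx D + 2) ∧
  (∀ t t' : ℕ, t' ≤ t → π.cs D t ≤ π.cs D t') ∧
  (∀ t t' : ℕ, 5 * (t' + 1) ≤ 4 * (t + 1) → π.cs D t + 2 * π.de ≤ π.cs D t')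

/-- high records and big records with few deleted layers -/
def RHB : Prop := ∀ D d : ℕ, ∃ C₀ : ℝ, ∀ π : Pm, C₀ ≤ π.C → ParR D d π →
  ∀ F : Fr D d, F.k = π.k → ∀ (Ω : Finset (Pt d)) (T' : ℕ) (S B : Bx D) (u : Rc D d),
    psi B ≤ 2 * π.N → Adm2 F π.a π.b T' S B u → ¬ LowR π.a u →
    Pr Ω π.pb (WE F u) * Real.exp ((π.gx D + 3) * (∑ s, u.2.1 s : ℕ)) ≤ 1 / (2 * π.vol d ^ 2) ∨
      (u.2.2 = true ∧ π.b < ∑ s, u.2.1 s)

def RSeedW : Prop := ∀ (D d : ℕ) (π : Pm), ParR D d π →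
  ∀ (F : Fr D d) (Ω : Finset (Pt d)) (R : Bx D), psi R ≤ 2 * π.N →
    (∀ R' : Bx D, Val R' → R' ≤ R → psi R' < psi R →
      Pr Ω π.pb (IFl F R') ≤ π.vol d * Real.exp (- (π.cs D (psi R') * psi R'))) →
    ∀ (T' : ℕ) (S B : Bx D) (u : Rc D d), B ≤ R → Adm2 F π.a π.b T' S B u → u.2.2 = true →
      π.b < ∑ s, u.2.1 s →
      Pr Ω π.pb (WE F u) * Real.exp ((π.cs D (psi R) + π.de) * (∑ s, u.2.1 s : ℕ)) ≤
        1 / (2 * π.vol d ^ 2)

def RSeed : Prop := ∀ D d : ℕ, ∃ C₀ : ℝ, ∀ π : Pm, C₀ ≤ π.C → ParR D d π →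
  ∀ F : Fr D d, F.k = π.k → ∀ (Ω : Finset (Pt d)) (R : Bx D), Val R → psi R ≤ 2 * π.N →
    (∃ i, sg (ex R) i ≤ 2 * (π.M + 1) ^ (D - 1)) →
    Pr Ω π.pb (IFl F R) ≤ π.vol d * Real.exp (- ((π.gx D + 1) * psi R))

def RStepW : Prop := ∀ D d : ℕ, ∃ C₀ : ℝ, ∀ π : Pm, C₀ ≤ π.C → ParR D d π →
  ∀ F : Fr D d, F.k = π.k → ∀ (Ω : Finset (Pt d)) (S B : Bx D), Val S → S ≤ B →
    psi B ≤ 2 * π.N → psi B ≤ psi S + (2 * π.T + 1) →
    ∑ u ∈ admS F π.a π.b π.T S B, Pr Ω π.pb (WE F u) *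
        ∏ s : Sd D, (Real.exp (- π.co D d (sg (ex B) s.1)))⁻¹ ^ u.2.1 s ≤
      (π.C - d) * (π.Z D + 1) * (2 * π.T + 1) * (lg B - lg S) +
        π.et2 D * ((psi B : ℝ) - psi S) + 1

def RStep : Prop := ∀ D d : ℕ, ∃ C₀ : ℝ, ∀ π : Pm, C₀ ≤ π.C → ParR D d π →
  ∀ F : Fr D d, F.k = π.k → ∀ (Ω : Finset (Pt d)) (Φ : (Fin D → ℕ) → ℝ),
    IsPot (fun k : ℕ => π.co D d k) Φ → ∀ S B : Bx D, Val S → S ≤ B →
    psi B ≤ 2 * π.N → psi B ≤ psi S + (2 * π.T + 1) →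
    Pr Ω π.pb (Crs F π.a π.b π.T S B) ≤ Real.exp (Φ (ex S) - Φ (ex B) +
      π.the D * (lg B - lg S) + π.et2 D * ((psi B : ℝ) - psi S) + 1)

def RMerge : Prop := ∀ (D d : ℕ) (π : Pm), ParR D d π → ∀ Φ : (Fin D → ℕ) → ℝ,
  IsPot (fun k : ℕ => π.co D d k) Φ →
  (∀ R : Bx D, Φ (ex R) ≤ π.gx D * psi R) ∧
  (∀ R : Bx D, (∀ i, 2 * (π.M + 1) ^ (D - 1) < sg (ex R) i) → π.M < psi R) ∧
  (∀ Q P : Bx D, Val Q → Val P → gap Q P ≤ 2 →
    Φ (ex (Q ⊔ P)) ≤ Φ (ex Q) + Φ (ex P) + 2 * π.gx D ∧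
    ((∀ i, 2 * (π.M + 1) ^ (D - 1) < sg (ex Q) i) → π.M ≤ psi P →
      Φ (ex (Q ⊔ P)) ≤ Φ (ex Q) + Φ (ex P) + 2 * π.gx D - π.M / (12 * (π.G + 2)))) ∧
  (∀ B R : Bx D, Val B → B ≤ R → (∀ s, R s ≤ B s + (π.a + 1)) →
    Φ (ex R) ≤ Φ (ex B) + 2 * D * (π.a + 1) * π.gx D)

def RInd : Prop := ∀ D d : ℕ, ∃ C₀ : ℝ, ∀ π : Pm, C₀ ≤ π.C → ParR D d π →
  ∀ F : Fr D d, F.k = π.k → ∀ (Ω : Finset (Pt d)) (Φ : (Fin D → ℕ) → ℝ),
    IsPot (fun k : ℕ => π.co D d k) Φ → ∀ R : Bx D, Val R → psi R ≤ 2 * π.N →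
    Pr Ω π.pb (IFl F R) ≤ Real.exp (- Φ (ex R) + Real.log (π.vol d) +
      (π.et1 D d + π.et2 D) * psi R + π.the D * lg R)

def RCrit : Prop := ∀ D d : ℕ, ∃ C₀ : ℝ, ∀ π : Pm, C₀ ≤ π.C → ParR D d π →
  ∀ F : Fr D d, F.k = π.k → ∀ (Ω : Finset (Pt d)) (R : Bx D), Val R → π.N ≤ psi R →
    psi R ≤ 2 * π.N → Pr Ω π.pb (IFl F R) ≤ Real.exp (π.eps D d -
      ∑ t ∈ range π.N, π.co D d ((((t : ℝ) + D + 1) / D) ^ (D - 1)))

/-- choice of the parameters -/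
def RPar : Prop := ∀ (D d : ℕ) (C : ℝ), 2 ≤ D → D ≤ d → 1 ≤ C → ∃ C' q₀ : ℝ, 0 < C' ∧ 0 < q₀ ∧
  ∀ q : ℝ, 0 < q → q ≤ q₀ → ∀ k : ℕ, 1 ≤ k → (k : ℝ) ≤ 1 / q ^ 2 →
    ∃ (π : Pm) (B : ℝ), π.k = k ∧ π.C = C ∧ π.p = q ^ (D - 1) ∧ ParR D d π ∧
      1 / q ≤ π.N ∧ (π.N : ℝ) ≤ 1 / q ^ 2 ∧ q * (2 + (π.G * (π.M + 1) : ℕ)) ≤ 1 ∧ 1 ≤ B ∧
      B * D ≤ q * π.N ∧ B ^ (D - 1) = Real.log (1 / q) ∧
      ((π.G * (π.M + 1) : ℕ) : ℝ) ≤ C' * Real.log (1 / q) ^ 5 / Real.sqrt q ∧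
      π.eps D d ≤ C' * Real.log (1 / q) ^ 3 / Real.sqrt q

/-- bound for critical droplets in the one-corner structure -/
def DropP (D d : ℕ) (lam : ℝ) (err : ℝ → ℝ) : Prop := ∃ q₀ : ℝ, 0 < q₀ ∧
  ∀ q : ℝ, 0 < q → q ≤ q₀ → ∀ k : ℕ, 1 ≤ k → (k : ℝ) ≤ 1 / q ^ 2 →
    ∃ N : ℕ, 1 / q ≤ N ∧ (N : ℝ) ≤ 1 / q ^ 2 ∧ ∀ F : Fr D d, F.k = k →
      ∀ (Ω : Finset (Pt d)) (R : Bx D), Val R → N ≤ psi R → psi R ≤ 2 * N →
        Pr Ω (1 - Real.exp (- q ^ (D - 1))) (IFl F R) ≤ Real.exp (- (D * lam / q) + err q)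

def RDrop : Prop := ∀ d r : ℕ, 2 ≤ r → r ≤ d → ∃ C : ℝ, 0 ≤ C ∧
  DropP (d - r + 2) d (lamk d r) fun q => C * Real.log (1 / q) ^ 6 / Real.sqrt q

/-! ### the base level -/

def RBlk : Prop := ∀ (d r k n a : ℕ) (p : ℝ) (Ω : Finset (Pt d)) (Θ : Finset (Fin d))
  (c : Fin d → ℤ) (Y : Bx d) (t : Fin d), Θ.card + 2 ≤ r → t ∈ Θ → 1 ≤ a →
  n * (a + 4) + 2 ≤ k → 0 ≤ p → p ≤ 1 / 2 →
  3 * Real.exp 1 * p * (2 * a + 1) ^ (d - 1) ≤ 1 / 64 →
  (boxes Y).card * (1 / 4 : ℝ) ^ a ≤ Real.exp (- 1) →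
  Pr Ω p (Ev (thS r k Θ c) fun _ P => P ≤ Y ∧ P (t, true) = c t + k - 1 ∧ P (t, false) = - c t)
    ≤ Real.exp (- n)

def RChi : Prop := ∀ d : ℕ, 1 ≤ d → ∃ C : ℝ, 0 ≤ C ∧ ∀ (θ : Pt d → ℕ) (Ω : Finset (Pt d)) (p : ℝ)
  (s a : ℕ) (x : Pt d) (Z : Finset (Pt d)), (∀ v, 2 ≤ θ v) → 0 ≤ p → p ≤ 1 → 1 ≤ a →
  3 * Real.exp 1 * p * (2 * a + 1) ^ (d - 1) ≤ 1 / 64 →
  ∑ y ∈ Z, Pr Ω p (Ev θ fun K P => psi P < s ∧ x ∈ K ∧ y ∈ K) ≤
    C * p + (2 * s + 1 : ℝ) ^ (3 * d) * (1 / 4) ^ a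

def RBase1 : Prop := ∀ (D d k N : ℕ) (p ε₁ ε₂ : ℝ), D ≤ d → 1 ≤ k → 1 ≤ N → 0 ≤ p → p ≤ 1 →
  0 ≤ ε₁ → 0 ≤ ε₂ →
  (∀ F : Fr D d, F.k = k → ∀ (Ω : Finset (Pt d)) (R : Bx D), Val R → N ≤ psi R →
    psi R ≤ 2 * N → Pr Ω p (IFl F R) ≤ ε₁) →
  (∀ (Ω : Finset (Pt d)) (Θ : Finset (Fin d)) (c : Fin d → ℤ) (Y : Bx d) (t : Fin d),
    Θ.card = d - D → t ∈ Θ → (boxes Y).card ≤ (2 * N + 1 + k) ^ (2 * d) →
    Pr Ω p (Ev (thS (d - D + 2) k Θ c)
      fun _ P => P ≤ Y ∧ P (t, true) = c t + k - 1 ∧ P (t, false) = - c t) ≤ ε₂) →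
  H1 d (d - D + 2) k (d - D) p (N + d * k) ((2 * N + 1 : ℝ) ^ D * (2 ^ d * ε₁ + d * ε₂))

def BaseP (d r : ℕ) (lam : ℝ) (err : ℝ → ℝ) : Prop := ∀ χ : ℝ, 0 < χ →
  ∃ C q₀ : ℝ, 0 ≤ C ∧ 0 < q₀ ∧ ∀ q : ℝ, 0 < q → q ≤ q₀ → ∃ k s : ℕ, 2 ≤ k ∧
    (k : ℝ) ≤ 1 / q ^ 2 ∧ (s : ℝ) ≤ 1 / q ^ 3 ∧
    H1 d r k (r - 2) (1 - Real.exp (- q ^ (d - r + 1))) s
      (Real.exp (- ((d - r + 2 : ℕ) * lam / q) + err q + C * Real.log (1 / q))) ∧
    H2 d r k (r - 2) (1 - Real.exp (- q ^ (d - r + 1))) s χ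

def RBase : Prop := ∀ (d r : ℕ) (lam : ℝ) (err : ℝ → ℝ), 2 ≤ r → r ≤ d →
  (∀ q : ℝ, 0 < q → q ≤ 1 → 0 ≤ err q) → DropP (d - r + 2) d lam err → BaseP d r lam err

/-! ### reduction of the dimension -/

def RGraph : Prop := ∀ (V : Type) (adj : V → V → Prop) (u v : V), Relation.ReflTransGen adj u v →
  ∃ (n : ℕ) (f : ℕ → V), f 0 = u ∧ f n = v ∧ (∀ t, t < n → adj (f t) (f (t + 1))) ∧
    ∀ s t, s ≤ n → t ≤ n → f s = f t → s = t

def RCover : Prop := ∀ (d r k g : ℕ) (Θ : Finset (Fin d)) (c : Fin d → ℤ) (i : Fin d) (z : ℤ)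
  (A K : Finset (Pt d)) (P Y : Bx d), Θ.card + 3 ≤ r → 2 ≤ k → i ∉ Θ →
  Fill (thS r k Θ c) A K P → P ≤ Y → InS k Θ c Y →
  ∃ I : Finset (ℕ × Finset (Pt d) × Finset (Pt d) × Bx d),
    (∀ u ∈ I, u.1 < g ∧ u.2.1 ⊆ A.filter (fun x => z ≤ x i ∧ x i < z + g * k) ∧
      Fill (thS r k (insert i Θ) (off k c i z u.1)) u.2.1 u.2.2.1 u.2.2.2 ∧ u.2.2.2 ≤ Y ∧
      InS k (insert i Θ) (off k c i z u.1) u.2.2.2) ∧
    (∀ u ∈ I, ∀ v ∈ I, u ≠ v → Disjoint u.2.1 v.2.1) ∧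
    ∀ x ∈ K, z ≤ x i → x i < z + g * k → ∃ u ∈ I, x ∈ u.2.2.1

def RDet : Prop := ∀ (d r k g s : ℕ) (Θ : Finset (Fin d)) (c : Fin d → ℤ) (i : Fin d) (z : ℤ)
  (A K : Finset (Pt d)) (P Y : Bx d), Θ.card + 3 ≤ r → 2 ≤ k → 1 ≤ g → i ∉ Θ →
  Fill (thS r k Θ c) A K P → P ≤ Y → InS k Θ c Y →
  (- P (i, false) ≤ z → z + g * k - 1 ≤ P (i, true) →
    (∃ n : ℕ, n < g ∧ BigS r k Θ c i z s Y n (A.filter fun x => z ≤ x i ∧ x i < z + g * k)) ∨
    ∃ x y : Pt d, InB x Y ∧ z ≤ x i ∧ x i < z + k ∧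
      Pth r k Θ c i z s x (g - 1) y (A.filter fun x => z ≤ x i ∧ x i < z + g * k)) ∧
  (z ≤ - P (i, false) → P (i, true) ≤ z + g * k - 1 → ∀ x ∈ K, ∀ y ∈ K,
    (∃ n : ℕ, n < g ∧ BigS r k Θ c i z s Y n A) ∨ ∃ n, Pth r k Θ c i z s x n y A)

def RPath : Prop := ∀ (d r k s : ℕ) (Θ : Finset (Fin d)) (c : Fin d → ℤ) (i : Fin d) (z : ℤ)
  (x : Pt d), Θ.card + 3 ≤ r → 1 ≤ k → i ∉ Θ →
  (∀ (n : ℕ) (y : Pt d), Incr (Pth r k Θ c i z s x n y) ∧
    ∀ W, Pth r k Θ c i z s x n y W → dst x y ≤ (n + 1) * (s + 2) ∧ n < W.card) ∧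
  ∀ (Ω : Finset (Pt d)) (p χ : ℝ), 0 ≤ p → p ≤ 1 / 2 → 0 ≤ χ → 5 ^ d * χ ≤ 1 / 2 →
    H2 d r k (Θ.card + 1) p s χ → ∀ (n : ℕ) (Z : Finset (Pt d)),
      ∑ y ∈ Z, Pr Ω p (Pth r k Θ c i z s x n y) ≤ χ * (1 / 2) ^ n

/-- hypotheses of one reduction step -/
def Red (d r k j : ℕ) (p : ℝ) (s : ℕ) (ε χ : ℝ) (g m : ℕ) : Prop :=
  j + 3 ≤ r ∧ r ≤ d ∧ 2 ≤ k ∧ 0 ≤ p ∧ p ≤ 1 / 2 ∧ 0 ≤ ε ∧ 0 ≤ χ ∧ 5 ^ d * χ ≤ 1 / 2 ∧ 1 ≤ g ∧
  H1 d r k (j + 1) p s ε ∧ H2 d r k (j + 1) p s χ ∧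
  g * ((m : ℝ) ^ (d - (j + 1)) * k ^ (j + 1)) * ε ≤ 1 / 4 ∧
  (m : ℝ) ^ (d - (j + 1)) * k ^ (j + 1) * (1 / 2) ^ g ≤ 1 / 4

def RCrs : Prop := ∀ (d r k j : ℕ) (p : ℝ) (s : ℕ) (ε χ : ℝ) (g m : ℕ), Red d r k j p s ε χ g m →
  ∀ (Ω : Finset (Pt d)) (Θ : Finset (Fin d)) (c : Fin d → ℤ) (i : Fin d) (z : ℤ) (Y : Bx d)
    (n : ℕ), Θ.card = j → i ∉ Θ → InS k Θ c Y → (∀ l, ex Y l + 1 ≤ m) →
    Pr Ω p (Ev (thS r k Θ c)
      fun _ P => P ≤ Y ∧ - P (i, false) ≤ z ∧ z + n * (g * k) - 1 ≤ P (i, true)) ≤ (1 / 2) ^ n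

def RRed1 : Prop := ∀ (d r k j : ℕ) (p : ℝ) (s : ℕ) (ε χ : ℝ) (g m s' n : ℕ),
  Red d r k j p s ε χ g m → 1 ≤ s' → 2 * s' + 1 ≤ m → n * (d * g * k) ≤ s' →
  H1 d r k j p s' ((2 * s' + 1 : ℝ) ^ d * (1 / 2) ^ n)

def RRed2 : Prop := ∀ (d r k j : ℕ) (p : ℝ) (s : ℕ) (ε χ τ : ℝ) (g m s' t₁ : ℕ),
  Red d r k j p s ε χ g m → s' ≤ m → 1 ≤ t₁ → 0 ≤ τ →
  (∀ t : ℕ, t₁ ≤ t → ((t : ℝ) + 1) ^ (3 * d + 2) * (1 / 2) ^ (t / (d * g * k)) ≤ τ) →
  H2 d r k j p s' (2 * χ + (2 * t₁ + 1 : ℝ) ^ (2 * d + 1) * ε + τ)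

def RStep2 : Prop := ∀ d : ℕ, ∃ m₀ : ℕ, ∀ (r k j : ℕ) (p : ℝ) (m m' : ℕ), j + 3 ≤ r → r ≤ d →
  2 ≤ k → 0 ≤ p → p ≤ 1 / 2 → m₀ ≤ m → m ≤ m' →
  Real.log m' ≤ m / (k * Real.log m) ^ 2 → GG d r k (j + 1) p m → GG d r k j p m'

def RTower : Prop :=
  (∀ (l : ℕ) (X : ℝ), ∃ n₀ : ℕ, ∀ n : ℕ, n₀ ≤ n → X ≤ Real.log^[l] (n : ℝ)) ∧
  ∀ l m₀ : ℕ, ∃ n₀ : ℕ, ∀ n : ℕ, n₀ ≤ n → ∀ k : ℕ, 2 ≤ k →
    (k : ℝ) ≤ Real.log^[l + 1] (n : ℝ) ^ 3 → ∃ m : ℕ → ℕ, m 0 = n ∧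
      (∀ j, j < l → m₀ ≤ m (j + 1) ∧ m (j + 1) ≤ m j ∧
        Real.log (m j) ≤ m (j + 1) / (k * Real.log (m (j + 1))) ^ 2) ∧
      Real.log^[l + 1] (n : ℝ) ≤ Real.log (m l) ∧
      Real.log (m l) ≤ Real.log^[l + 1] (n : ℝ) + 13 * Real.log (Real.log^[l + 1] (n : ℝ))

def RTop : Prop := ∀ (d r k n s : ℕ) (p ε : ℝ), 2 ≤ r → 2 ≤ d → 2 ≤ n → s ≤ n → 0 ≤ p → p ≤ 1 →
  H1 d r k 0 p s ε → Pr (univ : Finset (Fin d → Fin n)) p (PercR d n r) ≤ ε * (n : ℝ) ^ d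

def RPerc : Prop := ∀ (d r : ℕ) (lam : ℝ) (err : ℝ → ℝ), 2 ≤ r → r ≤ d → 0 < lam →
  (∀ q : ℝ, 0 < q → q ≤ 1 → 0 ≤ err q) → BaseP d r lam err →
  ∃ (C q₀ : ℝ) (n₀ : ℕ), 0 ≤ C ∧ 0 < q₀ ∧ ∀ q : ℝ, 0 < q → q ≤ q₀ → ∀ n : ℕ, n₀ ≤ n →
    Real.log^[r - 1] (n : ℝ) + err q + C * Real.log (1 / q) ≤ lam / q →
    lam / q ≤ 2 * Real.log^[r - 1] (n : ℝ) →
    Pr (univ : Finset (Fin d → Fin n)) (1 - Real.exp (- q ^ (d - r + 1))) (PercR d n r) < 1 / 2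

/-- the final statement with the exponent `e` of the logarithm -/
def FinalG (e : ℕ) : Prop := ∀ d r : ℕ, 2 ≤ r → r ≤ d → ∃ C : ℝ, ∃ n₀ : ℕ, ∀ n : ℕ, n₀ ≤ n →
  lamk d r / Real.log^[r - 1] (n : ℝ) -
    (sInf {p : ℝ | 0 ≤ p ∧ p ≤ 1 ∧
      (1 / 2 : ℝ) ≤ Pr (univ : Finset (Fin d → Fin n)) p (PercR d n r)}) ^ (1 / ((d : ℝ) - r + 1))
    ≤ C * Real.log (Real.log^[r - 1] (n : ℝ)) ^ e / Real.log^[r - 1] (n : ℝ) ^ (3 / 2 : ℝ)

def RFinal : Prop := ∀ e : ℕ, (∀ d r : ℕ, 2 ≤ r → r ≤ d → ∃ C : ℝ, 0 ≤ C ∧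
    DropP (d - r + 2) d (lamk d r) fun q => C * Real.log (1 / q) ^ e / Real.sqrt q) → FinalG e

/-! ### bundles of hypotheses -/

def SOld : Prop := SPrA ∧ SPrB ∧ SBK ∧ SGeoA ∧ SGeoB ∧ SSeed ∧ SWsum ∧ SPotA ∧ SPotB

def RGeo : Prop := RGap ∧ RFill ∧ RFam ∧ RCut ∧ RLiftA ∧ RLiftB ∧ RLowC ∧ RBoxC ∧ RUni

def RAna : Prop := RBet ∧ RSlope ∧ RNum

end Pool.Agent.MP_6d294b_pr

end

section

/-! Basic facts on filled clusters. -/

open Finset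

namespace Pool.Agent.MP_6d294b_pr

section
variable {d : ℕ} {θ : Pt d → ℕ} {A K : Finset (Pt d)} {P : Bx d}

theorem mono_RFill {x : Pt d} {Q P : Bx d} (h : InB x Q) (hl : Q ≤ P) : InB x P :=
  fun s => (h s).trans (hl s)

theorem new_RFill (h0 : RGap) (hθ : ∀ v, 2 ≤ θ v) {v : Pt d} (hK : ∀ x ∈ K, InB x P)
    (hv : θ v ≤ nb v K) : InB v P ∧ ∃ u ∈ K, dst u v = 1 := by
  have h1 : 1 < (K.filter fun u => dst u v = 1).card := lt_of_lt_of_le (by omega) ((hθ v).trans hv)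
  obtain ⟨u, hu, u', hu', hne⟩ := Finset.one_lt_card.1 h1
  rw [mem_filter] at hu hu'
  exact ⟨(h0 d).2.2.2.2.2.2.2.1 P u u' v hne hu.2 hu'.2 (hK u hu.1) (hK u' hu'.1), u, hu.1, hu.2⟩

theorem inb_RFill (h0 : RGap) (hθ : ∀ v, 2 ≤ θ v) (h : Fill θ A K P) : ∀ x ∈ K, InB x P := by
  induction h with
  | pt x =>
    intro y hy
    rw [mem_singleton.1 hy]
    exact fun s => le_rfl
  | merge _ _ _ _ _ _ ih1 ih2 =>
    intro z hz
    rcases mem_union.1 hz with hz | hz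
    · exact mono_RFill (ih1 z hz) le_sup_left
    · exact mono_RFill (ih2 z hz) le_sup_right
  | add _ hv ih =>
    intro z hz
    rcases mem_insert.1 hz with rfl | hz
    · exact (new_RFill h0 hθ ih hv).1
    · exact ih z hz

theorem span_RFill (h0 : RGap) (hθ : ∀ v, 2 ≤ θ v) (h : Fill θ A K P) : Span A P := by
  induction h with
  | pt x => exact Span.pt x
  | merge h1 h2 hd hx hy hxy ih1 ih2 =>
    exact Span.merge ih1 ih2 hd
      (((h0 d).2.2.2.1 _ _ _ _ (inb_RFill h0 hθ h1 _ hx) (inb_RFill h0 hθ h2 _ hy)).trans hxy)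
  | add _ _ ih => exact ih

theorem sub_RFill (h : Fill θ A K P) : A ⊆ K := by
  induction h with
  | pt x => exact Subset.rfl
  | merge _ _ _ _ _ _ ih1 ih2 => exact union_subset_union ih1 ih2
  | add _ _ ih => exact ih.trans (subset_insert _ _)

theorem ne_RFill (h : Fill θ A K P) : A.Nonempty := by
  induction h with
  | pt x => exact singleton_nonempty x
  | merge _ _ _ _ _ _ ih1 _ => exact ih1.mono subset_union_left
  | add _ _ ih => exact ih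

theorem top_RFill (h : Fill θ A K P) : ∀ s, ∃ x ∈ A, kap s x = P s := by
  induction h with
  | pt x => exact fun s => ⟨x, mem_singleton_self x, rfl⟩
  | @merge A B K L Q P x y _ _ _ _ _ _ ih1 ih2 =>
    intro s
    rcases le_total (Q s) (P s) with h | h
    · obtain ⟨z, hz, e⟩ := ih2 s
      exact ⟨z, mem_union_right _ hz, by rw [e, Pi.sup_apply, sup_eq_right.2 h]⟩
    · obtain ⟨z, hz, e⟩ := ih1 s
      exact ⟨z, mem_union_left _ hz, by rw [e, Pi.sup_apply, sup_eq_left.2 h]⟩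
  | add _ _ ih => exact ih

theorem conn_RFill (h0 : RGap) (hθ : ∀ v, 2 ≤ θ v) (h : Fill θ A K P) (φ : Pt d → Prop) :
    (∀ x ∈ K, ∀ y ∈ K, dst x y ≤ 2 → φ x → φ y) → ∀ x ∈ K, ∀ y ∈ K, φ x → φ y := by
  induction h with
  | pt x =>
    intro _ a ha b hb hφ
    rw [mem_singleton] at ha hb
    rw [hb, ← ha]; exact hφ
  | @merge A B K L Q P x y _ _ _ hx hy hxy ih1 ih2 =>
    intro H
    have i1 := ih1 fun a ha b hb => H a (mem_union_left _ ha) b (mem_union_left _ hb)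
    have i2 := ih2 fun a ha b hb => H a (mem_union_right _ ha) b (mem_union_right _ hb)
    have l1 : φ x → φ y := H x (mem_union_left _ hx) y (mem_union_right _ hy) hxy
    have l2 : φ y → φ x := H y (mem_union_right _ hy) x (mem_union_left _ hx)
      (by rw [(h0 d).1 y x]; exact hxy)
    intro a ha b hb hφ
    rcases mem_union.1 ha with ha | ha <;> rcases mem_union.1 hb with hb | hb
    · exact i1 a ha b hb hφ
    · exact i2 y hy b hb (l1 (i1 a ha x hx hφ))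
    · exact i1 x hx b hb (l2 (i2 a ha y hy hφ))
    · exact i2 a ha b hb hφ
  | @add A K P v h1 hv ih =>
    intro H
    have i1 := ih fun a ha b hb => H a (mem_insert_of_mem ha) b (mem_insert_of_mem hb)
    obtain ⟨-, u, hu, huv⟩ := new_RFill h0 hθ (inb_RFill h0 hθ h1) hv
    have l1 : φ u → φ v := H u (mem_insert_of_mem hu) v (mem_insert_self _ _) (by omega)
    have l2 : φ v → φ u := H v (mem_insert_self _ _) u (mem_insert_of_mem hu)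
      (by rw [(h0 d).1 v u]; omega)
    intro a ha b hb hφ
    have c1 : φ u := by
      rcases mem_insert.1 ha with h | h
      · exact l2 (h ▸ hφ)
      · exact i1 a h u hu hφ
    rcases mem_insert.1 hb with h | h
    · exact h ▸ l1 c1
    · exact i1 u hu b h c1

theorem thr_RFill (h0 : RGap) (hθ : ∀ v, 2 ≤ θ v) (h : Fill θ A K P) (θ' : Pt d → ℕ) :
    (∀ v, InB v P → θ' v ≤ θ v) → Fill θ' A K P := by
  induction h with
  | pt x => exact fun _ => Fill.pt x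
  | merge _ _ hd hx hy hxy ih1 ih2 =>
    exact fun H => Fill.merge (ih1 fun v hv => H v (mono_RFill hv le_sup_left))
      (ih2 fun v hv => H v (mono_RFill hv le_sup_right)) hd hx hy hxy
  | add h1 hv ih =>
    exact fun H => Fill.add (ih H)
      ((H _ (new_RFill h0 hθ (inb_RFill h0 hθ h1) hv).1).trans hv)

theorem al_RFill (hG : SGeoA) (h0 : RGap) (hθ : ∀ v, 2 ≤ θ v) (h : Fill θ A K P)
    (μ : Bx d → ℕ) (N : ℕ) (hp : ∀ x, μ (ptB x) = 0)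
    (hm : ∀ Q Q' : Bx d, Val Q → Val Q' → gap Q Q' ≤ 2 → μ (Q ⊔ Q') ≤ μ Q + μ Q' + 2)
    (hN : 1 ≤ N) : N ≤ μ P → ∃ (A' K' : Finset (Pt d)) (P' : Bx d), A' ⊆ A ∧ Fill θ A' K' P' ∧
      P' ≤ P ∧ N ≤ μ P' ∧ μ P' ≤ 2 * N := by
  induction h with
  | pt x =>
    intro h
    rw [hp] at h
    omega
  | @merge A B K L Q P x y h1 h2 hd hx hy hxy ih1 ih2 =>
    intro h
    by_cases c1 : N ≤ μ Q
    · obtain ⟨A', K', P', a1, a2, a3, a4⟩ := ih1 c1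
      exact ⟨A', K', P', a1.trans subset_union_left, a2, a3.trans le_sup_left, a4⟩
    by_cases c2 : N ≤ μ P
    · obtain ⟨A', K', P', a1, a2, a3, a4⟩ := ih2 c2
      exact ⟨A', K', P', a1.trans subset_union_right, a2, a3.trans le_sup_right, a4⟩
    have := hm Q P ((hG d).1 _ _ (span_RFill h0 hθ h1)).1 ((hG d).1 _ _ (span_RFill h0 hθ h2)).1
      (((h0 d).2.2.2.1 _ _ _ _ (inb_RFill h0 hθ h1 _ hx) (inb_RFill h0 hθ h2 _ hy)).trans hxy)
    exact ⟨_, _, _, Subset.rfl, Fill.merge h1 h2 hd hx hy hxy, le_rfl, h, by omega⟩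
  | add _ _ ih => exact ih

end

theorem rFill (hO : SOld) (h0 : RGap) : RFill := fun _ _ hθ _ _ _ h =>
  ⟨span_RFill h0 hθ h, sub_RFill h, ne_RFill h, inb_RFill h0 hθ h, top_RFill h,
    conn_RFill h0 hθ h, thr_RFill h0 hθ h,
    fun μ N hp hm hN => al_RFill hO.2.2.2.1 h0 hθ h μ N hp hm hN⟩

end Pool.Agent.MP_6d294b_pr

end

section

open Finset

namespace Pool.Agent.MP_6d294b_pr

theorem geo_RBoxC {ι : Type} [Fintype ι] [DecidableEq ι] (N : ℕ) :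
    ∑ y ∈ Fintype.piFinset (fun _ : ι => range N), (1 / 2 : ℝ) ^ (∑ i, y i) ≤
      2 ^ Fintype.card ι := by
  simp only [← prod_pow_eq_pow_sum]
  rw [← Finset.prod_univ_sum (fun _ : ι => range N) (fun _ k => (1 / 2 : ℝ) ^ k)]
  calc ∏ _i : ι, ∑ k ∈ range N, (1 / 2 : ℝ) ^ k ≤ ∏ _i : ι, (2 : ℝ) :=
        prod_le_prod (fun _ _ => sum_nonneg fun _ _ => by positivity)
          (fun _ _ => sum_geometric_two_le N)
    _ = 2 ^ Fintype.card ι := by rw [prod_const, card_univ]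

theorem gen_RBoxC {ι α β : Type} [Fintype ι] [DecidableEq ι] [DecidableEq α] (X : Finset β)
    (T : Finset α) (a : β → α) (y : β → ι → ℕ) (w : β → ℕ) (ha : ∀ P ∈ X, a P ∈ T)
    (hw : ∀ P ∈ X, w P = ∑ i, y P i)
    (hinj : ∀ P ∈ X, ∀ Q ∈ X, a P = a Q → y P = y Q → P = Q) :
    ∑ P ∈ X, (1 / 2 : ℝ) ^ w P ≤ 2 ^ Fintype.card ι * T.card ∧
      ∀ n : ℕ, (∀ P ∈ X, w P ≤ n) → X.card ≤ T.card * (n + 1) ^ Fintype.card ι := by
  have hi : Set.InjOn (fun P => (a P, y P)) X := fun P hP Q hQ h =>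
    hinj P hP Q hQ (congrArg Prod.fst h) (congrArg Prod.snd h)
  have hsub : ∀ n : ℕ, (∀ P ∈ X, w P ≤ n) → X.image (fun P => (a P, y P)) ⊆
      T ×ˢ Fintype.piFinset (fun _ : ι => range (n + 1)) := by
    intro n hn z hz
    obtain ⟨P, hP, rfl⟩ := mem_image.1 hz
    refine mem_product.2 ⟨ha P hP, Fintype.mem_piFinset.2 fun i => mem_range.2 ?_⟩
    have h1 : y P i ≤ ∑ i, y P i := single_le_sum (f := y P) (fun _ _ => Nat.zero_le _) (mem_univ i)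
    have h2 := hn P hP
    rw [hw P hP] at h2
    show y P i < n + 1
    omega
  constructor
  · have h1 := hsub (X.sup w) (fun P hP => le_sup hP)
    calc ∑ P ∈ X, (1 / 2 : ℝ) ^ w P
        = ∑ P ∈ X, (fun z : α × (ι → ℕ) => (1 / 2 : ℝ) ^ (∑ i, z.2 i)) (a P, y P) :=
          sum_congr rfl fun P hP => by rw [hw P hP]
      _ = ∑ z ∈ X.image (fun P => (a P, y P)), (1 / 2 : ℝ) ^ (∑ i, z.2 i) :=
          (sum_image (f := fun z : α × (ι → ℕ) => (1 / 2 : ℝ) ^ (∑ i, z.2 i)) hi).symm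
      _ ≤ ∑ z ∈ T ×ˢ Fintype.piFinset (fun _ : ι => range (X.sup w + 1)),
            (1 / 2 : ℝ) ^ (∑ i, z.2 i) :=
          sum_le_sum_of_subset_of_nonneg h1 fun _ _ _ => by positivity
      _ ≤ ∑ _t ∈ T, (2 : ℝ) ^ Fintype.card ι := by
          rw [sum_product]
          exact sum_le_sum fun _ _ => geo_RBoxC _
      _ = 2 ^ Fintype.card ι * T.card := by rw [sum_const, nsmul_eq_mul, mul_comm]
  · intro n hn
    have h1 := card_le_card (hsub n hn)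
    rwa [card_image_of_injOn hi, card_product, Fintype.card_piFinset, prod_const, card_range,
      card_univ] at h1

theorem inj_RBoxC {d : ℕ} (σ : Bool) {P Q : Bx d} (hP : Val P) (hQ : Val Q)
    (h1 : (fun i => P (i, σ)) = fun i => Q (i, σ)) (h2 : ex P = ex Q) : P = Q := by
  funext ⟨i, b⟩
  have a1 := congrFun h1 i
  have a2 := congrFun h2 i
  have a3 := hP i
  have a4 := hQ i
  simp only [ex] at a1 a2
  cases σ <;> cases b <;> omega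

theorem mem_RBoxC {d : ℕ} (σ : Bool) {P B : Bx d} (hP : Val P) (hB : P ≤ B) (i : Fin d) :
    P (i, σ) ∈ Icc (- B (i, !σ)) (B (i, σ)) := by
  have a1 : P (i, true) ≤ B (i, true) := hB (i, true)
  have a2 : P (i, false) ≤ B (i, false) := hB (i, false)
  have a3 := hP i
  rw [mem_Icc]
  cases σ
  · simp only [Bool.not_false]
    omega
  · simp only [Bool.not_true]
    omega

theorem card_RBoxC {d : ℕ} (σ : Bool) (B : Bx d) (i : Fin d) :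
    (Icc (- B (i, !σ)) (B (i, σ))).card ≤ ex B i + 1 := by
  rw [Int.card_Icc]
  unfold ex
  cases σ
  · simp only [Bool.not_false]
    omega
  · simp only [Bool.not_true]
    omega

theorem psi_RBoxC {d : ℕ} {x : Pt d} {P : Bx d} (h : InB x P) :
    psi P = ∑ s, (P s - kap s x).toNat := by
  rw [Fintype.sum_prod_type]
  refine sum_congr rfl fun i _ => ?_
  have a1 := h (i, true)
  have a2 := h (i, false)
  simp only [kap, ex, Fintype.sum_bool, if_true, Bool.false_eq_true, if_false] at a1 a2 ⊢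
  omega

theorem cardS_RBoxC (d : ℕ) : Fintype.card (Sd d) = 2 * d := by
  simp [mul_comm]

theorem ex_le_RBoxC {d : ℕ} (P : Bx d) (i : Fin d) : ex P i ≤ psi P :=
  single_le_sum (f := ex P) (fun _ _ => Nat.zero_le _) (mem_univ i)

theorem rBoxC (hO : SOld) (h0 : RGap) : RBoxC := by
  classical
  intro d
  refine ⟨fun B X hX => ?_, fun x X hX => ?_, fun x t => ?_, fun P => ?_, fun m => ?_⟩
  · have hT : (Fintype.piFinset fun i => Icc (- B (i, !true)) (B (i, true))).card ≤ volB B := by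
      rw [Fintype.card_piFinset]
      exact prod_le_prod' fun i _ => card_RBoxC true B i
    obtain ⟨a1, a2⟩ := gen_RBoxC X (Fintype.piFinset fun i => Icc (- B (i, !true)) (B (i, true)))
      (fun P i => P (i, true)) ex psi
      (fun P hP => Fintype.mem_piFinset.2 (mem_RBoxC true (hX P hP).1 (hX P hP).2))
      (fun _ _ => rfl) (fun P hP Q hQ => inj_RBoxC true (hX P hP).1 (hX Q hQ).1)
    rw [Fintype.card_fin] at a1 a2
    refine ⟨a1.trans (mul_le_mul_of_nonneg_left (Nat.cast_le.2 hT) (by positivity)),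
      fun s j hj => ?_, fun n hn => (a2 n hn).trans (Nat.mul_le_mul_right _ hT)⟩
    obtain ⟨k, σ⟩ := s
    let I : Fin d → Finset ℤ := fun i =>
      if i = k then Ioc j (B (k, σ)) else Icc (- B (i, !σ)) (B (i, σ))
    have hT' : (Fintype.piFinset I).card ≤ (B (k, σ) - j).toNat * sg (ex B) k := by
      rw [Fintype.card_piFinset, ← mul_prod_erase univ _ (mem_univ k)]
      refine Nat.mul_le_mul (by simp [I]) (prod_le_prod' fun i hi => ?_)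
      simp only [I, if_neg (mem_erase.1 hi).1]
      exact card_RBoxC σ B i
    obtain ⟨a3, _⟩ := gen_RBoxC X (Fintype.piFinset I) (fun P i => P (i, σ)) ex psi
      (fun P hP => Fintype.mem_piFinset.2 fun i => by
        by_cases h : i = k
        · subst h
          simp only [I, if_true]
          exact mem_Ioc.2 ⟨hj P hP, (hX P hP).2 _⟩
        · simp only [I, if_neg h]
          exact mem_RBoxC σ (hX P hP).1 (hX P hP).2 i)
      (fun _ _ => rfl) (fun P hP Q hQ => inj_RBoxC σ (hX P hP).1 (hX Q hQ).1)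
    rw [Fintype.card_fin] at a3
    exact a3.trans (mul_le_mul_of_nonneg_left (Nat.cast_le.2 hT') (by positivity))
  · obtain ⟨a1, _⟩ := gen_RBoxC X ({()} : Finset Unit) (fun _ => ())
      (fun P s => (P s - kap s x).toNat) psi (fun _ _ => mem_singleton_self _)
      (fun P hP => psi_RBoxC (hX P hP)) (fun P hP Q hQ _ h => by
        funext s
        have a1 := congrFun h s
        have a2 := hX P hP s
        have a3 := hX Q hQ s
        omega)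
    rw [cardS_RBoxC] at a1
    simpa using a1
  · refine ⟨(Fintype.piFinset fun _ : Sd d => range (t + 1)).image
      (fun y s => kap s x + (y s : ℤ)), ?_, fun P hP ht => ?_⟩
    · refine card_image_le.trans (le_of_eq ?_)
      rw [Fintype.card_piFinset, prod_const, card_range, card_univ, cardS_RBoxC]
    · refine mem_image.2 ⟨fun s => (P s - kap s x).toNat, Fintype.mem_piFinset.2 fun s => ?_, ?_⟩
      · have a1 : (P s - kap s x).toNat ≤ ∑ s, (P s - kap s x).toNat :=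
          single_le_sum (f := fun s => (P s - kap s x).toNat) (fun _ _ => Nat.zero_le _)
            (mem_univ s)
        rw [← psi_RBoxC hP] at a1
        exact mem_range.2 (by omega)
      · funext s
        have := hP s
        show kap s x + (((P s - kap s x).toNat : ℕ) : ℤ) = P s
        omega
  · refine ⟨?_, fun i => ⟨?_, ?_, ex_le_RBoxC P i⟩, ?_, fun hd => ?_⟩
    · have := prod_le_pow_card univ (fun i => ex P i + 1) (psi P + 1)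
        (fun i _ => Nat.succ_le_succ (ex_le_RBoxC P i))
      rwa [card_univ, Fintype.card_fin] at this
    · unfold volB sg
      rw [prod_erase_mul univ (fun i => ex P i + 1) (mem_univ i)]
    · have := prod_le_pow_card (univ.erase i) (fun i => ex P i + 1) (psi P + 1)
        (fun i _ => Nat.succ_le_succ (ex_le_RBoxC P i))
      rwa [card_erase_of_mem (mem_univ i), card_univ, Fintype.card_fin] at this
    · refine ⟨Fintype.piFinset fun i => Icc (- P (i, !true)) (P (i, true)), ?_, fun x => ?_⟩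
      · rw [Fintype.card_piFinset]
        exact prod_le_prod' fun i _ => card_RBoxC true P i
      · rw [Fintype.mem_piFinset]
        constructor
        · rintro h ⟨i, b⟩
          have := mem_Icc.1 (h i)
          simp only [Bool.not_true] at this
          cases b
          · simp only [kap, Bool.false_eq_true, if_false]
            omega
          · simp only [kap, if_true]
            omega
        · intro h i
          have a1 := h (i, true)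
          have a2 := h (i, false)
          simp only [kap, if_true, Bool.false_eq_true, if_false] at a1 a2
          simp only [Bool.not_true]
          exact mem_Icc.2 ⟨by omega, a1⟩
    · have : Nonempty (Fin d) := ⟨⟨0, hd⟩⟩
      obtain ⟨i, _, hi⟩ := exists_max_image univ (ex P) univ_nonempty
      refine ⟨i, ?_⟩
      have := sum_le_card_nsmul univ (ex P) (ex P i) hi
      rwa [card_univ, Fintype.card_fin, smul_eq_mul] at this
  · obtain ⟨C, hC⟩ := (tendsto_pow_const_mul_const_pow_of_abs_lt_one m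
      (r := (1 / 2 : ℝ)) (by norm_num [abs_of_pos])).bddAbove_range
    have h1 : ∀ n : ℕ, (n : ℝ) ^ m * (1 / 2) ^ n ≤ C := fun n => hC ⟨n, rfl⟩
    refine ⟨8 * C, mul_nonneg (by norm_num) (le_trans (by positivity) (h1 0)), fun t => ?_⟩
    have h2 := h1 (t + 3)
    push_cast at h2
    have h3 : ((t : ℝ) + 3) ^ m * (1 / 4) ^ t =
        8 * (((t : ℝ) + 3) ^ m * (1 / 2) ^ (t + 3)) * (1 / 2) ^ t := by
      rw [show (1 / 4 : ℝ) = 1 / 2 * (1 / 2) by norm_num, mul_pow, pow_add]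
      ring
    rw [h3]
    exact mul_le_mul_of_nonneg_right (by linarith) (by positivity)

end Pool.Agent.MP_6d294b_pr

end

section

open Finset

namespace Pool.Agent.MP_6d294b_pr

theorem psi_pt_RUni {d : ℕ} (x : Pt d) : psi (ptB x) = 0 := by
  unfold psi
  refine Finset.sum_eq_zero fun i _ => ?_
  simp [ex, ptB, kap]

theorem one_RUni (hA : SPrA) (hG : SGeoA) (hX : RBoxC) (d : ℕ) (Ω : Finset (Pt d)) (p : ℝ)
    (hp0 : 0 ≤ p) (hp1 : p ≤ 1) (P : Bx d) (x : ℝ) (hx : 1 ≤ x) (hψ : 1 ≤ psi P)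
    (h : 16 * ((psi P : ℝ) + 1) ^ d * p * x ^ 2 ≤ 1) :
    Pr Ω p (ISp P) * x ^ (psi P + 2) ≤
      16 * (((psi P : ℝ) + 1) ^ d * p * x ^ 2) ^ 2 * (1 / 4) ^ psi P := by
  classical
  obtain ⟨-, -, hmono, -, -, hch⟩ := hA (Pt d) Ω p hp0 hp1
  obtain ⟨hv, -, ⟨X, hXc, hXm⟩, -⟩ := (hX d).2.2.2.1 P
  obtain ⟨k, hk⟩ : ∃ k, k + 1 = (psi P + 1) / 2 := ⟨(psi P + 1) / 2 - 1, by omega⟩
  have hc : (X.card : ℝ) ≤ ((psi P : ℝ) + 1) ^ d := by exact_mod_cast hXc.trans hv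
  have h3 : Pr Ω p (ISp P) ≤ (((psi P : ℝ) + 1) ^ d * p) ^ (k + 2) := by
    refine (hmono _ (fun A => k + 2 ≤ (A ∩ X).card) ?_).trans ((hch X (k + 2)).trans ?_)
    · rintro A - ⟨B, hBA, hS⟩
      obtain ⟨-, hin, hps, -⟩ := (hG d).1 B P hS
      have : B.card ≤ (A ∩ X).card := Finset.card_le_card (fun y hy =>
        Finset.mem_inter.2 ⟨hBA hy, (hXm y).2 (hin y hy)⟩)
      omega
    · have h1 : (X.card.choose (k + 2) : ℝ) ≤ (X.card : ℝ) ^ (k + 2) := by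
        exact_mod_cast Nat.choose_le_pow X.card (k + 2)
      rw [mul_pow]
      gcongr
      exact h1.trans (by gcongr)
  set y : ℝ := ((psi P : ℝ) + 1) ^ d * p * x ^ 2 with hy
  have hy0 : 0 ≤ y := by positivity
  have hy1 : y ≤ 1 / 16 := by
    rw [hy]
    nlinarith
  have h4 : x ^ (psi P + 2) ≤ (x ^ 2) ^ (k + 2) := by
    rw [← pow_mul]
    exact pow_le_pow_right₀ hx (by omega)
  have h5 : y ^ k ≤ 16 * (1 / 4) ^ psi P := by
    refine (pow_le_pow_left₀ hy0 hy1 k).trans ?_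
    have e : (1 / 16 : ℝ) ^ k = 16 * (1 / 4) ^ (2 * (k + 1)) := by
      rw [pow_mul, pow_succ]
      norm_num
      ring
    rw [e]
    gcongr 16 * ?_
    exact pow_le_pow_of_le_one (by norm_num) (by norm_num) (by omega)
  calc Pr Ω p (ISp P) * x ^ (psi P + 2)
      ≤ (((psi P : ℝ) + 1) ^ d * p) ^ (k + 2) * (x ^ 2) ^ (k + 2) := by
        refine mul_le_mul h3 h4 (by positivity) (by positivity)
    _ = y ^ 2 * y ^ k := by rw [← mul_pow, ← hy]; ring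
    _ ≤ y ^ 2 * (16 * (1 / 4) ^ psi P) := by gcongr
    _ = _ := by ring

theorem rUni (hO : SOld) (h1 : RFill) (hX : RBoxC) : RUni := by
  classical
  obtain ⟨hA, -, -, hG, -, hS, -⟩ := hO
  intro d Ω p hp0 hp1
  refine ⟨fun P x hx hψ h => one_RUni hA hG hX d Ω p hp0 hp1 P x hx hψ h, ?_⟩
  intro θ Y t c hθ ht hc h
  obtain ⟨-, -, hmono, -, hun, -⟩ := hA (Pt d) Ω p hp0 hp1
  set I := (boxes Y).filter (fun Q => t ≤ psi Q ∧ psi Q ≤ 2 * t) with hI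
  have hb : ∀ Q ∈ I, Pr Ω p (ISp Q) ≤ Real.exp (- (c * t)) * (1 / 4) ^ t := by
    intro Q hQ
    obtain ⟨-, q1, q2⟩ := Finset.mem_filter.1 hQ
    have hd : 0 < d := by
      rcases Nat.eq_zero_or_pos d with h0 | h0
      · subst h0
        simp [psi] at q1
        omega
      · exact h0
    have hs : (sg (ex Q) ⟨0, hd⟩ : ℝ) ≤ (2 * t + 1) ^ (d - 1) := by
      have := (((hX d).2.2.2.1 Q).2.1 ⟨0, hd⟩).2.1
      have h2 : (psi Q + 1) ^ (d - 1) ≤ (2 * t + 1) ^ (d - 1) :=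
        Nat.pow_le_pow_left (by omega) _
      exact_mod_cast this.trans h2
    have h3 := (hS d Ω p hp0 hp1 Q ⟨0, hd⟩ c hc).2 (le_trans (by gcongr) h)
    have h4 : p * (1 / 4 : ℝ) ^ psi Q ≤ (1 / 4) ^ t := by
      have : (1 / 4 : ℝ) ^ psi Q ≤ (1 / 4) ^ t :=
        pow_le_pow_of_le_one (by norm_num) (by norm_num) q1
      have h0 : (0 : ℝ) ≤ (1 / 4) ^ psi Q := by positivity
      nlinarith
    have h5 : Real.exp (c * t) ≤ Real.exp (c * psi Q) := by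
      have : (t : ℝ) ≤ psi Q := by exact_mod_cast q1
      gcongr
    have h6 := (hA (Pt d) Ω p hp0 hp1).1 (ISp Q)
    have h7 : Pr Ω p (ISp Q) * Real.exp (c * t) ≤ (1 / 4) ^ t :=
      (mul_le_mul_of_nonneg_left h5 h6).trans (h3.trans h4)
    rw [Real.exp_neg, mul_comm, ← div_eq_mul_inv, le_div_iff₀ (Real.exp_pos _)]
    exact h7
  refine (hmono _ (fun A => ∃ Q ∈ I, ISp Q A) ?_).trans ((hun _ I (fun Q => ISp Q)).trans ?_)
  · rintro A - ⟨B, K, P, hBA, hF, hPY, hP⟩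
    obtain ⟨A', K', P', a1, a2, a3, a4, a5⟩ := (h1 d θ hθ B K P hF).2.2.2.2.2.2.2 psi t
      psi_pt_RUni (fun Q Q' hQ hQ' hg => by
        have := ((hG d).2.2.2.2 Q Q' hQ hQ').2
        omega) ht hP
    have hsp := (h1 d θ hθ A' K' P' a2).1
    have hv := ((hG d).1 A' P' hsp).1
    exact ⟨P', Finset.mem_filter.2 ⟨((hG d).2.2.2.1 P' Y hv (a3.trans hPY)).2.2.2.2, a4, a5⟩,
      A', a1.trans hBA, hsp⟩
  · refine (Finset.sum_le_card_nsmul _ _ _ hb).trans ?_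
    rw [nsmul_eq_mul, mul_assoc]
    gcongr
    exact Finset.filter_subset _ _

end Pool.Agent.MP_6d294b_pr

end

section

open Finset

namespace Pool.Agent.MP_6d294b_pr

lemma one_RBet (k : ℕ) (u : ℝ) (h0 : 0 ≤ u) (h1 : u ≤ 1) :
    u ≤ betk k u ∧ betk k u ≤ 1 ∧
    betk k u ^ 2 = (1 - (1 - u) ^ k) * betk k u + (1 - u) ^ k * u := by
  have s0 : 0 ≤ (1 - u) ^ k := pow_nonneg (by linarith) k
  have s1 : (1 - u) ^ k ≤ 1 := pow_le_one₀ (by linarith) (by linarith)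
  unfold betk
  rw [pow_mul']
  generalize (1 - u) ^ k = s at *
  have hsu : 0 ≤ s * u := mul_nonneg s0 h0
  have hn : 0 ≤ 1 + (4 * u - 2) * s + s ^ 2 := by nlinarith [sq_nonneg (1 - s)]
  have hs := Real.sq_sqrt hn
  have a1 : 2 * u - 1 + s ≤ Real.sqrt (1 + (4 * u - 2) * s + s ^ 2) :=
    Real.le_sqrt_of_sq_le (by nlinarith)
  have a2 : Real.sqrt (1 + (4 * u - 2) * s + s ^ 2) ≤ 1 + s :=
    Real.sqrt_le_iff.2 ⟨by linarith, by nlinarith⟩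
  refine ⟨by linarith, by linarith, ?_⟩
  linear_combination hs / 4

theorem rBet : RBet := by
  intro k _
  refine ⟨one_RBet k, fun z hz => ?_⟩
  have hw0 : 0 < Real.exp (- z) := Real.exp_pos _
  have hw1 : Real.exp (- z) * (1 + z) ≤ 1 := by
    have := Real.add_one_le_exp z
    calc Real.exp (- z) * (1 + z) ≤ Real.exp (- z) * Real.exp z := by gcongr; linarith
      _ = 1 := by rw [← Real.exp_add]; simp
  unfold gk
  generalize Real.exp (- z) = w at *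
  have hu0 : 0 < 1 - w := by nlinarith
  obtain ⟨b1, b2, b3⟩ := one_RBet k (1 - w) hu0.le (by linarith)
  have b0 : 0 < betk k (1 - w) := hu0.trans_le b1
  have s1 : (1 - (1 - w)) ^ k ≤ 1 := pow_le_one₀ (by linarith) (by linarith)
  have key : - Real.log (betk k (1 - w)) ≤ - Real.log (1 - w) / 2 := by
    have h : Real.log (1 - w) ≤ Real.log (betk k (1 - w) ^ 2) := by
      refine Real.log_le_log hu0 ?_
      have := mul_le_mul_of_nonneg_left b1 (sub_nonneg.2 s1)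
      rw [b3]
      linarith
    rw [Real.log_pow] at h
    push_cast at h
    linarith
  refine ⟨by rw [neg_neg, Real.exp_log b0], ?_, key.trans ?_, fun h1 => key.trans ?_⟩
  · have := Real.log_nonpos b0.le b2
    linarith
  · have h : Real.log (1 - w)⁻¹ ≤ Real.log (1 + 1 / z) := by
      refine Real.log_le_log (inv_pos.2 hu0) ?_
      rw [inv_eq_one_div, div_le_iff₀ hu0]
      have e : (1 + 1 / z) * (1 - w) = 1 + (1 - w * (1 + z)) / z := by field_simp; ring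
      rw [e]
      have : 0 ≤ (1 - w * (1 + z)) / z := div_nonneg (by linarith) hz.le
      linarith
    rw [Real.log_inv] at h
    linarith
  · have hw : w ≤ 1 / 2 := by nlinarith
    have h := Real.one_sub_inv_le_log_of_pos hu0
    have h2 : (1 - w)⁻¹ ≤ 1 + 2 * w := by
      rw [inv_eq_one_div, div_le_iff₀ hu0]; nlinarith
    linarith

end Pool.Agent.MP_6d294b_pr

end

section

open Finset

namespace Pool.Agent.MP_6d294b_pr

variable {d : ℕ}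

def Vd_RFam (θ : Pt d → ℕ) (A : Finset (Pt d))
    (I : Finset (Finset (Pt d) × Finset (Pt d) × Bx d)) : Prop :=
  (∀ u ∈ I, u.1 ⊆ A ∧ Fill θ u.1 u.2.1 u.2.2) ∧
  (∀ u ∈ I, ∀ v ∈ I, u ≠ v → Disjoint u.1 v.1) ∧ A ⊆ I.biUnion fun u => u.2.1

theorem repl_RFam {θ : Pt d → ℕ} {A : Finset (Pt d)}
    {I : Finset (Finset (Pt d) × Finset (Pt d) × Bx d)} (h : Vd_RFam θ A I)
    {m m' w : Finset (Pt d) × Finset (Pt d) × Bx d} (hm : m ∈ I) (hm' : m' ∈ I)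
    (h1 : w.1 ⊆ m.1 ∪ m'.1) (h2 : Fill θ w.1 w.2.1 w.2.2) (h3 : m.2.1 ∪ m'.2.1 ⊆ w.2.1) :
    Vd_RFam θ A (insert w ((I.erase m).erase m')) ∧
      (I.biUnion fun u => u.2.1) ⊆ (insert w ((I.erase m).erase m')).biUnion fun u => u.2.1 := by
  have k : (I.biUnion fun u => u.2.1) ⊆
      (insert w ((I.erase m).erase m')).biUnion fun u => u.2.1 := fun x hx => by
    obtain ⟨z, hz, hxz⟩ := mem_biUnion.1 hx
    by_cases e : z = m
    · exact mem_biUnion.2 ⟨_, mem_insert_self _ _, h3 (mem_union_left _ (e ▸ hxz))⟩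
    by_cases e' : z = m'
    · exact mem_biUnion.2 ⟨_, mem_insert_self _ _, h3 (mem_union_right _ (e' ▸ hxz))⟩
    exact mem_biUnion.2 ⟨z, mem_insert_of_mem (by simp [e, e', hz]), hxz⟩
  refine ⟨⟨fun z hz => ?_, ?_, h.2.2.trans k⟩, k⟩
  · rcases mem_insert.1 hz with rfl | hz
    · exact ⟨h1.trans (union_subset (h.1 m hm).1 (h.1 m' hm').1), h2⟩
    · exact h.1 z (mem_of_mem_erase (mem_of_mem_erase hz))
  · have key : ∀ z ∈ (I.erase m).erase m', Disjoint w.1 z.1 := by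
      intro z hz
      simp only [mem_erase] at hz
      exact (disjoint_union_left.2 ⟨h.2.1 m hm z hz.2.2 hz.2.1.symm,
        h.2.1 m' hm' z hz.2.2 hz.1.symm⟩).mono_left h1
    intro z hz z' hz' hzz
    rcases mem_insert.1 hz with e | g <;> rcases mem_insert.1 hz' with e' | g'
    · exact absurd (e.trans e'.symm) hzz
    · rw [e]
      exact key z' g'
    · rw [e']
      exact (key z g).symm
    · exact h.2.1 z (mem_of_mem_erase (mem_of_mem_erase g)) z'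
        (mem_of_mem_erase (mem_of_mem_erase g')) hzz

theorem rFam (h0 : RGap) (h1 : RFill) : RFam := by
  intro d θ hθ A
  obtain ⟨X, hX⟩ : ∃ X : Finset (Pt d), ∀ B K P, B ⊆ A → Fill θ B K P → K ⊆ X := by
    refine ⟨Fintype.piFinset fun _ => Icc (-((∑ x ∈ A, ∑ i, (x i).natAbs : ℕ) : ℤ))
      (∑ x ∈ A, ∑ i, (x i).natAbs : ℕ), fun B K P hB hF v hv => ?_⟩
    obtain ⟨-, -, -, f1, f2, -⟩ := h1 d θ hθ B K P hF
    have b : ∀ x ∈ A, ∀ i, (x i).natAbs ≤ ∑ x ∈ A, ∑ i, (x i).natAbs := fun x hx i =>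
      (single_le_sum (f := fun i => (x i).natAbs) (fun _ _ => Nat.zero_le _) (mem_univ i)).trans
        (single_le_sum (f := fun x : Pt d => ∑ i, (x i).natAbs) (fun _ _ => Nat.zero_le _) hx)
    refine Fintype.mem_piFinset.2 fun i => mem_Icc.2 ?_
    obtain ⟨x, hx, e⟩ := f2 (i, true)
    obtain ⟨y, hy, e'⟩ := f2 (i, false)
    have a1 := f1 v hv (i, true)
    have a2 := f1 v hv (i, false)
    have a3 := b x (hB hx) i
    have a4 := b y (hB hy) i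
    rw [← e] at a1
    rw [← e'] at a2
    simp only [kap, if_true, Bool.false_eq_true, if_false] at a1 a2
    omega
  obtain ⟨I, hI, hmin⟩ := (measure fun I : Finset (Finset (Pt d) × Finset (Pt d) × Bx d) =>
    I.card + (X \ I.biUnion fun u => u.2.1).card).wf.has_min {I | Vd_RFam θ A I}
    ⟨A.image fun x => ({x}, {x}, ptB x), fun m hm => by
      obtain ⟨x, hx, rfl⟩ := mem_image.1 hm
      exact ⟨singleton_subset_iff.2 hx, .pt x⟩, fun m hm m' hm' hne => by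
      obtain ⟨x, -, rfl⟩ := mem_image.1 hm
      obtain ⟨y, -, rfl⟩ := mem_image.1 hm'
      refine disjoint_singleton.2 ?_
      rintro rfl
      exact hne rfl, fun x hx => mem_biUnion.2 ⟨_, mem_image_of_mem _ hx, mem_singleton_self x⟩⟩
  have hmin' : ∀ J, Vd_RFam θ A J → I.card + (X \ I.biUnion fun u => u.2.1).card ≤
      J.card + (X \ J.biUnion fun u => u.2.1).card := fun J hJ => not_lt.1 (hmin J hJ)
  have hV : Vd_RFam θ A I := hI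
  have far : ∀ u ∈ I, ∀ v ∈ I, u ≠ v → ∀ x ∈ u.2.1, ∀ y ∈ v.2.1, 3 ≤ dst x y := by
    intro m hm m' hm' hne x hx y hy
    by_contra hc
    obtain ⟨k1, k2⟩ := repl_RFam hV (w := (m.1 ∪ m'.1, m.2.1 ∪ m'.2.1, m.2.2 ⊔ m'.2.2)) hm hm'
      Subset.rfl ((hV.1 m hm).2.merge (hV.1 m' hm').2 (hV.2.1 m hm m' hm' hne) hx hy (by omega))
      Subset.rfl
    have e0 := hmin' _ k1
    have hm'' : m' ∈ I.erase m := mem_erase.2 ⟨hne.symm, hm'⟩
    have e1 := card_insert_le (m.1 ∪ m'.1, m.2.1 ∪ m'.2.1, m.2.2 ⊔ m'.2.2) ((I.erase m).erase m')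
    have e2 := card_erase_of_mem hm''
    have e3 := card_erase_of_mem hm
    have e4 := card_pos.2 ⟨m', hm''⟩
    have e5 := card_le_card (sdiff_subset_sdiff (Subset.refl X) k2)
    omega
  refine ⟨I, hV.1, fun u hu v hv h => ⟨hV.2.1 u hu v hv h, far u hu v hv h⟩, hV.2.2,
    fun v hv => ?_⟩
  by_contra hc
  obtain ⟨x, hx⟩ : ((I.biUnion fun u => u.2.1).filter fun u => dst u v = 1).Nonempty :=
    card_pos.1 (by have := hθ v; rw [nb] at hv; omega)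
  obtain ⟨hx1, hx2⟩ := mem_filter.1 hx
  obtain ⟨m, hm, hxm⟩ := mem_biUnion.1 hx1
  have hn : θ v ≤ nb v m.2.1 := by
    refine hv.trans (card_le_card fun y hy => ?_)
    obtain ⟨hy1, hy2⟩ := mem_filter.1 hy
    obtain ⟨m', hm', hym⟩ := mem_biUnion.1 hy1
    refine mem_filter.2 ⟨?_, hy2⟩
    by_cases e : m = m'
    · exact e ▸ hym
    · have a1 := far m hm m' hm' e x hxm y hym
      have a2 := (h0 d).2.1 x v y
      have a3 := (h0 d).1 v y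
      omega
  have hF := (hV.1 m hm).2.add hn
  obtain ⟨k1, k2⟩ := repl_RFam hV (w := (m.1, insert v m.2.1, m.2.2)) hm hm subset_union_left hF
    (union_subset (subset_insert _ _) (subset_insert _ _))
  have e0 := hmin' _ k1
  have e1 := card_insert_le (m.1, insert v m.2.1, m.2.2) ((I.erase m).erase m)
  have e2 : ((I.erase m).erase m).card ≤ (I.erase m).card := card_erase_le
  have e3 := card_erase_of_mem hm
  have e4 := card_pos.2 ⟨m, hm⟩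
  have e5 := card_lt_card ((ssubset_iff_of_subset (sdiff_subset_sdiff (Subset.refl X) k2)).2
    ⟨v, mem_sdiff.2 ⟨hX _ _ _ (hV.1 m hm).1 hF (mem_insert_self _ _), hc⟩, fun h =>
      (mem_sdiff.1 h).2 (mem_biUnion.2 ⟨_, mem_insert_self _ _, mem_insert_self _ _⟩)⟩)
  omega

end Pool.Agent.MP_6d294b_pr

end

section

open Finset

namespace Pool.Agent.MP_6d294b_pr

theorem out_RCut {d : ℕ} {u v : Pt d} {i : Fin d} (h : dst u v = 1) (hne : u i ≠ v i) :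
    (u i = v i + 1 ∨ u i = v i - 1) ∧ ∀ j, j ≠ i → u j = v j := by
  unfold dst at h
  rw [← Finset.add_sum_erase _ _ (Finset.mem_univ i)] at h
  have h1 : (u i - v i).natAbs ≠ 0 := by omega
  have h2 : ∑ j ∈ univ.erase i, (u j - v j).natAbs = 0 := by omega
  refine ⟨by omega, fun j hj => ?_⟩
  have := (Finset.sum_eq_zero_iff.1 h2) j (by simp [hj])
  omega

theorem nb_RCut {d : ℕ} {K Z : Finset (Pt d)} {i : Fin d} {z : ℤ} {h : ℕ} (hh : 2 ≤ h)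
    (hK : ∀ x ∈ K, z ≤ x i → x i < z + h → x ∈ Z) {v : Pt d} (h1 : z ≤ v i) (h2 : v i < z + h) :
    nb v K ≤ nb v Z + (if v i = z ∨ v i = z + h - 1 then 1 else 0) := by
  classical
  unfold nb
  split_ifs with hc
  · set w : Pt d := Function.update v i (if v i = z then z - 1 else z + h) with hw
    refine le_trans (Finset.card_le_card (t := insert w (Z.filter fun u => dst u v = 1)) ?_)
      (Finset.card_insert_le _ _)
    intro u hu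
    rw [Finset.mem_filter] at hu
    by_cases hin : z ≤ u i ∧ u i < z + h
    · exact Finset.mem_insert_of_mem (Finset.mem_filter.2 ⟨hK u hu.1 hin.1 hin.2, hu.2⟩)
    · have hne : u i ≠ v i := fun e => hin (e ▸ ⟨h1, h2⟩)
      obtain ⟨h3, h4⟩ := out_RCut hu.2 hne
      refine Finset.mem_insert.2 (Or.inl (funext fun j => ?_))
      by_cases hj : j = i
      · subst hj
        simp only [hw, Function.update_self]
        split_ifs <;> omega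
      · simp [hw, Function.update_of_ne hj, h4 j hj]
  · rw [add_zero]
    refine Finset.card_le_card fun u hu => ?_
    rw [Finset.mem_filter] at hu ⊢
    refine ⟨?_, hu.2⟩
    by_cases hne : u i = v i
    · exact hK u hu.1 (by omega) (by omega)
    · obtain ⟨h3, -⟩ := out_RCut hu.2 hne
      exact hK u hu.1 (by omega) (by omega)

theorem rCut (h0 : RGap) : RCut := by
  intro d θ θ' A K Z P i z h hF hh hθ hZ
  induction hF with
  | pt x => exact fun hA => hA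
  | merge _ _ _ _ _ _ ih1 ih2 =>
    intro hA x hx
    rcases Finset.mem_union.1 hx with hx | hx
    · exact ih1 (fun y hy => hA y (Finset.mem_union_left _ hy)) x hx
    · exact ih2 (fun y hy => hA y (Finset.mem_union_right _ hy)) x hx
  | add _ hv ih =>
    intro hA x hx h1 h2
    rcases Finset.mem_insert.1 hx with rfl | hx
    · have h3 := nb_RCut hh (ih hA) h1 h2
      have h4 := hθ x h1 h2
      exact hZ x (by omega)
    · exact ih hA x hx h1 h2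

end Pool.Agent.MP_6d294b_pr

end

section

open Finset

namespace Pool.Agent.MP_6d294b_pr

theorem top_le_RChi (hg : RGap) {d : ℕ} {x : Pt d} {P : Bx d} (hx : InB x P) (s : Sd d) :
    P s ≤ kap s x + psi P := by
  obtain ⟨-, -, -, -, -, -, -, -, -, -, h0, h1, h2, -⟩ := hg d
  have hv : Val (ptB x) := (h1 (ptB x) x).2.1 fun _ => le_rfl
  have h3 := h2 (ptB x) P hv
  rw [sup_eq_right.2 ((h1 P x).1.1 hx), h0, zero_add] at h3
  have h4 : (P s - ptB x s).toNat ≤ ∑ s, (P s - ptB x s).toNat :=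
    Finset.single_le_sum (f := fun s => (P s - ptB x s).toNat) (fun _ _ => Nat.zero_le _)
      (Finset.mem_univ s)
  rw [← h3] at h4
  have h5 : ptB x s = kap s x := rfl
  omega

theorem rChi (hO : SOld) (hG : RGeo) : RChi := by
  classical
  intro d hd
  obtain ⟨hPr, -, -, -, hB, hSeed, -⟩ := hO
  obtain ⟨hg, hF, -, -, -, -, -, hC, hU⟩ := hG
  obtain ⟨-, c2, c3, c4, c5⟩ := hC d
  obtain ⟨C, hC0, hC⟩ := c5 d
  refine ⟨C * 2 ^ (2 * d), by positivity, fun θ Ω p s a x Z hθ hp0 hp1 ha hsm => ?_⟩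
  obtain ⟨a0, -, a2, a3, a4, -⟩ := hPr (Pt d) Ω p hp0 hp1
  obtain ⟨X₀, -, hX₀⟩ := c3 x a
  obtain ⟨Zb, hZb, hZ⟩ := (hg d).2.2.2.2.2.2.2.2.2.2.2.2.2 x s
  have hdist := (hg d).2.2.2.2.2.2.2.2.2.1
  set X := X₀.filter fun P => InB x P ∧ psi P < a with hX
  set Y : Bx d := fun s' => kap s' x + s with hY
  set q : ℝ := Pr Ω p (Ev θ fun _ P => P ≤ Y ∧ a ≤ psi P) with hq
  have hq0 : 0 ≤ q := a0 _
  have hYc : (boxes Y).card ≤ (2 * s + 1) ^ (2 * d) := (hB d).1 Y _ fun i => by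
    simp only [ex, hY, kap]
    simp only [if_true, Bool.false_eq_true, if_false]
    omega
  have hq1 : q ≤ (2 * s + 1 : ℝ) ^ (2 * d) * (1 / 4) ^ a := by
    have h := (hU d Ω p hp0 hp1).2 θ Y a 0 hθ ha le_rfl (by simpa using hsm)
    rw [zero_mul, neg_zero, Real.exp_zero, mul_one] at h
    refine h.trans (mul_le_mul_of_nonneg_right ?_ (by positivity))
    exact_mod_cast hYc
  have key : ∀ y : Pt d, Pr Ω p (Ev θ fun K P => psi P < s ∧ x ∈ K ∧ y ∈ K) ≤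
      (∑ P ∈ X, if InB y P then Pr Ω p (ISp P) else 0) + if y ∈ Zb then q else 0 := fun y => by
    rw [← Finset.sum_filter]
    have h1 := a4 (Bx d) (X.filter fun P => InB y P) fun P => ISp P
    have h2 : Pr Ω p (fun A => y ∈ Zb ∧ Ev θ (fun _ P => P ≤ Y ∧ a ≤ psi P) A) ≤
        if y ∈ Zb then q else 0 := by
      by_cases hy : y ∈ Zb
      · rw [if_pos hy]
        exact a2 _ _ fun A _ h => h.2
      · rw [if_neg hy]
        have h3 := a4 (Bx d) ∅ fun P => ISp P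
        rw [Finset.sum_empty] at h3
        exact (a2 _ _ fun A _ h => absurd h.1 hy).trans h3
    refine le_trans (a2 _ _ ?_) ((a3 _ _).trans (add_le_add h1 h2))
    rintro A - ⟨B, K, P, hBA, hfill, hs, hx, hy⟩
    obtain ⟨f1, -, -, f2, -⟩ := hF d θ hθ B K P hfill
    by_cases hP : psi P < a
    · exact Or.inl ⟨P, Finset.mem_filter.2 ⟨Finset.mem_filter.2
        ⟨hX₀ P (f2 x hx) hP.le, f2 x hx, hP⟩, f2 y hy⟩, B, hBA, f1⟩
    · refine Or.inr ⟨hZ y ((hdist P x y (f2 x hx) (f2 y hy)).trans hs.le), B, K, P, hBA, hfill,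
        fun s' => ?_, not_lt.1 hP⟩
      have := top_le_RChi hg (f2 x hx) s'
      simp only [hY]
      omega
  have hone : ∀ P ∈ X, (∑ y ∈ Z, if InB y P then Pr Ω p (ISp P) else 0) ≤
      p * (C * (1 / 2) ^ psi P) := fun P hP => by
    obtain ⟨-, -, hPa⟩ := Finset.mem_filter.1 hP
    rw [← Finset.sum_filter, Finset.sum_const, nsmul_eq_mul]
    have h1 : (Z.filter fun y => InB y P).card ≤ (psi P + 1) ^ d :=
      ((hB d).2.2.2.1 P _ fun y hy => (Finset.mem_filter.1 hy).2).trans (c4 P).1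
    have h2 : (((Z.filter fun y => InB y P).card : ℕ) : ℝ) ≤ ((psi P : ℝ) + 3) ^ d := by
      refine le_trans (b := ((psi P : ℝ) + 1) ^ d) (by exact_mod_cast h1) ?_
      gcongr
      norm_num
    have h3 : ((sg (ex P) ⟨0, hd⟩ : ℕ) : ℝ) ≤ (2 * a + 1 : ℝ) ^ (d - 1) := by
      have h4 : sg (ex P) ⟨0, hd⟩ ≤ (2 * a + 1) ^ (d - 1) :=
        ((c4 P).2.1 ⟨0, hd⟩).2.1.trans (Nat.pow_le_pow_left (by omega) _)
      exact_mod_cast h4
    have h5 := (hSeed d Ω p hp0 hp1 P ⟨0, hd⟩ 0 le_rfl).2 (by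
      rw [mul_zero, Real.exp_zero, mul_one]
      exact le_trans (mul_le_mul_of_nonneg_left h3 (by positivity)) hsm)
    rw [zero_mul, Real.exp_zero, mul_one] at h5
    calc _ ≤ ((psi P : ℝ) + 3) ^ d * (p * (1 / 4) ^ psi P) :=
          mul_le_mul h2 h5 (a0 _) (by positivity)
      _ = p * (((psi P : ℝ) + 3) ^ d * (1 / 4) ^ psi P) := by ring
      _ ≤ _ := mul_le_mul_of_nonneg_left (hC _) hp0
  refine (Finset.sum_le_sum fun y _ => key y).trans ?_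
  rw [Finset.sum_add_distrib, Finset.sum_comm]
  refine add_le_add ((Finset.sum_le_sum hone).trans ?_) ?_
  · rw [← Finset.mul_sum, ← Finset.mul_sum, mul_comm]
    refine mul_le_mul_of_nonneg_right (mul_le_mul_of_nonneg_left ?_ hC0) hp0
    exact c2 x X fun P hP => (Finset.mem_filter.1 hP).2.1
  · rw [← Finset.sum_filter, Finset.sum_const, nsmul_eq_mul]
    have h1 : (Z.filter fun y => y ∈ Zb).card ≤ (2 * s + 1) ^ d :=
      (Finset.card_le_card fun y hy => (Finset.mem_filter.1 hy).2).trans hZb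
    have h2 : (((Z.filter fun y => y ∈ Zb).card : ℕ) : ℝ) ≤ (2 * s + 1 : ℝ) ^ d := by
      exact_mod_cast h1
    calc _ ≤ (2 * s + 1 : ℝ) ^ d * ((2 * s + 1 : ℝ) ^ (2 * d) * (1 / 4) ^ a) :=
          mul_le_mul h2 hq1 hq0 (by positivity)
      _ = _ := by ring

end Pool.Agent.MP_6d294b_pr

end

section

open Finset

namespace Pool.Agent.MP_6d294b_pr

theorem frame_RBase1 {D d : ℕ} (hD : D ≤ d) (k : ℕ) (Θ : Finset (Fin d)) (c : Fin d → ℤ)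
    (hΘ : Θ.card = d - D) : ∃ F : (Fin d → Bool) → Fr D d, ∀ τ, (F τ).k = k ∧ (F τ).ta = τ ∧
      (F τ).th = Θ ∧ (F τ).pr = (F fun _ => true).pr ∧
      (∀ t, (F τ).c t = if τ t then c t + k - 1 else - c t) ∧
      ∀ P, (F τ).Reg P ↔ InS k Θ c P := by
  have hc : Θᶜ.card = D := by rw [card_compl, Fintype.card_fin]; omega
  let F : (Fin d → Bool) → Fr D d := fun τ => ⟨Θᶜ.orderEmbOfFin hc,
    (Θᶜ.orderEmbOfFin hc).injective, τ, fun t => if τ t then c t + k - 1 else - c t, k⟩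
  have hth : ∀ τ, (F τ).th = Θ := fun τ => by
    ext t
    have h1 : t ∈ Set.range (Θᶜ.orderEmbOfFin hc) ↔ t ∈ Θᶜ := by
      rw [range_orderEmbOfFin, mem_coe]
    rw [mem_compl] at h1
    simp only [Fr.th, mem_filter, mem_univ, true_and]
    exact ⟨fun h => by_contra fun h' => (h1.2 h').elim h, fun h i hi => h1.1 ⟨i, hi⟩ h⟩
  refine ⟨F, fun τ => ⟨rfl, rfl, hth τ, rfl, fun _ => rfl, fun P => ?_⟩⟩
  rw [Fr.Reg, hth]
  refine forall₂_congr fun t _ => ?_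
  simp only [F]
  cases τ t <;> simp <;> omega

theorem thS_RBase1 {d j k : ℕ} {Θ : Finset (Fin d)} (c : Fin d → ℤ) (hΘ : Θ.card = j)
    (v : Pt d) : 2 ≤ thS (j + 2) k Θ c v := by
  have := card_filter_le Θ fun t => v t = c t ∨ v t = c t + k - 1
  unfold thS
  omega

theorem thr_RBase1 {D d j k : ℕ} {Θ : Finset (Fin d)} {c : Fin d → ℤ} (hΘ : Θ.card = j)
    {F : Fr D d} {P : Bx d} (hth : F.th = Θ) (hta : F.ta = fun t => decide (P (t, false) < - c t))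
    (hc : ∀ t, F.c t = if decide (P (t, false) < - c t) then c t + k - 1 else - c t)
    (hP : InS k Θ c P) (hno : ¬ ∃ t ∈ Θ, P (t, true) = c t + k - 1 ∧ P (t, false) = - c t)
    (v : Pt d) (hv : InB v P) : F.thr v ≤ thS (j + 2) k Θ c v := by
  unfold Fr.thr
  split_ifs with h
  · exact thS_RBase1 c hΘ v
  · rw [Fr.lev, hth] at h
    obtain ⟨t, ht, h1⟩ := exists_ne_zero_of_sum_ne_zero h
    have h2 : (Θ.filter fun t => v t = c t ∨ v t = c t + k - 1).card < Θ.card := by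
      refine card_lt_card (filter_ssubset.2 ⟨t, ht, ?_⟩)
      have a1 := hv (t, true)
      have a2 := hv (t, false)
      have a3 := hP t ht
      have a4 : ¬ (P (t, true) = c t + k - 1 ∧ P (t, false) = - c t) := fun h => hno ⟨t, ht, h⟩
      rw [hc, hta] at h1
      by_cases h3 : P (t, false) < - c t <;> simp [h3, ptB, kap] at h1 a1 a2 <;> omega
    unfold thS
    omega

theorem rBase1 (hO : SOld) (hG : RGeo) : RBase1 := by
  classical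
  intro D d k N p ε₁ ε₂ hD hk hN p0 p1 e1 e2 h1 h2 Ω Θ c Y hΘ hY
  obtain ⟨hPr, -, -, hA, -⟩ := hO
  obtain ⟨hGap, hF, -, -, hLA, hLB, -, hBox, -⟩ := hG
  obtain ⟨-, -, q1, q2, q3, -⟩ := hPr (Pt d) Ω p p0 p1
  obtain ⟨F, hFr⟩ := frame_RBase1 hD k Θ c hΘ
  obtain ⟨fk, -, fth, -, -, freg⟩ := hFr fun _ => true
  obtain ⟨-, -, l1, l2, l3, l4, -, l5, -, l6, l7, l8, l9, -, l10, -⟩ := hLA D d (F fun _ => true)
  set F0 := F fun _ => true with hF0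
  let X := (boxes (F0.pr Y)).filter fun R => Val R ∧ R ≤ F0.pr Y ∧ N ≤ psi R ∧ psi R ≤ 2 * N
  have hX : (X.card : ℝ) ≤ volB Y * (2 * N + 1) ^ D := by
    have a1 := ((hBox D).1 (F0.pr Y) X fun P hP => ⟨(mem_filter.1 hP).2.1,
      (mem_filter.1 hP).2.2.1⟩).2.2 (2 * N) fun P hP => (mem_filter.1 hP).2.2.2.2
    exact_mod_cast a1.trans (Nat.mul_le_mul_right _ (l7 Y))
  refine (q1 _ (fun A => ∃ R ∈ X, (∃ τ ∈ (univ : Finset (Fin d → Bool)), IFl (F τ) R A) ∨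
    ∃ t ∈ Θ, Ev (thS (d - D + 2) k Θ c) (fun _ P => P ≤ F0.lift R ∧
      P (t, true) = c t + k - 1 ∧ P (t, false) = - c t) A) ?_).trans ((q3 _ X _).trans ?_)
  · rintro A - ⟨B, K, P, hB, hfill, hPY, hs⟩
    have hθ := thS_RBase1 (k := k) c hΘ
    have a1 := l8 P ((l10 P Y hPY).2 ((freg Y).2 hY))
    have a2 : ∑ t ∈ F0.th, ex P t ≤ d * k := by
      refine (sum_le_card_nsmul _ _ k fun t ht => (a1 t ht).trans (by omega)).trans ?_
      rw [fth, hΘ, smul_eq_mul]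
      exact Nat.mul_le_mul_right _ (Nat.sub_le _ _)
    have a3 := l6 P
    obtain ⟨A', K', P', b1, b2, b3, b4, b5⟩ := (hF d _ hθ B K P hfill).2.2.2.2.2.2.2
      (fun Q => psi (F0.pr Q)) N (fun x => by rw [l1]; exact (hGap D).2.2.2.2.2.2.2.2.2.2.1 _)
      (fun Q Q' v1 v2 g => by
        have c1 := ((hA D).2.2.2.2 _ _ (l4 Q v1) (l4 Q' v2)).2
        have c2 := l5 Q Q'
        rw [l2]
        omega) hN (by omega)
    obtain ⟨c1, -, -, -, -, -, c2, -⟩ := hF d _ hθ A' K' P' b2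
    have c3 := l4 P' ((hA d).1 A' P' c1).1
    have c4 := l3 P' Y (b3.trans hPY)
    have c5 := (l10 P' Y (b3.trans hPY)).2 ((freg Y).2 hY)
    refine ⟨F0.pr P', mem_filter.2 ⟨((hA D).2.2.2.1 _ _ c3 c4).2.2.2.2, c3, c4, b4, b5⟩, ?_⟩
    by_cases hno : ∃ t ∈ Θ, P' (t, true) = c t + k - 1 ∧ P' (t, false) = - c t
    · obtain ⟨t, ht, h⟩ := hno
      exact Or.inr ⟨t, ht, A', K', P', b1.trans hB, b2, (l9 _ _).2 ⟨le_rfl, c5⟩, h⟩
    · obtain ⟨-, g1, g2, g3, g4, g5⟩ := hFr fun t => decide (P' (t, false) < - c t)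
      exact Or.inl ⟨_, mem_univ _, A', K', P', b1.trans hB,
        c2 _ (thr_RBase1 hΘ g2 g1 g4 ((freg P').1 c5) hno), (g5 P').2 ((freg P').1 c5), by rw [g3]⟩
  · refine (sum_le_card_nsmul _ _ (2 ^ d * ε₁ + d * ε₂) fun R hR => ?_).trans ?_
    · obtain ⟨r1, -, r2, r3⟩ := (mem_filter.1 hR).2
      refine (q2 _ _).trans (add_le_add ((q3 _ _ _).trans ?_) ((q3 _ _ _).trans ?_))
      · refine (sum_le_card_nsmul _ _ ε₁ fun τ _ => h1 (F τ) (hFr τ).1 Ω R r1 r2 r3).trans_eq ?_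
        simp
      · have a1 := (hLB D d F0).2.1 (2 * N + 1) R
          (fun i => Nat.succ_le_succ ((((hBox D).2.2.2.1 R).2.1 i).2.2.trans r3)) (fk ▸ hk)
        rw [fk] at a1
        refine (sum_le_card_nsmul _ _ ε₂ fun t ht => h2 Ω Θ c _ t hΘ ht a1).trans ?_
        rw [nsmul_eq_mul, hΘ]
        exact mul_le_mul_of_nonneg_right (by exact_mod_cast Nat.sub_le d D) e2
    · rw [nsmul_eq_mul]
      exact (mul_le_mul_of_nonneg_right hX (by positivity)).trans_eq (by ring)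

end Pool.Agent.MP_6d294b_pr

end

section

open Finset

namespace Pool.Agent.MP_6d294b_pr

theorem rGraph : RGraph := by
  intro V adj u v h
  induction h with
  | refl => exact ⟨0, fun _ => u, rfl, rfl, fun t ht => absurd ht (Nat.not_lt_zero t),
      fun s t hs ht _ => by omega⟩
  | @tail b c _ hbc ih =>
    obtain ⟨n, f, h0, hn, ha, hi⟩ := ih
    by_cases hc : ∃ s, s ≤ n ∧ f s = c
    · obtain ⟨s, hs, e⟩ := hc
      exact ⟨s, f, h0, e, fun t ht => ha t (by omega),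
        fun a b' h1 h2 => hi a b' (by omega) (by omega)⟩
    · have e : ∀ s, s ≤ n → (if s ≤ n then f s else c) = f s := fun s hs => if_pos hs
      have e' : (if n + 1 ≤ n then f (n + 1) else c) = c := if_neg (by omega)
      refine ⟨n + 1, fun s => if s ≤ n then f s else c, (e 0 (Nat.zero_le n)).trans h0, e',
        fun t ht => ?_, fun s t hs ht hst => ?_⟩
      · show adj (if t ≤ n then f t else c) (if t + 1 ≤ n then f (t + 1) else c)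
        rw [e t (by omega)]
        by_cases h1 : t + 1 ≤ n
        · rw [if_pos h1]
          exact ha t (by omega)
        · obtain rfl : t = n := by omega
          rw [if_neg h1, hn]
          exact hbc
      · have hst' : (if s ≤ n then f s else c) = if t ≤ n then f t else c := hst
        by_cases h1 : s ≤ n
        · by_cases h2 : t ≤ n
          · rw [if_pos h1, if_pos h2] at hst'
            exact hi s t h1 h2 hst'
          · rw [if_pos h1, if_neg h2] at hst'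
            exact absurd ⟨s, h1, hst'⟩ hc
        · by_cases h2 : t ≤ n
          · rw [if_neg h1, if_pos h2] at hst'
            exact absurd ⟨t, h2, hst'.symm⟩ hc
          · omega

end Pool.Agent.MP_6d294b_pr

end

section

open Finset

namespace Pool.Agent.MP_6d294b_pr

theorem two_le_RCover {d r k : ℕ} {Θ : Finset (Fin d)} (c : Fin d → ℤ) (h : Θ.card + 2 ≤ r)
    (v : Pt d) : 2 ≤ thS r k Θ c v := by
  have := card_filter_le Θ fun t => v t = c t ∨ v t = c t + k - 1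
  unfold thS
  omega

theorem thS_RCover {d r k : ℕ} {Θ : Finset (Fin d)} (c : Fin d → ℤ) {i : Fin d} (hi : i ∉ Θ)
    (h : Θ.card + 3 ≤ r) (z n : ℤ) (v : Pt d) :
    thS r k (insert i Θ) (off k c i z n) v +
      (if v i = z + n * k ∨ v i = z + n * k + k - 1 then 1 else 0) ≤ thS r k Θ c v := by
  have h1 := card_filter_le Θ fun t => v t = c t ∨ v t = c t + k - 1
  have h2 : (Θ.filter fun t => v t = off k c i z n t ∨ v t = off k c i z n t + k - 1) =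
      Θ.filter fun t => v t = c t ∨ v t = c t + k - 1 :=
    filter_congr fun t ht => by
      rw [off, Function.update_of_ne (fun e : t = i => hi (e ▸ ht))]
  have h3 : off k c i z n i = z + n * k := by simp [off]
  unfold thS
  rw [filter_insert, h2, h3]
  split_ifs with h4
  · rw [card_insert_of_notMem (fun e => hi (mem_filter.1 e).1)]
    omega
  · omega

theorem rCover (hG : RGeo) : RCover := by
  classical
  obtain ⟨-, hF, hM, hC, -⟩ := hG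
  intro d r k g Θ c i z A K P Y hr hk hi hA hPY hY
  have hθ : ∀ n : ℕ, ∀ v, 2 ≤ thS r k (insert i Θ) (off k c i z n) v := fun n v =>
    two_le_RCover _ (by rw [card_insert_of_notMem hi]; omega) v
  obtain ⟨-, hAK, -, hKP, -⟩ := hF d _ (two_le_RCover c (by omega)) A K P hA
  choose I hI1 hI2 hI3 hI4 using fun n : ℕ => hM d _ (hθ n)
    (A.filter fun x => z + n * k ≤ x i ∧ x i < z + n * k + k)
  have hk0 : (0 : ℤ) < k := by exact_mod_cast (by omega : 0 < k)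
  refine ⟨(range g).biUnion fun n => (I n).image fun u => (n, u), ?_, ?_, ?_⟩
  · intro u hu
    obtain ⟨n, hn, hu0⟩ := mem_biUnion.1 hu
    clear hu
    obtain ⟨u, hu, rfl⟩ := mem_image.1 hu0
    obtain ⟨h1, h2⟩ := hI1 n u hu
    have hn' : (n : ℤ) + 1 ≤ g := by exact_mod_cast mem_range.1 hn
    obtain ⟨-, -, -, -, ht, -⟩ := hF d _ (hθ n) _ _ _ h2
    have hle : u.2.2 ≤ Y := fun s => by
      obtain ⟨x, hx, e⟩ := ht s
      rw [← e]
      exact (hKP x (hAK (mem_filter.1 (h1 hx)).1) s).trans (hPY s)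
    refine ⟨mem_range.1 hn, fun x hx => ?_, h2, hle, fun t ht' => ?_⟩
    · obtain ⟨a, b, e⟩ := mem_filter.1 (h1 hx)
      have : (0 : ℤ) ≤ n * k := by positivity
      exact mem_filter.2 ⟨a, by linarith, by nlinarith⟩
    · rcases mem_insert.1 ht' with rfl | h
      · obtain ⟨x, hx, e⟩ := ht (t, false)
        obtain ⟨y, hy, e'⟩ := ht (t, true)
        have a := (mem_filter.1 (h1 hx)).2.1
        have b := (mem_filter.1 (h1 hy)).2.2
        simp only [kap, Bool.false_eq_true, if_false, if_true] at e e'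
        simp only [off, Function.update_self]
        constructor <;> linarith
      · simp only [off, Function.update_of_ne (fun e : t = i => hi (e ▸ h))]
        exact ⟨(hle _).trans (hY t h).1, (hle _).trans (hY t h).2⟩
  · intro u hu v hv huv
    obtain ⟨n, -, hu0⟩ := mem_biUnion.1 hu
    clear hu
    obtain ⟨u, hu, rfl⟩ := mem_image.1 hu0
    obtain ⟨m, -, hv0⟩ := mem_biUnion.1 hv
    clear hv
    obtain ⟨v, hv, rfl⟩ := mem_image.1 hv0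
    by_cases hnm : n = m
    · subst hnm
      exact (hI2 n u hu v hv fun e => huv (by rw [e])).1
    · refine disjoint_left.2 fun x hx hx' => hnm ?_
      obtain ⟨-, a, b⟩ := mem_filter.1 ((hI1 n u hu).1 hx)
      obtain ⟨-, a', b'⟩ := mem_filter.1 ((hI1 m v hv).1 hx')
      have e1 : (n : ℤ) < m + 1 := by nlinarith
      have e2 : (m : ℤ) < n + 1 := by nlinarith
      omega
  · intro x hx h1 h2
    obtain ⟨n, hn⟩ : ∃ n : ℕ, (n : ℤ) = (x i - z) / k :=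
      ⟨_, Int.toNat_of_nonneg (Int.ediv_nonneg (by linarith) hk0.le)⟩
    have a := Int.ediv_mul_le (x i - z) hk0.ne'
    have b := Int.lt_ediv_add_one_mul_self (x i - z) hk0
    rw [← hn] at a b
    have hg : n < g := by
      have : (n : ℤ) < g := by nlinarith
      exact_mod_cast this
    have := hC d _ _ A K _ P i (z + n * k) k hA hk
      (fun v _ _ => thS_RCover c hi hr z n v) (hI4 n)
      (fun y hy p q => hI3 n (mem_filter.2 ⟨hy, p, q⟩)) x hx (by linarith) (by linarith)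
    obtain ⟨u, hu, hxu⟩ := mem_biUnion.1 this
    exact ⟨(n, u), mem_biUnion.2 ⟨n, mem_range.2 hg, mem_image_of_mem _ hu⟩, hxu⟩

end Pool.Agent.MP_6d294b_pr

end

section

open Finset

namespace Pool.Agent.MP_6d294b_pr

theorem thS_RDet {d r k : ℕ} {Θ : Finset (Fin d)} (h : Θ.card + 2 ≤ r) (c : Fin d → ℤ)
    (v : Pt d) : 2 ≤ thS r k Θ c v := by
  have := card_filter_le Θ fun t => v t = c t ∨ v t = c t + k - 1
  unfold thS
  omega

/-- an injective chain of clusters gives a path with disjoint witnesses -/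
theorem path_RDet {d r k s : ℕ} {Θ : Finset (Fin d)} {c : Fin d → ℤ} {i : Fin d} {z : ℤ}
    {V : Type} (I : Finset V) (w K : V → Finset (Pt d))
    (hC : ∀ u ∈ I, ∀ x ∈ K u, ∀ y ∈ K u, ∀ W, w u ⊆ W → Cn r k Θ c i z s x y W)
    (hD : ∀ u ∈ I, ∀ v ∈ I, u ≠ v → Disjoint (w u) (w v)) {n : ℕ} {f : ℕ → V}
    (hI : ∀ t, t ≤ n → f t ∈ I)
    (hf : ∀ t, t < n → ∃ x ∈ K (f t), ∃ y ∈ K (f (t + 1)), dst x y ≤ 2)
    (hinj : ∀ s t, s ≤ n → t ≤ n → f s = f t → s = t) {x : Pt d} (hx : x ∈ K (f 0)) :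
    ∀ t, t ≤ n → ∀ y ∈ K (f t),
      Pth r k Θ c i z s x t y ((range (t + 1)).biUnion fun j => w (f j)) := by
  intro t
  induction t with
  | zero =>
    intro _ y hy
    exact hC _ (hI 0 n.zero_le) x hx y hy _ (subset_biUnion_of_mem (fun j => w (f j)) (by simp))
  | succ t ih =>
    intro ht y hy
    obtain ⟨y', hy', x', hx', hd⟩ := hf t ht
    refine ⟨y', x', _, w (f (t + 1)), ?_, subset_biUnion_of_mem (fun j => w (f j)) (by simp), ?_,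
      ih (by omega) y' hy', hd, hC _ (hI _ ht) x' hx' y hy _ subset_rfl⟩
    · exact biUnion_subset_biUnion_of_subset_left _ (range_subset_range.2 (by omega))
    · rw [disjoint_biUnion_left]
      intro j hj
      have hj' := mem_range.1 hj
      exact hD _ (hI j (by omega)) _ (hI _ ht) fun h => by
        have := hinj j (t + 1) (by omega) ht h
        omega

theorem rDet (hG : RGeo) (hGr : RGraph) (hCo : RCover) (hPa : RPath) : RDet := by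
  intro d r k g s Θ c i z A K P Y hr hk hg hi hF hY hS
  obtain ⟨hGap, hFill, -⟩ := hG
  obtain ⟨I, hI, hD, hcov⟩ := hCo d r k g Θ c i z A K P Y hr hk hi hF hY hS
  obtain ⟨-, hAK, -, hKP, hext, hcon, -⟩ := hFill d _ (thS_RDet (by omega) c) A K P hF
  have hk' : (2 : ℤ) ≤ k := by exact_mod_cast hk
  have hgk : (k : ℤ) ≤ g * k := le_mul_of_one_le_left (by omega) (by exact_mod_cast hg)
  have hstep : ∀ x y : Pt d, dst x y ≤ 2 → y i ≤ x i + 2 := fun x y h => by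
    have h1 := (hGap d).2.2.1 y x (i, true)
    rw [(hGap d).1 y x] at h1
    simp only [kap, if_true] at h1
    omega
  have hFu : ∀ u ∈ I, u.2.2.1.Nonempty ∧ ∀ x ∈ u.2.2.1, InB x u.2.2.2 := fun u hu => by
    obtain ⟨-, h1, h2, h3, -⟩ := hFill d _
      (thS_RDet (by rw [card_insert_of_notMem hi]; omega) _) _ _ _ (hI u hu).2.2.1
    exact ⟨h2.mono h1, h3⟩
  have hsl : ∀ u ∈ I, ∀ x ∈ u.2.2.1, z + u.1 * k ≤ x i ∧ x i ≤ z + u.1 * k + k - 1 :=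
    fun u hu x hx => by
      have h1 := (hI u hu).2.2.2.2 i (mem_insert_self _ _)
      have h2 := (hFu u hu).2 x hx (i, true)
      have h3 := (hFu u hu).2 x hx (i, false)
      simp only [off, Function.update_self] at h1
      simp only [kap, if_true, Bool.false_eq_true, if_false] at h2 h3
      omega
  by_cases hbig : ∃ u ∈ I, s ≤ psi u.2.2.2
  · obtain ⟨u, hu, hs⟩ := hbig
    obtain ⟨h1, h2, h3, h4, h5⟩ := hI u hu
    exact ⟨fun _ _ => Or.inl ⟨u.1, h1, _, _, _, h2, h3, h4, h5, hs⟩, fun _ _ _ _ _ _ =>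
      Or.inl ⟨u.1, h1, _, _, _, h2.trans (filter_subset _ _), h3, h4, h5, hs⟩⟩
  push Not at hbig
  have hC : ∀ u ∈ I, ∀ x ∈ u.2.2.1, ∀ y ∈ u.2.2.1, ∀ W, u.2.1 ⊆ W → Cn r k Θ c i z s x y W :=
    fun u hu x hx y hy W hW =>
      ⟨u.1, _, _, _, hW, (hI u hu).2.2.1, (hI u hu).2.2.2.2, hbig u hu, hx, hy⟩
  let adj : (ℕ × Finset (Pt d) × Finset (Pt d) × Bx d) →
      (ℕ × Finset (Pt d) × Finset (Pt d) × Bx d) → Prop := fun u v =>
    u ∈ I ∧ v ∈ I ∧ ∃ x ∈ u.2.2.1, ∃ y ∈ v.2.2.1, dst x y ≤ 2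
  have hpath : ∀ u ∈ I, ∀ v, Relation.ReflTransGen adj u v → ∀ x ∈ u.2.2.1,
      ∃ (n : ℕ) (f : ℕ → ℕ × Finset (Pt d) × Finset (Pt d) × Bx d), f n = v ∧ v.1 ≤ u.1 + n ∧
        ∀ t, t ≤ n → f t ∈ I ∧ ∀ y ∈ (f t).2.2.1, Pth r k Θ c i z s x t y
          (A.filter fun x => z ≤ x i ∧ x i < z + g * k) := by
    intro u hu v huv x hx
    obtain ⟨n, f, h0, hn, hadj, hinj⟩ := hGr _ adj u v huv
    have hfI : ∀ t, t ≤ n → f t ∈ I := fun t ht => by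
      rcases t with _ | t
      · rwa [h0]
      · exact (hadj t ht).2.1
    have hidx : ∀ t, t ≤ n → (f t).1 ≤ u.1 + t := fun t => by
      induction t with
      | zero => intro _; rw [h0]; rfl
      | succ t ih =>
        intro ht
        obtain ⟨ha, hb, x', hx', y', hy', hd⟩ := hadj t ht
        have h1 := (hsl _ ha x' hx').2
        have h2 := (hsl _ hb y' hy').1
        have h3 := hstep x' y' hd
        have h4 := ih (by omega)
        by_contra h5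
        have h6 : (((f t).1 : ℤ) + 2) * k ≤ ((f (t + 1)).1 : ℤ) * k :=
          mul_le_mul_of_nonneg_right (by omega) (by omega)
        rw [add_mul] at h6
        omega
    refine ⟨n, f, hn, hn ▸ hidx n le_rfl, fun t ht => ⟨hfI t ht, fun y hy => ?_⟩⟩
    refine ((hPa d r k s Θ c i z x hr (by omega) hi).1 t y).1 _ _ ?_
      (path_RDet I (fun u => u.2.1) (fun u => u.2.2.1) hC hD hfI (fun t ht => (hadj t ht).2.2)
        hinj (h0 ▸ hx) t ht y hy)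
    exact biUnion_subset.2 fun j hj => (hI _ (hfI j (by have := mem_range.1 hj; omega))).2.1
  refine ⟨fun h1 h2 => Or.inr ?_, fun h1 h2 x hx y hy => Or.inr ?_⟩
  · by_cases hre : ∃ u ∈ I, ∃ x ∈ u.2.2.1, x i ≤ z + 1 ∧ ∃ v, Relation.ReflTransGen adj u v ∧
        g ≤ v.1 + 1
    · obtain ⟨u, hu, x, hx, hxz, v, huv, hv⟩ := hre
      obtain ⟨n, f, -, hn, hf⟩ := hpath u hu v huv x hx
      have h3 := (hsl u hu x hx).1
      have h4 : u.1 = 0 := by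
        by_contra h5
        have h6 : (1 : ℤ) * k ≤ (u.1 : ℤ) * k := mul_le_mul_of_nonneg_right (by omega) (by omega)
        omega
      obtain ⟨h5, h6⟩ := hf (g - 1) (by omega)
      obtain ⟨y, hy⟩ := (hFu _ h5).1
      rw [h4] at h3
      exact ⟨x, y, fun t => ((hFu u hu).2 x hx t).trans ((hI u hu).2.2.2.1 t), by omega, by omega,
        h6 y hy⟩
    · exfalso
      push Not at hre
      have hup : ∀ u ∈ I, ∀ x ∈ u.2.2.1, x i ≤ z + 1 → ∀ v ∈ I, Relation.ReflTransGen adj u v →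
          ∀ y ∈ v.2.2.1, y i + k + 1 ≤ z + g * k := fun u hu x hx hxz v hv huv y hy => by
        have h3 := hre u hu x hx hxz v huv
        have h4 := (hsl v hv y hy).2
        have h6 : ((v.1 : ℤ) + 2) * k ≤ (g : ℤ) * k :=
          mul_le_mul_of_nonneg_right (by omega) (by omega)
        rw [add_mul] at h6
        omega
      have hst : ∀ y ∈ K, y i ≤ z + 1 → y i < z ∨ ∃ u ∈ I, ∃ x ∈ u.2.2.1, x i ≤ z + 1 ∧
          ∃ v ∈ I, Relation.ReflTransGen adj u v ∧ y ∈ v.2.2.1 := fun y hy hyz => by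
        by_cases h3 : y i < z
        · exact Or.inl h3
        · obtain ⟨v, hv, hyv⟩ := hcov y hy (by omega) (by omega)
          exact Or.inr ⟨v, hv, y, hyv, hyz, v, hv, .refl, hyv⟩
      obtain ⟨x₀, hx₀, e₀⟩ := hext (i, false)
      obtain ⟨x₁, hx₁, e₁⟩ := hext (i, true)
      simp only [kap, if_true, Bool.false_eq_true, if_false] at e₀ e₁
      have key := hcon (fun y => y i < z ∨ ∃ u ∈ I, ∃ x ∈ u.2.2.1, x i ≤ z + 1 ∧
          ∃ v ∈ I, Relation.ReflTransGen adj u v ∧ y ∈ v.2.2.1) ?_ x₀ (hAK hx₀) x₁ (hAK hx₁)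
        (hst x₀ (hAK hx₀) (by omega))
      · rcases key with h3 | ⟨u, hu, x, hx, hxz, v, hv, huv, hy⟩
        · omega
        · have := hup u hu x hx hxz v hv huv x₁ hy
          omega
      · intro y _ y' hy' hd h3
        have h4 := hstep y y' hd
        rcases h3 with h3 | ⟨u, hu, x, hx, hxz, v, hv, huv, hy⟩
        · exact hst y' hy' (by omega)
        · by_cases h5 : y' i < z
          · exact Or.inl h5
          · have h6 := hup u hu x hx hxz v hv huv y hy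
            obtain ⟨v', hv', hyv⟩ := hcov y' hy' (by omega) (by omega)
            exact Or.inr ⟨u, hu, x, hx, hxz, v', hv', huv.tail ⟨hv, hv', y, hy, y', hyv, hd⟩, hyv⟩
  · have hcov' : ∀ y ∈ K, ∃ u ∈ I, y ∈ u.2.2.1 := fun y hy => by
      have h3 := hKP y hy (i, true)
      have h4 := hKP y hy (i, false)
      simp only [kap, if_true, Bool.false_eq_true, if_false] at h3 h4
      exact hcov y hy (by omega) (by omega)
    obtain ⟨u, hu, hxu⟩ := hcov' x hx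
    obtain ⟨v, -, huv, hyv⟩ := hcon
      (fun y => ∃ v ∈ I, Relation.ReflTransGen adj u v ∧ y ∈ v.2.2.1) (by
        rintro y - y' hy' hd ⟨v, hv, huv, hyv⟩
        obtain ⟨v', hv', hyv'⟩ := hcov' y' hy'
        exact ⟨v', hv', huv.tail ⟨hv, hv', y, hyv, y', hyv', hd⟩, hyv'⟩) x hx y hy
      ⟨u, hu, .refl, hxu⟩
    obtain ⟨n, f, hn, -, hf⟩ := hpath u hu v huv x hxu
    exact ⟨n, ((hPa d r k s Θ c i z x hr (by omega) hi).1 n y).1 _ _ (filter_subset _ _)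
      ((hf n le_rfl).2 y (hn ▸ hyv))⟩

end Pool.Agent.MP_6d294b_pr

end

section

open Finset

namespace Pool.Agent.MP_6d294b_pr

theorem bk_RPath (hA : SPrA) (hBK : SBK) {α : Type} [DecidableEq α] (Ω : Finset α) {p : ℝ}
    (h0 : 0 ≤ p) (h1 : p ≤ 1 / 2) {E F : Finset α → Prop} (hE : Incr E) (hF : Incr F) :
    Pr Ω p (fun A => ∃ B C : Finset α, B ⊆ A ∧ C ⊆ A ∧ Disjoint B C ∧ E B ∧ F C) ≤
      Pr Ω p E * Pr Ω p F := by
  have h := hBK α Ω p h0 h1 Bool univ (fun k => cond k E F) (by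
    intro k _
    cases k
    · exact hF
    · exact hE)
  rw [Fintype.prod_bool] at h
  refine le_trans ((hA α Ω p h0 (by linarith)).2.2.1 _ _ ?_) h
  rintro A - ⟨B, C, g1, g2, g3, g4, g5⟩
  refine ⟨fun k => cond k B C, fun k _ => ?_, fun k _ l _ hkl => ?_⟩
  · cases k
    · exact ⟨g2, g5⟩
    · exact ⟨g1, g4⟩
  · cases k <;> cases l
    · exact absurd rfl hkl
    · exact g3.symm
    · exact g3
    · exact absurd rfl hkl

variable {d r k s : ℕ} {Θ : Finset (Fin d)} {c : Fin d → ℤ} {i : Fin d} {z : ℤ}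

theorem th_RPath (hr : Θ.card + 3 ≤ r) (c' : Fin d → ℤ) (v : Pt d) :
    2 ≤ thS r k (insert i Θ) c' v := by
  have h1 := card_filter_le (insert i Θ) fun t => v t = c' t ∨ v t = c' t + k - 1
  have h2 := card_insert_le i Θ
  unfold thS
  omega

theorem incr_RPath (x y : Pt d) : Incr (Cn r k Θ c i z s x y) := by
  rintro A A' h ⟨n, B, K, P, h1, h2⟩
  exact ⟨n, B, K, P, h1.trans h, h2⟩

theorem cn_RPath (hG : RGeo) (hr : Θ.card + 3 ≤ r) (hk : 1 ≤ k) {x y : Pt d} {W : Finset (Pt d)}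
    (h : Cn r k Θ c i z s x y W) : dst x y ≤ s ∧ 0 < W.card ∧
      Ev (thS r k (insert i Θ) (off k c i z ((x i - z) / k)))
        (fun K P => InS k (insert i Θ) (off k c i z ((x i - z) / k)) P ∧ psi P < s ∧ x ∈ K ∧ y ∈ K)
        W := by
  obtain ⟨n, B, K, P, h1, h2, h3, h4, h5, h6⟩ := h
  obtain ⟨-, -, f3, f4, -⟩ := hG.2.1 d _ (th_RPath hr _) B K P h2
  have hn : (x i - z) / k = n := by
    have a1 := h3 i (mem_insert_self _ _)
    have a2 := f4 x h5 (i, true)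
    have a3 := f4 x h5 (i, false)
    simp only [off, Function.update_self] at a1
    simp only [kap, if_true, Bool.false_eq_true, if_false] at a2 a3
    have hk' : (0 : ℤ) < k := by exact_mod_cast hk
    refine le_antisymm (Int.lt_add_one_iff.1 (Int.ediv_lt_of_lt_mul hk' ?_))
      (Int.le_ediv_of_mul_le hk' ?_)
    · rw [add_mul, one_mul]; linarith [a1.2]
    · linarith [a1.1]
  refine ⟨((hG.1 d).2.2.2.2.2.2.2.2.2.1 P x y (f4 x h5) (f4 y h6)).trans h4.le,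
    card_pos.2 (f3.mono h1), ?_⟩
  rw [hn]
  exact ⟨B, K, P, h1, h2, h3, h4, h5, h6⟩

theorem rPath (hO : SOld) (hG : RGeo) : RPath := by
  intro d r k s Θ c i z x hr hk hi
  have part1 : ∀ (n : ℕ) (y : Pt d), Incr (Pth r k Θ c i z s x n y) ∧
      ∀ W, Pth r k Θ c i z s x n y W → dst x y ≤ (n + 1) * (s + 2) ∧ n < W.card := by
    intro n
    induction n with
    | zero =>
      refine fun y => ⟨incr_RPath x y, fun W hW => ?_⟩
      obtain ⟨h1, h2, -⟩ := cn_RPath hG hr hk hW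
      exact ⟨by omega, h2⟩
    | succ n ih =>
      refine fun y => ⟨?_, ?_⟩
      · rintro A A' h ⟨y', x', W₁, W₂, h1, h2, h3⟩
        exact ⟨y', x', W₁, W₂, h1.trans h, h2.trans h, h3⟩
      · rintro W ⟨y', x', W₁, W₂, h1, h2, h3, h4, h5, h6⟩
        obtain ⟨a1, a2⟩ := (ih y').2 W₁ h4
        obtain ⟨b1, b2, -⟩ := cn_RPath hG hr hk h6
        have c1 := (hG.1 d).2.1 x y' y
        have c2 := (hG.1 d).2.1 y' x' y
        have c3 := card_le_card (union_subset h1 h2)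
        rw [card_union_of_disjoint h3] at c3
        refine ⟨?_, by omega⟩
        rw [add_mul (n + 1) 1, one_mul]
        omega
  refine ⟨part1, fun Ω p χ p0 p1 hχ h5 hH n => ?_⟩
  obtain ⟨a1, -, a3, -, a5, -⟩ := hO.1 (Pt d) Ω p p0 (by linarith)
  have hCn : ∀ (x' : Pt d) (Z : Finset (Pt d)), ∑ y ∈ Z, Pr Ω p (Cn r k Θ c i z s x' y) ≤ χ :=
    fun x' Z => le_trans (sum_le_sum fun y _ => a3 _ _ fun A _ hA => (cn_RPath hG hr hk hA).2.2)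
      (hH Ω (insert i Θ) _ x' Z (card_insert_of_notMem hi))
  choose Bl hBl using (hG.1 d).2.2.2.2.2.2.2.2.2.2.2.2.2
  induction n with
  | zero =>
    intro Z
    rw [pow_zero, mul_one]
    exact hCn x Z
  | succ n ih =>
    intro Z
    have step : ∀ y, Pr Ω p (Pth r k Θ c i z s x (n + 1) y) ≤
        ∑ y' ∈ Bl x ((n + 1) * (s + 2)), ∑ x' ∈ Bl y' 2,
          Pr Ω p (Pth r k Θ c i z s x n y') * Pr Ω p (Cn r k Θ c i z s x' y) := by
      intro y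
      refine le_trans (a3 _ (fun A => ∃ y' ∈ Bl x ((n + 1) * (s + 2)), ∃ x' ∈ Bl y' 2,
        ∃ B C : Finset (Pt d), B ⊆ A ∧ C ⊆ A ∧ Disjoint B C ∧ Pth r k Θ c i z s x n y' B ∧
          Cn r k Θ c i z s x' y C) ?_) ((a5 _ _ _).trans (sum_le_sum fun y' _ =>
            (a5 _ _ _).trans (sum_le_sum fun x' _ =>
              bk_RPath hO.1 hO.2.2.1 Ω p0 p1 (part1 n y').1 (incr_RPath x' y))))
      rintro A - ⟨y', x', W₁, W₂, h1, h2, h3, h4, h5, h6⟩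
      exact ⟨y', (hBl _ _).2 _ ((part1 n y').2 _ h4).1, x', (hBl _ _).2 _ h5, W₁, W₂, h1, h2, h3,
        h4, h6⟩
    refine (sum_le_sum fun y _ => step y).trans ?_
    rw [sum_comm]
    refine le_trans (sum_le_sum (g := fun y' => Pr Ω p (Pth r k Θ c i z s x n y') * (1 / 2))
      fun y' _ => ?_) ?_
    · rw [sum_comm]
      refine (sum_le_card_nsmul _ _ (Pr Ω p (Pth r k Θ c i z s x n y') * χ) fun x' _ => ?_).trans ?_
      · rw [← mul_sum]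
        exact mul_le_mul_of_nonneg_left (hCn x' Z) (a1 _)
      · have b1 : ((Bl y' 2).card : ℝ) ≤ 5 ^ d := by exact_mod_cast (hBl y' 2).1
        rw [nsmul_eq_mul, mul_left_comm]
        exact mul_le_mul_of_nonneg_left ((mul_le_mul_of_nonneg_right b1 hχ).trans h5) (a1 _)
    · rw [← sum_mul, pow_succ, ← mul_assoc]
      exact mul_le_mul_of_nonneg_right (ih _) (by norm_num)

end Pool.Agent.MP_6d294b_pr

end

section

open Finset

namespace Pool.Agent.MP_6d294b_pr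

variable {d : ℕ}

/-- the part of the box `Y` in the slab `[a, a + k)` of the direction `i` -/
def slab_RCrs (Y : Bx d) (i : Fin d) (a : ℤ) (k : ℕ) : Bx d := fun s =>
  if s.1 = i then (if s.2 then min (Y s) (a + k - 1) else min (Y s) (- a)) else Y s

lemma vol_RCrs (k m : ℕ) (Θ : Finset (Fin d)) (c : Fin d → ℤ) (Y : Bx d) (hk : 1 ≤ k)
    (hI : InS k Θ c Y) (hm : ∀ l, l ∉ Θ → ex Y l + 1 ≤ m) :
    volB Y ≤ m ^ (d - Θ.card) * k ^ Θ.card := by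
  unfold volB
  rw [← prod_mul_prod_compl Θ, mul_comm]
  apply Nat.mul_le_mul
  · calc ∏ l ∈ Θᶜ, (ex Y l + 1) ≤ ∏ _l ∈ Θᶜ, m :=
          prod_le_prod' fun l hl => hm l (mem_compl.1 hl)
      _ = m ^ (d - Θ.card) := by rw [prod_const, card_compl, Fintype.card_fin]
  · calc ∏ l ∈ Θ, (ex Y l + 1) ≤ ∏ _l ∈ Θ, k := by
          refine prod_le_prod' fun l hl => ?_
          have h := hI l hl
          unfold ex
          omega
      _ = k ^ Θ.card := by rw [prod_const]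

lemma inS_RCrs (k : ℕ) (Θ : Finset (Fin d)) (c : Fin d → ℤ) (i : Fin d) (z n : ℤ) (Y : Bx d)
    (hi : i ∉ Θ) (hI : InS k Θ c Y) :
    InS k (insert i Θ) (off k c i z n) (slab_RCrs Y i (z + n * k) k) := by
  intro t ht
  rcases mem_insert.1 ht with rfl | ht
  · simp only [slab_RCrs, off, Function.update_self, if_true, Bool.false_eq_true, if_false]
    exact ⟨min_le_right _ _, min_le_right _ _⟩
  · have hti : t ≠ i := fun h => hi (h ▸ ht)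
    simp only [slab_RCrs, off, Function.update_of_ne hti, hti, if_false]
    exact hI t ht

lemma volS_RCrs (k m j : ℕ) (Θ : Finset (Fin d)) (c : Fin d → ℤ) (i : Fin d) (z n : ℤ) (Y : Bx d)
    (hk : 1 ≤ k) (hj : Θ.card = j) (hi : i ∉ Θ) (hI : InS k Θ c Y) (hm : ∀ l, ex Y l + 1 ≤ m) :
    (volB (slab_RCrs Y i (z + n * k) k) : ℝ) ≤ (m : ℝ) ^ (d - (j + 1)) * k ^ (j + 1) := by
  have h := vol_RCrs k m (insert i Θ) (off k c i z n) (slab_RCrs Y i (z + n * k) k) hk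
    (inS_RCrs k Θ c i z n Y hi hI) (by
      intro l hl
      have hli : l ≠ i := fun h => hl (h ▸ mem_insert_self _ _)
      have e : ex (slab_RCrs Y i (z + n * k) k) l = ex Y l := by
        simp only [ex, slab_RCrs, hli, if_false]
      rw [e]
      exact hm l)
  rw [card_insert_of_notMem hi, hj] at h
  exact_mod_cast h

lemma le_RCrs (k : ℕ) (Θ : Finset (Fin d)) (c : Fin d → ℤ) (i : Fin d) (z n : ℤ) (P Y : Bx d)
    (hP : P ≤ Y) (hI : InS k (insert i Θ) (off k c i z n) P) :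
    P ≤ slab_RCrs Y i (z + n * k) k := by
  rintro ⟨t, b⟩
  have h1 := hI i (mem_insert_self _ _)
  simp only [off, Function.update_self] at h1
  have h2 := hP (t, b)
  unfold slab_RCrs
  by_cases ht : t = i
  · subst ht
    cases b
    · simp only [if_true, Bool.false_eq_true, if_false]
      exact le_min h2 h1.1
    · simp only [if_true]
      exact le_min h2 h1.2
  · simp only [ht, if_false]
    exact h2

lemma inB_RCrs (k : ℕ) (i : Fin d) (a : ℤ) (x : Pt d) (Y : Bx d) (hx : InB x Y) (h1 : a ≤ x i)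
    (h2 : x i < a + k) : InB x (slab_RCrs Y i a k) := by
  rintro ⟨t, b⟩
  have h3 := hx (t, b)
  unfold slab_RCrs
  by_cases ht : t = i
  · subst ht
    cases b
    · simp only [if_true, Bool.false_eq_true, if_false]
      refine le_min h3 ?_
      simp only [kap, Bool.false_eq_true, if_false]
      omega
    · simp only [if_true]
      refine le_min h3 ?_
      simp only [kap, if_true]
      omega
  · simp only [ht, if_false]
    exact h3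

/-- the event that a group of `g` slabs is crossed -/
def EE_RCrs (r k g s : ℕ) (Θ : Finset (Fin d)) (c : Fin d → ℤ) (i : Fin d) (z : ℤ) (Y : Bx d)
    (W : Finset (Pt d)) : Prop :=
  (∃ n : ℕ, n < g ∧ BigS r k Θ c i z s Y n W) ∨
    ∃ x y : Pt d, InB x Y ∧ z ≤ x i ∧ x i < z + k ∧ Pth r k Θ c i z s x (g - 1) y W

lemma half_RCrs (hO : SOld) (hG : RGeo) (hP : RPath) (r k j : ℕ) (p : ℝ) (s : ℕ) (ε χ : ℝ)
    (g m : ℕ) (hR : Red d r k j p s ε χ g m) (Ω : Finset (Pt d)) (Θ : Finset (Fin d))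
    (c : Fin d → ℤ) (i : Fin d) (z : ℤ) (Y : Bx d) (hj : Θ.card = j) (hi : i ∉ Θ)
    (hI : InS k Θ c Y) (hm : ∀ l, ex Y l + 1 ≤ m) :
    Pr Ω p (EE_RCrs r k g s Θ c i z Y) ≤ 1 / 2 := by
  obtain ⟨hjr, -, hk, hp0, hp1, hε, hχ, hχ5, hg, h1, h2, hA, hB⟩ := hR
  obtain ⟨-, -, hmono, hor, hsum, -⟩ := hO.1 (Pt d) Ω p hp0 (by linarith)
  obtain ⟨V, hV⟩ : ∃ V : ℝ, V = (m : ℝ) ^ (d - (j + 1)) * k ^ (j + 1) := ⟨_, rfl⟩
  rw [← hV] at hA hB
  have hvol : ∀ n : ℤ, (volB (slab_RCrs Y i (z + n * k) k) : ℝ) ≤ V := fun n =>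
    hV ▸ volS_RCrs k m j Θ c i z n Y (by omega) hj hi hI hm
  have hχ2 : χ ≤ 1 / 2 := by
    have h5 : (1 : ℝ) ≤ 5 ^ d := one_le_pow₀ (by norm_num)
    nlinarith
  have e1 : Pr Ω p (fun W => ∃ n : ℕ, n < g ∧ BigS r k Θ c i z s Y n W) ≤ 1 / 4 := by
    have a1 := hsum ℕ (range g) fun n W => BigS r k Θ c i z s Y n W
    have a2 : ∀ n ∈ range g, Pr Ω p (fun W => BigS r k Θ c i z s Y (n : ℕ) W) ≤ ε * V := by
      intro n _
      have b1 := h1 Ω (insert i Θ) (off k c i z n) (slab_RCrs Y i (z + n * k) k)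
        (by rw [card_insert_of_notMem hi, hj]) (inS_RCrs k Θ c i z n Y hi hI)
      refine le_trans (hmono _ _ ?_) (b1.trans (mul_le_mul_of_nonneg_left (hvol n) hε))
      rintro A - ⟨B, K, P, hBA, hF, hPY, hPI, hs⟩
      exact ⟨B, K, P, hBA, hF, le_RCrs k Θ c i z n P Y hPY hPI, hs⟩
    have a3 := sum_le_sum a2
    rw [sum_const, card_range, nsmul_eq_mul] at a3
    refine le_trans (hmono _ _ ?_) (a1.trans (a3.trans (by linarith)))
    rintro A - ⟨n, hn, hb⟩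
    exact ⟨n, mem_range.2 hn, hb⟩
  have e2 : Pr Ω p (fun W => ∃ x y : Pt d, InB x Y ∧ z ≤ x i ∧ x i < z + k ∧
      Pth r k Θ c i z s x (g - 1) y W) ≤ 1 / 4 := by
    obtain ⟨X, hXc, hX⟩ := ((hG.2.2.2.2.2.2.2.1 d).2.2.2.1 (slab_RCrs Y i z k)).2.2.1
    have hXV : (X.card : ℝ) ≤ V := by
      have b1 := hvol 0
      rw [zero_mul, add_zero] at b1
      exact le_trans (by exact_mod_cast hXc) b1
    have a1 := hsum (Pt d) X fun x W => ∃ y, Pth r k Θ c i z s x (g - 1) y W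
    have a2 : ∀ x ∈ X, Pr Ω p (fun W => ∃ y, Pth r k Θ c i z s x (g - 1) y W) ≤ (1 / 2) ^ g := by
      intro x _
      obtain ⟨Z, -, hZ⟩ := (hG.1 d).2.2.2.2.2.2.2.2.2.2.2.2.2 x ((g - 1 + 1) * (s + 2))
      obtain ⟨hP1, hP2⟩ := hP d r k s Θ c i z x (by omega) (by omega) hi
      have b1 := hP2 Ω p χ hp0 hp1 hχ hχ5 (by rw [hj]; exact h2) (g - 1) Z
      have b2 := hsum (Pt d) Z fun y W => Pth r k Θ c i z s x (g - 1) y W
      have b3 : χ * (1 / 2 : ℝ) ^ (g - 1) ≤ (1 / 2) ^ g := by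
        have b4 : (1 / 2 : ℝ) ^ g = 1 / 2 * (1 / 2) ^ (g - 1) := by
          rw [← pow_succ', Nat.sub_add_cancel hg]
        rw [b4]
        exact mul_le_mul_of_nonneg_right hχ2 (by positivity)
      refine le_trans (hmono _ _ ?_) (b2.trans (b1.trans b3))
      rintro A - ⟨y, hy⟩
      exact ⟨y, hZ y ((hP1 (g - 1) y).2 A hy).1, hy⟩
    have a3 := sum_le_sum a2
    rw [sum_const, nsmul_eq_mul] at a3
    have a4 : (X.card : ℝ) * (1 / 2) ^ g ≤ V * (1 / 2) ^ g :=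
      mul_le_mul_of_nonneg_right hXV (by positivity)
    refine le_trans (hmono _ _ ?_) (a1.trans (a3.trans (a4.trans hB)))
    rintro A - ⟨x, y, hx, hx1, hx2, hy⟩
    exact ⟨x, (hX x).2 (inB_RCrs k i z x Y hx hx1 hx2), y, hy⟩
  have e3 := hor _ _ |>.trans (add_le_add e1 e2)
  refine le_trans (hmono _ _ ?_) (e3.trans (by norm_num))
  intro A _ h
  exact h

theorem rCrs (hO : SOld) (hG : RGeo) (hD : RDet) (hP : RPath) : RCrs := by
  intro d r k j p s ε χ g m hR Ω Θ c i z Y n hj hi hI hm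
  have hh := fun z' => half_RCrs hO hG hP r k j p s ε χ g m hR Ω Θ c i z' Y hj hi hI hm
  obtain ⟨hjr, -, hk, hp0, hp1, -, -, -, hg, -⟩ := hR
  obtain ⟨hnn, -, hmono, -⟩ := hO.1 (Pt d) Ω p hp0 (by linarith)
  have hinc : ∀ h ∈ range n,
      Incr (EE_RCrs r k g s Θ c i (z + (h : ℕ) * ((g : ℤ) * k)) Y) := by
    intro h _ A B hAB hE
    rcases hE with ⟨n', hn', B', K, P, hB', hF⟩ | ⟨x, y, hx, hx1, hx2, hy⟩
    · exact Or.inl ⟨n', hn', B', K, P, hB'.trans hAB, hF⟩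
    · exact Or.inr ⟨x, y, hx, hx1, hx2,
        ((hP d r k s Θ c i _ x (by omega) (by omega) hi).1 (g - 1) y).1 A B hAB hy⟩
  have hBK := hO.2.2.1 (Pt d) Ω p hp0 hp1 ℕ (range n)
    (fun h => EE_RCrs r k g s Θ c i (z + (h : ℕ) * ((g : ℤ) * k)) Y) hinc
  have hprod : ∏ h ∈ range n, Pr Ω p (EE_RCrs r k g s Θ c i (z + (h : ℕ) * ((g : ℤ) * k)) Y) ≤
      (1 / 2 : ℝ) ^ n := by
    refine le_trans (prod_le_prod (fun h _ => hnn _) fun h _ => hh _) ?_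
    rw [prod_const, card_range]
  refine le_trans (hmono _ _ ?_) (hBK.trans hprod)
  rintro A - ⟨B, K, P, hBA, hF, hPY, hlo, hhi⟩
  have hgk : (0 : ℤ) ≤ (g : ℤ) * k := by positivity
  refine ⟨fun h => B.filter fun x => z + (h : ℕ) * ((g : ℤ) * k) ≤ x i ∧
    x i < z + (h : ℕ) * ((g : ℤ) * k) + g * k, fun h hh' => ⟨(filter_subset _ _).trans hBA, ?_⟩,
    ?_⟩
  · have hn : (h : ℤ) + 1 ≤ n := by exact_mod_cast mem_range.1 hh'
    have t1 : (0 : ℤ) ≤ (h : ℤ) * ((g : ℤ) * k) := by positivity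
    have t2 : ((h : ℤ) + 1) * ((g : ℤ) * k) ≤ n * ((g : ℤ) * k) :=
      mul_le_mul_of_nonneg_right hn hgk
    exact (hD d r k g s Θ c i (z + (h : ℕ) * ((g : ℤ) * k)) B K P Y (by omega) hk hg hi hF hPY
      hI).1 (by linarith) (by linarith)
  · intro h _ l _ hne
    rw [disjoint_left]
    intro x hx1 hx2
    obtain ⟨-, u1, u2⟩ := mem_filter.1 hx1
    obtain ⟨-, u3, u4⟩ := mem_filter.1 hx2
    rcases lt_or_gt_of_ne hne with hl | hl
    · have hn : (h : ℤ) + 1 ≤ l := by exact_mod_cast hl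
      have t2 := mul_le_mul_of_nonneg_right hn hgk
      linarith
    · have hn : (l : ℤ) + 1 ≤ h := by exact_mod_cast hl
      have t2 := mul_le_mul_of_nonneg_right hn hgk
      linarith

end Pool.Agent.MP_6d294b_pr

end

section

open Finset

namespace Pool.Agent.MP_6d294b_pr

theorem rRed1 (hO : SOld) (hG : RGeo) (hC : RCrs) : RRed1 := by
  classical
  intro d r k j p s ε χ g m s' n hR hs1 hm hn Ω Θ c Y hΘ hY
  obtain ⟨hA, -, -, hGa, -⟩ := hO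
  obtain ⟨hGap, hFill, -, -, -, -, -, hBox, -⟩ := hG
  have hR' := hR
  obtain ⟨r1, r2, r3, p0, p1, -, -, -, g1, -⟩ := hR'
  obtain ⟨-, a1, a2, -, a4, -⟩ := hA (Pt d) Ω p p0 (by linarith)
  have hθ : ∀ v, 2 ≤ thS r k Θ c v := by
    intro v
    have := card_filter_le Θ fun t => v t = c t ∨ v t = c t + k - 1
    unfold thS
    omega
  set X := (boxes Y).filter fun P => Val P ∧ P ≤ Y ∧ s' ≤ psi P ∧ psi P ≤ 2 * s' with hX
  have h1 : Pr Ω p (Ev (thS r k Θ c) fun _ P => P ≤ Y ∧ s' ≤ psi P) ≤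
      Pr Ω p (fun A => ∃ P' ∈ X, Ev (thS r k Θ c) (fun _ P => P = P') A) := by
    refine a2 _ _ fun A _ hE => ?_
    obtain ⟨B, K, P, b1, b2, b3, b4⟩ := hE
    obtain ⟨A', K', P', c1, c2, c3, c4, c5⟩ := (hFill d _ hθ B K P b2).2.2.2.2.2.2.2 psi s'
      (hGap d).2.2.2.2.2.2.2.2.2.2.1
      (fun Q Q' hQ hQ' hg => by
        have := ((hGa d).2.2.2.2 Q Q' hQ hQ').2
        omega) hs1 b4
    have hv : Val P' := ((hGa d).1 A' P' (hFill d _ hθ A' K' P' c2).1).1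
    have hle : P' ≤ Y := c3.trans b3
    exact ⟨P', mem_filter.2 ⟨((hGa d).2.2.2.1 P' Y hv hle).2.2.2.2, hv, hle, c4, c5⟩,
      A', K', P', c1.trans b1, c2, rfl⟩
  have h2 : ∀ P' ∈ X, Pr Ω p (Ev (thS r k Θ c) fun _ P => P = P') ≤ (1 / 2) ^ n := by
    intro P' hP'
    obtain ⟨-, hv, hle, c4, c5⟩ := mem_filter.1 hP'
    rcases Nat.eq_zero_or_pos n with rfl | hn0
    · simpa using a1 _
    obtain ⟨-, b2, -, b4⟩ := (hBox d).2.2.2.1 P'
    obtain ⟨i, hi⟩ := b4 (by omega)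
    have e1 : n * (g * k) ≤ ex P' i := by
      refine Nat.le_of_mul_le_mul_left (c := d) ?_ (by omega)
      calc d * (n * (g * k)) = n * (d * g * k) := by ring
        _ ≤ _ := hn.trans (c4.trans hi)
    have e2 : k ≤ n * (g * k) :=
      (Nat.le_mul_of_pos_left k g1).trans (Nat.le_mul_of_pos_left _ hn0)
    have hS : InS k Θ c P' := fun t ht =>
      ⟨(hle (t, false)).trans (hY t ht).1, (hle (t, true)).trans (hY t ht).2⟩
    have hvi := hv i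
    have hi' : i ∉ Θ := by
      intro h
      have := hS i h
      unfold ex at e1
      omega
    refine le_trans (a2 _ _ fun A _ hE => ?_) (hC d r k j p s ε χ g m hR Ω Θ c i (- P' (i, false))
      P' n hΘ hi' hS fun l => by have := (b2 l).2.2; omega)
    obtain ⟨B, K, P, f1, f2, rfl⟩ := hE
    refine ⟨B, K, P, f1, f2, le_rfl, le_rfl, ?_⟩
    have e3 : ((n * (g * k) : ℕ) : ℤ) ≤ P (i, true) + P (i, false) := by
      unfold ex at e1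
      omega
    push_cast at e3
    linarith
  have h3 : X.card ≤ volB Y * (2 * s' + 1) ^ d :=
    ((hBox d).1 Y X fun P hP => ⟨(mem_filter.1 hP).2.1, (mem_filter.1 hP).2.2.1⟩).2.2 (2 * s')
      fun P hP => (mem_filter.1 hP).2.2.2.2
  have h4 : (X.card : ℝ) ≤ volB Y * (2 * s' + 1 : ℝ) ^ d := by exact_mod_cast h3
  calc _ ≤ _ := h1
    _ ≤ _ := a4 _ X _
    _ ≤ X.card • (1 / 2 : ℝ) ^ n := sum_le_card_nsmul _ _ _ h2
    _ ≤ volB Y * (2 * s' + 1 : ℝ) ^ d * (1 / 2) ^ n := by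
      rw [nsmul_eq_mul]
      exact mul_le_mul_of_nonneg_right h4 (by positivity)
    _ = _ := by ring

end Pool.Agent.MP_6d294b_pr

end
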