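import Pool.Agent.Mg.F6d294b.G28e636
import Pool.Agent.Mg.F6d294b.Gf2a008

set_option linter.all false

section

open Finset

namespace Pool.Agent.MP_6d294b_pr

variable {d : ℕ}

theorem gap_le_Rect {x y : Pt d} {Q P : Bx d} (hx : InB x Q) (hy : InB y P) :
    gap Q P ≤ ∑ i, (x i - y i).natAbs := by
  rw [gap, Fintype.sum_prod_type]
  refine sum_le_sum fun i _ => ?_
  rw [Fintype.sum_bool]
  have h1 := hx (i, true)
  have h2 := hx (i, false)
  have h3 := hy (i, true)
  have h4 := hy (i, false)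
  simp only [kap, opp, if_true, Bool.false_eq_true, if_false, Bool.not_true,
    Bool.not_false] at h1 h2 h3 h4 ⊢
  omega

theorem nbr_Rect {a c : Pt d} (h : ∑ i, (a i - c i).natAbs = 1) {i₀ : Fin d} (h0 : a i₀ ≠ c i₀) :
    (a i₀ - c i₀).natAbs = 1 ∧ ∀ i, i ≠ i₀ → a i = c i := by
  rw [← add_sum_erase _ _ (mem_univ i₀)] at h
  have h1 : ∑ i ∈ univ.erase i₀, (a i - c i).natAbs = 0 := by omega
  refine ⟨by omega, fun i hi => ?_⟩
  have := sum_eq_zero_iff.1 h1 i (by simp [hi])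
  omega

theorem family_Rect (A : Finset (Pt d)) (k : ℕ) : ∀ F : Finset (Finset (Pt d) × Bx d),
    F.card ≤ k → (∀ m ∈ F, Span m.1 m.2 ∧ m.1 ⊆ A) →
    (∀ m ∈ F, ∀ m' ∈ F, m ≠ m' → Disjoint m.1 m'.1) → (∀ x ∈ A, ∃ m ∈ F, x ∈ m.1) →
    ∃ F : Finset (Finset (Pt d) × Bx d), (∀ m ∈ F, Span m.1 m.2 ∧ m.1 ⊆ A) ∧
      (∀ x ∈ A, ∃ m ∈ F, x ∈ m.1) ∧ ∀ m ∈ F, ∀ m' ∈ F, gap m.2 m'.2 ≤ 2 → m = m' := by
  classical
  induction k with
  | zero =>
    intro F hk h1 _ h3
    refine ⟨F, h1, h3, fun m hm => ?_⟩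
    rw [card_eq_zero.1 (Nat.le_zero.1 hk)] at hm
    simp at hm
  | succ k ih =>
    intro F hk h1 h2 h3
    by_cases hc : ∀ m ∈ F, ∀ m' ∈ F, gap m.2 m'.2 ≤ 2 → m = m'
    · exact ⟨F, h1, h3, hc⟩
    push Not at hc
    obtain ⟨m, hm, m', hm', hg, hne⟩ := hc
    have hm'' : m' ∈ F.erase m := mem_erase.2 ⟨hne.symm, hm'⟩
    refine ih (insert (m.1 ∪ m'.1, m.2 ⊔ m'.2) ((F.erase m).erase m')) ?_ ?_ ?_ ?_
    · have e1 := card_insert_le (m.1 ∪ m'.1, m.2 ⊔ m'.2) ((F.erase m).erase m')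
      have e2 := card_erase_of_mem hm''
      have e3 := card_erase_of_mem hm
      have e4 := card_pos.2 ⟨m', hm''⟩
      omega
    · intro z hz
      rcases mem_insert.1 hz with rfl | hz
      · exact ⟨(h1 m hm).1.merge (h1 m' hm').1 (h2 m hm m' hm' hne) hg,
          union_subset (h1 m hm).2 (h1 m' hm').2⟩
      · exact h1 z (mem_of_mem_erase (mem_of_mem_erase hz))
    · have key : ∀ z ∈ (F.erase m).erase m', Disjoint (m.1 ∪ m'.1) z.1 := by
        intro z hz
        simp only [mem_erase] at hz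
        exact disjoint_union_left.2 ⟨h2 m hm z hz.2.2 hz.2.1.symm, h2 m' hm' z hz.2.2 hz.1.symm⟩
      intro z hz z' hz' hzz
      rcases mem_insert.1 hz with e | g <;> rcases mem_insert.1 hz' with e' | g'
      · exact absurd (e.trans e'.symm) hzz
      · rw [e]
        exact key z' g'
      · rw [e']
        exact (key z g).symm
      · exact h2 z (mem_of_mem_erase (mem_of_mem_erase g)) z'
          (mem_of_mem_erase (mem_of_mem_erase g')) hzz
    · intro x hx
      obtain ⟨z, hz, hxz⟩ := h3 x hx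
      by_cases e : z = m
      · exact ⟨_, mem_insert_self _ _, mem_union_left _ (e ▸ hxz)⟩
      by_cases e' : z = m'
      · exact ⟨_, mem_insert_self _ _, mem_union_right _ (e' ▸ hxz)⟩
      exact ⟨z, mem_insert_of_mem (by simp [e, e', hz]), hxz⟩

theorem psi_pt_Rect (x : Pt d) : psi (ptB x) = 0 := by
  simp [psi, ex, ptB, kap]

theorem al_Rect (hG : SGeoA) {N : ℕ} (hN : 1 ≤ N) {B : Finset (Pt d)} {R : Bx d} (h : Span B R) :
    N ≤ psi R → ∃ B' ⊆ B, ∃ R', Span B' R' ∧ N ≤ psi R' ∧ psi R' ≤ 2 * N := by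
  induction h with
  | pt x =>
    rw [psi_pt_Rect]
    omega
  | @merge A B Q P h1 h2 hd hg ih₁ ih₂ =>
    intro h
    by_cases c1 : N ≤ psi Q
    · obtain ⟨B', g1, g2⟩ := ih₁ c1
      exact ⟨B', g1.trans subset_union_left, g2⟩
    by_cases c2 : N ≤ psi P
    · obtain ⟨B', g1, g2⟩ := ih₂ c2
      exact ⟨B', g1.trans subset_union_right, g2⟩
    have := ((hG d).2.2.2.2 Q P ((hG d).1 _ _ h1).1 ((hG d).1 _ _ h2).1).2
    exact ⟨_, Subset.refl _, _, h1.merge h2 hd hg, h, by omega⟩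

theorem sRect (hG : SGeoA) : SRect := by
  classical
  intro d n N hd hN hn A hA
  obtain ⟨F, f1, f2, f3⟩ := family_Rect (A.image (emb d n)) _
    ((A.image (emb d n)).image fun x => ({x}, ptB x)) le_rfl
    (by
      intro m hm
      obtain ⟨x, hx, rfl⟩ := mem_image.1 hm
      exact ⟨.pt x, singleton_subset_iff.2 hx⟩)
    (by
      intro m hm m' hm' hne
      obtain ⟨x, -, rfl⟩ := mem_image.1 hm
      obtain ⟨y, -, rfl⟩ := mem_image.1 hm'
      refine disjoint_singleton.2 ?_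
      rintro rfl
      exact hne rfl)
    (fun x hx => ⟨_, mem_image_of_mem _ hx, mem_singleton_self x⟩)
  have hS := hA {v | ∃ m ∈ F, InB (emb d n v) m.2} (by
      intro v hv
      obtain ⟨m, hm, hx⟩ := f2 _ (mem_image_of_mem _ hv)
      exact ⟨m, hm, ((hG d).1 _ _ (f1 m hm).1).2.1 _ hx⟩)
    (by
      intro v hv
      obtain ⟨u, ⟨⟨m, hm, hu⟩, du⟩, u', ⟨⟨m', hm', hu'⟩, du'⟩, hne⟩ :=
        (Set.one_lt_ncard (Set.toFinite _)).1 hv
      have hdist : ∑ i, (emb d n u i - emb d n u' i).natAbs ≤ 2 := by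
        rw [show 2 = 1 + 1 from rfl]
        nth_rw 1 [← du]
        rw [← du', ← sum_add_distrib]
        refine sum_le_sum fun i _ => ?_
        simp only [emb]
        omega
      obtain rfl := f3 m hm m' hm' ((gap_le_Rect hu hu').trans hdist)
      refine ⟨m, hm, fun s => ?_⟩
      by_contra hs
      have a1 := hu s
      have a2 := hu' s
      have b1 : emb d n u s.1 ≠ emb d n v s.1 := by
        intro e
        simp only [kap, e] at a1 hs
        exact hs a1
      have b2 : emb d n u' s.1 ≠ emb d n v s.1 := by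
        intro e
        simp only [kap, e] at a2 hs
        exact hs a2
      obtain ⟨c1, c2⟩ := nbr_Rect (a := emb d n u) (c := emb d n v) du b1
      obtain ⟨c3, c4⟩ := nbr_Rect (a := emb d n u') (c := emb d n v) du' b2
      refine hne (funext fun i => Fin.ext ?_)
      have : emb d n u i = emb d n u' i := by
        by_cases hi : i = s.1
        · subst hi
          simp only [kap] at a1 a2 hs
          split_ifs at a1 a2 hs <;> omega
        · rw [c2 i hi, c4 i hi]
      simp only [emb] at this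
      omega)
  have hall : ∀ v, ∃ m ∈ F, InB (emb d n v) m.2 := fun v => by
    have : v ∈ {v | ∃ m ∈ F, InB (emb d n v) m.2} := hS ▸ Set.mem_univ v
    exact this
  obtain ⟨i₀⟩ : Nonempty (Fin d) := ⟨⟨0, hd⟩⟩
  have hn0 : 0 < n := by omega
  have hy : ∀ k : ℕ, k < n → ∃ m ∈ F, InB (fun i => if i = i₀ then (k : ℤ) else 0) m.2 := by
    intro k hk
    obtain ⟨m, hm, h⟩ := hall fun i => if i = i₀ then ⟨k, hk⟩ else ⟨0, hn0⟩
    refine ⟨m, hm, ?_⟩
    have e : (emb d n fun i => if i = i₀ then ⟨k, hk⟩ else ⟨0, hn0⟩) =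
        fun i => if i = i₀ then (k : ℤ) else 0 := by
      funext i
      simp only [emb]
      split_ifs <;> rfl
    rwa [e] at h
  obtain ⟨m, hm, h0⟩ := hy 0 hn0
  have hline : ∀ k : ℕ, k < n → InB (fun i => if i = i₀ then (k : ℤ) else 0) m.2 := by
    intro k
    induction k with
    | zero => exact fun _ => h0
    | succ k ih =>
      intro hk
      obtain ⟨m', hm', h'⟩ := hy (k + 1) hk
      have h := gap_le_Rect (ih (by omega)) h'
      rw [sum_eq_single i₀ (fun i _ hi => by simp [hi]) (by simp)] at h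
      simp only [if_true] at h
      rw [f3 m hm m' hm' (by omega)]
      exact h'
  have hpsi : N ≤ psi m.2 := by
    have a1 := hline (n - 1) (by omega) (i₀, true)
    have a2 := h0 (i₀, false)
    simp only [kap, if_true, Bool.false_eq_true, if_false] at a1 a2
    have a3 : ex m.2 i₀ ≤ psi m.2 :=
      single_le_sum (f := ex m.2) (fun _ _ => Nat.zero_le _) (mem_univ i₀)
    rw [ex] at a3
    omega
  obtain ⟨B, g1, R, g2, g3, g4⟩ := al_Rect hG hN (f1 m hm).1 hpsi
  have hB := g1.trans (f1 m hm).2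
  obtain ⟨r1, r2, -, r4⟩ := (hG d).1 _ _ g2
  refine ⟨R, r1, fun s => ?_, g3, g4, B, hB, g2⟩
  obtain ⟨x, hx, hk⟩ := r4 s (R s) (by
    have := r1 s.1
    obtain ⟨i, b⟩ := s
    cases b <;> simp only [opp, Bool.not_true, Bool.not_false] at this ⊢ <;> omega) le_rfl
  have a1 := r2 x hx s
  obtain ⟨v, -, rfl⟩ := mem_image.1 (hB hx)
  have a2 := (v s.1).isLt
  simp only [kap, cube, emb] at a1 hk ⊢
  split_ifs at a1 hk ⊢ <;> omega

end Pool.Agent.MP_6d294b_pr

end

section

open Finset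

namespace Pool.Agent.MP_6d294b_pr

variable {d : ℕ}

theorem inb_RGap {x : Pt d} {P : Bx d} (h : InB x P) (i : Fin d) :
    x i ≤ P (i, true) ∧ - x i ≤ P (i, false) := ⟨h (i, true), h (i, false)⟩

theorem nb_RGap (u v : Pt d) (h : dst u v = 1) :
    ∃ s : Sd d, kap s u = kap s v + 1 ∧ ∀ j, j ≠ s.1 → u j = v j := by
  obtain ⟨i, hi⟩ : ∃ i, u i ≠ v i := by
    by_contra hc
    push Not at hc
    simp [dst, hc] at h
  obtain ⟨h1, h2⟩ := nbr_Rect h hi
  by_cases h3 : u i = v i + 1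
  · exact ⟨(i, true), h3, h2⟩
  · exact ⟨(i, false), show - u i = - v i + 1 by omega, h2⟩

theorem le_RGap {u v : Pt d} {s t : Sd d} (h1 : kap s u = kap s v + 1)
    (h2 : ∀ j, j ≠ s.1 → u j = v j) (h : t ≠ opp s) : kap t v ≤ kap t u := by
  by_cases e : t.1 = s.1
  · obtain rfl : t = s := by
      refine Prod.ext e (by_contra fun h3 => h (Prod.ext e ?_))
      exact Bool.eq_not_iff.2 h3
    omega
  · simp only [kap, h2 _ e, le_refl]

theorem rGap (hO : SOld) : RGap := by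
  intro d
  refine ⟨fun x y => sum_congr rfl fun i _ => by omega, fun x y z => ?_, fun x y s => ?_,
    fun Q P x y hx hy => gap_le_Rect hx hy, fun Q Q' P P' hQ hP => sum_le_sum fun s _ => ?_,
    fun Q P x y hx => ?_, fun Q x => sum_congr rfl fun s _ => ?_,
    fun Q u u' v h h1 h2 hu hu' t => ?_, nb_RGap, fun P x y hx hy => sum_le_sum fun i _ => ?_,
    fun x => sum_eq_zero fun i _ => by simp [ex, ptB, kap],
    fun P x => ⟨Iff.rfl, fun h i => ?_, fun h h0 => funext fun s => ?_⟩,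
    fun Q P hQ => ?_, fun x n => ⟨Fintype.piFinset fun i => Icc (x i - n) (x i + n), ?_,
      fun y hy => Fintype.mem_piFinset.2 fun i => ?_⟩⟩
  · rw [dst, dst, dst, ← sum_add_distrib]
    exact sum_le_sum fun i _ => by omega
  · have h : (x s.1 - y s.1).natAbs ≤ dst x y :=
      single_le_sum (f := fun i => (x i - y i).natAbs) (fun _ _ => Nat.zero_le _) (mem_univ _)
    unfold kap
    split_ifs <;> omega
  · have h1 : Q s ≤ Q' s := hQ s
    have h2 : P (opp s) ≤ P' (opp s) := hP _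
    omega
  · rw [gap, gap, psi, dst, Fintype.sum_prod_type, Fintype.sum_prod_type, ← sum_add_distrib,
      ← sum_add_distrib]
    refine sum_le_sum fun i _ => ?_
    have h := inb_RGap hx i
    simp only [Fintype.sum_bool, ex, ptB, kap, opp, if_true, Bool.false_eq_true, if_false,
      Bool.not_true, Bool.not_false]
    omega
  · obtain ⟨i, _ | _⟩ := s <;> simp [ptB, kap, opp]
  · obtain ⟨s, a1, a2⟩ := nb_RGap u v h1
    obtain ⟨s', b1, b2⟩ := nb_RGap u' v h2
    by_cases e : t = opp s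
    · refine (le_RGap b1 b2 fun e' => h (funext fun j => ?_)).trans (hu' t)
      obtain rfl : s = s' := by
        have e2 := e.symm.trans e'
        simp only [opp, Prod.mk.injEq, Bool.not_inj_iff] at e2
        exact Prod.ext e2.1 e2.2
      by_cases e3 : j = s.1
      · subst e3
        unfold kap at a1 b1
        split_ifs at a1 b1 <;> omega
      · rw [a2 j e3, b2 j e3]
    · exact (le_RGap a1 a2 e).trans (hu t)
  · have h1 := inb_RGap hx i
    have h2 := inb_RGap hy i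
    unfold ex
    omega
  · have h1 := inb_RGap h i
    omega
  · have h1 := inb_RGap h s.1
    have h2 := sum_eq_zero_iff.1 h0 s.1 (mem_univ _)
    obtain ⟨i, _ | _⟩ := s <;> simp only [ex, ptB, kap, if_true, Bool.false_eq_true,
      if_false] at h1 h2 ⊢ <;> omega
  · rw [((hO.2.2.2.1 d).2.2.2.1 Q (Q ⊔ P) hQ le_sup_left).2.2.2.1]
    refine congrArg _ (sum_congr rfl fun s _ => ?_)
    rw [Pi.sup_apply]
    omega
  · simp only [Fintype.card_piFinset, Int.card_Icc]
    rw [prod_congr rfl (g := fun _ => 2 * n + 1) fun i _ => by omega]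
    simp
  · have h : (x i - y i).natAbs ≤ dst x y :=
      single_le_sum (f := fun i => (x i - y i).natAbs) (fun _ _ => Nat.zero_le _) (mem_univ _)
    rw [mem_Icc]
    omega

end Pool.Agent.MP_6d294b_pr

end

section

open Finset

namespace Pool.Agent.MP_6d294b_pr

theorem caseB_RConv {k : ℕ} (hk : 1 ≤ k) {y : ℝ} (h0 : 0 < y) (h1 : y < 1)
    (h : 1 < y ^ k + y / 2) : 0 ≤ 2 * y + k * (2 * y - 1 - y ^ k) := by
  have h2 : y ^ k ≤ y := pow_le_of_le_one h0.le h1.le (by omega)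
  rcases Nat.eq_or_lt_of_le hk with rfl | hk2
  · simp only [pow_one, Nat.cast_one] at h ⊢
    linarith
  · have h3 : y ^ k ≤ y ^ 2 := pow_le_pow_of_le_one h0.le h1.le hk2
    have h4 : 1 + k * (1 - y) ≤ (1 + (1 - y)) ^ k := one_add_mul_le_pow (by linarith) k
    have h5 : y ^ k * (1 + (1 - y)) ^ k ≤ 1 := by
      rw [← mul_pow]
      exact pow_le_one₀ (by nlinarith) (by nlinarith)
    have h6 : y ^ k * (1 + k * (1 - y)) ≤ 1 :=
      (mul_le_mul_of_nonneg_left h4 (by positivity)).trans h5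
    have hk0 : (0 : ℝ) ≤ k := Nat.cast_nonneg k
    have h7 : 0 ≤ k * (1 - y) := mul_nonneg hk0 (by linarith)
    have h8 : k * (1 - y) ≤ 1 := by nlinarith
    have h9 : k * (1 + y ^ k - 2 * y) ≤ k * (1 - y) ^ 2 :=
      mul_le_mul_of_nonneg_left (by nlinarith) hk0
    nlinarith

theorem alg_RConv {k y s b c : ℝ} (hk : 0 ≤ k) (h0 : 0 < y) (h1 : y < 1) (hs : 0 < s)
    (hB : 1 < s + y / 2 → 0 ≤ 2 * y + k * (2 * y - 1 - s)) (hb0 : 0 < b) (hb1 : b ≤ 1)
    (_hu : 1 - y ≤ b) (hq : b ^ 2 = (1 - s) * b + s * (1 - y)) (hD : 0 < 2 * b - 1 + s)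
    (hc : c * (2 * b - 1 + s) = k * (b * (1 - b)) + s * y) :
    0 ≤ c * (2 * b - 1 + s) + (1 - b) * (2 * c - k * s) ∧
      0 ≤ (k + 1) * (b * (2 * b - 1 + s)) + c * (2 * b - 1 + s) + b * (2 * c - k * s) := by
  have e1 : b * (1 - b) = s * (b - (1 - y)) := by linear_combination -hq
  have c1 : 0 ≤ c * (2 * b - 1 + s) := by
    rw [hc]
    have := mul_nonneg hb0.le (sub_nonneg.2 hb1)
    positivity
  have c0 : 0 ≤ c := nonneg_of_mul_nonneg_left c1 hD
  rcases le_or_gt (s + y / 2) 1 with h | h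
  · have a1 : 1 - y / 2 ≤ b := by
      by_contra hn
      have hn' : b < 1 - y / 2 := not_le.1 hn
      have a2 : 0 < (1 - y / 2 - b) * (1 - y / 2 + b - 1 + s) :=
        mul_pos (by linarith) (by linarith)
      have a3 : y / 2 * (s + y / 2 - 1) ≤ 0 := mul_nonpos_of_nonneg_of_nonpos (by linarith)
        (by linarith)
      nlinarith
    have a4 : 0 ≤ k * s := mul_nonneg hk hs.le
    constructor
    · have a5 : 0 ≤ k * s * (2 * b - 2 + y) := mul_nonneg a4 (by linarith)
      have a6 : 0 ≤ (1 - b) * c := mul_nonneg (by linarith) c0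
      have a7 : 0 < s * y := mul_pos hs h0
      rw [hc, e1]
      nlinarith
    · have a5 : 0 ≤ k * b * (2 * b - 1) := mul_nonneg (mul_nonneg hk hb0.le) (by linarith)
      have a6 : 0 ≤ b * c := mul_nonneg hb0.le c0
      have a7 : 0 < b * (2 * b - 1 + s) := mul_pos hb0 hD
      nlinarith
  · have a1 : (2 * c - k * s) * (2 * b - 1 + s) = s * (2 * y + k * (2 * y - 1 - s)) := by
      linear_combination 2 * hc + 2 * k * e1
    have a2 : 0 ≤ 2 * c - k * s := nonneg_of_mul_nonneg_left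
      (by rw [a1]; exact mul_nonneg hs.le (hB h)) hD
    have a3 := mul_nonneg (sub_nonneg.2 hb1) a2
    have a4 := mul_nonneg hb0.le a2
    have a5 : 0 ≤ (k + 1) * (b * (2 * b - 1 + s)) := by positivity
    constructor <;> linarith

theorem rConv (hb : RBet) (hd : RDer) : RConv := by
  intro k hk
  have key : ∀ z : ℝ, 0 < z → ∃ m, HasDerivAt (mkk k) m z ∧ 0 ≤ m := by
    intro z hz
    obtain ⟨-, d2, b0, b1, -⟩ := hd k hk z hz
    have y0 : 0 < Real.exp (-z) := Real.exp_pos _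
    have y1 : Real.exp (-z) < 1 := Real.exp_lt_one_iff.2 (by linarith)
    obtain ⟨u1, u2, u3⟩ := (hb k hk).1 (1 - Real.exp (-z)) (by linarith) (by linarith)
    rw [sub_sub_cancel] at u3
    change _ ≤ bz k z at u1
    change bz k z ≤ 1 at u2
    change bz k z ^ 2 = (1 - Real.exp (-z) ^ k) * bz k z + _ at u3
    have D0 : 0 < dl k z := b0.trans_le b1
    have dy : ∀ j : ℕ, HasDerivAt (fun z => Real.exp (-z) ^ j) (-(j * Real.exp (-z) ^ j)) z :=
      fun j => by
        have := ((hasDerivAt_id z).const_mul (-(j : ℝ))).exp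
        simp only [id, mul_one] at this
        have e : ∀ w : ℝ, Real.exp (-(j : ℝ) * w) = Real.exp (-w) ^ j := fun w => by
          rw [← Real.exp_nat_mul]; congr 1; ring
        simp only [e] at this
        exact this.congr_deriv (by ring)
    have dD : HasDerivAt (dl k) (2 * (-mkk k z * bz k z) - k * Real.exp (-z) ^ k) z :=
      (((d2.const_mul 2).sub_const 1).add (dy k)).congr_deriv (by ring)
    have hc : -mkk k z * bz k z * dl k z =
        k * (bz k z * (1 - bz k z)) + Real.exp (-z) ^ k * Real.exp (-z) := by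
      rw [mkk]
      field_simp
      ring
    obtain ⟨i1, i2⟩ := alg_RConv (Nat.cast_nonneg k) y0 y1 (pow_pos y0 k)
      (caseB_RConv hk y0 y1) b0 u2 u1 u3 D0 hc
    change 0 ≤ _ * dl k z + _ at i1
    change 0 ≤ _ * (_ * dl k z) + _ * dl k z + _ at i2
    have d3 := ((((d2.const_sub 1).const_mul (k : ℝ)).div dD D0.ne').add
      ((dy (k + 1)).div (d2.mul dD) (mul_pos b0 D0).ne')).neg
    refine ⟨_, d3, ?_⟩
    simp only [Pi.mul_apply]
    generalize -mkk k z * bz k z = c at i1 i2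
    have s0 : 0 < Real.exp (-z) ^ (k + 1) := pow_pos y0 _
    have j1 := mul_nonneg (Nat.cast_nonneg (α := ℝ) k) i1
    have j2 := mul_nonneg s0.le i2
    refine neg_nonneg.2 (add_nonpos (div_nonpos_of_nonpos_of_nonneg ?_ (sq_nonneg _))
      (div_nonpos_of_nonpos_of_nonneg ?_ (sq_nonneg _)))
    · linarith
    · push_cast
      linarith
  intro z z' hz hzz
  refine monotoneOn_of_deriv_nonneg (convex_Ioi 0) (fun x hx => ?_) (fun x hx => ?_)
    (fun x hx => ?_) hz (hz.trans_le hzz) hzz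
  · obtain ⟨m, h, -⟩ := key x hx
    exact h.continuousAt.continuousWithinAt
  · rw [interior_Ioi] at hx
    obtain ⟨m, h, -⟩ := key x hx
    exact h.differentiableAt.differentiableWithinAt
  · rw [interior_Ioi] at hx
    obtain ⟨m, h, h'⟩ := key x hx
    rwa [h.deriv]

end Pool.Agent.MP_6d294b_pr

end

section

open Finset

namespace Pool.Agent.MP_6d294b_pr

theorem mvt_RSlope {f f' : ℝ → ℝ} (h : ∀ z, 0 < z → HasDerivAt f (f' z) z) {a b : ℝ}
    (ha : 0 < a) (hab : a < b) : ∃ c, a < c ∧ c < b ∧ f b - f a = f' c * (b - a) := by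
  obtain ⟨c, hc, e⟩ := exists_hasDerivAt_eq_slope f f' hab
    (fun x hx => (h x (ha.trans_le hx.1)).continuousAt.continuousWithinAt)
    (fun x hx => h x (ha.trans hx.1))
  exact ⟨c, hc.1, hc.2, by rw [e, div_mul_cancel₀ _ (sub_pos.2 hab).ne']⟩

theorem pow_RSlope (n : ℕ) (z : ℝ) : 1 - n * z ≤ Real.exp (- z) ^ n := by
  rw [← Real.exp_nat_mul]
  have := Real.add_one_le_exp (n * - z)
  linarith

theorem rSlope (hb : RBet) (hd : RDer) (hc : RConv) : RSlope := by
  intro k hk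
  have hk1 : (1 : ℝ) ≤ k := by exact_mod_cast hk
  have y0 : ∀ z : ℝ, 0 < Real.exp (- z) := fun z => Real.exp_pos _
  have y1 : ∀ z : ℝ, 0 < z → Real.exp (- z) ≤ 1 := fun z hz =>
    Real.exp_le_one_iff.2 (by linarith)
  have hB : ∀ z : ℝ, 0 < z → 1 - Real.exp (- z) ≤ bz k z ∧ bz k z ≤ 1 ∧
      1 - Real.exp (- z) ≤ bz k z ^ 2 := by
    intro z hz
    obtain ⟨a, b, c⟩ := (hb k hk).1 (1 - Real.exp (- z)) (by linarith [y1 z hz])
      (by linarith [y0 z])
    refine ⟨a, b, ?_⟩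
    rw [sub_sub_cancel] at c
    have h1 : Real.exp (- z) ^ k ≤ 1 := pow_le_one₀ (y0 z).le (y1 z hz)
    have h2 := mul_le_mul_of_nonneg_left a (sub_nonneg.2 h1)
    unfold bz
    rw [c]
    linarith
  have hneg : ∀ z : ℝ, 0 < z → mkk k z ≤ - (Real.exp (- z) ^ (k + 1) / (bz k z * dl k z)) := by
    intro z hz
    obtain ⟨-, -, p1, p2, -⟩ := hd k hk z hz
    have : 0 ≤ k * (1 - bz k z) / dl k z :=
      div_nonneg (mul_nonneg (by linarith) (sub_nonneg.2 (hB z hz).2.1)) (p1.le.trans p2)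
    unfold mkk
    linarith
  have hm0 : ∀ z : ℝ, 0 < z → mkk k z ≤ 0 := by
    intro z hz
    obtain ⟨-, -, p1, p2, -⟩ := hd k hk z hz
    exact (hneg z hz).trans (neg_nonpos.2
      (div_nonneg (pow_pos (y0 z) _).le (mul_pos p1 (p1.trans_le p2)).le))
  have htan : ∀ z z' : ℝ, 0 < z → 0 < z' → gk k z + mkk k z * (z' - z) ≤ gk k z' := by
    intro z z' hz hz'
    rcases lt_trichotomy z z' with h | rfl | h
    · obtain ⟨c, c1, c2, e⟩ := mvt_RSlope (fun x hx => (hd k hk x hx).1) hz h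
      have := mul_le_mul_of_nonneg_right (hc k hk z c hz c1.le) (sub_pos.2 h).le
      linarith
    · simp
    · obtain ⟨c, c1, c2, e⟩ := mvt_RSlope (fun x hx => (hd k hk x hx).1) hz' h
      have := mul_le_mul_of_nonneg_right (hc k hk c z (hz'.trans c1) c2.le) (sub_pos.2 h).le
      linarith
  have hup : ∀ z : ℝ, 0 < z → 0 ≤ mkk k z + (k + 1) * z⁻¹ := by
    intro z hz
    obtain ⟨-, -, p1, p2, -⟩ := hd k hk z hz
    obtain ⟨b1, -, b3⟩ := hB z hz
    have p3 := p1.trans_le p2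
    have e1 : z * Real.exp (- z) ≤ 1 - Real.exp (- z) := by
      have h1 := mul_le_mul_of_nonneg_right (Real.add_one_le_exp z) (y0 z).le
      rw [← Real.exp_add, add_neg_cancel, Real.exp_zero] at h1
      linarith
    have e2 : k * (1 - bz k z) / dl k z ≤ k * z⁻¹ := by
      rw [mul_div_assoc]
      refine mul_le_mul_of_nonneg_left ?_ (by linarith)
      rw [inv_eq_one_div, div_le_div_iff₀ p3 hz]
      have := mul_le_mul_of_nonneg_right (show 1 - bz k z ≤ Real.exp (- z) by linarith) hz.le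
      linarith
    have e3 : Real.exp (- z) ^ (k + 1) / (bz k z * dl k z) ≤ z⁻¹ := by
      rw [inv_eq_one_div, div_le_div_iff₀ (mul_pos p1 p3) hz]
      have h1 : Real.exp (- z) ^ (k + 1) ≤ Real.exp (- z) :=
        pow_le_of_le_one (y0 z).le (y1 z hz) (Nat.succ_ne_zero k)
      have h2 := mul_le_mul_of_nonneg_right h1 hz.le
      have h3 := mul_le_mul_of_nonneg_left p2 p1.le
      nlinarith
    unfold mkk
    linarith
  refine ⟨⟨mkk k, htan, hc k hk, hm0, fun z hz hs => ?_⟩, fun z z' hz h => ⟨?_, ?_⟩⟩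
  · obtain ⟨-, -, p1, p2, p4⟩ := hd k hk z hz
    have p3 := p1.trans_le p2
    have h1 : Real.exp (- z) ^ k ≤ 1 := pow_le_one₀ (y0 z).le (y1 z hz)
    have h2 := pow_RSlope k z
    have h3 := pow_RSlope (k + 1) z
    have h4 := pow_RSlope 1 z
    push_cast at h3 h4
    rw [pow_one] at h4
    have h5 : (1 - Real.exp (- z) ^ k) ^ 2 ≤ (k * z) ^ 2 :=
      pow_le_pow_left₀ (by linarith) (by linarith) 2
    have h6 : (k * z) ^ 2 ≤ z / 4 := by nlinarith
    have h7 : Real.exp (- z) ^ k * (1 - Real.exp (- z)) ≤ z :=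
      (mul_le_of_le_one_left (by linarith [y1 z hz]) h1).trans (by linarith)
    have h8 : bz k z * dl k z ≤ 6 * z := by
      have := mul_le_mul_of_nonneg_right p2 p3.le
      nlinarith
    have h9 : ((k : ℝ) + 1) * z ≤ 1 / 2 := by
      have : (k : ℝ) + 1 ≤ 2 * k ^ 2 := by nlinarith
      have := mul_le_mul_of_nonneg_right this hz.le
      linarith
    have h10 : 1 / 12 ≤ z * (Real.exp (- z) ^ (k + 1) / (bz k z * dl k z)) := by
      rw [← mul_div_assoc, div_le_div_iff₀ (by norm_num) (mul_pos p1 p3)]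
      have := mul_le_mul_of_nonneg_left (show 1 / 2 ≤ Real.exp (- z) ^ (k + 1) by linarith) hz.le
      linarith
    have := mul_le_mul_of_nonneg_left (hneg z hz) hz.le
    linarith
  · have h1 := htan z' z (hz.trans_le h) hz
    have := mul_nonneg_of_nonpos_of_nonpos (hm0 z' (hz.trans_le h)) (sub_nonpos.2 h)
    linarith
  · rcases h.eq_or_lt with rfl | h
    · simp
    · obtain ⟨c, c1, c2, e⟩ := mvt_RSlope (f := fun x => gk k x + (k + 1) * Real.log x)
        (f' := fun x => mkk k x + (k + 1) * x⁻¹)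
        (fun x hx => (hd k hk x hx).1.add ((Real.hasDerivAt_log hx.ne').const_mul _)) hz h
      have := mul_nonneg (hup c (hz.trans c1)) (sub_pos.2 h).le
      linarith

end Pool.Agent.MP_6d294b_pr

end

section

open Finset

namespace Pool.Agent.MP_6d294b_pr

open MeasureTheory Set

def HA_RInt (g : ℝ → ℝ) : Prop := ∀ z z' : ℝ, 0 < z → z ≤ z' → g z' ≤ g z

def HB_RInt (g : ℝ → ℝ) : Prop :=
  ∀ z : ℝ, 0 < z → 0 ≤ g z ∧ g z ≤ Real.log (1 + 1 / z) / 2 ∧ (1 ≤ z → g z ≤ Real.exp (- z))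

variable {g : ℝ → ℝ}

theorem anti_RInt (hs : HA_RInt g) (k : ℕ) : AntitoneOn (fun v : ℝ => g (v ^ k)) (Ioi 0) :=
  fun _ ha _ _ hab => hs _ _ (pow_pos ha k) (pow_le_pow_left₀ (le_of_lt ha) hab k)

theorem nn_RInt (hb : HB_RInt g) (k : ℕ) {v : ℝ} (hv : 0 < v) : 0 ≤ g (v ^ k) :=
  (hb _ (pow_pos hv k)).1

theorem small_RInt (hb : HB_RInt g) (k : ℕ) {v : ℝ} (hv : 0 < v) (h1 : v ≤ 1) :
    g (v ^ k) ≤ (Real.log 2 - k * Real.log v) / 2 := by
  have hz := pow_pos hv k
  have h2 : v ^ k ≤ 1 := pow_le_one₀ hv.le h1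
  have h3 := (hb _ hz).2.1
  have h4 : Real.log (1 + 1 / v ^ k) ≤ Real.log (2 / v ^ k) := by
    apply Real.log_le_log (by positivity)
    have : 1 ≤ 1 / v ^ k := by rw [le_div_iff₀ hz]; linarith
    have e : 2 / v ^ k = 1 / v ^ k + 1 / v ^ k := by ring
    linarith
  rw [Real.log_div (by norm_num) hz.ne', Real.log_pow] at h4
  linarith

theorem big_RInt (hb : HB_RInt g) (j : ℕ) {v B : ℝ} (hB : 1 ≤ B) (hv : B ≤ v) :
    g (v ^ (j + 1)) ≤ Real.exp (B - B ^ (j + 1)) * Real.exp (-v) := by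
  have h1 : 1 ≤ B ^ j := one_le_pow₀ hB
  have h2 : B ^ j ≤ v ^ j := pow_le_pow_left₀ (by linarith) hv j
  have h3 : B ^ (j + 1) + (v - B) ≤ v ^ (j + 1) := by
    rw [pow_succ, pow_succ]
    nlinarith [mul_nonneg (sub_nonneg.2 h2) (by linarith : 0 ≤ v),
      mul_nonneg (sub_nonneg.2 h1) (sub_nonneg.2 hv)]
  have h4 : 1 ≤ v ^ (j + 1) := one_le_pow₀ (hB.trans hv)
  refine ((hb _ (by linarith)).2.2 h4).trans ?_
  rw [← Real.exp_add]
  exact Real.exp_le_exp.2 (by linarith)

theorem meas_RInt (hs : HA_RInt g) (k : ℕ) {s : Set ℝ} (hm : MeasurableSet s) (h : s ⊆ Ioi 0) :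
    AEStronglyMeasurable (fun v : ℝ => g (v ^ k)) (volume.restrict s) :=
  (aemeasurable_restrict_of_antitoneOn hm ((anti_RInt hs k).mono h)).aestronglyMeasurable

theorem glog_RInt (k : ℕ) (a b : ℝ) :
    IntervalIntegrable (fun v : ℝ => (Real.log 2 - k * Real.log v) / 2) volume a b :=
  (intervalIntegrable_const.sub (intervalIntegral.intervalIntegrable_log'.const_mul _)).div_const _

theorem gexp_RInt (c B : ℝ) : IntegrableOn (fun v : ℝ => c * Real.exp (-v)) (Ioi B) := by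
  have := exp_neg_integrableOn_Ioi B (b := 1) one_pos
  simp only [neg_mul, one_mul] at this
  exact this.const_mul c

theorem integ_RInt (hb : HB_RInt g) (hs : HA_RInt g) (j : ℕ) :
    IntegrableOn (fun v : ℝ => g (v ^ (j + 1))) (Ioi 0) := by
  rw [← Ioc_union_Ioi_eq_Ioi (zero_le_one' ℝ)]
  refine IntegrableOn.union ?_ ?_
  · refine Integrable.mono' (glog_RInt (j + 1) 0 1).1
      (meas_RInt hs _ measurableSet_Ioc Ioc_subset_Ioi_self) ?_
    refine (ae_restrict_iff' measurableSet_Ioc).2 (ae_of_all _ fun v hv => ?_)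
    rw [Real.norm_of_nonneg (nn_RInt hb _ hv.1)]
    exact small_RInt hb _ hv.1 hv.2
  · refine Integrable.mono' (gexp_RInt (Real.exp (1 - 1 ^ (j + 1))) 1)
      (meas_RInt hs _ measurableSet_Ioi (Ioi_subset_Ioi zero_le_one)) ?_
    refine (ae_restrict_iff' measurableSet_Ioi).2 (ae_of_all _ fun v hv => ?_)
    have hv1 : (1 : ℝ) < v := hv
    rw [Real.norm_of_nonneg (nn_RInt hb _ (by linarith))]
    exact big_RInt hb j le_rfl hv1.le

theorem ii_RInt (hb : HB_RInt g) (hs : HA_RInt g) (j : ℕ) {a b : ℝ} (ha : 0 ≤ a) (hab : a ≤ b) :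
    IntervalIntegrable (fun v : ℝ => g (v ^ (j + 1))) volume a b :=
  (intervalIntegrable_iff_integrableOn_Ioc_of_le hab).2
    ((integ_RInt hb hs j).mono_set fun _ hv => lt_of_le_of_lt ha hv.1)

theorem split_RInt (hb : HB_RInt g) (hs : HA_RInt g) (j : ℕ) {a b : ℝ} (ha : 0 ≤ a) (hab : a ≤ b) :
    (∫ v in Ioi a, g (v ^ (j + 1))) - ∫ v in Ioi b, g (v ^ (j + 1))
      = ∫ v in a..b, g (v ^ (j + 1)) :=
  intervalIntegral.integral_Ioi_sub_Ioi ((integ_RInt hb hs j).mono_set (Ioi_subset_Ioi ha)) hab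

theorem partnn_RInt (hb : HB_RInt g) (k : ℕ) {a b : ℝ} (ha : 0 < a) (hab : a ≤ b) :
    0 ≤ ∫ v in a..b, g (v ^ k) :=
  intervalIntegral.integral_nonneg hab fun _ hv => nn_RInt hb k (lt_of_lt_of_le ha hv.1)

theorem head_RInt (hb : HB_RInt g) (hs : HA_RInt g) (j : ℕ) {q u : ℝ} (hq : 0 < q) (hqu : q ≤ u)
    (hu : u ≤ 1) : ∫ v in (0 : ℝ)..u, g (v ^ (j + 1))
      ≤ ((j : ℝ) + 2) * u * (1 + Real.log (1 / q)) := by
  have hu0 : 0 < u := lt_of_lt_of_le hq hqu
  have h1 : ∫ v in (0 : ℝ)..u, g (v ^ (j + 1))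
      ≤ ∫ v in (0 : ℝ)..u, (Real.log 2 - ((j + 1 : ℕ) : ℝ) * Real.log v) / 2 :=
    intervalIntegral.integral_mono_on_of_le_Ioo hu0.le (ii_RInt hb hs j le_rfl hu0.le)
      (glog_RInt _ _ _) fun v hv => small_RInt hb _ hv.1 (hv.2.le.trans hu)
  rw [intervalIntegral.integral_div, intervalIntegral.integral_sub intervalIntegrable_const
    (intervalIntegral.intervalIntegrable_log'.const_mul _), intervalIntegral.integral_const,
    intervalIntegral.integral_const_mul, integral_log, smul_eq_mul] at h1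
  have h2 : Real.log 2 ≤ 1 := by
    have := Real.log_le_sub_one_of_pos (x := 2) (by norm_num)
    linarith
  have h3 : Real.log q ≤ Real.log u := Real.log_le_log hq hqu
  have h4 : Real.log u ≤ 0 := Real.log_nonpos hu0.le hu
  rw [one_div, Real.log_inv]
  refine h1.trans ?_
  push_cast
  have hj : (0 : ℝ) ≤ j := Nat.cast_nonneg j
  have a1 : u * Real.log 2 ≤ u := by nlinarith
  have a2 : 0 ≤ ((j : ℝ) + 1) * (u * (Real.log u - Real.log q)) := by
    have := sub_nonneg.2 h3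
    positivity
  have a3 : 0 ≤ ((j : ℝ) + 3) * (u * (- Real.log q)) := by
    have : 0 ≤ - Real.log q := by linarith
    positivity
  have a4 : 0 ≤ (j : ℝ) * u := by positivity
  nlinarith

theorem tail_RInt (hb : HB_RInt g) (hs : HA_RInt g) (j : ℕ) {B : ℝ} (hB : 1 ≤ B) :
    ∫ v in Ioi B, g (v ^ (j + 1)) ≤ Real.exp (- B ^ (j + 1)) := by
  have h1 : ∫ v in Ioi B, g (v ^ (j + 1))
      ≤ ∫ v in Ioi B, Real.exp (B - B ^ (j + 1)) * Real.exp (-v) :=
    setIntegral_mono_on ((integ_RInt hb hs j).mono_set (Ioi_subset_Ioi (by linarith)))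
      (gexp_RInt _ _) measurableSet_Ioi fun v hv => big_RInt hb j hB (le_of_lt hv)
  rw [integral_const_mul, integral_exp_neg_Ioi, ← Real.exp_add] at h1
  refine h1.trans_eq ?_
  congr 1
  ring

theorem sum_RInt (hs : HA_RInt g) (k N : ℕ) {a c : ℝ} (ha : 0 < a) (hc : 0 < c) :
    c⁻¹ * ∫ v in a..a + c * N, g (v ^ k) ≤ ∑ t ∈ range N, g ((a + c * t) ^ k) := by
  have h1 : AntitoneOn (fun s : ℝ => g ((a + c * s) ^ k)) (Icc (0 : ℝ) (0 + (N : ℝ))) := by
    intro x hx y hy hxy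
    have hx0 : 0 < a + c * x := by have := hx.1; positivity
    have hy0 : 0 < a + c * y := by have := hy.1; positivity
    exact anti_RInt hs k hx0 hy0 (by nlinarith)
  have h2 := h1.integral_le_sum
  have h3 := intervalIntegral.integral_comp_add_mul (a := 0) (b := 0 + (N : ℝ))
    (fun v : ℝ => g (v ^ k)) hc.ne' a
  rw [h3] at h2
  simpa using h2

theorem rInt : RInt := by
  intro d g hd hs hb q B σ Y N hq hu hB hN hσ0 hσ
  change HA_RInt g at hs
  change HB_RInt g at hb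
  obtain ⟨j, rfl⟩ : ∃ j, d = j + 2 := ⟨d - 2, by omega⟩
  have e : j + 2 - 1 = j + 1 := rfl
  rw [e] at hσ ⊢
  have hj : (0 : ℝ) ≤ j := Nat.cast_nonneg j
  have hτ0 : (0 : ℝ) ≤ Y := Nat.cast_nonneg Y
  set D : ℝ := ((j + 2 : ℕ) : ℝ) with hD
  have hD2 : D = j + 2 := by rw [hD]; push_cast; ring
  have hD0 : 0 < D := by rw [hD2]; positivity
  generalize (Y : ℝ) = τ at *
  set a : ℝ := q * ((D + 1) / D + τ) with ha
  have ha0 : 0 < a := by positivity
  have hau : a ≤ q * (2 + τ) := by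
    have : (D + 1) / D ≤ 2 := by rw [div_le_iff₀ hD0]; linarith
    exact mul_le_mul_of_nonneg_left (by linarith) hq.le
  have hc : 0 < q / D := by positivity
  have hN' : B ≤ q / D * N := by
    rw [div_mul_eq_mul_div, le_div_iff₀ hD0]; exact hN
  have h1 := sum_RInt hs (j + 1) N ha0 hc
  have h2 : ∑ t ∈ range N, g ((a + q / D * t) ^ (j + 1)) ≤ ∑ t ∈ range N,
      g (q ^ (j + 1) * ((((t : ℝ) + D + 1) / D) ^ (j + 1) + σ)) := by
    refine sum_le_sum fun t _ => hs _ _ (by positivity) ?_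
    have e1 : a + q / D * t = q * (((t : ℝ) + D + 1) / D + τ) := by
      rw [ha]; field_simp; ring
    rw [e1, mul_pow]
    refine mul_le_mul_of_nonneg_left ?_ (by positivity)
    refine le_trans ?_ (pow_add_pow_le (by positivity) hτ0 (Nat.succ_ne_zero j))
    linarith
  refine le_trans ?_ (h1.trans h2)
  rw [inv_div]
  refine mul_le_mul_of_nonneg_left ?_ (by positivity)
  have hb1 : B ≤ a + q / D * N := by linarith
  have s1 := split_RInt hb hs j ha0.le (b := a + q / D * N) (by linarith)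
  have s2 := split_RInt hb hs j (a := 0) (b := q * (2 + τ)) le_rfl (by positivity)
  have s3 := split_RInt hb hs j ha0.le hau
  have s4 := split_RInt hb hs j (a := B) (by linarith) hb1
  have p3 := partnn_RInt hb (j + 1) ha0 hau
  have p4 := partnn_RInt hb (j + 1) (a := B) (by linarith) hb1
  have t1 := head_RInt hb hs j hq (u := q * (2 + τ)) (by nlinarith) hu
  have t2 := tail_RInt hb hs j hB
  rw [← hD2] at t1
  linarith

end Pool.Agent.MP_6d294b_pr

end
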