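import Pool.Agent.Mg.F6d294b.Gaca8e3
import Pool.Agent.Mg.F6d294b.G01ca5b

set_option linter.all false

section

/-! Upper bound for all thresholds: one step down in the level. -/

open Finset

namespace Pool.Agent.MP_6d294b_pr

theorem sVStep (h : SVB) : SVStep := by
  intro d K
  obtain ⟨X, hX⟩ := ev_UPar (1 / 16) 2 (by norm_num) (2 * K)
  obtain ⟨Y, y1, y2, y3⟩ : ∃ Y : ℝ, X ≤ Y ∧ 4 ≤ Y ∧ 4 * d ≤ Y :=
    ⟨max (max X 4) (4 * d), by simp only [le_max_iff, le_refl, true_or, or_true, and_self]⟩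
  refine ⟨Y ^ 2, fun r h₁ h₂ j p E m m' p0 p1 hj k1 k2 k3 k4 k5 H1 H2 => ?_⟩
  intro Ω Θ ε v n hΘ hn hΩ
  obtain ⟨x, x0, hx⟩ : ∃ x : ℝ, 0 ≤ x ∧ (n : ℝ) = x ^ 2 :=
    ⟨Real.sqrt n, Real.sqrt_nonneg _, (Real.sq_sqrt (Nat.cast_nonneg n)).symm⟩
  have root : ∀ y : ℝ, y ^ 2 ≤ m' → y ≤ x := fun y hy =>
    le_of_pow_le_pow_left₀ (n := 2) two_ne_zero x0 (by linarith)
  have xY : Y ≤ x := root Y k3
  have x4 : 4 ≤ x := y2.trans xY
  have M1 : x ≤ (⌈x⌉₊ : ℝ) := Nat.le_ceil x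
  have M2 : (⌈x⌉₊ : ℝ) < x + 1 := Nat.ceil_lt_add_one x0
  generalize ⌈x⌉₊ = M at M1 M2
  have M0 : 1 ≤ M := by exact_mod_cast (by linarith : (1 : ℝ) ≤ M)
  have n1 : 1 ≤ n := by exact_mod_cast (by nlinarith : (1 : ℝ) ≤ n)
  have key := h d r h₁ h₂ j n M p (Real.exp (-E)) (1 / (M : ℝ) ^ (2 * (K + d + 1))) p0 p1
    (by positivity) M0 n1 k1 k2 (fun Ω Θ ε w a b => H1 Ω Θ ε w M a M0 b)
    (fun Ω Θ ε u a b => H2 Ω Θ ε u M a ((root m k4).trans M1) b) Ω Θ ε v hΘ hΩ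
  refine le_trans ?_ key
  have t1 := div_UPar n (M + 2) (by omega) (by
    exact_mod_cast (by nlinarith : (M : ℝ) + 2 ≤ n))
  generalize ((n / (M + 2) : ℕ) : ℝ) = t at t1
  push_cast at t1
  have t0 : 0 < t := by
    by_contra hc
    nlinarith
  have t2 : x / 4 ≤ t := by
    have a1 : x * x ≤ x * (4 * t) := by nlinarith
    have a2 := le_of_mul_le_mul_left a1 (by linarith)
    linarith
  have t3 : (x / 4) ^ 2 ≤ t ^ (d - j) :=
    (pow_le_pow_left₀ (by positivity) t2 2).trans (pow_le_pow_right₀ (by linarith) (by omega))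
  have e1 : Real.exp E ≤ x := root _ (by rw [← Real.exp_nat_mul]; exact_mod_cast k5)
  have e2 : 1 / x ≤ Real.exp (-E) := by
    rw [Real.exp_neg, ← one_div]
    exact one_div_le_one_div_of_le (Real.exp_pos E) e1
  have e3 : 1 / 16 * x ≤ Real.exp (-E) * t ^ (d - j) := by
    refine le_trans (le_of_eq ?_) (mul_le_mul e2 t3 (by positivity) (Real.exp_pos _).le)
    field_simp
    norm_num
  have e4 : Real.exp (-(Real.exp (-E) * t ^ (d - j))) ≤ 1 / (2 * (n : ℝ) ^ K) := by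
    rw [Real.exp_neg, ← one_div, hx, ← pow_mul]
    exact one_div_le_one_div_of_le (by positivity)
      ((hX x (y1.trans xY)).trans (Real.exp_le_exp.2 e3))
  have n0 : (0 : ℝ) < n := by exact_mod_cast n1
  have e5 : 1 / (M : ℝ) ^ (2 * (K + d + 1)) ≤ 1 / (n : ℝ) ^ (K + d + 1) := by
    refine one_div_le_one_div_of_le (by positivity) ?_
    rw [hx, ← pow_mul]
    exact pow_le_pow_left₀ x0 M1 _
  have e6 : 2 * d * (n : ℝ) ^ d * (1 / (M : ℝ) ^ (2 * (K + d + 1))) ≤ 1 / (2 * (n : ℝ) ^ K) := by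
    refine (mul_le_mul_of_nonneg_left e5 (by positivity)).trans ?_
    have a1 : 4 * (d : ℝ) ≤ n := by nlinarith
    rw [mul_one_div, div_le_div_iff₀ (by positivity) (by positivity)]
    calc 2 * d * (n : ℝ) ^ d * (2 * (n : ℝ) ^ K) = (n : ℝ) ^ (K + d) * (4 * d) := by ring
      _ ≤ (n : ℝ) ^ (K + d) * n := mul_le_mul_of_nonneg_left a1 (by positivity)
      _ = 1 * (n : ℝ) ^ (K + d + 1) := by ring
  have e7 : 1 / (n : ℝ) ^ K = 1 / (2 * (n : ℝ) ^ K) + 1 / (2 * (n : ℝ) ^ K) := by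
    field_simp
    norm_num
  linarith

theorem sVUp (h1 : SVA) (h2 : SVStep) : SVUp := by
  intro d r hr
  choose n₀ hn using h2 d
  have s0 : 0 ≤ ∑ j ∈ range r, |n₀ (vK d j)| := sum_nonneg fun _ _ => abs_nonneg _
  obtain ⟨w, hw⟩ : ∃ w : ℝ, w = d * 2 ^ d := ⟨_, rfl⟩
  have w0 : 0 ≤ w := by
    rw [hw]
    positivity
  obtain ⟨C, hC⟩ : ∃ C : ℝ, C = 2 + 4 * w + ∑ j ∈ range r, |n₀ (vK d j)| := ⟨_, rfl⟩
  have C2 : 2 ≤ C := by linarith
  refine ⟨C, C2, fun h₁ h₂ j p a b p0 p1 k1 k2 hj D1 D2 hb => ?_⟩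
  obtain ⟨m, E, a1, a2, a3, a4, a5, a6⟩ := D1
  obtain ⟨m', E', b1, b2, -, b4, -, b6⟩ := D2
  have K2 : 2 ≤ vK d (j + 1) := by
    rw [vK]
    omega
  have H := h1 d r h₁ j _ p m E p0 p1 (by linarith) (by linarith) K2 a3 a5 a6
  rw [← hw] at H
  have c1 : 2 * E ≤ m * E := mul_le_mul_of_nonneg_right (by linarith) (by linarith)
  have c2 : w * (m * E + 2) ≤ w * (2 * (m * E)) := mul_le_mul_of_nonneg_left (by linarith) w0
  have c3 : (2 + 4 * w) * (m * E) ≤ C * (m * E) :=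
    mul_le_mul_of_nonneg_right (by linarith) (by linarith)
  have c4 : 0 ≤ w * (m * E + 2) := mul_nonneg w0 (by linarith)
  have c5 : 2 * (E + w * (m * E + 2)) ≤ a := by linarith
  have c6 : C * 1 ≤ C * (m * E) := mul_le_mul_of_nonneg_left (by linarith) (by linarith)
  have c7 : |n₀ (vK d j)| ≤ ∑ j ∈ range r, |n₀ (vK d j)| :=
    single_le_sum (f := fun j => |n₀ (vK d j)|) (fun _ _ => abs_nonneg _) (mem_range.2 (by omega))
  have c8 : m' ≤ b := by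
    have d1 : m' * 1 ≤ m' * E' := mul_le_mul_of_nonneg_left b2 (by linarith)
    have d2 : 1 * (m' * E') ≤ C * (m' * E') :=
      mul_le_mul_of_nonneg_right (by linarith) (by linarith)
    linarith
  refine ⟨fun Ω Θ ε v t e1 e2 e3 => le_trans (Real.exp_le_exp.2 (by linarith))
    (H Ω Θ ε v t e1 e2 e3), hn (vK d j) r h₁ h₂ j p _ m' _ p0 p1 (by omega) k1 k2 ?_
    ((pow_le_pow_left₀ (by linarith) c8 2).trans hb) (Real.exp_le_exp.2 c5) H b6⟩
  linarith [le_abs_self (n₀ (vK d j)), Real.add_one_le_exp a]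

end Pool.Agent.MP_6d294b_pr

end

section

/-! Upper bound for all thresholds: the choice of the parameters. -/

open Finset

namespace Pool.Agent.MP_6d294b_pr

theorem pow_VPar (D : ℕ) (hD : 1 ≤ D) {y₀ z u : ℝ} (h1 : 1 ≤ y₀) (hz : 0 ≤ z) (hu : y₀ ≤ u) :
    (y₀ + z) ^ (D + 1) ≤ (2 * u) ^ (D + 1) * Real.exp (D * z) := by
  have a1 : z / 2 + 1 ≤ Real.exp (z / 2) := Real.add_one_le_exp _
  have a2 : y₀ + z ≤ 2 * u * Real.exp (z / 2) := by
    have b1 : y₀ + z ≤ y₀ * (2 * (z / 2 + 1)) := by nlinarith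
    have b2 : y₀ * (2 * (z / 2 + 1)) ≤ u * (2 * Real.exp (z / 2)) :=
      mul_le_mul hu (by linarith) (by linarith) (by linarith)
    linarith
  refine (pow_le_pow_left₀ (by linarith) a2 _).trans ?_
  rw [mul_pow, ← Real.exp_nat_mul]
  refine mul_le_mul_of_nonneg_left (Real.exp_le_exp.2 ?_) (pow_nonneg (by linarith) _)
  have hD' : (1 : ℝ) ≤ D := by exact_mod_cast hD
  push_cast
  nlinarith

theorem main_VPar (d D K : ℕ) (hD : 1 ≤ D) {la c g x q z L τ : ℝ} (hx0 : 0 < x) (hq : 0 < q)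
    (hqx : q * x ^ 2 = 1) (hc : D * c = g / 2) (hc0 : 0 < c) (hL : 0 < L)
    (hy : 1 ≤ la * x ^ 2 - c * x) (hz : 0 ≤ z)
    (h2 : (K + 1) * (2 * L) ^ D * (2 * la) ^ (D + 1) *
      x ^ (2 * (D + 1) + 2 * (D - 1) * D + 2 * (D * 2 ^ d)) ≤ Real.exp (g / 2 * x))
    (ht : Real.exp (la * x ^ 2 - c * x + z) ≤
      2 * (L * (la * x ^ 2 - c * x + z) * x ^ (2 * (D - 1))) * τ) :
    (K + 1) * (la * x ^ 2 - c * x + z) ≤
      q ^ (D * 2 ^ d) * Real.exp (- (D * (la * x ^ 2))) * Real.exp (g * x) * τ ^ D := by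
  set y := la * x ^ 2 - c * x + z with hyd
  have hy0 : 0 < y := by linarith
  have a1 : y ^ (D + 1) ≤ (2 * (la * x ^ 2)) ^ (D + 1) * Real.exp (D * z) :=
    pow_VPar D hD hy hz (by nlinarith)
  have a2 : Real.exp (D * y) ≤ (2 * (L * y * x ^ (2 * (D - 1)))) ^ D * τ ^ D := by
    rw [Real.exp_nat_mul, ← mul_pow]
    exact pow_le_pow_left₀ (Real.exp_pos _).le ht D
  have a3 : Real.exp (- (D * (la * x ^ 2))) * Real.exp (g * x) * Real.exp (D * y) =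
      Real.exp (g / 2 * x) * Real.exp (D * z) := by
    rw [← Real.exp_add, ← Real.exp_add, ← Real.exp_add]
    congr 1
    have : g = 2 * (D * c) := by linarith
    rw [hyd, this]; ring
  have a4 : x ^ (2 * (D * 2 ^ d)) * q ^ (D * 2 ^ d) = 1 := by
    rw [pow_mul x 2, ← mul_pow, mul_comm, hqx, one_pow]
  set A : ℝ := (2 * (L * y * x ^ (2 * (D - 1)))) ^ D with hA
  have hA0 : 0 < A := by positivity
  set Q : ℝ := q ^ (D * 2 ^ d) with hQ
  have hQ0 : 0 < Q := by positivity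
  have b1 : (K + 1) * y * A = ((K + 1) * (2 * L) ^ D * x ^ (2 * (D - 1) * D)) * y ^ (D + 1) := by
    rw [hA, pow_mul x (2 * (D - 1)) D]
    simp only [mul_pow]
    ring
  have b2 : ((K + 1) * (2 * L) ^ D * x ^ (2 * (D - 1) * D)) * (2 * (la * x ^ 2)) ^ (D + 1) =
      Q * ((K + 1) * (2 * L) ^ D * (2 * la) ^ (D + 1) *
        x ^ (2 * (D + 1) + 2 * (D - 1) * D + 2 * (D * 2 ^ d))) := by
    rw [pow_add, pow_add x, pow_add x, pow_mul x 2 (D + 1), pow_add (2 * la), pow_add (x ^ 2)]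
    simp only [mul_pow]
    linear_combination (-((K + 1 : ℝ) * (2 ^ D * L ^ D) * x ^ (2 * (D - 1) * D) *
      (2 ^ D * (la ^ D * (x ^ 2) ^ D) * (2 ^ 1 * (la ^ 1 * (x ^ 2) ^ 1))))) * a4
  have b3 : (K + 1) * y * A ≤ Q * (Real.exp (g / 2 * x) * Real.exp (D * z)) := by
    rw [b1]
    refine (mul_le_mul_of_nonneg_left a1 (by positivity)).trans ?_
    rw [← mul_assoc, b2, mul_assoc]
    exact mul_le_mul_of_nonneg_left (mul_le_mul_of_nonneg_right h2 (Real.exp_pos _).le) hQ0.le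
  have b4 : Q * (Real.exp (g / 2 * x) * Real.exp (D * z)) ≤
      Q * Real.exp (- (D * (la * x ^ 2))) * Real.exp (g * x) * τ ^ D * A := by
    rw [← a3]
    have := mul_le_mul_of_nonneg_left a2
      (show 0 ≤ Q * Real.exp (- (D * (la * x ^ 2))) * Real.exp (g * x) by positivity)
    linarith
  exact le_of_mul_le_mul_right (b3.trans b4) hA0

theorem sVPar : SVPar := by
  intro d D K κ la hD hDd hκ hla
  have hD2 : (2 : ℝ) ≤ D := by exact_mod_cast hD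
  have hD0 : (0 : ℝ) < D := by linarith
  have hd0 : (0 : ℝ) ≤ d := Nat.cast_nonneg d
  have hK0 : (0 : ℝ) ≤ K := Nat.cast_nonneg K
  obtain ⟨g, hg0, hg⟩ : ∃ g : ℝ, 0 < g ∧ Real.exp (2 * g) = 1 + κ / 4 := by
    refine ⟨Real.log (1 + κ / 4) / 2, ?_, ?_⟩
    · have := Real.log_pos (show 1 < 1 + κ / 4 by linarith)
      linarith
    · rw [mul_div_cancel₀ _ two_ne_zero, Real.exp_log (by linarith)]
  obtain ⟨c, hc0, hc⟩ : ∃ c : ℝ, 0 < c ∧ D * c = g / 2 :=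
    ⟨g / (2 * D), by positivity, by field_simp⟩
  set L : ℝ := K + d + 1 with hL
  have hL1 : 1 ≤ L := by linarith
  obtain ⟨X1, h1⟩ := ev_UPar 1 (L + 3) one_pos (2 * (D - 1) + 1)
  obtain ⟨X2, h2⟩ := ev_UPar (g / 2) ((K + 1) * (2 * (L + 3)) ^ D * (2 * la) ^ (D + 1))
    (by positivity) (2 * (D + 1) + 2 * (D - 1) * D + 2 * (D * 2 ^ d))
  obtain ⟨X, hX1, hX2, hX3, hX4, hX6⟩ : ∃ X : ℝ, X1 ≤ X ∧ X2 ≤ X ∧ 7 ≤ X ∧
      (c + 1) / la ≤ X ∧ 4 * d ≤ X := by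
    refine ⟨max (max X1 X2) (max (max 7 ((c + 1) / la)) (4 * d)), ?_⟩
    simp only [le_max_iff, le_refl, true_or, or_true, and_self]
  refine ⟨c, 1 / X ^ 2, hc0, by positivity, fun q t hq hq0 ht1 => ?_⟩
  obtain ⟨x, hx0, hsq⟩ : ∃ x : ℝ, 0 < x ∧ Real.sqrt q = 1 / x :=
    ⟨1 / Real.sqrt q, by positivity, by simp⟩
  have hqx : q * x ^ 2 = 1 := by
    have := Real.sq_sqrt hq.le
    rw [hsq] at this
    rw [← this]; field_simp
  have hq1 : 1 / q = x ^ 2 := by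
    rw [div_eq_iff hq.ne']; linarith
  have hXx : X ≤ x := by
    have h3 : X ^ 2 ≤ x ^ 2 := by
      rw [le_div_iff₀ (by positivity), ← hqx] at hq0
      exact le_of_mul_le_mul_left hq0 hq
    exact (pow_le_pow_iff_left₀ (by linarith) hx0.le two_ne_zero).1 h3
  have hx7 : 7 ≤ x := hX3.trans hXx
  have hx4 : (2 : ℝ) ^ 2 ≤ x ^ 2 := pow_le_pow_left₀ (by norm_num) (by linarith) 2
  have hq4 : q ≤ 1 / 4 := by linarith [mul_le_mul_of_nonneg_left hx4 hq.le]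
  have hlq : la / q = la * x ^ 2 := by rw [← hq1]; ring
  have hcq : c / Real.sqrt q = c * x := by rw [hsq]; field_simp
  rw [hlq, hcq] at ht1
  have hlx : c + 1 ≤ la * x := by
    have := hX4.trans hXx
    rw [div_le_iff₀ hla] at this
    linarith
  have hy0 : x ≤ la * x ^ 2 - c * x := by linarith [mul_le_mul_of_nonneg_right hlx hx0.le]
  have htpos : (0 : ℝ) < t := lt_of_lt_of_le (Real.exp_pos _) ht1
  obtain ⟨z, hz, hte⟩ : ∃ z : ℝ, 0 ≤ z ∧ Real.exp (la * x ^ 2 - c * x + z) = t := by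
    refine ⟨Real.log t - (la * x ^ 2 - c * x), ?_, ?_⟩
    · have := (Real.le_log_iff_exp_le htpos).2 ht1
      linarith
    · rw [add_sub_cancel, Real.exp_log htpos]
  have hmain := fun τ : ℝ => main_VPar d D K (by omega) (L := L + 3) (z := z) (τ := τ) hx0 hq hqx
    hc hc0 (by linarith) (show 1 ≤ la * x ^ 2 - c * x by linarith) hz
  set y := la * x ^ 2 - c * x + z with hy
  have hxy : x ≤ y := by linarith
  have hyt : y + 1 ≤ t := by rw [← hte]; exact Real.add_one_le_exp y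
  set W : ℝ := x ^ (2 * (D - 1)) with hW
  have hW1 : x ^ 2 ≤ W := pow_le_pow_right₀ (by linarith) (by omega)
  have hqW : q ^ (D - 1) * W = 1 := by
    rw [hW, pow_mul, ← mul_pow, hqx, one_pow]
  have hyW : 7 * x ^ 2 ≤ y * W := mul_le_mul (by linarith) hW1 (by positivity) (by linarith)
  have hs1 : x ^ 2 ≤ (⌈x ^ 2⌉₊ : ℝ) := Nat.le_ceil _
  have hs2 : (⌈x ^ 2⌉₊ : ℝ) < x ^ 2 + 1 := Nat.ceil_lt_add_one (by positivity)
  have hk1 : (⌊x⌋₊ : ℝ) ≤ x := Nat.floor_le hx0.le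
  have hk2 : x < (⌊x⌋₊ : ℝ) + 1 := Nat.lt_floor_add_one x
  have hk3 : 1 ≤ ⌊x⌋₊ := Nat.le_floor (by push_cast; linarith)
  have hk4 : (1 : ℝ) ≤ ⌊x⌋₊ := by exact_mod_cast hk3
  have hLy : y * W ≤ L * (y * W) := le_mul_of_one_le_left (by linarith) hL1
  have hN1 : L * (y * W) ≤ (⌈L * (y * W)⌉₊ : ℝ) := Nat.le_ceil _
  have hN2 : (⌈L * (y * W)⌉₊ : ℝ) < L * (y * W) + 1 := Nat.ceil_lt_add_one (by linarith)
  set N := ⌈L * (y * W)⌉₊ with hN
  refine ⟨⌈x ^ 2⌉₊, ⌊x⌋₊, N, by linarith, by rw [hq1]; exact hs1, ?_, hk3, ?_, ?_, ?_⟩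
  · have : 2 / q = 2 * x ^ 2 := by rw [← hq1]; ring
    rw [this]; linarith
  · have : ((⌊x⌋₊ : ℝ)) ^ 2 ≤ (⌈x ^ 2⌉₊ : ℝ) :=
      (pow_le_pow_left₀ (by positivity) hk1 2).trans hs1
    exact_mod_cast this
  · have : (5 * (⌈x ^ 2⌉₊ : ℝ) + 2) < (N : ℝ) := by linarith
    exact_mod_cast this
  have hexp : ∀ n : ℕ, Real.exp (- (n * y)) = 1 / (t : ℝ) ^ n := by
    intro n
    rw [Real.exp_neg, Real.exp_nat_mul, hte, one_div]
  have htK : (0 : ℝ) < (t : ℝ) ^ K := by positivity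
  have second : 2 * d * (t : ℝ) ^ d * (1 - (1 - Real.exp (- q ^ (D - 1)))) ^ N ≤
      1 / 2 * (1 / (t : ℝ) ^ K) := by
    rw [sub_sub_cancel, ← Real.exp_nat_mul]
    have e2 : Real.exp ((N : ℝ) * -q ^ (D - 1)) ≤ 1 / (t : ℝ) ^ (K + d + 1) := by
      rw [← hexp]
      refine Real.exp_le_exp.2 ?_
      have a1 := mul_le_mul_of_nonneg_left hN1 (show 0 ≤ q ^ (D - 1) by positivity)
      have a2 : q ^ (D - 1) * (L * (y * W)) = L * y := by
        calc q ^ (D - 1) * (L * (y * W)) = L * y * (q ^ (D - 1) * W) := by ring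
          _ = L * y := by rw [hqW, mul_one]
      push_cast
      rw [← hL]
      linarith
    refine (mul_le_mul_of_nonneg_left e2 (by positivity)).trans ?_
    have e3 : 2 * d * (t : ℝ) ^ d * (1 / (t : ℝ) ^ (K + d + 1)) =
        (2 * d / t) * (1 / (t : ℝ) ^ K) := by
      rw [pow_add, pow_add]; field_simp
    rw [e3]
    refine mul_le_mul_of_nonneg_right ?_ (by positivity)
    rw [div_le_iff₀ htpos]
    linarith
  have hp : q ^ D ≤ 1 - Real.exp (-q ^ (D - 1)) := by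
    refine le_trans ?_ (prob_UPar _ (by positivity) (pow_le_one₀ hq.le (by linarith)))
    obtain ⟨e, rfl⟩ : ∃ e, D = e + 1 := ⟨D - 1, by omega⟩
    rw [Nat.add_sub_cancel, pow_succ]
    linarith [mul_le_mul_of_nonneg_left hq4 (pow_pos hq e).le, pow_pos hq e]
  have f1 : q ^ (D * 2 ^ d) ≤ (1 - Real.exp (-q ^ (D - 1))) ^ (2 ^ d) := by
    rw [pow_mul]
    exact pow_le_pow_left₀ (by positivity) hp _
  have f2 : Real.exp (g * x) ≤ (1 + (⌊x⌋₊ : ℝ) ^ 2 * (κ * q)) ^ ⌊x⌋₊ := by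
    have a1 : x ≤ 2 * (⌊x⌋₊ : ℝ) := by linarith
    have a2 : x ^ 2 ≤ (2 * (⌊x⌋₊ : ℝ)) ^ 2 := pow_le_pow_left₀ hx0.le a1 2
    have a3 : 1 / 4 ≤ (⌊x⌋₊ : ℝ) ^ 2 * q := by
      linarith [mul_le_mul_of_nonneg_left a2 hq.le]
    have a4 : Real.exp (2 * g) ≤ 1 + (⌊x⌋₊ : ℝ) ^ 2 * (κ * q) := by
      rw [hg]; linarith [mul_le_mul_of_nonneg_left a3 hκ.le]
    refine le_trans ?_ (pow_le_pow_left₀ (Real.exp_pos _).le a4 _)
    rw [← Real.exp_nat_mul]
    refine Real.exp_le_exp.2 ?_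
    linarith [mul_le_mul_of_nonneg_left a1 hg0.le]
  have f0 : (N : ℝ) + 2 ≤ (L + 3) * y * W := by nlinarith
  have f3 : N + 2 ≤ t := by
    have a1 := h1 y ((hX1.trans hXx).trans hxy)
    rw [one_mul, hte, pow_succ] at a1
    have a2 : W ≤ y ^ (2 * (D - 1)) := pow_le_pow_left₀ hx0.le hxy _
    have a3 : (L + 3) * y * W ≤ (L + 3) * y * y ^ (2 * (D - 1)) :=
      mul_le_mul_of_nonneg_left a2 (mul_nonneg (by linarith) (by linarith))
    have a4 : (N : ℝ) + 2 ≤ t := by linarith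
    exact_mod_cast a4
  have f4 := div_UPar t (N + 2) (by omega) f3
  set τ : ℝ := ((t / (N + 2) : ℕ) : ℝ) with hτ
  have hτ0 : 0 ≤ τ := by positivity
  have f5 : Real.exp y ≤ 2 * ((L + 3) * y * W) * τ := by
    rw [hte]
    push_cast at f4
    exact f4.trans (mul_le_mul_of_nonneg_right (by linarith) hτ0)
  have g3 := hmain τ (h2 x (hX2.trans hXx)) f5
  have hE := Real.exp_pos (-(D * (la * x ^ 2)))
  have hp0 : 0 ≤ (1 - Real.exp (-q ^ (D - 1))) ^ (2 ^ d) := le_trans (by positivity) f1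
  have g4 : (K + 1) * y ≤ (1 - Real.exp (- q ^ (D - 1))) ^ (2 ^ d) * Real.exp (- (D * la / q)) *
      (1 + (⌊x⌋₊ : ℝ) ^ 2 * (κ * q)) ^ ⌊x⌋₊ * τ ^ D := by
    rw [mul_div_assoc, hlq]
    refine g3.trans (mul_le_mul_of_nonneg_right ?_ (by positivity))
    exact mul_le_mul (mul_le_mul_of_nonneg_right f1 hE.le) f2 (Real.exp_pos _).le
      (mul_nonneg hp0 hE.le)
  have first : Real.exp (- ((K + 1) * y)) ≤ 1 / 2 * (1 / (t : ℝ) ^ K) := by
    have := hexp (K + 1)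
    push_cast at this
    rw [this, pow_succ, one_div_mul_one_div, mul_comm (2 : ℝ)]
    exact one_div_le_one_div_of_le (by positivity)
      (mul_le_mul_of_nonneg_left (by linarith) htK.le)
  have g5 := Real.exp_le_exp.2 (neg_le_neg g4)
  linarith

end Pool.Agent.MP_6d294b_pr

end
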