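import Pool.Agent.Mg.F6d294b.G28e636
import Pool.Agent.Mg.F6d294b.Gf2a008
import Pool.Agent.Mg.F6d294b.G01ca5b

set_option linter.all false

section

/-! Upper bound for all thresholds: objects and statements of the steps. -/

open Finset

namespace Pool.Agent.MP_6d294b_pr

section defs

variable {d : ℕ}

def vsg (b : Bool) : ℤ := if b then 1 else -1

/-- the neighbour of `x` in the direction `i` with the orientation `b` -/
def vsh (x : Pt d) (i : Fin d) (b : Bool) : Pt d := Function.update x i (x i + vsg b)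

/-- side lengths of a face: one in the directions of `Θ` -/
def vsd (Θ : Finset (Fin d)) (t : ℕ) (j : Fin d) : ℕ := if j ∈ Θ then 1 else t

/-- the face with lowest corner `v` and side `t`, flat in the directions of `Θ` -/
noncomputable def vface (Θ : Finset (Fin d)) (v : Pt d) (t : ℕ) : Finset (Pt d) :=
  ubox v fun j => v j + vsd Θ t j

/-- the face enlarged by `h` -/
noncomputable def vreg (h : ℕ) (Θ : Finset (Fin d)) (v : Pt d) (t : ℕ) : Finset (Pt d) :=
  ubox (fun j => v j - h) fun j => v j + vsd Θ t j + h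

/-- the `r`-neighbour rule holds on `F` -/
def VCl (r : ℕ) (F : Finset (Pt d)) (S : Set (Pt d)) : Prop :=
  ∀ x ∈ F, ∀ T : Finset (Fin d × Bool), r ≤ T.card → (∀ s ∈ T, vsh x s.1 s.2 ∈ S) → x ∈ S

/-- the sites below `F` are in `S` -/
def VBel (Θ : Finset (Fin d)) (ε : Fin d → Bool) (F : Finset (Pt d)) (S : Set (Pt d)) : Prop :=
  ∀ x ∈ F, ∀ j ∈ Θ, vsh x j (!ε j) ∈ S

/-- the face is filled, given the sites below it -/
def VG (r h : ℕ) (Θ : Finset (Fin d)) (ε : Fin d → Bool) (v : Pt d) (t : ℕ)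
    (A : Finset (Pt d)) : Prop :=
  ∀ S : Set (Pt d), VCl r (vface Θ v t) S → (∀ x ∈ A, x ∈ vreg h Θ v t → x ∈ S) →
    VBel Θ ε (vface Θ v t) S → ∀ x ∈ vface Θ v t, x ∈ S

theorem incr_VG (r h : ℕ) (Θ : Finset (Fin d)) (ε : Fin d → Bool) (v : Pt d) (t : ℕ) :
    Incr (VG r h Θ ε v t) := fun _ _ hAB hA S h1 h2 h3 =>
  hA S h1 (fun x hx => h2 x (hAB hx)) h3

theorem loc_VG (r h : ℕ) (Θ : Finset (Fin d)) (ε : Fin d → Bool) (v : Pt d) (t : ℕ)
    (A : Finset (Pt d)) : VG r h Θ ε v t A ↔ VG r h Θ ε v t (A ∩ vreg h Θ v t) :=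
  ⟨fun hA S h1 h2 h3 => hA S h1 (fun x hx hx' => h2 x (mem_inter.2 ⟨hx, hx'⟩) hx') h3,
    incr_VG r h Θ ε v t _ _ inter_subset_left⟩

/-- corners of the faces used in the growth from side `s` to side `s + 1` -/
def vnx (Θ : Finset (Fin d)) (v : Pt d) (i : Fin d) (s : ℕ) (b : Fin d → Bool) : Pt d :=
  fun j => if j = i then v j + s else if j ∈ Θ then v j else v j + if b j then 1 else 0

noncomputable def vlay (Θ : Finset (Fin d)) (v : Pt d) (i : Fin d) (l h : ℕ) : Finset (Pt d) :=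
  ubox (fun j => if j = i then v j + l + 1 else v j)
    (fun j => if j = i then v j + l + 2 else v j + vsd Θ h j)

noncomputable def vstrip (Θ : Finset (Fin d)) (v : Pt d) (i₁ i₂ : Fin d) (a b : ℕ) :
    Finset (Pt d) :=
  ubox (fun j => if j = i₁ then v j + a + 1 else if j = i₂ then v j + b else v j)
    (fun j => if j = i₁ then v j + a + 2 else if j = i₂ then v j + b + 1 else v j + vsd Θ a j)

noncomputable def vhole (Θ : Finset (Fin d)) (v : Pt d) (i₁ i₂ : Fin d) (a b : ℕ) :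
    Finset (Pt d) :=
  ubox (fun j => if j = i₁ then v j + a + 1 else v j)
    (fun j => if j = i₁ then v j + a + 3 else if j = i₂ then v j + b else v j + vsd Θ (a + 1) j)

/-- a set together with the sites above it -/
noncomputable def vth (Θ : Finset (Fin d)) (ε : Fin d → Bool) (X : Finset (Pt d)) :
    Finset (Pt d) :=
  X ∪ Θ.biUnion fun j => X.image fun x => vsh x j (ε j)

theorem mem_vth {Θ : Finset (Fin d)} {ε : Fin d → Bool} {X : Finset (Pt d)} {y : Pt d} :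
    y ∈ vth Θ ε X ↔ y ∈ X ∨ ∃ j ∈ Θ, ∃ x ∈ X, vsh x j (ε j) = y := by
  simp [vth]

/-- no gap -/
def VNG {α : Type} (X Z : ℕ → Finset α) (J : Finset ℕ) (A : Finset α) : Prop :=
  ∀ l ∈ J, l + 1 ∈ J → Hit (Z l) A ∨ Hit (X (l + 1)) A

def VPos (Θ : Finset (Fin d)) (ε : Fin d → Bool) (v : Pt d) (i₁ i₂ : Fin d) (N : ℕ)
    (W : Finset (ℕ × ℕ)) (A : Finset (Pt d)) : Prop :=
  vface Θ v 2 ⊆ A ∧
  (∀ i, i ∉ Θ → VNG (fun l => vlay Θ v i l (upsi W l))
    (fun l => vth Θ ε (vlay Θ v i l (upsi W l))) (uJ W N i₁ i) A) ∧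
  ∀ u ∈ W, Hit (vstrip Θ v i₁ i₂ u.1 u.2) A ∧ Hit (vlay Θ v i₁ (u.1 + 2) (upsi W (u.1 + 2))) A

def VEv (Θ : Finset (Fin d)) (ε : Fin d → Bool) (v : Pt d) (i₁ i₂ : Fin d) (N : ℕ)
    (W : Finset (ℕ × ℕ)) (A : Finset (Pt d)) : Prop :=
  VPos Θ ε v i₁ i₂ N W A ∧ ∀ u ∈ W, ¬ Hit (vth Θ ε (vhole Θ v i₁ i₂ u.1 u.2)) A

end defs

/-- lower bound for the probability of a growth event -/
noncomputable def vwt (D c : ℕ) (p : ℝ) (N : ℕ) (W : Finset (ℕ × ℕ)) : ℝ :=
  (∏ l ∈ Finset.Ico 1 N, betk c (1 - (1 - p) ^ (upsi W l ^ (D - 1)))) ^ D *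
    ∏ u ∈ W, (1 - (1 - p) ^ (u.1 ^ (D - 2))) * (1 - (1 - p) ^ (upsi W (u.1 + 2) ^ (D - 1))) *
      (1 - p) ^ (c * (2 * u.2 * (u.1 + 1) ^ (D - 2)))

/-- all faces of the level `j` are filled with probability at least `exp (- E)` -/
def VH1 (d r h j : ℕ) (p E : ℝ) : Prop :=
  ∀ (Ω : Finset (Pt d)) (Θ : Finset (Fin d)) (ε : Fin d → Bool) (v : Pt d) (t : ℕ), Θ.card = j →
    1 ≤ t → vreg h Θ v t ⊆ Ω → Real.exp (- E) ≤ Pr Ω p (VG r h Θ ε v t)

/-- large faces of the level `j` are filled with high probability -/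
def VH2 (d r h j : ℕ) (p m : ℝ) (K : ℕ) : Prop :=
  ∀ (Ω : Finset (Pt d)) (Θ : Finset (Fin d)) (ε : Fin d → Bool) (v : Pt d) (t : ℕ), Θ.card = j →
    m ≤ t → vreg h Θ v t ⊆ Ω → 1 - 1 / (t : ℝ) ^ K ≤ Pr Ω p (VG r h Θ ε v t)

def vK (d : ℕ) : ℕ → ℕ
  | 0 => 1
  | j + 1 => 2 * (vK d j + d + 1)

/-- the data of one level -/
def VD (d r h j : ℕ) (p C a : ℝ) : Prop :=
  ∃ m E : ℝ, C ≤ m ∧ 1 ≤ E ∧ Real.exp (- E) ≤ p ∧ C * m * E ≤ a ∧ VH1 d r h j p E ∧
    VH2 d r h j p m (vK d j)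

/-- one infected site fills a box with threshold one -/
def SVFill : Prop := ∀ (d r : ℕ) (Θ : Finset (Fin d)) (ε : Fin d → Bool) (S : Set (Pt d))
  (lo hi y : Pt d), r ≤ Θ.card + 1 → (∀ j ∈ Θ, hi j ≤ lo j + 1) → VCl r (ubox lo hi) S →
  VBel Θ ε (ubox lo hi) S → y ∈ ubox lo hi → y ∈ S → ∀ x ∈ ubox lo hi, x ∈ S

/-- extension of a box by one layer at the threshold two -/
def SVExt : Prop := ∀ (d r N : ℕ) (Θ : Finset (Fin d)) (ε : Fin d → Bool) (S : Set (Pt d))
  (v y : Pt d) (t : Fin d → ℕ) (i : Fin d), r = Θ.card + 2 → i ∉ Θ → VCl r (vface Θ v N) S →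
  VBel Θ ε (vface Θ v N) S → (∀ x : Pt d, (∀ j, v j ≤ x j ∧ x j < v j + t j) → x ∈ S) →
  (∀ j, t j ≤ vsd Θ N j) → 1 ≤ t i → t i < N → (∀ j, j ≠ i → v j ≤ y j ∧ y j < v j + t j) →
  ((y ∈ S ∧ (y i = v i + t i ∨ y i = v i + t i + 1)) ∨
    (y i = v i + t i ∧ ∃ j ∈ Θ, vsh y j (ε j) ∈ S)) →
  ∀ x : Pt d, (∀ j, v j ≤ x j ∧ x j < v j + (Function.update t i (t i + 1) j : ℕ)) → x ∈ S

def SVOne : Prop := ∀ (d r h t : ℕ) (p : ℝ) (Ω : Finset (Pt d)) (Θ : Finset (Fin d))
  (ε : Fin d → Bool) (v : Pt d), 0 ≤ p → p ≤ 1 → Θ.card + 1 = r → r ≤ d → 1 ≤ t →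
  vreg h Θ v t ⊆ Ω → 1 - (1 - p) ^ t ≤ Pr Ω p (VG r h Θ ε v t)

def SVTrans : Prop := ∀ (d n r : ℕ) (p : ℝ), 0 ≤ p → p ≤ 1 →
  vreg 0 (∅ : Finset (Fin d)) 0 n ⊆ grid d n ∧
  Pr (grid d n) p (VG r 0 ∅ (fun _ => true) 0 n) ≤
    Pr (univ : Finset (Fin d → Fin n)) p (PercR d n r)

def SVGrow : Prop := ∀ (d r s k N : ℕ) (Θ : Finset (Fin d)) (ε : Fin d → Bool) (v : Pt d)
  (i₁ i₂ : Fin d) (W : Finset (ℕ × ℕ)) (A : Finset (Pt d)), r = Θ.card + 2 → i₁ ∉ Θ → i₂ ∉ Θ →
  i₁ ≠ i₂ → 2 ≤ s → USep s k N W → VPos Θ ε v i₁ i₂ N W A → VG r 1 Θ ε v N A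

def SVDisj : Prop := ∀ (d s k N : ℕ) (Θ : Finset (Fin d)) (ε : Fin d → Bool) (v : Pt d)
  (i₁ i₂ : Fin d) (W W' : Finset (ℕ × ℕ)) (A : Finset (Pt d)), i₁ ∉ Θ → i₂ ∉ Θ → i₁ ≠ i₂ →
  1 ≤ s → USep s k N W → UInc W W' → ¬ (VEv Θ ε v i₁ i₂ N W A ∧ VEv Θ ε v i₁ i₂ N W' A)

/-- probability of having no gap -/
def SVNG : Prop := ∀ (α : Type) [DecidableEq α] (Ω : Finset α) (p : ℝ), 0 ≤ p → p ≤ 1 →
  ∀ (c : ℕ) (X Z : ℕ → Finset α) (J : Finset ℕ), 1 ≤ c → (∀ l ∈ J, X l ⊆ Z l ∧ Z l ⊆ Ω) →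
    (∀ l ∈ J, (Z l).card = c * (X l).card) →
    (∀ l ∈ J, ∀ l' ∈ J, l ≠ l' → Disjoint (Z l) (Z l')) →
    (∀ l ∈ J, l + 1 ∈ J → (X l).card ≤ (X (l + 1)).card) →
    ∏ l ∈ J, betk c (1 - (1 - p) ^ (X l).card) ≤ Pr Ω p (VNG X Z J)

/-- cardinalities -/
def SVTh : Prop := ∀ (d : ℕ) (Θ : Finset (Fin d)) (ε : Fin d → Bool) (v : Pt d),
  (∀ X : Finset (Pt d), (vth Θ ε X).card ≤ (Θ.card + 1) * X.card ∧
    ((∀ x ∈ X, ∀ j ∈ Θ, x j = v j) → (vth Θ ε X).card = (Θ.card + 1) * X.card) ∧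
    ∀ y ∈ vth Θ ε X, ∃ x ∈ X, (∀ j, j ∉ Θ → y j = x j) ∧ ∀ j, x j - 1 ≤ y j ∧ y j ≤ x j + 1) ∧
  (∀ t : ℕ, (vface Θ v t).card = t ^ (d - Θ.card)) ∧
  (∀ (i : Fin d) (l h : ℕ), i ∉ Θ → (vlay Θ v i l h).card = h ^ (d - Θ.card - 1)) ∧
  ∀ (i₁ i₂ : Fin d) (a b : ℕ), i₁ ∉ Θ → i₂ ∉ Θ → i₁ ≠ i₂ →
    (vstrip Θ v i₁ i₂ a b).card = a ^ (d - Θ.card - 2) ∧
    (vhole Θ v i₁ i₂ a b).card = 2 * b * (a + 1) ^ (d - Θ.card - 2)

def SVEv : Prop := ∀ (d s k N : ℕ) (Ω : Finset (Pt d)) (p : ℝ) (Θ : Finset (Fin d))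
  (ε : Fin d → Bool) (v : Pt d) (i₁ i₂ : Fin d) (W : Finset (ℕ × ℕ)), 0 ≤ p → p ≤ 1 → i₁ ∉ Θ →
  i₂ ∉ Θ → i₁ ≠ i₂ → 1 ≤ s → 1 ≤ N → USep s k N W → vreg 1 Θ v N ⊆ Ω →
  p ^ (2 ^ d) * vwt (d - Θ.card) (Θ.card + 1) p N W ≤ Pr Ω p (VEv Θ ε v i₁ i₂ N W)

def SVSum : Prop := ∀ d r : ℕ, 2 ≤ r → r ≤ d → 0 < lamk d r ∧ ∀ (N : ℕ) (q : ℝ), 0 < q →
  ∑ l ∈ Finset.Ico 1 N, gk (r - 1) ((q * l) ^ (d - r + 1)) ≤ lamk d r / q

def SVCost : Prop := ∀ d r : ℕ, 2 ≤ r → r ≤ d → ∃ κ : ℝ, 0 < κ ∧ κ ≤ 1 ∧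
  ∀ (q : ℝ) (s k N : ℕ) (W : Finset (ℕ × ℕ)), 0 < q → q ≤ 1 → 1 / q ≤ s → (s : ℝ) ≤ 2 / q →
    k ^ 2 ≤ s → USep s k N W →
    Real.exp (- ((d - r + 2 : ℕ) * lamk d r / q)) * (κ * q) ^ W.card ≤
      vwt (d - r + 2) (r - 1) (1 - Real.exp (- q ^ (d - r + 1))) N W

def SVDrop : Prop := ∀ d r : ℕ, 2 ≤ r → r ≤ d → ∃ κ : ℝ, 0 < κ ∧
  ∀ (q : ℝ) (s k N : ℕ) (Ω : Finset (Pt d)) (Θ : Finset (Fin d)) (ε : Fin d → Bool) (v : Pt d),
    0 < q → q ≤ 1 / 2 → 1 / q ≤ s → (s : ℝ) ≤ 2 / q → 1 ≤ k → k ^ 2 ≤ s → 5 * s + 2 < N →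
    Θ.card = r - 2 → vreg 1 Θ v N ⊆ Ω →
    (1 - Real.exp (- q ^ (d - r + 1))) ^ (2 ^ d) * Real.exp (- ((d - r + 2 : ℕ) * lamk d r / q)) *
      (1 + (k : ℝ) ^ 2 * (κ * q)) ^ k ≤ Pr Ω (1 - Real.exp (- q ^ (d - r + 1))) (VG r 1 Θ ε v N)

/-- growth from the corner -/
def SVAd : Prop := ∀ (d r h t : ℕ) (Θ : Finset (Fin d)) (ε : Fin d → Bool) (v : Pt d),
  (∀ (s : ℕ) (i : Fin d) (b : Fin d → Bool), 1 ≤ s → s < t → i ∉ Θ →
    vreg h (insert i Θ) (vnx Θ v i s b) s ⊆ vreg h Θ v t) ∧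
  ∀ A : Finset (Pt d), 1 ≤ t → v ∈ A → (∀ (s : ℕ) (i : Fin d) (b : Fin d → Bool), 1 ≤ s → s < t →
    i ∉ Θ → VG r h (insert i Θ) (Function.update ε i true) (vnx Θ v i s b) s A) →
    VG r h Θ ε v t A

def SVA : Prop := ∀ (d r h j K : ℕ) (p m E : ℝ), 0 ≤ p → p ≤ 1 → 2 ≤ m → 0 ≤ E → 2 ≤ K →
  Real.exp (- E) ≤ p → VH1 d r h (j + 1) p E → VH2 d r h (j + 1) p m K →
  VH1 d r h j p (E + d * 2 ^ d * (m * E + 2))

/-- a droplet sweeps the face -/
def SVBd : Prop := ∀ (d r h₁ h₂ n M : ℕ) (Θ : Finset (Fin d)) (ε : Fin d → Bool) (v w : Pt d)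
  (A : Finset (Pt d)), 1 ≤ M → vface Θ w M ⊆ vface Θ v n → vreg h₁ Θ w M ⊆ vreg h₂ Θ v n →
  VG r h₁ Θ ε w M A →
  (∀ (i : Fin d) (b : Bool) (u : Pt d), i ∉ Θ → vface (insert i Θ) u M ⊆ vface Θ v n →
    VG r h₂ (insert i Θ) (Function.update ε i b) u M A) → VG r h₂ Θ ε v n A

def SVB : Prop := ∀ (d r h₁ h₂ j n M : ℕ) (p δ φ : ℝ), 0 ≤ p → p ≤ 1 → 0 ≤ φ → 1 ≤ M → 1 ≤ n →
  h₁ ≤ 1 → (h₁ ≤ h₂ ∨ j = 0) →
  (∀ (Ω : Finset (Pt d)) (Θ : Finset (Fin d)) (ε : Fin d → Bool) (w : Pt d), Θ.card = j →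
    vreg h₁ Θ w M ⊆ Ω → δ ≤ Pr Ω p (VG r h₁ Θ ε w M)) →
  (∀ (Ω : Finset (Pt d)) (Θ : Finset (Fin d)) (ε : Fin d → Bool) (u : Pt d), Θ.card = j + 1 →
    vreg h₂ Θ u M ⊆ Ω → 1 - φ ≤ Pr Ω p (VG r h₂ Θ ε u M)) →
  ∀ (Ω : Finset (Pt d)) (Θ : Finset (Fin d)) (ε : Fin d → Bool) (v : Pt d), Θ.card = j →
    vreg h₂ Θ v n ⊆ Ω →
    1 - Real.exp (- (δ * ((n / (M + 2) : ℕ) : ℝ) ^ (d - j))) - 2 * d * (n : ℝ) ^ d * φ ≤
      Pr Ω p (VG r h₂ Θ ε v n)

def SVStep : Prop := ∀ d K : ℕ, ∃ n₀ : ℝ, ∀ (r h₁ h₂ j : ℕ) (p E m m' : ℝ), 0 ≤ p → p ≤ 1 →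
  j + 2 ≤ d → h₁ ≤ 1 → (h₁ ≤ h₂ ∨ j = 0) → n₀ ≤ m' → m ^ 2 ≤ m' → Real.exp (2 * E) ≤ m' →
  VH1 d r h₁ j p E → VH2 d r h₂ (j + 1) p m (2 * (K + d + 1)) → VH2 d r h₂ j p m' K

def VUp (d r : ℕ) (C : ℝ) : Prop := ∀ (h₁ h₂ j : ℕ) (p a b : ℝ), 0 ≤ p → p ≤ 1 → h₁ ≤ 1 →
  (h₁ ≤ h₂ ∨ j = 0) → j + 2 ≤ r → VD d r h₁ (j + 1) p C a → VD d r h₂ (j + 1) p C b →
  b ^ 2 ≤ Real.exp a → VH1 d r h₁ j p a ∧ VH2 d r h₂ j p (Real.exp a) (vK d j)

def SVUp : Prop := ∀ d r : ℕ, r ≤ d → ∃ C : ℝ, 2 ≤ C ∧ VUp d r C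

def SVIter : Prop :=
  (∀ (i : ℕ) (y : ℝ), 0 ≤ y → 2 * Real.exp^[i + 1] y ≤ Real.exp^[i + 1] (y + 1)) ∧
  (∀ (i : ℕ) (y z : ℝ), y ≤ z → Real.exp^[i] y ≤ Real.exp^[i] z) ∧
  ∀ (d r h j i : ℕ) (p C x : ℝ), 0 ≤ p → p ≤ 1 → h ≤ 1 → 2 ≤ C → 0 ≤ x → j + i + 1 ≤ r →
    VUp d r C → VD d r h (j + i) p C (Real.exp x) → VD d r h j p C (Real.exp^[i + 1] (x + i))

/-- choice of the parameters at the threshold two -/
def SVPar : Prop := ∀ (d D K : ℕ) (κ la : ℝ), 2 ≤ D → D ≤ d → 0 < κ → 0 < la →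
  ∃ c q₀ : ℝ, 0 < c ∧ 0 < q₀ ∧ ∀ (q : ℝ) (t : ℕ), 0 < q → q ≤ q₀ →
    Real.exp (la / q - c / Real.sqrt q) ≤ t → ∃ s k N : ℕ, q ≤ 1 / 2 ∧ 1 / q ≤ s ∧
      (s : ℝ) ≤ 2 / q ∧ 1 ≤ k ∧ k ^ 2 ≤ s ∧ 5 * s + 2 < N ∧
      Real.exp (- ((1 - Real.exp (- q ^ (D - 1))) ^ (2 ^ d) * Real.exp (- (D * la / q)) *
          (1 + (k : ℝ) ^ 2 * (κ * q)) ^ k * ((t / (N + 2) : ℕ) : ℝ) ^ D)) +
        2 * d * (t : ℝ) ^ d * (1 - (1 - Real.exp (- q ^ (D - 1)))) ^ N ≤ 1 / (t : ℝ) ^ K

def SVBase : Prop := ∀ d r K : ℕ, 2 ≤ r → r ≤ d → ∃ c q₀ : ℝ, 0 < c ∧ 0 < q₀ ∧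
  ∀ (q : ℝ) (h : ℕ), 0 < q → q ≤ q₀ → (h = 1 ∨ r = 2) →
    VH2 d r h (r - 2) (1 - Real.exp (- q ^ (d - r + 1)))
      (Real.exp (lamk d r / q - c / Real.sqrt q)) K

/-- the level with threshold one -/
def SVBare : Prop := ∀ (d r : ℕ) (C η : ℝ), 1 ≤ r → r ≤ d → 0 < η → ∃ q₀ : ℝ, 0 < q₀ ∧
  ∀ (q : ℝ) (h : ℕ), 0 < q → q ≤ q₀ →
    VD d r h (r - 1) (1 - Real.exp (- q ^ (d - r + 1))) C (Real.exp (η / Real.sqrt q))

def SVPerc : Prop := ∀ d r : ℕ, 2 ≤ r → r ≤ d → ∃ c q₀ : ℝ, 0 < c ∧ 0 < q₀ ∧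
  ∀ (q : ℝ) (n : ℕ), 0 < q → q ≤ q₀ → Real.exp^[r - 1] (lamk d r / q - c / Real.sqrt q) ≤ n →
    1 / 2 ≤ Pr (univ : Finset (Fin d → Fin n)) (1 - Real.exp (- q ^ (d - r + 1))) (PercR d n r)

/-- the upper bound for the critical probability -/
def SVFinal : Prop := ∀ d r : ℕ, 2 ≤ r → r ≤ d → ∃ c : ℝ, 0 < c ∧ ∃ n₀ : ℕ, ∀ n : ℕ, n₀ ≤ n →
  c / Real.log^[r - 1] (n : ℝ) ^ (3 / 2 : ℝ) ≤ lamk d r / Real.log^[r - 1] (n : ℝ) -
    (sInf {p : ℝ | 0 ≤ p ∧ p ≤ 1 ∧
      (1 / 2 : ℝ) ≤ Pr (univ : Finset (Fin d → Fin n)) p (PercR d n r)}) ^ (1 / ((d : ℝ) - r + 1))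

end Pool.Agent.MP_6d294b_pr

end

section

/-! Filling a face at the thresholds one and two. -/

open Finset

namespace Pool.Agent.MP_6d294b_pr

lemma cl_VFill {d r : ℕ} {Θ : Finset (Fin d)} {ε : Fin d → Bool} {F : Finset (Pt d)}
    {S : Set (Pt d)} (hS : VCl r F S) (hB : VBel Θ ε F S) {x : Pt d} (hx : x ∈ F)
    (U : Finset (Fin d × Bool)) (hU : ∀ s ∈ U, s.1 ∈ Θ → s.2 = ε s.1) (hr : r ≤ Θ.card + U.card)
    (h : ∀ s ∈ U, vsh x s.1 s.2 ∈ S) : x ∈ S := by
  refine hS x hx (Θ.image (fun t => (t, !ε t)) ∪ U) ?_ fun s hs => ?_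
  · rw [card_union_of_disjoint, card_image_of_injective _ fun a b e => congrArg Prod.fst e]
    · exact hr
    · refine disjoint_left.2 fun s hs hs' => ?_
      obtain ⟨t, ht, rfl⟩ := mem_image.1 hs
      simpa using hU _ hs' ht
  · rcases mem_union.1 hs with hs | hs
    · obtain ⟨t, ht, rfl⟩ := mem_image.1 hs
      exact hB x hx t ht
    · exact h s hs

theorem sVFill : SVFill := by
  intro d r Θ ε S lo hi y hr hΘ hS hB hyb hy
  rw [mem_ubox] at hyb
  have key : ∀ (m : ℕ) (x : Pt d), ∑ j, (x j - y j).natAbs < m → x ∈ ubox lo hi → x ∈ S := by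
    intro m
    induction m with
    | zero => exact fun x h => absurd h (Nat.not_lt_zero _)
    | succ m ih =>
      intro x hm hx
      by_cases hxy : x = y
      · exact hxy ▸ hy
      obtain ⟨j, hj⟩ := Function.ne_iff.1 hxy
      have a1 := mem_ubox.1 hx j
      have a2 := hyb j
      have jΘ : j ∉ Θ := fun h => by
        have := hΘ j h
        omega
      obtain ⟨b, hb⟩ : ∃ b : Bool, vsg b = 1 ∧ x j < y j ∨ vsg b = -1 ∧ y j < x j := by
        rcases lt_or_gt_of_ne hj with h | h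
        · exact ⟨true, Or.inl ⟨rfl, h⟩⟩
        · exact ⟨false, Or.inr ⟨rfl, h⟩⟩
      refine cl_VFill hS hB hx {(j, b)} (fun s hs h => ?_) (by simpa using hr) fun s hs => ?_
      · rw [mem_singleton.1 hs] at h
        exact absurd h jΘ
      rw [mem_singleton.1 hs]
      have lt : ∑ k, (vsh x j b k - y k).natAbs < ∑ k, (x k - y k).natAbs :=
        Finset.sum_lt_sum (fun k _ => by
          rcases eq_or_ne k j with rfl | e
          · rw [vsh, Function.update_self]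
            omega
          · rw [vsh, Function.update_of_ne e]) ⟨j, mem_univ j, by
            rw [vsh, Function.update_self]
            omega⟩
      refine ih (vsh x j b) (lt.trans_le (Nat.lt_succ_iff.1 hm)) (mem_ubox.2 fun k => ?_)
      rcases eq_or_ne k j with rfl | e
      · rw [vsh, Function.update_self]
        omega
      · rw [vsh, Function.update_of_ne e]
        exact mem_ubox.1 hx k
  exact fun x => key _ x (Nat.lt_succ_self _)

theorem sVExt (h : SVFill) : SVExt := by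
  intro d r N Θ ε S v y t i hr hi hS hB hin ht h1 hN hc hy
  have sub : ∀ x : Pt d, x i = v i + t i → (∀ j, j ≠ i → v j ≤ x j ∧ x j < v j + t j) →
      x ∈ vface Θ v N ∧ vsh x i false ∈ S := fun x xi hx => by
    refine ⟨mem_ubox.2 fun j => ?_, hin _ fun j => ?_⟩
    · rcases eq_or_ne j i with rfl | e
      · rw [vsd, if_neg hi]
        omega
      · have := hx j e
        have := ht j
        omega
    · rcases eq_or_ne j i with rfl | e
      · rw [vsh, Function.update_self, show vsg false = -1 from rfl]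
        omega
      · rw [vsh, Function.update_of_ne e]
        exact hx j e
  have zc : ∀ j, j ≠ i → v j ≤ Function.update y i (v i + t i) j ∧
      Function.update y i (v i + t i) j < v j + t j := fun j e => by
    rw [Function.update_of_ne e]
    exact hc j e
  obtain ⟨z1, z2⟩ := sub _ (Function.update_self ..) zc
  have hz : Function.update y i (v i + t i) ∈ S := by
    rcases hy with ⟨hy, e | e⟩ | ⟨e, j, hj, hy⟩
    · rwa [← e, Function.update_eq_self]
    · refine cl_VFill hS hB z1 {(i, false), (i, true)} (fun s hs h => ?_) ?_ fun s hs => ?_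
      · rcases mem_insert.1 hs with rfl | hs
        · exact absurd h hi
        · rw [mem_singleton.1 hs] at h
          exact absurd h hi
      · rw [card_pair (by simp), hr]
      · rcases mem_insert.1 hs with rfl | hs
        · exact z2
        · rw [mem_singleton.1 hs, vsh, Function.update_idem, Function.update_self,
            show vsg true = 1 from rfl, ← e, Function.update_eq_self]
          exact hy
    · refine cl_VFill hS hB z1 {(i, false), (j, ε j)} (fun s hs h => ?_) ?_ fun s hs => ?_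
      · rcases mem_insert.1 hs with rfl | hs
        · exact absurd h hi
        · rw [mem_singleton.1 hs]
      · rw [card_pair fun e' => hi (by rw [show i = j from congrArg Prod.fst e']; exact hj), hr]
      · rcases mem_insert.1 hs with rfl | hs
        · exact z2
        · rw [mem_singleton.1 hs, ← e, Function.update_eq_self]
          exact hy
  have box : ∀ x : Pt d, x ∈ ubox (Function.update v i (v i + t i))
      (fun j => if j = i then v i + t i + 1 else v j + t j) ↔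
      x i = v i + t i ∧ ∀ j, j ≠ i → v j ≤ x j ∧ x j < v j + t j := fun x => by
    rw [mem_ubox]
    refine ⟨fun hx => ⟨?_, fun j e => ?_⟩, fun hx j => ?_⟩
    · have := hx i
      rw [Function.update_self, if_pos rfl] at this
      omega
    · have := hx j
      rwa [Function.update_of_ne e, if_neg e] at this
    · rcases eq_or_ne j i with rfl | e
      · rw [Function.update_self, if_pos rfl]
        omega
      · rw [Function.update_of_ne e, if_neg e]
        exact hx.2 j e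
  have hf := h d r (insert i Θ) (Function.update ε i true) S (Function.update v i (v i + t i))
    (fun j => if j = i then v i + t i + 1 else v j + t j) _
    (by rw [card_insert_of_notMem hi]; omega)
    (fun j hj => by
      rcases eq_or_ne j i with rfl | e
      · rw [Function.update_self, if_pos rfl]
      · have := ht j
        rw [vsd, if_pos ((mem_insert.1 hj).resolve_left e)] at this
        rw [Function.update_of_ne e, if_neg e]
        omega)
    (fun x hx => hS x (sub x ((box x).1 hx).1 ((box x).1 hx).2).1)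
    (fun x hx j hj => by
      obtain ⟨a, b⟩ := sub x ((box x).1 hx).1 ((box x).1 hx).2
      rcases eq_or_ne j i with rfl | e
      · rw [Function.update_self]
        exact b
      · rw [Function.update_of_ne e]
        exact hB x a j ((mem_insert.1 hj).resolve_left e))
    ((box _).2 ⟨Function.update_self .., zc⟩) hz
  intro x hx
  have a := hx i
  rw [Function.update_self] at a
  have b : ∀ j, j ≠ i → v j ≤ x j ∧ x j < v j + t j := fun j e => by
    have := hx j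
    rwa [Function.update_of_ne e] at this
  by_cases e : x i = v i + t i
  · exact hf x ((box x).2 ⟨e, b⟩)
  · refine hin x fun j => ?_
    rcases eq_or_ne j i with rfl | e'
    · omega
    · exact b j e'

theorem sVOne (h0 : SUHar) (h : SVFill) : SVOne := by
  intro d r k t p Ω Θ ε v p0 p1 hr hd ht hΩ
  have sub : vface Θ v t ⊆ vreg k Θ v t := fun x hx => mem_ubox.2 fun j => by
    have := mem_ubox.1 hx j
    omega
  have hc : t ≤ (vface Θ v t).card := by
    obtain ⟨i, hi⟩ : ∃ i, i ∉ Θ := by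
      by_contra hn
      have : Θ = univ := eq_univ_of_forall fun i => not_not.1 (not_exists.1 hn i)
      rw [this, card_univ, Fintype.card_fin] at hr
      omega
    rw [vface, card_ubox]
    refine le_trans ?_ (single_le_prod' (fun j _ => ?_) (mem_univ i))
    · rw [vsd, if_neg hi]
      omega
    · rw [vsd]
      split_ifs <;> omega
  calc 1 - (1 - p) ^ t ≤ 1 - (1 - p) ^ (vface Θ v t).card :=
        sub_le_sub_left (pow_le_pow_of_le_one (by linarith) (by linarith) hc) 1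
    _ = Pr Ω p (Hit (vface Θ v t)) := ((h0 _ Ω p p0 p1).2.2.1 _ (sub.trans hΩ)).symm
    _ ≤ _ := by
        refine mono_PrA Ω p0 p1 _ _ ?_
        rintro A - ⟨y, yA, hy⟩ S hS hA hB
        refine h d r Θ ε S v _ y hr.ge (fun j hj => ?_) hS hB hy (hA y yA (sub hy))
        rw [vsd, if_pos hj]
        exact le_rfl

end Pool.Agent.MP_6d294b_pr

end

section

open Finset

namespace Pool.Agent.MP_6d294b_pr

variable {d : ℕ}

lemma mono_VGrow (Θ : Finset (Fin d)) {a b : ℕ} (h : a ≤ b) (j : Fin d) :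
    vsd Θ a j ≤ vsd Θ b j := by
  unfold vsd
  split_ifs <;> omega

lemma out_VGrow {Θ : Finset (Fin d)} {j : Fin d} (h : j ∉ Θ) (a : ℕ) : vsd Θ a j = a := if_neg h

lemma in_VGrow {Θ : Finset (Fin d)} {j : Fin d} (h : j ∈ Θ) (a : ℕ) : vsd Θ a j = 1 := if_pos h

lemma pos_VGrow (Θ : Finset (Fin d)) {a : ℕ} (h : 1 ≤ a) (j : Fin d) : 1 ≤ vsd Θ a j := by
  unfold vsd
  split_ifs <;> omega

/-- the site `y` starts the layer at the height `a` in the direction `i` -/
def Cd_VGrow (Θ : Finset (Fin d)) (ε : Fin d → Bool) (S : Set (Pt d)) (v y : Pt d) (i : Fin d)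
    (a : ℕ) : Prop :=
  (y ∈ S ∧ (y i = v i + a ∨ y i = v i + a + 1)) ∨ (y i = v i + a ∧ ∃ j ∈ Θ, vsh y j (ε j) ∈ S)

lemma ext_VGrow (hE : SVExt) {r N a : ℕ} {Θ : Finset (Fin d)} {ε : Fin d → Bool} {S : Set (Pt d)}
    {v y : Pt d} {t : Fin d → ℕ} {i : Fin d} (hr : r = Θ.card + 2) (hi : i ∉ Θ)
    (hS : VCl r (vface Θ v N) S) (hL : VBel Θ ε (vface Θ v N) S) (hB : Bt_UGrow S v t)
    (ht : ∀ j, t j ≤ vsd Θ N j) (ha : t i = a) (h1 : 1 ≤ a) (h2 : a < N)
    (hc : ∀ j, j ≠ i → v j ≤ y j ∧ y j < v j + t j) (hy : Cd_VGrow Θ ε S v y i a) :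
    Bt_UGrow S v (Function.update t i (a + 1)) := by
  subst ha
  exact hE d r N Θ ε S v y t i hr hi hS hL hB ht h1 h2 hc hy

lemma cube_VGrow (hE : SVExt) {r N m : ℕ} {Θ : Finset (Fin d)} {ε : Fin d → Bool}
    {S : Set (Pt d)} {v : Pt d} (hr : r = Θ.card + 2) (hS : VCl r (vface Θ v N) S)
    (hL : VBel Θ ε (vface Θ v N) S) (hB : Bt_UGrow S v (vsd Θ m)) (h1 : 1 ≤ m) (hm : m < N)
    (hy : ∀ i, i ∉ Θ → ∃ y, Cd_VGrow Θ ε S v y i m ∧
      ∀ j, j ≠ i → v j ≤ y j ∧ y j < v j + vsd Θ m j) : Bt_UGrow S v (vsd Θ (m + 1)) := by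
  have key : ∀ T : Finset (Fin d),
      Bt_UGrow S v fun j => vsd Θ (if j ∈ T then m + 1 else m) j := by
    intro T
    induction T using Finset.induction_on with
    | empty => exact mono_UGrow hB fun j => by simp
    | insert i T hi ih =>
      by_cases hiΘ : i ∈ Θ
      · refine mono_UGrow ih fun j => ?_
        rcases eq_or_ne j i with rfl | hj
        · simp only [in_VGrow hiΘ, le_refl]
        · simp [hj]
      · obtain ⟨y, y1, y3⟩ := hy i hiΘ
        refine mono_UGrow (ext_VGrow hE (i := i) (a := m) hr hiΘ hS hL ih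
          (fun j => mono_VGrow Θ (by split_ifs <;> omega) j)
          (by simp only [if_neg hi, out_VGrow hiΘ]) h1 hm
          (fun j hj => ⟨(y3 j hj).1, (y3 j hj).2.trans_le ?_⟩) y1) fun j => ?_
        · have := mono_VGrow Θ (show m ≤ if j ∈ T then m + 1 else m by split_ifs <;> omega) j
          omega
        · rcases eq_or_ne j i with rfl | hj
          · simp [out_VGrow hiΘ]
          · simp [hj]
  exact mono_UGrow (key univ) fun j => by simp

lemma lay_VGrow {Θ : Finset (Fin d)} {v y : Pt d} {i : Fin d} {l h : ℕ}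
    (hy : y ∈ vlay Θ v i l h) :
    y i = v i + l + 1 ∧ ∀ j, j ≠ i → v j ≤ y j ∧ y j < v j + vsd Θ h j := by
  have := mem_ubox.1 hy
  refine ⟨?_, fun j hj => by simpa [hj] using this j⟩
  have := this i
  simp only [if_true] at this
  omega

lemma reg_VGrow {Θ : Finset (Fin d)} {v y : Pt d} {i : Fin d} {N : ℕ} (hi : i ∉ Θ)
    (h1 : v i ≤ y i) (h2 : y i ≤ v i + N)
    (h3 : ∀ j, j ≠ i → v j ≤ y j ∧ y j < v j + vsd Θ N j) : y ∈ vreg 1 Θ v N := by
  refine mem_ubox.2 fun j => ?_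
  rcases eq_or_ne j i with rfl | hj
  · rw [out_VGrow hi]
    push_cast
    omega
  · have := h3 j hj
    push_cast
    omega

lemma reg2_VGrow {Θ : Finset (Fin d)} {v y : Pt d} {i j : Fin d} {N : ℕ} (b : Bool) (hi : i ∉ Θ)
    (hj : j ∈ Θ) (h1 : v i ≤ y i) (h2 : y i ≤ v i + N)
    (h3 : ∀ j, j ≠ i → v j ≤ y j ∧ y j < v j + vsd Θ N j) : vsh y j b ∈ vreg 1 Θ v N := by
  have hji : j ≠ i := fun h => hi (h ▸ hj)
  have h4 := mem_ubox.1 (reg_VGrow hi h1 h2 h3)
  refine mem_ubox.2 fun l => ?_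
  unfold vsh
  rcases eq_or_ne l j with rfl | hl
  · have := h3 l hji
    rw [Function.update_self]
    unfold vsg
    push_cast
    split_ifs <;> omega
  · rw [Function.update_of_ne hl]
    exact h4 l

theorem sVGrow (h : SVExt) : SVGrow := by
  intro d r s k N Θ ε v i₁ i₂ W A hr n1 n2 h12 hs hW hP S hS hA hL
  obtain ⟨p1, p2, p3⟩ := hP
  have lay : ∀ i l, i ∉ Θ → l < N → Hit (vlay Θ v i l (upsi W l)) A →
      ∃ y ∈ S, y i = v i + l + 1 ∧ ∀ j, j ≠ i → v j ≤ y j ∧ y j < v j + vsd Θ (upsi W l) j := by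
    rintro i l hi hl ⟨y, y1, y2⟩
    obtain ⟨y3, y4⟩ := lay_VGrow y2
    refine ⟨y, hA y y1 (reg_VGrow hi (by omega) (by omega) fun j hj => ?_), y3, y4⟩
    have := mono_VGrow Θ ((upsi_le W l).trans hl.le) j
    have := y4 j hj
    omega
  have pair : ∀ i m g, i ∉ Θ → m + 1 < N → m ∈ uJ W N i₁ i → m + 1 ∈ uJ W N i₁ i →
      upsi W (m + 1) ≤ g → ∃ y, Cd_VGrow Θ ε S v y i (m + 1) ∧
        ∀ j, j ≠ i → v j ≤ y j ∧ y j < v j + vsd Θ g j := by
    intro i m g hi hm m1 m2 hh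
    have hh' := (upsi_mono W m).trans hh
    rcases p2 i hi m m1 m2 with ⟨z, z1, z2⟩ | h1
    · rcases mem_vth.1 z2 with z3 | ⟨j, hj, y, y2, rfl⟩
      · obtain ⟨y, y1, y2, y3⟩ := lay i m hi (by omega) ⟨z, z1, z3⟩
        refine ⟨y, Or.inl ⟨y1, Or.inl (by push_cast; omega)⟩, fun j hj => ?_⟩
        have := y3 j hj
        have := mono_VGrow Θ hh' j
        omega
      · obtain ⟨y3, y4⟩ := lay_VGrow y2
        refine ⟨y, Or.inr ⟨by push_cast; omega, j, hj,
          hA _ z1 (reg2_VGrow _ hi hj (by omega) (by omega) fun l hl => ?_)⟩, fun l hl => ?_⟩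
        · have := y4 l hl
          have := mono_VGrow Θ (show upsi W m ≤ N from (upsi_le W m).trans (by omega)) l
          omega
        · have := y4 l hl
          have := mono_VGrow Θ hh' l
          omega
    · obtain ⟨y, y1, y2, y3⟩ := lay i (m + 1) hi hm h1
      refine ⟨y, Or.inl ⟨y1, Or.inr y2⟩, fun j hj => ?_⟩
      have := y3 j hj
      have := mono_VGrow Θ hh j
      omega
  have jog : ∀ u ∈ W, Bt_UGrow S v (vsd Θ u.1) →
      Function.update v i₁ (v i₁ + u.1 + 1) ∈ S := by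
    intro u hu hB
    obtain ⟨a1, a2, -, a4, -⟩ := hW.1 u hu
    have bd : ∀ a, a ≤ N → ∀ j, Function.update (vsd Θ u.1) i₂ a j ≤ vsd Θ N j := by
      intro a ha j
      rcases eq_or_ne j i₂ with rfl | hj
      · rw [Function.update_self, out_VGrow n2]
        exact ha
      · rw [Function.update_of_ne hj]
        exact mono_VGrow Θ (by omega) j
    have run : ∀ q, u.1 + q ≤ u.2 + 1 →
        Bt_UGrow S v (Function.update (vsd Θ u.1) i₂ (u.1 + q)) := by
      intro q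
      induction q with
      | zero =>
        refine fun _ => mono_UGrow hB fun j => ?_
        rcases eq_or_ne j i₂ with rfl | hj
        · rw [Function.update_self, out_VGrow n2]
          exact le_rfl
        · rw [Function.update_of_ne hj]
      | succ q ih =>
        intro hq
        obtain ⟨m, hm⟩ : ∃ m, u.1 + q = m + 1 := ⟨u.1 + q - 1, by omega⟩
        have mem : ∀ l, 1 ≤ l → l < N → l ∈ uJ W N i₁ i₂ := fun l l1 l2 =>
          Finset.mem_filter.2 ⟨Finset.mem_Ico.2 ⟨l1, l2⟩, fun h => absurd h h12.symm⟩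
        obtain ⟨y, y1, y3⟩ := pair i₂ m u.1 n2 (by omega) (mem _ (by omega) (by omega))
          (mem _ (by omega) (by omega)) (upsi_le_jog hu (by omega))
        rw [← hm] at y1
        have := ext_VGrow h (i := i₂) (a := u.1 + q) hr n2 hS hL (ih (by omega))
          (bd _ (by omega)) (Function.update_self ..) (by omega) (by omega)
          (fun j hj => by rw [Function.update_of_ne hj]; exact y3 j hj) y1
        rwa [Function.update_idem] at this
    have b0 := run (u.2 + 1 - u.1) (by omega)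
    rw [show u.1 + (u.2 + 1 - u.1) = u.2 + 1 by omega] at b0
    obtain ⟨y, y1, y2⟩ := (p3 u hu).1
    have y3 := mem_ubox.1 y2
    have y4 : y i₁ = v i₁ + u.1 + 1 := by
      have := y3 i₁
      simp only [if_true] at this
      omega
    have y5 : ∀ j, j ≠ i₁ → v j ≤ y j ∧
        y j < v j + (Function.update (vsd Θ u.1) i₂ (u.2 + 1) j : ℕ) := fun j hj => by
      have := y3 j
      rcases eq_or_ne j i₂ with rfl | hj2
      · simp only [if_neg hj, if_true] at this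
        rw [Function.update_self]
        push_cast
        omega
      · simp only [if_neg hj, if_neg hj2] at this
        rw [Function.update_of_ne hj2]
        exact this
    have t1 := bd (u.2 + 1) (by omega)
    have yS : y ∈ S := hA y y1 (reg_VGrow n1 (by omega) (by omega) fun j hj => by
      have := y5 j hj
      have := t1 j
      omega)
    have b1 := ext_VGrow h (i := i₁) (a := u.1) hr n1 hS hL b0 t1
      (by rw [Function.update_of_ne h12, out_VGrow n1]) (by omega) (by omega) y5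
      (Or.inl ⟨yS, Or.inr y4⟩)
    have b2 := ext_VGrow h (i := i₁) (a := u.1 + 1) (y := y) hr n1 hS hL b1 (fun j => by
        rcases eq_or_ne j i₁ with rfl | hj
        · rw [Function.update_self, out_VGrow n1]
          omega
        · rw [Function.update_of_ne hj]
          exact t1 j) (Function.update_self ..) (by omega) (by omega)
      (fun j hj => by rw [Function.update_of_ne hj]; exact y5 j hj)
      (Or.inl ⟨yS, Or.inl (by push_cast; omega)⟩)
    rw [Function.update_idem] at b2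
    refine b2 _ fun j => ?_
    rcases eq_or_ne j i₁ with rfl | hj
    · rw [Function.update_self, Function.update_self]
      push_cast
      omega
    · rw [Function.update_of_ne hj, Function.update_of_ne hj]
      rcases eq_or_ne j i₂ with rfl | hj2
      · rw [Function.update_self]
        push_cast
        omega
      · rw [Function.update_of_ne hj2]
        have := pos_VGrow Θ (show 1 ≤ u.1 by omega) j
        omega
  have main : ∀ m, m ≤ N → Bt_UGrow S v (vsd Θ m) := by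
    intro m
    induction m with
    | zero =>
      intro _ x hx
      have := hx i₁
      rw [out_VGrow n1] at this
      omega
    | succ m ih =>
      intro hm
      rcases le_or_gt (m + 1) 2 with h2 | h2
      · refine fun x hx => hA x (p1 (mem_ubox.2 fun j => ?_)) (mem_ubox.2 fun j => ?_)
        · have := hx j
          have := mono_VGrow Θ h2 j
          omega
        · have := hx j
          have := mono_VGrow Θ hm j
          push_cast
          omega
      have hB := ih (by omega)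
      obtain ⟨m, rfl⟩ : ∃ r, m = r + 1 := ⟨m - 1, by omega⟩
      refine cube_VGrow h hr hS hL hB (by omega) (by omega) fun i hi => ?_
      by_cases hJ : m ∈ uJ W N i₁ i ∧ m + 1 ∈ uJ W N i₁ i
      · exact pair i m (m + 1) hi (by omega) hJ.1 hJ.2 (upsi_le W _)
      have hx : i = i₁ ∧ ∃ u ∈ W, m + 1 = u.1 ∨ m = u.1 ∨ m = u.1 + 1 := by
        by_contra hc
        refine hJ ⟨Finset.mem_filter.2 ⟨Finset.mem_Ico.2 ⟨by omega, by omega⟩, fun h u hu => ?_⟩,
          Finset.mem_filter.2 ⟨Finset.mem_Ico.2 ⟨by omega, by omega⟩, fun h u hu => ?_⟩⟩ <;>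
        · by_contra hc'
          exact hc ⟨h, u, hu, by omega⟩
      obtain ⟨rfl, u, hu, hx⟩ := hx
      rcases or_assoc.2 hx with hx | hx
      · refine ⟨_, Or.inl ⟨jog u hu (mono_UGrow hB fun j => mono_VGrow Θ (by omega) j), ?_⟩,
          fun j hj => ?_⟩
        · rw [Function.update_self]
          push_cast
          omega
        · rw [Function.update_of_ne hj]
          have := pos_VGrow Θ (show 1 ≤ m + 1 by omega) j
          omega
      · obtain ⟨y, y1, y2, y3⟩ := lay i (u.1 + 2) hi (by omega) (p3 u hu).2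
        refine ⟨y, Or.inl ⟨y1, Or.inr (by push_cast at *; omega)⟩, fun j hj => ?_⟩
        have := y3 j hj
        have := mono_VGrow Θ (show upsi W (u.1 + 2) ≤ m + 1 from
          (upsi_le W (u.1 + 2)).trans (by omega)) j
        omega
  exact fun x hx => main N le_rfl x (mem_ubox.1 hx)

lemma vth_VGrow {Θ : Finset (Fin d)} {ε : Fin d → Bool} {X Y : Finset (Pt d)} (h : X ⊆ Y) :
    vth Θ ε X ⊆ vth Θ ε Y := by
  intro y hy
  rcases mem_vth.1 hy with h1 | ⟨j, hj, x, hx, e⟩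
  · exact mem_vth.2 (Or.inl (h h1))
  · exact mem_vth.2 (Or.inr ⟨j, hj, x, h hx, e⟩)

theorem sVDisj : SVDisj := by
  rintro d s k N Θ ε v i₁ i₂ W W' A n1 n2 h12 hs hW ⟨u, hu, hI⟩ ⟨⟨-, e1⟩, ⟨-, p2, p3⟩, -⟩
  obtain ⟨a1, a2, -, a4, -⟩ := hW.1 u hu
  refine e1 u hu ?_
  have lay : ∀ l, (l = u.1 ∨ l = u.1 + 1) →
      vlay Θ v i₁ l (upsi W' l) ⊆ vhole Θ v i₁ i₂ u.1 u.2 := by
    intro l hl y y2
    obtain ⟨y3, y4⟩ := lay_VGrow y2
    have u1 := upsi_le W' l
    refine mem_ubox.2 fun j => ?_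
    rcases eq_or_ne j i₁ with rfl | hj
    · simp only [if_true]
      omega
    · have h1 := y4 j hj
      simp only [if_neg hj]
      rcases eq_or_ne j i₂ with rfl | hj2
      · rw [out_VGrow n2] at h1
        simp only [if_true]
        omega
      · have := mono_VGrow Θ (show upsi W' l ≤ u.1 + 1 by omega) j
        simp only [if_neg hj2]
        omega
  rcases hI with hI | ⟨u', hu', e2, e3⟩
  · have mem : ∀ l, (l = u.1 ∨ l = u.1 + 1) → l ∈ uJ W' N i₁ i₁ := fun l hl =>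
      Finset.mem_filter.2 ⟨Finset.mem_Ico.2 ⟨by omega, by omega⟩, fun _ u' hu' => by
        have := hI u' hu'
        omega⟩
    rcases p2 i₁ n1 u.1 (mem _ (Or.inl rfl)) (mem _ (Or.inr rfl)) with ⟨y, y1, y2⟩ | ⟨y, y1, y2⟩
    · exact ⟨y, y1, vth_VGrow (lay _ (Or.inl rfl)) y2⟩
    · exact ⟨y, y1, mem_vth.2 (Or.inl (lay _ (Or.inr rfl) y2))⟩
  · obtain ⟨y, y1, y2⟩ := (p3 u' hu').1
    refine ⟨y, y1, mem_vth.2 (Or.inl (mem_ubox.2 fun j => ?_))⟩
    have h1 := mem_ubox.1 y2 j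
    have h2 := mono_VGrow Θ (show u'.1 ≤ u.1 + 1 by omega) j
    split_ifs at h1 ⊢ <;> omega

end Pool.Agent.MP_6d294b_pr

end

section

open Finset

namespace Pool.Agent.MP_6d294b_pr

theorem bet_UNG {u v : ℝ} (h0 : 0 ≤ u) (h : u ≤ v) (h1 : v ≤ 1) :
    bet u * bet v ≤ u * bet v + (1 - u) * v := by
  obtain ⟨a1, -, a3⟩ := one_Bet u h0 (h.trans h1)
  have hv := h0.trans h
  rcases h0.eq_or_lt with rfl | hu
  · simpa [bet] using hv
  have b1 : u * Real.sqrt (v * (4 - 3 * v)) ≤ v * Real.sqrt (u * (4 - 3 * u)) := by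
    refine abs_le_of_sq_le_sq' ?_ (by positivity) |>.2
    rw [mul_pow, mul_pow, Real.sq_sqrt (mul_nonneg hv (by linarith)),
      Real.sq_sqrt (mul_nonneg h0 (by linarith))]
    nlinarith [mul_nonneg (mul_nonneg h0 hv) (sub_nonneg.2 h)]
  have b2 : u * bet v ≤ v * bet u := by
    unfold bet
    linarith
  have b3 := mul_le_mul_of_nonneg_left b2 (show 0 ≤ 1 - u by linarith)
  refine le_of_mul_le_mul_left ?_ (hu.trans_le a1)
  have b4 : bet u * (bet u * bet v) = (u * bet u + u * (1 - u)) * bet v := by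
    rw [← a3]
    ring
  rw [b4]
  linarith

theorem hit_inter_UNG {α : Type} [DecidableEq α] (X A : Finset α) : Hit X A ↔ Hit X (A ∩ X) :=
  ⟨fun ⟨x, h1, h2⟩ => ⟨x, mem_inter.2 ⟨h1, h2⟩, h2⟩,
    fun ⟨x, h1, h2⟩ => ⟨x, (mem_inter.1 h1).1, h2⟩⟩

theorem hit_sdiff_UNG {α : Type} [DecidableEq α] {X Y : Finset α} (h : Disjoint X Y)
    (A : Finset α) : Hit X A ↔ Hit X (A \ Y) :=
  ⟨fun ⟨x, h1, h2⟩ => ⟨x, mem_sdiff.2 ⟨h1, disjoint_left.1 h h2⟩, h2⟩,
    fun ⟨x, h1, h2⟩ => ⟨x, (mem_sdiff.1 h1).1, h2⟩⟩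

theorem ng_sdiff_UNG {α : Type} [DecidableEq α] {X : ℕ → Finset α} {J : Finset ℕ} {Y : Finset α}
    (h : ∀ l ∈ J, Disjoint (X l) Y) (A : Finset α) : UNG X J A ↔ UNG X J (A \ Y) :=
  forall_congr' fun l => forall_congr' fun h1 => forall_congr' fun h2 =>
    or_congr (hit_sdiff_UNG (h l h1) A) (hit_sdiff_UNG (h _ h2) A)

theorem split_UNG {α : Type} (Ω : Finset α) (p : ℝ) (E H : Finset α → Prop) :
    Pr Ω p E = Pr Ω p (fun A => H A ∧ E A) + Pr Ω p (fun A => ¬ H A ∧ E A) := by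
  unfold Pr
  rw [← sum_add_distrib]
  refine sum_congr rfl fun A _ => ?_
  by_cases h1 : H A <;> by_cases h2 : E A <;> simp [h1, h2]

theorem sUNG (h1 : SUHar) : SUNG := by
  intro α _ Ω p p0 p1 X J
  have u0 : ∀ l, 0 ≤ 1 - (1 - p) ^ (X l).card := fun l =>
    sub_nonneg.2 (pow_le_one₀ (by linarith) (by linarith))
  have u1 : ∀ l, 1 - (1 - p) ^ (X l).card ≤ 1 := fun l =>
    sub_le_self _ (pow_nonneg (by linarith) _)
  have b0 : ∀ l, 0 ≤ bet (1 - (1 - p) ^ (X l).card) := fun l =>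
    (u0 l).trans (one_Bet _ (u0 l) (u1 l)).1
  induction J using Finset.strongInduction with
  | H J ih =>
  intro g1 g2 g3
  have ih' : ∀ J' ⊂ J, ∏ l ∈ J', bet (1 - (1 - p) ^ (X l).card) ≤ Pr Ω p (UNG X J') :=
    fun J' h => ih J' h (fun l hl => g1 l (h.1 hl)) (fun l hl l' hl' => g2 l (h.1 hl) l' (h.1 hl'))
      fun l hl hl' => g3 l (h.1 hl) (h.1 hl')
  rcases J.eq_empty_or_nonempty with rfl | hne
  · rw [prod_empty, ← true_PrA Ω p]
    exact mono_PrA Ω p0 p1 _ _ fun A _ _ l hl => absurd hl (notMem_empty l)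
  obtain ⟨a, ha, hmin⟩ := J.exists_min_image id hne
  simp only [id] at hmin
  have i1 := ih' _ (erase_ssubset ha)
  rw [← mul_prod_erase J _ ha]
  by_cases hb : a + 1 ∈ J
  · have hb' : a + 1 ∈ J.erase a := mem_erase.2 ⟨by omega, hb⟩
    have i2 := ih' _ ((erase_subset (a + 1) _).trans_ssubset (erase_ssubset ha))
    have d1 : ∀ l ∈ J.erase a, Disjoint (X l) (X a) := fun l hl =>
      g2 l (mem_of_mem_erase hl) a ha (ne_of_mem_erase hl)
    have e1 := indep_PrB Ω p (X a) (Hit (X a)) (UNG X (J.erase a)) (hit_inter_UNG _)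
      (ng_sdiff_UNG d1)
    have e2 := indep_PrB Ω p (X (a + 1)) (Hit (X (a + 1))) (UNG X ((J.erase a).erase (a + 1)))
      (hit_inter_UNG _) (ng_sdiff_UNG fun l hl =>
        g2 l (mem_of_mem_erase (mem_of_mem_erase hl)) _ hb (ne_of_mem_erase hl))
    have e3 := indep_PrB Ω p (X a) (fun A => ¬ Hit (X a) A)
      (fun A => Hit (X (a + 1)) A ∧ UNG X ((J.erase a).erase (a + 1)) A)
      (fun A => not_congr (hit_inter_UNG _ A)) fun A => and_congr (hit_sdiff_UNG (d1 _ hb') A)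
        (ng_sdiff_UNG (fun l hl => d1 l (mem_of_mem_erase hl)) A)
    rw [e2, compl_PrB, (h1 α Ω p p0 p1).2.2.1 _ (g1 _ hb)] at e3
    rw [(h1 α Ω p p0 p1).2.2.1 _ (g1 _ ha)] at e1 e3
    have m1 := mono_PrA Ω p0 p1 (fun A => Hit (X a) A ∧ UNG X (J.erase a) A)
      (fun A => Hit (X a) A ∧ UNG X J A) (by
        rintro A - ⟨k1, k2⟩
        refine ⟨k1, fun l hl hl' => ?_⟩
        by_cases e : l = a
        · exact Or.inl (e ▸ k1)
        · have := hmin l hl
          exact k2 l (mem_erase.2 ⟨e, hl⟩) (mem_erase.2 ⟨by omega, hl'⟩))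
    have m2 := mono_PrA Ω p0 p1
      (fun A => ¬ Hit (X a) A ∧ Hit (X (a + 1)) A ∧ UNG X ((J.erase a).erase (a + 1)) A)
      (fun A => ¬ Hit (X a) A ∧ UNG X J A) (by
        rintro A - ⟨k1, k2, k3⟩
        refine ⟨k1, fun l hl hl' => ?_⟩
        by_cases e : l = a
        · exact Or.inr (e ▸ k2)
        by_cases e' : l = a + 1
        · exact Or.inl (e' ▸ k2)
        have := hmin l hl
        exact k3 l (mem_erase.2 ⟨e', mem_erase.2 ⟨e, hl⟩⟩)
          (mem_erase.2 ⟨by omega, mem_erase.2 ⟨by omega, hl'⟩⟩))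
    rw [split_UNG Ω p (UNG X J) (Hit (X a))]
    rw [← mul_prod_erase _ _ hb'] at i1 ⊢
    have c1 := bet_UNG (u0 a) (show _ ≤ 1 - (1 - p) ^ (X (a + 1)).card from sub_le_sub_left
      (pow_le_pow_of_le_one (by linarith) (by linarith) (g3 a ha hb)) 1) (u1 _)
    have c2 := mul_le_mul_of_nonneg_right c1 (prod_nonneg fun l
      (_ : l ∈ (J.erase a).erase (a + 1)) => b0 l)
    have c3 := mul_le_mul_of_nonneg_left i1 (u0 a)
    have c4 := mul_le_mul_of_nonneg_left (mul_le_mul_of_nonneg_left i2 (u0 (a + 1)))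
      (sub_nonneg.2 (u1 a))
    linarith
  · refine (mul_le_of_le_one_left (prod_nonneg fun l _ => b0 l)
      (one_Bet _ (u0 a) (u1 a)).2.1).trans (i1.trans (mono_PrA Ω p0 p1 _ _ ?_))
    intro A _ k l hl hl'
    have := hmin l hl
    exact k l (mem_erase.2 ⟨fun e => hb (e ▸ hl'), hl⟩) (mem_erase.2 ⟨by omega, hl'⟩)

end Pool.Agent.MP_6d294b_pr

end

section

open Finset

namespace Pool.Agent.MP_6d294b_pr

theorem bet_VNG (h2 : RBet) {c : ℕ} (hc : 1 ≤ c) {u v : ℝ} (h0 : 0 ≤ u) (h : u ≤ v) (h1 : v ≤ 1) :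
    betk c u * betk c v ≤ (1 - (1 - u) ^ c) * betk c v + (1 - u) ^ c * v := by
  obtain ⟨a1, -, a3⟩ := (h2 c hc).1 u h0 (h.trans h1)
  have hv := h0.trans h
  obtain ⟨b1, -, b3⟩ := (h2 c hc).1 v hv h1
  generalize betk c u = b at *
  generalize betk c v = B at *
  rcases h0.eq_or_lt with rfl | hu
  · have : b = 0 := by simpa using a3
    simpa [this] using hv
  have hb : 0 < b := hu.trans_le a1
  have hv' : 0 < v := hu.trans_le h
  have hB : 0 < B := hv'.trans_le b1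
  have q0 : 0 ≤ 1 - v := by linarith
  have q1 : 1 - v ≤ 1 - u := by linarith
  have e1 := mul_neg_geom_sum (1 - u) c
  have e2 := mul_neg_geom_sum (1 - v) c
  rw [sub_sub_cancel] at e1 e2
  have e3 : ∑ i ∈ range c, (1 - v) ^ i ≤ ∑ i ∈ range c, (1 - u) ^ i :=
    sum_le_sum fun i _ => pow_le_pow_left₀ q0 q1 i
  have e4 : (1 - v) ^ c ≤ (1 - u) ^ c := pow_le_pow_left₀ q0 q1 c
  have e5 : 0 ≤ (1 - v) ^ c := pow_nonneg q0 c
  rw [← e1] at a3 ⊢
  rw [← e2] at b3
  generalize ∑ i ∈ range c, (1 - u) ^ i = Au at *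
  generalize ∑ i ∈ range c, (1 - v) ^ i = Av at *
  generalize (1 - u) ^ c = Cu at *
  generalize (1 - v) ^ c = Cv at *
  have e6 : 0 ≤ Cu := e5.trans e4
  have huv : 0 < u * v := mul_pos hu hv'
  have k1 : (v * b) ^ 2 = u * v * Au * (v * b) + u * v * (v * Cu) := by
    rw [mul_pow, a3]
    ring
  have k2 : (u * B) ^ 2 ≤ u * v * Au * (u * B) + u * v * (v * Cu) := by
    have k3 : (u * B) ^ 2 = u * v * Av * (u * B) + u * v * (u * Cv) := by
      rw [mul_pow, b3]
      ring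
    rw [k3]
    gcongr
  have k4 : u * v * Au ≤ v * b := by
    refine le_of_mul_le_mul_right ?_ (mul_pos hv' hb)
    have : 0 ≤ u * v * (v * Cu) := by positivity
    linarith [sq (v * b)]
  have b2 : u * B ≤ v * b := by
    by_contra k5
    have k6 := mul_pos (sub_pos.2 (not_le.1 k5))
      (show 0 < u * B + v * b - u * v * Au by linarith [mul_pos hu hB])
    linarith
  have b4 := mul_le_mul_of_nonneg_left b2 e6
  refine le_of_mul_le_mul_left ?_ hb
  have b5 : b * (b * B) = (u * Au * b + Cu * u) * B := by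
    rw [← a3]
    ring
  rw [b5]
  linarith

theorem ng_sdiff_VNG {α : Type} [DecidableEq α] {X Z : ℕ → Finset α} {J : Finset ℕ}
    {Y : Finset α} (g : ∀ l ∈ J, X l ⊆ Z l) (h : ∀ l ∈ J, Disjoint (Z l) Y) (A : Finset α) :
    VNG X Z J A ↔ VNG X Z J (A \ Y) :=
  forall_congr' fun l => forall_congr' fun h1 => forall_congr' fun h2 =>
    or_congr (hit_sdiff_UNG (h l h1) A) (hit_sdiff_UNG ((h _ h2).mono_left (g _ h2)) A)

theorem sVNG (h1 : SUHar) (h2 : RBet) : SVNG := by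
  intro α _ Ω p p0 p1 c X Z J hc
  have u0 : ∀ l, 0 ≤ 1 - (1 - p) ^ (X l).card := fun l =>
    sub_nonneg.2 (pow_le_one₀ (by linarith) (by linarith))
  have u1 : ∀ l, 1 - (1 - p) ^ (X l).card ≤ 1 := fun l =>
    sub_le_self _ (pow_nonneg (by linarith) _)
  have b0 : ∀ l, 0 ≤ betk c (1 - (1 - p) ^ (X l).card) := fun l =>
    (u0 l).trans ((h2 c hc).1 _ (u0 l) (u1 l)).1
  induction J using Finset.strongInduction with
  | H J ih =>
  intro g1 g4 g2 g3
  have ih' : ∀ J' ⊂ J, ∏ l ∈ J', betk c (1 - (1 - p) ^ (X l).card) ≤ Pr Ω p (VNG X Z J') :=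
    fun J' h => ih J' h (fun l hl => g1 l (h.1 hl)) (fun l hl => g4 l (h.1 hl))
      (fun l hl l' hl' => g2 l (h.1 hl) l' (h.1 hl')) fun l hl hl' => g3 l (h.1 hl) (h.1 hl')
  rcases J.eq_empty_or_nonempty with rfl | hne
  · rw [prod_empty, ← true_PrA Ω p]
    exact mono_PrA Ω p0 p1 _ _ fun A _ _ l hl => absurd hl (notMem_empty l)
  obtain ⟨a, ha, hmin⟩ := J.exists_min_image id hne
  simp only [id] at hmin
  have i1 := ih' _ (erase_ssubset ha)
  rw [← mul_prod_erase J _ ha]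
  by_cases hb : a + 1 ∈ J
  · have hb' : a + 1 ∈ J.erase a := mem_erase.2 ⟨by omega, hb⟩
    have i2 := ih' _ ((erase_subset (a + 1) _).trans_ssubset (erase_ssubset ha))
    have s1 : ∀ l ∈ J.erase a, X l ⊆ Z l := fun l hl => (g1 l (mem_of_mem_erase hl)).1
    have d1 : ∀ l ∈ J.erase a, Disjoint (Z l) (Z a) := fun l hl =>
      g2 l (mem_of_mem_erase hl) a ha (ne_of_mem_erase hl)
    have e1 := indep_PrB Ω p (Z a) (Hit (Z a)) (VNG X Z (J.erase a)) (hit_inter_UNG _)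
      (ng_sdiff_VNG s1 d1)
    have e2 := indep_PrB Ω p (X (a + 1)) (Hit (X (a + 1))) (VNG X Z ((J.erase a).erase (a + 1)))
      (hit_inter_UNG _) (ng_sdiff_VNG (fun l hl => s1 l (mem_of_mem_erase hl)) fun l hl =>
        (g2 l (mem_of_mem_erase (mem_of_mem_erase hl)) _ hb (ne_of_mem_erase hl)).mono_right
          (g1 _ hb).1)
    have e3 := indep_PrB Ω p (Z a) (fun A => ¬ Hit (Z a) A)
      (fun A => Hit (X (a + 1)) A ∧ VNG X Z ((J.erase a).erase (a + 1)) A)
      (fun A => not_congr (hit_inter_UNG _ A)) fun A => and_congr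
        (hit_sdiff_UNG ((d1 _ hb').mono_left (g1 _ hb).1) A)
        (ng_sdiff_VNG (fun l hl => s1 l (mem_of_mem_erase hl))
          (fun l hl => d1 l (mem_of_mem_erase hl)) A)
    rw [e2, compl_PrB, (h1 α Ω p p0 p1).2.2.1 _ ((g1 _ hb).1.trans (g1 _ hb).2)] at e3
    rw [(h1 α Ω p p0 p1).2.2.1 _ (g1 _ ha).2, g4 a ha, pow_mul'] at e1 e3
    have m1 := mono_PrA Ω p0 p1 (fun A => Hit (Z a) A ∧ VNG X Z (J.erase a) A)
      (fun A => Hit (Z a) A ∧ VNG X Z J A) (by
        rintro A - ⟨k1, k2⟩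
        refine ⟨k1, fun l hl hl' => ?_⟩
        by_cases e : l = a
        · exact Or.inl (e ▸ k1)
        · have := hmin l hl
          exact k2 l (mem_erase.2 ⟨e, hl⟩) (mem_erase.2 ⟨by omega, hl'⟩))
    have m2 := mono_PrA Ω p0 p1
      (fun A => ¬ Hit (Z a) A ∧ Hit (X (a + 1)) A ∧ VNG X Z ((J.erase a).erase (a + 1)) A)
      (fun A => ¬ Hit (Z a) A ∧ VNG X Z J A) (by
        rintro A - ⟨k1, k2, k3⟩
        refine ⟨k1, fun l hl hl' => ?_⟩
        by_cases e : l = a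
        · exact Or.inr (e ▸ k2)
        by_cases e' : l = a + 1
        · obtain ⟨x, k4, k5⟩ := k2
          exact Or.inl (e' ▸ ⟨x, k4, (g1 _ hb).1 k5⟩)
        have := hmin l hl
        exact k3 l (mem_erase.2 ⟨e', mem_erase.2 ⟨e, hl⟩⟩)
          (mem_erase.2 ⟨by omega, mem_erase.2 ⟨by omega, hl'⟩⟩))
    rw [split_UNG Ω p (VNG X Z J) (Hit (Z a))]
    rw [← mul_prod_erase _ _ hb'] at i1 ⊢
    have c1 := bet_VNG h2 hc (u0 a) (show _ ≤ 1 - (1 - p) ^ (X (a + 1)).card from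
      sub_le_sub_left (pow_le_pow_of_le_one (by linarith) (by linarith) (g3 a ha hb)) 1) (u1 _)
    rw [sub_sub_cancel] at c1
    rw [sub_sub_cancel] at e3
    have w0 : 0 ≤ ((1 - p) ^ (X a).card) ^ c := pow_nonneg (pow_nonneg (by linarith) _) _
    have w1 : 0 ≤ 1 - ((1 - p) ^ (X a).card) ^ c :=
      sub_nonneg.2 (pow_le_one₀ (pow_nonneg (by linarith) _) (by linarith [u0 a]))
    have c2 := mul_le_mul_of_nonneg_right c1 (prod_nonneg fun l
      (_ : l ∈ (J.erase a).erase (a + 1)) => b0 l)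
    have c3 := mul_le_mul_of_nonneg_left i1 w1
    have c4 := mul_le_mul_of_nonneg_left (mul_le_mul_of_nonneg_left i2 (u0 (a + 1))) w0
    linarith
  · refine (mul_le_of_le_one_left (prod_nonneg fun l _ => b0 l)
      ((h2 c hc).1 _ (u0 a) (u1 a)).2.1).trans (i1.trans (mono_PrA Ω p0 p1 _ _ ?_))
    intro A _ k l hl hl'
    have := hmin l hl
    exact k l (mem_erase.2 ⟨fun e => hb (e ▸ hl'), hl⟩) (mem_erase.2 ⟨by omega, hl'⟩)

end Pool.Agent.MP_6d294b_pr

end

section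

open Finset

namespace Pool.Agent.MP_6d294b_pr

variable {d : ℕ}

lemma prod_VTh (Θ P : Finset (Fin d)) (h : ℕ) (f : Fin d → ℕ) (hd : Disjoint Θ P)
    (hf : ∀ j, j ∉ P → f j = vsd Θ h j) :
    ∏ j, f j = (∏ j ∈ P, f j) * h ^ (d - Θ.card - P.card) := by
  rw [← prod_mul_prod_compl P, prod_congr rfl fun j hj => hf j (mem_compl.1 hj)]
  have e : (Pᶜ.filter fun j => ¬ j ∈ Θ) = (Θ ∪ P)ᶜ := by
    ext j
    simp only [mem_filter, mem_compl, mem_union, not_or]
    exact and_comm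
  unfold vsd
  rw [prod_ite, prod_const_one, one_mul, prod_const, e, card_compl, card_union_of_disjoint hd,
    Fintype.card_fin, Nat.sub_sub]

lemma sg_VTh (b : Bool) : vsg b = 1 ∨ vsg b = -1 := by
  cases b <;> simp [vsg]

lemma self_VTh (x : Pt d) (j : Fin d) (b : Bool) : vsh x j b j = x j + vsg b := by
  simp [vsh]

lemma ne_VTh (x : Pt d) {i j : Fin d} (b : Bool) (h : i ≠ j) : vsh x j b i = x i := by
  simp [vsh, h]

lemma inj_VTh (j : Fin d) (b : Bool) : Function.Injective fun x : Pt d => vsh x j b := by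
  intro x y h
  funext i
  have h1 : vsh x j b i = vsh y j b i := congrFun h i
  rcases eq_or_ne i j with rfl | hi
  · rw [self_VTh, self_VTh] at h1
    exact add_right_cancel h1
  · rwa [ne_VTh _ _ hi, ne_VTh _ _ hi] at h1

theorem sVTh : SVTh := by
  intro d Θ ε v
  refine ⟨fun X => ⟨?_, fun hX => ?_, fun y hy => ?_⟩, fun t => ?_, fun i l h hi => ?_,
    fun i₁ i₂ a b h1 h2 h12 => ?_⟩
  · refine (card_union_le _ _).trans ?_
    have h1 := card_biUnion_le_card_mul Θ (fun j => X.image fun x => vsh x j (ε j)) X.card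
      fun j _ => card_image_le
    rw [add_mul, one_mul]
    omega
  · have h1 : Disjoint X (Θ.biUnion fun j => X.image fun x => vsh x j (ε j)) := by
      refine disjoint_left.2 fun y hy hy' => ?_
      obtain ⟨j, hj, hy'⟩ := mem_biUnion.1 hy'
      obtain ⟨x, hx, rfl⟩ := mem_image.1 hy'
      have a1 := hX _ hy j hj
      have a2 := hX _ hx j hj
      have a3 := sg_VTh (ε j)
      rw [self_VTh] at a1
      omega
    have h2 : ((Θ : Finset (Fin d)) : Set (Fin d)).PairwiseDisjoint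
        fun j => X.image fun x => vsh x j (ε j) := by
      intro i hi j hj hij
      refine disjoint_left.2 fun y hy hy' => ?_
      obtain ⟨x, hx, rfl⟩ := mem_image.1 hy
      obtain ⟨z, hz, e⟩ := mem_image.1 hy'
      have a0 : vsh z j (ε j) i = vsh x i (ε i) i := congrFun e i
      have a1 := hX _ hx i hi
      have a2 := hX _ hz i hi
      have a3 := sg_VTh (ε i)
      rw [self_VTh, ne_VTh _ _ hij] at a0
      omega
    rw [vth, card_union_of_disjoint h1, card_biUnion h2,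
      sum_congr rfl fun j _ => card_image_of_injective X (inj_VTh j (ε j)), sum_const, smul_eq_mul]
    ring
  · rcases mem_vth.1 hy with h | ⟨j, hj, x, hx, rfl⟩
    · exact ⟨y, h, fun _ _ => rfl, fun j => by omega⟩
    · refine ⟨x, hx, fun i hi => ne_VTh _ _ fun h => hi (h ▸ hj), fun i => ?_⟩
      rcases eq_or_ne i j with rfl | hi
      · have a3 := sg_VTh (ε i)
        rw [self_VTh]
        omega
      · rw [ne_VTh _ _ hi]
        omega
  · rw [vface, card_ubox, prod_VTh Θ ∅ t _ (disjoint_empty_right _) fun j _ => by omega]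
    simp
  · rw [vlay, card_ubox, prod_VTh Θ {i} h _ (disjoint_singleton_right.2 hi) fun j hj => by
      rw [if_neg (notMem_singleton.1 hj), if_neg (notMem_singleton.1 hj)]
      omega]
    rw [prod_singleton, card_singleton, if_pos rfl, if_pos rfl,
      show (v i + l + 2 - (v i + l + 1)).toNat = 1 by omega, one_mul]
  · have hd : Disjoint Θ {i₁, i₂} := by
      rw [disjoint_insert_right, disjoint_singleton_right]
      exact ⟨h1, h2⟩
    constructor
    · rw [vstrip, card_ubox, prod_VTh Θ {i₁, i₂} a _ hd fun j hj => by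
        rw [mem_insert, mem_singleton, not_or] at hj
        simp only [if_neg hj.1, if_neg hj.2]
        omega]
      rw [prod_pair h12, card_pair h12]
      simp only [if_true, if_neg h12.symm]
      rw [show (v i₁ + a + 2 - (v i₁ + a + 1)).toNat = 1 by omega,
        show (v i₂ + b + 1 - (v i₂ + b)).toNat = 1 by omega, one_mul, one_mul]
    · rw [vhole, card_ubox, prod_VTh Θ {i₁, i₂} (a + 1) _ hd fun j hj => by
        rw [mem_insert, mem_singleton, not_or] at hj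
        simp only [if_neg hj.1, if_neg hj.2]
        omega]
      rw [prod_pair h12, card_pair h12]
      simp only [if_true, if_neg h12.symm]
      rw [show (v i₁ + a + 3 - (v i₁ + a + 1)).toNat = 2 by omega,
        show (v i₂ + b - v i₂).toNat = b by omega]

end Pool.Agent.MP_6d294b_pr

end

section

open Finset

namespace Pool.Agent.MP_6d294b_pr

variable {d : ℕ}

lemma in_VEv {Θ : Finset (Fin d)} {j : Fin d} (h : j ∈ Θ) (t : ℕ) : vsd Θ t j = 1 := if_pos h

lemma out_VEv {Θ : Finset (Fin d)} {j : Fin d} (h : j ∉ Θ) (t : ℕ) : vsd Θ t j = t := if_neg h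

lemma lay_VEv {Θ : Finset (Fin d)} {v x : Pt d} {i : Fin d} {l h : ℕ} (hx : x ∈ vlay Θ v i l h) :
    x i = v i + l + 1 ∧ ∀ j, j ≠ i → v j ≤ x j ∧ x j < v j + vsd Θ h j := by
  have h1 := mem_ubox.1 hx i
  simp only [if_true] at h1
  refine ⟨by omega, fun j hj => ?_⟩
  have h2 := mem_ubox.1 hx j
  simpa only [if_neg hj] using h2

lemma sub_VEv (Θ : Finset (Fin d)) (ε : Fin d → Bool) (X : Finset (Pt d)) : X ⊆ vth Θ ε X :=
  fun _ h => mem_vth.2 (Or.inl h)

lemma ng_VEv {α : Type} (X Z : ℕ → Finset α) (J : Finset ℕ) : Incr (VNG X Z J) :=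
  fun A B h hA l h1 h2 => (hA l h1 h2).imp (hit_UEv _ A B h) (hit_UEv _ A B h)

lemma thlay_VEv (h4 : SVTh) {Θ : Finset (Fin d)} {ε : Fin d → Bool} {v y : Pt d} {i : Fin d}
    {l h : ℕ} (hi : i ∉ Θ) (hy : y ∈ vth Θ ε (vlay Θ v i l h)) :
    y i = v i + l + 1 ∧ (∀ j, j ∉ Θ → j ≠ i → v j ≤ y j ∧ y j < v j + h) ∧
      ∀ j ∈ Θ, v j - 1 ≤ y j ∧ y j ≤ v j + 1 := by
  obtain ⟨x, hx, a, b⟩ := ((h4 d Θ ε v).1 _).2.2 y hy
  obtain ⟨c, e⟩ := lay_VEv hx
  refine ⟨(a i hi).trans c, fun j hj hji => ?_, fun j hj => ?_⟩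
  · have := e j hji
    rw [out_VEv hj] at this
    rwa [a j hj]
  · have := e j fun h' => hi (h' ▸ hj)
    rw [in_VEv hj] at this
    have := b j
    omega

lemma laysub_VEv (h4 : SVTh) {Θ : Finset (Fin d)} (ε : Fin d → Bool) (v : Pt d) {i : Fin d}
    (hi : i ∉ Θ) {l h N : ℕ} (hl : l < N) (hh : h ≤ l) :
    vth Θ ε (vlay Θ v i l h) ⊆ vreg 1 Θ v N := fun y hy => by
  obtain ⟨a, b, c⟩ := thlay_VEv h4 hi hy
  refine mem_ubox.2 fun j => ?_
  by_cases hj : j ∈ Θ
  · have := c j hj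
    rw [in_VEv hj]
    omega
  · rw [out_VEv hj]
    rcases eq_or_ne j i with rfl | hji
    · omega
    · have := b j hj hji
      omega

lemma pos_VEv (h1 : SUHar) (h2 : SVNG) (h3 : RBet) (h4 : SVTh) {s k N : ℕ} {Ω : Finset (Pt d)}
    {p : ℝ} {Θ : Finset (Fin d)} {ε : Fin d → Bool} {v : Pt d} {i₁ i₂ : Fin d}
    {W : Finset (ℕ × ℕ)} (p0 : 0 ≤ p) (p1 : p ≤ 1) (n1 : i₁ ∉ Θ) (n2 : i₂ ∉ Θ) (h12 : i₁ ≠ i₂)
    (hN : 1 ≤ N) (hW : USep s k N W) (hg : vreg 1 Θ v N ⊆ Ω) :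
    p ^ (2 ^ d) * ((∏ l ∈ Finset.Ico 1 N,
      betk (Θ.card + 1) (1 - (1 - p) ^ (upsi W l ^ (d - Θ.card - 1)))) ^ (d - Θ.card) *
      ∏ u ∈ W, (1 - (1 - p) ^ (u.1 ^ (d - Θ.card - 2))) *
        (1 - (1 - p) ^ (upsi W (u.1 + 2) ^ (d - Θ.card - 1)))) ≤
      Pr Ω p (VPos Θ ε v i₁ i₂ N W) := by
  obtain ⟨H1, H2, H3, H4⟩ := h1 _ Ω p p0 p1
  obtain ⟨T1, T2, T3, T4⟩ := h4 d Θ ε v
  have u0 : ∀ m : ℕ, 0 ≤ 1 - (1 - p) ^ m ∧ 1 - (1 - p) ^ m ≤ 1 := fun m =>
    ⟨sub_nonneg.2 (pow_le_one₀ (by linarith) (by linarith)),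
      by linarith [pow_nonneg (sub_nonneg.2 p1) m]⟩
  have b0 : ∀ m : ℕ, 0 ≤ betk (Θ.card + 1) (1 - (1 - p) ^ m) ∧
      betk (Θ.card + 1) (1 - (1 - p) ^ m) ≤ 1 := fun m => by
    have := (h3 (Θ.card + 1) (by omega)).1 _ (u0 m).1 (u0 m).2
    exact ⟨(u0 m).1.trans this.1, this.2.1⟩
  have e1 : p ^ (2 ^ d) ≤ Pr Ω p (fun A => vface Θ v 2 ⊆ A) := by
    rw [H4 _ (Finset.Subset.trans (fun x hx => mem_ubox.2 fun j => by
      have := mem_ubox.1 hx j
      by_cases hj : j ∈ Θ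
      · simp only [in_VEv hj] at this ⊢
        omega
      · simp only [out_VEv hj] at this ⊢
        omega) hg), T2]
    exact pow_le_pow_of_le_one p0 p1 (Nat.pow_le_pow_right (by norm_num) (Nat.sub_le _ _))
  have e2 : (∏ l ∈ Finset.Ico 1 N,
      betk (Θ.card + 1) (1 - (1 - p) ^ (upsi W l ^ (d - Θ.card - 1)))) ^ (d - Θ.card) ≤
      Pr Ω p (fun A => ∀ i ∈ Θᶜ, VNG (fun l => vlay Θ v i l (upsi W l))
        (fun l => vth Θ ε (vlay Θ v i l (upsi W l))) (uJ W N i₁ i) A) := by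
    refine le_trans ?_ (H2 _ Θᶜ _ fun i _ => ng_VEv _ _ _)
    have := Finset.prod_le_prod (s := Θᶜ)
      (f := fun _ => ∏ l ∈ Finset.Ico 1 N,
        betk (Θ.card + 1) (1 - (1 - p) ^ (upsi W l ^ (d - Θ.card - 1))))
      (g := fun i => Pr Ω p (VNG (fun l => vlay Θ v i l (upsi W l))
        (fun l => vth Θ ε (vlay Θ v i l (upsi W l))) (uJ W N i₁ i)))
      (fun _ _ => Finset.prod_nonneg fun l _ => (b0 _).1) fun i hi => ?_
    · rwa [Finset.prod_const, Finset.card_compl, Fintype.card_fin] at this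
    rw [Finset.mem_compl] at hi
    have sub : uJ W N i₁ i ⊆ Finset.Ico 1 N := Finset.filter_subset _ _
    refine le_trans ?_ (h2 _ Ω p p0 p1 (Θ.card + 1) _ _ _ (by omega)
      (fun l hl => ⟨sub_VEv _ _ _, (laysub_VEv h4 ε v hi
        (Finset.mem_Ico.1 (sub hl)).2 (upsi_le W l)).trans hg⟩)
      (fun l _ => (T1 _).2.1 fun x hx j hj => ?_) (fun l _ l' _ h => ?_) fun l _ _ => ?_)
    · simp only [T3 i _ _ hi]
      exact Finset.prod_le_prod_of_subset_of_le_one sub (fun l _ => (b0 _).1) fun l _ _ => (b0 _).2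
    · have := (lay_VEv hx).2 j fun h' => hi (h' ▸ hj)
      rw [in_VEv hj] at this
      omega
    · refine Finset.disjoint_left.2 fun y y1 y2 => ?_
      have := (thlay_VEv h4 hi y1).1
      have := (thlay_VEv h4 hi y2).1
      omega
    · rw [T3 i _ _ hi, T3 i _ _ hi]
      exact Nat.pow_le_pow_left (upsi_mono W l) _
  have i3 : ∀ u : ℕ × ℕ, Incr fun A => Hit (vstrip Θ v i₁ i₂ u.1 u.2) A ∧
      Hit (vlay Θ v i₁ (u.1 + 2) (upsi W (u.1 + 2))) A :=
    fun u A B h hA => ⟨hit_UEv _ A B h hA.1, hit_UEv _ A B h hA.2⟩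
  have e3 : ∏ u ∈ W, (1 - (1 - p) ^ (u.1 ^ (d - Θ.card - 2))) *
      (1 - (1 - p) ^ (upsi W (u.1 + 2) ^ (d - Θ.card - 1)))
      ≤ Pr Ω p (fun A => ∀ u ∈ W, Hit (vstrip Θ v i₁ i₂ u.1 u.2) A ∧
        Hit (vlay Θ v i₁ (u.1 + 2) (upsi W (u.1 + 2))) A) := by
    refine le_trans ?_ (H2 _ W _ fun u _ => i3 u)
    refine Finset.prod_le_prod (fun u _ => mul_nonneg (u0 _).1 (u0 _).1) fun u hu => ?_
    obtain ⟨-, a2, -, a4, -⟩ := hW.1 u hu
    refine le_trans (le_of_eq ?_) (H1 _ _ (hit_UEv _) (hit_UEv _))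
    rw [H3 _ ((sub_VEv Θ ε _).trans ((laysub_VEv h4 ε v n1 (by omega) (upsi_le W _)).trans hg)),
      T3 _ _ _ n1, H3 _ (Finset.Subset.trans (fun x hx => mem_ubox.2 fun j => by
        have := mem_ubox.1 hx j
        by_cases hj : j ∈ Θ
        · have j1 : j ≠ i₁ := fun h' => n1 (h' ▸ hj)
          have j2 : j ≠ i₂ := fun h' => n2 (h' ▸ hj)
          simp only [in_VEv hj, if_neg j1, if_neg j2] at this ⊢
          omega
        · simp only [out_VEv hj] at this ⊢
          split_ifs at this <;> omega) hg), (T4 _ _ _ _ n1 n2 h12).1]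
  have i2 : Incr fun A => ∀ i ∈ Θᶜ, VNG (fun l => vlay Θ v i l (upsi W l))
      (fun l => vth Θ ε (vlay Θ v i l (upsi W l))) (uJ W N i₁ i) A :=
    fun A B h hA i hi => ng_VEv _ _ _ A B h (hA i hi)
  have i4 : Incr fun A => ∀ u ∈ W, Hit (vstrip Θ v i₁ i₂ u.1 u.2) A ∧
      Hit (vlay Θ v i₁ (u.1 + 2) (upsi W (u.1 + 2))) A :=
    fun A B h hA u hu => i3 u A B h (hA u hu)
  have f1 := H1 _ _ i2 i4
  have f2 := H1 (fun A => vface Θ v 2 ⊆ A) _ (fun A B h hA => hA.trans h)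
    (fun A B h (hA : _ ∧ _) => And.intro (i2 A B h hA.1) (i4 A B h hA.2))
  have g0 := Finset.prod_nonneg (s := W) fun u _ => mul_nonneg (u0 (u.1 ^ (d - Θ.card - 2))).1
    (u0 (upsi W (u.1 + 2) ^ (d - Θ.card - 1))).1
  refine le_trans (mul_le_mul e1 (le_trans (mul_le_mul e2 e3 g0 (nonneg_PrA Ω p0 p1 _)) f1)
    (mul_nonneg (pow_nonneg (Finset.prod_nonneg fun l _ => (b0 _).1) _) g0) (nonneg_PrA Ω p0 p1 _))
    (f2.trans (mono_PrA Ω p0 p1 _ _ fun A _ h => ?_))
  exact ⟨h.1, fun i hi => h.2.1 i (Finset.mem_compl.2 hi), h.2.2⟩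

lemma away_VEv (h4 : SVTh) {s k N : ℕ} {Θ : Finset (Fin d)} {ε : Fin d → Bool} {v : Pt d}
    {i₁ i₂ : Fin d} {W : Finset (ℕ × ℕ)} (n1 : i₁ ∉ Θ) (n2 : i₂ ∉ Θ) (h12 : i₁ ≠ i₂)
    (hs : 1 ≤ s) (hW : USep s k N W) (A : Finset (Pt d)) (h : VPos Θ ε v i₁ i₂ N W A) :
    VPos Θ ε v i₁ i₂ N W (A \ W.biUnion fun u => vth Θ ε (vhole Θ v i₁ i₂ u.1 u.2)) := by
  have key : ∀ X : Finset (Pt d), (∀ x ∈ X, ∀ u ∈ W, x ∉ vth Θ ε (vhole Θ v i₁ i₂ u.1 u.2)) →
      Hit X A → Hit X (A \ W.biUnion fun u => vth Θ ε (vhole Θ v i₁ i₂ u.1 u.2)) := by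
    rintro X hX ⟨x, x1, x2⟩
    refine ⟨x, Finset.mem_sdiff.2 ⟨x1, fun hx => ?_⟩, x2⟩
    obtain ⟨u, hu, hx⟩ := Finset.mem_biUnion.1 hx
    exact hX x x2 u hu hx
  have h1 : ∀ u ∈ W, ∀ y ∈ vth Θ ε (vhole Θ v i₁ i₂ u.1 u.2), v i₁ + u.1 + 1 ≤ y i₁ ∧
      y i₁ < v i₁ + u.1 + 3 ∧ ∀ j, j ∉ Θ → j ≠ i₁ → y j < v j + u.2 := fun u hu y hy => by
    obtain ⟨x, hx, a, -⟩ := ((h4 d Θ ε v).1 _).2.2 y hy
    have := (hW.1 u hu).2.1
    have h1 := mem_ubox.1 hx i₁
    simp only [if_true] at h1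
    rw [a i₁ n1]
    refine ⟨h1.1, h1.2, fun j hjt hj => ?_⟩
    have h2 := mem_ubox.1 hx j
    simp only [if_neg hj, out_VEv hjt] at h2
    rw [a j hjt]
    split_ifs at h2 <;> omega
  have lay : ∀ i l, i ∉ Θ → (i = i₁ → ∀ u ∈ W, l ≠ u.1 ∧ l ≠ u.1 + 1) →
      ∀ x ∈ vth Θ ε (vlay Θ v i l (upsi W l)),
      ∀ u ∈ W, x ∉ vth Θ ε (vhole Θ v i₁ i₂ u.1 u.2) := fun i l hi hl x hx u hu hx' => by
    obtain ⟨y1, y2, -⟩ := thlay_VEv h4 hi hx
    obtain ⟨z1, z2, z3⟩ := h1 u hu x hx'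
    rcases eq_or_ne i i₁ with rfl | hi'
    · have := hl rfl u hu
      omega
    · have := z3 i hi hi'
      have := y2 i₁ n1 hi'.symm
      have := upsi_le_jog hu (l := l) (by omega)
      omega
  refine ⟨fun x hx => Finset.mem_sdiff.2 ⟨h.1 hx, fun hx' => ?_⟩, fun i hi l l1 l2 => ?_,
    fun u hu => ⟨key _ (fun x hx u' hu' hx' => ?_) (h.2.2 u hu).1,
      key _ (fun x hx => lay _ _ n1 (fun _ u' hu' => ?_) x (sub_VEv Θ ε _ hx)) (h.2.2 u hu).2⟩⟩
  · obtain ⟨u, hu, hx'⟩ := Finset.mem_biUnion.1 hx'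
    have := (h1 u hu x hx').1
    have := (hW.1 u hu).1
    have := mem_ubox.1 hx i₁
    simp only [out_VEv n1] at this
    omega
  · exact (h.2.1 i hi l l1 l2).imp (key _ (lay i l hi (Finset.mem_filter.1 l1).2))
      (key _ fun x hx => lay i (l + 1) hi (Finset.mem_filter.1 l2).2 x (sub_VEv Θ ε _ hx))
  · obtain ⟨z1, z2, z3⟩ := h1 u' hu' x hx'
    have y1 := mem_ubox.1 hx i₁
    have y2 := mem_ubox.1 hx i₂
    have := z3 i₂ n2 h12.symm
    simp only [if_true, if_neg h12.symm] at y1 y2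
    rcases eq_or_ne u u' with rfl | hne
    · omega
    · have := hW.2 u hu u' hu' hne
      omega
  · rcases eq_or_ne u u' with rfl | hne
    · omega
    · have := hW.2 u hu u' hu' hne
      omega

theorem sVEv (h1 : SUHar) (h2 : SVNG) (h3 : RBet) (h4 : SVTh) : SVEv := by
  intro d s k N Ω p Θ ε v i₁ i₂ W p0 p1 n1 n2 h12 hs hN hW hg
  have q0 : 0 ≤ 1 - p := sub_nonneg.2 p1
  have inc : Incr (VPos Θ ε v i₁ i₂ N W) := fun A B h hA => ⟨hA.1.trans h,
    fun i hi => ng_VEv _ _ _ A B h (hA.2.1 i hi), fun u hu =>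
      ⟨hit_UEv _ A B h (hA.2.2 u hu).1, hit_UEv _ A B h (hA.2.2 u hu).2⟩⟩
  obtain ⟨H, hH⟩ : ∃ H, H = W.biUnion fun u => vth Θ ε (vhole Θ v i₁ i₂ u.1 u.2) := ⟨_, rfl⟩
  have e := indep_PrB Ω p H (fun A => A ∩ H = ∅) (VPos Θ ε v i₁ i₂ N W)
    (fun A => by rw [Finset.inter_assoc, Finset.inter_self])
    fun A => ⟨fun h => hH ▸ away_VEv h4 n1 n2 h12 hs hW A h, inc _ _ Finset.sdiff_subset⟩
  have e1 : ∏ u ∈ W, (1 - p) ^ ((Θ.card + 1) * (2 * u.2 * (u.1 + 1) ^ (d - Θ.card - 2))) ≤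
      Pr Ω p fun A => A ∩ H = ∅ := by
    refine le_trans ?_ (avoid_PrB Ω p0 p1 H)
    rw [Finset.prod_pow_eq_pow_sum]
    refine pow_le_pow_of_le_one q0 (by linarith) ?_
    rw [hH]
    refine Finset.card_biUnion_le.trans (Finset.sum_le_sum fun u _ => ?_)
    rw [← ((h4 d Θ ε v).2.2.2 _ _ u.1 u.2 n1 n2 h12).2]
    exact ((h4 d Θ ε v).1 _).1
  have e2 := pos_VEv h1 h2 h3 h4 (ε := ε) p0 p1 n1 n2 h12 hN hW hg
  have e3 := mul_le_mul e2 e1 (Finset.prod_nonneg fun u _ => pow_nonneg q0 _) (nonneg_PrA Ω p0 p1 _)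
  rw [mul_comm (Pr Ω p _), ← e] at e3
  refine le_trans (le_of_eq ?_) (e3.trans (mono_PrA Ω p0 p1 _ _ fun A _ h => ⟨h.2, ?_⟩))
  · rw [vwt, Finset.prod_mul_distrib]
    ring
  · rintro u hu ⟨x, x1, x2⟩
    have : x ∈ A ∩ H := Finset.mem_inter.2 ⟨x1, hH ▸ Finset.mem_biUnion.2 ⟨u, hu, x2⟩⟩
    rw [h.1] at this
    exact absurd this (Finset.notMem_empty x)

end Pool.Agent.MP_6d294b_pr

end

section

open Finset

namespace Pool.Agent.MP_6d294b_pr

lemma mem_face_VA {d : ℕ} {Θ : Finset (Fin d)} {v x : Pt d} {t : ℕ} :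
    x ∈ vface Θ v t ↔ ∀ j, v j ≤ x j ∧ x j < v j + (if j ∈ Θ then 1 else (t : ℤ)) := by
  unfold vface vsd
  rw [mem_ubox]
  refine forall_congr' fun j => ?_
  split_ifs <;> simp

lemma mem_reg_VA {d h : ℕ} {Θ : Finset (Fin d)} {v x : Pt d} {t : ℕ} :
    x ∈ vreg h Θ v t ↔
      ∀ j, v j - h ≤ x j ∧ x j < v j + (if j ∈ Θ then 1 else (t : ℤ)) + h := by
  unfold vreg vsd
  rw [mem_ubox]
  refine forall_congr' fun j => ?_
  split_ifs <;> simp

lemma face_mono_VA {d : ℕ} {Θ : Finset (Fin d)} {v x : Pt d} {s t : ℕ} (hst : s ≤ t)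
    (hx : x ∈ vface Θ v s) : x ∈ vface Θ v t := by
  rw [mem_face_VA] at hx ⊢
  intro j
  have := hx j
  have h2 : (s : ℤ) ≤ t := by exact_mod_cast hst
  split_ifs at this ⊢ <;> omega

lemma reg_sub_VA {d : ℕ} (h t : ℕ) (Θ : Finset (Fin d)) (v : Pt d) (s : ℕ) (i : Fin d)
    (b : Fin d → Bool) (hst : s < t) (hi : i ∉ Θ) :
    vreg h (insert i Θ) (vnx Θ v i s b) s ⊆ vreg h Θ v t := by
  intro x hx
  rw [mem_reg_VA] at hx ⊢
  intro j
  have h1 := hx j
  have h2 : (s : ℤ) < t := by exact_mod_cast hst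
  unfold vnx at h1
  by_cases hji : j = i
  · subst hji
    simp only [if_true, mem_insert_self, if_neg hi] at h1 ⊢
    omega
  · simp only [mem_insert, hji, false_or, if_false] at h1
    by_cases hj : j ∈ Θ
    · simp only [if_pos hj] at h1 ⊢
      exact h1
    · simp only [if_neg hj] at h1 ⊢
      split_ifs at h1 <;> omega

/-- description of the small faces -/
lemma mem_nx_VA {d : ℕ} {Θ : Finset (Fin d)} {v y : Pt d} {s : ℕ} {i : Fin d}
    {b : Fin d → Bool} : y ∈ vface (insert i Θ) (vnx Θ v i s b) s ↔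
      y i = v i + s ∧ (∀ j, j ≠ i → j ∈ Θ → y j = v j) ∧
      ∀ j, j ≠ i → j ∉ Θ → v j + (if b j then 1 else 0) ≤ y j ∧
        y j < v j + (if b j then 1 else 0) + s := by
  rw [mem_face_VA]
  unfold vnx
  constructor
  · intro hy
    refine ⟨?_, fun j hji hj => ?_, fun j hji hj => ?_⟩
    · have := hy i
      simp only [if_true, mem_insert_self] at this
      omega
    · have := hy j
      simp only [if_neg hji, mem_insert, hj, or_true, if_true] at this
      omega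
    · have := hy j
      simp only [mem_insert, hji, hj, or_false, if_false] at this
      exact this
  · rintro ⟨h1, h2, h3⟩ j
    by_cases hji : j = i
    · subst hji
      simp only [if_true, mem_insert_self]
      omega
    · by_cases hj : j ∈ Θ
      · have := h2 j hji hj
        simp only [if_neg hji, mem_insert, hj, or_true, if_true]
        omega
      · simp only [mem_insert, hji, hj, or_false, if_false]
        exact h3 j hji hj

theorem sVAd : SVAd := by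
  classical
  intro d r h t Θ ε v
  refine ⟨fun s i b _ hst hi => reg_sub_VA h t Θ v s i b hst hi, ?_⟩
  intro A ht hv hG S hcl hA hbel
  have ht' : (1 : ℤ) ≤ t := by exact_mod_cast ht
  have key : ∀ s : ℕ, 1 ≤ s → s ≤ t → ∀ x ∈ vface Θ v s, x ∈ S := by
    intro s hs
    induction s, hs using Nat.le_induction with
    | base =>
      intro _ x hx
      have hxv : x = v := by
        funext j
        have := mem_face_VA.1 hx j
        split_ifs at this <;> omega
      rw [hxv]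
      refine hA v hv (mem_reg_VA.2 fun j => ?_)
      split_ifs <;> omega
    | succ s hs ih =>
      intro hst
      have hs' : (1 : ℤ) ≤ s := by exact_mod_cast hs
      have main : ∀ (n : ℕ) (x : Pt d), x ∈ vface Θ v (s + 1) →
          (univ.filter fun j => j ∉ Θ ∧ x j = v j + s).card ≤ n → x ∈ S := by
        intro n
        induction n using Nat.strong_induction_on with
        | _ n ihn =>
          intro x hx hc
          have hx' := mem_face_VA.1 hx
          by_cases hQ : ∃ i, i ∉ Θ ∧ x i = v i + s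
          · obtain ⟨i, hi, hxi⟩ := hQ
            let b : Fin d → Bool := fun j => decide (x j = v j + s)
            have hsub : ∀ y ∈ vface (insert i Θ) (vnx Θ v i s b) s, y ∈ vface Θ v t := by
              intro y hy
              obtain ⟨y1, y2, y3⟩ := mem_nx_VA.1 hy
              refine face_mono_VA hst (mem_face_VA.2 fun j => ?_)
              by_cases hji : j = i
              · subst hji
                rw [if_neg hi]
                push_cast
                omega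
              · by_cases hj : j ∈ Θ
                · rw [if_pos hj, y2 j hji hj]
                  omega
                · have := y3 j hji hj
                  rw [if_neg hj]
                  push_cast
                  split_ifs at this <;> omega
            refine hG s i b hs (by omega) hi S (fun y hy => hcl y (hsub y hy))
              (fun y hy hy' => hA y hy (reg_sub_VA h t Θ v s i b (by omega) hi hy')) ?_ x ?_
            · intro y hy j hj
              by_cases hji : j = i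
              · subst hji
                obtain ⟨y1, y2, y3⟩ := mem_nx_VA.1 hy
                have hv1 : vsh y j (!Function.update ε j true j) = Function.update y j (y j - 1) := by
                  simp [vsh, vsg, sub_eq_add_neg]
                rw [hv1]
                have hcard : (univ.filter fun l => l ∉ Θ ∧
                    Function.update y j (y j - 1) l = v l + s).card <
                    (univ.filter fun l => l ∉ Θ ∧ x l = v l + s).card := by
                  refine card_lt_card ⟨fun l hl => ?_, fun hh => ?_⟩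
                  · obtain ⟨-, l1, l2⟩ := mem_filter.1 hl
                    refine mem_filter.2 ⟨mem_univ _, l1, ?_⟩
                    by_cases hlj : l = j
                    · rw [hlj]; exact hxi
                    · rw [Function.update_of_ne hlj] at l2
                      have := y3 l hlj l1
                      by_contra hne
                      have hb : b l = false := by simp [b, hne]
                      rw [hb] at this
                      simp at this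
                      omega
                  · have := (mem_filter.1 (hh (mem_filter.2 ⟨mem_univ j, hi, hxi⟩))).2.2
                    rw [Function.update_self] at this
                    omega
                refine ihn _ (lt_of_lt_of_le hcard hc) _ (mem_face_VA.2 fun l => ?_) le_rfl
                by_cases hlj : l = j
                · subst hlj
                  rw [Function.update_self, if_neg hi]
                  push_cast
                  omega
                · rw [Function.update_of_ne hlj]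
                  by_cases hl : l ∈ Θ
                  · rw [if_pos hl, y2 l hlj hl]
                    omega
                  · have := y3 l hlj hl
                    rw [if_neg hl]
                    push_cast
                    split_ifs at this <;> omega
              · rw [Function.update_of_ne hji]
                exact hbel y (hsub y hy) j ((mem_insert.1 hj).resolve_left hji)
            · refine mem_nx_VA.2 ⟨hxi, fun j _ hj => ?_, fun j _ hj => ?_⟩
              · have := hx' j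
                rw [if_pos hj] at this
                omega
              · have := hx' j
                rw [if_neg hj] at this
                push_cast at this
                by_cases hxj : x j = v j + s
                · have hb : b j = true := by simp [b, hxj]
                  rw [hb]
                  simp only [if_true]
                  omega
                · have hb : b j = false := by simp [b, hxj]
                  rw [hb]
                  simp only [Bool.false_eq_true, if_false]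
                  omega
          · push Not at hQ
            refine ih (by omega) x (mem_face_VA.2 fun j => ?_)
            have := hx' j
            by_cases hj : j ∈ Θ
            · rw [if_pos hj] at this ⊢
              exact this
            · rw [if_neg hj] at this ⊢
              have h3 := hQ j hj
              push_cast at this
              omega
      exact fun x hx => main _ x hx le_rfl
  exact key t ht le_rfl

lemma exp_le_VA {x : ℝ} (h0 : 0 ≤ x) (h1 : x ≤ 1 / 2) : Real.exp (- (2 * x)) ≤ 1 - x := by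
  have h2 : 1 + 2 * x ≤ Real.exp (2 * x) := by
    have := Real.add_one_le_exp (2 * x)
    linarith
  rw [Real.exp_neg, inv_le_iff_one_le_mul₀ (Real.exp_pos _)]
  have h3 : (1 - x) * (1 + 2 * x) ≤ (1 - x) * Real.exp (2 * x) :=
    mul_le_mul_of_nonneg_left h2 (by linarith)
  nlinarith [mul_nonneg h0 (show 0 ≤ 1 - 2 * x by linarith)]

open Classical in
lemma sum_VA (t : ℕ) {m E : ℝ} (hm : 2 ≤ m) (hE : 0 ≤ E) :
    ∑ s ∈ Finset.Ico 1 t, (if (s : ℝ) < m then E else 2 * (1 / (s : ℝ) ^ 2)) ≤ m * E + 2 := by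
  rw [Finset.sum_ite]
  refine add_le_add ?_ ?_
  · rw [sum_const, nsmul_eq_mul]
    refine mul_le_mul_of_nonneg_right ?_ hE
    have h1 : ((Finset.Ico 1 t).filter fun s : ℕ => (s : ℝ) < m) ⊆ Finset.Ico 1 ⌈m⌉₊ := by
      intro s hs
      obtain ⟨h1, h2⟩ := mem_filter.1 hs
      exact mem_Ico.2 ⟨(mem_Ico.1 h1).1, Nat.lt_ceil.2 h2⟩
    have h2 := card_le_card h1
    rw [Nat.card_Ico] at h2
    have h3 : (⌈m⌉₊ : ℝ) < m + 1 := Nat.ceil_lt_add_one (by linarith)
    have h4 : 1 ≤ ⌈m⌉₊ := Nat.one_le_iff_ne_zero.2 (Nat.pos_iff_ne_zero.1 (Nat.ceil_pos.2 (by linarith)))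
    have h5 : ((((Finset.Ico 1 t).filter fun s : ℕ => (s : ℝ) < m).card : ℕ) : ℝ) ≤
        ((⌈m⌉₊ - 1 : ℕ) : ℝ) := by exact_mod_cast h2
    rw [Nat.cast_sub h4] at h5
    push_cast at h5
    linarith
  · have h1 : ((Finset.Ico 1 t).filter fun s : ℕ => ¬ (s : ℝ) < m) ⊆ Finset.Ioo 1 t := by
      intro s hs
      obtain ⟨h1, h2⟩ := mem_filter.1 hs
      have h3 : (2 : ℝ) ≤ s := by linarith [not_lt.1 h2]
      have h4 : 2 ≤ s := by exact_mod_cast h3
      exact mem_Ioo.2 ⟨by omega, (mem_Ico.1 h1).2⟩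
    have h2 := sum_Ioo_inv_sq_le (α := ℝ) 1 t
    refine (sum_le_sum_of_subset_of_nonneg h1 fun s _ _ => by positivity).trans ?_
    rw [← mul_sum]
    simp only [one_div]
    norm_num at h2 ⊢
    linarith

theorem sVA (h1 : SUHar) (h2 : SVAd) : SVA := by
  classical
  intro d r h j K p m E p0 p1 hm hE hK hp H1 H2 Ω Θ ε v t hΘ ht hΩ
  obtain ⟨a1, a2, -, a4⟩ := h1 (Pt d) Ω p p0 p1
  obtain ⟨b1, b2⟩ := h2 d r h t Θ ε v
  have ht' : (1 : ℤ) ≤ t := by exact_mod_cast ht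
  let J : Finset (Fin d × (Fin d → Bool)) := (univ \ Θ) ×ˢ univ
  let I : Finset (ℕ × Fin d × (Fin d → Bool)) := Finset.Ico 1 t ×ˢ J
  let Ev : ℕ × Fin d × (Fin d → Bool) → Finset (Pt d) → Prop := fun k =>
    VG r h (insert k.2.1 Θ) (Function.update ε k.2.1 true) (vnx Θ v k.2.1 k.1 k.2.2) k.1
  let a : ℕ → ℝ := fun s => if (s : ℝ) < m then E else 2 * (1 / (s : ℝ) ^ 2)
  have hv : ({v} : Finset (Pt d)) ⊆ Ω := by
    refine singleton_subset_iff.2 (hΩ (mem_reg_VA.2 fun l => ?_))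
    split_ifs <;> omega
  have hfac : ∀ k ∈ I, Real.exp (- a k.1) ≤ Pr Ω p (Ev k) := by
    rintro ⟨s, i, b⟩ hk
    obtain ⟨k1, k2⟩ := mem_product.1 hk
    obtain ⟨s1, s2⟩ := mem_Ico.1 k1
    have hi : i ∉ Θ := (mem_sdiff.1 (mem_product.1 k2).1).2
    have hc : (insert i Θ).card = j + 1 := by rw [card_insert_of_notMem hi, hΘ]
    have hr := (b1 s i b s1 s2 hi).trans hΩ
    by_cases hs : (s : ℝ) < m
    · have : a s = E := if_pos hs
      rw [this]
      exact H1 Ω _ _ _ s hc s1 hr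
    · have : a s = 2 * (1 / (s : ℝ) ^ 2) := if_neg hs
      rw [this]
      have h3 : (2 : ℝ) ≤ s := by linarith [not_lt.1 hs]
      refine le_trans ?_ (H2 Ω _ _ _ s hc (not_lt.1 hs) hr)
      have h4 : 1 / (s : ℝ) ^ K ≤ 1 / (s : ℝ) ^ 2 :=
        one_div_le_one_div_of_le (by positivity) (pow_le_pow_right₀ (by linarith) hK)
      have h5 : 1 / (s : ℝ) ^ 2 ≤ 1 / 2 :=
        one_div_le_one_div_of_le (by norm_num) (by nlinarith)
      have h6 := exp_le_VA (x := 1 / (s : ℝ) ^ 2) (by positivity) h5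
      linarith
  have hJ : (J.card : ℝ) ≤ d * 2 ^ d := by
    have : J.card ≤ d * 2 ^ d := by
      rw [card_product, card_univ, Fintype.card_fun, Fintype.card_bool, Fintype.card_fin]
      refine Nat.mul_le_mul_right _ ?_
      exact (card_le_univ _).trans (le_of_eq (Fintype.card_fin d))
    exact_mod_cast this
  have hsum : ∑ k ∈ I, a k.1 ≤ d * 2 ^ d * (m * E + 2) := by
    rw [sum_product]
    simp only [sum_const, nsmul_eq_mul]
    rw [← mul_sum]
    have h3 := sum_VA t hm hE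
    have h4 : 0 ≤ m * E + 2 := by positivity
    calc (J.card : ℝ) * ∑ s ∈ Finset.Ico 1 t, a s ≤ J.card * (m * E + 2) :=
          mul_le_mul_of_nonneg_left h3 (Nat.cast_nonneg _)
      _ ≤ _ := mul_le_mul_of_nonneg_right hJ h4
  have hprod : Real.exp (- (d * 2 ^ d * (m * E + 2))) ≤ ∏ k ∈ I, Pr Ω p (Ev k) := by
    refine le_trans ?_ (prod_le_prod (fun k _ => (Real.exp_pos _).le) hfac)
    rw [← Real.exp_sum, sum_neg_distrib]
    exact Real.exp_le_exp.2 (by linarith)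
  have hinc : ∀ k ∈ I, Incr (Ev k) := fun k _ => incr_VG _ _ _ _ _ _
  have hH := a1 (fun A => {v} ⊆ A) (fun A => ∀ k ∈ I, Ev k A)
    (fun A B hAB hh => hh.trans hAB) (fun A B hAB hh k hk => hinc k hk A B hAB (hh k hk))
  rw [a4 _ hv, card_singleton, pow_one] at hH
  calc Real.exp (- (E + d * 2 ^ d * (m * E + 2)))
      = Real.exp (- E) * Real.exp (- (d * 2 ^ d * (m * E + 2))) := by
        rw [← Real.exp_add, neg_add]
    _ ≤ p * Pr Ω p (fun A => ∀ k ∈ I, Ev k A) :=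
        mul_le_mul hp (hprod.trans (a2 _ I Ev hinc)) (Real.exp_pos _).le p0
    _ ≤ _ := hH.trans (mono_PrA Ω p0 p1 _ _ fun A _ hA => b2 A ht (singleton_subset_iff.1 hA.1)
        fun s i b s1 s2 hi => hA.2 (s, i, b) (mem_product.2 ⟨mem_Ico.2 ⟨s1, s2⟩,
          mem_product.2 ⟨mem_sdiff.2 ⟨mem_univ _, hi⟩, mem_univ _⟩⟩))

end Pool.Agent.MP_6d294b_pr

end

section

open Finset

namespace Pool.Agent.MP_6d294b_pr

variable {d : ℕ}

theorem mem_face_VB {Θ : Finset (Fin d)} {v x : Pt d} {t : ℕ} :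
    x ∈ vface Θ v t ↔ ∀ j, v j ≤ x j ∧ x j < v j + vsd Θ t j := mem_ubox

theorem mem_reg_VB {h : ℕ} {Θ : Finset (Fin d)} {v x : Pt d} {t : ℕ} :
    x ∈ vreg h Θ v t ↔ ∀ j, v j - h ≤ x j ∧ x j < v j + vsd Θ t j + h := mem_ubox

theorem pos_VB (Θ : Finset (Fin d)) {t : ℕ} (ht : 1 ≤ t) (j : Fin d) : 1 ≤ vsd Θ t j := by
  unfold vsd
  split_ifs <;> omega

theorem cor_VB {Θ Θ' : Finset (Fin d)} {u v : Pt d} {M n : ℕ} (hM : 1 ≤ M)
    (h : vface Θ' u M ⊆ vface Θ v n) (j : Fin d) :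
    v j ≤ u j ∧ u j + vsd Θ' M j ≤ v j + vsd Θ n j := by
  have h1 : u ∈ vface Θ' u M := mem_face_VB.2 fun j => by
    have := pos_VB Θ' hM j
    omega
  have h2 : (fun j => u j + vsd Θ' M j - 1) ∈ vface Θ' u M := mem_face_VB.2 fun j => by
    have := pos_VB Θ' hM j
    omega
  have a := mem_face_VB.1 (h h1) j
  have b := mem_face_VB.1 (h h2) j
  omega

theorem reg_VB {Θ Θ' : Finset (Fin d)} {u v : Pt d} {M n : ℕ} (hM : 1 ≤ M)
    (h : vface Θ' u M ⊆ vface Θ v n) (k : ℕ) : vreg k Θ' u M ⊆ vreg k Θ v n := by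
  intro x hx
  refine mem_reg_VB.2 fun j => ?_
  have a := mem_reg_VB.1 hx j
  have b := cor_VB hM h j
  omega

/-- contribution of one coordinate to the distance from the droplet -/
def tm_VB (Θ : Finset (Fin d)) (w : Pt d) (M : ℕ) (j : Fin d) (z : ℤ) : ℕ :=
  (w j - z).toNat + (z - (w j + vsd Θ M j - 1)).toNat

theorem sVBd : SVBd := by
  intro d r h₁ h₂ n M Θ ε v w A hM hf hr hw hu S c1 c2 c3
  have h0 : ∀ x ∈ vface Θ w M, x ∈ S :=
    hw S (fun x hx => c1 x (hf hx)) (fun x hx hx' => c2 x hx (hr hx')) fun x hx => c3 x (hf hx)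
  have hc := cor_VB hM hf
  have key : ∀ (k : ℕ) (x : Pt d), ∑ j, tm_VB Θ w M j (x j) = k → x ∈ vface Θ v n → x ∈ S := by
    intro k
    induction k using Nat.strong_induction_on with
    | _ k ih =>
      intro x hk hx
      by_cases hin : x ∈ vface Θ w M
      · exact h0 x hin
      obtain ⟨i, hi⟩ : ∃ i, ¬(w i ≤ x i ∧ x i < w i + vsd Θ M i) := by
        by_contra hcon
        push Not at hcon
        exact hin (mem_face_VB.2 hcon)
      have hx' := mem_face_VB.1 hx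
      have hiΘ : i ∉ Θ := by
        intro h
        have a := hx' i
        have b := hc i
        simp only [vsd, if_pos h] at a b hi
        omega
      obtain ⟨u, hu'⟩ : ∃ u : Pt d, ∀ j, u j = if j ∈ insert i Θ then x j else
        if x j < w j then x j else if w j + M ≤ x j then x j - M + 1 else w j := ⟨_, fun _ => rfl⟩
      have hy : ∀ y ∈ vface (insert i Θ) u M, ∀ j, (v j ≤ y j ∧ y j < v j + vsd Θ n j) ∧
          tm_VB Θ w M j (y j) ≤ tm_VB Θ w M j (x j) ∧ (j ∈ insert i Θ → y j = x j) := by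
        intro y hy j
        have a := mem_face_VB.1 hy j
        have b := hc j
        have c := hx' j
        rw [hu' j] at a
        by_cases hj : j ∈ insert i Θ
        · simp only [vsd, if_pos hj] at a
          have e : y j = x j := by omega
          rw [e]
          exact ⟨c, le_rfl, fun _ => rfl⟩
        · have hj' : j ∉ Θ := fun h => hj (mem_insert_of_mem h)
          simp only [vsd, tm_VB, if_neg hj, if_neg hj'] at a b c ⊢
          refine ⟨?_, ?_, fun h => absurd h hj⟩ <;> split_ifs at a <;> omega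
      have hsub : vface (insert i Θ) u M ⊆ vface Θ v n :=
        fun y h => mem_face_VB.2 fun j => (hy y h j).1
      refine hu i (decide (w i ≤ x i)) u hiΘ hsub S (fun y h => c1 y (hsub h))
        (fun y h h' => c2 y h (reg_VB hM hsub h₂ h')) (fun y h j hj => ?_) x
        (mem_face_VB.2 fun j => ?_)
      · rcases mem_insert.1 hj with rfl | hj'
        · rw [Function.update_self]
          have e := (hy y h j).2.2 hj
          have a := hx' j
          have b := hc j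
          have hs : vsh y j (!decide (w j ≤ x j)) j = if w j ≤ x j then x j - 1 else x j + 1 := by
            unfold vsh vsg
            rw [Function.update_self, e]
            by_cases h3 : w j ≤ x j
            · simp [h3, sub_eq_add_neg]
            · simp [h3]
          have ho : ∀ l, l ≠ j → vsh y j (!decide (w j ≤ x j)) l = y l := fun l hl =>
            Function.update_of_ne hl _ _
          have p1 := pos_VB Θ hM j
          refine ih _ ?_ _ rfl (mem_face_VB.2 fun l => ?_)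
          · rw [← hk]
            refine sum_lt_sum (fun l _ => ?_) ⟨j, mem_univ j, ?_⟩
            · by_cases hl : l = j
              · rw [hl, hs]
                unfold tm_VB
                split_ifs <;> omega
              · rw [ho l hl]
                exact (hy y h l).2.1
            · rw [hs]
              unfold tm_VB
              split_ifs <;> omega
          · by_cases hl : l = j
            · rw [hl, hs]
              split_ifs <;> omega
            · rw [ho l hl]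
              exact (hy y h l).1
        · rw [Function.update_of_ne (fun e : j = i => hiΘ (e ▸ hj'))]
          exact c3 y (hsub h) j hj'
      · rw [hu' j]
        unfold vsd
        split_ifs <;> omega
  exact fun x hx => key _ x rfl hx

/-- corner of the droplet with index `c` -/
def drp_VB (Θ : Finset (Fin d)) (v : Pt d) (M : ℕ) (c : Fin d → ℕ) : Pt d :=
  fun j => if j ∈ Θ then v j else v j + 1 + ((M + 2) * c j : ℕ)

def idx_VB (Θ : Finset (Fin d)) (m : ℕ) : Finset (Fin d → ℕ) :=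
  Fintype.piFinset fun j => if j ∈ Θ then {0} else range m

theorem card_idx_VB (Θ : Finset (Fin d)) (m : ℕ) : (idx_VB Θ m).card = m ^ (d - Θ.card) := by
  rw [idx_VB, Fintype.card_piFinset, ← prod_mul_prod_compl Θ, prod_eq_one, one_mul,
    prod_congr rfl (g := fun _ => m), prod_const, card_compl, Fintype.card_fin]
  · intro j hj
    rw [if_neg (mem_compl.1 hj), card_range]
  · intro j hj
    rw [if_pos hj, card_singleton]

theorem bd_idx_VB {Θ : Finset (Fin d)} {n M : ℕ} {c : Fin d → ℕ} (hc : c ∈ idx_VB Θ (n / (M + 2)))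
    {j : Fin d} (hj : j ∉ Θ) : (M + 2) * c j + (M + 2) ≤ n := by
  have h := Fintype.mem_piFinset.1 hc j
  rw [if_neg hj, mem_range] at h
  exact (Nat.mul_le_mul_left (M + 2) h).trans (Nat.mul_div_le n (M + 2))

theorem disj_VB {Θ : Finset (Fin d)} (v : Pt d) {m M h : ℕ} (hh : h ≤ 1) {c c' : Fin d → ℕ}
    (hc : c ∈ idx_VB Θ m) (hc' : c' ∈ idx_VB Θ m) (hne : c ≠ c') :
    Disjoint (vreg h Θ (drp_VB Θ v M c) M) (vreg h Θ (drp_VB Θ v M c') M) := by
  refine disjoint_left.2 fun x hx hx' => hne (funext fun j => ?_)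
  by_cases hj : j ∈ Θ
  · have a := Fintype.mem_piFinset.1 hc j
    have b := Fintype.mem_piFinset.1 hc' j
    rw [if_pos hj, mem_singleton] at a b
    rw [a, b]
  · have a := mem_reg_VB.1 hx j
    have b := mem_reg_VB.1 hx' j
    simp only [drp_VB, vsd, if_neg hj] at a b
    have h1 : (M + 2) * c j < (M + 2) * (c' j + 1) := by rw [Nat.mul_succ]; omega
    have h2 : (M + 2) * c' j < (M + 2) * (c j + 1) := by rw [Nat.mul_succ]; omega
    have h3 := Nat.lt_of_mul_lt_mul_left h1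
    have h4 := Nat.lt_of_mul_lt_mul_left h2
    omega

theorem card_face_VB (Θ : Finset (Fin d)) (v : Pt d) {n : ℕ} (hn : 1 ≤ n) :
    (vface Θ v n).card ≤ n ^ d := by
  rw [vface, card_ubox]
  refine (prod_le_pow_card _ _ n fun j _ => ?_).trans (by rw [card_univ, Fintype.card_fin])
  unfold vsd
  split_ifs <;> omega

theorem sVB (h1 : SUInd) (h2 : SVBd) : SVB := by
  classical
  intro d r h₁ h₂ j n M p δ φ p0 p1 hφ hM hn hh1 hh2 hδ hu Ω Θ ε v hΘ hΩ
  have f1 : ∀ c ∈ idx_VB Θ (n / (M + 2)), vface Θ (drp_VB Θ v M c) M ⊆ vface Θ v n := by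
    intro c hc x hx
    refine mem_face_VB.2 fun l => ?_
    have a := mem_face_VB.1 hx l
    by_cases hl : l ∈ Θ
    · simpa only [drp_VB, vsd, if_pos hl] using a
    · have b := bd_idx_VB hc hl
      simp only [drp_VB, vsd, if_neg hl] at a ⊢
      omega
  have f2 : ∀ c ∈ idx_VB Θ (n / (M + 2)), vreg h₁ Θ (drp_VB Θ v M c) M ⊆ vreg h₂ Θ v n := by
    intro c hc x hx
    refine mem_reg_VB.2 fun l => ?_
    have a := mem_reg_VB.1 hx l
    by_cases hl : l ∈ Θ
    · have b : 0 < Θ.card := card_pos.2 ⟨l, hl⟩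
      simp only [drp_VB, vsd, if_pos hl] at a ⊢
      omega
    · have b := bd_idx_VB hc hl
      simp only [drp_VB, vsd, if_neg hl] at a ⊢
      omega
  have a1 : Pr Ω p (fun A => ∀ c ∈ idx_VB Θ (n / (M + 2)), ¬ VG r h₁ Θ ε (drp_VB Θ v M c) M A) ≤
      Real.exp (- (δ * ((n / (M + 2) : ℕ) : ℝ) ^ (d - j))) := by
    rw [(h1 _ Ω p p0 p1 _ (idx_VB Θ (n / (M + 2)))
      (fun c A => ¬ VG r h₁ Θ ε (drp_VB Θ v M c) M A)).1
      (fun c => vreg h₁ Θ (drp_VB Θ v M c) M) (fun c hc c' hc' h => disj_VB v hh1 hc hc' h)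
      fun c _ A => not_congr (loc_VG r h₁ Θ ε _ M A)]
    refine (prod_le_prod (g := fun _ => Real.exp (- δ))
      (fun c _ => nonneg_PrA _ p0 p1 _) fun c hc => ?_).trans (le_of_eq ?_)
    · rw [compl_PrB]
      have := hδ Ω Θ ε _ hΘ ((f2 c hc).trans hΩ)
      have := Real.add_one_le_exp (- δ)
      linarith
    · rw [prod_const, card_idx_VB, hΘ, ← Real.exp_nat_mul]
      congr 1
      push_cast
      ring
  have a2 : Pr Ω p (fun A => ∃ k ∈ ((univ : Finset (Fin d × Bool)) ×ˢ vface Θ v n).filter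
      (fun k => k.1.1 ∉ Θ ∧ vface (insert k.1.1 Θ) k.2 M ⊆ vface Θ v n),
      ¬ VG r h₂ (insert k.1.1 Θ) (Function.update ε k.1.1 k.1.2) k.2 M A) ≤
      2 * d * (n : ℝ) ^ d * φ := by
    refine (union_PrA _ p0 p1 _ fun (k : (Fin d × Bool) × Pt d) A =>
      ¬ VG r h₂ (insert k.1.1 Θ) (Function.update ε k.1.1 k.1.2) k.2 M A).trans ?_
    refine (sum_le_card_nsmul _ _ φ fun k hk => ?_).trans ?_
    · obtain ⟨-, b1, b2⟩ := mem_filter.1 hk
      rw [compl_PrB]
      have := hu Ω (insert k.1.1 Θ) (Function.update ε k.1.1 k.1.2) k.2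
        (by rw [card_insert_of_notMem b1, hΘ]) ((reg_VB hM b2 h₂).trans hΩ)
      linarith
    · rw [nsmul_eq_mul]
      refine mul_le_mul_of_nonneg_right ?_ hφ
      have := card_filter_le ((univ : Finset (Fin d × Bool)) ×ˢ vface Θ v n)
        (fun k => k.1.1 ∉ Θ ∧ vface (insert k.1.1 Θ) k.2 M ⊆ vface Θ v n)
      rw [card_product, card_univ, Fintype.card_prod, Fintype.card_fin, Fintype.card_bool,
        mul_comm d] at this
      exact_mod_cast this.trans (Nat.mul_le_mul_left _ (card_face_VB Θ v hn))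
  have a3 := (mono_PrA Ω p0 p1 (fun A => ¬ VG r h₂ Θ ε v n A) _ fun A _ hA => ?_).trans
    ((or_PrA Ω p0 p1 _ _).trans (add_le_add a1 a2))
  · rw [compl_PrB] at a3
    linarith
  · by_contra hc
    rw [not_or] at hc
    obtain ⟨c1, c2⟩ := hc
    push Not at c1 c2
    obtain ⟨c, c0, c3⟩ := c1
    refine hA (h2 d r h₁ h₂ n M Θ ε v _ A hM (f1 c c0) (f2 c c0) c3 fun i b u hi hs =>
      c2 ((i, b), u) (mem_filter.2 ⟨mem_product.2 ⟨mem_univ _, hs (mem_face_VB.2 fun l => ?_)⟩,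
        hi, hs⟩))
    have := pos_VB (insert i Θ) hM l
    dsimp only
    omega

end Pool.Agent.MP_6d294b_pr

end

section

open Finset

namespace Pool.Agent.MP_6d294b_pr

theorem p0_VBase {q : ℝ} (hq : 0 < q) (n : ℕ) : 0 ≤ 1 - Real.exp (- q ^ n) := by
  rw [sub_nonneg]
  exact Real.exp_le_one_iff.2 (neg_nonpos.2 (pow_nonneg hq.le _))

theorem p1_VBase (u : ℝ) : 1 - Real.exp u ≤ 1 := by linarith [Real.exp_pos u]

theorem sVDrop (h1 : SUInd) (h2 : SVGrow) (h3 : SVDisj) (h4 : SVEv) (h5 : SUWord) (h6 : SVCost) :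
    SVDrop := by
  intro d r hr hd
  obtain ⟨κ, k0, k1, h6⟩ := h6 d r hr hd
  refine ⟨κ, k0, fun q s k N Ω Θ ε v q0 q1 s1 s2 hk hks hN hΘ hg => ?_⟩
  obtain ⟨p, hp⟩ : ∃ p, p = 1 - Real.exp (- q ^ (d - r + 1)) := ⟨_, rfl⟩
  have p0 : 0 ≤ p := hp ▸ p0_VBase q0 _
  have p1 : p ≤ 1 := hp ▸ p1_VBase _
  have hs : 2 ≤ s := by
    have : (2 : ℝ) ≤ 1 / q := by
      rw [le_div_iff₀ q0]
      linarith
    exact_mod_cast this.trans s1
  obtain ⟨ι, I, W, w1, w2, w3⟩ := h5 s k N hk hks hN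
  have hc : 1 < (Θᶜ).card := by
    rw [Finset.card_compl, Fintype.card_fin]
    omega
  obtain ⟨i₁, a1, i₂, a2, h12⟩ := Finset.one_lt_card.1 hc
  rw [Finset.mem_compl] at a1 a2
  have e := (h1 _ Ω p p0 p1 ι I fun w => VEv Θ ε v i₁ i₂ N (W w)).2
    fun w hw w' hw' hne A hA => (w2 w hw w' hw' hne).elim
      (fun h => h3 d s k N Θ ε v _ _ _ _ A a1 a2 h12 (by omega) (w1 w hw) h hA)
      fun h => h3 d s k N Θ ε v _ _ _ _ A a1 a2 h12 (by omega) (w1 w' hw') h hA.symm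
  rw [← hp]
  refine le_trans ?_ (mono_PrA _ p0 p1 _ _ fun A _ (h : ∃ w ∈ I, VEv Θ ε v i₁ i₂ N (W w) A) =>
    h.elim fun w hw => h2 d r s k N Θ ε v _ _ _ A (by omega) a1 a2 h12 hs (w1 w hw.1) hw.2.1)
  rw [e]
  refine le_trans (mul_le_mul_of_nonneg_left (w3 (κ * q) (by positivity) (by nlinarith))
    (by positivity)) ?_
  rw [Finset.mul_sum]
  refine Finset.sum_le_sum fun w hw => le_trans ?_ (h4 d s k N _ p Θ ε v _ _ _ p0 p1 a1 a2 h12
    (by omega) (by omega) (w1 w hw) hg)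
  rw [mul_assoc, hp, show d - Θ.card = d - r + 2 by omega, show Θ.card + 1 = r - 1 by omega]
  exact mul_le_mul_of_nonneg_left (h6 q s k N _ q0 (by linarith) s1 s2 hks (w1 w hw))
    (pow_nonneg (hp ▸ p0) _)

theorem sVBase (h0 : SVSum) (h1 : SVDrop) (h2 : SVB) (h3 : SVOne) (h4 : SVPar) : SVBase := by
  intro d r K hr hd
  obtain ⟨κ, k0, h1⟩ := h1 d r hr hd
  obtain ⟨c, q₀, c0, q1, h4⟩ := h4 d (d - r + 2) K κ (lamk d r) (by omega) (by omega) k0
    (h0 d r hr hd).1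
  refine ⟨c, q₀, c0, q1, fun q h q0 hq hh Ω Θ ε v t hΘ ht hg => ?_⟩
  obtain ⟨s, k, N, a1, a2, a3, a4, a5, a6, a7⟩ := h4 q t q0 hq ht
  have p0 := p0_VBase q0 (d - r + 1)
  have p1 := p1_VBase (- q ^ (d - r + 1))
  have t1 : 1 ≤ t := by
    have : (0 : ℝ) < t := (Real.exp_pos _).trans_le ht
    exact_mod_cast this
  have := h2 d r 1 h (r - 2) t N _ _ ((1 - (1 - Real.exp (- q ^ (d - r + 1)))) ^ N) p0 p1
    (pow_nonneg (sub_nonneg.2 p1) _) (by omega) t1 le_rfl (by omega)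
    (fun Ω Θ ε w b1 b2 => h1 q s k N Ω Θ ε w q0 a1 a2 a3 a4 a5 a6 b1 b2)
    (fun Ω Θ ε u b1 b2 => h3 d r h N _ Ω Θ ε u p0 p1 (by omega) hd (by omega) b2) Ω Θ ε v hΘ hg
  rw [show d - (r - 2) = d - r + 2 by omega] at this
  rw [show d - r + 2 - 1 = d - r + 1 by omega] at a7
  linarith

theorem tail_VBase {u a t : ℝ} {K : ℕ} (hu : 0 ≤ u) (h1 : Real.exp a ≤ t)
    (h2 : 2 * K ≤ u * Real.exp (a / 2)) : t ^ K ≤ Real.exp (u * t) := by
  have t0 : 0 < t := (Real.exp_pos _).trans_le h1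
  obtain ⟨w, w0, rfl⟩ : ∃ w : ℝ, 0 < w ∧ t = w ^ 2 :=
    ⟨√t, Real.sqrt_pos.2 t0, (Real.sq_sqrt t0.le).symm⟩
  have b1 : Real.exp (a / 2) ≤ w := by
    refine (pow_le_pow_iff_left₀ (Real.exp_pos _).le w0.le two_ne_zero).1 ?_
    rw [← Real.exp_nat_mul, show ((2 : ℕ) : ℝ) * (a / 2) = a by push_cast; ring]
    exact h1
  have b2 : w ≤ Real.exp w := by linarith [Real.add_one_le_exp w]
  have b3 : 2 * (K : ℝ) ≤ u * w := h2.trans (mul_le_mul_of_nonneg_left b1 hu)
  calc (w ^ 2) ^ K ≤ (Real.exp w ^ 2) ^ K := by gcongr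
    _ = Real.exp (2 * K * w) := by
      rw [← Real.exp_nat_mul, ← Real.exp_nat_mul]
      congr 1
      push_cast
      ring
    _ ≤ _ := Real.exp_le_exp.2 (by linarith [mul_le_mul_of_nonneg_right b3 w0.le])

theorem sVBare (h : SVOne) : SVBare := by
  intro d r C η hr hd hη
  obtain ⟨n, hn⟩ : ∃ n, n = d - r + 1 := ⟨_, rfl⟩
  obtain ⟨X1, h1⟩ := ev_UPar (η / 2) C (by positivity) 0
  obtain ⟨X2, h2⟩ := ev_UPar (η / 2) 2 (by positivity) (2 * n)
  obtain ⟨X3, h3⟩ := ev_UPar (η / 2) (C * (η / 2)) (by positivity) 1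
  obtain ⟨X4, h4⟩ := ev_UPar (η / 4) (2 * (vK d (r - 1) : ℝ)) (by positivity) (2 * n)
  obtain ⟨X, hX1, hX2, hX3, hX4, hX5, hX6⟩ : ∃ X : ℝ, X1 ≤ X ∧ X2 ≤ X ∧ X3 ≤ X ∧
      X4 ≤ X ∧ 1 ≤ X ∧ 2 / η ≤ X := by
    refine ⟨max (max X1 X2) (max (max X3 X4) (max 1 (2 / η))), ?_⟩
    simp only [le_max_iff, le_refl, true_or, or_true, and_self]
  refine ⟨1 / X ^ 2, by positivity, fun q g hq hq0 => ?_⟩
  rw [← hn]
  obtain ⟨x, hx0, hsq⟩ : ∃ x : ℝ, 0 < x ∧ Real.sqrt q = 1 / x :=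
    ⟨1 / Real.sqrt q, by positivity, by simp⟩
  have hqx : q * x ^ 2 = 1 := by
    have := Real.sq_sqrt hq.le
    rw [hsq] at this
    rw [← this]; field_simp
  have hXx : X ≤ x := by
    have h3 : X ^ 2 ≤ x ^ 2 := by
      rw [le_div_iff₀ (by positivity), ← hqx] at hq0
      exact le_of_mul_le_mul_left hq0 hq
    exact (pow_le_pow_iff_left₀ (by linarith) hx0.le two_ne_zero).1 h3
  have hq1 : q ≤ 1 := by
    have := mul_le_mul_of_nonneg_left (one_le_pow₀ (n := 2) (hX5.trans hXx)) hq.le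
    linarith
  have hu : q ^ n * x ^ (2 * n) = 1 := by rw [pow_mul, ← mul_pow, hqx, one_pow]
  have u0 : 0 < q ^ n := pow_pos hq n
  have p0 := p0_VBase hq n
  have p1 := p1_VBase (- q ^ n)
  have hp : Real.exp (-(η / 2 * x)) ≤ 1 - Real.exp (- q ^ n) := by
    refine le_trans ?_ (prob_UPar _ u0.le (pow_le_one₀ hq.le hq1))
    have b1 := mul_le_mul_of_nonneg_left (h2 x (hX2.trans hXx)) u0.le
    have b2 : Real.exp (η / 2 * x) * Real.exp (-(η / 2 * x)) = 1 := by
      rw [← Real.exp_add, add_neg_cancel, Real.exp_zero]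
    have b3 : 2 ≤ q ^ n * Real.exp (η / 2 * x) := by linarith
    have b4 := mul_le_mul_of_nonneg_right b3 (Real.exp_pos (-(η / 2 * x))).le
    rw [mul_assoc, b2] at b4
    linarith
  refine ⟨Real.exp (η / 2 * x), η / 2 * x, by simpa using h1 x (hX1.trans hXx), ?_, hp, ?_,
    fun Ω Θ ε v t hΘ ht hg => ?_, fun Ω Θ ε v t hΘ ht hg => ?_⟩
  · have := hX6.trans hXx
    rw [div_le_iff₀ hη] at this
    linarith
  · have b1 := mul_le_mul_of_nonneg_right (h3 x (hX3.trans hXx)) (Real.exp_pos (η / 2 * x)).le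
    rw [← Real.exp_add] at b1
    rw [hsq, show η / (1 / x) = η / 2 * x + η / 2 * x by field_simp; ring]
    linarith
  · refine hp.trans (le_trans ?_ (h d r g t _ Ω Θ ε v p0 p1 (by omega) hd ht hg))
    have := pow_le_of_le_one (sub_nonneg.2 p1) (by linarith) (show t ≠ 0 by omega)
    linarith
  · have t0 : (0 : ℝ) < t := (Real.exp_pos _).trans_le ht
    refine le_trans ?_ (h d r g t _ Ω Θ ε v p0 p1 (by omega) hd (by exact_mod_cast t0) hg)
    have b1 := mul_le_mul_of_nonneg_left (h4 x (hX4.trans hXx)) u0.le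
    have b2 := tail_VBase (K := vK d (r - 1)) u0.le ht (by
      rw [show η / 2 * x / 2 = η / 4 * x by ring]
      refine le_trans (le_of_eq ?_) b1
      rw [mul_left_comm, hu, mul_one])
    rw [sub_sub_cancel, ← Real.exp_nat_mul, show (t : ℝ) * - q ^ n = -(q ^ n * t) by ring,
      Real.exp_neg, one_div]
    exact sub_le_sub_left (inv_anti₀ (by positivity) b2) _

end Pool.Agent.MP_6d294b_pr

end

section

open Finset

namespace Pool.Agent.MP_6d294b_pr

lemma large_VFinal (l : ℕ) : ∀ X : ℝ, ∃ Y : ℝ, ∀ y, Y ≤ y →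
    X ≤ Real.log^[l] y ∧ Real.exp^[l] (Real.log^[l] y) = y := by
  induction l with
  | zero => exact fun X => ⟨X, fun y hy => ⟨hy, rfl⟩⟩
  | succ l ih =>
    intro X
    obtain ⟨Y, hY⟩ := ih (Real.exp X)
    refine ⟨Y, fun y hy => ?_⟩
    obtain ⟨h1, h2⟩ := hY y hy
    have h3 := (Real.exp_pos X).trans_le h1
    rw [Function.iterate_succ_apply' Real.log, Function.iterate_succ_apply, Real.exp_log h3]
    exact ⟨(Real.le_log_iff_exp_le h3).2 h1, h2⟩

theorem sVFinal (h0 : SVSum) (h1 : SVIter) (h : SVPerc) : SVFinal := by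
  classical
  intro d r' hr' hd
  obtain ⟨c, q₀, hc, hq₀, h5⟩ := h d r' hr' hd
  have hla0 := (h0 d r' hr' hd).1
  set la : ℝ := lamk d r' with hla
  set s : ℝ := Real.sqrt la with hs
  have hs0 : 0 < s := Real.sqrt_pos.2 hla0
  have hss : la = s ^ 2 := (Real.sq_sqrt hla0.le).symm
  obtain ⟨Y, hY⟩ := large_VFinal (r' - 1) (1 + la / q₀ + (c / s) ^ 2)
  refine ⟨c * s / 2, by positivity, ⌈Y⌉₊, fun n hn => ?_⟩
  obtain ⟨hK, hE⟩ := hY n (Nat.ceil_le.1 hn)
  set L : ℝ := Real.log^[r' - 1] (n : ℝ) with hL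
  have hlq : 0 < la / q₀ := by positivity
  have hcs : 0 ≤ (c / s) ^ 2 := sq_nonneg _
  have hL0 : 0 < L := by linarith
  set r : ℝ := Real.sqrt L with hr
  have hr0 : 0 < r := Real.sqrt_pos.2 hL0
  have hrr : L = r ^ 2 := (Real.sq_sqrt hL0.le).symm
  have hL32 : L ^ (3 / 2 : ℝ) = r ^ 3 := by
    rw [hr, Real.sqrt_eq_rpow, ← Real.rpow_natCast, ← Real.rpow_mul hL0.le]
    norm_num
  have hcr : c / s ≤ r := le_of_sq_le_sq (by rw [← hrr]; linarith) hr0.le
  set x : ℝ := c / (2 * s * r) with hx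
  have hx0 : 0 < x := by positivity
  have hx1 : x ≤ 1 / 2 := by
    rw [div_le_iff₀ hs0] at hcr
    rw [hx, div_le_iff₀ (by positivity)]
    linarith
  set q : ℝ := la / L * (1 - x) with hq
  have hq0 : 0 < q := mul_pos (by positivity) (by linarith)
  have hqu : q ≤ la / L := by
    have : 0 < la / L := by positivity
    nlinarith
  have hqq : q ≤ q₀ := by
    refine hqu.trans ?_
    rw [div_le_iff₀ hL0]
    have a1 : la / q₀ ≤ L := by linarith
    rw [div_le_iff₀ hq₀] at a1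
    linarith
  have h2 : la / q - c / Real.sqrt q ≤ L := by
    have a1 : la / q ≤ L * (1 + 2 * x) := by
      rw [div_le_iff₀ hq0, hq]
      have e : L * (1 + 2 * x) * (la / L * (1 - x)) = la * (1 + x * (1 - 2 * x)) := by
        field_simp; ring
      rw [e]
      have : 0 ≤ x * (1 - 2 * x) := mul_nonneg hx0.le (by linarith)
      nlinarith
    have a2 : L * (2 * x) = c * (r / s) := by
      rw [hx, hrr]; field_simp
    have hs1 : 0 < Real.sqrt q := Real.sqrt_pos.2 hq0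
    have a3 : r / s ≤ 1 / Real.sqrt q := by
      refine le_of_sq_le_sq ?_ (by positivity)
      rw [one_div_pow, Real.sq_sqrt hq0.le, div_pow, ← hrr, ← hss, div_le_div_iff₀ hla0 hq0]
      rw [le_div_iff₀ hL0] at hqu
      linarith
    have a4 := mul_le_mul_of_nonneg_left a3 hc.le
    rw [mul_one_div] at a4
    linarith
  have hb := h5 q n hq0 hqq ((h1.2.1 _ _ _ h2).trans hE.le)
  set p₀ : ℝ := 1 - Real.exp (- q ^ (d - r' + 1)) with hp₀
  have hqd : 0 < q ^ (d - r' + 1) := pow_pos hq0 _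
  have hp0 : 0 ≤ p₀ := by
    have := Real.exp_le_one_iff.2 (show - q ^ (d - r' + 1) ≤ 0 by linarith)
    linarith
  have hp1 : p₀ ≤ 1 := by
    rw [hp₀]
    linarith [Real.exp_pos (- q ^ (d - r' + 1))]
  have hp2 : p₀ ≤ q ^ (d - r' + 1) := by
    have := Real.add_one_le_exp (- q ^ (d - r' + 1))
    linarith
  set S := {p : ℝ | 0 ≤ p ∧ p ≤ 1 ∧
      (1 / 2 : ℝ) ≤ Pr (univ : Finset (Fin d → Fin n)) p (PercR d n r')} with hS
  have hinf : sInf S ≤ q ^ (d - r' + 1) :=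
    (csInf_le ⟨0, fun p hp => hp.1⟩ (show p₀ ∈ S from ⟨hp0, hp1, hb⟩)).trans hp2
  have hinf0 : 0 ≤ sInf S := Real.sInf_nonneg fun p hp => hp.1
  have hroot : (sInf S) ^ (1 / ((d : ℝ) - r' + 1)) ≤ q := by
    have a2 : ((d : ℝ) - r' + 1) = ((d - r' + 1 : ℕ) : ℝ) := by
      rw [Nat.cast_succ, Nat.cast_sub hd]
    have a3 := Real.rpow_le_rpow hinf0 hinf
      (show (0 : ℝ) ≤ ((d - r' + 1 : ℕ) : ℝ)⁻¹ by positivity)
    rw [Real.pow_rpow_inv_natCast hq0.le (by omega)] at a3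
    rw [a2, one_div (((d - r' + 1 : ℕ) : ℝ))]
    exact a3
  rw [hL32]
  have f1 : la / L - q = c * s / 2 / r ^ 3 := by
    rw [hq, hx, hrr, hss]
    field_simp
    ring
  linarith

end Pool.Agent.MP_6d294b_pr

end
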