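import Pool.Agent.Mg.F6d294b.Gf2a008
import Pool.Agent.Mg.F6d294b.G28e636

set_option linter.all false

section

open Finset

namespace Pool.Agent.MP_6d294b_pr

theorem tail_RStep2 (K : ℕ) (c : ℝ) (hc : 0 < c) :
    ∃ u₀ : ℕ, ∀ u : ℕ, u₀ ≤ u → ((u : ℝ) + 1) ^ K * (1 / 2) ^ u ≤ c := by
  have h := tendsto_pow_const_mul_const_pow_of_abs_lt_one K (r := (1 / 2 : ℝ))
    (by rw [abs_of_pos] <;> norm_num)
  obtain ⟨u₀, hu⟩ := Filter.eventually_atTop.1 (h.eventually (gt_mem_nhds (half_pos hc)))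
  refine ⟨u₀, fun u h1 => ?_⟩
  have h2 := hu (u + 1) (by omega)
  push_cast at h2
  rw [pow_succ (1 / 2 : ℝ)] at h2
  linarith

theorem half_RStep2 (n : ℕ) (z : ℝ) (h : 2 * z ≤ n) : (1 / 2 : ℝ) ^ n ≤ Real.exp (- z) := by
  have h1 : (1 / 2 : ℝ) ≤ Real.exp (- (1 / 2)) := by
    have := Real.add_one_le_exp (- (1 / 2) : ℝ)
    linarith
  calc (1 / 2 : ℝ) ^ n ≤ Real.exp (- (1 / 2)) ^ n := pow_le_pow_left₀ (by norm_num) h1 n
    _ = Real.exp (n * - (1 / 2)) := (Real.exp_nat_mul _ _).symm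
    _ ≤ _ := Real.exp_le_exp.2 (by linarith)

theorem tau_RStep2 (d w t u₀ : ℕ) (c : ℝ)
    (hu : ∀ u : ℕ, u₀ ≤ u → ((u : ℝ) + 1) ^ (2 * (3 * d + 2)) * (1 / 2) ^ u ≤ c)
    (hw : 1 ≤ w) (h0 : u₀ ≤ w) (ht : w * w ≤ t) :
    ((t : ℝ) + 1) ^ (3 * d + 2) * (1 / 2) ^ (t / w) ≤ c := by
  have h1 : w ≤ t / w := (Nat.le_div_iff_mul_le hw).2 ht
  have h2 : t < w * (t / w + 1) := Nat.lt_mul_div_succ t hw
  have h3 : t + 1 ≤ (t / w + 1) ^ 2 := by nlinarith
  have h4 : (t : ℝ) + 1 ≤ (((t / w : ℕ) : ℝ) + 1) ^ 2 := by exact_mod_cast h3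
  refine le_trans (mul_le_mul_of_nonneg_right ?_ (by positivity)) (hu (t / w) (h0.trans h1))
  rw [pow_mul]
  exact pow_le_pow_left₀ (by positivity) h4 _

theorem fin_RStep2 (d j k m m' n : ℕ) (a L : ℝ) (hL : L = Real.log m') (h1 : 1 ≤ L)
    (hm : m ≤ m') (hk : k ≤ m) (ha0 : 0 ≤ a) (ha : a ≤ m) (hn : (36 * d + 24) * L ≤ n) :
    a ^ d * (1 / 2) ^ n * (m' : ℝ) ^ (d - j) * (k * Real.log m') ^ (8 * d + 6) ≤ 1 := by
  have h0 : (0 : ℝ) < m' := by
    rcases Nat.eq_zero_or_pos m' with h | h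
    · rw [h, Nat.cast_zero, Real.log_zero] at hL
      linarith
    · exact_mod_cast h
  have e : Real.exp L = m' := by rw [hL, Real.exp_log h0]
  have hm' : (m : ℝ) ≤ m' := by exact_mod_cast hm
  have hk' : (k : ℝ) ≤ m := by exact_mod_cast hk
  have hE : L + 1 ≤ Real.exp L := Real.add_one_le_exp L
  have hE1 : 1 ≤ Real.exp L := by linarith
  have a1 : a ^ d ≤ Real.exp L ^ d := pow_le_pow_left₀ ha0 (by linarith) d
  have a2 : (m' : ℝ) ^ (d - j) ≤ Real.exp L ^ d := by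
    rw [← e]
    exact pow_le_pow_right₀ hE1 (Nat.sub_le d j)
  have a3 : (k * Real.log m') ^ (8 * d + 6) ≤ (Real.exp L ^ 2) ^ (8 * d + 6) := by
    rw [← hL]
    refine pow_le_pow_left₀ (by positivity) ?_ _
    rw [sq]
    exact mul_le_mul (by linarith) (by linarith) (by linarith) (by linarith)
  have a4 := half_RStep2 n ((18 * d + 12) * L) (by linarith)
  calc _ ≤ Real.exp L ^ d * Real.exp (- ((18 * d + 12) * L)) * Real.exp L ^ d *
        (Real.exp L ^ 2) ^ (8 * d + 6) := by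
        have : 0 ≤ (k * Real.log m') ^ (8 * d + 6) := by rw [← hL]; positivity
        gcongr
    _ = 1 := by
        rw [← pow_mul, ← Real.exp_nat_mul, ← Real.exp_nat_mul, ← Real.exp_add, ← Real.exp_add,
          ← Real.exp_add, ← Real.exp_zero]
        congr 1
        push_cast
        ring

theorem num_RStep2 {d k x y m L : ℝ} (hd : 3 ≤ d) (hk : 2 ≤ k) (hx : 4 ≤ x) (hy : y = k * x)
    (hLx : x ≤ L) (hL : L ≤ m / y ^ 2) :
    x ≤ y ∧ k ≤ y ∧ L * y ^ 2 ≤ m ∧ y ≤ m ∧ 12 ≤ d * x ∧ x ≤ 2 * d * x := by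
  have h1 : x ≤ y := by rw [hy]; nlinarith
  have h2 : L * y ^ 2 ≤ m := (le_div_iff₀ (pow_pos (by linarith) 2)).1 hL
  refine ⟨h1, by rw [hy]; nlinarith, h2, ?_, by nlinarith, by nlinarith⟩
  nlinarith [mul_le_mul_of_nonneg_right (hx.trans hLx) (sq_nonneg y)]

theorem chi_RStep2 (d j : ℕ) : 5 ^ d * chi d j ≤ 1 / 2 := by
  have h : ((1 / 4 : ℝ)) ^ j ≤ 1 := pow_le_one₀ (by norm_num) (by norm_num)
  have e : 5 ^ d * chi d j = (1 / 4) ^ j / 2 := by
    rw [chi]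
    field_simp
  rw [e]
  linarith

theorem redA_RStep2 {d j : ℕ} {g k x y ε V : ℝ} (hj : j ≤ d) (hk : 0 ≤ k) (hx : 0 ≤ x)
    (hky : k ≤ y) (hxy : x ≤ y) (hy1 : 1 ≤ y) (hdy : 12 * d ≤ y) (hg : g ≤ 3 * d * x)
    (hε : 0 ≤ ε) (hV : 0 ≤ V) (hb : ε * V * y ^ (8 * d + 6) ≤ 1) :
    g * (V * k ^ j) * ε ≤ 1 / 4 := by
  have b1 : k ^ j ≤ y ^ d := (pow_le_pow_left₀ hk hky _).trans (pow_le_pow_right₀ hy1 hj)
  have b2 : 4 * g ≤ y ^ 2 := by
    have := mul_le_mul hdy hxy hx (by linarith)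
    linarith
  have b3 : y ^ 2 * y ^ d ≤ y ^ (8 * d + 6) := by
    rw [← pow_add]
    exact pow_le_pow_right₀ hy1 (by omega)
  have b4 : 4 * g * k ^ j ≤ y ^ (8 * d + 6) :=
    (mul_le_mul b2 b1 (pow_nonneg hk _) (sq_nonneg y)).trans b3
  have b5 := mul_le_mul_of_nonneg_left b4 (mul_nonneg hε hV)
  linarith

theorem redB_RStep2 {d j n : ℕ} {k x m : ℝ} (hj : j ≤ d) (hk : 0 ≤ k) (hkm : k ≤ m)
    (em : Real.exp x = m) (hn : 2 * d * x ≤ n) :
    m ^ (d - j) * k ^ j * (1 / 2) ^ (n + 2) ≤ 1 / 4 := by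
  have hm := hk.trans hkm
  have b1 : m ^ (d - j) * k ^ j ≤ Real.exp (d * x) := by
    rw [Real.exp_nat_mul, em]
    calc _ ≤ m ^ (d - j) * m ^ j := by gcongr
      _ = _ := by rw [← pow_add, Nat.sub_add_cancel hj]
  have b2 := half_RStep2 n (d * x) (by linarith)
  have b3 := mul_le_mul b1 b2 (by positivity) (by positivity)
  rw [← Real.exp_add, add_neg_cancel, Real.exp_zero] at b3
  rw [pow_add]
  linarith

theorem wid_RStep2 {d g k x y : ℝ} (hd : 0 ≤ d) (hk : 0 ≤ k) (hy : y = k * x)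
    (hg : g ≤ 3 * d * x) : d * g * k ≤ 3 * d ^ 2 * y := by
  have := mul_le_mul_of_nonneg_left hg (mul_nonneg hd hk)
  rw [hy]
  linarith

theorem mid_RStep2 {d : ℕ} {w y ε c : ℝ} (w0 : 1 ≤ w) (w1 : w ≤ 3 * d ^ 2 * y) (hy1 : 1 ≤ y)
    (hdy : 27 * (d : ℝ) ^ 4 ≤ y) (hc : 0 < c) (hcy : 1 / c ≤ y) (hε : 0 ≤ ε)
    (hb : ε * y ^ (8 * d + 6) ≤ 1) : (2 * (w * w) + 1) ^ (2 * d + 1) * ε ≤ c := by
  have hy0 : 0 < y := by linarith
  have b0 : 1 ≤ w * w := one_le_mul_of_one_le_of_one_le w0 w0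
  have b1 : 2 * (w * w) + 1 ≤ y ^ 3 := by
    have b2 : w * w ≤ (3 * d ^ 2 * y) * (3 * d ^ 2 * y) :=
      mul_le_mul w1 w1 (by linarith) (by linarith)
    have b3 := mul_le_mul_of_nonneg_right hdy (sq_nonneg y)
    linarith
  have b2 : (y ^ 3) ^ (2 * d + 1) * y ≤ y ^ (8 * d + 6) := by
    rw [← pow_mul, ← pow_succ]
    exact pow_le_pow_right₀ hy1 (by omega)
  have b4 := pow_le_pow_left₀ (by linarith) b1 (2 * d + 1)
  have b5 := mul_le_mul_of_nonneg_left ((mul_le_mul_of_nonneg_right b4 hy0.le).trans b2) hε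
  have b6 := (div_le_iff₀ hc).1 hcy
  exact le_of_mul_le_mul_right (by linarith) hy0

theorem cnt_RStep2 {d w y m n L : ℝ} (hd : 3 ≤ d) (hn : 0 ≤ n) (hy0 : 0 < y) (hL : 1 ≤ L)
    (w1 : w ≤ 3 * d ^ 2 * y) (hA : L * y ^ 2 ≤ m) (hm : m ≤ 4 * (w * (n + 1)))
    (hy : 12 * d ^ 2 * (36 * d + 25) ≤ y) : (36 * d + 24) * L ≤ n := by
  have b3 := mul_le_mul_of_nonneg_right w1 (show 0 ≤ n + 1 by linarith)
  have b4 : L * y ≤ 12 * d ^ 2 * (n + 1) := le_of_mul_le_mul_right (by linarith) hy0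
  have b5 := mul_le_mul_of_nonneg_left hy (show 0 ≤ L by linarith)
  have b6 : (36 * d + 25) * L ≤ n + 1 :=
    le_of_mul_le_mul_left (by linarith) (show (0 : ℝ) < 12 * d ^ 2 by positivity)
  linarith

theorem rStep2 (h1 : RRed1) (h2 : RRed2) : RStep2 := by
  intro d
  obtain ⟨c, hc⟩ : ∃ c : ℝ, c = (1 / 4) ^ d / (2 * 5 ^ d) := ⟨_, rfl⟩
  have hc0 : 0 < c := by rw [hc]; positivity
  obtain ⟨u₀, hu⟩ := tail_RStep2 (2 * (3 * d + 2)) c hc0
  obtain ⟨X, x1, x2, x3, x4, x5, x6⟩ : ∃ X : ℝ, 4 ≤ X ∧ 12 * (d : ℝ) ≤ X ∧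
      27 * (d : ℝ) ^ 4 ≤ X ∧ 1 / c ≤ X ∧ (u₀ : ℝ) ≤ X ∧ 12 * (d : ℝ) ^ 2 * (36 * d + 25) ≤ X :=
    ⟨max (max (max 4 (12 * d)) (max (27 * d ^ 4) (1 / c))) (max u₀ (12 * d ^ 2 * (36 * d + 25))),
      by simp only [le_max_iff, le_refl, true_or, or_true, and_self]⟩
  refine ⟨⌈Real.exp X⌉₊, ?_⟩
  rintro r k j p m m' hj hr hk hp hp' hm hm' hL ⟨s, ε, -, hε, H₁, H₂, hb⟩
  have hm0 : (0 : ℝ) < m := (Real.exp_pos _).trans_le (Nat.ceil_le.1 hm)
  have hX := (Real.le_log_iff_exp_le hm0).2 (Nat.ceil_le.1 hm)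
  have hLx : Real.log m ≤ Real.log m' := Real.log_le_log hm0 (Nat.cast_le.2 hm')
  have em : Real.exp (Real.log m) = m := Real.exp_log hm0
  generalize Real.log m = x at hX hLx em hL hb
  have hd : (3 : ℝ) ≤ d := by exact_mod_cast (show 3 ≤ d by omega)
  have hk' : (2 : ℝ) ≤ k := by exact_mod_cast hk
  have hx := x1.trans hX
  obtain ⟨y, hy⟩ : ∃ y : ℝ, y = k * x := ⟨_, rfl⟩
  rw [← hy] at hL hb
  obtain ⟨hxy, hky, hA, hym, hdx, hx2⟩ := num_RStep2 hd hk' hx hy hLx hL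
  have hXy := hX.trans hxy
  have h14 : (1 : ℝ) ≤ 4 := by norm_num
  have hy1 : 1 ≤ y := h14.trans (hx.trans hxy)
  have hkm : (k : ℝ) ≤ m := hky.trans hym
  have hm4 : 4 ≤ m := by exact_mod_cast hx.trans (hxy.trans hym)
  obtain ⟨g0, g1, g2⟩ : ∃ g0 : ℕ, 2 * d * x ≤ g0 ∧ ((g0 + 2 : ℕ) : ℝ) ≤ 3 * d * x := by
    refine ⟨⌈2 * d * x⌉₊, Nat.le_ceil _, ?_⟩
    have := Nat.ceil_lt_add_one (zero_le_one.trans (h14.trans (hx.trans hx2)))
    push_cast
    linarith only [this, hdx]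
  have hεy : ε * y ^ (8 * d + 6) ≤ 1 := le_trans (mul_le_mul_of_nonneg_right
    (le_mul_of_one_le_right hε (one_le_pow₀ (hy1.trans hym))) (by positivity)) hb
  have hχ : c ≤ chi d (j + 1) := by
    rw [hc, chi]
    exact div_le_div_of_nonneg_right
      (pow_le_pow_of_le_one (by norm_num) (by norm_num) (by omega)) (by positivity)
  have hR : Red d r k j p s ε (chi d (j + 1)) (g0 + 2) m :=
    ⟨hj, hr, hk, hp, hp', hε, hc0.le.trans hχ, chi_RStep2 d _, by omega, H₁, H₂,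
      redA_RStep2 (by omega) (Nat.cast_nonneg k) (zero_le_one.trans (h14.trans hx)) hky hxy hy1
        (x2.trans hXy) g2 hε (by positivity) hb,
      redB_RStep2 (by omega) (Nat.cast_nonneg k) hkm em g1⟩
  obtain ⟨w, hw⟩ : ∃ w : ℕ, w = d * (g0 + 2) * k := ⟨_, rfl⟩
  have w1 : (w : ℝ) ≤ 3 * d ^ 2 * y := by
    rw [hw, Nat.cast_mul, Nat.cast_mul]
    exact wid_RStep2 (Nat.cast_nonneg d) (Nat.cast_nonneg k) hy g2
  have w2 : g0 + 2 ≤ w := by
    rw [hw]
    exact (Nat.le_mul_of_pos_left _ (by omega)).trans (Nat.le_mul_of_pos_right _ (by omega))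
  have w3 : u₀ ≤ w := by
    have : u₀ ≤ g0 := Nat.cast_le.1 (x5.trans (hX.trans (hx2.trans g1)))
    omega
  have w4 : 1 ≤ w := by omega
  have K1 := h1 d r k j p s ε _ _ m ((m - 1) / 2) ((m - 1) / 2 / w) hR (by omega) (by omega)
    (by rw [← hw]; exact Nat.div_mul_le_self _ _)
  have K2 := h2 d r k j p s ε _ c _ m ((m - 1) / 2) (w * w) hR (by omega)
    (Nat.mul_pos w4 w4) hc0.le fun t ht => by
      rw [← hw]
      exact tau_RStep2 d w t u₀ c hu w4 w3 ht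
  refine ⟨(m - 1) / 2, _, by omega, by positivity, K1,
    fun Ω Θ c' x' Z hΘ => (K2 Ω Θ c' x' Z hΘ).trans ?_, ?_⟩
  · have b5 := mid_RStep2 (Nat.one_le_cast.2 w4) w1 hy1 (x3.trans hXy) hc0 (x4.trans hXy) hε hεy
    have b6 : chi d j = 4 * chi d (j + 1) := by
      rw [chi, chi, pow_succ]
      ring
    rw [Nat.cast_mul]
    linarith only [b5, b6, hχ]
  · have b1 : m ≤ 4 * (w * ((m - 1) / 2 / w + 1)) := by
      have := Nat.lt_mul_div_succ ((m - 1) / 2) w4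
      omega
    exact fin_RStep2 d j k m m' _ _ _ rfl (h14.trans (hx.trans hLx)) hm' (Nat.cast_le.1 hkm)
      (by positivity) (by exact_mod_cast (show 2 * ((m - 1) / 2) + 1 ≤ m by omega))
      (cnt_RStep2 hd (Nat.cast_nonneg _) (zero_lt_one.trans_le hy1) (h14.trans (hx.trans hLx)) w1
        hA (by exact_mod_cast b1) (x6.trans hXy))

end Pool.Agent.MP_6d294b_pr

end

section

open Finset

namespace Pool.Agent.MP_6d294b_pr

lemma tend_RTower (l : ℕ) :
    Filter.Tendsto (fun n : ℕ => Real.log^[l] (n : ℝ)) Filter.atTop Filter.atTop := by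
  induction l with
  | zero => exact tendsto_natCast_atTop_atTop
  | succ l ih =>
    simp only [Function.iterate_succ_apply']
    exact Real.tendsto_log_atTop.comp ih

lemma log13_RTower {y : ℝ} (hy : 676 ≤ y) : 13 * Real.log y ≤ y := by
  have h0 : 0 < y := by linarith
  have hs : 0 < Real.sqrt y := Real.sqrt_pos.2 h0
  have h1 : Real.log (Real.sqrt y) ≤ Real.sqrt y - 1 := Real.log_le_sub_one_of_pos hs
  rw [Real.log_sqrt h0.le] at h1
  have h2 : Real.sqrt y * Real.sqrt y = y := Real.mul_self_sqrt h0.le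
  have h3 : 26 ≤ Real.sqrt y := Real.le_sqrt_of_sq_le (by linarith)
  nlinarith

lemma core_RTower {y k : ℝ} (hy0 : 1 ≤ y) (hy : 2 ≤ Real.log y) (hk : 2 ≤ k)
    (hk3 : k ≤ Real.log y ^ 3) :
    y ≤ (⌈y * (k * Real.log y) ^ 3⌉₊ : ℝ) ∧
      Real.log (⌈y * (k * Real.log y) ^ 3⌉₊ : ℝ) ≤ Real.log y + 13 * Real.log (Real.log y) := by
  have hL0 : 0 < Real.log y := by linarith
  have h1 : 1 ≤ k * Real.log y := by nlinarith
  have h2 : 1 ≤ (k * Real.log y) ^ 3 := one_le_pow₀ h1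
  have h3 : y ≤ y * (k * Real.log y) ^ 3 := by nlinarith
  have h4 : y ≤ (⌈y * (k * Real.log y) ^ 3⌉₊ : ℝ) := h3.trans (Nat.le_ceil _)
  refine ⟨h4, ?_⟩
  have h5 : (⌈y * (k * Real.log y) ^ 3⌉₊ : ℝ) < y * (k * Real.log y) ^ 3 + 1 :=
    Nat.ceil_lt_add_one (by linarith)
  have h6 : (k * Real.log y) ^ 3 ≤ (Real.log y ^ 3 * Real.log y) ^ 3 :=
    pow_le_pow_left₀ (by linarith) (mul_le_mul_of_nonneg_right hk3 hL0.le) 3
  have h7 : y * (k * Real.log y) ^ 3 ≤ y * (Real.log y ^ 3 * Real.log y) ^ 3 :=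
    mul_le_mul_of_nonneg_left h6 (by linarith)
  have h8 : 2 * (y * (Real.log y ^ 3 * Real.log y) ^ 3) ≤
      Real.log y * (y * (Real.log y ^ 3 * Real.log y) ^ 3) :=
    mul_le_mul_of_nonneg_right hy (by positivity)
  have h9 : Real.log y * (y * (Real.log y ^ 3 * Real.log y) ^ 3) = y * Real.log y ^ 13 := by ring
  have h10 : (⌈y * (k * Real.log y) ^ 3⌉₊ : ℝ) ≤ y * Real.log y ^ 13 := by linarith
  refine (Real.log_le_log (by linarith) h10).trans (le_of_eq ?_)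
  rw [Real.log_mul (by linarith) (by positivity), Real.log_pow]
  norm_num

theorem rTower : RTower := by
  refine ⟨fun l X => Filter.eventually_atTop.1 ((tend_RTower l).eventually_ge_atTop X), ?_⟩
  intro l m₀
  have hev : ∀ᶠ n : ℕ in Filter.atTop, ∀ j ∈ range (l + 2),
      max (676 : ℝ) m₀ ≤ Real.log^[j] (n : ℝ) :=
    (Filter.eventually_all_finset _).2 fun j _ => (tend_RTower j).eventually_ge_atTop _
  obtain ⟨n₀, hn₀⟩ := Filter.eventually_atTop.1 hev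
  refine ⟨n₀, fun n hn k hk hk3 => ?_⟩
  have hX := hn₀ n hn
  obtain ⟨x, hx⟩ : ∃ x : ℕ → ℝ, ∀ j, x j = Real.log^[j] (n : ℝ) := ⟨_, fun _ => rfl⟩
  simp only [← hx] at hX hk3 ⊢
  have x0 : x 0 = n := hx 0
  have xs : ∀ j, x (j + 1) = Real.log (x j) := fun j => by
    rw [hx, hx, Function.iterate_succ_apply']
  have hA : ∀ j, j ≤ l + 1 → 676 ≤ x j := fun j hj =>
    (le_max_left _ _).trans (hX j (mem_range.2 (by omega)))
  have hB : ∀ j, j ≤ l + 1 → (m₀ : ℝ) ≤ x j := fun j hj =>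
    (le_max_right _ _).trans (hX j (mem_range.2 (by omega)))
  have hk' : (2 : ℝ) ≤ k := by exact_mod_cast hk
  have hdec : ∀ i, i ≤ l + 1 → x (l + 1) ≤ x (l + 1 - i) := by
    intro i
    induction i with
    | zero => intro _; exact le_rfl
    | succ i ih =>
      intro hi
      have e : l + 1 - i = (l + 1 - (i + 1)) + 1 := by omega
      have h1 := ih (by omega)
      rw [e, xs (l + 1 - (i + 1))] at h1
      have h2 := hA (l + 1 - (i + 1)) (by omega)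
      have h3 := Real.log_le_sub_one_of_pos (by linarith : 0 < x (l + 1 - (i + 1)))
      linarith
  have hkj : ∀ j, j ≤ l + 1 → (k : ℝ) ≤ x j ^ 3 := fun j hj => by
    have h1 := hdec (l + 1 - j) (by omega)
    have e : l + 1 - (l + 1 - j) = j := by omega
    rw [e] at h1
    have h2 := hA (l + 1) le_rfl
    exact hk3.trans (pow_le_pow_left₀ (by linarith) h1 3)
  obtain ⟨m, m0, ms⟩ : ∃ m : ℕ → ℕ, m 0 = n ∧
      ∀ j, m (j + 1) = ⌈x (j + 1) * (k * Real.log (x (j + 1))) ^ 3⌉₊ :=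
    ⟨fun j => Nat.casesOn j n fun i => ⌈x (i + 1) * (k * Real.log (x (i + 1))) ^ 3⌉₊, rfl,
      fun _ => rfl⟩
  have hC : ∀ j, j ≤ l → x j ≤ m j ∧ Real.log (m j) ≤ x (j + 1) + 13 * Real.log (x (j + 1)) := by
    intro j hj
    have a1 := hA j (by omega)
    have a2 := hA (j + 1) (by omega)
    rcases j with _ | i
    · have a3 : 0 ≤ Real.log (x (0 + 1)) := Real.log_nonneg (by linarith)
      rw [m0, ← x0, ← xs]
      exact ⟨le_rfl, by linarith⟩
    · have a3 := hkj (i + 1 + 1) (by omega)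
      rw [xs (i + 1)] at a2 a3 ⊢
      rw [ms]
      exact core_RTower (by linarith) (by linarith) hk' a3
  have hD : ∀ j, j ≤ l → x (j + 1) ≤ Real.log (m j) := fun j hj => by
    have a1 := hA j (by omega)
    rw [xs]
    exact Real.log_le_log (by linarith) (hC j hj).1
  have hE : ∀ j, j ≤ l → Real.log (m j) ≤ 2 * x (j + 1) := fun j hj => by
    have a1 := log13_RTower (hA (j + 1) (by omega))
    have a2 := (hC j hj).2
    linarith
  refine ⟨m, m0, fun j hj => ?_, hD l le_rfl, (hC l le_rfl).2⟩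
  have a0 := hA j (by omega)
  have a1 := hA (j + 1) (by omega)
  have a2 := hA (j + 1 + 1) (by omega)
  have b1 := (hC (j + 1) hj).1
  have b2 := hE (j + 1) hj
  have b3 := hD (j + 1) hj
  have b4 := log13_RTower a1
  rw [← xs (j + 1)] at b4
  refine ⟨?_, ?_, ?_⟩
  · have : (m₀ : ℝ) ≤ m (j + 1) := (hB (j + 1) (by omega)).trans b1
    exact_mod_cast this
  · have c1 : Real.log (m (j + 1)) ≤ Real.log (x j) := by rw [← xs j]; linarith
    have c2 : (m (j + 1) : ℝ) ≤ x j := (Real.log_le_log_iff (by linarith) (by linarith)).1 c1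
    have : (m (j + 1) : ℝ) ≤ m j := c2.trans (hC j hj.le).1
    exact_mod_cast this
  · have c1 : x (j + 1) * (k * x (j + 1 + 1)) ^ 3 ≤ m (j + 1) := by
      rw [ms, xs (j + 1)]; exact Nat.le_ceil _
    have c2 : 0 < (k : ℝ) * Real.log (m (j + 1)) := mul_pos (by linarith) (by linarith)
    have c3 : (k : ℝ) * Real.log (m (j + 1)) ≤ 2 * (k * x (j + 1 + 1)) := by nlinarith
    have c4 : ((k : ℝ) * Real.log (m (j + 1))) ^ 2 ≤ (2 * (k * x (j + 1 + 1))) ^ 2 :=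
      pow_le_pow_left₀ c2.le c3 2
    have c5 : 8 ≤ (k : ℝ) * x (j + 1 + 1) := by nlinarith
    refine (hE j hj.le).trans ?_
    rw [le_div_iff₀ (by positivity)]
    generalize (k : ℝ) * x (j + 1 + 1) = w at c1 c4 c5
    have c6 : 2 * x (j + 1) * ((k : ℝ) * Real.log (m (j + 1))) ^ 2 ≤
        2 * x (j + 1) * (2 * w) ^ 2 := mul_le_mul_of_nonneg_left c4 (by linarith)
    have c7 : x (j + 1) * w ^ 2 * 8 ≤ x (j + 1) * w ^ 2 * w :=
      mul_le_mul_of_nonneg_left c5 (by positivity)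
    nlinarith

end Pool.Agent.MP_6d294b_pr

end

section

open Finset

namespace Pool.Agent.MP_6d294b_pr

open MeasureTheory Set

theorem anti_Int (hs : SSlope) (k : ℕ) : AntitoneOn (fun v : ℝ => gf (v ^ k)) (Ioi 0) :=
  fun _ ha _ _ hab => (hs.2 _ _ (pow_pos ha k) (pow_le_pow_left₀ (le_of_lt ha) hab k)).1

theorem nn_Int (hb : SBet) (k : ℕ) {v : ℝ} (hv : 0 < v) : 0 ≤ gf (v ^ k) :=
  (hb.2 _ (pow_pos hv k)).2.1

theorem small_Int (hb : SBet) (k : ℕ) {v : ℝ} (hv : 0 < v) (h1 : v ≤ 1) :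
    gf (v ^ k) ≤ (Real.log 2 - k * Real.log v) / 2 := by
  have hz := pow_pos hv k
  have h2 : v ^ k ≤ 1 := pow_le_one₀ hv.le h1
  have h3 := (hb.2 _ hz).2.2.1
  have h4 : Real.log (1 + 1 / v ^ k) ≤ Real.log (2 / v ^ k) := by
    apply Real.log_le_log (by positivity)
    have : 1 ≤ 1 / v ^ k := by rw [le_div_iff₀ hz]; linarith
    have e : 2 / v ^ k = 1 / v ^ k + 1 / v ^ k := by ring
    linarith
  rw [Real.log_div (by norm_num) hz.ne', Real.log_pow] at h4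
  linarith

theorem big_Int (hb : SBet) (j : ℕ) {v B : ℝ} (hB : 1 ≤ B) (hv : B ≤ v) :
    gf (v ^ (j + 1)) ≤ Real.exp (B - B ^ (j + 1)) * Real.exp (-v) := by
  have h1 : 1 ≤ B ^ j := one_le_pow₀ hB
  have h2 : B ^ j ≤ v ^ j := pow_le_pow_left₀ (by linarith) hv j
  have h3 : B ^ (j + 1) + (v - B) ≤ v ^ (j + 1) := by
    rw [pow_succ, pow_succ]
    nlinarith [mul_nonneg (sub_nonneg.2 h2) (by linarith : 0 ≤ v),
      mul_nonneg (sub_nonneg.2 h1) (sub_nonneg.2 hv)]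
  have h4 : 1 ≤ v ^ (j + 1) := one_le_pow₀ (hB.trans hv)
  refine ((hb.2 _ (by linarith)).2.2.2 h4).trans ?_
  rw [← Real.exp_add]
  exact Real.exp_le_exp.2 (by linarith)

theorem meas_Int (hs : SSlope) (k : ℕ) {s : Set ℝ} (hm : MeasurableSet s) (h : s ⊆ Ioi 0) :
    AEStronglyMeasurable (fun v : ℝ => gf (v ^ k)) (volume.restrict s) :=
  (aemeasurable_restrict_of_antitoneOn hm ((anti_Int hs k).mono h)).aestronglyMeasurable

theorem glog_Int (k : ℕ) (a b : ℝ) :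
    IntervalIntegrable (fun v : ℝ => (Real.log 2 - k * Real.log v) / 2) volume a b :=
  (intervalIntegrable_const.sub (intervalIntegral.intervalIntegrable_log'.const_mul _)).div_const _

theorem gexp_Int (c B : ℝ) : IntegrableOn (fun v : ℝ => c * Real.exp (-v)) (Ioi B) := by
  have := exp_neg_integrableOn_Ioi B (b := 1) one_pos
  simp only [neg_mul, one_mul] at this
  exact this.const_mul c

theorem integ_Int (hb : SBet) (hs : SSlope) (j : ℕ) :
    IntegrableOn (fun v : ℝ => gf (v ^ (j + 1))) (Ioi 0) := by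
  rw [← Ioc_union_Ioi_eq_Ioi (zero_le_one' ℝ)]
  refine IntegrableOn.union ?_ ?_
  · refine Integrable.mono' (glog_Int (j + 1) 0 1).1
      (meas_Int hs _ measurableSet_Ioc Ioc_subset_Ioi_self) ?_
    refine (ae_restrict_iff' measurableSet_Ioc).2 (ae_of_all _ fun v hv => ?_)
    rw [Real.norm_of_nonneg (nn_Int hb _ hv.1)]
    exact small_Int hb _ hv.1 hv.2
  · refine Integrable.mono' (gexp_Int (Real.exp (1 - 1 ^ (j + 1))) 1)
      (meas_Int hs _ measurableSet_Ioi (Ioi_subset_Ioi zero_le_one)) ?_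
    refine (ae_restrict_iff' measurableSet_Ioi).2 (ae_of_all _ fun v hv => ?_)
    have hv1 : (1 : ℝ) < v := hv
    rw [Real.norm_of_nonneg (nn_Int hb _ (by linarith))]
    exact big_Int hb j le_rfl hv1.le

theorem ii_Int (hb : SBet) (hs : SSlope) (j : ℕ) {a b : ℝ} (ha : 0 ≤ a) (hab : a ≤ b) :
    IntervalIntegrable (fun v : ℝ => gf (v ^ (j + 1))) volume a b :=
  (intervalIntegrable_iff_integrableOn_Ioc_of_le hab).2
    ((integ_Int hb hs j).mono_set fun _ hv => lt_of_le_of_lt ha hv.1)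

theorem tailnn_Int (hb : SBet) (k : ℕ) {a : ℝ} (ha : 0 ≤ a) : 0 ≤ ∫ v in Ioi a, gf (v ^ k) :=
  setIntegral_nonneg measurableSet_Ioi fun _ hv => nn_Int hb k (lt_of_le_of_lt ha hv)

theorem split_Int (hb : SBet) (hs : SSlope) (j : ℕ) {a b : ℝ} (ha : 0 ≤ a) (hab : a ≤ b) :
    (∫ v in Ioi a, gf (v ^ (j + 1))) - ∫ v in Ioi b, gf (v ^ (j + 1))
      = ∫ v in a..b, gf (v ^ (j + 1)) :=
  intervalIntegral.integral_Ioi_sub_Ioi ((integ_Int hb hs j).mono_set (Ioi_subset_Ioi ha)) hab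

theorem partnn_Int (hb : SBet) (k : ℕ) {a b : ℝ} (ha : 0 < a) (hab : a ≤ b) :
    0 ≤ ∫ v in a..b, gf (v ^ k) :=
  intervalIntegral.integral_nonneg hab fun _ hv => nn_Int hb k (lt_of_lt_of_le ha hv.1)

theorem low_Int (hb : SBet) (hs : SSlope) (j : ℕ) :
    1 / 40 ≤ ∫ v in Ioi (0 : ℝ), gf (v ^ (j + 1)) := by
  have h1 := split_Int hb hs j (a := 0) (b := 1 / 5) le_rfl (by norm_num)
  have h2 := tailnn_Int hb (j + 1) (a := 1 / 5) (by norm_num)
  have h3 : ∫ _ in (0 : ℝ)..1 / 5, (1 / 8 : ℝ) ≤ ∫ v in (0 : ℝ)..1 / 5, gf (v ^ (j + 1)) := by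
    refine intervalIntegral.integral_mono_on_of_le_Ioo (by norm_num) intervalIntegrable_const
      (ii_Int hb hs j le_rfl (by norm_num)) fun v hv => ?_
    obtain ⟨m, m1, -, -, m4⟩ := hs.1
    have hz := pow_pos hv.1 (j + 1)
    have hz1 : v ^ (j + 1) ≤ 1 / 5 := by
      have : v ^ j ≤ 1 := pow_le_one₀ hv.1.le (by linarith [hv.2])
      rw [pow_succ]
      nlinarith [hv.1, hv.2]
    have a1 := m1 (2 / 5) _ (by norm_num) hz
    have a2 := m4 (2 / 5) (by norm_num) le_rfl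
    have a3 := (hb.2 (2 / 5) (by norm_num)).2.1
    nlinarith
  rw [intervalIntegral.integral_const, smul_eq_mul] at h3
  linarith

theorem head_Int (hb : SBet) (hs : SSlope) (j : ℕ) {q u : ℝ} (hq : 0 < q) (hqu : q ≤ u)
    (hu : u ≤ 1) : ∫ v in (0 : ℝ)..u, gf (v ^ (j + 1))
      ≤ ((j : ℝ) + 2) * u * (1 + Real.log (1 / q)) := by
  have hu0 : 0 < u := lt_of_lt_of_le hq hqu
  have h1 : ∫ v in (0 : ℝ)..u, gf (v ^ (j + 1))
      ≤ ∫ v in (0 : ℝ)..u, (Real.log 2 - ((j + 1 : ℕ) : ℝ) * Real.log v) / 2 :=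
    intervalIntegral.integral_mono_on_of_le_Ioo hu0.le (ii_Int hb hs j le_rfl hu0.le)
      (glog_Int _ _ _) fun v hv => small_Int hb _ hv.1 (hv.2.le.trans hu)
  rw [intervalIntegral.integral_div, intervalIntegral.integral_sub intervalIntegrable_const
    (intervalIntegral.intervalIntegrable_log'.const_mul _), intervalIntegral.integral_const,
    intervalIntegral.integral_const_mul, integral_log, smul_eq_mul] at h1
  have h2 : Real.log 2 ≤ 1 := by
    have := Real.log_le_sub_one_of_pos (x := 2) (by norm_num)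
    linarith
  have h3 : Real.log q ≤ Real.log u := Real.log_le_log hq hqu
  have h4 : Real.log u ≤ 0 := Real.log_nonpos hu0.le hu
  rw [one_div, Real.log_inv]
  refine h1.trans ?_
  push_cast
  have hj : (0 : ℝ) ≤ j := Nat.cast_nonneg j
  have a1 : u * Real.log 2 ≤ u := by nlinarith
  have a2 : 0 ≤ ((j : ℝ) + 1) * (u * (Real.log u - Real.log q)) := by
    have := sub_nonneg.2 h3
    positivity
  have a3 : 0 ≤ ((j : ℝ) + 3) * (u * (- Real.log q)) := by
    have : 0 ≤ - Real.log q := by linarith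
    positivity
  have a4 : 0 ≤ (j : ℝ) * u := by positivity
  nlinarith

theorem tail_Int (hb : SBet) (hs : SSlope) (j : ℕ) {B : ℝ} (hB : 1 ≤ B) :
    ∫ v in Ioi B, gf (v ^ (j + 1)) ≤ Real.exp (- B ^ (j + 1)) := by
  have h1 : ∫ v in Ioi B, gf (v ^ (j + 1))
      ≤ ∫ v in Ioi B, Real.exp (B - B ^ (j + 1)) * Real.exp (-v) :=
    setIntegral_mono_on ((integ_Int hb hs j).mono_set (Ioi_subset_Ioi (by linarith)))
      (gexp_Int _ _) measurableSet_Ioi fun v hv => big_Int hb j hB (le_of_lt hv)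
  rw [integral_const_mul, integral_exp_neg_Ioi, ← Real.exp_add] at h1
  refine h1.trans_eq ?_
  congr 1
  ring

theorem sum_Int (hs : SSlope) (k N : ℕ) {a c : ℝ} (ha : 0 < a) (hc : 0 < c) :
    c⁻¹ * ∫ v in a..a + c * N, gf (v ^ k) ≤ ∑ t ∈ range N, gf ((a + c * t) ^ k) := by
  have h1 : AntitoneOn (fun s : ℝ => gf ((a + c * s) ^ k)) (Icc (0 : ℝ) (0 + (N : ℝ))) := by
    intro x hx y hy hxy
    have hx0 : 0 < a + c * x := by have := hx.1; positivity
    have hy0 : 0 < a + c * y := by have := hy.1; positivity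
    exact anti_Int hs k hx0 hy0 (by nlinarith)
  have h2 := h1.integral_le_sum
  have h3 := intervalIntegral.integral_comp_add_mul (a := 0) (b := 0 + (N : ℝ))
    (fun v : ℝ => gf (v ^ k)) hc.ne' a
  rw [h3] at h2
  simpa using h2

theorem sInt (hb : SBet) (hs : SSlope) : SInt := by
  intro d hd
  obtain ⟨j, rfl⟩ : ∃ j, d = j + 2 := ⟨d - 2, by omega⟩
  have e : j + 2 - 1 = j + 1 := rfl
  refine ⟨low_Int hb hs j, fun q B M N hq hu hB hN => ?_⟩
  unfold lam Gt sst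
  rw [e]
  have hj : (0 : ℝ) ≤ j := Nat.cast_nonneg j
  have hM : (0 : ℝ) ≤ M := Nat.cast_nonneg M
  set D : ℝ := ((j + 2 : ℕ) : ℝ) with hD
  have hD2 : D = j + 2 := by rw [hD]; push_cast; ring
  have hD0 : 0 < D := by rw [hD2]; positivity
  set τ : ℝ := 200 * ((M : ℝ) + 1) with hτ
  have hτ0 : 0 < τ := by positivity
  set a : ℝ := q * ((D + 1) / D + τ) with ha
  have ha0 : 0 < a := by positivity
  have hau : a ≤ q * (2 + τ) := by
    have : (D + 1) / D ≤ 2 := by rw [div_le_iff₀ hD0]; linarith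
    exact mul_le_mul_of_nonneg_left (by linarith) hq.le
  have hc : 0 < q / D := by positivity
  have hN' : B ≤ q / D * N := by
    rw [div_mul_eq_mul_div, le_div_iff₀ hD0]; exact hN
  have h1 := sum_Int hs (j + 1) N ha0 hc
  have h2 : ∑ t ∈ range N, gf ((a + q / D * t) ^ (j + 1)) ≤ ∑ t ∈ range N,
      gf (q ^ (j + 1) * ((((t : ℝ) + D + 1) / D) ^ (j + 1) + ((200 * (M + 1) ^ (j + 1) : ℕ) : ℝ))) := by
    refine sum_le_sum fun t _ => (hs.2 _ _ (by positivity) ?_).1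
    have e1 : a + q / D * t = q * (((t : ℝ) + D + 1) / D + τ) := by
      rw [ha]; field_simp; ring
    rw [e1, mul_pow]
    refine mul_le_mul_of_nonneg_left ?_ (by positivity)
    refine le_trans ?_ (pow_add_pow_le (by positivity) hτ0.le (Nat.succ_ne_zero j))
    have : (200 : ℝ) ≤ 200 ^ (j + 1) := le_self_pow₀ (by norm_num) (Nat.succ_ne_zero j)
    have h0 : (0 : ℝ) ≤ ((M : ℝ) + 1) ^ (j + 1) := by positivity
    rw [hτ, mul_pow]
    push_cast
    nlinarith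
  refine le_trans ?_ (h1.trans h2)
  rw [inv_div]
  refine mul_le_mul_of_nonneg_left ?_ (by positivity)
  have hb1 : B ≤ a + q / D * N := by linarith
  have s1 := split_Int hb hs j ha0.le (b := a + q / D * N) (by linarith)
  have s2 := split_Int hb hs j (a := 0) (b := q * (2 + τ)) le_rfl (by positivity)
  have s3 := split_Int hb hs j ha0.le hau
  have s4 := split_Int hb hs j (a := B) (by linarith) hb1
  have p3 := partnn_Int hb (j + 1) ha0 hau
  have p4 := partnn_Int hb (j + 1) (a := B) (by linarith) hb1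
  have t1 := head_Int hb hs j hq (u := q * (2 + τ)) (by nlinarith) hu
  have t2 := tail_Int hb hs j hB
  rw [← hD2] at t1
  linarith

end Pool.Agent.MP_6d294b_pr

end

section

/-! Upper bound: the weight of a growth event. -/

open Finset

namespace Pool.Agent.MP_6d294b_pr

open MeasureTheory

theorem tel_UCost (hb : SBet) (hs : SSlope) (j : ℕ) {q : ℝ} (hq : 0 < q) (M : ℕ) :
    q * ∑ l ∈ Finset.Ico 1 (M + 1), gf ((q * l) ^ (j + 1)) ≤
      (∫ v in Set.Ioi (0 : ℝ), gf (v ^ (j + 1))) - ∫ v in Set.Ioi (q * M), gf (v ^ (j + 1)) := by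
  induction M with
  | zero => simp
  | succ M ih =>
    rw [Finset.sum_Ico_succ_top (by omega), mul_add]
    have h0 : 0 ≤ q * M := by positivity
    have h1 : q * M ≤ q * ((M + 1 : ℕ) : ℝ) := by push_cast; nlinarith
    have h2 := split_Int hb hs j h0 h1
    have h3 : ∫ _ in q * M..q * ((M + 1 : ℕ) : ℝ), gf ((q * ((M + 1 : ℕ) : ℝ)) ^ (j + 1)) ≤
        ∫ v in q * M..q * ((M + 1 : ℕ) : ℝ), gf (v ^ (j + 1)) := by
      refine intervalIntegral.integral_mono_on_of_le_Ioo h1 intervalIntegrable_const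
        (ii_Int hb hs j h0 h1) fun v hv => ?_
      have hv0 : 0 < v := lt_of_le_of_lt h0 hv.1
      exact anti_Int hs (j + 1) hv0 (lt_trans hv0 hv.2) hv.2.le
    rw [intervalIntegral.integral_const, smul_eq_mul] at h3
    have e : q * ((M + 1 : ℕ) : ℝ) - q * M = q := by push_cast; ring
    rw [e] at h3
    linarith

theorem sUSum (hb : SBet) (hs : SSlope) : SUSum := by
  intro d N q hd hq
  obtain ⟨j, rfl⟩ : ∃ j, d = j + 2 := ⟨d - 2, by omega⟩
  have e : j + 2 - 1 = j + 1 := by omega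
  rw [lam, e, le_div_iff₀ hq, mul_comm]
  rcases N with _ | M
  · simpa using tailnn_Int hb (j + 1) (a := 0) le_rfl
  · have h1 := tel_UCost hb hs j hq M
    have h2 := tailnn_Int hb (j + 1) (a := q * M) (by positivity)
    linarith

theorem psi_UCost {s k N : ℕ} {W : Finset (ℕ × ℕ)} (hW : USep s k N W) {l m : ℕ} (h1 : m ≤ s)
    (h2 : m ≤ l) : m ≤ upsi W l := by
  rcases upsi_mem W l with h | ⟨u, hu, -, h⟩
  · omega
  · have := (hW.1 u hu).1
    omega

theorem log_UCost {s k N : ℕ} {W : Finset (ℕ × ℕ)} (hW : USep s k N W) (hs : 1 ≤ s) (l : ℕ) :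
    Real.log l - Real.log (upsi W l) ≤
      ∑ u ∈ W, if l ∈ Finset.Icc u.1 u.2 then (k : ℝ) / s else 0 := by
  have hnn : ∀ u ∈ W, 0 ≤ if l ∈ Finset.Icc u.1 u.2 then (k : ℝ) / s else 0 := by
    intro u _
    split_ifs
    · positivity
    · exact le_rfl
  rcases upsi_mem W l with h | ⟨u, hu, h1, h⟩
  · rw [h, sub_self]
    exact sum_nonneg hnn
  · refine le_trans ?_ (single_le_sum hnn hu)
    have h2 := upsi_le W l
    obtain ⟨a1, a2, a3, -⟩ := hW.1 u hu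
    rw [if_pos (mem_Icc.2 ⟨by omega, h1⟩), h]
    have hs0 : (0 : ℝ) < s := by exact_mod_cast hs
    have hu0 : (s : ℝ) ≤ u.1 := by exact_mod_cast a1
    have hl : (l : ℝ) ≤ u.1 + k := by exact_mod_cast (by omega : l ≤ u.1 + k)
    have hl0 : (0 : ℝ) < l := by exact_mod_cast (by omega : 0 < l)
    have hp : (0 : ℝ) < u.1 := by linarith
    rw [← Real.log_div hl0.ne' hp.ne']
    refine (Real.log_le_sub_one_of_pos (by positivity)).trans ?_
    have h3 : (l : ℝ) / u.1 - 1 ≤ k / u.1 := by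
      rw [sub_le_iff_le_add, div_add_one hp.ne']
      exact div_le_div_of_nonneg_right (by linarith) hp.le
    exact h3.trans (div_le_div_of_nonneg_left (by positivity) hs0 hu0)

theorem logs_UCost {s k N : ℕ} {W : Finset (ℕ × ℕ)} (hW : USep s k N W) (hs : 1 ≤ s)
    (hk : k ^ 2 ≤ s) :
    ∑ l ∈ Finset.Ico 1 N, (Real.log l - Real.log (upsi W l)) ≤ 2 * W.card := by
  refine (sum_le_sum fun l _ => log_UCost hW hs l).trans ?_
  rw [sum_comm]
  have hs0 : (0 : ℝ) < s := by exact_mod_cast hs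
  have h : ∀ u ∈ W, (∑ l ∈ Finset.Ico 1 N, if l ∈ Finset.Icc u.1 u.2 then (k : ℝ) / s else 0)
      ≤ 2 := by
    intro u hu
    rw [sum_ite_mem, sum_const, nsmul_eq_mul]
    have h1 : #(Finset.Ico 1 N ∩ Finset.Icc u.1 u.2) ≤ k + 1 := by
      refine (card_le_card inter_subset_right).trans ?_
      have := (hW.1 u hu).2.2.1
      rw [Nat.card_Icc]
      omega
    have h2 : #(Finset.Ico 1 N ∩ Finset.Icc u.1 u.2) * k ≤ 2 * s := by
      have := Nat.mul_le_mul_right k h1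
      have h3 : k ≤ k ^ 2 := Nat.le_self_pow (by norm_num) k
      nlinarith
    rw [← mul_div_assoc, div_le_iff₀ hs0]
    exact_mod_cast h2
  refine (sum_le_sum h).trans ?_
  rw [sum_const, nsmul_eq_mul, mul_comm]

theorem pw_UCost (x : ℝ) (m : ℕ) : (1 - (1 - Real.exp (- x))) ^ m = Real.exp (- (x * m)) := by
  rw [sub_sub_cancel, ← Real.exp_nat_mul]
  congr 1
  ring

theorem first_UCost (hb : SBet) (hs : SSlope) (h : SUSum) (j : ℕ) {q : ℝ} {s k N : ℕ}
    {W : Finset (ℕ × ℕ)} (hq : 0 < q) (h1 : 1 ≤ s) (hk : k ^ 2 ≤ s) (hW : USep s k N W) :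
    Real.exp (- (lam (j + 2) / q + (j + 1) * (2 * W.card))) ≤
      ∏ l ∈ Finset.Ico 1 N, bet (1 - (1 - (1 - Real.exp (- q ^ (j + 1)))) ^ (upsi W l ^ (j + 1))) := by
  have e : ∀ l ∈ Finset.Ico 1 N,
      bet (1 - (1 - (1 - Real.exp (- q ^ (j + 1)))) ^ (upsi W l ^ (j + 1))) =
        Real.exp (- gf ((q * upsi W l) ^ (j + 1))) := by
    intro l hl
    have h2 : 1 ≤ upsi W l := psi_UCost hW h1 (mem_Ico.1 hl).1
    have h3 : (0 : ℝ) < upsi W l := by exact_mod_cast h2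
    rw [pw_UCost, (hb.2 _ (by positivity)).1, mul_pow]
    push_cast
    rfl
  rw [prod_congr rfl e, ← Real.exp_sum, Real.exp_le_exp, sum_neg_distrib, neg_le_neg_iff]
  have a : ∀ l ∈ Finset.Ico 1 N, gf ((q * upsi W l) ^ (j + 1)) ≤
      gf ((q * l) ^ (j + 1)) + (j + 1) * (Real.log l - Real.log (upsi W l)) := by
    intro l hl
    have h2 : 1 ≤ upsi W l := psi_UCost hW h1 (mem_Ico.1 hl).1
    have h3 : (0 : ℝ) < upsi W l := by exact_mod_cast h2
    have h4 : (upsi W l : ℝ) ≤ l := by exact_mod_cast upsi_le W l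
    have h5 : (0 : ℝ) < l := by linarith
    have h6 := (hs.2 ((q * upsi W l) ^ (j + 1)) ((q * l) ^ (j + 1)) (by positivity)
      (pow_le_pow_left₀ (by positivity) (mul_le_mul_of_nonneg_left h4 hq.le) _)).2
    rw [Real.log_pow, Real.log_pow, Real.log_mul hq.ne' h5.ne', Real.log_mul hq.ne' h3.ne'] at h6
    push_cast at h6
    linarith
  refine (sum_le_sum a).trans ?_
  rw [sum_add_distrib, ← mul_sum]
  have b1 := h (j + 2) N q (by omega) hq
  have e2 : j + 2 - 1 = j + 1 := by omega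
  rw [e2] at b1
  have b2 := logs_UCost hW h1 hk
  have b3 : (0 : ℝ) ≤ j + 1 := by positivity
  have b4 := mul_le_mul_of_nonneg_left b2 b3
  linarith

theorem half_UCost {q x : ℝ} (hq : 0 ≤ q) (h1 : q ≤ 1) (hx : q ≤ x) :
    q / 2 ≤ 1 - Real.exp (- x) := by
  have a1 : Real.exp (- x) ≤ Real.exp (- q) := Real.exp_le_exp.2 (by linarith)
  have a2 : Real.exp (- q) * Real.exp q = 1 := by rw [← Real.exp_add]; simp
  have a3 := Real.add_one_le_exp q
  have a4 := Real.exp_pos (- q)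
  have a5 : Real.exp (- q) * (q + 1) ≤ 1 := by nlinarith
  by_contra hc
  have a6 : 1 - q / 2 < Real.exp (- q) := by linarith
  nlinarith

theorem second_UCost (j : ℕ) {q : ℝ} {s k N : ℕ} {W : Finset (ℕ × ℕ)} (hq : 0 < q) (hq1 : q ≤ 1)
    (h1 : 1 / q ≤ s) (h2 : (s : ℝ) ≤ 2 / q) (hW : USep s k N W) {u : ℕ × ℕ} (hu : u ∈ W) :
    Real.exp (- (2 * 10 ^ (j + 1))) / 4 * q ≤
      (1 - (1 - (1 - Real.exp (- q ^ (j + 1)))) ^ (u.1 ^ j)) *
        (1 - (1 - (1 - Real.exp (- q ^ (j + 1)))) ^ (upsi W (u.1 + 2) ^ (j + 1))) *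
        (1 - (1 - Real.exp (- q ^ (j + 1)))) ^ (2 * u.2 * (u.1 + 1) ^ j) := by
  obtain ⟨a1, a2, -, -, a5⟩ := hW.1 u hu
  have b1 : 1 ≤ q * s := by rw [div_le_iff₀ hq] at h1; linarith
  have b2 : q * s ≤ 2 := by rw [le_div_iff₀ hq] at h2; linarith
  have c1 : (s : ℝ) ≤ u.1 := by exact_mod_cast a1
  have c2 : (u.1 : ℝ) + 1 ≤ u.2 := by exact_mod_cast a2
  have c3 : (u.2 : ℝ) ≤ 5 * s := by exact_mod_cast a5
  have c4 : (s : ℝ) ≤ upsi W (u.1 + 2) := by
    exact_mod_cast psi_UCost hW le_rfl (by omega : s ≤ u.1 + 2)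
  rw [pw_UCost, pw_UCost, pw_UCost]
  push_cast
  have d1 : q / 2 ≤ 1 - Real.exp (- (q ^ (j + 1) * (u.1 : ℝ) ^ j)) := by
    refine half_UCost hq.le hq1 ?_
    have : 1 ≤ (q * u.1) ^ j := one_le_pow₀ (by nlinarith)
    have e : q ^ (j + 1) * (u.1 : ℝ) ^ j = q * (q * u.1) ^ j := by ring
    rw [e]
    nlinarith
  have d2 : 1 / 2 ≤ 1 - Real.exp (- (q ^ (j + 1) * (upsi W (u.1 + 2) : ℝ) ^ (j + 1))) := by
    refine half_UCost zero_le_one le_rfl ?_
    rw [← mul_pow]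
    exact one_le_pow₀ (by nlinarith)
  have d3 : Real.exp (- (2 * 10 ^ (j + 1))) ≤
      Real.exp (- (q ^ (j + 1) * (2 * (u.2 : ℝ) * ((u.1 : ℝ) + 1) ^ j))) := by
    rw [Real.exp_le_exp, neg_le_neg_iff]
    have f1 : q * u.2 ≤ 10 := by nlinarith
    have f2 : q * ((u.1 : ℝ) + 1) ≤ 10 := by nlinarith
    have f3 : (q * ((u.1 : ℝ) + 1)) ^ j ≤ 10 ^ j := pow_le_pow_left₀ (by positivity) f2 j
    have e : q ^ (j + 1) * (2 * (u.2 : ℝ) * ((u.1 : ℝ) + 1) ^ j) =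
        2 * ((q * ((u.1 : ℝ) + 1)) ^ j * (q * u.2)) := by rw [mul_pow]; ring
    rw [e, pow_succ]
    have := mul_le_mul f3 f1 (by positivity) (by positivity)
    linarith
  have e : Real.exp (- (2 * 10 ^ (j + 1))) / 4 * q =
      q / 2 * (1 / 2) * Real.exp (- (2 * 10 ^ (j + 1))) := by ring
  rw [e]
  have g1 : 0 ≤ q / 2 := by positivity
  exact mul_le_mul (mul_le_mul d1 d2 (by norm_num) (g1.trans d1)) d3 (Real.exp_pos _).le
    (mul_nonneg (g1.trans d1) (le_trans (by norm_num) d2))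

theorem sUCost (hb : SBet) (hs : SSlope) (h : SUSum) : SUCost := by
  intro d hd
  obtain ⟨j, rfl⟩ : ∃ j, d = j + 2 := ⟨d - 2, by omega⟩
  have e1 : j + 2 - 1 = j + 1 := by omega
  have e2 : j + 2 - 2 = j := by omega
  refine ⟨Real.exp (- (2 * (j + 2) * (j + 1))) * (Real.exp (- (2 * 10 ^ (j + 1))) / 4),
    by positivity, ?_, ?_⟩
  · have a1 : Real.exp (- (2 * ((j : ℝ) + 2) * (j + 1))) ≤ 1 :=
      Real.exp_le_one_iff.2 (neg_nonpos.2 (by positivity))
    have a2 : Real.exp (- (2 * 10 ^ (j + 1))) ≤ 1 :=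
      Real.exp_le_one_iff.2 (neg_nonpos.2 (by positivity))
    exact mul_le_one₀ a1 (by positivity) (by linarith)
  · intro q s k N W hq hq1 h1 h2 hk hW
    have hs1 : 1 ≤ s := by
      have : (0 : ℝ) < s := lt_of_lt_of_le (by positivity) h1
      exact_mod_cast this
    rw [uwt, e1, e2]
    have a1 := pow_le_pow_left₀ (Real.exp_pos _).le (first_UCost hb hs h j hq hs1 hk hW) (j + 2)
    have a2 := prod_le_prod (s := W) (fun u _ => by positivity)
      (fun u hu => second_UCost j hq hq1 h1 h2 hW hu)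
    rw [prod_const] at a2
    refine le_trans (le_of_eq ?_) (mul_le_mul a1 a2 (by positivity)
      (le_trans (by positivity) a1))
    rw [mul_assoc, mul_pow, ← mul_assoc, ← Real.exp_nat_mul, ← Real.exp_nat_mul, ← Real.exp_add]
    congr 2
    push_cast
    ring

end Pool.Agent.MP_6d294b_pr

end
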