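import Pool.Agent.Mg.F6d294b.G28e636

set_option linter.all false

section

open Finset

namespace Pool.Agent.MP_6d294b_pr

variable {d : ℕ}

/-- good boxes: small, or all sides long -/
def Gd (K Y : ℕ) (R : Bx d) : Prop := psi R < K ∨ ∀ i, Y ≤ ex R i + 1

/-- the rectangle process through good boxes -/
inductive Sp (K Y : ℕ) : Finset (Pt d) → Bx d → Prop
  | pt (x : Pt d) : Sp K Y {x} (ptB x)
  | merge {A B : Finset (Pt d)} {Q P : Bx d} : Sp K Y A Q → Sp K Y B P → Disjoint A B →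
      gap Q P ≤ 2 → Gd K Y (Q ⊔ P) → Sp K Y (A ∪ B) (Q ⊔ P)

def ISp2 (K Y : ℕ) (R : Bx d) (A : Finset (Pt d)) : Prop := ∃ B, B ⊆ A ∧ Sp K Y B R

/-- the ground set contains the box -/
def Full (Ω : Finset (Pt d)) (R : Bx d) : Prop := ∀ x, InB x R → x ∈ Ω

/-- a chain of small merges from `S` to `R` through boxes with the property `G` -/
def Chn (T : ℕ) (G : Bx d → Prop) (S R : Bx d) (A : Finset (Pt d)) : Prop :=
  ∃ (k : ℕ) (Q P : ℕ → Bx d) (W : ℕ → Finset (Pt d)), Q 0 = S ∧ Q k = R ∧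
    (∀ j, j ≤ k → G (Q j)) ∧
    (∀ j, j < k → W j ⊆ A ∧ Span (W j) (P j) ∧ gap (Q j) (P j) ≤ 2 ∧ psi (P j) < T ∧
      Q (j + 1) = Q j ⊔ P j) ∧
    ∀ i j, i < k → j < k → i ≠ j → Disjoint (W i) (W j)

/-- outer box of a cell -/
def outB (m : ℕ → ℕ) (R z : Bx d) : Bx d := fun s => min (R s) (z s + m (ex z s.1))

/-- paths of cells: each step advances one side by one cell -/
def IsPath (m : ℕ → ℕ) (S R : Bx d) (M : ℕ) (z : ℕ → Bx d) : Prop :=
  z 0 = S ∧ z M = R ∧ ∀ t, ∃ s, z (t + 1) = Function.update (z t) s (outB m R (z t) s)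

/-- the time at which the layer `j` of the side `s` is crossed -/
noncomputable def tm (z : ℕ → Bx d) (M : ℕ) (s : Sd d) (j : ℤ) : ℕ :=
  sInf {t : ℕ | j ≤ z (t + 1) s ∨ M ≤ t}

/-- the box `Q` lies in a cell of the path -/
def Fol (m : ℕ → ℕ) (R : Bx d) (M : ℕ) (z : ℕ → Bx d) (Q : Bx d) : Prop :=
  ∃ τ, τ ≤ M ∧ z τ ≤ Q ∧ Q ≤ outB m R (z τ)

/-- the layer `j` of the side `s` with the cross section of `B` -/
noncomputable def lay (B : Bx d) (s : Sd d) (j : ℤ) : Finset (Pt d) :=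
  Fintype.piFinset fun k =>
    if k = s.1 then {if s.2 then j else - j} else Finset.Icc (- B (k, false)) (B (k, true))

/-- outer layer, enlarged by `e` -/
noncomputable def reg (m : ℕ → ℕ) (R : Bx d) (M e : ℕ) (z : ℕ → Bx d) (s : Sd d) (j : ℤ) :
    Finset (Pt d) := lay (fun t => outB m R (z (tm z M s j)) t + e) s j

/-- inner layer -/
noncomputable def cor (M : ℕ) (z : ℕ → Bx d) (s : Sd d) (j : ℤ) : Finset (Pt d) :=
  lay (z (tm z M s j)) s j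

/-- no double gap -/
def NG {α : Type} (C : ℤ → Finset α) (J : Finset ℤ) (A : Finset α) : Prop :=
  ∀ j ∈ J, (∃ x ∈ A, x ∈ C j) ∨ (∃ x ∈ A, x ∈ C (j + 1))

/-- record of an overhanging merge in the cell with inner box `z` and outer box `o` -/
def Adm1 (T : ℕ) (z o : Bx d) (u : Dat d) : Prop :=
  Val u.1 ∧ psi u.1 < T ∧ ∑ s, u.2 s ≤ psi u.1 + 2 ∧
  (∀ s, u.2 s ≠ 0 → z s + u.2 s ≤ u.1 s) ∧ (∀ s, u.1 s ≤ o s + psi u.1 + 2) ∧
  ∃ s s' : Sd d, s.1 ≠ s'.1 ∧ u.2 s ≠ 0 ∧ u.2 s' ≠ 0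

open Classical in
noncomputable def adm1 (T : ℕ) (R z o : Bx d) : Finset (Dat d) :=
  (boxes R ×ˢ Fintype.piFinset fun _ => Finset.range (T + 2)).filter (Adm1 T z o)

open Classical in
noncomputable def admP (m : ℕ → ℕ) (T M : ℕ) (R : Bx d) (z : ℕ → Bx d) : Finset (Dat d) :=
  (Finset.range (M + 1)).biUnion fun τ => adm1 T R (z τ) (outB m R (z τ))

/-- crossing event with recorded overhanging merges -/
def Cr1 (X : Finset (Dat d)) (C : Sd d → ℤ → Finset (Pt d)) (S R : Bx d)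
    (A : Finset (Pt d)) : Prop :=
  ∃ (U : Finset (Dat d)) (w : Dat d → Finset (Pt d)) (W : Sd d → Finset (Pt d)),
    (∀ u ∈ U, u ∈ X ∧ w u ⊆ A ∧ Span (w u) u.1) ∧
    (∀ s, W s ⊆ A ∧ NG (C s) ((JS S R U s).erase (R s)) (W s)) ∧
    (∀ u ∈ U, ∀ v ∈ U, u ≠ v → Disjoint (w u) (w v)) ∧
    (∀ s t, s ≠ t → Disjoint (W s) (W t)) ∧
    (∀ u ∈ U, ∀ s, Disjoint (w u) (W s))

open Classical in
/-- layers that are not touched by a helper site -/
noncomputable def JY (S R : Bx d) (Y : Finset ((Sd d × ℤ) × Pt d)) (s : Sd d) : Finset ℤ :=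
  (Finset.Ioo (S s) (R s)).filter fun j => ∀ y ∈ Y, kap s y.2 ≠ j ∧ kap s y.2 ≠ j + 1

/-- helped inner layers are empty, the untouched inner layers have no double gap -/
def EY (C : Sd d → ℤ → Finset (Pt d)) (S R : Bx d) (Y : Finset ((Sd d × ℤ) × Pt d))
    (A : Finset (Pt d)) : Prop :=
  (∀ y ∈ Y, ∀ x ∈ A, x ∉ C y.1.1 y.1.2) ∧ ∀ s, NG (C s) (JY S R Y s) A

/-- a system of inner layers `C` and outer layers `D` -/
def Lays (Ω : Finset (Pt d)) (S R : Bx d) (C D : Sd d → ℤ → Finset (Pt d)) : Prop :=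
  (∀ s j, S s < j → j ≤ R s → C s j ⊆ Ω ∧ (∀ x ∈ C s j, kap s x = j) ∧
    ∀ x ∈ D s j, kap s x = j) ∧
  ∀ s j s' j', S s < j → j ≤ R s → S s' < j' → j' ≤ R s' → (s, j) ≠ (s', j') →
    Disjoint (C s j) (C s' j')

/-- size of the cells -/
noncomputable def mq (q : ℝ) (y : ℕ) : ℕ :=
  ⌈Real.sqrt ((y : ℝ) + 1) * (1 + q * ((y : ℝ) + 1))⌉₊

/-- counts the cells -/
noncomputable def Nf (q : ℝ) (y : ℕ) : ℝ :=
  12 * Real.sqrt ((y : ℝ) + 1) / (1 + Real.sqrt (q * ((y : ℝ) + 1)))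

noncomputable def NF (q : ℝ) (R : Bx d) : ℝ := ∑ i, Nf q (ex R i)

/-- enlarged side length -/
noncomputable def th (q : ℝ) (v y : ℕ) : ℝ := (y : ℝ) + v + 2 * mq q y

/-- enlarged face -/
noncomputable def Fc (q : ℝ) (v : ℕ) (y : Fin d → ℕ) (i : Fin d) : ℝ :=
  q ^ (d - 1) * ∏ j ∈ univ.erase i, th q v (y j)

noncomputable def Th (η F : ℝ) : ℝ := F * (1 + min (η * Real.exp (3 * F / 2)) (1 / 20))

/-- cost of one step -/
noncomputable def cost (q : ℝ) (v : ℕ) (η : ℝ) (y : Fin d → ℕ) (i : Fin d) : ℝ :=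
  gf (Th η (Fc q v y i))

/-- upper bound for the cost -/
noncomputable def cz (d : ℕ) (q : ℝ) (v : ℕ) : ℝ := Real.log (2 / (q * v) ^ (d - 1)) / 2

/-- shortest path potential for a general cost -/
def IsPot2 (c : (Fin d → ℕ) → Fin d → ℝ) (Φ : (Fin d → ℕ) → ℝ) : Prop :=
  Φ 0 = 0 ∧ (∀ y i, Φ (y + Pi.single i 1) ≤ Φ y + c y i) ∧
  ∀ y, y ≠ 0 → ∃ y' i, y = y' + Pi.single i 1 ∧ Φ y = Φ y' + c y' i

/-- increments of the largest volume -/
noncomputable def Dd (d : ℕ) (v : ℝ) (t : ℕ) : ℝ :=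
  (((t : ℝ) + 1 + d * v) / d) ^ d - (((t : ℝ) + d * v) / d) ^ d

/-- loss per step -/
noncomputable def ell (d : ℕ) (q : ℝ) (v : ℕ) (η : ℝ) (t : ℕ) : ℝ :=
  (η + (1 + q * ((t : ℝ) + d * v)) / Real.sqrt ((t : ℝ) + d * v)) *
    Real.exp (- (q * ((t : ℝ) + d * v) / (8 * d)))

/-- basic conditions -/
def Bas (d : ℕ) (q p : ℝ) (v : ℕ) (η : ℝ) (Φ : (Fin d → ℕ) → ℝ) : Prop :=
  2 ≤ d ∧ 0 < q ∧ q ≤ 1 / 2000 ∧ p = 1 - Real.exp (- q ^ (d - 1)) ∧ 1 ≤ v ∧ q * v ≤ 1 ∧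
  0 ≤ η ∧ IsPot2 (cost q v η) Φ

/-- conditions on the parameters -/
def Par2 (d : ℕ) (A C q : ℝ) (N v T : ℕ) (ρ δ X E : ℝ) : Prop :=
  q ≤ 1 / 2000 ∧ 1 ≤ T ∧ 8000 * T ≤ v ∧ 14 * q * v ≤ 1 ∧ q * (T + v + 1) ≤ 1 ∧
  (T + 1) * Real.sqrt q ≤ 1 ∧ (v + 1) * (1 + Real.log (1 / q)) * Real.sqrt q ≤ 1 ∧
  0 ≤ ρ ∧ 20 * (A * Real.sqrt q) ≤ ρ ^ 3 ∧ A * Real.sqrt q * (1 + q * (2 * N + 1)) ≤ 1 ∧
  q ^ 2 * (2 * N + 1) ≤ 1 ∧ 0 ≤ X ∧ C + 2 * d * cz d q v ≤ X ∧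
  C + A * Real.sqrt q * ρ * N ≤ X ∧ E = 2 * X + 6 * d * Real.log (2 * N + 1) + 1 ∧
  2 * cz d q v + E ≤ T ∧ 1800000 * (2 * cz d q v + 2 * E) ≤ v ∧
  0 < δ ∧ 288000 * d * C * Real.sqrt δ ≤ 1 ∧ 800 * d * cz d q v ≤ δ * v ∧
  25 * q ^ 2 * (2 * N + 1) ≤ δ ∧ 300 * (144000 * d * C) ^ 2 ≤ v ∧
  288000000 * d * C * Real.sqrt q ≤ 1 ∧
  160 * d * (1 / Real.sqrt v + q * Real.sqrt (2 * N + v)) ≤ 1

end Pool.Agent.MP_6d294b_pr

end

section

open Finset

namespace Pool.Agent.MP_6d294b_pr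

/-! ### probability -/

/-- no double gap, layers with growing densities, jointly with an independent event -/
def TLine : Prop := ∀ (α : Type) [DecidableEq α] (Ω : Finset α) (p : ℝ), 0 ≤ p → p ≤ 1 →
  ∀ (C : ℤ → Finset α) (u : ℤ → ℝ) (J : Finset ℤ) (G : Finset α → Prop),
    (∀ i j, (i ∈ J ∨ i - 1 ∈ J) → (j ∈ J ∨ j - 1 ∈ J) → i ≠ j → Disjoint (C i) (C j)) →
    (∀ j, (j ∈ J ∨ j - 1 ∈ J) → 1 - (1 - p) ^ (C j).card ≤ u j ∧ 0 < u j ∧ u j ≤ 1) →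
    (∀ j ∈ J, u j ≤ u (j + 1)) →
    (∀ j, (j ∈ J ∨ j - 1 ∈ J) → ∀ A, G A ↔ G (A \ C j)) →
    Pr Ω p (fun A => G A ∧ NG C J A) ≤ Pr Ω p G * ∏ j ∈ J, bet (u (j + 1))

/-- removing a forced set; empty sets; shifting a sum -/
def TTrick : Prop :=
  (∀ (α : Type) [DecidableEq α] (Ω : Finset α) (p : ℝ), 0 ≤ p → p ≤ 1 / 2 →
    (∀ (Z : Finset α) (E : Finset α → Prop),
      Pr Ω p (fun A => Z ⊆ A ∧ E (A \ Z)) ≤ (2 * p) ^ Z.card * Pr Ω p E) ∧
    (∀ X : Finset α, X ⊆ Ω → Pr Ω p (fun A => ∀ x ∈ A, x ∉ X) ≤ (1 - p) ^ X.card)) ∧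
  (∀ (a b : ℤ) (φ : ℤ → ℝ) (c : ℝ), 0 ≤ c → (∀ j, a < j → j ≤ b → φ j ≤ c) →
    ∑ j ∈ Ioc a b, φ j - c ≤ ∑ j ∈ Ioo a b, φ (j + 1)) ∧
  (∀ (ι : Type) (I : Finset ι) (w : ι → ℝ), (∀ i ∈ I, 0 ≤ w i) →
    ∑ U ∈ I.powerset, ∏ i ∈ U, w i ≤ Real.exp (∑ i ∈ I, w i))

/-! ### geometry -/

def TLay : Prop := ∀ (d : ℕ) (B : Bx d) (s : Sd d) (j : ℤ),
  (∀ x, x ∈ lay B s j ↔ kap s x = j ∧ ∀ t : Sd d, t.1 ≠ s.1 → kap t x ≤ B t) ∧
  (Val B → (lay B s j).card = sg (ex B) s.1)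

/-- chains -/
def TChn : Prop := ∀ d T : ℕ,
  (∀ (G : Bx d → Prop) (S R : Bx d), Incr (Chn T G S R) ∧
    ∀ A, Chn T G S R A → S ≤ R ∧ G S) ∧
  (∀ (G : Bx d → Prop) (S R : Bx d) (A : Finset (Pt d)) (K : ℕ), Chn T G S R A → Val S →
    psi S < K → K ≤ psi R → ∃ (S' : Bx d) (B C : Finset (Pt d)), B ⊆ A ∧ C ⊆ A ∧ Disjoint B C ∧
      Chn T G S S' B ∧ Chn T G S' R C ∧ K ≤ psi S' ∧ psi S' ≤ K + T) ∧
  (∀ (K Y : ℕ) (A : Finset (Pt d)) (R : Bx d), 1 ≤ K → Sp K Y A R →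
    (∃ x : Pt d, Chn T (Gd K Y) (ptB x) R A) ∨
    (∃ (Q P : Bx d) (B₁ B₂ C : Finset (Pt d)), B₁ ⊆ A ∧ B₂ ⊆ A ∧ C ⊆ A ∧ Disjoint B₁ B₂ ∧
      Disjoint B₁ C ∧ Disjoint B₂ C ∧ Sp K Y B₁ Q ∧ Sp K Y B₂ P ∧
      Chn T (Gd K Y) (Q ⊔ P) R C ∧ gap Q P ≤ 2 ∧ T ≤ psi P ∧ psi P ≤ psi Q ∧
      psi Q < psi (Q ⊔ P)))

/-- good spanning, or a thin long box -/
def TSp : Prop := ∀ (d K Y : ℕ) (A : Finset (Pt d)) (R : Bx d),
  (Sp K Y A R → Span A R) ∧
  (1 ≤ K → Span A R → Sp K Y A R ∨ ∃ (B : Finset (Pt d)) (R' : Bx d), B ⊆ A ∧ Span B R' ∧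
    R' ≤ R ∧ K ≤ psi R' ∧ psi R' ≤ 2 * K ∧ ∃ i, ex R' i + 1 < Y)

/-- basic facts on paths -/
def TPathA : Prop := ∀ (d : ℕ) (m : ℕ → ℕ) (S R : Bx d) (M : ℕ) (z : ℕ → Bx d),
  Monotone m → Val S → S ≤ R → IsPath m S R M z →
  Monotone z ∧ (∀ t, S ≤ z t ∧ z t ≤ R ∧ Val (z t)) ∧ Monotone (fun t => outB m R (z t)) ∧
  (∀ t, z t ≤ outB m R (z t) ∧ outB m R (z t) ≤ R ∧
    (∀ s, outB m R (z t) s ≤ z t s + m (ex (z t) s.1)) ∧
    ∀ (e : ℕ) (i : Fin d),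
      ex (fun s => outB m R (z t) s + e) i ≤ ex (z t) i + 2 * m (ex (z t) i) + 2 * e) ∧
  (∀ s, Monotone (tm z M s)) ∧ (∀ s j, tm z M s j ≤ M) ∧
  (∀ s j τ, τ ≤ M → z τ s < j → τ ≤ tm z M s j) ∧
  (∀ s j, j ≤ R s → j ≤ z (tm z M s j + 1) s) ∧
  (∀ s j τ, S s < j → j ≤ z τ s → tm z M s j < τ)

/-- number of paths -/
def TPathB : Prop := ∀ (d : ℕ) (m : ℕ → ℕ) (S R : Bx d) (M : ℕ),
  ∃ Z : Finset (ℕ → Bx d), Z.card ≤ (2 * d) ^ M ∧ (∀ z ∈ Z, IsPath m S R M z) ∧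
    ∀ z, IsPath m S R M z → z ∈ Z

/-- cost of a path -/
def TPathC : Prop := ∀ (d : ℕ) (m : ℕ → ℕ) (S R : Bx d) (M : ℕ) (z : ℕ → Bx d)
  (c : (Fin d → ℕ) → Fin d → ℝ) (Φ : (Fin d → ℕ) → ℝ),
  Monotone m → Val S → S ≤ R → IsPath m S R M z →
  (∀ y i, Φ (y + Pi.single i 1) ≤ Φ y + c y i) → (∀ i, Antitone fun y => c y i) →
  Φ (ex R) ≤ Φ (ex S) + ∑ s : Sd d, ∑ j ∈ Ioc (S s) (R s), c (ex (z (tm z M s j))) s.1

/-- every chain follows a path -/
def TWord : Prop := ∀ (d : ℕ) (m : ℕ → ℕ) (N : ℕ → ℝ) (L M T : ℕ) (G : Bx d → Prop)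
  (S R : Bx d) (A : Finset (Pt d)), 1 ≤ d → Monotone N →
  (∀ y, y ≤ L → N y + 1 ≤ N (y + m y)) → (∀ i, ex R i ≤ L) → Val S →
  ∑ i, (N (ex R i) - N (ex S i)) + 2 * d ≤ M → Chn T G S R A →
  ∃ z, IsPath m S R M z ∧ Chn T (Fol m R M z) S R A

/-- extraction of the first crossing event -/
def TExt1 : Prop := ∀ (d : ℕ) (m : ℕ → ℕ) (S R : Bx d) (M T : ℕ) (z : ℕ → Bx d)
  (A : Finset (Pt d)), Monotone m → Val S → IsPath m S R M z → Chn T (Fol m R M z) S R A →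
  Cr1 (admP m T M R z) (reg m R M 0 z) S R A

/-- extraction of the second crossing event, and the system of layers -/
def TExt2 : Prop := ∀ (d : ℕ) (m : ℕ → ℕ) (S R : Bx d) (M T : ℕ) (z : ℕ → Bx d),
  Monotone m → Val S → S ≤ R → IsPath m S R M z →
  (∀ A, Chn T (Fol m R M z) S R A →
    ∀ s, NG (reg m R M (T + 1) z s) (Ioo (S s) (R s)) A) ∧
  (∀ Ω, Full Ω R → Lays Ω S R (cor M z) (reg m R M (T + 1) z))

/-! ### crossing bounds -/

def TCr1 : Prop := ∀ (d : ℕ) (Ω : Finset (Pt d)) (p : ℝ), 0 ≤ p → p ≤ 1 / 2 →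
  ∀ (X : Finset (Dat d)) (C : Sd d → ℤ → Finset (Pt d)) (S R : Bx d) (b : Sd d → ℤ → ℝ),
    (∀ s j, 0 < b s j ∧ b s j ≤ 1) →
    (∀ (s : Sd d) (J : Finset ℤ), J ⊆ Ioo (S s) (R s) →
      Pr Ω p (NG (C s) J) ≤ ∏ j ∈ J, b s (j + 1)) →
    Pr Ω p (Cr1 X C S R) ≤ (∏ s : Sd d, ∏ j ∈ Ioo (S s) (R s), b s (j + 1)) *
      Real.exp (∑ u ∈ X, Pr Ω p (ISp u.1) *
        ∏ s : Sd d, ∏ j ∈ Ioc (u.1 s - u.2 s) (u.1 s), (b s (j + 1))⁻¹)

/-- total weight of the overhanging merges in one cell -/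
def TWs1 : Prop := ∀ (d T : ℕ) (R z o : Bx d) (f : Bx d → ℝ) (b θ : Fin d → ℝ) (c Z p' μ : ℝ),
  Val o → 0 < p' → 1 ≤ μ → (∀ i, (ex o i : ℝ) + 1 ≤ θ i) →
  (∀ s : Sd d, ((o s - z s : ℤ) : ℝ) ≤ μ * Real.sqrt (θ s.1)) →
  (∀ i, 0 < b i ∧ b i ≤ 1) → (∀ i, (b i)⁻¹ ≤ Real.exp c) →
  (∀ i, (b i)⁻¹ ^ 2 ≤ 1 + 1 / (p' * ∏ j ∈ univ.erase i, θ j)) →
  (∀ i, p' * ∏ j ∈ univ.erase i, θ j ≤ Z) → 0 ≤ Z →
  (∀ P : Bx d, Val P → psi P < T →
    0 ≤ f P ∧ f P * Real.exp ((c + 1) * psi P) ≤ p' * (1 / 4) ^ psi P) →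
  ∑ u ∈ adm1 T R z o, f u.1 * ∏ s : Sd d, (b s.1)⁻¹ ^ u.2 s ≤
    2 ^ (3 * d + 4) * d ^ 2 * (2 * d + 5) ^ d * μ ^ 2 * (Z + 1)

/-- helper sites -/
def TCr2a : Prop := ∀ (d : ℕ) (Ω : Finset (Pt d)) (S R : Bx d) (C D : Sd d → ℤ → Finset (Pt d))
  (A : Finset (Pt d)), Lays Ω S R C D → (∀ s, NG (D s) (Ioo (S s) (R s)) A) →
  ∃ Y : Finset ((Sd d × ℤ) × Pt d),
    (∀ y ∈ Y, S y.1.1 < y.1.2 ∧ y.1.2 ≤ R y.1.1 ∧ y.2 ∈ D y.1.1 y.1.2 \ C y.1.1 y.1.2 ∧ y.2 ∈ A) ∧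
    Set.InjOn Prod.fst (Y : Set ((Sd d × ℤ) × Pt d)) ∧
    Set.InjOn Prod.snd (Y : Set ((Sd d × ℤ) × Pt d)) ∧ EY C S R Y (A \ Y.image Prod.snd)

def TCr2b : Prop := ∀ (d : ℕ) (Ω : Finset (Pt d)) (p : ℝ), 0 ≤ p → p ≤ 1 / 2 →
  ∀ (S R : Bx d) (C D : Sd d → ℤ → Finset (Pt d)) (u : Sd d → ℤ → ℝ)
    (Y : Finset ((Sd d × ℤ) × Pt d)), Lays Ω S R C D →
    (∀ s j, S s < j → j ≤ R s → 1 - (1 - p) ^ (C s j).card ≤ u s j ∧ 0 < u s j ∧ u s j ≤ 1) →
    (∀ s j, S s < j → j < R s → u s j ≤ u s (j + 1)) →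
    (∀ y ∈ Y, S y.1.1 < y.1.2 ∧ y.1.2 ≤ R y.1.1 ∧ kap y.1.1 y.2 = y.1.2) →
    Set.InjOn Prod.fst (Y : Set ((Sd d × ℤ) × Pt d)) →
    Pr Ω p (EY C S R Y) ≤ (∏ y ∈ Y, (1 - p) ^ (C y.1.1 y.1.2).card) *
      ∏ s : Sd d, ∏ j ∈ JY S R Y s, bet (u s (j + 1))

def TCr2 : Prop := ∀ (d : ℕ) (Ω : Finset (Pt d)) (p : ℝ), 0 ≤ p → p ≤ 1 / 2 →
  ∀ (S R : Bx d) (C D : Sd d → ℤ → Finset (Pt d)) (u : Sd d → ℤ → ℝ) (b₀ : ℝ),
    Lays Ω S R C D → 0 < b₀ →
    (∀ s j, S s < j → j ≤ R s → 1 - (1 - p) ^ (C s j).card ≤ u s j ∧ 0 < u s j ∧ u s j ≤ 1 ∧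
      b₀ ≤ bet (u s j)) →
    (∀ s j, S s < j → j < R s → u s j ≤ u s (j + 1)) →
    Pr Ω p (fun A => ∀ s, NG (D s) (Ioo (S s) (R s)) A) ≤
      (∏ s : Sd d, ∏ j ∈ Ioo (S s) (R s), bet (u s (j + 1))) *
      Real.exp (∑ s : Sd d, ∑ j ∈ Ioc (S s) (R s),
        ((D s j \ C s j).card : ℝ) * (2 * p * (1 - p) ^ (C s j).card * b₀⁻¹ ^ (4 * d)))

/-! ### analysis -/

/-- properties of the derivative of `gf` -/
def Slp (m : ℝ → ℝ) : Prop :=
  (∀ z z' : ℝ, 0 < z → 0 < z' → gf z + m z * (z' - z) ≤ gf z') ∧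
  (∀ z z' : ℝ, 0 < z → z ≤ z' → m z ≤ m z') ∧ (∀ z : ℝ, 0 < z → m z ≤ 0) ∧
  (∀ z : ℝ, 0 < z → z ≤ 2 / 5 → z * m z ≤ - (1 / 4)) ∧
  (∀ z : ℝ, 0 < z → Real.exp (- (2 * z)) / 2 ≤ - m z) ∧
  (∀ z : ℝ, 0 < z → z * (- m z) ≤ 2 * (1 + z) * Real.exp (- (2 * z))) ∧
  (∀ Z z z' : ℝ, 0 < z' → z' ≤ 9 / 8 * z → 2 * z ≤ Z → gf Z + m Z * (z - Z) ≤ gf z')

def TG : Prop := ∃ m : ℝ → ℝ, Slp m

/-- cells and costs -/
def TNf : Prop := ∀ q : ℝ, 0 < q →
  Monotone (mq q) ∧ Monotone (Nf q) ∧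
  (∀ y : ℕ, (mq q y : ℝ) ≤ 2 * Real.sqrt ((y : ℝ) + 1) * (1 + q * ((y : ℝ) + 1))) ∧
  (∀ y : ℕ, 0 ≤ Nf q y ∧ Nf q y ≤ 12 * Real.sqrt ((y : ℝ) + 1) ∧ Nf q y ≤ 12 / Real.sqrt q) ∧
  (∀ y : ℕ, q ^ 2 * ((y : ℝ) + 1) ≤ 1 → Nf q y + 1 ≤ Nf q (y + mq q y))

def TCost : Prop := ∀ (d : ℕ) (q : ℝ) (v : ℕ) (η : ℝ), 0 < q → 1 ≤ v → q * v ≤ 1 → 0 ≤ η →
  (∀ a b : ℕ, a ≤ b → th q v a + ((b - a : ℕ) : ℝ) ≤ th q v b) ∧
  (∀ F F' : ℝ, 0 < F → F ≤ F' → F ≤ Th η F ∧ Th η F ≤ 21 / 20 * F ∧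
    Th η F * F' ≤ Th η F' * F) ∧
  (∀ i : Fin d, (Monotone fun y : Fin d → ℕ => Fc q v y i) ∧
    (Antitone fun y : Fin d → ℕ => cost q v η y i)) ∧
  (∀ (y : Fin d → ℕ) (i : Fin d), (q * v) ^ (d - 1) ≤ Fc q v y i ∧ 0 ≤ cost q v η y i ∧
    cost q v η y i ≤ gf (Fc q v y i) ∧ gf (Fc q v y i) ≤ cz d q v) ∧
  0 ≤ cz d q v ∧ Real.exp (2 * cz d q v) = 2 / (q * v) ^ (d - 1)

/-- relative size of the frame -/
def TFrame : Prop := ∀ (d : ℕ) (y₀ : ℝ), 2 ≤ d → 0 < y₀ → y₀ ≤ 1 → ∃ A : ℝ, 1 ≤ A ∧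
  ∀ (q : ℝ) (T N : ℕ) (y y' : Fin d → ℕ) (i : Fin d), 0 < q → (T + 1) * Real.sqrt q ≤ 1 →
    A * Real.sqrt q * (1 + q * (2 * N + 1)) ≤ 1 →
    (∀ j, y₀ ≤ q * (y j + 1) ∧ y j ≤ 2 * N ∧ y' j ≤ y j + 2 * mq q (y j) + 2 * (T + 1)) →
    q ^ (d - 1) * ((sg y' i : ℝ) - sg y i) ≤
      A * Real.sqrt q * (q ^ (d - 1) * sg y i) * (1 + q ^ (d - 1) * sg y i)

/-- the frame loss is absorbed by `Th` -/
def TDom : Prop := ∀ B η ρ F F' : ℝ, 0 < F → F ≤ F' → 0 ≤ B → 5 * B ≤ η → 0 ≤ ρ →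
  20 * η ≤ ρ ^ 3 → gf (Th η F') ≤ gf F - B * F * (1 + F) * Real.exp (- F) + 16 * B * ρ

/-! ### the two crossing lemmas -/

def TD1 : Prop := ∀ (d : ℕ) (κ : ℝ), 1 ≤ κ → ∃ C : ℝ, 1 ≤ C ∧
  ∀ (q p : ℝ) (v T : ℕ) (η : ℝ) (Φ : (Fin d → ℕ) → ℝ) (Ω : Finset (Pt d)) (G : Bx d → Prop)
    (S R : Bx d), Bas d q p v η Φ → 8000 * T ≤ v → Val S → S ≤ R →
    q * (psi R + v + 1) ≤ κ → q ^ 2 * (psi R + 1) ≤ 1 →
    Pr Ω p (Chn T G S R) ≤
      Real.exp (Φ (ex S) - Φ (ex R) + C * (NF q R - NF q S) + (C + 2 * d * cz d q v))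

def TD2 : Prop := ∀ (d : ℕ) (y₀ : ℝ), 0 < y₀ → y₀ ≤ 1 → ∃ A C : ℝ, 1 ≤ A ∧ 1 ≤ C ∧
  ∀ (q p : ℝ) (v T N : ℕ) (η ρ : ℝ) (Φ : (Fin d → ℕ) → ℝ) (Ω : Finset (Pt d))
    (G : Bx d → Prop) (S R : Bx d), Bas d q p v η Φ → A * Real.sqrt q ≤ η → 0 ≤ ρ →
    20 * η ≤ ρ ^ 3 → (T + 1) * Real.sqrt q ≤ 1 →
    A * Real.sqrt q * (1 + q * (2 * N + 1)) ≤ 1 → q ^ 2 * (2 * N + 1) ≤ 1 →
    Val S → S ≤ R → psi R ≤ 2 * N → Full Ω R → (∀ i, y₀ ≤ q * (ex S i + 1)) →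
    Pr Ω p (Chn T G S R) ≤
      Real.exp (Φ (ex S) - Φ (ex R) + C * (NF q R - NF q S) + (C + A * Real.sqrt q * ρ * N))

/-- both regimes together -/
def TX : Prop := ∀ (d : ℕ) (Ω : Finset (Pt d)) (p : ℝ), 0 ≤ p → p ≤ 1 / 2 →
  ∀ (T K Y N : ℕ) (V : Bx d → ℝ) (X : ℝ), 0 ≤ X →
    (∀ S R : Bx d, Val S → S ≤ R → psi R ≤ 2 * N → psi R ≤ K + T →
      Pr Ω p (Chn T (Gd K Y) S R) ≤ Real.exp (V R - V S + X)) →
    (∀ S R : Bx d, Val S → S ≤ R → psi R ≤ 2 * N → Full Ω R → (∀ i, Y ≤ ex S i + 1) →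
      Pr Ω p (Chn T (Gd K Y) S R) ≤ Real.exp (V R - V S + X)) →
    ∀ S R : Bx d, Val S → S ≤ R → psi R ≤ 2 * N → Full Ω R →
      Pr Ω p (Chn T (Gd K Y) S R) ≤
        Real.exp (V R - V S + (2 * X + 2 * d * Real.log (2 * N + 1)))

/-- the induction -/
def TInd : Prop := ∀ (d : ℕ) (Ω : Finset (Pt d)) (p : ℝ), 0 ≤ p → p ≤ 1 / 2 →
  ∀ (T K Y N : ℕ) (V : Bx d → ℝ) (X E : ℝ), 1 ≤ K →
    X + 4 * d * Real.log (2 * N + 1) + 1 ≤ E →
    (∀ S R : Bx d, Val S → S ≤ R → psi R ≤ 2 * N → Full Ω R →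
      Pr Ω p (Chn T (Gd K Y) S R) ≤ Real.exp (V R - V S + X)) →
    (∀ x : Pt d, 0 ≤ V (ptB x)) →
    (∀ Q P : Bx d, Val Q → Val P → gap Q P ≤ 2 → T ≤ psi P → psi P ≤ psi Q →
      psi (Q ⊔ P) ≤ 2 * N → Pr Ω p (ISp2 K Y Q) ≤ Real.exp (V Q + E) →
      Pr Ω p (ISp2 K Y P) ≤ Real.exp (V P + E) →
      Pr Ω p (ISp2 K Y Q) * Pr Ω p (ISp2 K Y P) ≤ Real.exp (V (Q ⊔ P))) →
    ∀ R : Bx d, Val R → psi R ≤ 2 * N → Full Ω R → Pr Ω p (ISp2 K Y R) ≤ Real.exp (V R + E)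

/-! ### the potential -/

def TPotA : Prop := ∀ (d : ℕ) (c : (Fin d → ℕ) → Fin d → ℝ),
  (∃ Φ : (Fin d → ℕ) → ℝ, IsPot2 c Φ) ∧
  ∀ (Φ : (Fin d → ℕ) → ℝ) (c₀ : ℝ), IsPot2 c Φ → (∀ i, Antitone fun y => c y i) →
    (∀ y i, 0 ≤ c y i ∧ c y i ≤ c₀) → 0 ≤ c₀ →
    (∀ a y : Fin d → ℕ, a ≤ y → Φ y ≤ Φ a + ∑ i, ((y i - a i : ℕ) : ℝ) * c a i) ∧
    (∀ y : Fin d → ℕ, Φ y ≤ ((∑ i, y i : ℕ) : ℝ) * c₀) ∧
    (∀ (a b y : Fin d → ℕ) (t : ℕ) (γ : ℝ), a ≤ y → b ≤ y → ∑ i, (y i - (a i + b i)) ≤ 2 →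
      0 ≤ γ → t ≤ ∑ i, b i →
      (∀ i (y₁ y₂ : Fin d → ℕ), ∑ k, y₁ k < t → y₁ ≤ y₂ → a ≤ y₂ → c y₂ i + γ ≤ c y₁ i) →
      Φ y ≤ Φ a + Φ b + 2 * c₀ - γ * t)

def TPotB : Prop := ∀ (d : ℕ) (v : ℝ), 1 ≤ d → 0 < v →
  (∀ t : ℕ, (((t : ℝ) + d * v) / d) ^ (d - 1) ≤ Dd d v t ∧
    Dd d v t ≤ (((t : ℝ) + 1 + d * v) / d) ^ (d - 1)) ∧
  ∀ (c : (Fin d → ℕ) → Fin d → ℝ) (Φ : (Fin d → ℕ) → ℝ) (H m : ℝ → ℝ) (l : ℕ → ℝ) (N : ℕ),
    IsPot2 c Φ → (∀ z z' : ℝ, 0 < z → z ≤ z' → m z ≤ m z') → (∀ z : ℝ, 0 < z → m z ≤ 0) →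
    (∀ (y : Fin d → ℕ) (i : Fin d), ∑ k, y k < N →
      H (Dd d v (∑ k, y k)) + m (Dd d v (∑ k, y k)) *
        (∏ j ∈ univ.erase i, ((y j : ℝ) + v) - Dd d v (∑ k, y k)) - l (∑ k, y k) ≤ c y i) →
    ∀ y : Fin d → ℕ, ∑ k, y k ≤ N → ∑ t ∈ range (∑ k, y k), (H (Dd d v t) - l t) ≤ Φ y

def TStepH : Prop := ∀ d : ℕ, 2 ≤ d → ∃ A : ℝ, 0 ≤ A ∧
  ∀ (m : ℝ → ℝ) (q : ℝ) (v N : ℕ) (η : ℝ), Slp m → 0 < q → 1 ≤ v → q * v ≤ 1 → 0 ≤ η →
    160 * d * (1 / Real.sqrt v + q * Real.sqrt (2 * N + v)) ≤ 1 →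
    ∀ (y : Fin d → ℕ) (i : Fin d), ∑ k, y k < 2 * N →
      gf (q ^ (d - 1) * Dd d v (∑ k, y k)) +
        q ^ (d - 1) * m (q ^ (d - 1) * Dd d v (∑ k, y k)) *
          (∏ j ∈ univ.erase i, ((y j : ℝ) + v) - Dd d v (∑ k, y k)) -
        A * ell d q v η (∑ k, y k) ≤ cost q v η y i

def TSumL : Prop := ∀ d : ℕ, 1 ≤ d → ∃ A : ℝ, 0 ≤ A ∧
  ∀ (q : ℝ) (v n : ℕ) (η : ℝ), 0 < q → q ≤ 1 → 1 ≤ v → 0 ≤ η →
    (∀ t, 0 ≤ ell d q v η t) ∧
    ∑ t ∈ range n, ell d q v η t ≤ A * (η / q + 1 / Real.sqrt q)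

/-- lower bound for the potential -/
def TLow : Prop := ∀ d : ℕ, ∃ A : ℝ, 0 ≤ A ∧
  ∀ (q p : ℝ) (v N : ℕ) (η : ℝ) (Φ : (Fin d → ℕ) → ℝ), Bas d q p v η Φ → q * (v + 1) ≤ 1 →
    160 * d * (1 / Real.sqrt v + q * Real.sqrt (2 * N + v)) ≤ 1 →
    d * Real.log (1 / q) ≤ q * N →
    ∀ y : Fin d → ℕ, N ≤ ∑ k, y k → ∑ k, y k ≤ 2 * N →
      d * lam d / q - d ^ 2 * (v + 1) * (1 + Real.log (1 / q)) - d -
        A * (η / q + 1 / Real.sqrt q) ≤ Φ y

/-- gain per step next to a box with two long sides -/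
def TGain : Prop := ∀ (d : ℕ) (q : ℝ) (v : ℕ) (η : ℝ) (a : Fin d → ℕ) (t : ℕ) (j₁ j₂ : Fin d),
  0 < q → 1 ≤ v → q * v ≤ 1 → 0 ≤ η → j₁ ≠ j₂ → 2 * t ≤ a j₁ → 2 * t ≤ a j₂ → v ≤ 300 * t →
  2000 * q * t ≤ 1 → ∀ (i : Fin d) (y₁ y₂ : Fin d → ℕ), ∑ k, y₁ k < t → y₁ ≤ y₂ → a ≤ y₂ →
    cost q v η y₂ i + 1 / 3000 ≤ cost q v η y₁ i

/-- direct bounds: one direction, thin long boxes -/
def TDir : Prop := ∀ (d : ℕ) (Ω : Finset (Pt d)) (p p' : ℝ), 0 ≤ p' → p = 1 - Real.exp (- p') →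
  (∀ (R : Bx d) (i : Fin d) (F : ℝ), 0 < F → p' * sg (ex R) i ≤ F →
    Pr Ω p (ISp R) ≤ Real.exp (- (((ex R i : ℝ) + 1) * gf F))) ∧
  (∀ (R : Bx d) (K Y : ℕ) (j : Fin d), 2 ≤ d → K ≤ psi R → psi R ≤ 2 * K → ex R j + 1 < Y →
    d * Y ≤ K → p' * (Y * (2 * K + 1) ^ (d - 2)) ≤ 1 →
    Pr Ω p (ISp R) ≤ Real.exp (- (gf 1 * K / d)))

/-- seeds and needles -/
def TNeedle : Prop := ∀ (d : ℕ) (q p : ℝ) (v N : ℕ) (η δ : ℝ) (Φ : (Fin d → ℕ) → ℝ)
  (Ω : Finset (Pt d)) (R : Bx d), Bas d q p v η Φ →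
  (∀ i, 100 * sg (ex R) i ≤ v ^ (d - 1) → Pr Ω p (ISp R) ≤ Real.exp (- Φ (ex R) - psi R)) ∧
  (∀ i j : Fin d, i ≠ j → (∀ k, k ≠ i → ex R k ≤ ex R j) → 0 < δ → 2 ≤ v →
    δ * ((ex R j : ℝ) + 1) ^ 2 ≤ ex R i + 1 → v ≤ 100 * (ex R j + 1) →
    800 * d * cz d q v ≤ δ * v → 25 * q ^ 2 * (2 * N + 1) ≤ δ → psi R ≤ 2 * N →
    Pr Ω p (ISp R) ≤ Real.exp (- Φ (ex R)))

/-- merging of two large boxes -/
def TSplit : Prop := ∀ (d : ℕ) (A C q p : ℝ) (N v T K Y : ℕ) (η ρ δ X E : ℝ)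
  (Φ : (Fin d → ℕ) → ℝ) (Ω : Finset (Pt d)), 0 ≤ C → Bas d q p v η Φ →
  Par2 d A C q N v T ρ δ X E →
  ∀ Q P : Bx d, Val Q → Val P → gap Q P ≤ 2 → T ≤ psi P → psi P ≤ psi Q →
    psi (Q ⊔ P) ≤ 2 * N →
    Pr Ω p (ISp2 K Y Q) ≤ Real.exp (- Φ (ex Q) + C * NF q Q + E) →
    Pr Ω p (ISp2 K Y P) ≤ Real.exp (- Φ (ex P) + C * NF q P + E) →
    Pr Ω p (ISp2 K Y Q) * Pr Ω p (ISp2 K Y P) ≤
      Real.exp (- Φ (ex (Q ⊔ P)) + C * NF q (Q ⊔ P))

/-- choice of the parameters -/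
def TPar : Prop := ∀ (d : ℕ) (A C : ℝ), 2 ≤ d → 1 ≤ A → 1 ≤ C → ∃ q₀ : ℝ, 0 < q₀ ∧
  ∀ q : ℝ, 0 < q → q ≤ q₀ → ∀ N : ℕ, q * N ≤ 2 * d * Real.log (1 / q) →
    ∃ (v T : ℕ) (ρ δ X E : ℝ), Par2 d A C q N v T ρ δ X E

/-- bound for critical droplets -/
def TCrit : Prop := ∀ (d : ℕ) (κ y₀ : ℝ), 2 ≤ d → 1 ≤ κ → 0 < y₀ → y₀ ≤ 1 →
  ∃ C q₀ : ℝ, 0 < C ∧ 0 < q₀ ∧ ∀ q : ℝ, 0 < q → q ≤ q₀ →
    ∀ (K Y N : ℕ) (Ω : Finset (Pt d)) (R : Bx d), 1 ≤ K → q * K + 1 ≤ κ → y₀ ≤ q * Y →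
      d * Real.log (1 / q) ≤ q * N → q * N ≤ 2 * d * Real.log (1 / q) →
      Val R → Full Ω R → N ≤ psi R → psi R ≤ 2 * N →
      Pr Ω (1 - Real.exp (- q ^ (d - 1))) (ISp2 K Y R) ≤
        Real.exp (- (d * lam d / q) + C / Real.sqrt q)

/-- percolation probability -/
def TPerc : Prop := ∀ d : ℕ, 2 ≤ d → ∃ C q₀ : ℝ, 0 < C ∧ 0 < q₀ ∧ ∀ q : ℝ, 0 < q → q ≤ q₀ →
  ∀ n : ℕ, 1 / q ^ 2 + 1 ≤ n →
    Pr (univ : Finset (Fin d → Fin n)) (1 - Real.exp (- q ^ (d - 1))) (Perc d n) ≤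
      Real.exp (d * Real.log n - d * lam d / q + C / Real.sqrt q)

/-- the final statement -/
def TFinal : Prop := ∀ d : ℕ, 2 ≤ d → ∃ C : ℝ, ∃ n₀ : ℕ, ∀ n : ℕ, n₀ ≤ n →
  lam d / Real.log n -
    (sInf {p : ℝ | 0 ≤ p ∧ p ≤ 1 ∧
      (1 / 2 : ℝ) ≤ Pr (univ : Finset (Fin d → Fin n)) p (Perc d n)}) ^ (1 / ((d : ℝ) - 1))
    ≤ C / Real.log n ^ (3 / 2 : ℝ)

end Pool.Agent.MP_6d294b_pr

end

section

open Finset

namespace Pool.Agent.MP_6d294b_pr

variable {d : ℕ}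

lemma one_GeoB (R : Bx d) (K : ℕ) (h : ∀ i, ex R i + 1 ≤ K) : (boxes R).card ≤ K ^ (2 * d) := by
  unfold boxes
  rw [Fintype.card_piFinset]
  calc ∏ s : Sd d, (Finset.Icc (- R (opp s)) (R s)).card ≤ ∏ _s : Sd d, K := by
        refine Finset.prod_le_prod' fun s _ => ?_
        obtain ⟨i, t⟩ := s
        have := h i
        rw [Int.card_Icc]
        simp only [ex] at this
        cases t
        · show (R (i, false) + 1 - - R (i, true)).toNat ≤ K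
          omega
        · show (R (i, true) + 1 - - R (i, false)).toNat ≤ K
          omega
    _ = K ^ (2 * d) := by simp [mul_comm]

lemma two_GeoB (hG : SGeoA) (R : Bx d) (D : ℕ) (X : Finset (Bx d))
    (h : ∀ S ∈ X, Val S ∧ S ≤ R ∧ psi R ≤ psi S + D) : X.card ≤ (D + 1) ^ (2 * d) := by
  classical
  have h1 : X.card ≤ (Fintype.piFinset fun _ : Sd d => range (D + 1)).card := by
    refine Finset.card_le_card_of_injOn (fun S s => (R s - S s).toNat) ?_ ?_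
    · intro S hS
      obtain ⟨a1, a2, a3⟩ := h S hS
      have a4 := ((hG d).2.2.2.1 S R a1 a2).2.2.2.1
      rw [Finset.mem_coe, Fintype.mem_piFinset]
      intro s
      have a5 : (R s - S s).toNat ≤ ∑ s, (R s - S s).toNat :=
        Finset.single_le_sum (f := fun s => (R s - S s).toNat)
          (fun _ _ => Nat.zero_le _) (Finset.mem_univ s)
      rw [Finset.mem_range]
      show (R s - S s).toNat < D + 1
      omega
    · intro S hS S' hS' e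
      funext s
      have a1 : S s ≤ R s := (h S hS).2.1 s
      have a2 : S' s ≤ R s := (h S' hS').2.1 s
      have a3 : (R s - S s).toNat = (R s - S' s).toNat := congrFun e s
      omega
  rw [Fintype.card_piFinset] at h1
  simpa [mul_comm] using h1

lemma three_GeoB (n D : ℕ) (X : Finset (Bx d))
    (h : ∀ S ∈ X, Val S ∧ S ≤ cube d n ∧ psi S ≤ D) : X.card ≤ n ^ d * (D + 1) ^ d := by
  classical
  have h1 : X.card ≤
      (Fintype.piFinset fun _ : Fin d => Finset.Ico (0 : ℤ) n ×ˢ range (D + 1)).card := by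
    refine Finset.card_le_card_of_injOn (fun S i => (S (i, true), ex S i)) ?_ ?_
    · intro S hS
      obtain ⟨a1, a2, a3⟩ := h S hS
      rw [Finset.mem_coe, Fintype.mem_piFinset]
      intro i
      have a5 : ex S i ≤ psi S :=
        Finset.single_le_sum (f := fun i => ex S i) (fun _ _ => Nat.zero_le _) (Finset.mem_univ i)
      have a6 : S (i, true) ≤ (n : ℤ) - 1 := a2 (i, true)
      have a7 : S (i, false) ≤ 0 := a2 (i, false)
      have a8 := a1 i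
      rw [Finset.mem_product, Finset.mem_Ico, Finset.mem_range]
      refine ⟨⟨?_, ?_⟩, ?_⟩
      · show 0 ≤ S (i, true)
        omega
      · show S (i, true) < n
        omega
      · show ex S i < D + 1
        omega
    · intro S hS S' hS' e
      funext s
      obtain ⟨i, t⟩ := s
      have a1 := (h S hS).1 i
      have a2 := (h S' hS').1 i
      have a3 := congrFun e i
      simp only [Prod.mk.injEq, ex] at a3
      cases t <;> omega
  rw [Fintype.card_piFinset] at h1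
  simpa [mul_pow] using h1

lemma four_GeoB (R : Bx d) (X : Finset (Pt d)) (h : ∀ x ∈ X, InB x R) :
    X.card ≤ ∏ i, (ex R i + 1) := by
  classical
  have h1 : X ⊆ Fintype.piFinset fun i => Finset.Icc (- R (i, false)) (R (i, true)) := by
    intro x hx
    rw [Fintype.mem_piFinset]
    intro i
    have a1 : x i ≤ R (i, true) := h x hx (i, true)
    have a2 : - x i ≤ R (i, false) := h x hx (i, false)
    rw [Finset.mem_Icc]
    omega
  refine (Finset.card_le_card h1).trans ?_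
  rw [Fintype.card_piFinset]
  refine Finset.prod_le_prod' fun i _ => ?_
  rw [Int.card_Icc]
  simp only [ex]
  omega

lemma five_GeoB (R : Bx d) (s : Sd d) (j : ℤ) (X : Finset (Pt d))
    (h : ∀ x ∈ X, InB x R ∧ kap s x = j) : X.card ≤ sg (ex R) s.1 := by
  classical
  have h1 : X ⊆ Fintype.piFinset fun i => if i = s.1 then {if s.2 then j else - j} else
      Finset.Icc (- R (i, false)) (R (i, true)) := by
    intro x hx
    rw [Fintype.mem_piFinset]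
    intro i
    by_cases hi : i = s.1
    · rw [if_pos hi, Finset.mem_singleton, hi]
      have a1 := (h x hx).2
      unfold kap at a1
      split_ifs at a1 ⊢ <;> omega
    · have a1 : x i ≤ R (i, true) := (h x hx).1 (i, true)
      have a2 : - x i ≤ R (i, false) := (h x hx).1 (i, false)
      rw [if_neg hi, Finset.mem_Icc]
      omega
  refine (Finset.card_le_card h1).trans ?_
  rw [Fintype.card_piFinset, ← Finset.mul_prod_erase univ _ (Finset.mem_univ s.1), if_pos rfl,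
    Finset.card_singleton, one_mul]
  unfold sg
  refine Finset.prod_le_prod' fun i hi => ?_
  rw [if_neg (Finset.mem_erase.1 hi).1, Int.card_Icc]
  simp only [ex]
  omega

theorem sGeoB (hG : SGeoA) : SGeoB := fun _ =>
  ⟨one_GeoB, two_GeoB hG, three_GeoB, four_GeoB, five_GeoB⟩

end Pool.Agent.MP_6d294b_pr

end

section

open Finset

namespace Pool.Agent.MP_6d294b_pr

variable {d T : ℕ} {G : Bx d → Prop} {S R : Bx d}

theorem incr_FChn : Incr (Chn T G S R) := by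
  rintro A B h ⟨k, Q, P, W, h0, hk, hG, hW, hD⟩
  exact ⟨k, Q, P, W, h0, hk, hG, fun j hj => ⟨(hW j hj).1.trans h, (hW j hj).2⟩, hD⟩

theorem mono_FChn {k : ℕ} {Q P : ℕ → Bx d} (h : ∀ j, j < k → Q (j + 1) = Q j ⊔ P j) :
    ∀ j, j ≤ k → Q 0 ≤ Q j := by
  intro j
  induction j with
  | zero => exact fun _ => le_rfl
  | succ j ih => exact fun hj => (ih (by omega)).trans (h j hj ▸ le_sup_left)

theorem nil_FChn (h : G S) (A : Finset (Pt d)) : Chn T G S S A :=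
  ⟨0, fun _ => S, fun _ => S, fun _ => ∅, rfl, rfl, fun _ _ => h, fun _ hj => absurd hj (by omega),
    fun _ _ hj => absurd hj (by omega)⟩

theorem app_FChn {Q P : Bx d} {B C : Finset (Pt d)} (h : Chn T G S Q C) (hB : Span B P)
    (hd : Disjoint C B) (hg : gap Q P ≤ 2) (hp : psi P < T) (hG : G (Q ⊔ P)) :
    Chn T G S (Q ⊔ P) (C ∪ B) := by
  obtain ⟨k, Q', P', W, h0, hk, hG', hW, hD⟩ := h
  refine ⟨k + 1, fun j => if j ≤ k then Q' j else Q ⊔ P, fun j => if j < k then P' j else P,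
    fun j => if j < k then W j else B, by simpa using h0, by simp, fun j _ => ?_, fun j hj => ?_,
    fun i j hi hj hij => ?_⟩
  · simp only []
    split_ifs with e
    exacts [hG' j e, hG]
  · by_cases e : j < k
    · simp only [e, e.le, Nat.succ_le_of_lt e, if_true]
      exact ⟨(hW j e).1.trans subset_union_left, (hW j e).2⟩
    · obtain rfl : j = k := by omega
      simp only [e, le_refl, if_true, if_false, hk, Nat.not_succ_le_self]
      exact ⟨subset_union_right, hB, hg, hp, trivial⟩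
  · simp only []
    split_ifs with e e' e'
    · exact hD i j e e' hij
    · exact hd.mono_left (hW i e).1
    · exact (hd.mono_left (hW j e').1).symm
    · omega

theorem cut_FChn {A : Finset (Pt d)} {K : ℕ} (h : Chn T G S R A) (hS : Val S) (h1 : psi S < K)
    (h2 : K ≤ psi R) : ∃ (S' : Bx d) (B C : Finset (Pt d)), B ⊆ A ∧ C ⊆ A ∧ Disjoint B C ∧
      Chn T G S S' B ∧ Chn T G S' R C ∧ K ≤ psi S' ∧ psi S' ≤ K + T := by
  classical
  obtain ⟨k, Q, P, W, h0, hk, hG, hW, hD⟩ := h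
  have ex : ∃ j, K ≤ psi (Q j) := ⟨k, hk ▸ h2⟩
  have jk : Nat.find ex ≤ k := Nat.find_min' ex (hk ▸ h2)
  have hj := Nat.find_spec ex
  have hm := fun i => Nat.find_min ex (m := i)
  generalize Nat.find ex = j at jk hj hm
  refine ⟨Q j, (range j).biUnion W, (Ico j k).biUnion W,
    biUnion_subset.2 fun i hi => (hW i (by have := mem_range.1 hi; omega)).1,
    biUnion_subset.2 fun i hi => (hW i (mem_Ico.1 hi).2).1, ?_,
    ⟨j, Q, P, W, h0, rfl, fun i hi => hG i (by omega), fun i hi =>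
      ⟨subset_biUnion_of_mem W (mem_range.2 hi), (hW i (by omega)).2⟩,
      fun a b ha hb => hD a b (by omega) (by omega)⟩,
    ⟨k - j, fun i => Q (j + i), fun i => P (j + i), fun i => W (j + i), rfl,
      by simp only [Nat.add_sub_cancel' jk, hk], fun i hi => hG _ (by omega), fun i hi =>
      ⟨subset_biUnion_of_mem W (mem_Ico.2 ⟨by omega, by omega⟩), (hW (j + i) (by omega)).2⟩,
      fun a b ha hb hab => hD _ _ (by omega) (by omega) (by omega)⟩, hj, ?_⟩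
  · rw [disjoint_biUnion_left]
    intro a ha
    rw [disjoint_biUnion_right]
    intro b hb
    have := mem_range.1 ha
    have := mem_Ico.1 hb
    exact hD a b (by omega) (by omega) (by omega)
  · rcases j with _ | j
    · rw [h0] at hj
      omega
    · obtain ⟨-, a, b, c, e⟩ := hW j (by omega)
      have v := ((sGeoA d).2.2.2.1 _ _ (h0 ▸ hS : Val (Q 0))
        (mono_FChn (fun i hi => (hW i hi).2.2.2.2) j (by omega))).1
      have := ((sGeoA d).2.2.2.2 _ _ v ((sGeoA d).1 _ _ a).1).2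
      have := hm j (by omega)
      rw [e]
      omega

/-- the conclusion of the third part -/
def Alt_FChn (T K Y : ℕ) (A : Finset (Pt d)) (R : Bx d) : Prop :=
  (∃ x : Pt d, Chn T (Gd K Y) (ptB x) R A) ∨
    (∃ (Q P : Bx d) (B₁ B₂ C : Finset (Pt d)), B₁ ⊆ A ∧ B₂ ⊆ A ∧ C ⊆ A ∧ Disjoint B₁ B₂ ∧
      Disjoint B₁ C ∧ Disjoint B₂ C ∧ Sp K Y B₁ Q ∧ Sp K Y B₂ P ∧
      Chn T (Gd K Y) (Q ⊔ P) R C ∧ gap Q P ≤ 2 ∧ T ≤ psi P ∧ psi P ≤ psi Q ∧
      psi Q < psi (Q ⊔ P))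

theorem step_FChn (h1 : TSp) {K Y : ℕ} {A B : Finset (Pt d)} {Q P : Bx d} (hQ : Sp K Y A Q)
    (hP : Sp K Y B P) (hd : Disjoint A B) (hg : gap Q P ≤ 2) (hG : Gd K Y (Q ⊔ P))
    (hl : psi P ≤ psi Q) (ih : Alt_FChn T K Y A Q) : Alt_FChn T K Y (A ∪ B) (Q ⊔ P) := by
  have sP := (h1 d K Y B P).1 hP
  have e := ((sGeoA d).2.2.2.1 _ _ ((sGeoA d).1 _ _ ((h1 d K Y A Q).1 hQ)).1
    (le_sup_left : Q ≤ Q ⊔ P)).2.2.2.1
  have l : A ⊆ A ∪ B := subset_union_left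
  by_cases c : psi Q < psi (Q ⊔ P)
  · by_cases t : T ≤ psi P
    · exact .inr ⟨Q, P, A, B, ∅, l, subset_union_right, empty_subset _, hd, disjoint_empty_right _,
        disjoint_empty_right _, hQ, hP, nil_FChn hG _, hg, t, hl, c⟩
    · rcases ih with ⟨x, h⟩ | ⟨Q', P', B₁, B₂, C, a1, a2, a3, a4, a5, a6, a7, a8, a9, a⟩
      · exact .inl ⟨x, app_FChn h sP hd hg (not_le.1 t) hG⟩
      · exact .inr ⟨Q', P', B₁, B₂, C ∪ B, a1.trans l, a2.trans l, union_subset_union_left a3, a4,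
          disjoint_union_right.2 ⟨a5, hd.mono_left a1⟩,
          disjoint_union_right.2 ⟨a6, hd.mono_left a2⟩, a7, a8,
          app_FChn a9 sP (hd.mono_left a3) hg (not_le.1 t) hG, a⟩
  · have z : Q ⊔ P = Q := le_antisymm (fun s => by
      have := (sum_eq_zero_iff.1 (show ∑ s, ((Q ⊔ P) s - Q s).toNat = 0 by omega)) s (mem_univ s)
      exact sub_nonpos.1 (Int.toNat_eq_zero.1 this)) le_sup_left
    rw [z]
    rcases ih with ⟨x, h⟩ | ⟨Q', P', B₁, B₂, C, a1, a2, a3, a⟩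
    · exact .inl ⟨x, incr_FChn _ _ l h⟩
    · exact .inr ⟨Q', P', B₁, B₂, C, a1.trans l, a2.trans l, a3.trans l, a⟩

theorem tChn (h1 : TSp) : TChn := by
  intro d T
  refine ⟨fun G S R => ⟨incr_FChn, ?_⟩, fun G S R A K => cut_FChn, fun K Y A R hK h => ?_⟩
  · rintro A ⟨k, Q, P, W, h0, hk, hG, hW, -⟩
    exact ⟨h0 ▸ hk ▸ mono_FChn (fun i hi => (hW i hi).2.2.2.2) k le_rfl, h0 ▸ hG 0 (by omega)⟩
  · change Alt_FChn T K Y A R
    induction h with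
    | pt x => exact .inl ⟨x, nil_FChn (.inl (by simpa [psi, ex, ptB, kap] using Nat.lt_of_succ_le hK)) _⟩
    | @merge A B Q P hQ hP hd hg hG iQ iP =>
      rcases le_total (psi P) (psi Q) with l | l
      · exact step_FChn h1 hQ hP hd hg hG l iQ
      · rw [union_comm, sup_comm]
        exact step_FChn h1 hP hQ hd.symm ((sGeoA d).2.1 Q P ▸ hg) (sup_comm Q P ▸ hG) l iP

end Pool.Agent.MP_6d294b_pr

end

section

open Finset

namespace Pool.Agent.MP_6d294b_pr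

variable {d : ℕ}

lemma side_FExt2 {s t : Sd d} (h : t.1 = s.1) : t = s ∨ t = opp s := by
  obtain ⟨i, a⟩ := s
  obtain ⟨j, b⟩ := t
  dsimp only at h
  subst h
  cases a <;> cases b <;> simp [opp]

lemma val_FExt2 {S : Bx d} (h : Val S) (s : Sd d) : 0 ≤ S s + S (opp s) := by
  obtain ⟨i, a⟩ := s
  have := h i
  cases a
  · rw [opp_false_GeoA]; omega
  · rw [opp_true_GeoA]; omega

lemma psi_FExt2 (P : Bx d) (s : Sd d) : P s + P (opp s) ≤ psi P := by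
  have h : ex P s.1 ≤ psi P :=
    Finset.single_le_sum (f := fun i => ex P i) (fun _ _ => Nat.zero_le _) (Finset.mem_univ _)
  obtain ⟨i, a⟩ := s
  unfold ex at h
  dsimp only at h
  cases a
  · rw [opp_false_GeoA]; omega
  · rw [opp_true_GeoA]; omega

lemma gap_FExt2 (Q P : Bx d) (s : Sd d) : - P (opp s) - Q s ≤ gap Q P := by
  have g1 : (- P (opp s) - Q s).toNat ≤ gap Q P :=
    Finset.single_le_sum (f := fun s => (- P (opp s) - Q s).toNat)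
      (fun _ _ => Nat.zero_le _) (Finset.mem_univ s)
  omega

lemma ivt_FExt2 (f : ℕ → ℤ) (j : ℤ) (k : ℕ) (h0 : f 0 < j) (hk : j ≤ f k) :
    ∃ i, i < k ∧ f i < j ∧ j ≤ f (i + 1) := by
  induction k with
  | zero => omega
  | succ k ih =>
    by_cases h : j ≤ f k
    · obtain ⟨i, a, b⟩ := ih h
      exact ⟨i, by omega, b⟩
    · exact ⟨k, by omega, by omega, hk⟩

theorem tExt2 (h3 : TLay) (h4 : TChn) (h5 : TPathA) : TExt2 := by
  intro d m S R M T z hm hS hSR hz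
  obtain ⟨-, p2, p3, -, -, -, p7, -, p9⟩ := h5 d m S R M z hm hS hSR hz
  refine ⟨fun A hA s j hj => ?_, fun Ω hΩ => ⟨fun s j h1 h2 => ⟨fun x hx => hΩ x fun t => ?_,
    fun x hx => (((h3 d _ s j).1 x).1 hx).1, fun x hx => (((h3 d _ s j).1 x).1 hx).1⟩,
    fun s j s' j' a1 a2 a3 a4 hne => Finset.disjoint_left.2 fun x hx hx' => ?_⟩⟩
  · obtain ⟨k, Q, P, W, q0, qk, qG, qW, -⟩ := hA
    rw [Finset.mem_Ioo] at hj
    obtain ⟨i, hi, b1, b2⟩ := ivt_FExt2 (fun i => Q i s) j k (by rw [q0]; exact hj.1)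
      (by rw [qk]; exact hj.2.le)
    obtain ⟨c1, c2, c3, c4, c5⟩ := qW i hi
    obtain ⟨τ, t1, t2, t3⟩ := qG i hi.le
    obtain ⟨-, e2, -, e4⟩ := span_GeoA _ _ c2
    rw [c5, sup_GeoA] at b2
    have g1 := gap_FExt2 (Q i) (P i) s
    have key : ∀ x ∈ W i, j ≤ kap s x → x ∈ reg m R M (T + 1) z s (kap s x) := by
      intro x hx hjx
      refine ((h3 d _ s _).1 x).2 ⟨rfl, fun t _ => ?_⟩
      have f1 : z τ s ≤ Q i s := t2 s
      have f2 : outB m R (z τ) t ≤ outB m R (z (tm z M s (kap s x))) t :=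
        p3 (p7 s (kap s x) τ t1 (by omega)) t
      have f3 : Q i t ≤ outB m R (z τ) t := t3 t
      have f4 := e2 x hx t
      have f5 := psi_FExt2 (P i) t
      have f6 := gap_FExt2 (Q i) (P i) t
      push_cast
      omega
    obtain ⟨x, hx, h | h⟩ := e4 s j (by omega) (by omega)
    · exact Or.inl ⟨x, c1 hx, h ▸ key x hx (by omega)⟩
    · exact Or.inr ⟨x, c1 hx, h ▸ key x hx (by omega)⟩
  · obtain ⟨b1, b2⟩ := ((h3 d _ s j).1 x).1 hx
    by_cases ht : t.1 = s.1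
    · rcases side_FExt2 ht with rfl | rfl
      · omega
      · have c1 := val_FExt2 hS s
        have c2 : S (opp s) ≤ R (opp s) := hSR _
        rw [kap_opp_GeoA]
        omega
    · exact (b2 t ht).trans ((p2 _).2.1 t)
  · obtain ⟨b1, b2⟩ := ((h3 d _ s j).1 x).1 hx
    obtain ⟨c1, c2⟩ := ((h3 d _ s' j').1 x).1 hx'
    by_cases ht : s'.1 = s.1
    · rcases side_FExt2 ht with rfl | rfl
      · exact hne (by rw [← b1, ← c1])
      · have e1 := val_FExt2 hS s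
        rw [kap_opp_GeoA] at c1
        omega
    · have e1 := p9 s' j' _ a3 (c1 ▸ b2 s' ht)
      have e2 := p9 s j _ a1 (b1 ▸ c2 s fun h => ht h.symm)
      omega

end Pool.Agent.MP_6d294b_pr

end

section

open Finset

namespace Pool.Agent.MP_6d294b_pr

theorem mono_FNf {r x w : ℝ} (hr : 0 ≤ r) (hx : 0 ≤ x) (h : x ≤ w) :
    12 * x / (1 + r * x) ≤ 12 * w / (1 + r * w) := by
  have hw : 0 ≤ w := hx.trans h
  rw [div_le_div_iff₀ (by positivity) (by positivity)]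
  nlinarith

theorem step_FNf {r x w : ℝ} (hr : 0 ≤ r) (hx : 1 ≤ x) (hw : 0 ≤ w) (h1 : r ^ 2 * x ≤ 1)
    (h2 : w ^ 2 = x ^ 2 + x * (1 + r ^ 2 * x ^ 2)) :
    12 * x / (1 + r * x) + 1 ≤ 12 * w / (1 + r * w) := by
  have x0 : 0 < x := by linarith
  have a1 : w ^ 2 ≤ (7 / 4 * x) ^ 2 := by
    have : r ^ 2 * x * x ^ 2 ≤ 1 * x ^ 2 := mul_le_mul_of_nonneg_right h1 (sq_nonneg x)
    nlinarith
  have a2 : w ≤ 7 / 4 * x := (pow_le_pow_iff_left₀ hw (by positivity) two_ne_zero).1 a1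
  have p0 : 0 < 1 + r ^ 2 * x ^ 2 := by positivity
  have a0 : x ≤ w := (pow_le_pow_iff_left₀ x0.le hw two_ne_zero).1 (by nlinarith [mul_pos x0 p0])
  have a3 : 4 * (1 + r ^ 2 * x ^ 2) ≤ 11 * (w - x) := by
    have e1 : (w - x) * (w + x) ≤ (w - x) * (11 / 4 * x) :=
      mul_le_mul_of_nonneg_left (by linarith) (by linarith)
    refine le_of_mul_le_mul_left ?_ x0
    nlinarith
  have a4 : (1 + r * x) * (1 + r * w) ≤ 7 / 2 * (1 + r ^ 2 * x ^ 2) := by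
    have e1 : r * w ≤ r * (7 / 4 * x) := mul_le_mul_of_nonneg_left a2 hr
    have e0 : 0 ≤ r * x := by positivity
    have e2 : (1 + r * x) * (1 + r * w) ≤ (1 + r * x) * (7 / 4 * (1 + r * x)) :=
      mul_le_mul_of_nonneg_left (by linarith) (by positivity)
    nlinarith [sq_nonneg (1 - r * x)]
  rw [div_add_one (by positivity), div_le_div_iff₀ (by positivity) (by positivity)]
  nlinarith

theorem tNf : TNf := by
  intro q hq
  have r0 : 0 < Real.sqrt q := Real.sqrt_pos.2 hq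
  have hN : ∀ y : ℕ, Nf q y =
      12 * Real.sqrt ((y : ℝ) + 1) / (1 + Real.sqrt q * Real.sqrt ((y : ℝ) + 1)) := fun y => by
    rw [Nf, Real.sqrt_mul hq.le]
  have x1 : ∀ y : ℕ, 1 ≤ Real.sqrt ((y : ℝ) + 1) := fun y =>
    Real.one_le_sqrt.2 (by linarith [Nat.cast_nonneg (α := ℝ) y])
  refine ⟨fun a b h => Nat.ceil_mono ?_, fun a b h => ?_, fun y => ?_, fun y => ?_, fun y h => ?_⟩
  · have : (a : ℝ) ≤ b := Nat.cast_le.2 h
    gcongr
  · have : (a : ℝ) ≤ b := Nat.cast_le.2 h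
    rw [hN, hN]
    exact mono_FNf r0.le (Real.sqrt_nonneg _) (by gcongr)
  · have a := x1 y
    have b : 0 ≤ q * ((y : ℝ) + 1) := by positivity
    have c := Nat.ceil_lt_add_one
      (show 0 ≤ Real.sqrt ((y : ℝ) + 1) * (1 + q * ((y : ℝ) + 1)) by positivity)
    rw [mq]
    nlinarith
  · have a := x1 y
    rw [hN]
    refine ⟨by positivity, div_le_self (by positivity) ?_, ?_⟩
    · have : 0 ≤ Real.sqrt q * Real.sqrt ((y : ℝ) + 1) := by positivity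
      linarith
    · rw [div_le_div_iff₀ (by positivity) r0]
      nlinarith
  · have a := x1 y
    have y0 : (0 : ℝ) ≤ (y : ℝ) + 1 := by positivity
    have e1 : Real.sqrt q ^ 2 = q := Real.sq_sqrt hq.le
    have e2 : Real.sqrt ((y : ℝ) + 1) ^ 2 = y + 1 := Real.sq_sqrt y0
    have c := Nat.le_ceil (Real.sqrt ((y : ℝ) + 1) * (1 + q * ((y : ℝ) + 1)))
    rw [hN, hN]
    refine (step_FNf r0.le a (Real.sqrt_nonneg _) ?_ (Real.sq_sqrt (by positivity))).trans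
      (mono_FNf r0.le (Real.sqrt_nonneg _) (Real.sqrt_le_sqrt ?_))
    · rw [e1]
      refine (pow_le_one_iff_of_nonneg (by positivity) two_ne_zero).1 ?_
      rw [mul_pow, e2]
      exact h
    · rw [e1, e2, mq]
      push_cast
      linarith

end Pool.Agent.MP_6d294b_pr

end

section

open Finset

namespace Pool.Agent.MP_6d294b_pr

theorem fix_FPathB {d : ℕ} (m : ℕ → ℕ) (R : Bx d) (s : Sd d) :
    Function.update R s (outB m R R s) = R := by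
  have h : outB m R R s = R s := by
    unfold outB
    omega
  rw [h, Function.update_eq_self]

theorem late_FPathB {d : ℕ} {m : ℕ → ℕ} {S R : Bx d} {M : ℕ} {z : ℕ → Bx d}
    (h : IsPath m S R M z) (t : ℕ) (ht : M ≤ t) : z t = R := by
  induction t, ht using Nat.le_induction with
  | base => exact h.2.1
  | succ t _ ih =>
    obtain ⟨s, hs⟩ := h.2.2 t
    rw [hs, ih, fix_FPathB]

theorem tPathB : TPathB := by
  classical
  intro d m S R M
  let f : {z : ℕ → Bx d // IsPath m S R M z} → Fin M → Sd d :=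
    fun z t => Classical.choose (z.2.2.2 t)
  have hf : Function.Injective f := by
    intro z z' h
    have h1 : ∀ t, t ≤ M → z.1 t = z'.1 t := by
      intro t
      induction t with
      | zero => intro _; rw [z.2.1, z'.2.1]
      | succ t ih =>
        intro ht
        have h2 : Classical.choose (z.2.2.2 t) = Classical.choose (z'.2.2.2 t) :=
          congrFun h ⟨t, ht⟩
        rw [Classical.choose_spec (z.2.2.2 t), Classical.choose_spec (z'.2.2.2 t), h2,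
          ih (Nat.le_of_succ_le ht)]
    refine Subtype.ext (funext fun t => ?_)
    rcases le_total t M with ht | ht
    · exact h1 t ht
    · rw [late_FPathB z.2 t ht, late_FPathB z'.2 t ht]
  have := Finite.of_injective f hf
  have := Fintype.ofFinite {z : ℕ → Bx d // IsPath m S R M z}
  refine ⟨univ.image fun z : {z : ℕ → Bx d // IsPath m S R M z} => z.1, ?_, fun z hz => ?_,
    fun z hz => mem_image.mpr ⟨⟨z, hz⟩, mem_univ _, rfl⟩⟩
  · refine card_image_le.trans ((Fintype.card_le_of_injective f hf).trans (le_of_eq ?_))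
    simp [mul_comm]
  · obtain ⟨y, -, rfl⟩ := mem_image.mp hz
    exact y.2

theorem tLay : TLay := by
  intro d B s j
  constructor
  · intro x
    unfold lay
    rw [Fintype.mem_piFinset]
    constructor
    · intro h
      refine ⟨?_, fun t ht => ?_⟩
      · have h1 := h s.1
        rw [if_pos rfl, mem_singleton] at h1
        unfold kap
        rw [h1]
        split_ifs <;> simp
      · have h1 := h t.1
        rw [if_neg ht, mem_Icc] at h1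
        obtain ⟨i, b⟩ := t
        cases b
        · show -x i ≤ B (i, false)
          have : -B (i, false) ≤ x i := h1.1
          omega
        · exact h1.2
    · rintro ⟨h1, h2⟩ k
      split_ifs with hk hs
      · unfold kap at h1
        rw [if_pos hs] at h1
        rw [mem_singleton, hk, h1]
      · unfold kap at h1
        rw [if_neg hs] at h1
        rw [mem_singleton, hk, ← h1, neg_neg]
      · have h3 : -x k ≤ B (k, false) := h2 (k, false) hk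
        have h4 : x k ≤ B (k, true) := h2 (k, true) hk
        exact mem_Icc.mpr ⟨by omega, h4⟩
  · intro hB
    unfold lay sg
    rw [Fintype.card_piFinset, ← mul_prod_erase univ _ (mem_univ s.1), if_pos rfl, card_singleton,
      one_mul]
    refine prod_congr rfl fun k hk => ?_
    have h1 := hB k
    rw [if_neg (ne_of_mem_erase hk), Int.card_Icc]
    unfold ex
    omega

end Pool.Agent.MP_6d294b_pr

end

section

open Finset

namespace Pool.Agent.MP_6d294b_pr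

variable {d : ℕ}

/-- the points of one layer of a box -/
noncomputable def lay_Good (R : Bx d) (s : Sd d) (j : ℤ) : Finset (Pt d) :=
  (Fintype.piFinset fun i => Finset.Icc (- R (i, false)) (R (i, true))).filter fun x => kap s x = j

theorem mem_lay_Good {R : Bx d} {s : Sd d} {j : ℤ} {x : Pt d} :
    x ∈ lay_Good R s j ↔ InB x R ∧ kap s x = j := by
  simp only [lay_Good, mem_filter, Fintype.mem_piFinset, mem_Icc, InB]
  refine and_congr_left fun _ => ⟨fun h t => ?_, fun h i => ⟨?_, ?_⟩⟩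
  · obtain ⟨i, b⟩ := t
    have := h i
    cases b <;> simp only [kap] <;> simp <;> omega
  · have := h (i, false)
    simp only [kap] at this
    simp at this
    omega
  · have := h (i, true)
    simpa [kap] using this

theorem occ_inter_Good (R : Bx d) (s : Sd d) (j : ℤ) (A : Finset (Pt d)) :
    Occ R s j A ↔ Occ R s j (A ∩ lay_Good R s j) :=
  ⟨fun ⟨x, h1, h2⟩ => ⟨x, mem_inter.2 ⟨h1, mem_lay_Good.2 h2⟩, h2⟩,
    fun ⟨x, h1, h2⟩ => ⟨x, (mem_inter.1 h1).1, h2⟩⟩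

theorem occ_sdiff_Good (R : Bx d) (s : Sd d) {j k : ℤ} (h : j ≠ k) (A : Finset (Pt d)) :
    Occ R s j A ↔ Occ R s j (A \ lay_Good R s k) :=
  ⟨fun ⟨x, h1, h2⟩ => ⟨x, mem_sdiff.2 ⟨h1, fun h3 => h (h2.2.symm.trans (mem_lay_Good.1 h3).2)⟩, h2⟩,
    fun ⟨x, h1, h2⟩ => ⟨x, (mem_sdiff.1 h1).1, h2⟩⟩

theorem good_sdiff_Good (R : Bx d) (s : Sd d) {J : Finset ℤ} {k : ℤ} (h : k ∉ J)
    (A : Finset (Pt d)) : Good R s J A ↔ Good R s J (A \ lay_Good R s k) := by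
  refine forall₂_congr fun j hj => or_congr (occ_sdiff_Good R s (ne_of_mem_of_not_mem hj h) A)
    (and_congr_right fun h1 => occ_sdiff_Good R s (ne_of_mem_of_not_mem h1 h) A)

theorem sGood (hA : SPrA) (hP : SPrB) (hB : SGeoB) (hb : SBet) : SGood := by
  intro d Ω p p0 p1 R s u hu u1 J
  obtain ⟨a0, a1, a2, a3, -, -⟩ := hA (Pt d) Ω p p0 p1
  obtain ⟨b1, b2, b3, -⟩ := hP (Pt d) Ω p p0 p1
  have u0 : 0 ≤ u := le_trans (sub_nonneg.2 (pow_le_one₀ (by linarith) (by linarith))) hu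
  obtain ⟨c1, -, c3⟩ := hb.1 u u0 u1
  have c0 : 0 ≤ bet u := u0.trans c1
  have occ : ∀ j, Pr Ω p (Occ R s j) ≤ u := fun j => by
    have h1 := b3 (lay_Good R s j)
    have h2 := b2 fun A => A ∩ lay_Good R s j = ∅
    have h3 := a2 (Occ R s j) (fun A => ¬ A ∩ lay_Good R s j = ∅) fun A _ ⟨x, h1, h2⟩ h =>
      notMem_empty x (h ▸ mem_inter.2 ⟨h1, mem_lay_Good.2 h2⟩)
    have h4 := (hB d).2.2.2.2 R s j (lay_Good R s j) fun x hx => mem_lay_Good.1 hx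
    have h5 : (1 - p) ^ sg (ex R) s.1 ≤ (1 - p) ^ (lay_Good R s j).card :=
      pow_le_pow_of_le_one (by linarith) (by linarith) h4
    linarith
  induction J using Finset.strongInduction with
  | H J ih =>
    rcases J.eq_empty_or_nonempty with rfl | hJ
    · simpa using a1 _
    have j0 := J.min'_mem hJ
    have jm : ∀ j ∈ J, J.min' hJ ≤ j := fun j hj => J.min'_le j hj
    generalize J.min' hJ = k at j0 jm
    have g1 : ∀ A, Good R s J A → Good R s (J.erase k) A := fun A h j hj =>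
      (h j (mem_of_mem_erase hj)).imp_right fun h1 =>
        ⟨mem_erase.2 ⟨by have := jm j (mem_of_mem_erase hj); omega, h1.1⟩, h1.2⟩
    have e1 := b1 (lay_Good R s k) (Occ R s k) (Good R s (J.erase k)) (occ_inter_Good R s k)
      (good_sdiff_Good R s (notMem_erase k J))
    have i1 := ih (J.erase k) (erase_ssubset j0)
    have n1 := card_erase_add_one j0
    have o1 := occ k
    have o0 := a0 (Occ R s k)
    by_cases hk : k + 1 ∈ J
    · have hk' : k + 1 ∈ J.erase k := mem_erase.2 ⟨by omega, hk⟩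
      have n2 := card_erase_add_one hk'
      have i2 := ih ((J.erase k).erase (k + 1)) ((erase_subset _ _).trans_ssubset (erase_ssubset j0))
      have e2 := b1 (lay_Good R s (k + 1)) (Occ R s (k + 1)) (Good R s ((J.erase k).erase (k + 1)))
        (occ_inter_Good R s (k + 1)) (good_sdiff_Good R s (notMem_erase _ _))
      have e3 := b1 (lay_Good R s k) (fun A => ¬ Occ R s k A)
        (fun A => Occ R s (k + 1) A ∧ Good R s ((J.erase k).erase (k + 1)) A)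
        (fun A => not_congr (occ_inter_Good R s k A)) fun A =>
        and_congr (occ_sdiff_Good R s (by omega) A) (good_sdiff_Good R s (by simp) A)
      have h1 := a2 (Good R s J) (fun A => (Occ R s k A ∧ Good R s (J.erase k) A) ∨
        (¬ Occ R s k A ∧ Occ R s (k + 1) A ∧ Good R s ((J.erase k).erase (k + 1)) A))
        fun A _ h => by
          by_cases ho : Occ R s k A
          · exact Or.inl ⟨ho, g1 A h⟩
          · refine Or.inr ⟨ho, ((h k j0).resolve_left ho).2, fun j hj => ?_⟩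
            have h2 := mem_of_mem_erase hj
            exact (g1 A h j h2).imp_right fun h3 =>
              ⟨mem_erase.2 ⟨by have := (mem_erase.1 h2).1; omega, h3.1⟩, h3.2⟩
      have h2 := h1.trans (a3 _ _)
      rw [e1, e3, e2, b2] at h2
      rw [← n2] at i1
      rw [← n1, ← n2]
      generalize ((J.erase k).erase (k + 1)).card = m at *
      have q0 : 0 ≤ bet u ^ m := pow_nonneg c0 m
      have q1 := mul_le_mul_of_nonneg_left i1 o0
      have q2 := mul_le_mul_of_nonneg_left (mul_le_mul (occ (k + 1)) i2 (a0 _) u0)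
        (sub_nonneg.2 (a1 (Occ R s k)))
      have q3 := mul_le_mul_of_nonneg_right
        (mul_le_mul_of_nonneg_right o1 (sub_nonneg.2 c1)) q0
      have q4 : bet u ^ (m + 1 + 1) = (u * bet u + u * (1 - u)) * bet u ^ m := by
        rw [← c3]; ring
      rw [pow_succ] at q1
      rw [q4]
      nlinarith
    · have h1 := a2 (Good R s J) (fun A => Occ R s k A ∧ Good R s (J.erase k) A)
        fun A _ h => ⟨(h k j0).resolve_right fun h1 => hk h1.1, g1 A h⟩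
      rw [e1] at h1
      rw [← n1, pow_succ']
      exact h1.trans (mul_le_mul (o1.trans c1) i1 (a0 _) c0)

end Pool.Agent.MP_6d294b_pr

end

section

open Finset

namespace Pool.Agent.MP_6d294b_pr

variable {d : ℕ}

theorem al_FSp {N : ℕ} (hN : 1 ≤ N) {B : Finset (Pt d)} {R : Bx d} (h : Span B R) :
    N ≤ psi R → ∃ B' ⊆ B, ∃ R', Span B' R' ∧ R' ≤ R ∧ N ≤ psi R' ∧ psi R' ≤ 2 * N := by
  induction h with
  | pt x =>
    have : psi (ptB x) = 0 := by simp [psi, ex, ptB, kap]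
    omega
  | @merge A B Q P h1 h2 hd hg ih₁ ih₂ =>
    intro h
    by_cases c1 : N ≤ psi Q
    · obtain ⟨B', g1, R', g2, g3, g4⟩ := ih₁ c1
      exact ⟨B', g1.trans subset_union_left, R', g2, g3.trans le_sup_left, g4⟩
    by_cases c2 : N ≤ psi P
    · obtain ⟨B', g1, R', g2, g3, g4⟩ := ih₂ c2
      exact ⟨B', g1.trans subset_union_right, R', g2, g3.trans le_sup_right, g4⟩
    have := ((sGeoA d).2.2.2.2 Q P ((sGeoA d).1 _ _ h1).1 ((sGeoA d).1 _ _ h2).1).2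
    exact ⟨_, Subset.refl _, _, h1.merge h2 hd hg, le_rfl, h, by omega⟩

theorem tSp : TSp := by
  intro d K Y A R
  refine ⟨fun h => ?_, fun hK h => ?_⟩
  · induction h with
    | pt x => exact .pt x
    | merge _ _ hd hg _ ih₁ ih₂ => exact ih₁.merge ih₂ hd hg
  induction h with
  | pt x => exact Or.inl (.pt x)
  | @merge A B Q P h1 h2 hd hg ih₁ ih₂ =>
    rcases ih₁ with s1 | ⟨B', R', g1, g2, g3, g4⟩
    swap
    · exact Or.inr ⟨B', R', g1.trans subset_union_left, g2, g3.trans le_sup_left, g4⟩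
    rcases ih₂ with s2 | ⟨B', R', g1, g2, g3, g4⟩
    swap
    · exact Or.inr ⟨B', R', g1.trans subset_union_right, g2, g3.trans le_sup_right, g4⟩
    by_cases hG : Gd K Y (Q ⊔ P)
    · exact Or.inl (s1.merge s2 hd hg hG)
    rw [Gd, not_or, not_lt, not_forall] at hG
    obtain ⟨c1, i, c2⟩ := hG
    obtain ⟨B', g1, R', g2, g3, g4, g5⟩ := al_FSp hK (h1.merge h2 hd hg) c1
    have := ((sGeoA d).2.2.2.1 R' _ ((sGeoA d).1 _ _ g2).1 g3).2.1 i
    exact Or.inr ⟨B', R', g1, g2, g3, g4, g5, i, by omega⟩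

theorem one_FSp (Ω : Finset (Pt d)) {p p' : ℝ} (h0 : 0 ≤ p') (hp : p = 1 - Real.exp (- p'))
    (R : Bx d) (i : Fin d) (F : ℝ) (hF : 0 < F) (h : p' * sg (ex R) i ≤ F) :
    Pr Ω p (ISp R) ≤ Real.exp (- (((ex R i : ℝ) + 1) * gf F)) := by
  have p0 : 0 ≤ p := by
    have := Real.exp_le_one_iff.2 (neg_nonpos.2 h0)
    linarith
  have p1 : p ≤ 1 := by linarith [Real.exp_pos (-p')]
  by_cases hV : Val R
  swap
  · refine le_trans (le_of_eq (sum_eq_zero fun A _ => if_neg ?_)) (Real.exp_pos _).le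
    rintro ⟨B, -, hB⟩
    exact hV ((sGeoA d).1 _ _ hB).1
  have h1 := sGood sPrA (sPrB sPrA) (sGeoB sGeoA) sBet d Ω p p0 p1 R (i, true)
    (1 - Real.exp (-F)) (by
      rw [hp, sub_sub_cancel, ← Real.exp_nat_mul]
      exact sub_le_sub_left (Real.exp_le_exp.2 (by linarith)) _)
    (by linarith [Real.exp_pos (-F)]) (Icc (-R (i, false)) (R (i, true)))
  have h2 : (Icc (-R (i, false)) (R (i, true))).card = ex R i + 1 := by
    have := hV i
    rw [Int.card_Icc, ex]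
    omega
  rw [h2, ← (sBet.2 F hF).1, ← Real.exp_nat_mul, Nat.cast_succ, mul_neg] at h1
  refine le_trans ((sPrA _ Ω p p0 p1).2.2.1 _ _ ?_) h1
  rintro A - ⟨B, hB, hs⟩ j hj
  obtain ⟨-, r2, -, r4⟩ := (sGeoA d).1 _ _ hs
  rw [mem_Icc] at hj
  obtain ⟨x, hx, hk | hk⟩ := r4 (i, true) j (le_trans (sub_le_self _ zero_le_one) hj.1) hj.2
  · exact Or.inl ⟨x, hB hx, r2 x hx, hk⟩
  · exact Or.inr ⟨mem_Icc.2 ⟨by omega, hk ▸ r2 x hx (i, true)⟩, x, hB hx, r2 x hx, hk⟩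

theorem tDir : TDir := by
  intro d Ω p p' h0 hp
  refine ⟨one_FSp Ω h0 hp, fun R K Y j hd h1 h2 h3 h4 h5 => ?_⟩
  obtain ⟨i, -, hi⟩ := exists_max_image univ (ex R) ⟨j, mem_univ j⟩
  have e1 : psi R ≤ d * ex R i := by
    simpa [psi] using sum_le_card_nsmul univ (ex R) (ex R i) hi
  have e2 : Y ≤ ex R i := Nat.le_of_mul_le_mul_left (h4.trans (h1.trans e1)) (by omega)
  have e3 : j ∈ univ.erase i := mem_erase.2 ⟨by rintro rfl; omega, mem_univ j⟩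
  have e4 : sg (ex R) i ≤ Y * (2 * K + 1) ^ (d - 2) := by
    rw [sg, ← mul_prod_erase _ _ e3]
    refine Nat.mul_le_mul (by omega) ((prod_le_pow_card _ _ (2 * K + 1) fun k _ => ?_).trans
      (le_of_eq ?_))
    · have : ex R k ≤ psi R := single_le_sum (f := ex R) (fun _ _ => Nat.zero_le _) (mem_univ k)
      omega
    · rw [card_erase_of_mem e3, card_erase_of_mem (mem_univ i), card_univ, Fintype.card_fin,
        Nat.sub_sub]
  have e5 : (sg (ex R) i : ℝ) ≤ Y * (2 * K + 1) ^ (d - 2) := by exact_mod_cast e4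
  refine (one_FSp Ω h0 hp R i 1 one_pos ((mul_le_mul_of_nonneg_left e5 h0).trans h5)).trans
    (Real.exp_le_exp.2 (neg_le_neg ?_))
  have d0 : (0 : ℝ) < d := by exact_mod_cast (by omega : 0 < d)
  have e6 : (K : ℝ) ≤ d * ex R i := by exact_mod_cast h1.trans e1
  rw [mul_div_assoc, mul_comm]
  refine mul_le_mul_of_nonneg_right ?_ (sBet.2 1 one_pos).2.1
  rw [div_le_iff₀ d0]
  linarith

end Pool.Agent.MP_6d294b_pr

end

section

open Finset

namespace Pool.Agent.MP_6d294b_pr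

theorem exp_FSumL {a : ℝ} (s : ℝ) (ha : 0 < a) :
    Real.exp (- (a * s)) ≤ (Real.exp (- (a * (s - 1))) - Real.exp (- (a * s))) / a := by
  rw [le_div_iff₀ ha]
  have h1 : Real.exp (- (a * (s - 1))) = Real.exp (- (a * s)) * Real.exp a := by
    rw [← Real.exp_add]
    congr 1
    ring
  have h2 := Real.add_one_le_exp a
  have h3 := Real.exp_pos (- (a * s))
  rw [h1]
  nlinarith

theorem tel_FSumL {b u w : ℝ} (hb : 0 ≤ b) (hu : 0 < u) (hw : 0 ≤ w) (h : w ^ 2 = u ^ 2 - 1) :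
    1 / (1 + b * u) ^ 2 / u ≤ 2 * u / (1 + b * u) - 2 * w / (1 + b * w) := by
  have h1 : w ≤ u := by nlinarith
  have h2 : 0 < 1 + b * u := by positivity
  have h3 : 0 < 1 + b * w := by positivity
  have h4 : 1 + b * w ≤ 1 + b * u := by nlinarith
  have h5 : 1 ≤ 2 * u * (u - w) := by nlinarith
  have h6 : 2 * u / (1 + b * u) - 2 * w / (1 + b * w) =
      2 * (u - w) / ((1 + b * u) * (1 + b * w)) := by
    field_simp
    ring
  rw [h6, div_div, div_le_div_iff₀ (by positivity) (by positivity)]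
  have h7 : (1 + b * u) * (1 + b * w) ≤ (1 + b * u) ^ 2 := by nlinarith
  have h8 : (1 + b * u) ^ 2 * 1 ≤ (1 + b * u) ^ 2 * (2 * u * (u - w)) :=
    mul_le_mul_of_nonneg_left h5 (by positivity)
  nlinarith

theorem wt_FSumL {D q s y : ℝ} (hD : 1 ≤ D) (hq : 0 < q) (hs : 0 ≤ s)
    (hy : y ^ 2 ≤ q * s / (8 * D)) (hy0 : 0 ≤ y) :
    (1 + q * s) * Real.exp (- (q * s / (8 * D))) ≤ 32 * D * (1 / (1 + y) ^ 2) := by
  obtain ⟨x, hx⟩ : ∃ x, x = q * s / (8 * D) := ⟨_, rfl⟩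
  have hx0 : 0 ≤ x := by rw [hx]; positivity
  have h1 : q * s = 8 * D * x := by rw [hx]; field_simp
  rw [← hx] at hy ⊢
  rw [h1, Real.exp_neg, ← div_eq_mul_inv, mul_one_div,
    div_le_div_iff₀ (Real.exp_pos _) (by positivity)]
  have h2 := Real.quadratic_le_exp_of_nonneg hx0
  have h3 : (1 + y) ^ 2 ≤ 2 * (1 + x) := by nlinarith [sq_nonneg (1 - y)]
  have h4 : 1 + 8 * D * x ≤ 8 * D * (1 + x) := by nlinarith
  have h5 : (1 + 8 * D * x) * (1 + y) ^ 2 ≤ 8 * D * (1 + x) * (2 * (1 + x)) :=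
    mul_le_mul h4 h3 (by positivity) (by positivity)
  have h6 : (1 + x) * (1 + x) ≤ 2 * Real.exp x := by nlinarith
  nlinarith

theorem tSumL : TSumL := by
  intro d hd
  have hD : (1 : ℝ) ≤ d := by exact_mod_cast hd
  refine ⟨8 * d + 512 * d ^ 2, by positivity, fun q v n η hq hq1 hv hη => ?_⟩
  have hV : (1 : ℝ) ≤ v := by exact_mod_cast hv
  have hdv : (1 : ℝ) ≤ d * v := by nlinarith
  refine ⟨fun t => by unfold ell; positivity, ?_⟩
  obtain ⟨a, ha⟩ : ∃ a : ℝ, a = q / (8 * d) := ⟨_, rfl⟩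
  obtain ⟨b, hb⟩ : ∃ b : ℝ, b = Real.sqrt q / (8 * d) := ⟨_, rfl⟩
  have hsq : 0 < Real.sqrt q := Real.sqrt_pos.2 hq
  have ha0 : 0 < a := by rw [ha]; positivity
  have hb0 : 0 < b := by rw [hb]; positivity
  have hab : b ^ 2 ≤ a := by
    rw [ha, hb, div_pow, Real.sq_sqrt hq.le]
    exact div_le_div_of_nonneg_left hq.le (by positivity) (by nlinarith)
  obtain ⟨H, hH⟩ : ∃ H : ℕ → ℝ, ∀ t : ℕ, H t =
      - (η * Real.exp (- (a * ((t : ℝ) + d * v - 1))) / a) +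
      32 * d * (2 * Real.sqrt ((t : ℝ) + d * v - 1) / (1 + b * Real.sqrt ((t : ℝ) + d * v - 1))) :=
    ⟨_, fun _ => rfl⟩
  have hstep : ∀ t : ℕ, ell d q v η t ≤ H (t + 1) - H t := by
    intro t
    obtain ⟨s, hs⟩ : ∃ s : ℝ, s = (t : ℝ) + d * v := ⟨_, rfl⟩
    have ht : (0 : ℝ) ≤ t := Nat.cast_nonneg t
    have hs1 : 1 ≤ s := by rw [hs]; linarith
    have e1 : ((t + 1 : ℕ) : ℝ) + d * v - 1 = s := by rw [hs]; push_cast; ring
    have e2 : q * s / (8 * d) = a * s := by rw [ha]; ring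
    have hu : 0 < Real.sqrt s := Real.sqrt_pos.2 (by linarith)
    have k1 := exp_FSumL s ha0
    have k2 := tel_FSumL hb0.le hu (Real.sqrt_nonneg (s - 1))
      (by rw [Real.sq_sqrt (by linarith), Real.sq_sqrt (by linarith)])
    have k3 := wt_FSumL (y := b * Real.sqrt s) hD hq (by linarith : 0 ≤ s)
      (by rw [e2, mul_pow, Real.sq_sqrt (by linarith)]; nlinarith) (by positivity)
    rw [hH, hH, e1]
    unfold ell
    rw [← hs]
    rw [e2] at k3 ⊢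
    have k4 : (1 + q * s) / Real.sqrt s * Real.exp (- (a * s)) ≤
        32 * d * (1 / (1 + b * Real.sqrt s) ^ 2 / Real.sqrt s) := by
      rw [div_mul_eq_mul_div, ← mul_div_assoc]
      exact div_le_div_of_nonneg_right k3 hu.le
    have k5 := mul_le_mul_of_nonneg_left k1 hη
    have k6 := mul_le_mul_of_nonneg_left k2 (by positivity : (0 : ℝ) ≤ 32 * d)
    have e3 : η * ((Real.exp (- (a * (s - 1))) - Real.exp (- (a * s))) / a) =
        η * Real.exp (- (a * (s - 1))) / a - η * Real.exp (- (a * s)) / a := by ring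
    rw [add_mul]
    linarith
  have h1 : ∑ t ∈ range n, ell d q v η t ≤ H n - H 0 := by
    rw [← sum_range_sub]
    exact sum_le_sum fun t _ => hstep t
  have h2 : H n ≤ 512 * d ^ 2 * (1 / Real.sqrt q) := by
    rw [hH]
    obtain ⟨u, hu⟩ : ∃ u, u = Real.sqrt ((n : ℝ) + d * v - 1) := ⟨_, rfl⟩
    have hu0 : 0 ≤ u := by rw [hu]; exact Real.sqrt_nonneg _
    rw [← hu]
    have k1 : 2 * u / (1 + b * u) ≤ 2 / b := by
      rw [div_le_div_iff₀ (by positivity) hb0]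
      nlinarith
    have k2 : 32 * d * (2 / b) = 512 * d ^ 2 * (1 / Real.sqrt q) := by
      rw [hb]
      field_simp
      ring
    have k3 := mul_le_mul_of_nonneg_left k1 (by positivity : (0 : ℝ) ≤ 32 * d)
    have k4 : 0 ≤ η * Real.exp (- (a * ((n : ℝ) + d * v - 1))) / a := by positivity
    linarith
  have h3 : - H 0 ≤ 8 * d * (η / q) := by
    rw [hH]
    have k1 : Real.exp (- (a * (((0 : ℕ) : ℝ) + d * v - 1))) ≤ 1 := by
      rw [Real.exp_le_one_iff]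
      push_cast
      nlinarith
    have k2 : η * Real.exp (- (a * (((0 : ℕ) : ℝ) + d * v - 1))) / a ≤ η * 1 / a :=
      div_le_div_of_nonneg_right (mul_le_mul_of_nonneg_left k1 hη) ha0.le
    have k3 : η * 1 / a = 8 * d * (η / q) := by
      rw [ha]
      field_simp
    have k4 : 0 ≤ 32 * (d : ℝ) * (2 * Real.sqrt (((0 : ℕ) : ℝ) + d * v - 1) /
        (1 + b * Real.sqrt (((0 : ℕ) : ℝ) + d * v - 1))) := by positivity
    linarith
  have h4 : 0 ≤ η / q := by positivity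
  have h5 : 0 ≤ 1 / Real.sqrt q := by positivity
  have h6 : 0 ≤ 8 * (d : ℝ) * (1 / Real.sqrt q) := by positivity
  have h7 : 0 ≤ 512 * (d : ℝ) ^ 2 * (η / q) := by positivity
  nlinarith

end Pool.Agent.MP_6d294b_pr

end

section

open Finset

namespace Pool.Agent.MP_6d294b_pr

theorem pr_FTrick {α : Type} (Ω : Finset α) (p : ℝ) (E : Finset α → Prop) [DecidablePred E] :
    Pr Ω p E = ∑ A ∈ Ω.powerset.filter E, p ^ A.card * (1 - p) ^ (Ω.card - A.card) := by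
  rw [Pr, sum_filter]
  exact sum_congr rfl fun _ _ => by split_ifs <;> rfl

theorem tTrick : TTrick := by
  refine ⟨fun α _ Ω p h0 h1 => ⟨fun Z E => ?_, fun X hX => ?_⟩, fun a b φ c hc h => ?_,
    fun ι I w hw => ?_⟩
  · classical
    have hq : 0 ≤ 1 - p := by linarith
    rw [pr_FTrick, pr_FTrick, mul_sum]
    refine le_trans (sum_le_sum (g := fun A => (2 * p) ^ Z.card *
      (p ^ (A \ Z).card * (1 - p) ^ (Ω.card - (A \ Z).card))) fun A hA => ?_) ?_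
    · obtain ⟨hA, hZ, -⟩ := mem_filter.1 hA
      have e1 := card_sdiff_add_card_eq_card hZ
      have e2 := card_le_card (mem_powerset.1 hA)
      have e3 : (1 : ℝ) ≤ (2 * (1 - p)) ^ Z.card := one_le_pow₀ (by linarith)
      rw [show Ω.card - (A \ Z).card = Ω.card - A.card + Z.card by omega, ← e1]
      calc _ ≤ p ^ ((A \ Z).card + Z.card) * (1 - p) ^ (Ω.card - ((A \ Z).card + Z.card)) *
            (2 * (1 - p)) ^ Z.card := le_mul_of_one_le_right (by positivity) e3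
        _ = _ := by rw [mul_pow, mul_pow, pow_add, pow_add]; ring
    · rw [← sum_image (g := fun A => A \ Z)
        (f := fun B => (2 * p) ^ Z.card * (p ^ B.card * (1 - p) ^ (Ω.card - B.card)))]
      · refine sum_le_sum_of_subset_of_nonneg (fun B hB => ?_) fun _ _ _ => by positivity
        obtain ⟨A, hA, rfl⟩ := mem_image.1 hB
        obtain ⟨hA, -, hE⟩ := mem_filter.1 hA
        exact mem_filter.2 ⟨mem_powerset.2 (sdiff_subset.trans (mem_powerset.1 hA)), hE⟩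
      · intro A hA B hB h
        rw [← sdiff_union_of_subset (mem_filter.1 hA).2.1,
          ← sdiff_union_of_subset (mem_filter.1 hB).2.1]
        exact congrArg (· ∪ Z) h
  · classical
    have e1 : Ω.powerset.filter (fun A => ∀ x ∈ A, x ∉ X) = (Ω \ X).powerset := by
      ext A
      simp only [mem_filter, mem_powerset, subset_sdiff, disjoint_left]
    have e2 := card_sdiff_add_card_eq_card hX
    rw [pr_FTrick]
    refine le_of_eq ((sum_congr e1 (g := fun A => (1 - p) ^ X.card *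
      (p ^ A.card * (1 - p) ^ ((Ω \ X).card - A.card))) fun A hA => ?_).trans ?_)
    · have e3 := card_le_card (mem_powerset.1 hA)
      rw [show Ω.card - A.card = (Ω \ X).card - A.card + X.card by omega, pow_add]
      ring
    · rw [← mul_sum, sum_pow_mul_eq_add_pow]
      simp
  · rcases lt_or_ge a b with hab | hab
    · have e1 : Ioc a b = insert (a + 1) ((Ioo a b).map (addRightEmbedding 1)) := by
        rw [map_add_right_Ioo]
        ext j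
        simp only [mem_Ioc, mem_insert, mem_Ioo]
        omega
      rw [e1, sum_insert (by simp), sum_map]
      have := h (a + 1) (by omega) (by omega)
      simp only [addRightEmbedding_apply]
      linarith
    · rw [Ioc_eq_empty_of_le hab, Ioo_eq_empty_of_le hab]
      simpa using hc
  · classical
    rw [← prod_one_add, Real.exp_sum]
    exact prod_le_prod (fun i hi => by linarith [hw i hi]) fun i _ => by
      linarith [Real.add_one_le_exp (w i)]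

end Pool.Agent.MP_6d294b_pr

end

section

open Finset

namespace Pool.Agent.MP_6d294b_pr

variable {d : ℕ}

/-- crossing event with the records lying beyond the start box -/
def CrQ_FExt1 (X : Finset (Dat d)) (C : Sd d → ℤ → Finset (Pt d)) (S R : Bx d)
    (A : Finset (Pt d)) : Prop :=
  ∃ (U : Finset (Dat d)) (w : Dat d → Finset (Pt d)) (W : Sd d → Finset (Pt d)),
    (∀ u ∈ U, (u ∈ X ∧ w u ⊆ A ∧ Span (w u) u.1) ∧ ∀ s, u.2 s ≠ 0 → S s + u.2 s ≤ u.1 s) ∧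
    (∀ s, W s ⊆ A ∧ NG (C s) ((JS S R U s).erase (R s)) (W s)) ∧
    (∀ u ∈ U, ∀ v ∈ U, u ≠ v → Disjoint (w u) (w v)) ∧
    (∀ s t, s ≠ t → Disjoint (W s) (W t)) ∧
    (∀ u ∈ U, ∀ s, Disjoint (w u) (W s))

theorem mem_JS_FExt1 {S R : Bx d} {U : Finset (Dat d)} {s : Sd d} {j : ℤ} :
    j ∈ JS S R U s ↔ (S s < j ∧ j ≤ R s) ∧ ∀ u ∈ U, ¬ (u.1 s - u.2 s < j ∧ j ≤ u.1 s) := by
  simp only [JS, mem_filter, mem_Ioc]

theorem key_FExt1 {X : Finset (Dat d)} {C : Sd d → ℤ → Finset (Pt d)} {B D : Finset (Pt d)}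
    {Q P R : Bx d} (hP : Span B P) (hQ : Val Q) (hg : gap Q P ≤ 2) (hd : Disjoint B D)
    (hX : ∀ e : Sd d → ℕ, (∀ s, e s = (max (Q s) (P s) - Q s).toNat) →
      (∃ s s' : Sd d, s.1 ≠ s'.1 ∧ e s ≠ 0 ∧ e s' ≠ 0) → (P, e) ∈ X)
    (hL : ∀ s j x, Q s < j → kap s x = j → (∀ t : Sd d, t.1 ≠ s.1 → kap t x ≤ Q t) → x ∈ C s j)
    (hC : CrQ_FExt1 X C (Q ⊔ P) R D) : CrQ_FExt1 X C Q R (D ∪ B) := by
  classical
  obtain ⟨U, w, W, c1, c2, c3, c4, c5⟩ := hC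
  obtain ⟨p1, p2, -, p4⟩ := (sGeoA d).1 _ _ hP
  have hsup : ∀ s, (Q ⊔ P) s = max (Q s) (P s) := fun s => rfl
  obtain ⟨e, he⟩ : ∃ e : Sd d → ℕ, ∀ s, e s = (max (Q s) (P s) - Q s).toNat := ⟨_, fun _ => rfl⟩
  have hold : ∀ u ∈ U, ∀ s, u.2 s ≠ 0 → Q s + u.2 s ≤ u.1 s := fun u hu s hs => by
    have := (c1 u hu).2 s hs
    rw [hsup] at this
    omega
  by_cases ha : ∃ s s' : Sd d, s.1 ≠ s'.1 ∧ e s ≠ 0 ∧ e s' ≠ 0
  · have hnew : (P, e) ∉ U := by
      intro h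
      obtain ⟨s, -, -, hs, -⟩ := ha
      have := (c1 _ h).2 s hs
      simp only [hsup] at this
      omega
    have hw : ∀ u ∈ U, (if u = (P, e) then B else w u) = w u := fun u hu =>
      if_neg fun h : u = (P, e) => hnew (h ▸ hu)
    refine ⟨insert (P, e) U, fun u => if u = (P, e) then B else w u, W, ?_, fun s => ?_, ?_, c4, ?_⟩
    · intro u hu
      rcases mem_insert.1 hu with rfl | hu
      · simp only [if_true]
        refine ⟨⟨hX e he ha, subset_union_right, hP⟩, fun s hs => ?_⟩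
        have := he s
        omega
      · simp only [hw u hu]
        exact ⟨⟨(c1 u hu).1.1, (c1 u hu).1.2.1.trans subset_union_left, (c1 u hu).1.2.2⟩,
          hold u hu⟩
    · refine ⟨(c2 s).1.trans subset_union_left, ?_⟩
      have : JS Q R (insert (P, e) U) s = JS (Q ⊔ P) R U s := by
        ext j
        simp only [mem_JS_FExt1, forall_mem_insert, hsup]
        have := he s
        constructor
        · rintro ⟨h1, h2, h3⟩
          exact ⟨by omega, h3⟩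
        · rintro ⟨h1, h3⟩
          exact ⟨by omega, by omega, h3⟩
      rw [this]
      exact (c2 s).2
    · intro u hu v hv huv
      rcases mem_insert.1 hu with e1 | g1 <;> rcases mem_insert.1 hv with e2 | g2
      · exact absurd (e1.trans e2.symm) huv
      · simp only [hw v g2, e1, if_true]
        exact hd.mono_right (c1 v g2).1.2.1
      · simp only [hw u g1, e2, if_true]
        exact (hd.mono_right (c1 u g1).1.2.1).symm
      · simp only [hw u g1, hw v g2]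
        exact c3 u g1 v g2 huv
    · intro u hu s
      rcases mem_insert.1 hu with rfl | hu
      · simp only [if_true]
        exact hd.mono_right (c2 s).1
      · simp only [hw u hu]
        exact c5 u hu s
  · refine ⟨U, w, fun s => W s ∪ B.filter fun x => Q s < kap s x, fun u hu => ?_, fun s => ?_, c3,
      fun s t hst => ?_, fun u hu s => ?_⟩
    · exact ⟨⟨(c1 u hu).1.1, (c1 u hu).1.2.1.trans subset_union_left, (c1 u hu).1.2.2⟩,
        hold u hu⟩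
    · refine ⟨union_subset_union (c2 s).1 (filter_subset _ _), fun j hj => ?_⟩
      obtain ⟨j0, hj⟩ := mem_erase.1 hj
      obtain ⟨⟨j1, j2⟩, j3⟩ := mem_JS_FExt1.1 hj
      by_cases hj' : (Q ⊔ P) s < j
      · rcases (c2 s).2 j (mem_erase.2 ⟨j0, mem_JS_FExt1.2 ⟨⟨hj', j2⟩, j3⟩⟩) with
          ⟨x, hx, h⟩ | ⟨x, hx, h⟩
        · exact Or.inl ⟨x, mem_union_left _ hx, h⟩
        · exact Or.inr ⟨x, mem_union_left _ hx, h⟩
      · rw [hsup] at hj'
        have a1 : (- P (opp s) - Q s).toNat ≤ gap Q P :=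
          single_le_sum (f := fun s => (- P (opp s) - Q s).toNat) (fun _ _ => Nat.zero_le _)
            (mem_univ s)
        obtain ⟨x, hx, hk⟩ := p4 s j (by omega) (by omega)
        have a2 : ∀ t : Sd d, t.1 ≠ s.1 → kap t x ≤ Q t := by
          intro t ht
          have b1 := p2 x hx t
          have b2 := he s
          have b3 := he t
          by_contra h
          exact ha ⟨t, s, ht, by omega, by omega⟩
        rcases hk with hk | hk
        · exact Or.inl ⟨x, mem_union_right _ (mem_filter.2 ⟨hx, by omega⟩), hL s j x j1 hk a2⟩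
        · exact Or.inr ⟨x, mem_union_right _ (mem_filter.2 ⟨hx, by omega⟩),
            hL s (j + 1) x (by omega) hk a2⟩
    · refine disjoint_union_left.2 ⟨disjoint_union_right.2 ⟨c4 s t hst,
        (hd.mono (filter_subset _ _) (c2 s).1).symm⟩, disjoint_union_right.2
          ⟨hd.mono (filter_subset _ _) (c2 t).1, disjoint_left.2 fun x hx hx' => ?_⟩⟩
      rw [mem_filter] at hx hx'
      have a1 := p2 x hx.1 s
      have a2 := p2 x hx.1 t
      have a3 := he s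
      have a4 := he t
      have a5 : s.1 = t.1 := by
        by_contra h
        exact ha ⟨s, t, h, by omega, by omega⟩
      obtain ⟨i, b⟩ := s
      obtain ⟨i', b'⟩ := t
      obtain rfl : i = i' := a5
      have a6 := hQ i
      have a7 := hx.2
      have a8 := hx'.2
      cases b <;> cases b' <;> simp only [kap, if_true, Bool.false_eq_true, if_false] at a7 a8
      · exact hst rfl
      · omega
      · omega
      · exact hst rfl
    · exact disjoint_union_right.2 ⟨c5 u hu s, (hd.mono (filter_subset _ _) (c1 u hu).1.2.1).symm⟩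

theorem adm_FExt1 {m : ℕ → ℕ} {R : Bx d} {M T : ℕ} {z : ℕ → Bx d} {Q P : Bx d}
    (hP : Val P) (hQ : Val Q) (hg : gap Q P ≤ 2) (hT : psi P < T) (hR : P ≤ R)
    (hF : Fol m R M z Q) (e : Sd d → ℕ) (he : ∀ s, e s = (max (Q s) (P s) - Q s).toNat)
    (ha : ∃ s s' : Sd d, s.1 ≠ s'.1 ∧ e s ≠ 0 ∧ e s' ≠ 0) : (P, e) ∈ admP m T M R z := by
  classical
  obtain ⟨τ, t1, t2, t3⟩ := hF
  have hsum : ∑ s, e s ≤ psi P + 2 := by
    have a1 := ((sGeoA d).2.2.2.1 Q (Q ⊔ P) hQ le_sup_left).2.2.2.1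
    have a2 := ((sGeoA d).2.2.2.2 Q P hQ hP).2
    have a3 : ∑ s, e s = ∑ s, ((Q ⊔ P) s - Q s).toNat := sum_congr rfl fun s _ => he s
    omega
  have hle : ∀ s, e s ≤ psi P + 2 := fun s =>
    (single_le_sum (f := e) (fun _ _ => Nat.zero_le _) (mem_univ s)).trans hsum
  refine mem_biUnion.2 ⟨τ, mem_range.2 (by omega), ?_⟩
  unfold adm1
  refine mem_filter.2 ⟨mem_product.2 ⟨((sGeoA d).2.2.2.1 P R hP hR).2.2.2.2, ?_⟩,
    hP, hT, hsum, fun s hs => ?_, fun s => ?_, ha⟩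
  · refine Fintype.mem_piFinset.2 fun s => mem_range.2 ?_
    have := hle s
    show e s < T + 2
    omega
  · have b1 := he s
    have b2 : z τ s ≤ Q s := t2 s
    have b3 : e s ≠ 0 := hs
    show z τ s + e s ≤ P s
    omega
  · have b1 := he s
    have b2 : Q s ≤ outB m R (z τ) s := t3 s
    have b3 := hle s
    show P s ≤ outB m R (z τ) s + psi P + 2
    omega

theorem tExt1 (h3 : TLay) (h4 : TChn) (h5 : TPathA) : TExt1 := by
  classical
  intro d m S R M T z A hm hS hz hA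
  have hSR : S ≤ R := (((h4 d T).1 _ S R).2 A hA).1
  obtain ⟨-, -, z3, -, -, -, z7, -, -⟩ := h5 d m S R M z hm hS hSR hz
  obtain ⟨k, Q, P, W, q0, qk, qF, qs, qd⟩ := hA
  have hstep : ∀ j, j < k → Q j ≤ Q (j + 1) := fun j hj => by
    rw [(qs j hj).2.2.2.2]
    exact le_sup_left
  have hlo : ∀ j, j ≤ k → S ≤ Q j := by
    intro j
    induction j with
    | zero => exact fun _ => q0.ge
    | succ j ih => exact fun hj => (ih (by omega)).trans (hstep j (by omega))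
  have hmain : ∀ n j, j + n = k →
      Q j ≤ R ∧ CrQ_FExt1 (admP m T M R z) (reg m R M 0 z) (Q j) R ((Ico j k).biUnion W) := by
    intro n
    induction n with
    | zero =>
      intro j hj
      obtain rfl : j = k := by omega
      refine ⟨qk.le, ∅, fun _ => ∅, fun _ => ∅, by simp, fun s => ⟨empty_subset _, fun i hi => ?_⟩,
        by simp, by simp, by simp⟩
      have := (mem_JS_FExt1.1 (mem_erase.1 hi).2).1
      rw [qk] at this
      omega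
    | succ n ih =>
      intro j hj
      have hjk : j < k := by omega
      obtain ⟨i1, i2⟩ := ih (j + 1) (by omega)
      obtain ⟨s1, s2, s3, s4, s5⟩ := qs j hjk
      refine ⟨(hstep j hjk).trans i1, ?_⟩
      have hQ : Val (Q j) := ((sGeoA d).2.2.2.1 S (Q j) hS (hlo j hjk.le)).1
      have hP : Val (P j) := ((sGeoA d).1 _ _ s2).1
      have hPR : P j ≤ R := by
        rw [s5] at i1
        exact le_sup_right.trans i1
      have hU : (Ico j k).biUnion W = (Ico (j + 1) k).biUnion W ∪ W j := by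
        rw [← insert_Ico_add_one_left_eq_Ico hjk, biUnion_insert, union_comm]
      rw [hU]
      rw [s5] at i2
      refine key_FExt1 s2 hQ s3 ?_ (adm_FExt1 hP hQ s3 s4 hPR (qF j hjk.le)) ?_ i2
      · refine (disjoint_biUnion_right _ _ _).2 fun i hi => ?_
        have := mem_Ico.1 hi
        exact qd j i hjk this.2 (by omega)
      · intro s i x hi hx ht
        obtain ⟨τ, t1, t2, t3⟩ := qF j hjk.le
        refine ((h3 d _ s i).1 x).2 ⟨hx, fun t hts => ?_⟩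
        have b1 := ht t hts
        have b2 : Q j t ≤ outB m R (z τ) t := t3 t
        have b3 : τ ≤ tm z M s i := z7 s i τ t1 (lt_of_le_of_lt (t2 s) hi)
        have b4 : outB m R (z τ) t ≤ outB m R (z (tm z M s i)) t := z3 b3 t
        show kap t x ≤ outB m R (z (tm z M s i)) t + ((0 : ℕ) : ℤ)
        omega
  obtain ⟨U, w, V, c1, c2, c3, c4, c5⟩ := (hmain k 0 (by omega)).2
  have hsub : (Ico 0 k).biUnion W ⊆ A :=
    biUnion_subset.2 fun i hi => (qs i (mem_Ico.1 hi).2).1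
  rw [q0] at c2
  exact ⟨U, w, V, fun u hu => ⟨(c1 u hu).1.1, (c1 u hu).1.2.1.trans hsub, (c1 u hu).1.2.2⟩,
    fun s => ⟨(c2 s).1.trans hsub, (c2 s).2⟩, c3, c4, c5⟩

end Pool.Agent.MP_6d294b_pr

end
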