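import Pool.Agent.Mg.F6d294b.G4e8bb7
import Pool.Agent.Mg.F6d294b.Gdbf881
import Pool.Agent.Mg.F6d294b.G28e636
import Pool.Agent.Mg.F6d294b.Gaca8e3
import Pool.Agent.Mg.F6d294b.Gc83fae
import Pool.Agent.Mg.F6d294b.G5025c3
import Pool.Agent.Mg.F6d294b.G01ca5b
import Pool.Agent.Mg.F6d294b.G818029
import Pool.Agent.Mg.F6d294b.Gf2a008

set_option linter.all false

section

open Finset

namespace Pool.Agent.MP_6d294b_pr

theorem Th_GCost {η ε : ℝ} (hη : 0 ≤ η) (hε : 0 ≤ ε) (F F' : ℝ) (hF : 0 < F) (h : F ≤ F') :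
    F ≤ Th2 η ε F ∧ Th2 η ε F ≤ (1 + ε) * F ∧ Th2 η ε F * F' ≤ Th2 η ε F' * F := by
  unfold Th2
  have a1 : 0 ≤ min (η * Real.exp (3 * F / 2)) ε := le_min (by positivity) hε
  have a2 : min (η * Real.exp (3 * F / 2)) ε ≤ ε := min_le_right _ _
  have a3 : min (η * Real.exp (3 * F / 2)) ε ≤ min (η * Real.exp (3 * F' / 2)) ε :=
    min_le_min_right _ (mul_le_mul_of_nonneg_left (Real.exp_le_exp.2 (by linarith)) hη)
  have a4 : 0 ≤ F * F' := mul_nonneg hF.le (hF.le.trans h)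
  refine ⟨by nlinarith, by nlinarith, ?_⟩
  nlinarith [mul_le_mul_of_nonneg_left a3 a4]

theorem mono_GCost {η ε : ℝ} (hη : 0 ≤ η) (hε : 0 ≤ ε) {F F' : ℝ} (hF : 0 < F) (h : F ≤ F') :
    Th2 η ε F ≤ Th2 η ε F' := by
  obtain ⟨a1, -, a3⟩ := Th_GCost hη hε F F' hF h
  have a4 : Th2 η ε F * F ≤ Th2 η ε F * F' := mul_le_mul_of_nonneg_left h (hF.le.trans a1)
  exact le_of_mul_le_mul_right (a4.trans a3) hF

theorem gCost (h1 : GN2) : GCost := by
  classical
  intro D k q p w η ε Φ hB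
  obtain ⟨hD, hk, hq, hq1, hp, hw, hqw, hη, ⟨-, hε, hε1, -⟩, -⟩ := hB
  have hm := (h1 q w hq (by omega)).1
  have hw' : (8 : ℝ) ≤ w := by exact_mod_cast hw
  have hk' : (1 : ℝ) ≤ k := by exact_mod_cast hk
  have anti : ∀ {z z' : ℝ}, 0 < z → z ≤ z' → gk k z' ≤ gk k z := fun hz h =>
    ((bSlope k hk).2 _ _ hz h).1
  have q0 : 0 < q ^ (D - 1) := pow_pos hq _
  have q1 : q ^ (D - 1) ≤ q := by
    have h3 : q ^ (D - 1) ≤ q ^ 1 := pow_le_pow_of_le_one hq.le (by linarith) (by omega)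
    rwa [pow_one] at h3
  have p0 : 0 ≤ p := by
    have : Real.exp (- q ^ (D - 1)) ≤ 1 := Real.exp_le_one_iff.2 (by linarith)
    linarith
  have p1 : p ≤ q ^ (D - 1) := by linarith [Real.add_one_le_exp (- q ^ (D - 1))]
  have ht0 : ∀ a y : ℕ, (a : ℝ) ≤ t2 q w a y := by
    intro a y
    unfold t2
    have : (0 : ℝ) ≤ y := Nat.cast_nonneg _
    have : (0 : ℝ) ≤ m2 q w y := Nat.cast_nonneg _
    linarith
  have hz0 : 0 < (q * w) ^ (D - 1) := by positivity
  have hz1 : (q * w) ^ (D - 1) ≤ 1 := pow_le_one₀ (by positivity) (by nlinarith)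
  have hlow : ∀ (a : ℕ) (y : Fin D → ℕ) (i : Fin D), w ≤ a → (q * w) ^ (D - 1) ≤ F2 q w a y i := by
    intro a y i ha
    have ha' : (w : ℝ) ≤ a := by exact_mod_cast ha
    unfold F2
    rw [mul_pow]
    refine mul_le_mul_of_nonneg_left ?_ q0.le
    have e : (w : ℝ) ^ (D - 1) = ∏ _j ∈ univ.erase i, (w : ℝ) := by
      rw [prod_const, card_erase_of_mem (mem_univ i), card_univ, Fintype.card_fin]
    rw [e]
    exact prod_le_prod (fun _ _ => by linarith) fun j _ => ha'.trans (ht0 _ _)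
  have hmono : ∀ (a : ℕ) (i : Fin D), Monotone fun y : Fin D → ℕ => F2 q w a y i := by
    intro a i y y' h
    unfold F2
    refine mul_le_mul_of_nonneg_left ?_ q0.le
    refine prod_le_prod (fun j _ => (Nat.cast_nonneg a).trans (ht0 _ _)) fun j _ => ?_
    have b1 : (y j : ℝ) ≤ y' j := by exact_mod_cast h j
    have b2 : (m2 q w (y j) : ℝ) ≤ m2 q w (y' j) := by exact_mod_cast hm (h j)
    unfold t2
    linarith
  have hF : ∀ F : ℝ, (q * w) ^ (D - 1) ≤ F → 0 < F ∧ 0 ≤ gk k F ∧ gk k F ≤ cz D q w ∧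
      (Real.exp (- gk k F))⁻¹ ^ 2 ≤ 1 + 1 / F := by
    intro F h
    have a1 := hz0.trans_le h
    obtain ⟨-, a2, a3, -⟩ := (bBet k hk).2 F a1
    refine ⟨a1, a2, a3.trans ?_, ?_⟩
    · unfold cz
      refine div_le_div_of_nonneg_right (Real.log_le_log (by positivity) ?_) (by norm_num)
      have b1 : 1 / F ≤ 1 / (q * w) ^ (D - 1) := one_div_le_one_div_of_le hz0 h
      have b2 : 1 ≤ 1 / (q * w) ^ (D - 1) := by
        rw [le_div_iff₀ hz0]
        linarith
      have b3 : 2 / (q * w) ^ (D - 1) = 1 / (q * w) ^ (D - 1) + 1 / (q * w) ^ (D - 1) := by ring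
      linarith
    · rw [← Real.exp_neg, neg_neg, ← Real.exp_nat_mul, ← Real.le_log_iff_exp_le (by positivity)]
      push_cast
      linarith
  have hex : Real.exp (2 * cz D q w) = 2 / (q * w) ^ (D - 1) := by
    unfold cz
    rw [mul_div_cancel₀ _ (two_ne_zero), Real.exp_log (by positivity)]
  have hpw : p * Real.exp (2 * cz D q w) * w ≤ 2 := by
    have b1 : (w : ℝ) ^ 1 ≤ (w : ℝ) ^ (D - 1) := pow_le_pow_right₀ (by linarith) (by omega)
    rw [pow_one] at b1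
    have b2 := mul_le_mul p1 b1 (by linarith) q0.le
    rw [hex, mul_right_comm, ← mul_div_assoc, div_le_iff₀ hz0, mul_pow]
    linarith
  refine ⟨⟨p0, p1, q1, by linarith, by nlinarith⟩, Th_GCost hη hε.le, hmono, fun i y y' h => ?_,
    hlow, fun a y y' i h => ?_, fun y i => ?_, hF, ?_, hex, fun d T hT => ?_⟩
  · have a1 := hz0.trans_le (hlow (2 * w) y i (by omega))
    exact anti (a1.trans_le (Th_GCost hη hε.le _ _ a1 le_rfl).1)
      (mono_GCost hη hε.le a1 (hmono _ i h))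
  · unfold F2 sg
    refine mul_le_mul_of_nonneg_left ?_ q0.le
    rw [Nat.cast_prod]
    refine prod_le_prod (fun j _ => Nat.cast_nonneg _) fun j _ => ?_
    unfold t2
    exact_mod_cast h j
  · have a0 := hlow (2 * w) y i (by omega)
    have a1 := hz0.trans_le a0
    have a2 := (Th_GCost hη hε.le _ _ a1 le_rfl).1
    exact ⟨(hF _ (a0.trans a2)).2.1, anti a1 a2, (hF _ (a0.trans a2)).2.2.1⟩
  · unfold cz
    have b1 : Real.log 2 ≤ Real.log (2 / (q * w) ^ (D - 1)) := by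
      refine Real.log_le_log two_pos ?_
      rw [le_div_iff₀ hz0]
      linarith
    linarith [Real.log_two_gt_d9]
  · have a0 : 0 ≤ p * Real.exp (2 * cz D q w) := by positivity
    have key : ∀ n : ℕ, n ≤ (2 * T + 1) ^ d → p * Real.exp (2 * cz D q w) * n ≤ 1 / 600 := by
      intro n hn
      have b1 : (1200 : ℝ) * n ≤ w := by exact_mod_cast (Nat.mul_le_mul_left 1200 hn).trans hT
      have b2 := mul_le_mul_of_nonneg_left b1 a0
      linarith
    refine ⟨?_, fun F h => ?_⟩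
    · have b1 := key _ (Nat.pow_le_pow_right (by omega) (Nat.sub_le d 1))
      push_cast at b1
      have b2 := mul_le_mul Real.exp_one_lt_d9.le b1 (by positivity) (by norm_num)
      linarith
    · have b1 := key _ (Nat.pow_le_pow_left (show T ≤ 2 * T + 1 by omega) d)
      push_cast at b1
      have b2 : (Real.exp (- gk k F))⁻¹ ^ 2 ≤ Real.exp (2 * cz D q w) := by
        rw [← Real.exp_neg, neg_neg, ← Real.exp_nat_mul, Real.exp_le_exp]
        push_cast
        linarith [(hF F h).2.2.1]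
      have b3 := mul_le_mul_of_nonneg_left b2 (show 0 ≤ (T : ℝ) ^ d * p by positivity)
      linarith

end Pool.Agent.MP_6d294b_pr

end

section

open Finset

namespace Pool.Agent.MP_6d294b_pr

theorem shift_GLow (φ : ℕ → ℝ) (M : ℝ) (h0 : ∀ t, 0 ≤ φ t) (hM : ∀ t, φ t ≤ M) (a n : ℕ) :
    ∑ t ∈ range n, φ t - a * M ≤ ∑ t ∈ range n, φ (a + t) := by
  have h1 : ∑ t ∈ range n, φ t ≤ ∑ t ∈ range (a + n), φ t :=
    sum_le_sum_of_subset_of_nonneg (range_subset_range.2 (Nat.le_add_left n a))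
      fun t _ _ => h0 t
  rw [sum_range_add] at h1
  have h2 : ∑ t ∈ range a, φ t ≤ a * M := by
    have := sum_le_card_nsmul (range a) φ M fun t _ => hM t
    rwa [card_range, nsmul_eq_mul] at this
  linarith

theorem log_GLow {q : ℝ} (hq : 0 < q) (hq1 : q ≤ 1 / 2000) : 1 ≤ Real.log (1 / q) := by
  rw [Real.le_log_iff_exp_le (by positivity), le_div_iff₀ hq]
  have := Real.exp_one_lt_d9
  nlinarith

theorem top_GLow {k : ℕ} (hk : 1 ≤ k) (j : ℕ) {q z : ℝ} (hq : 0 < q) (hq1 : q ≤ 1 / 2000)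
    (hz : q ^ j ≤ z) : gk k z ≤ (j + 1) * (1 + Real.log (1 / q)) / 2 := by
  have hp : 0 < q ^ j := pow_pos hq j
  have hz0 : 0 < z := lt_of_lt_of_le hp hz
  have h1 := ((bBet k hk).2 z hz0).2.2.1
  have h2 : q ^ j ≤ 1 := pow_le_one₀ hq.le (by linarith)
  have h3 : 1 / z ≤ 1 / q ^ j := one_div_le_one_div_of_le hp hz
  have h4 : 1 ≤ 1 / q ^ j := by rw [le_div_iff₀ hp]; linarith
  have h5 : Real.log (1 + 1 / z) ≤ Real.log (2 * (1 / q) ^ j) := by
    apply Real.log_le_log (by positivity)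
    rw [one_div_pow]
    linarith
  rw [Real.log_mul (by norm_num) (by positivity), Real.log_pow] at h5
  have h6 := Real.log_two_lt_d9
  have h7 := log_GLow hq hq1
  have hj : (0 : ℝ) ≤ j := Nat.cast_nonneg j
  nlinarith

theorem int_GLow {D k : ℕ} (hD : 2 ≤ D) (hk : 1 ≤ k) {q : ℝ} (w n : ℕ) (hq : 0 < q)
    (hq1 : q ≤ 1 / 2000) (hw : 1 ≤ w) (hN : D * Real.log (1 / q) ≤ q * n) :
    D * lamD k D / q - D ^ 2 * (2 * w + 2) * (1 + Real.log (1 / q)) - D ≤
      ∑ t ∈ range n,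
        gk k (q ^ (D - 1) * (((t : ℝ) + 1 + D * ((2 * w : ℕ) : ℝ)) / D) ^ (D - 1)) := by
  have hB := log_GLow hq hq1
  have hD0 : (0 : ℝ) < D := by exact_mod_cast (by omega : 0 < D)
  have hp : 0 < q ^ (D - 1) := pow_pos hq _
  have h1 := bInt D (gk k) hD (fun z z' hz hzz => ((bSlope k hk).2 z z' hz hzz).1)
    (fun z hz => ((bBet k hk).2 z hz).2) q (Real.log (1 / q)) 0 0 n hq (by push_cast; linarith)
    hB (by linarith) le_rfl (by positivity)
  have hone : ∀ t : ℕ, (1 : ℝ) ≤ (((t : ℝ) + D + 1) / D) ^ (D - 1) + 0 := fun t => by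
    have ht : (0 : ℝ) ≤ t := Nat.cast_nonneg t
    have : (1 : ℝ) ≤ ((t : ℝ) + D + 1) / D := by rw [le_div_iff₀ hD0]; linarith
    have := one_le_pow₀ this (n := D - 1)
    linarith
  have hcast : ((D - 1 : ℕ) : ℝ) + 1 = D := by
    rw [Nat.cast_sub (by omega)]; push_cast; ring
  have h2 := shift_GLow
    (fun t : ℕ => gk k (q ^ (D - 1) * ((((t : ℝ) + D + 1) / D) ^ (D - 1) + 0)))
    (D * (1 + Real.log (1 / q)) / 2)
    (fun t => ((bBet k hk).2 _ (mul_pos hp (lt_of_lt_of_le one_pos (hone t)))).2.1)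
    (fun t => by
      have := top_GLow hk (D - 1) hq hq1 (le_mul_of_one_le_right hp.le (hone t))
      rwa [hcast] at this) (D * (2 * w - 1)) n
  have hc : ((D * (2 * w - 1) : ℕ) : ℝ) = D * (2 * w - 1) := by
    rw [Nat.cast_mul, Nat.cast_sub (by omega)]; push_cast; ring
  have h3 : ∑ t ∈ range n, gk k (q ^ (D - 1) *
        (((((D * (2 * w - 1) + t : ℕ) : ℝ) + D + 1) / D) ^ (D - 1) + 0)) =
      ∑ t ∈ range n,
        gk k (q ^ (D - 1) * (((t : ℝ) + 1 + D * ((2 * w : ℕ) : ℝ)) / D) ^ (D - 1)) := by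
    refine sum_congr rfl fun t _ => ?_
    have e : ((D * (2 * w - 1) + t : ℕ) : ℝ) + D + 1 = (t : ℝ) + 1 + D * ((2 * w : ℕ) : ℝ) := by
      rw [Nat.cast_add, hc]; push_cast; ring
    rw [e, add_zero]
  rw [h3, hc] at h2
  have t3 : Real.exp (- Real.log (1 / q) ^ (D - 1)) ≤ q := by
    have b1 : Real.log (1 / q) ≤ Real.log (1 / q) ^ (D - 1) := le_self_pow₀ hB (by omega)
    have b2 : Real.exp (- Real.log (1 / q)) = q := by
      rw [one_div, Real.log_inv, neg_neg, Real.exp_log hq]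
    calc _ ≤ Real.exp (- Real.log (1 / q)) := Real.exp_le_exp.2 (by linarith)
      _ = q := b2
  have t4 : D / q * (lamD k D - D * (q * 2) * (1 + Real.log (1 / q)) - q) ≤
      D / q * (lamD k D - D * (q * (2 + ((0 : ℕ) : ℝ))) * (1 + Real.log (1 / q)) -
        Real.exp (- Real.log (1 / q) ^ (D - 1))) := by
    refine mul_le_mul_of_nonneg_left ?_ (by positivity)
    rw [Nat.cast_zero, add_zero]
    linarith
  have t5 : D / q * (lamD k D - D * (q * 2) * (1 + Real.log (1 / q)) - q) =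
      D * lamD k D / q - 2 * (D ^ 2 * (1 + Real.log (1 / q))) - D := by
    field_simp
  have t6 : 0 ≤ (D : ℝ) ^ 2 * (1 + Real.log (1 / q)) := by positivity
  have t7 : 0 ≤ (w : ℝ) * ((D : ℝ) ^ 2 * (1 + Real.log (1 / q))) :=
    mul_nonneg (Nat.cast_nonneg w) t6
  have t8 := t4.trans h1
  rw [t5] at t8
  nlinarith

theorem gLow (h1 : GStepH) (h2 : GCost) : GLow := by
  intro D k
  have _h := h2
  by_cases hD : 2 ≤ D
  swap
  · exact ⟨0, le_rfl, fun q p w N η ε Φ hB => absurd hB.1 hD⟩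
  obtain ⟨A2, hA2, h1⟩ := h1 D k
  obtain ⟨A3, hA3, h3⟩ := bSumL D (by omega)
  refine ⟨A2 * A3, mul_nonneg hA2 hA3, fun q p w N η ε Φ hB h24 y hy1 hy2 => ?_⟩
  have hs := h1 q p w N η ε Φ hB h24
  obtain ⟨-, hk, hq, hq1, -, hw, -, hη, hS, hΦ⟩ := hB
  have hm := hS.1
  have hv0 : (0 : ℝ) < ((2 * w : ℕ) : ℝ) := by exact_mod_cast (by omega : 0 < 2 * w)
  have hD0 : (0 : ℝ) < D := by exact_mod_cast (by omega : 0 < D)
  obtain ⟨hDd, hP⟩ := bPotB D ((2 * w : ℕ) : ℝ) (by omega) hv0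
  have hp : 0 < q ^ (D - 1) := pow_pos hq _
  have a1 := hP (co2 k q w η ε) Φ (fun z => gk k (q ^ (D - 1) * z))
    (fun z => q ^ (D - 1) * mkk k (q ^ (D - 1) * z)) (fun t => A2 * ell D q (2 * w) η t) (2 * N)
    hΦ
    (fun z z' hz hzz => mul_le_mul_of_nonneg_left
      (hm.2.1 _ _ (mul_pos hp hz) (mul_le_mul_of_nonneg_left hzz hp.le)) hp.le)
    (fun z hz => mul_nonpos_of_nonneg_of_nonpos hp.le (hm.2.2.1 _ (mul_pos hp hz)))
    (fun y i hy => hs y i hy) y hy2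
  rw [sum_sub_distrib, ← mul_sum] at a1
  have a2 := (h3 q (2 * w) (∑ l, y l) η hq (by linarith) (by omega) hη).2
  have a3 := mul_le_mul_of_nonneg_left a2 hA2
  have hpos : ∀ t : ℕ, 0 < q ^ (D - 1) * Dd D ((2 * w : ℕ) : ℝ) t := fun t =>
    mul_pos hp (lt_of_lt_of_le (by positivity) (hDd t).1)
  have a5 : ∑ t ∈ range (∑ l, y l),
        gk k (q ^ (D - 1) * (((t : ℝ) + 1 + D * ((2 * w : ℕ) : ℝ)) / D) ^ (D - 1)) ≤
      ∑ t ∈ range (∑ l, y l), gk k (q ^ (D - 1) * Dd D ((2 * w : ℕ) : ℝ) t) :=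
    sum_le_sum fun t _ => ((bSlope k hk).2 _ _ (hpos t)
      (mul_le_mul_of_nonneg_left (hDd t).2 hp.le)).1
  have a6 := int_GLow hD hk w (∑ l, y l) hq hq1 (by omega) hy1
  rw [mul_assoc A2]
  linarith

end Pool.Agent.MP_6d294b_pr

end

section

open Finset

namespace Pool.Agent.MP_6d294b_pr

theorem hB_GSlp (k : ℕ) (hk : 1 ≤ k) (z : ℝ) (hz : 0 < z) :
    bz k z ≤ 1 ∧ 1 - Real.exp (- z) ≤ bz k z ^ 2 ∧ 1 - bz k z ≤ Real.exp (- z) ^ (k + 1) := by
  have y0 : 0 < Real.exp (- z) := Real.exp_pos _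
  have y1 : Real.exp (- z) ≤ 1 := Real.exp_le_one_iff.2 (by linarith)
  obtain ⟨a, b, c⟩ := (bBet k hk).1 (1 - Real.exp (- z)) (by linarith) (by linarith)
  obtain ⟨-, -, p1, -, -⟩ := bDer k hk z hz
  rw [sub_sub_cancel] at c
  have h0 : 0 < Real.exp (- z) ^ k := pow_pos y0 k
  have h1 : Real.exp (- z) ^ k ≤ 1 := pow_le_one₀ y0.le y1
  have h2 := mul_le_mul_of_nonneg_left a (sub_nonneg.2 h1)
  unfold bz at p1 ⊢
  refine ⟨b, by rw [c]; linarith, ?_⟩
  generalize betk k (1 - Real.exp (- z)) = β at a b c p1 h2 ⊢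
  rw [pow_succ]
  generalize Real.exp (- z) ^ k = y at c h0 h1 h2 ⊢
  generalize Real.exp (- z) = x at a c y0 y1 h2 ⊢
  have h3 : 1 - y ≤ β := by
    have h4 : 0 ≤ y * (1 - x) := mul_nonneg h0.le (by linarith)
    have h5 : (1 - y) * β ≤ β * β := by nlinarith
    exact le_of_mul_le_mul_right h5 p1
  have h6 : (1 - β) * (β + y) = y * x := by nlinarith
  have h7 := mul_le_mul_of_nonneg_left (show 1 ≤ β + y by linarith) (sub_nonneg.2 b)
  linarith

theorem neg_GSlp (k : ℕ) (hk : 1 ≤ k) (z : ℝ) (hz : 0 < z) :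
    mkk k z ≤ - (Real.exp (- z) ^ (k + 1) / (bz k z * dl k z)) := by
  obtain ⟨-, -, p1, p2, -⟩ := bDer k hk z hz
  have : 0 ≤ k * (1 - bz k z) / dl k z :=
    div_nonneg (mul_nonneg (Nat.cast_nonneg k) (sub_nonneg.2 (hB_GSlp k hk z hz).1))
      (p1.le.trans p2)
  unfold mkk
  linarith

theorem tan_GSlp (k : ℕ) (hk : 1 ≤ k) (z z' : ℝ) (hz : 0 < z) (hz' : 0 < z') :
    gk k z + mkk k z * (z' - z) ≤ gk k z' := by
  rcases lt_trichotomy z z' with h | rfl | h
  · obtain ⟨c, c1, c2, e⟩ := mvt_RSlope (fun x hx => (bDer k hk x hx).1) hz h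
    have := mul_le_mul_of_nonneg_right (bConv k hk z c hz c1.le) (sub_pos.2 h).le
    linarith
  · simp
  · obtain ⟨c, c1, c2, e⟩ := mvt_RSlope (fun x hx => (bDer k hk x hx).1) hz' h
    have := mul_le_mul_of_nonneg_right (bConv k hk c z (hz'.trans c1) c2.le) (sub_pos.2 h).le
    linarith

theorem ex_GSlp (k : ℕ) (z : ℝ) : Real.exp (- z) ^ (k + 1) = Real.exp (- ((k + 1) * z)) := by
  rw [← Real.exp_nat_mul]
  congr 1
  push_cast
  ring

theorem low_GSlp (k : ℕ) (hk : 1 ≤ k) (z : ℝ) (hz : 0 < z) :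
    Real.exp (- ((k + 1) * z)) / 2 ≤ - mkk k z := by
  obtain ⟨-, -, p1, p2, -⟩ := bDer k hk z hz
  have p3 := p1.trans_le p2
  have y0 : 0 < Real.exp (- z) := Real.exp_pos _
  have y1 : Real.exp (- z) ≤ 1 := Real.exp_le_one_iff.2 (by linarith)
  have h1 : Real.exp (- z) ^ k ≤ 1 := pow_le_one₀ y0.le y1
  have b1 := (hB_GSlp k hk z hz).1
  have h2 : dl k z ≤ 2 := by
    unfold dl
    linarith
  have h3 : bz k z * dl k z ≤ 2 := (mul_le_of_le_one_left p3.le b1).trans h2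
  have h4 := div_le_div_of_nonneg_left (pow_pos y0 (k + 1)).le (mul_pos p1 p3) h3
  have := neg_GSlp k hk z hz
  rw [← ex_GSlp]
  linarith

theorem upp_GSlp (k : ℕ) (hk : 1 ≤ k) (z : ℝ) (hz : 0 < z) :
    z * (- mkk k z) ≤ (k + 1) * (1 + z) * Real.exp (- ((k + 1) * z)) := by
  obtain ⟨-, -, p1, p2, -⟩ := bDer k hk z hz
  have p3 := p1.trans_le p2
  obtain ⟨b1, b2, b3⟩ := hB_GSlp k hk z hz
  have y0 : 0 < Real.exp (- z) := Real.exp_pos _
  have y1 : Real.exp (- z) < 1 := Real.exp_lt_one_iff.2 (by linarith)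
  have x0 : 0 < Real.exp (- z) ^ (k + 1) := pow_pos y0 _
  have e1 : (1 + z) * Real.exp (- z) ≤ 1 := by
    have h1 := mul_le_mul_of_nonneg_right (Real.add_one_le_exp z) y0.le
    rw [← Real.exp_add, add_neg_cancel, Real.exp_zero] at h1
    linarith
  have u1 : 1 - Real.exp (- z) ≤ bz k z * dl k z := by
    have := mul_le_mul_of_nonneg_left p2 p1.le
    nlinarith
  have u2 : 1 - Real.exp (- z) ≤ dl k z := u1.trans (mul_le_of_le_one_left p3.le b1)
  have u0 : 0 < 1 - Real.exp (- z) := by linarith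
  have k0 : (0 : ℝ) ≤ k := Nat.cast_nonneg k
  have e2 : k * (1 - bz k z) / dl k z ≤
      k * (Real.exp (- z) ^ (k + 1) / (1 - Real.exp (- z))) := by
    rw [mul_div_assoc]
    exact mul_le_mul_of_nonneg_left (div_le_div₀ x0.le b3 u0 u2) k0
  have e3 := div_le_div_of_nonneg_left x0.le u0 u1
  have e4 : z * (Real.exp (- z) ^ (k + 1) / (1 - Real.exp (- z))) ≤
      (1 + z) * Real.exp (- z) ^ (k + 1) := by
    rw [← mul_div_assoc, div_le_iff₀ u0]
    have := mul_le_mul_of_nonneg_right (show z ≤ (1 + z) * (1 - Real.exp (- z)) by linarith) x0.le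
    linarith
  have e5 : - mkk k z ≤ (k + 1) * (Real.exp (- z) ^ (k + 1) / (1 - Real.exp (- z))) := by
    unfold mkk
    linarith
  have e6 := mul_le_mul_of_nonneg_left e5 hz.le
  have e7 := mul_le_mul_of_nonneg_left e4 (show (0 : ℝ) ≤ k + 1 by linarith)
  rw [← ex_GSlp]
  linarith

theorem sml_GSlp (k : ℕ) (hk : 1 ≤ k) (z : ℝ) (hz : 0 < z) (hs : 4 * (k : ℝ) ^ 2 * z ≤ 1) :
    z * mkk k z ≤ - (1 / 12) := by
  have hk1 : (1 : ℝ) ≤ k := by exact_mod_cast hk
  have y0 : 0 < Real.exp (- z) := Real.exp_pos _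
  have y1 : Real.exp (- z) ≤ 1 := Real.exp_le_one_iff.2 (by linarith)
  obtain ⟨-, -, p1, p2, p4⟩ := bDer k hk z hz
  have p3 := p1.trans_le p2
  have h1 : Real.exp (- z) ^ k ≤ 1 := pow_le_one₀ y0.le y1
  have h2 := pow_RSlope k z
  have h3 := pow_RSlope (k + 1) z
  have h4 := pow_RSlope 1 z
  push_cast at h3 h4
  rw [pow_one] at h4
  have h5 : (1 - Real.exp (- z) ^ k) ^ 2 ≤ (k * z) ^ 2 :=
    pow_le_pow_left₀ (by linarith) (by linarith) 2
  have h6 : (k * z) ^ 2 ≤ z / 4 := by nlinarith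
  have h7 : Real.exp (- z) ^ k * (1 - Real.exp (- z)) ≤ z :=
    (mul_le_of_le_one_left (by linarith) h1).trans (by linarith)
  have h8 : bz k z * dl k z ≤ 6 * z := by
    have := mul_le_mul_of_nonneg_right p2 p3.le
    nlinarith
  have h9 : ((k : ℝ) + 1) * z ≤ 1 / 2 := by
    have : (k : ℝ) + 1 ≤ 2 * k ^ 2 := by nlinarith
    have := mul_le_mul_of_nonneg_right this hz.le
    linarith
  have h10 : 1 / 12 ≤ z * (Real.exp (- z) ^ (k + 1) / (bz k z * dl k z)) := by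
    rw [← mul_div_assoc, div_le_div_iff₀ (by norm_num) (mul_pos p1 p3)]
    have := mul_le_mul_of_nonneg_left (show 1 / 2 ≤ Real.exp (- z) ^ (k + 1) by linarith) hz.le
    linarith
  have := mul_le_mul_of_nonneg_left (neg_GSlp k hk z hz) hz.le
  linarith

theorem gSlpA : GSlpA := by
  intro k hk
  refine ⟨tan_GSlp k hk, bConv k hk, fun z hz => ?_, sml_GSlp k hk, low_GSlp k hk,
    upp_GSlp k hk⟩
  have h1 := low_GSlp k hk z hz
  have h2 := Real.exp_pos (- ((k + 1) * z))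
  linarith

theorem gSlp (h1 : GRat) : GSlp := by
  intro k hk
  obtain ⟨δ, hδ, hr⟩ := h1 k hk
  have hs := gSlpA k hk
  have k0 : (0 : ℝ) < k + 1 := by positivity
  refine ⟨⟨min (δ / 16) (min (1 / 16) (1 / (4 * ((k : ℝ) + 1)))), hs, by positivity, ?_, ?_⟩, ?_⟩
  · have h2 : min (δ / 16) (min (1 / 16) (1 / (4 * ((k : ℝ) + 1)))) ≤ 1 / (4 * ((k : ℝ) + 1)) :=
      (min_le_right _ _).trans (min_le_right _ _)
    have h3 := mul_le_mul_of_nonneg_left h2 k0.le
    have h4 : ((k : ℝ) + 1) * (1 / (4 * ((k : ℝ) + 1))) = 1 / 4 := by field_simp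
    linarith
  · intro Z z z' hz' h2 h3
    have e0 : 0 < min (δ / 16) (min (1 / 16) (1 / (4 * ((k : ℝ) + 1)))) := by positivity
    have e1 : min (δ / 16) (min (1 / 16) (1 / (4 * ((k : ℝ) + 1)))) ≤ δ / 16 := min_le_left _ _
    have e2 : min (δ / 16) (min (1 / 16) (1 / (4 * ((k : ℝ) + 1)))) ≤ 1 / 16 :=
      (min_le_right _ _).trans (min_le_left _ _)
    generalize min (δ / 16) (min (1 / 16) (1 / (4 * ((k : ℝ) + 1)))) = ε at h2 e0 e1 e2
    have hz : 0 < z := (pos_iff_pos_of_mul_pos (hz'.trans_le h2)).1 (by linarith)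
    have hZ : 0 < Z := by linarith
    have f1 := mul_le_mul_of_nonneg_right e1 hz.le
    have f2 := mul_le_mul_of_nonneg_right e2 hz.le
    have f3 : z / 4 ≤ 3 * Z / 4 - z' := by linarith
    have t1 := hs.1 (3 * Z / 4) z' (by linarith) hz'
    have t2 := hs.1 Z (3 * Z / 4) hZ (by linarith)
    have t3 := mul_le_mul_of_nonneg_right (hr Z hZ) (show 0 ≤ 3 * Z / 4 - z' by linarith)
    have t4 : 0 ≤ - mkk k Z := neg_nonneg.2 (hs.2.2.1 Z hZ)
    have f4 : z' - z ≤ δ * (3 * Z / 4 - z') := by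
      have := mul_le_mul_of_nonneg_left f3 hδ.le
      linarith
    have t5 := mul_le_mul_of_nonneg_left f4 t4
    linarith
  · have t1 := hs.1 2 1 (by norm_num) (by norm_num)
    have t2 := low_GSlp k hk 2 (by norm_num)
    have t3 := ((bBet k hk).2 2 (by norm_num)).2.1
    have t4 := Real.exp_pos (- (((k : ℝ) + 1) * 2))
    linarith

end Pool.Agent.MP_6d294b_pr

end

section

open Finset

namespace Pool.Agent.MP_6d294b_pr

/-- the remaining number of steps -/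
noncomputable def rem_FWord {d : ℕ} (N : ℕ → ℝ) (R z : Bx d) : ℝ :=
  ∑ i, (N (ex R i) - N (ex z i)) + ∑ s : Sd d, if z s < R s then 1 else 0

theorem ex_FWord {d : ℕ} {S R : Bx d} (hSR : S ≤ R) (i : Fin d) : ex S i ≤ ex R i := by
  have h2 : S (i, true) ≤ R (i, true) := hSR (i, true)
  have h3 : S (i, false) ≤ R (i, false) := hSR (i, false)
  unfold ex
  omega

theorem rem_nonneg_FWord {d : ℕ} {N : ℕ → ℝ} (hN : Monotone N) {R z : Bx d} (h : z ≤ R) :
    0 ≤ rem_FWord N R z :=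
  add_nonneg (sum_nonneg fun i _ => sub_nonneg.mpr (hN (ex_FWord h i)))
    (sum_nonneg fun s _ => by split_ifs <;> norm_num)

theorem up_FWord {d : ℕ} {z B : Bx d} (h : z ≤ B) (s : Sd d) {a : ℤ} (h1 : z s ≤ a)
    (h2 : a ≤ B s) : z ≤ Function.update z s a ∧ Function.update z s a ≤ B := by
  constructor
  · intro t
    by_cases ht : t = s
    · rw [ht, Function.update_self]
      exact h1
    · rw [Function.update_of_ne ht]
  · intro t
    by_cases ht : t = s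
    · rw [ht, Function.update_self]
      exact h2
    · rw [Function.update_of_ne ht]
      exact h t

theorem drop_FWord {d : ℕ} {m : ℕ → ℕ} {N : ℕ → ℝ} {L : ℕ} (hN : Monotone N)
    (hm : ∀ y, y ≤ L → N y + 1 ≤ N (y + m y)) {R z : Bx d} (hL : ∀ i, ex R i ≤ L) (hz : Val z)
    (h : z ≤ R) (s : Sd d) (hs : z s < R s) :
    rem_FWord N R (Function.update z s (outB m R z s)) + 1 ≤ rem_FWord N R z := by
  have h0 : z s ≤ outB m R z s := by
    unfold outB
    omega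
  obtain ⟨h1, -⟩ := up_FWord h s h0 (min_le_left _ _)
  have a1 : ∀ i, N (ex R i) - N (ex (Function.update z s (outB m R z s)) i) ≤
      N (ex R i) - N (ex z i) := fun i => sub_le_sub_left (hN (ex_FWord h1 i)) _
  have a2 : ∀ t : Sd d, (if Function.update z s (outB m R z s) t < R t then (1 : ℝ) else 0) ≤
      if z t < R t then 1 else 0 := fun t => by
    have h2 : z t ≤ Function.update z s (outB m R z s) t := h1 t
    split_ifs with b1 b2
    · exact le_rfl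
    · exact absurd (lt_of_le_of_lt h2 b1) b2
    · exact zero_le_one
    · exact le_rfl
  unfold rem_FWord
  rcases le_total (R s) (z s + m (ex z s.1)) with h2 | h2
  · have a3 := sum_le_sum fun i (_ : i ∈ univ) => a1 i
    have a4 := sum_le_sum fun t (_ : t ∈ univ.erase s) => a2 t
    rw [← add_sum_erase univ _ (mem_univ s), ← add_sum_erase univ _ (mem_univ s), if_pos hs,
      Function.update_self, if_neg (not_lt.mpr (show R s ≤ outB m R z s from le_min le_rfl h2))]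
    linarith
  · have a3 := sum_le_sum fun i (_ : i ∈ univ.erase s.1) => a1 i
    have a4 := sum_le_sum fun t (_ : t ∈ univ) => a2 t
    have a5 : ex (Function.update z s (outB m R z s)) s.1 = ex z s.1 + m (ex z s.1) := by
      have b1 : outB m R z s = z s + m (ex z s.1) := min_eq_right h2
      rw [b1]
      obtain ⟨i, b⟩ := s
      have b2 := hz i
      generalize m (ex z (i, b).1) = a
      cases b
      · simp only [ex, Function.update_self,
          Function.update_of_ne (show ((i, true) : Sd d) ≠ (i, false) by simp)]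
        omega
      · simp only [ex, Function.update_self,
          Function.update_of_ne (show ((i, false) : Sd d) ≠ (i, true) by simp)]
        omega
    have a6 := hm (ex z s.1) ((ex_FWord h s.1).trans (hL s.1))
    rw [← add_sum_erase univ _ (mem_univ s.1), ← add_sum_erase univ _ (mem_univ s.1), a5]
    linarith

/-- an initial piece of a path -/
def Gp_FWord {d : ℕ} (m : ℕ → ℕ) (N : ℕ → ℝ) (S R : Bx d) (τ : ℕ) (z : ℕ → Bx d) : Prop :=
  z 0 = S ∧ (∀ t, t < τ → ∃ s, z (t + 1) = Function.update (z t) s (outB m R (z t) s)) ∧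
    Val (z τ) ∧ τ + rem_FWord N R (z τ) ≤ rem_FWord N R S

theorem inner_FWord {d : ℕ} {m : ℕ → ℕ} {N : ℕ → ℝ} {L : ℕ} (hN : Monotone N)
    (hm : ∀ y, y ≤ L → N y + 1 ≤ N (y + m y)) {S R B : Bx d} (hL : ∀ i, ex R i ≤ L)
    (hB : B ≤ R) (n : ℕ) : ∀ (τ : ℕ) (z : ℕ → Bx d), rem_FWord N R (z τ) < n →
      Gp_FWord m N S R τ z → z τ ≤ B → ∃ (τ' : ℕ) (z' : ℕ → Bx d), τ ≤ τ' ∧
        (∀ t, t ≤ τ → z' t = z t) ∧ Gp_FWord m N S R τ' z' ∧ z' τ' ≤ B ∧
        ∀ s, B s < outB m R (z' τ') s ∨ z' τ' s = R s := by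
  induction n with
  | zero =>
    intro τ z h1 _ h3
    exact absurd h1 (not_lt.mpr (by simpa using rem_nonneg_FWord hN (h3.trans hB)))
  | succ n ih =>
    intro τ z h1 h2 h3
    by_cases hs : ∀ s, B s < outB m R (z τ) s ∨ z τ s = R s
    · exact ⟨τ, z, le_rfl, fun _ _ => rfl, h2, h3, hs⟩
    obtain ⟨s, hs⟩ := not_forall.mp hs
    obtain ⟨s1, s2⟩ := not_or.mp hs
    have s3 : z τ s < R s := lt_of_le_of_ne ((h3.trans hB) s) s2
    have s4 : z τ s ≤ outB m R (z τ) s := by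
      unfold outB
      omega
    obtain ⟨u1, u2⟩ := up_FWord h3 s s4 (not_lt.mp s1)
    have u3 := drop_FWord hN hm hL h2.2.2.1 (h3.trans hB) s s3
    obtain ⟨y, y1, y2⟩ : ∃ y : ℕ → Bx d, (∀ t, t ≤ τ → y t = z t) ∧
        y (τ + 1) = Function.update (z τ) s (outB m R (z τ) s) :=
      ⟨fun t => if t ≤ τ then z t else Function.update (z τ) s (outB m R (z τ) s),
        fun t ht => if_pos ht, if_neg (by omega)⟩
    rw [← y2] at u1 u2 u3
    obtain ⟨τ', z', c1, c2, c3, c4⟩ := ih (τ + 1) y (by push_cast at h1; linarith)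
      ⟨(y1 0 (Nat.zero_le τ)).trans h2.1, fun t ht => by
        rcases Nat.lt_succ_iff_lt_or_eq.mp ht with h4 | h4
        · rw [y1 (t + 1) h4, y1 t h4.le]
          exact h2.2.1 t h4
        · rw [h4, y2, y1 τ le_rfl]
          exact ⟨s, rfl⟩, fun i => by
        have b1 := h2.2.2.1 i
        have b2 : z τ (i, true) ≤ y (τ + 1) (i, true) := u1 (i, true)
        have b3 : z τ (i, false) ≤ y (τ + 1) (i, false) := u1 (i, false)
        omega, by
        push_cast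
        linarith [h2.2.2.2]⟩ u2
    exact ⟨τ', z', by omega, fun t ht => (c2 t (by omega)).trans (y1 t ht), c3, c4⟩

theorem tWord (h4 : TChn) : TWord := by
  intro d m N L M T G S R A hd hN hm hL hS hM hC
  have hSR : S ≤ R := (((h4 d T).1 G S R).2 A hC).1
  obtain ⟨k, Q, P, W, q0, qk, -, hq, hW⟩ := hC
  have hQ1 : ∀ j, j < k → Q j ≤ Q (j + 1) := fun j hj => by
    rw [(hq j hj).2.2.2.2]
    exact le_sup_left
  have hQ2 : ∀ n j, j + n = k → Q j ≤ R := by
    intro n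
    induction n with
    | zero => intro j hj; rw [← qk, ← hj]; exact le_rfl
    | succ n ih => intro j hj; exact (hQ1 j (by omega)).trans (ih (j + 1) (by omega))
  have hQ : ∀ j, j ≤ k → Q j ≤ R := fun j hj => hQ2 (k - j) j (by omega)
  have adv : ∀ (B : Bx d), B ≤ R → ∀ (τ : ℕ) (z : ℕ → Bx d), Gp_FWord m N S R τ z → z τ ≤ B →
      ∃ (τ' : ℕ) (z' : ℕ → Bx d), τ ≤ τ' ∧ (∀ t, t ≤ τ → z' t = z t) ∧ Gp_FWord m N S R τ' z' ∧
        z' τ' ≤ B ∧ (∀ s, B s < outB m R (z' τ') s ∨ z' τ' s = R s) ∧ B ≤ outB m R (z' τ') := by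
    intro B hB τ z h1 h2
    obtain ⟨n, hn⟩ := exists_nat_gt (rem_FWord N R (z τ))
    obtain ⟨τ', z', c1, c2, c3, c4, c5⟩ := inner_FWord hN hm hL hB n τ z hn h1 h2
    refine ⟨τ', z', c1, c2, c3, c4, c5, fun s => ?_⟩
    rcases c5 s with h | h
    · exact h.le
    · have b1 : B s ≤ R s := hB s
      show B s ≤ min (R s) (z' τ' s + m (ex (z' τ') s.1))
      omega
  have key : ∀ j, j ≤ k → ∃ (τ : ℕ) (z : ℕ → Bx d), Gp_FWord m N S R τ z ∧ z τ ≤ Q j ∧
      (∀ s, Q j s < outB m R (z τ) s ∨ z τ s = R s) ∧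
      ∀ i, i ≤ j → ∃ σ, σ ≤ τ ∧ z σ ≤ Q i ∧ Q i ≤ outB m R (z σ) := by
    intro j
    induction j with
    | zero =>
      intro hj
      obtain ⟨τ, z, -, -, c3, c4, c5, c6⟩ := adv (Q 0) (hQ 0 hj) 0 (fun _ => S)
        ⟨rfl, fun t ht => absurd ht (Nat.not_lt_zero t), hS, by simp⟩ q0.ge
      exact ⟨τ, z, c3, c4, c5, fun i hi => ⟨τ, le_rfl, by rw [Nat.le_zero.mp hi]; exact ⟨c4, c6⟩⟩⟩
    | succ j ih =>
      intro hj
      obtain ⟨τ, z, b1, b2, -, b4⟩ := ih (by omega)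
      obtain ⟨τ', z', c1, c2, c3, c4, c5, c6⟩ := adv (Q (j + 1)) (hQ _ hj) τ z b1
        (b2.trans (hQ1 j hj))
      refine ⟨τ', z', c3, c4, c5, fun i hi => ?_⟩
      rcases hi.eq_or_lt with h | h
      · exact ⟨τ', le_rfl, by rw [h]; exact ⟨c4, c6⟩⟩
      · obtain ⟨σ, e1, e2⟩ := b4 i (by omega)
        exact ⟨σ, e1.trans c1, by rw [c2 σ e1]; exact e2⟩
  obtain ⟨τ, z, b1, -, b3, b4⟩ := key k le_rfl
  have hzR : z τ = R := funext fun s => (b3 s).resolve_left (by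
    rw [qk]
    exact not_lt.mpr (min_le_left _ _))
  have hτ : τ ≤ M := by
    have c1 := b1.2.2.2
    have c2 := rem_nonneg_FWord hN hzR.le
    have c3 : (∑ s : Sd d, if S s < R s then (1 : ℝ) else 0) ≤ 2 * d := by
      refine le_trans (sum_le_card_nsmul _ _ 1 fun s _ => by split_ifs <;> norm_num) ?_
      simp [mul_comm]
    have c4 : rem_FWord N R S ≤ M := by
      unfold rem_FWord
      linarith
    exact_mod_cast (by linarith : (τ : ℝ) ≤ M)
  obtain ⟨y, y1, y2⟩ : ∃ y : ℕ → Bx d, (∀ t, t ≤ τ → y t = z t) ∧ ∀ t, τ ≤ t → y t = R :=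
    ⟨fun t => if t ≤ τ then z t else R, fun t ht => if_pos ht, fun t ht => by
      show (if t ≤ τ then z t else R) = R
      split_ifs with h
      · rw [le_antisymm h ht, hzR]
      · rfl⟩
  refine ⟨y, ⟨(y1 0 (Nat.zero_le τ)).trans b1.1, y2 M hτ, fun t => ?_⟩,
    k, Q, P, W, q0, qk, fun j hj => ?_, hq, hW⟩
  · rcases lt_or_ge t τ with h | h
    · rw [y1 (t + 1) h, y1 t h.le]
      exact b1.2.1 t h
    · refine ⟨(⟨0, hd⟩, true), ?_⟩
      have c1 : outB m R R (⟨0, hd⟩, true) = R (⟨0, hd⟩, true) := by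
        unfold outB
        omega
      rw [y2 (t + 1) (by omega), y2 t h, c1, Function.update_eq_self]
  · obtain ⟨σ, e1, e2⟩ := b4 j hj
    exact ⟨σ, e1.trans hτ, by rw [y1 σ e1]; exact e2⟩

end Pool.Agent.MP_6d294b_pr

end

section

open Finset

namespace Pool.Agent.MP_6d294b_pr

theorem gWord (h1 : GChn) : GWord := by
  have _ := h1
  intro d d' F m N L M T G S R A hd hN hm hL hS hM hC
  obtain ⟨k, Q, P, W, q0, qk, -, hq, hW⟩ := hC
  have hQ1 : ∀ j, j < k → Q j ≤ Q (j + 1) := fun j hj => by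
    rw [(hq j hj).2.2.2]
    exact le_sup_left
  have hQ2 : ∀ n j, j + n = k → Q j ≤ R := by
    intro n
    induction n with
    | zero => intro j hj; rw [← qk, ← hj]; exact le_rfl
    | succ n ih => intro j hj; exact (hQ1 j (by omega)).trans (ih (j + 1) (by omega))
  have hQ : ∀ j, j ≤ k → Q j ≤ R := fun j hj => hQ2 (k - j) j (by omega)
  have adv : ∀ (B : Bx d), B ≤ R → ∀ (τ : ℕ) (z : ℕ → Bx d), Gp_FWord m N S R τ z → z τ ≤ B →
      ∃ (τ' : ℕ) (z' : ℕ → Bx d), τ ≤ τ' ∧ (∀ t, t ≤ τ → z' t = z t) ∧ Gp_FWord m N S R τ' z' ∧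
        z' τ' ≤ B ∧ (∀ s, B s < outB m R (z' τ') s ∨ z' τ' s = R s) ∧ B ≤ outB m R (z' τ') := by
    intro B hB τ z h1 h2
    obtain ⟨n, hn⟩ := exists_nat_gt (rem_FWord N R (z τ))
    obtain ⟨τ', z', c1, c2, c3, c4, c5⟩ := inner_FWord hN hm hL hB n τ z hn h1 h2
    refine ⟨τ', z', c1, c2, c3, c4, c5, fun s => ?_⟩
    rcases c5 s with h | h
    · exact h.le
    · have b1 : B s ≤ R s := hB s
      show B s ≤ min (R s) (z' τ' s + m (ex (z' τ') s.1))
      omega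
  have key : ∀ j, j ≤ k → ∃ (τ : ℕ) (z : ℕ → Bx d), Gp_FWord m N S R τ z ∧ z τ ≤ Q j ∧
      (∀ s, Q j s < outB m R (z τ) s ∨ z τ s = R s) ∧
      ∀ i, i ≤ j → ∃ σ, σ ≤ τ ∧ z σ ≤ Q i ∧ Q i ≤ outB m R (z σ) := by
    intro j
    induction j with
    | zero =>
      intro hj
      obtain ⟨τ, z, -, -, c3, c4, c5, c6⟩ := adv (Q 0) (hQ 0 hj) 0 (fun _ => S)
        ⟨rfl, fun t ht => absurd ht (Nat.not_lt_zero t), hS, by simp⟩ q0.ge
      exact ⟨τ, z, c3, c4, c5, fun i hi => ⟨τ, le_rfl, by rw [Nat.le_zero.mp hi]; exact ⟨c4, c6⟩⟩⟩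
    | succ j ih =>
      intro hj
      obtain ⟨τ, z, b1, b2, -, b4⟩ := ih (by omega)
      obtain ⟨τ', z', c1, c2, c3, c4, c5, c6⟩ := adv (Q (j + 1)) (hQ _ hj) τ z b1
        (b2.trans (hQ1 j hj))
      refine ⟨τ', z', c3, c4, c5, fun i hi => ?_⟩
      rcases hi.eq_or_lt with h | h
      · exact ⟨τ', le_rfl, by rw [h]; exact ⟨c4, c6⟩⟩
      · obtain ⟨σ, e1, e2⟩ := b4 i (by omega)
        exact ⟨σ, e1.trans c1, by rw [c2 σ e1]; exact e2⟩
  obtain ⟨τ, z, b1, -, b3, b4⟩ := key k le_rfl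
  have hzR : z τ = R := funext fun s => (b3 s).resolve_left (by
    rw [qk]
    exact not_lt.mpr (min_le_left _ _))
  have hτ : τ ≤ M := by
    have c1 := b1.2.2.2
    have c2 := rem_nonneg_FWord hN hzR.le
    have c3 : (∑ s : Sd d, if S s < R s then (1 : ℝ) else 0) ≤ 2 * d := by
      refine le_trans (sum_le_card_nsmul _ _ 1 fun s _ => by split_ifs <;> norm_num) ?_
      simp [mul_comm]
    have c4 : rem_FWord N R S ≤ M := by
      unfold rem_FWord
      linarith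
    exact_mod_cast (by linarith : (τ : ℝ) ≤ M)
  obtain ⟨y, y1, y2⟩ : ∃ y : ℕ → Bx d, (∀ t, t ≤ τ → y t = z t) ∧ ∀ t, τ ≤ t → y t = R :=
    ⟨fun t => if t ≤ τ then z t else R, fun t ht => if_pos ht, fun t ht => by
      show (if t ≤ τ then z t else R) = R
      split_ifs with h
      · rw [le_antisymm h ht, hzR]
      · rfl⟩
  refine ⟨y, ⟨(y1 0 (Nat.zero_le τ)).trans b1.1, y2 M hτ, fun t => ?_⟩,
    k, Q, P, W, q0, qk, fun j hj => ?_, hq, hW⟩
  · rcases lt_or_ge t τ with h | h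
    · rw [y1 (t + 1) h, y1 t h.le]
      exact b1.2.1 t h
    · refine ⟨(⟨0, hd⟩, true), ?_⟩
      have c1 : outB m R R (⟨0, hd⟩, true) = R (⟨0, hd⟩, true) := by
        unfold outB
        omega
      rw [y2 (t + 1) (by omega), y2 t h, c1, Function.update_eq_self]
  · obtain ⟨σ, e1, e2⟩ := b4 j hj
    exact ⟨σ, e1.trans hτ, by rw [y1 σ e1]; exact e2⟩

theorem gWrd (h1 : GWord) : GWrd := by
  intro D d F T w G S R Ω p q a c hD hq p0 p1 c0 hS hSR hq2 hpath
  have d0 : (0 : ℝ) ≤ D := Nat.cast_nonneg D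
  have l0 : 0 ≤ Real.log (2 * D + 1) := Real.log_nonneg (by linarith)
  obtain ⟨-, n2, -, -, n5⟩ := bNf q hq
  have n3 : Monotone fun y : ℕ => Nf q (y + 2 * w) := fun a b h => n2 (by omega)
  have hE : ∑ i, (Nf q (ex R i + 2 * w) - Nf q (ex S i + 2 * w)) =
      NV q w (ex R) - NV q w (ex S) := by
    unfold NV N2
    rw [← sum_sub_distrib]
    exact sum_congr rfl fun i _ => by ring
  have hN : 0 ≤ NV q w (ex R) - NV q w (ex S) := by
    rw [← hE]
    exact sum_nonneg fun i _ => sub_nonneg.2 (n3 (ex_FWord hSR i))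
  generalize NV q w (ex R) - NV q w (ex S) = Δ at hE hN ⊢
  obtain ⟨M, hM1, hM2⟩ : ∃ M : ℕ, Δ + 2 * D ≤ M ∧ (M : ℝ) ≤ Δ + 1 + 2 * D := by
    refine ⟨⌈Δ⌉₊ + 2 * D, ?_, ?_⟩
    · push_cast
      linarith [Nat.le_ceil Δ]
    · push_cast
      linarith [Nat.ceil_lt_add_one hN]
  obtain ⟨Z, hZ1, hZ2, hZ3⟩ := bPathB D (m2 q w) S R M
  obtain ⟨-, -, a2, -, a4, -⟩ := bPrA (Pt d) Ω p p0 p1
  have e1 : Pr Ω p (Chn2 F T G S R) ≤
      Pr Ω p (fun A => ∃ z ∈ Z, Chn2 F T (Fol (m2 q w) R M z) S R A) := by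
    refine a2 _ _ fun A _ hA => ?_
    obtain ⟨z, hz, hc⟩ := h1 D d F (m2 q w) (fun y => Nf q (y + 2 * w)) (psi R) M T G S R A hD n3
      (fun y hy => by
        have b1 : (y : ℝ) ≤ psi R := by exact_mod_cast hy
        have b2 := n5 (y + 2 * w) (by
          push_cast
          exact le_trans (mul_le_mul_of_nonneg_left (by linarith) (sq_nonneg q)) hq2)
        rwa [Nat.add_right_comm] at b2)
      (fun i => single_le_sum (f := ex R) (fun _ _ => Nat.zero_le _) (mem_univ i)) hS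
      (by rw [hE]; exact hM1) hA
    exact ⟨z, hZ3 z hz, hc⟩
  have e2 := a4 (ℕ → Bx D) Z fun z => Chn2 F T (Fol (m2 q w) R M z) S R
  have e3 := sum_le_card_nsmul Z _ _ fun z hz => hpath M z (hZ2 z hz)
  have e4 : (Z.card : ℝ) ≤ Real.exp (M * Real.log (2 * D + 1)) := by
    rw [Real.exp_nat_mul, Real.exp_log (by linarith)]
    have : (Z.card : ℝ) ≤ (2 * D : ℝ) ^ M := by exact_mod_cast hZ1
    exact this.trans (pow_le_pow_left₀ (by linarith) (by linarith) M)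
  rw [nsmul_eq_mul] at e3
  refine e1.trans (e2.trans (e3.trans
    ((mul_le_mul_of_nonneg_right e4 (Real.exp_pos _).le).trans ?_)))
  rw [← Real.exp_add]
  refine Real.exp_le_exp.2 ?_
  have e5 : ((M : ℝ) + 1) * (Real.log (2 * D + 1) + c + 1) ≤
      (Δ + (2 * D + 2)) * (Real.log (2 * D + 1) + c + 1) :=
    mul_le_mul_of_nonneg_right (by linarith) (by linarith)
  have e6 : 0 ≤ Δ * (Real.log (2 * D + 1) + c + 1) * (2 * D + 1) :=
    mul_nonneg (mul_nonneg hN (by linarith)) (by linarith)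
  have e7 : (0 : ℝ) ≤ M := Nat.cast_nonneg M
  nlinarith

end Pool.Agent.MP_6d294b_pr

end

section

open Finset

namespace Pool.Agent.MP_6d294b_pr

variable {d : ℕ}

lemma mem_ucube_UGlob {v x : Pt d} {m : ℕ} : x ∈ ucube v m ↔ ∀ j, v j ≤ x j ∧ x j < v j + m :=
  mem_ubox

/-- corner of the cube with index `c` -/
def cor_UGlob {M : ℕ} (N : ℕ) (c : Fin d → Fin M) : Pt d := fun j => ((N + 1 : ℕ) : ℤ) * (c j : ℕ)

lemma sub_UGlob (n N : ℕ) (c : Fin d → Fin (n / (N + 1))) :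
    ucube (cor_UGlob N c) (N + 1) ⊆ grid d n := by
  intro x hx
  rw [mem_ucube_UGlob] at hx
  refine mem_grid.2 fun j => ?_
  obtain ⟨a, b⟩ := hx j
  have h1 : (N + 1) * ((c j : ℕ) + 1) ≤ n :=
    (Nat.mul_le_mul_left _ (c j).2).trans (Nat.mul_div_le n (N + 1))
  have h2 : (((N + 1) * ((c j : ℕ) + 1) : ℕ) : ℤ) ≤ n := by exact_mod_cast h1
  have h3 : (0 : ℤ) ≤ ((N + 1 : ℕ) : ℤ) * (c j : ℕ) := by positivity
  unfold cor_UGlob at a b
  push_cast at a b h2 h3
  constructor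
  · linarith
  · linarith

lemma disj_UGlob {M : ℕ} (N : ℕ) {c c' : Fin d → Fin M} (h : c ≠ c') :
    Disjoint (ucube (cor_UGlob N c) (N + 1)) (ucube (cor_UGlob N c') (N + 1)) := by
  refine Finset.disjoint_left.2 fun x hx hx' => h (funext fun j => Fin.ext ?_)
  obtain ⟨a, b⟩ := mem_ucube_UGlob.1 hx j
  obtain ⟨a', b'⟩ := mem_ucube_UGlob.1 hx' j
  unfold cor_UGlob at a b a' b'
  have h0 : (0 : ℤ) < ((N + 1 : ℕ) : ℤ) := by positivity
  have h1 : ((c j : ℕ) : ℤ) < (c' j : ℕ) + 1 := lt_of_mul_lt_mul_left (by linarith) h0.le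
  have h2 : ((c' j : ℕ) : ℤ) < (c j : ℕ) + 1 := lt_of_mul_lt_mul_left (by linarith) h0.le
  omega

lemma drop_UGlob (n N : ℕ) (v : Pt d) (A : Finset (Pt d)) :
    UDrop n v N A ↔ UDrop n v N (A ∩ ucube v (N + 1)) := by
  refine forall_congr' fun S => forall_congr' fun _ => ⟨fun h h' => h fun x hx hx' => ?_,
    fun h h' => h fun x hx hx' => h' x (Finset.mem_inter.1 hx).1 hx'⟩
  exact h' x (Finset.mem_inter.2 ⟨hx, hx'⟩) hx'

lemma seg_sub_UGlob {n N : ℕ} {x : Pt d} (hx : x ∈ grid d n) {i : Fin d} (hi : x i + N ≤ n) :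
    useg x i N ⊆ grid d n := by
  intro y hy
  refine mem_grid.2 fun j => ?_
  obtain ⟨a, b⟩ := mem_ubox.1 hy j
  obtain ⟨a', b'⟩ := mem_grid.1 hx j
  by_cases h : j = i
  · subst h
    rw [if_pos rfl] at b
    omega
  · rw [if_neg h] at b
    omega

lemma seg_card_UGlob (N : ℕ) (x : Pt d) (i : Fin d) : (useg x i N).card = N := by
  unfold useg
  rw [card_ubox, Finset.prod_eq_single i]
  · simp
  · intro j _ h
    simp [h]
  · simp

lemma grid_card_UGlob (n : ℕ) : (grid d n).card = n ^ d := by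
  simp [grid, Fintype.card_piFinset]

theorem sUGlob (h1 : SUHar) (h2 : SUInd) (h3 : SUComp) : SUGlob := by
  classical
  intro d n N p δ hd hN p0 p1 hδ
  have q0 : 0 ≤ 1 - p := by linarith
  have a1 : Pr (grid d n) p (fun A => ∀ c ∈ (univ : Finset (Fin d → Fin (n / (N + 1)))),
      ¬ UDrop n (cor_UGlob N c) N A) ≤ Real.exp (- (δ * ((n / (N + 1) : ℕ) : ℝ) ^ d)) := by
    rw [(h2 _ (grid d n) p p0 p1 _ univ (fun c A => ¬ UDrop n (cor_UGlob N c) N A)).1
      (fun c => ucube (cor_UGlob N c) (N + 1)) (fun c _ c' _ h => disj_UGlob N h)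
      fun c _ A => not_congr (drop_UGlob n N _ A)]
    refine (Finset.prod_le_prod (g := fun _ => Real.exp (- δ))
      (fun c _ => nonneg_PrA _ p0 p1 _) fun c _ => ?_).trans (le_of_eq ?_)
    · rw [compl_PrB]
      have := hδ _ (sub_UGlob n N c)
      have := Real.add_one_le_exp (- δ)
      linarith
    · rw [Finset.prod_const, Finset.card_univ, Fintype.card_fun, Fintype.card_fin,
        Fintype.card_fin, ← Real.exp_nat_mul]
      congr 1
      push_cast
      ring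
  have a2 : Pr (grid d n) p (fun A => ∃ k ∈ (grid d n ×ˢ (univ : Finset (Fin d))).filter
      (fun k : Pt d × Fin d => k.1 k.2 + (N : ℤ) ≤ (n : ℤ)), ¬ Hit (useg k.1 k.2 N) A) ≤ d * (n : ℝ) ^ d * (1 - p) ^ N := by
    refine (union_PrA _ p0 p1 _ fun (k : Pt d × Fin d) A => ¬ Hit (useg k.1 k.2 N) A).trans ?_
    refine (Finset.sum_le_card_nsmul _ _ ((1 - p) ^ N) fun k hk => le_of_eq ?_).trans ?_
    · obtain ⟨b1, b2⟩ := Finset.mem_filter.1 hk
      rw [compl_PrB, (h1 _ (grid d n) p p0 p1).2.2.1 _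
        (seg_sub_UGlob (Finset.mem_product.1 b1).1 b2), seg_card_UGlob]
      ring
    · rw [nsmul_eq_mul]
      refine mul_le_mul_of_nonneg_right ?_ (pow_nonneg q0 _)
      have := Finset.card_filter_le (grid d n ×ˢ (univ : Finset (Fin d)))
        (fun k : Pt d × Fin d => k.1 k.2 + (N : ℤ) ≤ (n : ℤ))
      rw [Finset.card_product, grid_card_UGlob, Finset.card_univ, Fintype.card_fin,
        mul_comm] at this
      exact_mod_cast this
  have a3 := (mono_PrA (grid d n) p0 p1 (fun A => ¬ UFull n A) _ fun A _ hA => ?_).trans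
    ((or_PrA (grid d n) p0 p1 _ _).trans (add_le_add a1 a2))
  · rw [compl_PrB] at a3
    linarith
  · by_contra hc
    rw [not_or] at hc
    obtain ⟨c1, c2⟩ := hc
    push Not at c1 c2
    obtain ⟨c, -, c3⟩ := c1
    exact hA (h3 d n N _ A hd hN (sub_UGlob n N c) c3 fun x hx i hi =>
      c2 (x, i) (Finset.mem_filter.2 ⟨Finset.mem_product.2 ⟨hx, Finset.mem_univ _⟩, hi⟩))

end Pool.Agent.MP_6d294b_pr

end

section

/-! Upper bound for all thresholds: the weight of a growth event. -/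

open Finset

namespace Pool.Agent.MP_6d294b_pr

open MeasureTheory

theorem tailnn_VCost {g : ℝ → ℝ} (hb : HB_RInt g) (k : ℕ) {a : ℝ} (ha : 0 ≤ a) :
    0 ≤ ∫ v in Set.Ioi a, g (v ^ k) :=
  setIntegral_nonneg measurableSet_Ioi fun _ hv => nn_RInt hb k (lt_of_le_of_lt ha hv)

theorem tel_VCost {g : ℝ → ℝ} (hb : HB_RInt g) (hs : HA_RInt g) (j : ℕ) {q : ℝ} (hq : 0 < q)
    (M : ℕ) : q * ∑ l ∈ Finset.Ico 1 (M + 1), g ((q * l) ^ (j + 1)) ≤
      (∫ v in Set.Ioi (0 : ℝ), g (v ^ (j + 1))) - ∫ v in Set.Ioi (q * M), g (v ^ (j + 1)) := by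
  induction M with
  | zero => simp
  | succ M ih =>
    rw [Finset.sum_Ico_succ_top (by omega), mul_add]
    have h0 : 0 ≤ q * M := by positivity
    have h1 : q * M ≤ q * ((M + 1 : ℕ) : ℝ) := by push_cast; nlinarith
    have h2 := split_RInt hb hs j h0 h1
    have h3 : ∫ _ in q * M..q * ((M + 1 : ℕ) : ℝ), g ((q * ((M + 1 : ℕ) : ℝ)) ^ (j + 1)) ≤
        ∫ v in q * M..q * ((M + 1 : ℕ) : ℝ), g (v ^ (j + 1)) := by
      refine intervalIntegral.integral_mono_on_of_le_Ioo h1 intervalIntegrable_const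
        (ii_RInt hb hs j h0 h1) fun v hv => ?_
      have hv0 : 0 < v := lt_of_le_of_lt h0 hv.1
      exact anti_RInt hs (j + 1) hv0 (lt_trans hv0 hv.2) hv.2.le
    rw [intervalIntegral.integral_const, smul_eq_mul] at h3
    have e : q * ((M + 1 : ℕ) : ℝ) - q * M = q := by push_cast; ring
    rw [e] at h3
    linarith

theorem pos_VCost {g : ℝ → ℝ} (hb : HB_RInt g) (hs : HA_RInt g) (j : ℕ) {a δ : ℝ} (ha : 0 < a)
    (h1 : a ≤ 1) (hδ : 0 < δ) (h : δ ≤ g a) : 0 < ∫ v in Set.Ioi (0 : ℝ), g (v ^ (j + 1)) := by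
  have h2 := split_RInt hb hs j le_rfl ha.le
  have h3 := tailnn_VCost hb (j + 1) ha.le
  have h4 : ∫ _ in (0 : ℝ)..a, δ ≤ ∫ v in (0 : ℝ)..a, g (v ^ (j + 1)) := by
    refine intervalIntegral.integral_mono_on_of_le_Ioo ha.le intervalIntegrable_const
      (ii_RInt hb hs j le_rfl ha.le) fun v hv => h.trans (hs _ _ (pow_pos hv.1 _) ?_)
    exact (pow_le_of_le_one hv.1.le (hv.2.le.trans h1) (Nat.succ_ne_zero j)).trans hv.2.le
  rw [intervalIntegral.integral_const, smul_eq_mul, sub_zero] at h4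
  have h5 := mul_pos ha hδ
  linarith

theorem low_VCost (hb : RBet) (hs : RSlope) {c : ℕ} (hc : 1 ≤ c) :
    ∃ a : ℝ, 0 < a ∧ a ≤ 1 ∧ 1 / 24 ≤ gk c a := by
  obtain ⟨m, h1, -, -, h4⟩ := (hs c hc).1
  have hc1 : (1 : ℝ) ≤ c := by exact_mod_cast hc
  have hc2 : (1 : ℝ) ≤ (c : ℝ) ^ 2 := one_le_pow₀ hc1
  have hz : (0 : ℝ) < 1 / (4 * (c : ℝ) ^ 2) := by positivity
  have hz1 : 1 / (4 * (c : ℝ) ^ 2) ≤ 1 := by
    rw [div_le_one (by positivity)]
    linarith
  have hz2 : 4 * (c : ℝ) ^ 2 * (1 / (4 * (c : ℝ) ^ 2)) ≤ 1 := by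
    rw [mul_one_div_cancel (by positivity)]
  generalize 1 / (4 * (c : ℝ) ^ 2) = z at hz hz1 hz2
  have a1 := h1 z (z / 2) hz (by positivity)
  have a2 := h4 z hz hz2
  have a3 := ((hb c hc).2 z hz).2.1
  refine ⟨z / 2, by positivity, by linarith, ?_⟩
  have e : m z * (z / 2 - z) = - (z * m z) / 2 := by ring
  rw [e] at a1
  linarith

theorem sVSum (hb : RBet) (hs : RSlope) : SVSum := by
  intro d r hr hd
  have hc : 1 ≤ r - 1 := by omega
  have hA : HA_RInt (gk (r - 1)) := fun z z' h1 h2 => ((hs _ hc).2 z z' h1 h2).1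
  have hB : HB_RInt (gk (r - 1)) := fun z hz => ((hb _ hc).2 z hz).2
  refine ⟨?_, fun N q hq => ?_⟩
  · obtain ⟨a, h1, h2, h3⟩ := low_VCost hb hs hc
    exact pos_VCost hB hA (d - r) h1 h2 (by norm_num) h3
  · rw [lamk, le_div_iff₀ hq, mul_comm]
    rcases N with _ | M
    · simpa using tailnn_VCost hB (d - r + 1) (a := 0) le_rfl
    · have h1 := tel_VCost hB hA (d - r) hq M
      have h2 := tailnn_VCost hB (d - r + 1) (a := q * M) (by positivity)
      linarith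

theorem first_VCost (hb : RBet) (hs : RSlope) {c : ℕ} (hc : 1 ≤ c) (j : ℕ) {q la : ℝ} {s k N : ℕ}
    {W : Finset (ℕ × ℕ)} (hq : 0 < q) (h1 : 1 ≤ s) (hk : k ^ 2 ≤ s) (hW : USep s k N W)
    (b1 : ∑ l ∈ Finset.Ico 1 N, gk c ((q * l) ^ (j + 1)) ≤ la / q) :
    Real.exp (- (la / q + (c + 1) * (j + 1) * (2 * W.card))) ≤
      ∏ l ∈ Finset.Ico 1 N,
        betk c (1 - (1 - (1 - Real.exp (- q ^ (j + 1)))) ^ (upsi W l ^ (j + 1))) := by
  have e : ∀ l ∈ Finset.Ico 1 N,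
      betk c (1 - (1 - (1 - Real.exp (- q ^ (j + 1)))) ^ (upsi W l ^ (j + 1))) =
        Real.exp (- gk c ((q * upsi W l) ^ (j + 1))) := by
    intro l hl
    have h2 : 1 ≤ upsi W l := psi_UCost hW h1 (mem_Ico.1 hl).1
    have h3 : (0 : ℝ) < upsi W l := by exact_mod_cast h2
    rw [pw_UCost, ((hb c hc).2 _ (by positivity)).1, mul_pow]
    push_cast
    rfl
  rw [prod_congr rfl e, ← Real.exp_sum, Real.exp_le_exp, sum_neg_distrib, neg_le_neg_iff]
  have a : ∀ l ∈ Finset.Ico 1 N, gk c ((q * upsi W l) ^ (j + 1)) ≤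
      gk c ((q * l) ^ (j + 1)) + (c + 1) * (j + 1) * (Real.log l - Real.log (upsi W l)) := by
    intro l hl
    have h2 : 1 ≤ upsi W l := psi_UCost hW h1 (mem_Ico.1 hl).1
    have h3 : (0 : ℝ) < upsi W l := by exact_mod_cast h2
    have h4 : (upsi W l : ℝ) ≤ l := by exact_mod_cast upsi_le W l
    have h5 : (0 : ℝ) < l := by linarith
    have h6 := ((hs c hc).2 ((q * upsi W l) ^ (j + 1)) ((q * l) ^ (j + 1)) (by positivity)
      (pow_le_pow_left₀ (by positivity) (mul_le_mul_of_nonneg_left h4 hq.le) _)).2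
    rw [Real.log_pow, Real.log_pow, Real.log_mul hq.ne' h5.ne', Real.log_mul hq.ne' h3.ne'] at h6
    push_cast at h6
    linarith
  refine (sum_le_sum a).trans ?_
  rw [sum_add_distrib, ← mul_sum]
  have b2 := logs_UCost hW h1 hk
  have b3 : (0 : ℝ) ≤ (c + 1) * (j + 1) := by positivity
  have b4 := mul_le_mul_of_nonneg_left b2 b3
  linarith

theorem second_VCost (c j : ℕ) {q : ℝ} {s k N : ℕ} {W : Finset (ℕ × ℕ)} (hq : 0 < q) (hq1 : q ≤ 1)
    (h1 : 1 / q ≤ s) (h2 : (s : ℝ) ≤ 2 / q) (hW : USep s k N W) {u : ℕ × ℕ} (hu : u ∈ W) :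
    Real.exp (- (c * (2 * 10 ^ (j + 1)))) / 4 * q ≤
      (1 - (1 - (1 - Real.exp (- q ^ (j + 1)))) ^ (u.1 ^ j)) *
        (1 - (1 - (1 - Real.exp (- q ^ (j + 1)))) ^ (upsi W (u.1 + 2) ^ (j + 1))) *
        (1 - (1 - Real.exp (- q ^ (j + 1)))) ^ (c * (2 * u.2 * (u.1 + 1) ^ j)) := by
  obtain ⟨a1, a2, -, -, a5⟩ := hW.1 u hu
  have b1 : 1 ≤ q * s := by rw [div_le_iff₀ hq] at h1; linarith
  have b2 : q * s ≤ 2 := by rw [le_div_iff₀ hq] at h2; linarith
  have c1 : (s : ℝ) ≤ u.1 := by exact_mod_cast a1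
  have c2 : (u.1 : ℝ) + 1 ≤ u.2 := by exact_mod_cast a2
  have c3 : (u.2 : ℝ) ≤ 5 * s := by exact_mod_cast a5
  have c4 : (s : ℝ) ≤ upsi W (u.1 + 2) := by
    exact_mod_cast psi_UCost hW le_rfl (by omega : s ≤ u.1 + 2)
  rw [pw_UCost, pw_UCost, pw_UCost]
  push_cast
  have d1 : q / 2 ≤ 1 - Real.exp (- (q ^ (j + 1) * (u.1 : ℝ) ^ j)) := by
    refine half_UCost hq.le hq1 ?_
    have : 1 ≤ (q * u.1) ^ j := one_le_pow₀ (by nlinarith)
    have e : q ^ (j + 1) * (u.1 : ℝ) ^ j = q * (q * u.1) ^ j := by ring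
    rw [e]
    nlinarith
  have d2 : 1 / 2 ≤ 1 - Real.exp (- (q ^ (j + 1) * (upsi W (u.1 + 2) : ℝ) ^ (j + 1))) := by
    refine half_UCost zero_le_one le_rfl ?_
    rw [← mul_pow]
    exact one_le_pow₀ (by nlinarith)
  have d3 : Real.exp (- (c * (2 * 10 ^ (j + 1)))) ≤
      Real.exp (- (q ^ (j + 1) * (c * (2 * (u.2 : ℝ) * ((u.1 : ℝ) + 1) ^ j)))) := by
    rw [Real.exp_le_exp, neg_le_neg_iff]
    have f1 : q * u.2 ≤ 10 := by nlinarith
    have f2 : q * ((u.1 : ℝ) + 1) ≤ 10 := by nlinarith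
    have f3 : (q * ((u.1 : ℝ) + 1)) ^ j ≤ 10 ^ j := pow_le_pow_left₀ (by positivity) f2 j
    have e : q ^ (j + 1) * (c * (2 * (u.2 : ℝ) * ((u.1 : ℝ) + 1) ^ j)) =
        c * (2 * ((q * ((u.1 : ℝ) + 1)) ^ j * (q * u.2))) := by rw [mul_pow]; ring
    rw [e, pow_succ]
    have := mul_le_mul f3 f1 (by positivity) (by positivity)
    exact mul_le_mul_of_nonneg_left (by linarith) (Nat.cast_nonneg c)
  have e : Real.exp (- (c * (2 * 10 ^ (j + 1)))) / 4 * q =
      q / 2 * (1 / 2) * Real.exp (- (c * (2 * 10 ^ (j + 1)))) := by ring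
  rw [e]
  have g1 : 0 ≤ q / 2 := by positivity
  exact mul_le_mul (mul_le_mul d1 d2 (by norm_num) (g1.trans d1)) d3 (Real.exp_pos _).le
    (mul_nonneg (g1.trans d1) (le_trans (by norm_num) d2))

theorem sVCost (hb : RBet) (hs : RSlope) (h : SVSum) : SVCost := by
  intro d r hr hd
  have hc : 1 ≤ r - 1 := by omega
  have hsum := (h d r hr hd).2
  generalize d - r = j at hsum ⊢
  generalize r - 1 = c at hc hsum ⊢
  generalize lamk d r = la at hsum ⊢
  have e1 : j + 2 - 1 = j + 1 := by omega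
  have e2 : j + 2 - 2 = j := by omega
  refine ⟨Real.exp (- (2 * (j + 2) * ((c + 1) * (j + 1)))) *
    (Real.exp (- (c * (2 * 10 ^ (j + 1)))) / 4), by positivity, ?_, ?_⟩
  · have a1 : Real.exp (- (2 * ((j : ℝ) + 2) * ((c + 1) * (j + 1)))) ≤ 1 :=
      Real.exp_le_one_iff.2 (neg_nonpos.2 (by positivity))
    have a2 : Real.exp (- ((c : ℝ) * (2 * 10 ^ (j + 1)))) ≤ 1 :=
      Real.exp_le_one_iff.2 (neg_nonpos.2 (by positivity))
    exact mul_le_one₀ a1 (by positivity) (by linarith)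
  · intro q s k N W hq hq1 h1 h2 hk hW
    have hs1 : 1 ≤ s := by
      have : (0 : ℝ) < s := lt_of_lt_of_le (by positivity) h1
      exact_mod_cast this
    rw [vwt, e1, e2]
    have a1 := pow_le_pow_left₀ (Real.exp_pos _).le
      (first_VCost hb hs hc j hq hs1 hk hW (hsum N q hq)) (j + 2)
    have a2 := prod_le_prod (s := W) (fun u _ => by positivity)
      (fun u hu => second_VCost c j hq hq1 h1 h2 hW hu)
    rw [prod_const] at a2
    refine le_trans (le_of_eq ?_) (mul_le_mul a1 a2 (by positivity)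
      (le_trans (by positivity) a1))
    rw [mul_assoc, mul_pow, ← mul_assoc, ← Real.exp_nat_mul, ← Real.exp_nat_mul, ← Real.exp_add]
    congr 2
    push_cast
    ring

end Pool.Agent.MP_6d294b_pr

end

section

/-! Transfer from the lattice form to the form of the problem. -/

open Finset

namespace Pool.Agent.MP_6d294b_pr

lemma inj_VTrans {d : ℕ} (x : Pt d) {s s' : Fin d × Bool} (h : vsh x s.1 s.2 = vsh x s'.1 s'.2) :
    s = s' := by
  obtain ⟨i, a⟩ := s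
  obtain ⟨j, b⟩ := s'
  have h2 := congrFun h i
  by_cases h3 : i = j
  · subst h3
    simp only [vsh, Function.update_self, vsg] at h2
    cases a <;> cases b <;> simp_all
  · simp only [vsh, Function.update_self, Function.update_of_ne h3, vsg] at h2
    split_ifs at h2 <;> omega

theorem sVTrans : SVTrans := by
  intro d n r p h0 h1
  have hg : ∀ x, x ∈ grid d n ↔ ∃ v, emb d n v = x := fun x => by
    rw [mem_grid]
    refine ⟨fun h => ⟨fun i => ⟨(x i).toNat, by have := h i; omega⟩, funext fun i => ?_⟩, ?_⟩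
    · have := h i
      simp only [emb]
      omega
    · rintro ⟨v, rfl⟩ j
      have := (v j).2
      simp only [emb]
      omega
  have e : grid d n = univ.image (emb d n) := by
    ext x
    simp only [hg, mem_image, mem_univ, true_and]
  have hf : ∀ x, x ∈ vface (∅ : Finset (Fin d)) 0 n ↔ x ∈ grid d n := fun x => by
    simp [vface, mem_ubox, mem_grid, vsd]
  have hr : ∀ x, x ∈ vreg 0 (∅ : Finset (Fin d)) 0 n ↔ x ∈ grid d n := fun x => by
    simp [vreg, mem_ubox, mem_grid, vsd]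
  refine ⟨fun x hx => (hr x).1 hx, ?_⟩
  rw [e, ← image_Perc univ _ (emb_inj_Perc d n)]
  refine (sPrA _ _ p h0 h1).2.2.1 _ _ fun A _ hA S hS hc => Set.eq_univ_of_forall fun v => ?_
  have nb : ∀ (u v : Fin d → Fin n) (i : Fin d) (b : Bool), emb d n u = vsh (emb d n v) i b →
      ∑ l, Int.natAbs (((u l : ℕ) : ℤ) - ((v l : ℕ) : ℤ)) = 1 := fun u v i a h => by
    rw [sum_eq_single i (fun l _ hl => ?_) (by simp)]
    · have := congrFun h i
      simp only [vsh, vsg, Function.update_self, emb] at this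
      split_ifs at this <;> omega
    · have := congrFun h l
      simp only [vsh, Function.update_of_ne hl, emb] at this
      omega
  obtain ⟨v', hv, e'⟩ := hA (emb d n '' S) (fun x hx T hT hs => by
      obtain ⟨v, rfl⟩ := (hg x).1 ((hf x).1 hx)
      refine ⟨v, hc v (hT.trans ?_), rfl⟩
      have : Nonempty (Fin d → Fin n) := ⟨v⟩
      choose! f hf1 hf2 using hs
      rw [← Set.ncard_coe_finset]
      refine Set.ncard_le_ncard_of_injOn f (fun s hs => ⟨hf1 s hs, nb _ _ _ _ (hf2 s hs)⟩)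
        (fun s hs s' hs' h => inj_VTrans (emb d n v) ?_) (Set.toFinite _)
      rw [← hf2 s hs, ← hf2 s' hs', h])
    (fun x hx _ => by
      obtain ⟨u, hu, rfl⟩ := mem_image.1 hx
      exact ⟨u, hS hu, rfl⟩) (fun _ _ j hj => absurd hj (notMem_empty j)) (emb d n v)
      ((hf _).2 ((hg _).2 ⟨v, rfl⟩))
  exact emb_inj_Perc d n e' ▸ hv

end Pool.Agent.MP_6d294b_pr

end

section

open Finset

namespace Pool.Agent.MP_6d294b_pr

theorem two_le_VPerc {u : ℝ} (h : 1 ≤ u) : 2 ≤ Real.exp u := by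
  have := Real.add_one_le_exp u
  linarith

theorem pos_VPerc (i : ℕ) {y : ℝ} (h : 0 < y) : 1 < Real.exp^[i + 1] y := by
  induction i with
  | zero => exact Real.one_lt_exp_iff.2 h
  | succ i ih =>
    rw [Function.iterate_succ_apply']
    exact Real.one_lt_exp_iff.2 (by linarith)

theorem one_le_VPerc (i : ℕ) {y : ℝ} (h : 0 ≤ y) : 1 ≤ Real.exp^[i + 1] y := by
  induction i with
  | zero => exact Real.one_le_exp h
  | succ i ih =>
    rw [Function.iterate_succ_apply']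
    exact Real.one_le_exp (by linarith)

theorem dbl_VPerc (i : ℕ) (y : ℝ) (h : 0 ≤ y) :
    2 * Real.exp^[i + 1] y ≤ Real.exp^[i + 1] (y + 1) := by
  induction i with
  | zero =>
    show 2 * Real.exp y ≤ Real.exp (y + 1)
    rw [Real.exp_add, mul_comm]
    exact mul_le_mul_of_nonneg_left (two_le_VPerc le_rfl) (Real.exp_pos _).le
  | succ i ih =>
    rw [Function.iterate_succ_apply' _ (i + 1), Function.iterate_succ_apply' _ (i + 1)]
    refine le_trans ?_ (Real.exp_le_exp.2 ih)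
    rw [two_mul (Real.exp^[i + 1] y), Real.exp_add]
    exact mul_le_mul_of_nonneg_right (two_le_VPerc (one_le_VPerc i h)) (Real.exp_pos _).le

theorem sq_le_VPerc {a : ℝ} (h : 0 ≤ a) : a ^ 2 ≤ Real.exp a := by
  have h1 : a ≤ Real.exp (a / 2) := by
    have e : Real.exp (a / 2) = Real.exp 1 * Real.exp (a / 2 - 1) := by
      rw [← Real.exp_add]
      congr 1
      ring
    have h2 := Real.add_one_le_exp (a / 2 - 1)
    have h3 := two_le_VPerc (le_refl (1 : ℝ))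
    have h4 := Real.exp_pos (a / 2 - 1)
    rw [e]
    nlinarith
  calc a ^ 2 ≤ Real.exp (a / 2) ^ 2 := pow_le_pow_left₀ h h1 2
    _ = Real.exp a := by rw [sq, ← Real.exp_add, add_halves]

theorem vd_mono_VPerc {d r h j : ℕ} {p C a b : ℝ} (hab : a ≤ b) (H : VD d r h j p C a) :
    VD d r h j p C b := by
  obtain ⟨m, E, h1, h2, h3, h4, h5⟩ := H
  exact ⟨m, E, h1, h2, h3, h4.trans hab, h5⟩

theorem vd_num_VPerc {d r h j : ℕ} {p C a : ℝ} (hC : 2 ≤ C) (H : VD d r h j p C a) :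
    C ≤ a ∧ Real.exp (- a) ≤ p := by
  obtain ⟨m, E, h1, h2, h3, h4, -⟩ := H
  have a1 : C ≤ C * m := by nlinarith
  have a2 : C * m ≤ C * m * E := by nlinarith
  have a3 : E ≤ C * m * E := by nlinarith
  exact ⟨by linarith, (Real.exp_le_exp.2 (by linarith)).trans h3⟩

theorem step_VPerc {d r h j : ℕ} {p C a : ℝ} (h0 : 0 ≤ p) (h1 : p ≤ 1) (hh : h ≤ 1) (hC : 2 ≤ C)
    (hj : j + 2 ≤ r) (hU : VUp d r C) (H : VD d r h (j + 1) p C a) :
    VD d r h j p C (Real.exp (2 * a)) := by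
  obtain ⟨a1, a2⟩ := vd_num_VPerc hC H
  have a3 := sq_le_VPerc (show 0 ≤ a by linarith)
  obtain ⟨k1, k2⟩ := hU h h j p a a h0 h1 hh (Or.inl le_rfl) hj H H a3
  have a4 := Real.add_one_le_exp a
  have a5 := Real.exp_pos a
  refine ⟨Real.exp a, a, by linarith, by linarith, a2, ?_, k1, k2⟩
  rw [two_mul, Real.exp_add]
  have a6 : C * a ≤ Real.exp a := by nlinarith
  nlinarith

theorem sVIter : SVIter := by
  refine ⟨dbl_VPerc, fun i y z h => Real.exp_monotone.iterate i h, ?_⟩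
  intro d r h j i p C x h0 h1 hh hC hx hj hU H
  induction i generalizing j with
  | zero => simpa using H
  | succ i ih =>
    have e : j + (i + 1) = j + 1 + i := by omega
    have k := step_VPerc h0 h1 hh hC (by omega) hU (ih (j + 1) (by omega) (e ▸ H))
    refine vd_mono_VPerc ?_ k
    rw [Function.iterate_succ_apply' _ (i + 1), Nat.cast_succ, ← add_assoc]
    exact Real.exp_le_exp.2 (dbl_VPerc i _ (by positivity))

theorem fin_VPerc (h5 : SVTrans) {d r n : ℕ} {p m : ℝ} (h0 : 0 ≤ p) (h1 : p ≤ 1)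
    (H : VH2 d r 0 0 p m 1) (hm : m ≤ n) (hn : (1 : ℝ) < n) :
    1 / 2 ≤ Pr (univ : Finset (Fin d → Fin n)) p (PercR d n r) := by
  obtain ⟨a1, a2⟩ := h5 d n r p h0 h1
  refine le_trans ?_ ((H _ ∅ _ 0 n rfl hm a1).trans a2)
  have a3 : (2 : ℝ) ≤ n := by exact_mod_cast (show 1 < n by exact_mod_cast hn)
  have a4 := one_div_le_one_div_of_le two_pos a3
  rw [pow_one]
  linarith

theorem small_VPerc {la η : ℝ} (l : ℕ) (hl : 0 < la) (hη : 0 < η) : ∃ q₀ : ℝ, 0 < q₀ ∧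
    ∀ q : ℝ, 0 < q → q ≤ q₀ → (l : ℝ) ≤ η / Real.sqrt q ∧ 5 * (η / Real.sqrt q) + 2 ≤ la / q := by
  obtain ⟨U, hU⟩ : ∃ U : ℝ, U = 1 + l / η + (5 * η + 2) / la := ⟨_, rfl⟩
  have b1 : (0 : ℝ) ≤ l / η := by positivity
  have b2 : 0 ≤ (5 * η + 2) / la := by positivity
  have hU0 : 0 < U := by linarith
  refine ⟨(U⁻¹) ^ 2, by positivity, fun q hq hq' => ?_⟩
  have s0 := Real.sqrt_pos.2 hq
  have s1 : U ≤ (Real.sqrt q)⁻¹ :=
    (le_inv_comm₀ hU0 s0).2 (Real.sqrt_le_iff.2 ⟨by positivity, hq'⟩)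
  have s2 : la / q = la * (Real.sqrt q)⁻¹ * (Real.sqrt q)⁻¹ := by
    rw [mul_assoc, ← mul_inv, Real.mul_self_sqrt hq.le, div_eq_mul_inv]
  rw [s2, div_eq_mul_inv]
  generalize (Real.sqrt q)⁻¹ = u at s1
  have c1 : (l : ℝ) / η ≤ u := by linarith
  have c2 : (5 * η + 2) / la ≤ u := by linarith
  have c3 : 1 ≤ u := by linarith
  rw [div_le_iff₀ hη] at c1
  rw [div_le_iff₀ hl] at c2
  exact ⟨by linarith, by nlinarith⟩

theorem sVPerc (h0 : SVSum) (h1 : SVUp) (h2 : SVIter) (h3 : SVBase) (h4 : SVBare)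
    (h5 : SVTrans) : SVPerc := by
  intro d r hr hd
  obtain ⟨l, rfl⟩ : ∃ l, r = l + 2 := ⟨r - 2, by omega⟩
  obtain ⟨hla, -⟩ := h0 d _ hr hd
  obtain ⟨C, hC, hU⟩ := h1 d _ hd
  obtain ⟨c, q₁, hc, hq₁, hB⟩ := h3 d _ (vK d l) hr hd
  obtain ⟨q₂, hq₂, hA⟩ := h4 d (l + 2) C (c / 4) (by omega) hd (by positivity)
  obtain ⟨q₃, hq₃, hS⟩ := small_VPerc l hla (show 0 < c / 4 by positivity)
  refine ⟨c / 4, min q₁ (min q₂ q₃), by positivity, by positivity, fun q n hq hq' hn => ?_⟩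
  rw [le_min_iff, le_min_iff] at hq'
  obtain ⟨s1, s2⟩ := hS q hq hq'.2.2
  have hB' := fun h => hB q h hq hq'.1
  have hA' := fun h => hA q h hq hq'.2.1
  have p0 : 0 ≤ 1 - Real.exp (- q ^ (d - (l + 2) + 1)) :=
    sub_nonneg.2 (Real.exp_le_one_iff.2 (neg_nonpos.2 (by positivity)))
  have p1 : 1 - Real.exp (- q ^ (d - (l + 2) + 1)) ≤ 1 := sub_le_self _ (Real.exp_pos _).le
  have e4 : c / Real.sqrt q = 4 * (c / 4 / Real.sqrt q) := by ring
  rw [e4] at hB'
  have w0 : 0 ≤ c / 4 / Real.sqrt q := by positivity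
  generalize 1 - Real.exp (- q ^ (d - (l + 2) + 1)) = p at *
  generalize c / 4 / Real.sqrt q = w at *
  generalize lamk d (l + 2) / q = x at *
  rw [show l + 2 - 1 = l + 1 from rfl] at hn hA'
  rw [show l + 2 - 2 = l from rfl] at hB'
  have n1 : (1 : ℝ) < n := (pos_VPerc l (by linarith)).trans_le hn
  rcases l with _ | l
  · exact fin_VPerc h5 p0 p1 (hB' 0 (Or.inr rfl))
      ((Real.exp_le_exp.2 (by linarith)).trans hn) n1
  obtain ⟨a1, a2⟩ := vd_num_VPerc hC (hA' 1)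
  have k1 := (hU 1 1 (l + 1) p _ _ p0 p1 le_rfl (Or.inl le_rfl) le_rfl (hA' 1) (hA' 1)
    (sq_le_VPerc (Real.exp_pos _).le)).1
  have k2 : VD d (l + 1 + 2) 1 (1 + l) p C (Real.exp (x - 2 * w)) := by
    rw [add_comm 1 l]
    refine ⟨_, _, a1.trans (Real.exp_le_exp.2 (by linarith)), Real.one_le_exp w0, a2, ?_, k1,
      hB' 1 (Or.inl rfl)⟩
    have e : Real.exp (x - 2 * w) = Real.exp w * Real.exp (x - 4 * w) * Real.exp w := by
      rw [← Real.exp_add, ← Real.exp_add]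
      congr 1
      ring
    rw [e]
    gcongr
  have k3 := h2.2.2 d _ 1 1 l p C _ p0 p1 le_rfl hC (by linarith) (by omega) hU k2
  have k4 := h2.2.2 d _ 0 1 (l + 1) p C w p0 p1 zero_le_one hC w0 (by omega) hU
    (by rw [add_comm 1 (l + 1)]; exact hA' 0)
  push_cast at s1 k4
  have l0 : (0 : ℝ) ≤ l := Nat.cast_nonneg l
  have k5 := (hU 1 0 0 p _ _ p0 p1 le_rfl (Or.inr rfl) (by omega) k3 k4 (by
    rw [Function.iterate_succ_apply' _ (l + 1), sq, ← Real.exp_add, ← two_mul]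
    exact Real.exp_le_exp.2 ((h2.1 l _ (by positivity)).trans (h2.2.1 _ _ _ (by linarith))))).2
  refine fin_VPerc h5 p0 p1 k5 (le_trans ?_ hn) n1
  rw [Function.iterate_succ_apply' _ (l + 1)]
  exact Real.exp_le_exp.2 (h2.2.1 _ _ _ (by linarith))

end Pool.Agent.MP_6d294b_pr

end

section

namespace Pool.Agent.MP_6d294b_pr

theorem upper_of (hb : RBet) (hs : RSlope) : SVFinal :=
  sVFinal (sVSum hb hs) sVIter (sVPerc (sVSum hb hs)
    (sVUp (sVA sUHar sVAd) (sVStep (sVB sUInd sVBd))) sVIter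
    (sVBase (sVSum hb hs)
      (sVDrop sUInd (sVGrow (sVExt sVFill)) sVDisj (sVEv sUHar (sVNG sUHar hb) hb sVTh) sUWord
        (sVCost hb hs (sVSum hb hs)))
      (sVB sUInd sVBd) (sVOne sUHar sVFill) sVPar)
    (sVBare (sVOne sUHar sVFill)) sVTrans)

theorem upper_all : SVFinal :=
  upper_of rBet (rSlope rBet (rDer rBet) (rConv rBet (rDer rBet)))

end Pool.Agent.MP_6d294b_pr

end
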