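import Pool.Agent.Mg.F6d294b.G28e636

set_option linter.all false

open Finset

namespace Pool.Agent.MP_6d294b_pr

lemma incr_Final (d n : ℕ) : Incr (Perc d n) := by
  intro A B hAB hA S hS h
  exact hA S (subset_trans (Finset.coe_subset.2 hAB) hS) h

lemma one_Final (d n : ℕ) : (1 : ℝ) ≤ Pr (univ : Finset (Fin d → Fin n)) 1 (Perc d n) := by
  classical
  have hP : Perc d n univ := by
    intro S hS _
    rw [Finset.coe_univ] at hS
    exact Set.eq_univ_of_univ_subset hS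
  unfold Pr
  refine le_trans ?_ (Finset.single_le_sum (fun A _ => ?_)
    (Finset.mem_powerset_self (univ : Finset (Fin d → Fin n))))
  · rw [if_pos hP]
    simp
  · split_ifs
    · exact mul_nonneg (pow_nonneg zero_le_one _) (pow_nonneg (by norm_num) _)
    · exact le_rfl

lemma root_Final (k : ℕ) (hk : 1 ≤ k) (q : ℝ) (h0 : 0 < q) (h1 : q ≤ 1) :
    (q - q ^ 2) ^ k ≤ 1 - Real.exp (- q ^ k) := by
  have hx0 : 0 < q ^ k := pow_pos h0 k
  have hx1 : q ^ k ≤ q := pow_le_of_le_one h0.le h1 (by omega)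
  have a1 : (1 - q) ^ k ≤ 1 - q := pow_le_of_le_one (by linarith) (by linarith) (by omega)
  have a2 : (q - q ^ 2) ^ k = q ^ k * (1 - q) ^ k := by
    rw [← mul_pow]
    congr 1
    ring
  set x := q ^ k with hx
  have a3 : Real.exp (- x) ≤ 1 - x + x ^ 2 := by
    have b1 := Real.add_one_le_exp x
    rw [Real.exp_neg, inv_eq_one_div, div_le_iff₀ (Real.exp_pos x)]
    have b2 : 0 ≤ 1 - x + x ^ 2 := by nlinarith
    have b3 := mul_le_mul_of_nonneg_left b1 b2
    have b4 : 0 ≤ x ^ 3 := by positivity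
    nlinarith
  rw [a2]
  have a4 := mul_le_mul_of_nonneg_left (a1.trans (show 1 - q ≤ 1 - x by linarith)) hx0.le
  nlinarith

lemma large_Final (c K : ℝ) (hc : 0 < c) : ∃ n₀ : ℕ, ∀ n : ℕ, n₀ ≤ n →
    K ≤ Real.log n ∧ Real.log (Real.log n) ^ 6 ≤ c * Real.log n := by
  have h1 : ∀ᶠ L : ℝ in Filter.atTop, K ≤ L ∧ Real.log L ^ 6 ≤ c * L := by
    have h2 := (Real.isLittleO_pow_log_id_atTop (n := 6)).bound hc
    filter_upwards [h2, Filter.eventually_ge_atTop K, Filter.eventually_ge_atTop 0] with L a1 a2 a3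
    refine ⟨a2, ?_⟩
    rw [Real.norm_eq_abs, Real.norm_eq_abs, id, abs_of_nonneg a3] at a1
    exact (le_abs_self _).trans a1
  have h3 : Filter.Tendsto (fun n : ℕ => Real.log n) Filter.atTop Filter.atTop :=
    Real.tendsto_log_atTop.comp tendsto_natCast_atTop_atTop
  exact Filter.eventually_atTop.1 (h3.eventually h1)

theorem sFinal (hA : SPrA) (hP : SPrB) (h3 : SInt) (h5 : SPerc) : SFinal := by
  classical
  intro d hd
  obtain ⟨C₀, q₀, hC₀, hq₀, h5⟩ := h5 d hd
  have hlam := (h3 d hd).1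
  set la : ℝ := lam d with hla
  have hla0 : 0 < la := by linarith
  set C' : ℝ := la * (72 * C₀ + 1) with hC'
  have hC'0 : 0 < C' := by positivity
  obtain ⟨n₀, hn₀⟩ := large_Final ((la / (2 * C')) ^ 2) (40000 + la / q₀ + la) (by positivity)
  refine ⟨C' + la ^ 2, n₀, fun n hn => ?_⟩
  obtain ⟨hK, hl6⟩ := hn₀ n hn
  set L : ℝ := Real.log n with hL
  set l : ℝ := Real.log L with hl
  have hlq : 0 < la / q₀ := by positivity
  have hL4 : 40000 ≤ L := by linarith
  have hL0 : 0 < L := by linarith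
  have hn0 : (0 : ℝ) < n := by
    rcases Nat.eq_zero_or_pos n with h | h
    · rw [h] at hL
      simp at hL
      linarith
    · exact_mod_cast h
  have hl1 : 1 ≤ l := by
    rw [hl, Real.le_log_iff_exp_le hL0]
    linarith [Real.exp_one_lt_d9]
  set r : ℝ := Real.sqrt L with hr
  have hr0 : 0 < r := Real.sqrt_pos.2 hL0
  have hrr : L = r ^ 2 := (Real.sq_sqrt hL0.le).symm
  have hr1 : 1 ≤ r := by nlinarith
  have hL32 : L ^ (3 / 2 : ℝ) = r ^ 3 := by
    rw [hr, Real.sqrt_eq_rpow, ← Real.rpow_natCast, ← Real.rpow_mul hL0.le]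
    norm_num
  have hl3 : l ^ 3 ≤ la / (2 * C') * r := by
    refine le_of_sq_le_sq ?_ (by positivity)
    calc (l ^ 3) ^ 2 = l ^ 6 := by ring
      _ ≤ (la / (2 * C')) ^ 2 * L := hl6
      _ = (la / (2 * C') * r) ^ 2 := by rw [hrr]; ring
  have hl3' : 1 ≤ l ^ 3 := one_le_pow₀ hl1
  set x : ℝ := C' * l ^ 3 / (la * r) with hx
  have hx0 : 0 < x := by positivity
  have hx1 : x ≤ 1 / 2 := by
    rw [hx, div_le_iff₀ (by positivity)]
    have := mul_le_mul_of_nonneg_left hl3 hC'0.le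
    have e : C' * (la / (2 * C') * r) = 1 / 2 * (la * r) := by field_simp
    linarith
  set q : ℝ := la / L * (1 - x) with hq
  have hq0 : 0 < q := mul_pos (by positivity) (by linarith)
  have hqu : q ≤ la / L := by
    have : 0 < la / L := by positivity
    nlinarith
  have hql : 1 / (80 * L) ≤ q := by
    have a1 : 1 / 40 / L ≤ la / L := div_le_div_of_nonneg_right hlam hL0.le
    have a2 : 1 / (80 * L) = 1 / 40 / L * (1 / 2) := by field_simp; norm_num
    rw [a2]
    exact mul_le_mul a1 (by linarith) (by norm_num) (by positivity)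
  have hqinv : 1 / q ≤ 80 * L := by
    rw [div_le_iff₀ hq0]
    rw [div_le_iff₀ (by positivity)] at hql
    linarith
  have hqq : q ≤ q₀ := by
    refine hqu.trans ?_
    rw [div_le_iff₀ hL0]
    have a1 : la / q₀ ≤ L := by linarith
    rw [div_le_iff₀ hq₀] at a1
    linarith
  have hq1 : q ≤ 1 := by
    refine hqu.trans ?_
    rw [div_le_one hL0]
    linarith
  have hnq : 1 / q ^ 2 + 1 ≤ n := by
    have a1 : 1 / q ^ 2 ≤ (80 * L) ^ 2 := by
      rw [← one_div_pow]
      exact pow_le_pow_left₀ (by positivity) hqinv 2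
    have a2 : L ^ 3 / (Nat.factorial 3 : ℝ) ≤ Real.exp L := Real.pow_div_factorial_le_exp L hL0.le 3
    have a3 : Real.exp L = n := Real.exp_log hn0
    have a4 : (Nat.factorial 3 : ℝ) = 6 := by norm_num [Nat.factorial]
    rw [a3, a4] at a2
    have a5 : 40000 * L ^ 2 ≤ L ^ 3 := by nlinarith
    nlinarith
  have hb := h5 q hq0 hqq n hnq
  have hexp : d * L - d * la / q + C₀ * Real.log (1 / q) ^ 3 / Real.sqrt q ≤ -1 := by
    have a0 : 0 ≤ Real.log (1 / q) := Real.log_nonneg (by rw [le_div_iff₀ hq0]; linarith)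
    have a1 : Real.log (1 / q) ≤ 2 * l := by
      have b1 : 1 / q ≤ L ^ 2 := by nlinarith
      have b2 := Real.log_le_log (by positivity) b1
      rw [Real.log_pow] at b2
      exact_mod_cast b2
    have a2 : Real.log (1 / q) ^ 3 ≤ 8 * l ^ 3 := by
      have := pow_le_pow_left₀ a0 a1 3
      linarith [show (2 * l) ^ 3 = 8 * l ^ 3 by ring]
    have hs0 : 0 < Real.sqrt q := Real.sqrt_pos.2 hq0
    have a3 : 1 / Real.sqrt q ≤ 9 * r := by
      refine le_of_sq_le_sq ?_ (by positivity)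
      rw [one_div_pow, Real.sq_sqrt hq0.le]
      nlinarith
    have a4 : C₀ * Real.log (1 / q) ^ 3 / Real.sqrt q ≤ 72 * C₀ * (l ^ 3 * r) := by
      have b1 := mul_le_mul a2 a3 (by positivity) (by positivity)
      have b2 := mul_le_mul_of_nonneg_left b1 hC₀.le
      have e : C₀ * Real.log (1 / q) ^ 3 / Real.sqrt q =
          C₀ * (Real.log (1 / q) ^ 3 * (1 / Real.sqrt q)) := by ring
      rw [e]
      linarith
    have a5 : L * (1 + x) ≤ la / q := by
      rw [le_div_iff₀ hq0, hq]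
      have e : L * (1 + x) * (la / L * (1 - x)) = la * (1 - x ^ 2) := by field_simp; ring
      rw [e]
      nlinarith [sq_nonneg x]
    have a6 : L * x = (72 * C₀ + 1) * (l ^ 3 * r) := by
      rw [hx, hrr, hC']
      field_simp
    have a7 : 1 ≤ l ^ 3 * r := one_le_mul_of_one_le_of_one_le hl3' hr1
    have hd1 : (1 : ℝ) ≤ d := by exact_mod_cast (by omega : 1 ≤ d)
    have a8 : L * x ≤ la / q - L := by linarith
    have a9 : L * x ≤ d * (la / q - L) := by
      have : 0 ≤ L * x := by positivity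
      nlinarith
    have e : (d : ℝ) * la / q = d * (la / q) := mul_div_assoc _ _ _
    rw [e]
    nlinarith
  set p₀ : ℝ := 1 - Real.exp (- q ^ (d - 1)) with hp₀
  have hp1 : p₀ ≤ 1 := by
    rw [hp₀]
    linarith [Real.exp_pos (- q ^ (d - 1))]
  have hhalf : Pr (univ : Finset (Fin d → Fin n)) p₀ (Perc d n) < 1 / 2 := by
    refine lt_of_le_of_lt (hb.trans (Real.exp_le_exp.2 hexp)) ?_
    linarith [Real.exp_neg_one_lt_d9]
  have hinf : p₀ ≤ sInf {p : ℝ | 0 ≤ p ∧ p ≤ 1 ∧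
      (1 / 2 : ℝ) ≤ Pr (univ : Finset (Fin d → Fin n)) p (Perc d n)} := by
    refine le_csInf ⟨1, zero_le_one, le_rfl, by linarith [one_Final d n]⟩ ?_
    rintro p ⟨b1, b2, b3⟩
    by_contra hlt
    have := (hP _ (univ : Finset (Fin d → Fin n)) p b1 b2).2.2.2 _ (incr_Final d n) p₀
      (not_le.1 hlt).le hp1
    linarith
  have hqq0 : 0 ≤ q - q ^ 2 := by nlinarith
  have hroot : q - q ^ 2 ≤ (sInf {p : ℝ | 0 ≤ p ∧ p ≤ 1 ∧
      (1 / 2 : ℝ) ≤ Pr (univ : Finset (Fin d → Fin n)) p (Perc d n)}) ^ (1 / ((d : ℝ) - 1)) := by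
    have a1 := (root_Final (d - 1) (by omega) q hq0 hq1).trans hinf
    have a2 : ((d : ℝ) - 1) = ((d - 1 : ℕ) : ℝ) := by
      rw [Nat.cast_sub (by omega)]
      simp
    have a3 := Real.rpow_le_rpow (pow_nonneg hqq0 _) a1
      (show (0 : ℝ) ≤ ((d - 1 : ℕ) : ℝ)⁻¹ by positivity)
    rw [Real.pow_rpow_inv_natCast hqq0 (by omega)] at a3
    rw [a2, one_div (((d - 1 : ℕ) : ℝ))]
    exact a3
  rw [hL32]
  have f1 : la / L - q = C' * l ^ 3 / r ^ 3 := by
    rw [hq, hx, hrr]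
    field_simp
    ring
  have f2 : q ^ 2 ≤ la ^ 2 * l ^ 3 / r ^ 3 := by
    have g1 : q ^ 2 ≤ (la / L) ^ 2 := pow_le_pow_left₀ hq0.le hqu 2
    refine g1.trans ?_
    rw [hrr, div_pow, div_le_div_iff₀ (by positivity) (by positivity)]
    have g2 : r ^ 3 ≤ l ^ 3 * (r ^ 2) ^ 2 := by
      have g3 : r ^ 3 ≤ (r ^ 2) ^ 2 := by
        rw [← pow_mul]
        exact pow_le_pow_right₀ hr1 (by norm_num)
      have g4 : 0 ≤ (r ^ 2) ^ 2 := by positivity
      nlinarith
    have := mul_le_mul_of_nonneg_left g2 (sq_nonneg la)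
    linarith
  have f3 : (C' + la ^ 2) * l ^ 3 / r ^ 3 = C' * l ^ 3 / r ^ 3 + la ^ 2 * l ^ 3 / r ^ 3 := by ring
  rw [f3]
  linarith

end Pool.Agent.MP_6d294b_pr
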