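import Pool.Agent.Mg.F6d294b.G4e8bb7

set_option linter.all false

open Finset

namespace Pool.Agent.MP_6d294b_pr

lemma log_GDrop {q : ℝ} (hq : 0 < q) : Real.log (1 / q) ≤ 2 / Real.sqrt q := by
  have h0 : 0 < Real.sqrt q := Real.sqrt_pos.2 hq
  have h1 : 1 / q = (1 / Real.sqrt q) ^ 2 := by rw [one_div_pow, Real.sq_sqrt hq.le]
  have h2 := Real.log_le_sub_one_of_pos (one_div_pos.2 h0)
  rw [h1, Real.log_pow]
  push_cast
  have : 2 / Real.sqrt q = 2 * (1 / Real.sqrt q) := by ring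
  linarith

lemma union_GDrop {D d N : ℕ} (Ω : Finset (Pt d)) {p b : ℝ} (hp0 : 0 ≤ p) (hp1 : p ≤ 1)
    (R : Bx D) (hR : psi R ≤ 2 * N) (X : Finset (Bx D)) (hX : X ⊆ boxes R)
    (E : Bx D → Finset (Pt d) → Prop) (hE : ∀ S ∈ X, Pr Ω p (E S) ≤ Real.exp b) :
    Pr Ω p (fun A => ∃ S ∈ X, E S A) ≤ Real.exp (2 * D * Real.log (2 * N + 1) + b) := by
  have hcard := (card_le_card hX).trans ((bGeoB D).1 R (2 * N + 1) fun i => by
    have := single_le_sum (f := ex R) (fun _ _ => Nat.zero_le _) (mem_univ i)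
    unfold psi at hR
    omega)
  refine ((bPrA _ Ω p hp0 hp1).2.2.2.2.1 _ X E).trans ((sum_le_sum hE).trans ?_)
  have e : (2 * D : ℝ) = ((2 * D : ℕ) : ℝ) := by push_cast; ring
  rw [sum_const, nsmul_eq_mul, Real.exp_add, e, Real.exp_nat_mul, Real.exp_log (by positivity)]
  refine mul_le_mul_of_nonneg_right ?_ (Real.exp_pos _).le
  exact_mod_cast hcard

lemma thin_GDrop {D K Y : ℕ} (hD : 2 ≤ D) (B : Bx D) (h1 : K ≤ psi B) (h2 : psi B ≤ 3 * K)
    (j : Fin D) (hj : ex B j + 1 < Y) (hYK : D * Y ≤ K) :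
    ∃ i, K ≤ D * ex B i ∧ sg (ex B) i ≤ Y * (3 * K + 1) ^ (D - 2) := by
  obtain ⟨i, hi⟩ := ((bBoxC D).2.2.2.1 B).2.2.2 (by omega)
  have hij : j ≠ i := by
    rintro rfl
    have : D * ex B j < D * Y := Nat.mul_lt_mul_of_pos_left (by omega) (by omega)
    omega
  refine ⟨i, h1.trans hi, ?_⟩
  have hm : j ∈ univ.erase i := mem_erase.2 ⟨hij, mem_univ j⟩
  rw [sg, ← mul_prod_erase _ _ hm]
  refine Nat.mul_le_mul hj.le ?_
  have hc : ((univ.erase i).erase j).card = D - 2 := by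
    rw [card_erase_of_mem hm, card_erase_of_mem (mem_univ i), card_univ, Fintype.card_fin]
    omega
  rw [← hc]
  refine prod_le_pow_card _ _ _ fun l _ => ?_
  have := single_le_sum (f := ex B) (fun _ _ => Nat.zero_le _) (mem_univ l)
  unfold psi at h2
  omega

theorem gDrop (h1 : GRed) (h2 : GBrG) (h3 : GLY) (h4 : GSlp) (h5 : GCrit) : GDrop := by
  classical
  intro D d hd
  have hg : 0 < gk (d - D + 1) 1 := (h4 _ (by omega)).2
  obtain ⟨g, hgd⟩ : ∃ g, g = gk (d - D + 1) 1 := ⟨_, rfl⟩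
  obtain ⟨lam, hlam⟩ : ∃ lam, lam = lamD (d - D + 1) D := ⟨_, rfl⟩
  rw [← hgd] at hg
  have hd2 : (2 : ℝ) ≤ D := by exact_mod_cast hd
  have hd0 : (0 : ℝ) < D := by linarith
  have la0 := abs_nonneg lam
  obtain ⟨K₀, hK₀⟩ : ∃ K₀ : ℝ, K₀ = 2 * D ^ 2 * |lam| / g + D := ⟨_, rfl⟩
  have hK1 : (D : ℝ) ≤ K₀ := by
    rw [hK₀]
    exact le_add_of_nonneg_left (by positivity)
  obtain ⟨W, hW⟩ : ∃ W : ℝ, W = (3 * (K₀ + 2)) ^ (D - 2) := ⟨_, rfl⟩
  have hW1 : 1 ≤ W := hW ▸ one_le_pow₀ (by linarith)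
  have hy0 : 0 < 1 / (2 * W) := by positivity
  have hy1 : 1 / (2 * W) ≤ 1 / 2 := one_div_le_one_div_of_le two_pos (by linarith)
  obtain ⟨C, q₁, hC, hq₁, h5⟩ := h5 D d (K₀ + 2) (1 / (2 * W)) hd (by linarith) hy0 (by linarith)
  refine ⟨C + 12 * D + 1, by positivity, min q₁ (min (1 / (2 * W)) (1 / (4 * D) ^ 2)),
    lt_min hq₁ (lt_min hy0 (by positivity)), fun q hq hq' k hk1 hk2 => ?_⟩
  have hqa : q ≤ q₁ := hq'.trans (min_le_left _ _)
  have hqb : q ≤ 1 / (2 * W) := hq'.trans ((min_le_right _ _).trans (min_le_left _ _))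
  have hqc : q ≤ 1 / (4 * D) ^ 2 := hq'.trans ((min_le_right _ _).trans (min_le_right _ _))
  have hs0 : 0 < Real.sqrt q := Real.sqrt_pos.2 hq
  have hss : Real.sqrt q * Real.sqrt q = q := Real.mul_self_sqrt hq.le
  have hs1 : 4 * D * Real.sqrt q ≤ 1 := by
    have a1 : Real.sqrt q ≤ 1 / (4 * D) := by
      rw [← one_div_pow] at hqc
      exact Real.sqrt_le_iff.2 ⟨by positivity, hqc⟩
    rwa [le_div_iff₀ (by positivity), mul_comm] at a1
  have hs2 : Real.sqrt q ≤ 1 / 8 := by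
    have := mul_le_mul_of_nonneg_right hd2 hs0.le
    linarith
  have hq3 : q ≤ 1 / 3 := by
    have := mul_le_mul hs2 hs2 hs0.le (by norm_num)
    linarith
  have hq4 : 3 ≤ 1 / q := by
    rw [le_div_iff₀ hq]
    linarith
  obtain ⟨s, hs⟩ : ∃ s : ℝ, s = 1 / Real.sqrt q := ⟨_, rfl⟩
  have hs3 : 1 ≤ s := by
    rw [hs, le_div_iff₀ hs0]
    linarith
  have hl2 : Real.log (1 / q) ≤ 2 * s := (log_GDrop hq).trans (le_of_eq (by rw [hs]; ring))
  have hl3 : Real.log (1 / q) * Real.sqrt q ≤ 2 := (le_div_iff₀ hs0).1 (log_GDrop hq)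
  have hl1 : 1 ≤ Real.log (1 / q) := by
    rw [Real.le_log_iff_exp_le (by positivity)]
    linarith [Real.exp_one_lt_d9]
  have ceil : ∀ a : ℝ, 0 < a → ∃ M : ℕ, a ≤ q * M ∧ q * M ≤ a + q := fun a ha => by
    refine ⟨⌈a / q⌉₊, ?_, ?_⟩
    · have := Nat.le_ceil (a / q)
      rwa [div_le_iff₀ hq, mul_comm] at this
    · have := mul_le_mul_of_nonneg_left (Nat.ceil_lt_add_one (a := a / q) (by positivity)).le hq.le
      rwa [mul_add, mul_div_cancel₀ _ hq.ne', mul_one] at this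
  obtain ⟨K, k2, k3⟩ := ceil K₀ (by linarith)
  obtain ⟨Y, y2, y3⟩ := ceil _ hy0
  obtain ⟨N, n2, n3⟩ := ceil (D * Real.log (1 / q) + 1) (by positivity)
  have dl1 := mul_le_mul_of_nonneg_left hl1 hd0.le
  have n4 : q * N ≤ 2 * D * Real.log (1 / q) := by linarith
  have n5 : (N : ℝ) ≤ 1 / q ^ 2 := by
    rw [le_div_iff₀ (by positivity)]
    have a1 : 2 * D * Real.log (1 / q) * q ≤ 1 := by
      have a2 := mul_le_mul_of_nonneg_left hl3 (show 0 ≤ 2 * D * Real.sqrt q by positivity)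
      calc 2 * D * Real.log (1 / q) * q
          = 2 * D * Real.sqrt q * (Real.log (1 / q) * Real.sqrt q) := by
            linear_combination (-(2 * D * Real.log (1 / q))) * hss
        _ ≤ 1 := by linarith
    have a3 := mul_le_mul_of_nonneg_right n4 hq.le
    calc (N : ℝ) * q ^ 2 = q * N * q := by ring
      _ ≤ 1 := a3.trans a1
  obtain ⟨T, t1, t2, h5⟩ := h5 q hq hqa k N hk1 hk2 n4
  have t3 : q * ((T : ℝ) + 1) ≤ Real.sqrt q := by
    have := mul_le_mul_of_nonneg_left t2 hs0.le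
    nlinarith
  have t4 : 2 * T ≤ K := by
    have a1 : q * (2 * (T : ℝ)) ≤ q * K := by linarith
    exact_mod_cast le_of_mul_le_mul_left a1 hq
  have t5 : T ≤ N := by
    have a1 : q * (T : ℝ) ≤ q * N := by linarith
    exact_mod_cast le_of_mul_le_mul_left a1 hq
  have hYK : D * Y ≤ K := by
    have a0 := mul_le_mul_of_nonneg_left (show q * Y ≤ 1 by linarith) hd0.le
    have a1 : q * ((D : ℝ) * Y) ≤ q * K := by linarith
    exact_mod_cast le_of_mul_le_mul_left a1 hq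
  have hthin : q ^ (D - 1) * ((Y : ℝ) * (3 * K + 1) ^ (D - 2)) ≤ 1 := by
    have k4 : q * (3 * K + 1) ≤ 3 * (K₀ + 2) := by linarith
    have a1 : (q * (3 * K + 1)) ^ (D - 2) ≤ W := hW ▸ pow_le_pow_left₀ (by positivity) k4 _
    have a2 : q * Y ≤ 1 / W := by
      have : 1 / W = 1 / (2 * W) + 1 / (2 * W) := by
        field_simp
        norm_num
      linarith
    have a3 := mul_le_mul a2 a1 (by positivity) (by positivity)
    rw [one_div_mul_cancel (by positivity)] at a3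
    rw [show D - 1 = D - 2 + 1 by omega, pow_succ]
    rw [mul_pow] at a3
    linarith
  refine ⟨N, by rw [div_le_iff₀ hq]; linarith, n5, fun F hF Ω R hR r1 r2 => ?_⟩
  set p : ℝ := 1 - Real.exp (- q ^ (D - 1)) with hp
  have hp0 : 0 ≤ p := by
    rw [hp, sub_nonneg]
    exact Real.exp_le_one_iff.2 (by have := pow_pos hq (D - 1); linarith)
  have hp1 : p ≤ 1 := by
    rw [hp]
    linarith [Real.exp_pos (- q ^ (D - 1))]
  obtain ⟨Z, -, hZ⟩ := ((bBoxC D).2.2.2.1 R).2.2.1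
  have hfull : ∀ B : Bx D, B ≤ R → Full2 F (Ω ∪ LY F 1 Z) B := fun B hB x x1 x2 x3 =>
    mem_union_right _ (((h3.1 D d F Z).1 1 x).2
      ⟨(hZ _).2 fun t => (x1 t).trans (hB t), x2, by exact_mod_cast x3⟩)
  have hinc : Incr (IFl F R) := fun A B hAB ⟨B', K', P, a1, a2⟩ => ⟨B', K', P, a1.trans hAB, a2⟩
  refine (h3.2 _ Ω (Ω ∪ LY F 1 Z) p _ hp0 hp1 subset_union_left hinc).trans ?_
  generalize Ω ∪ LY F 1 Z = Ω' at hfull
  set X₁ : Finset (Bx D) := (boxes R).filter fun B =>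
    Val B ∧ B ≤ R ∧ ∀ t, R t ≤ B t + (T + 1) with hX₁
  set X₂ : Finset (Bx D) := (boxes R).filter fun B =>
    Val B ∧ B ≤ R ∧ K ≤ psi B ∧ psi B ≤ 3 * K ∧ ∃ i, ex B i + 1 < Y with hX₂
  have hG := bGeoA D
  have b1 := union_GDrop Ω' hp0 hp1 R r2 X₁ (filter_subset _ _) (IBr F T K Y)
    (b := - (D * lam / q) + C / Real.sqrt q) (fun B hB => by
      obtain ⟨-, a1, a2, a3⟩ := mem_filter.1 hB
      have a4 := (hG.2.2.2.1 B R a1 a2).2.2.2.1
      have a5 : ∑ t : Sd D, (R t - B t).toNat ≤ 2 * D * (T + 1) := by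
        refine (sum_le_card_nsmul _ _ (T + 1) fun t _ => by have := a3 t; omega).trans ?_
        rw [card_univ, Fintype.card_prod, Fintype.card_fin, Fintype.card_bool, smul_eq_mul]
        exact le_of_eq (by ring)
      have a6 : (N : ℝ) ≤ psi B + 2 * D * (T + 1) := by
        exact_mod_cast (show N ≤ psi B + 2 * D * (T + 1) by omega)
      have a7 := mul_le_mul_of_nonneg_left a6 hq.le
      have a8 := mul_le_mul_of_nonneg_left t3 hd0.le
      rw [hlam]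
      exact (h5 F hF K Y Ω' B a1 (by omega)).1 (by linarith) y2 (hfull B a2) (by linarith))
  have b2 := union_GDrop Ω' hp0 hp1 R r2 X₂ (filter_subset _ _) (IBr F T K 0)
    (b := - (D * lam / q)) (fun B hB => by
      obtain ⟨-, a1, a2, a3, a4, j, a5⟩ := mem_filter.1 hB
      obtain ⟨i, c1, c2⟩ := thin_GDrop hd B a3 a4 j a5 hYK
      have a6 := (hG.2.2.2.1 B R a1 a2).2.2.2.1
      have c3 : (sg (ex B) i : ℝ) ≤ (Y : ℝ) * (3 * K + 1) ^ (D - 2) := by exact_mod_cast c2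
      refine ((h5 F hF K 0 Ω' B a1 (by omega)).2 i
        ((mul_le_mul_of_nonneg_left c3 (by positivity)).trans hthin)).trans
        (Real.exp_le_exp.2 (neg_le_neg ?_))
      rw [← hgd, div_le_iff₀ hq]
      have c4 : (K : ℝ) ≤ D * ex B i := by exact_mod_cast c1
      have c5 : 2 * D ^ 2 * |lam| / g ≤ q * K := by linarith
      rw [div_le_iff₀ hg] at c5
      have c6 := mul_le_mul_of_nonneg_left c4 (mul_pos hq hg).le
      have c7 : D * (D * |lam|) ≤ D * (g / 2 * ex B i * q) := by nlinarith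
      have c8 := le_of_mul_le_mul_left c7 hd0
      have c9 := mul_le_mul_of_nonneg_left (le_abs_self lam) hd0.le
      linarith)
  have step : Pr Ω' p (IFl F R) ≤
      Pr Ω' p (fun A => ∃ B ∈ X₁, IBr F T K Y B A) +
        Pr Ω' p (fun A => ∃ B ∈ X₂, IBr F T K 0 B A) := by
    refine le_trans ?_ ((bPrA _ Ω' p hp0 hp1).2.2.2.1 _ _)
    refine (bPrA _ _ p hp0 hp1).2.2.1 _ _ fun A _ hP => ?_
    rcases h1 D d F T K A R t1 hP with a | ⟨B, a1, ⟨A', a2, a3⟩, a4⟩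
    · omega
    have a5 := ((h2 D d F T K 0 A' B).1 a3).1
    rcases (h2 D d F T K Y A' B).2 t1 t4 a3 with c | ⟨A'', B', c1, c2, c3, c4⟩
    · exact Or.inl ⟨B, mem_filter.2 ⟨(hG.2.2.2.1 B R a5 a1).2.2.2.2, a5, a1, a4⟩, A', a2, c⟩
    · have c5 := ((h2 D d F T K 0 A'' B').1 c2).1
      exact Or.inr ⟨B', mem_filter.2
        ⟨(hG.2.2.2.1 B' R c5 (c3.trans a1)).2.2.2.2, c5, c3.trans a1, c4⟩, A'', c1.trans a2, c2⟩
  have f1 : Real.log (2 * (N : ℝ) + 1) ≤ 6 * s := by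
    have g1 : 2 * (N : ℝ) + 1 ≤ (1 / q) ^ 3 := by
      have g2 : (N : ℝ) ≤ (1 / q) ^ 2 := by rwa [one_div_pow]
      have g3 := mul_le_mul_of_nonneg_left hq4 (sq_nonneg (1 / q))
      have g4 : 1 ≤ (1 / q) ^ 2 := one_le_pow₀ (by linarith)
      rw [pow_succ (1 / q) 2]
      linarith
    have := Real.log_le_log (by positivity) g1
    rw [Real.log_pow] at this
    push_cast at this
    linarith
  have f4 := mul_le_mul_of_nonneg_left f1 hd0.le
  have f7 : 0 ≤ C * s := by positivity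
  have e1 : ∀ c : ℝ, c / Real.sqrt q = c * s := fun c => by rw [hs, mul_one_div]
  rw [← hlam]
  simp only [e1] at b1 ⊢
  obtain ⟨V, hV⟩ : ∃ V : ℝ, V = - (D * lam / q) + (C + 12 * D) * s := ⟨_, rfl⟩
  have c1 := b1.trans (Real.exp_le_exp.2 (show _ ≤ V by linarith))
  have c2 := b2.trans (Real.exp_le_exp.2 (show _ ≤ V by linarith))
  have c3 : 2 ≤ Real.exp s := by linarith [Real.add_one_le_exp s]
  rw [show - (D * lam / q) + (C + 12 * D + 1) * s = V + s by rw [hV]; ring, Real.exp_add]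
  have c4 := mul_le_mul_of_nonneg_left c3 (Real.exp_pos V).le
  linarith

end Pool.Agent.MP_6d294b_pr
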