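import Pool.Agent.Mg.F6d294b.Gf2a008
import Pool.Agent.Mg.F6d294b.G35f873

set_option linter.all false

section

open Finset

namespace Pool.Agent.MP_6d294b_pr

lemma log3_RPerc : 1 ≤ Real.log 3 := by
  rw [Real.le_log_iff_exp_le (by norm_num)]
  have := Real.exp_one_lt_d9
  linarith

lemma exp3_RPerc : (14 : ℝ) ≤ Real.exp 3 := by
  have h := Real.exp_one_gt_d9
  have h3 : Real.exp 3 = Real.exp 1 ^ 3 := by rw [← Real.exp_nat_mul]; norm_num
  rw [h3]
  have : (2.7 : ℝ) ^ 3 ≤ Real.exp 1 ^ 3 := pow_le_pow_left₀ (by norm_num) (by linarith) 3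
  linarith [show (14 : ℝ) ≤ 2.7 ^ 3 by norm_num]

lemma cube_RPerc (a L : ℝ) (ha : 0 ≤ a) (hL : 24 * a ^ 3 ≤ L) : (a * L) ^ 3 ≤ Real.exp L := by
  have hL0 : 0 ≤ L := le_trans (by positivity) hL
  have h := Real.pow_div_factorial_le_exp L hL0 4
  have h4 : ((Nat.factorial 4 : ℕ) : ℝ) = 24 := by norm_num [Nat.factorial]
  rw [h4] at h
  have h3 : 0 ≤ L ^ 3 := by positivity
  have : (a * L) ^ 3 ≤ L ^ 4 / 24 := by
    have : 24 * a ^ 3 * L ^ 3 ≤ L * L ^ 3 := mul_le_mul_of_nonneg_right hL h3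
    nlinarith
  linarith

/-- the numerical inequality at the base level -/
lemma num_RPerc (D A : ℕ) (x e C0 ll L k m : ℝ) (hD : 1 ≤ D) (he : 0 ≤ e) (hC0 : 0 ≤ C0)
    (hll : 1 ≤ ll) (hL : 1 ≤ L) (hk0 : 0 ≤ k) (hk : k ≤ Real.exp (2 * ll))
    (hLe : L ≤ Real.exp (2 * ll)) (hm : 0 < m) (hm1 : L ≤ Real.log m)
    (hm2 : Real.log m ≤ L + 13 * Real.log L)
    (hx : L + e + (C0 + 26 * D + 7 * A) * ll ≤ x) :
    Real.exp (- (D * x) + e + C0 * ll) * m ^ D * (k * Real.log m) ^ A ≤ 1 := by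
  have hL0 : 0 < L := by linarith
  have hlL : Real.log L ≤ 2 * ll := by
    rw [Real.log_le_iff_le_exp hL0]; exact hLe
  have hlL' : Real.log L ≤ L := by
    have := Real.log_le_sub_one_of_pos hL0
    linarith
  have hmb : m ≤ Real.exp (L + 26 * ll) := by
    rw [← Real.log_le_iff_le_exp hm]; linarith
  have hlm0 : 0 ≤ Real.log m := by linarith
  have hlm : Real.log m ≤ Real.exp (5 * ll) := by
    have h1 : Real.log m ≤ 14 * L := by linarith
    have h2 : Real.exp 3 ≤ Real.exp (3 * ll) := Real.exp_le_exp.2 (by linarith)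
    have h3 : Real.exp (5 * ll) = Real.exp (3 * ll) * Real.exp (2 * ll) := by
      rw [← Real.exp_add]; congr 1; ring
    have h4 : 14 * L ≤ Real.exp (3 * ll) * Real.exp (2 * ll) :=
      mul_le_mul (le_trans exp3_RPerc h2) hLe hL0.le (Real.exp_pos _).le
    rw [h3]; linarith
  have hkm : k * Real.log m ≤ Real.exp (7 * ll) := by
    have h3 : Real.exp (7 * ll) = Real.exp (2 * ll) * Real.exp (5 * ll) := by
      rw [← Real.exp_add]; congr 1; ring
    rw [h3]
    exact mul_le_mul hk hlm hlm0 (Real.exp_pos _).le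
  have h1 : m ^ D ≤ Real.exp (D * (L + 26 * ll)) := by
    rw [Real.exp_nat_mul]; exact pow_le_pow_left₀ hm.le hmb D
  have h2 : (k * Real.log m) ^ A ≤ Real.exp (A * (7 * ll)) := by
    rw [Real.exp_nat_mul]; exact pow_le_pow_left₀ (mul_nonneg hk0 hlm0) hkm A
  have hD' : (1 : ℝ) ≤ D := by exact_mod_cast hD
  have hA' : (0 : ℝ) ≤ A := Nat.cast_nonneg A
  calc Real.exp (- (D * x) + e + C0 * ll) * m ^ D * (k * Real.log m) ^ A
      ≤ Real.exp (- (D * x) + e + C0 * ll) * Real.exp (D * (L + 26 * ll)) *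
          Real.exp (A * (7 * ll)) := by
        apply mul_le_mul _ h2 (pow_nonneg (mul_nonneg hk0 hlm0) A) (by positivity)
        exact mul_le_mul_of_nonneg_left h1 (Real.exp_pos _).le
    _ = Real.exp (- (D * x) + e + C0 * ll + D * (L + 26 * ll) + A * (7 * ll)) := by
        rw [← Real.exp_add, ← Real.exp_add]
    _ ≤ 1 := by
        rw [Real.exp_le_one_iff]
        have hy : 0 ≤ e + (C0 + 26 * D + 7 * A) * ll := by positivity
        have h5 : (D : ℝ) * (L + (e + (C0 + 26 * D + 7 * A) * ll)) ≤ D * x :=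
          mul_le_mul_of_nonneg_left (by linarith) (by linarith)
        have h6 : 1 * (e + (C0 + 26 * D + 7 * A) * ll) ≤
            D * (e + (C0 + 26 * D + 7 * A) * ll) := mul_le_mul_of_nonneg_right hD' hy
        nlinarith

theorem rPerc (hS : RStep2) (hT : RTower) (hTop : RTop) : RPerc := by
  intro d r lam err h2 hrd hlam herr hB
  obtain ⟨l, rfl⟩ : ∃ l, r = l + 2 := ⟨r - 2, by omega⟩
  obtain ⟨m₀, hm₀⟩ := hS d
  have hchi : 0 < chi d l := by unfold chi; positivity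
  obtain ⟨C0, q0, hC0, hq0, hBq⟩ := hB (chi d l) hchi
  obtain ⟨n1, hn1⟩ := hT.2 l m₀
  obtain ⟨n2, hn2⟩ := hT.1 (l + 1) (24 * (2 / lam) ^ 3 + (2 / lam) ^ 2 + 1)
  refine ⟨C0 + 26 * (d - l : ℕ) + 7 * (8 * d + 6 : ℕ), min q0 (min (1 / lam) (1 / 3)),
    max n1 (max n2 3), by positivity, by positivity, ?_⟩
  intro q hq hqq n hn h1 h2'
  have e1 : l + 2 - 1 = l + 1 := by omega
  have e2 : l + 2 - 2 = l := by omega
  have e3 : d - (l + 2) + 2 = d - l := by omega
  rw [e1] at h1 h2'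
  set L := Real.log^[l + 1] (n : ℝ) with hLdef
  have hqa : q ≤ q0 := le_trans hqq (min_le_left _ _)
  have hqb : q ≤ 1 / lam := le_trans hqq (le_trans (min_le_right _ _) (min_le_left _ _))
  have hqc : q ≤ 1 / 3 := le_trans hqq (le_trans (min_le_right _ _) (min_le_right _ _))
  have hna : n1 ≤ n := le_trans (le_max_left _ _) hn
  have hnb : n2 ≤ n := le_trans (le_trans (le_max_left _ _) (le_max_right _ _)) hn
  have hnc : 3 ≤ n := le_trans (le_trans (le_max_right _ _) (le_max_right _ _)) hn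
  have hX := hn2 n hnb
  rw [← hLdef] at hX
  have ha : 0 < 2 / lam := by positivity
  have ha3 : 0 ≤ 24 * (2 / lam) ^ 3 := by positivity
  have ha2 : 0 ≤ (2 / lam) ^ 2 := by positivity
  have hL1 : 1 ≤ L := by linarith
  obtain ⟨k, s, hk2, hk, hs, hH1, hH2⟩ := hBq q hq hqa
  rw [e2] at hH1 hH2
  rw [e3] at hH1
  have hq1 : 0 < 1 / q := by positivity
  have hqL : 1 / q ≤ 2 / lam * L := by
    have : 1 / q = lam / q / lam := by field_simp
    rw [this, div_le_iff₀ hlam]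
    have : 2 / lam * L * lam = 2 * L := by field_simp
    rw [this]; exact h2'
  have hkL : (k : ℝ) ≤ L ^ 3 := by
    have h3 : 1 / q ^ 2 = (1 / q) ^ 2 := by rw [one_div_pow]
    have h4 : (1 / q) ^ 2 ≤ (2 / lam * L) ^ 2 := pow_le_pow_left₀ hq1.le hqL 2
    have h5 : (2 / lam) ^ 2 * L ^ 2 ≤ L * L ^ 2 :=
      mul_le_mul_of_nonneg_right (by linarith) (by positivity)
    calc (k : ℝ) ≤ (1 / q) ^ 2 := h3 ▸ hk
      _ ≤ (2 / lam) ^ 2 * L ^ 2 := by rw [← mul_pow]; exact h4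
      _ ≤ L ^ 3 := by nlinarith
  obtain ⟨m, hm0, hmj, hml1, hml2⟩ := hn1 n hna k hk2 hkL
  rw [← hLdef] at hml1 hml2
  have hmpos : (0 : ℝ) < m l := by
    rcases Nat.eq_zero_or_pos (m l) with h | h
    · rw [h] at hml1; simp at hml1; linarith
    · exact_mod_cast h
  have hsm : s ≤ m l := by
    have h3 : 1 / q ^ 3 = (1 / q) ^ 3 := by rw [one_div_pow]
    have h4 : (1 / q) ^ 3 ≤ (2 / lam * L) ^ 3 := pow_le_pow_left₀ hq1.le hqL 3
    have h5 := cube_RPerc (2 / lam) L ha.le (by linarith)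
    have h6 : Real.exp L ≤ m l := by rwa [← Real.le_log_iff_exp_le hmpos]
    have : (s : ℝ) ≤ m l := by linarith
    exact_mod_cast this
  have hll : 1 ≤ Real.log (1 / q) := by
    refine le_trans log3_RPerc (Real.log_le_log (by norm_num) ?_)
    rw [le_div_iff₀ hq]; linarith
  have hexp : Real.exp (2 * Real.log (1 / q)) = (1 / q) ^ 2 := by
    have : (2 : ℝ) * Real.log (1 / q) = (2 : ℕ) * Real.log (1 / q) := by norm_num
    rw [this, Real.exp_nat_mul, Real.exp_log hq1]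
  have he := herr q hq (by linarith)
  have hCn : (0 : ℝ) ≤ (C0 + 26 * (d - l : ℕ) + 7 * (8 * d + 6 : ℕ)) * Real.log (1 / q) := by
    positivity
  have hLe : L ≤ Real.exp (2 * Real.log (1 / q)) := by
    rw [hexp]
    have h3 : lam ≤ 1 / q := by
      rw [le_div_iff₀ hq]
      rw [le_div_iff₀ hlam] at hqb
      linarith
    have h4 : lam / q = lam * (1 / q) := by ring
    have h5 : lam * (1 / q) ≤ 1 / q * (1 / q) := mul_le_mul_of_nonneg_right h3 hq1.le
    nlinarith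
  set p := 1 - Real.exp (- q ^ (d - (l + 2) + 1)) with hp
  have hqp : 0 ≤ q ^ (d - (l + 2) + 1) := by positivity
  have hp0 : 0 ≤ p := by
    have : Real.exp (- q ^ (d - (l + 2) + 1)) ≤ 1 := Real.exp_le_one_iff.2 (by linarith)
    linarith
  have hp2 : p ≤ 1 / 2 := by
    have h3 := Real.add_one_le_exp (- q ^ (d - (l + 2) + 1))
    have h4 : q ^ (d - (l + 2) + 1) ≤ q := by
      rw [pow_succ]
      have : q ^ (d - (l + 2)) ≤ 1 := pow_le_one₀ hq.le (by linarith)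
      nlinarith
    linarith
  have hG : GG d (l + 2) k l p (m l) := by
    refine ⟨s, _, hsm, (Real.exp_pos _).le, hH1, hH2, ?_⟩
    have h3 : ((d - l : ℕ) : ℝ) * lam / q = (d - l : ℕ) * (lam / q) := by ring
    rw [h3]
    refine num_RPerc (d - l) (8 * d + 6) (lam / q) (err q) C0 (Real.log (1 / q)) L k (m l)
      (by omega) he hC0 hll hL1 (Nat.cast_nonneg k) ?_ hLe hmpos hml1 hml2 h1
    rw [hexp, one_div_pow]; exact hk
  have hdesc : ∀ j, j ≤ l → GG d (l + 2) k (l - j) p (m (l - j)) := by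
    intro j
    induction j with
    | zero => intro _; exact hG
    | succ j ih =>
      intro hj
      have h3 := ih (by omega)
      have e4 : l - j = l - (j + 1) + 1 := by omega
      rw [e4] at h3
      obtain ⟨a1, a2, a3⟩ := hmj (l - (j + 1)) (by omega)
      exact hm₀ (l + 2) k (l - (j + 1)) p _ _ (by omega) hrd hk2 hp0 hp2 a1 a2 a3 h3
  have h0 := hdesc l le_rfl
  rw [Nat.sub_self, hm0] at h0
  obtain ⟨s', ε, hs', hε, hH, -, hb⟩ := h0
  have hfin := hTop d (l + 2) k n s' p ε (by omega) (by omega) (by omega) hs' hp0 (by linarith) hH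
  rw [Nat.sub_zero] at hb
  have hln : 1 ≤ Real.log n :=
    le_trans log3_RPerc (Real.log_le_log (by norm_num) (by exact_mod_cast hnc))
  have hk2' : (2 : ℝ) ≤ k := by exact_mod_cast hk2
  have hkl : (2 : ℝ) ≤ k * Real.log n := by nlinarith
  have hA : (4 : ℝ) ≤ (k * Real.log n) ^ (8 * d + 6) := by
    calc (4 : ℝ) = 2 ^ 2 := by norm_num
      _ ≤ 2 ^ (8 * d + 6) := pow_le_pow_right₀ (by norm_num) (by omega)
      _ ≤ _ := pow_le_pow_left₀ (by norm_num) hkl _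
  have hen : 0 ≤ ε * (n : ℝ) ^ d := by positivity
  have : ε * (n : ℝ) ^ d * 4 ≤ 1 := le_trans (mul_le_mul_of_nonneg_left hA hen) hb
  linarith

end Pool.Agent.MP_6d294b_pr

end

section

open Finset

namespace Pool.Agent.MP_6d294b_pr

lemma incr_RFinal (d n r : ℕ) : Incr (PercR d n r) := by
  intro A B hAB hA S hS h
  exact hA S (subset_trans (Finset.coe_subset.2 hAB) hS) h

lemma one_RFinal (d n r : ℕ) : (1 : ℝ) ≤ Pr (univ : Finset (Fin d → Fin n)) 1 (PercR d n r) := by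
  classical
  have hP : PercR d n r univ := by
    intro S hS _
    rw [Finset.coe_univ] at hS
    exact Set.eq_univ_of_univ_subset hS
  unfold Pr
  refine le_trans ?_ (Finset.single_le_sum (fun A _ => ?_)
    (Finset.mem_powerset_self (univ : Finset (Fin d → Fin n))))
  · rw [if_pos hP]
    simp
  · split_ifs
    · exact mul_nonneg (pow_nonneg zero_le_one _) (pow_nonneg (by norm_num) _)
    · exact le_rfl

lemma large_RFinal (e : ℕ) (c K : ℝ) (hc : 0 < c) : ∃ X : ℝ, ∀ L : ℝ, X ≤ L →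
    K ≤ L ∧ Real.log L ^ e ≤ c * L := by
  have h1 : ∀ᶠ L : ℝ in Filter.atTop, K ≤ L ∧ Real.log L ^ e ≤ c * L := by
    have h2 := (Real.isLittleO_pow_log_id_atTop (n := e)).bound hc
    filter_upwards [h2, Filter.eventually_ge_atTop K, Filter.eventually_ge_atTop 0] with L a1 a2 a3
    refine ⟨a2, ?_⟩
    rw [Real.norm_eq_abs, Real.norm_eq_abs, id, abs_of_nonneg a3] at a1
    exact (le_abs_self _).trans a1
  exact Filter.eventually_atTop.1 h1

lemma core_RFinal (e : ℕ) (la C₀ C₁ q₀ : ℝ) (hla : 0 < la) (h0 : 0 ≤ C₀) (h1 : 0 ≤ C₁)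
    (hq₀ : 0 < q₀) : ∃ C X : ℝ, ∀ L : ℝ, X ≤ L → ∃ q : ℝ, 0 < q ∧ q ≤ q₀ ∧ q ≤ 1 ∧
      L + C₀ * Real.log (1 / q) ^ e / Real.sqrt q + C₁ * Real.log (1 / q) ≤ la / q ∧
      la / q ≤ 2 * L ∧ la / L - (q - q ^ 2) ≤ C * Real.log L ^ e / L ^ (3 / 2 : ℝ) := by
  obtain ⟨s, hs⟩ : ∃ s, s = Real.sqrt (2 / la) := ⟨_, rfl⟩
  have hs0 : 0 < s := hs ▸ Real.sqrt_pos.2 (by positivity)
  have hss : s ^ 2 = 2 / la := hs ▸ Real.sq_sqrt (by positivity)
  obtain ⟨K, hK⟩ : ∃ K, K = s * (C₀ * 2 ^ e + 2 * C₁) := ⟨_, rfl⟩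
  have hK0 : 0 ≤ K := by rw [hK]; positivity
  obtain ⟨X, hX⟩ := large_RFinal (e * 2) ((1 / (2 * K + 1)) ^ 2) (3 + la / q₀ + la + 2 / la)
    (by positivity)
  refine ⟨la * K + la ^ 2, X, fun L hL => ?_⟩
  obtain ⟨hb, hl⟩ := hX L hL
  have p1 : 0 < la / q₀ := by positivity
  have p2 : 0 < 2 / la := by positivity
  have hL0 : 0 < L := by linarith
  have hl1 : 1 ≤ Real.log L := by
    rw [Real.le_log_iff_exp_le hL0]
    linarith [Real.exp_one_lt_d9]
  obtain ⟨r, hr⟩ : ∃ r, r = Real.sqrt L := ⟨_, rfl⟩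
  have hr0 : 0 < r := hr ▸ Real.sqrt_pos.2 hL0
  have hrr : L = r ^ 2 := hr ▸ (Real.sq_sqrt hL0.le).symm
  have hr1 : 1 ≤ r := by nlinarith
  have hL32 : L ^ (3 / 2 : ℝ) = r ^ 3 := by
    rw [hr, Real.sqrt_eq_rpow, ← Real.rpow_natCast, ← Real.rpow_mul hL0.le]
    norm_num
  have hlog : ∀ y : ℝ, 0 < y → y ≤ 2 / la * L → Real.log y ≤ 2 * Real.log L := fun y a b => by
    have b1 : y ≤ L ^ 2 := by nlinarith
    have b2 := Real.log_le_log a b1
    rw [Real.log_pow] at b2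
    exact_mod_cast b2
  rw [hL32]
  generalize Real.log L = l at *
  have he1 : 1 ≤ l ^ e := one_le_pow₀ hl1
  have he : l ^ e ≤ 1 / (2 * K + 1) * r := by
    refine le_of_sq_le_sq ?_ (by positivity)
    rwa [← pow_mul, mul_pow, ← hrr]
  obtain ⟨x, hx⟩ : ∃ x, x = K * l ^ e / r := ⟨_, rfl⟩
  have hx0 : 0 ≤ x := by rw [hx]; positivity
  have hx1 : x ≤ 1 / 2 := by
    rw [hx, div_le_iff₀ hr0]
    rw [one_div_mul_eq_div, le_div_iff₀ (by positivity)] at he
    nlinarith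
  obtain ⟨q, hq⟩ : ∃ q, q = la / L * (1 - x) := ⟨_, rfl⟩
  have p3 : 0 < la / L := by positivity
  have hq0 : 0 < q := hq ▸ mul_pos p3 (by linarith)
  have hqu : q ≤ la / L := by nlinarith
  have hq2 : la / q ≤ 2 * L := by
    rw [div_le_iff₀ hq0, hq, show 2 * L * (la / L * (1 - x)) = 2 * la * (1 - x) by field_simp]
    nlinarith
  have hqinv : 1 / q ≤ 2 / la * L := by
    rw [show 1 / q = la / q / la by field_simp, show 2 / la * L = 2 * L / la by ring]
    exact div_le_div_of_nonneg_right hq2 hla.le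
  have hq1 : q ≤ 1 := by
    refine hqu.trans ?_
    rw [div_le_one hL0]
    linarith
  refine ⟨q, hq0, hqu.trans ?_, hq1, ?_, hq2, ?_⟩
  · rw [div_le_iff₀ hL0]
    have a1 : la / q₀ ≤ L := by linarith
    rw [div_le_iff₀ hq₀] at a1
    linarith
  · have a0 : 0 ≤ Real.log (1 / q) := Real.log_nonneg (by rw [le_div_iff₀ hq0]; linarith)
    have a2 : Real.log (1 / q) ^ e ≤ 2 ^ e * l ^ e := by
      rw [← mul_pow]
      exact pow_le_pow_left₀ a0 (hlog _ (by positivity) hqinv) e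
    have hs1 : 0 < Real.sqrt q := Real.sqrt_pos.2 hq0
    have a3 : 1 / Real.sqrt q ≤ s * r := by
      refine le_of_sq_le_sq ?_ (by positivity)
      rwa [one_div_pow, Real.sq_sqrt hq0.le, mul_pow, hss, ← hrr]
    have a4 : C₀ * Real.log (1 / q) ^ e / Real.sqrt q ≤ C₀ * (2 ^ e * l ^ e * (s * r)) := by
      rw [mul_div_assoc, div_eq_mul_one_div]
      exact mul_le_mul_of_nonneg_left (mul_le_mul a2 a3 (by positivity) (by positivity)) h0
    have a5 : Real.log (1 / q) ≤ 2 * (l ^ e * (s * r)) := by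
      have b1 : Real.log (1 / q) = 2 * Real.log (1 / Real.sqrt q) := by
        rw [one_div, one_div, Real.log_inv, Real.log_inv, Real.log_sqrt hq0.le]
        ring
      have b2 := Real.log_le_sub_one_of_pos (show 0 < 1 / Real.sqrt q by positivity)
      have b3 := le_mul_of_one_le_left (show 0 ≤ s * r by positivity) he1
      linarith
    have a6 := mul_le_mul_of_nonneg_left a5 h1
    have a7 : L * (1 + x) ≤ la / q := by
      rw [le_div_iff₀ hq0, hq,
        show L * (1 + x) * (la / L * (1 - x)) = la * (1 - x ^ 2) by field_simp; ring]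
      nlinarith [sq_nonneg x]
    have a8 : L * x = C₀ * (2 ^ e * l ^ e * (s * r)) + C₁ * (2 * (l ^ e * (s * r))) := by
      rw [hx, hrr, hK]
      field_simp
    linarith
  · have f1 : la / L - q = la * K * l ^ e / r ^ 3 := by
      rw [hq, hx, hrr]
      field_simp
      ring
    have f2 : q ^ 2 ≤ la ^ 2 * l ^ e / r ^ 3 := by
      refine (pow_le_pow_left₀ hq0.le hqu 2).trans ?_
      rw [hrr, div_pow, div_le_div_iff₀ (by positivity) (by positivity)]
      have g3 : r ^ 3 ≤ (r ^ 2) ^ 2 := by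
        rw [← pow_mul]
        exact pow_le_pow_right₀ hr1 (by norm_num)
      have g2 := g3.trans (le_mul_of_one_le_left (by positivity) he1)
      have := mul_le_mul_of_nonneg_left g2 (sq_nonneg la)
      linarith
    rw [add_mul, add_div]
    linarith

theorem rFinal (hO : SOld) (hB : RBase) (hP : RPerc) (hT : RTower) : RFinal := by
  classical
  intro e hD d r hr hd
  have hnn : ∀ n : ℕ, 0 ≤ (sInf {p : ℝ | 0 ≤ p ∧ p ≤ 1 ∧
      (1 / 2 : ℝ) ≤ Pr (univ : Finset (Fin d → Fin n)) p (PercR d n r)}) :=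
    fun n => Real.sInf_nonneg fun p hp => hp.1
  rcases le_or_gt (lamk d r) 0 with hla | hla
  · obtain ⟨n₀, hn₀⟩ := hT.1 (r - 1) 0
    refine ⟨0, n₀, fun n hn => ?_⟩
    have h1 := div_nonpos_of_nonpos_of_nonneg hla (hn₀ n hn)
    have h2 := Real.rpow_nonneg (hnn n) (1 / ((d : ℝ) - r + 1))
    rw [zero_mul, zero_div]
    linarith
  obtain ⟨C₀, hC₀, hD⟩ := hD d r hr hd
  have herr : ∀ q : ℝ, 0 < q → q ≤ 1 → 0 ≤ C₀ * Real.log (1 / q) ^ e / Real.sqrt q :=
    fun q h0 h1 => div_nonneg (mul_nonneg hC₀ (pow_nonneg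
      (Real.log_nonneg (by rw [le_div_iff₀ h0]; linarith)) e)) (Real.sqrt_nonneg q)
  obtain ⟨C₁, q₀, n₁, hC₁, hq₀, hp⟩ := hP d r _ _ hr hd hla herr (hB d r _ _ hr hd herr hD)
  obtain ⟨C, X, hX⟩ := core_RFinal e _ C₀ C₁ q₀ hla hC₀ hC₁ hq₀
  obtain ⟨n₀, hn₀⟩ := hT.1 (r - 1) X
  refine ⟨C, max n₀ n₁, fun n hn => ?_⟩
  obtain ⟨q, h0, h1, h2, h3, h4, h5⟩ := hX _ (hn₀ n (le_of_max_le_left hn))
  have hhalf := hp q h0 h1 n (le_of_max_le_right hn) h3 h4
  have hp1 : 1 - Real.exp (- q ^ (d - r + 1)) ≤ 1 := by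
    linarith [Real.exp_pos (- q ^ (d - r + 1))]
  have hinf : 1 - Real.exp (- q ^ (d - r + 1)) ≤ sInf {p : ℝ | 0 ≤ p ∧ p ≤ 1 ∧
      (1 / 2 : ℝ) ≤ Pr (univ : Finset (Fin d → Fin n)) p (PercR d n r)} := by
    refine le_csInf ⟨1, zero_le_one, le_rfl, by linarith [one_RFinal d n r]⟩ ?_
    rintro p ⟨b1, b2, b3⟩
    by_contra hlt
    have := (hO.2.1 _ (univ : Finset (Fin d → Fin n)) p b1 b2).2.2.2 _ (incr_RFinal d n r) _
      (not_le.1 hlt).le hp1
    linarith
  have hqq0 : 0 ≤ q - q ^ 2 := by nlinarith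
  have a1 := (root_Final (d - r + 1) (by omega) q h0 h2).trans hinf
  have a2 : ((d : ℝ) - r + 1) = ((d - r + 1 : ℕ) : ℝ) := by
    rw [Nat.cast_add, Nat.cast_sub hd, Nat.cast_one]
  have a3 := Real.rpow_le_rpow (pow_nonneg hqq0 _) a1
    (show (0 : ℝ) ≤ ((d - r + 1 : ℕ) : ℝ)⁻¹ by positivity)
  rw [Real.pow_rpow_inv_natCast hqq0 (by omega)] at a3
  rw [a2, one_div (((d - r + 1 : ℕ) : ℝ))]
  linarith

end Pool.Agent.MP_6d294b_pr

end
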