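import Pool.Agent.Mg.F6d294b.Gdbf881
import Pool.Agent.Mg.F6d294b.Gf2a008
import Pool.Agent.Mg.F6d294b.G28e636

set_option linter.all false

section

open Finset

namespace Pool.Agent.MP_6d294b_pr

variable {d D : ℕ}

/-! ### bricks -/

/-- the small low box `P` makes the brick `B` grow -/
def Trg (F : Fr D d) (T : ℕ) (B : Bx D) (P : Bx d) : Prop :=
  F.Reg P ∧ psi P < T ∧ F.lev P ≤ 1 ∧ F.lev P + gap B (F.pr P) ≤ 2

/-- bricks: seeds, growth, joins, and links through a small box -/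
inductive Br (F : Fr D d) (T K Y : ℕ) : Finset (Pt d) → Bx D → Prop
  | seed {W : Finset (Pt d)} {P : Bx d} : Span W P → F.Reg P → T ≤ psi P → psi P ≤ 2 * T →
      Gd K Y (F.pr P) → Br F T K Y W (F.pr P)
  | trig {A W : Finset (Pt d)} {B : Bx D} {P : Bx d} : Br F T K Y A B → Span W P →
      Disjoint A W → Trg F T B P → Gd K Y (B ⊔ F.pr P) → Br F T K Y (A ∪ W) (B ⊔ F.pr P)
  | join {A A' : Finset (Pt d)} {B B' : Bx D} : Br F T K Y A B → Br F T K Y A' B' →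
      Disjoint A A' → gap B B' ≤ 2 → Gd K Y (B ⊔ B') → Br F T K Y (A ∪ A') (B ⊔ B')
  | link {A A' W : Finset (Pt d)} {B B' : Bx D} {P : Bx d} : Br F T K Y A B →
      Br F T K Y A' B' → Span W P → Disjoint A A' → Disjoint A W → Disjoint A' W → F.Reg P →
      psi P < T → gap B (F.pr P) ≤ 2 → gap B' (F.pr P) ≤ 2 → Gd K Y (B ⊔ B' ⊔ F.pr P) →
      Br F T K Y (A ∪ A' ∪ W) (B ⊔ B' ⊔ F.pr P)

def IBr (F : Fr D d) (T K Y : ℕ) (R : Bx D) (A : Finset (Pt d)) : Prop :=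
  ∃ B, B ⊆ A ∧ Br F T K Y B R

/-- a chain of growth steps from `S` to `R` through boxes with the property `G` -/
def Chn2 (F : Fr D d) (T : ℕ) (G : Bx D → Prop) (S R : Bx D) (A : Finset (Pt d)) : Prop :=
  ∃ (k : ℕ) (Q : ℕ → Bx D) (P : ℕ → Bx d) (W : ℕ → Finset (Pt d)), Q 0 = S ∧ Q k = R ∧
    (∀ j, j ≤ k → G (Q j)) ∧
    (∀ j, j < k → W j ⊆ A ∧ Span (W j) (P j) ∧ Trg F T (Q j) (P j) ∧
      Q (j + 1) = Q j ⊔ F.pr (P j)) ∧
    ∀ i j, i < k → j < k → i ≠ j → Disjoint (W i) (W j)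

/-- a seed over `S` -/
def Sed (F : Fr D d) (T : ℕ) (S : Bx D) (A : Finset (Pt d)) : Prop :=
  ∃ P, F.Reg P ∧ F.pr P = S ∧ T ≤ psi P ∧ psi P ≤ 2 * T ∧ ISp P A

/-- a link that pays for the deficit `n` -/
def Lk (F : Fr D d) (T : ℕ) (S : Bx D) (n : ℕ) (A : Finset (Pt d)) : Prop :=
  n ≤ 4 ∨ ∃ P, F.Reg P ∧ F.pr P ≤ S ∧ psi P < T ∧ n ≤ psi P + 4 ∧ ISp P A

/-- deficit of side lengths -/
def dfc (a b y : Fin D → ℕ) : ℕ := ∑ i, (y i - (a i + b i))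

/-! ### layers -/

/-- points below the corner in all thick directions -/
def Fr.Low (F : Fr D d) (x : Pt d) : Prop := ∀ t ∈ F.th, kap (t, F.ta t) x ≤ F.c t

open Classical in
/-- points of level at most `h` over the set `X` -/
noncomputable def LY (F : Fr D d) (h : ℕ) (X : Finset (Pt D)) : Finset (Pt d) :=
  (Fintype.piFinset fun t => (univ.biUnion fun i => X.image fun y => y i) ∪
    Finset.Icc (- |F.c t| - h) (|F.c t| + h)).filter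
    fun x => F.pp x ∈ X ∧ F.Low x ∧ F.lev (ptB x) ≤ h

/-- the ground set contains the two lowest levels over the box -/
def Full2 (F : Fr D d) (Ω : Finset (Pt d)) (R : Bx D) : Prop :=
  ∀ x, InB (F.pp x) R → F.Low x → F.lev (ptB x) ≤ 1 → x ∈ Ω

/-- no gap: `C₁ j` or `C₀ (j + 1)` is occupied -/
def NG2 {α : Type} (C₀ C₁ : ℤ → Finset α) (J : Finset ℤ) (A : Finset α) : Prop :=
  ∀ j ∈ J, (∃ x ∈ A, x ∈ C₁ j) ∨ (∃ x ∈ A, x ∈ C₀ (j + 1))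

/-- outer box at the time of the layer `j` of the side `s`, enlarged by `e` -/
noncomputable def oz (m : ℕ → ℕ) (R : Bx D) (M e : ℕ) (z : ℕ → Bx D) (s : Sd D) (j : ℤ) :
    Bx D := fun t => outB m R (z (tm z M s j)) t + e

open Classical in
/-- the sites that can serve the layer `j` of the side `s` -/
noncomputable def Dall (F : Fr D d) (O : Bx D) (s : Sd D) (j : ℤ) : Finset (Pt d) :=
  LY F 1 (lay O s j) ∪ LY F 0 (lay O s (j + 1))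

/-- growth in the direction `i` only -/
def dirB (S R : Bx D) (i : Fin D) : Bx D := fun s => if s.1 = i then R s else S s

/-! ### records -/

abbrev Rc2 (D d : ℕ) := Bx d × (Sd D → ℕ)

/-- records with disjoint witnesses, and an event `H` on the remaining sites -/
def Rec (X : Finset (Rc2 D d)) (H : Finset (Rc2 D d) → Finset (Pt d) → Prop)
    (A : Finset (Pt d)) : Prop :=
  ∃ (U : Finset (Rc2 D d)) (w : Rc2 D d → Finset (Pt d)) (W : Finset (Pt d)),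
    (∀ u ∈ U, u ∈ X ∧ w u ⊆ A ∧ Span (w u) u.1 ∧ Disjoint (w u) W) ∧ W ⊆ A ∧ H U W ∧
    ∀ u ∈ U, ∀ v ∈ U, u ≠ v → Disjoint (w u) (w v)

open Classical in
/-- layers that are not deleted -/
noncomputable def JU (F : Fr D d) (S R : Bx D) (U : Finset (Rc2 D d)) (s : Sd D) : Finset ℤ :=
  (Finset.Ioo (S s) (R s)).filter fun j =>
    ∀ u ∈ U, ¬ (F.pr u.1 s - u.2 s < j ∧ j ≤ F.pr u.1 s)

/-- price of the deleted layers -/
noncomputable def aw (F : Fr D d) (b : Sd D → ℤ → ℝ) (u : Rc2 D d) : ℝ :=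
  ∏ s : Sd D, ∏ j ∈ Finset.Ioc (F.pr u.1 s - u.2 s) (F.pr u.1 s), (b s j)⁻¹

def EvA (F : Fr D d) (C₀ C₁ : Sd D → ℤ → Finset (Pt d)) (S R : Bx D) (U : Finset (Rc2 D d))
    (W : Finset (Pt d)) : Prop :=
  ∃ V : Sd D → Finset (Pt d), (∀ s, V s ⊆ W ∧ NG2 (C₀ s) (C₁ s) (JU F S R U s) (V s)) ∧
    ∀ s t, s ≠ t → Disjoint (V s) (V t)

def EvB (F : Fr D d) (E : Sd D → ℤ → Finset (Pt d)) (S R : Bx D) (U : Finset (Rc2 D d))
    (W : Finset (Pt d)) : Prop :=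
  ∀ s, ∀ j ∈ JU F S R U s, ∃ x ∈ W, x ∈ E s j

/-- records of low boxes with several sites -/
def AdmM (F : Fr D d) (T : ℕ) (S R : Bx D) (O : Sd D → ℤ → Bx D) (u : Rc2 D d) : Prop :=
  Val u.1 ∧ F.Reg u.1 ∧ F.lev u.1 ≤ 1 ∧ 1 ≤ psi u.1 ∧ psi u.1 < T ∧
  ∑ s, u.2 s ≤ psi (F.pr u.1) + 2 ∧ (∃ s, u.2 s ≠ 0) ∧
  ∀ (s : Sd D) (j : ℤ), F.pr u.1 s - u.2 s < j → j ≤ F.pr u.1 s →
    S s < j ∧ j ≤ R s ∧ ∀ t : Sd D, t.1 ≠ s.1 → F.pr u.1 t ≤ O s j t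

open Classical in
noncomputable def admM (F : Fr D d) (T : ℕ) (R₀ S R : Bx D) (O : Sd D → ℤ → Bx D) :
    Finset (Rc2 D d) :=
  (boxes (F.lift R₀) ×ˢ Fintype.piFinset fun _ => Finset.range (T + 2)).filter (AdmM F T S R O)

open Classical in
/-- records of single sites that serve two directions -/
noncomputable def admD (F : Fr D d) (m : ℕ → ℕ) (M : ℕ) (R : Bx D) (z : ℕ → Bx D) :
    Finset (Rc2 D d) :=
  (boxes (F.lift R) ×ˢ Fintype.piFinset fun _ => Finset.range 3).filter fun u =>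
    Val u.1 ∧ psi u.1 = 0 ∧ F.Reg u.1 ∧ F.lev u.1 = 0 ∧ (F.pr u.1, u.2) ∈ admP m 1 M R z

/-! ### helper sites -/

/-- inner layers `C₀ ⊆ C₁` and outer regions `E`, with heights `ht` -/
def Lays2 {α : Type} (Ω : Finset α) (S R : Bx D) (ht : Sd D → α → ℤ)
    (C₀ C₁ E : Sd D → ℤ → Finset α) : Prop :=
  (∀ s j, S s < j → j ≤ R s → C₀ s j ⊆ C₁ s j ∧ C₁ s j ⊆ Ω ∧ (∀ x ∈ C₁ s j, ht s x = j) ∧
    ∀ x ∈ E s j, ht s x = j ∨ ht s x = j + 1) ∧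
  ∀ s j s' j', S s < j → j ≤ R s → S s' < j' → j' ≤ R s' → (s, j) ≠ (s', j') →
    Disjoint (C₁ s j) (C₁ s' j')

open Classical in
/-- layers that are not touched by a helper site -/
noncomputable def JY2 {α : Type} (ht : Sd D → α → ℤ) (J : Sd D → Finset ℤ)
    (Y : Finset ((Sd D × ℤ) × α)) (s : Sd D) : Finset ℤ :=
  (J s).filter fun j => ∀ y ∈ Y, ht s y.2 ≠ j ∧ ht s y.2 ≠ j + 1 ∧ y.1 ≠ (s, j) ∧
    y.1 ≠ (s, j + 1)

def EY2 {α : Type} (ht : Sd D → α → ℤ) (C₀ C₁ : Sd D → ℤ → Finset α) (J : Sd D → Finset ℤ)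
    (Y : Finset ((Sd D × ℤ) × α)) (A : Finset α) : Prop :=
  (∀ y ∈ Y, ∀ x ∈ A, x ∉ C₁ y.1.1 y.1.2) ∧ ∀ s, NG2 (C₀ s) (C₁ s) (JY2 ht J Y s) A

/-! ### cells, faces and costs -/

noncomputable def m2 (q : ℝ) (w y : ℕ) : ℕ := mq q (y + 2 * w)

noncomputable def N2 (q : ℝ) (w y : ℕ) : ℝ := Nf q (y + 2 * w) - Nf q (2 * w)

noncomputable def NV (q : ℝ) (w : ℕ) (y : Fin D → ℕ) : ℝ := ∑ i, N2 q w (y i)

/-- enlarged side length -/
noncomputable def t2 (q : ℝ) (w a y : ℕ) : ℝ := (y : ℝ) + a + 2 * m2 q w y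

/-- enlarged face -/
noncomputable def F2 (q : ℝ) (w a : ℕ) (y : Fin D → ℕ) (i : Fin D) : ℝ :=
  q ^ (D - 1) * ∏ j ∈ univ.erase i, t2 q w a (y j)

noncomputable def Th2 (η ε F : ℝ) : ℝ := F * (1 + min (η * Real.exp (3 * F / 2)) ε)

/-- cost of one step -/
noncomputable def co2 (k : ℕ) (q : ℝ) (w : ℕ) (η ε : ℝ) (y : Fin D → ℕ) (i : Fin D) : ℝ :=
  gk k (Th2 η ε (F2 q w (2 * w) y i))

/-- weight per layer of the records with several sites -/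
noncomputable def om (D : ℕ) (q F : ℝ) : ℝ := q ^ (D - 1) * F * (1 + 1 / F) ^ 2

noncomputable def lamD (k D : ℕ) : ℝ := ∫ z in Set.Ioi (0 : ℝ), gk k (z ^ (D - 1))

/-- properties of the derivative of `gk` -/
def Slp1 (k : ℕ) : Prop :=
  (∀ z z' : ℝ, 0 < z → 0 < z' → gk k z + mkk k z * (z' - z) ≤ gk k z') ∧
  (∀ z z' : ℝ, 0 < z → z ≤ z' → mkk k z ≤ mkk k z') ∧ (∀ z : ℝ, 0 < z → mkk k z ≤ 0) ∧
  (∀ z : ℝ, 0 < z → 4 * (k : ℝ) ^ 2 * z ≤ 1 → z * mkk k z ≤ - (1 / 12)) ∧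
  (∀ z : ℝ, 0 < z → Real.exp (- ((k + 1) * z)) / 2 ≤ - mkk k z) ∧
  (∀ z : ℝ, 0 < z → z * (- mkk k z) ≤ (k + 1) * (1 + z) * Real.exp (- ((k + 1) * z)))

def Slp2 (k : ℕ) (ε : ℝ) : Prop :=
  Slp1 k ∧ 0 < ε ∧ (k + 1) * ε ≤ 1 / 4 ∧
  ∀ Z z z' : ℝ, 0 < z' → z' ≤ (1 + 4 * ε) * z → 2 * z ≤ Z →
    gk k Z + mkk k Z * (z - Z) ≤ gk k z'

/-- basic conditions -/
def Bas2 (D k : ℕ) (q p : ℝ) (w : ℕ) (η ε : ℝ) (Φ : (Fin D → ℕ) → ℝ) : Prop :=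
  2 ≤ D ∧ 1 ≤ k ∧ 0 < q ∧ q ≤ 1 / 2000 ∧ p = 1 - Real.exp (- q ^ (D - 1)) ∧ 8 ≤ w ∧
  4 * q * w ≤ 1 ∧ 0 ≤ η ∧ Slp2 k ε ∧ IsPot2 (co2 k q w η ε) Φ

/-- needles -/
def Ndl (A q : ℝ) (w : ℕ) (a : Fin D → ℕ) (i : Fin D) : Prop :=
  ∃ j, i ≠ j ∧ (∀ l, l ≠ i → a l ≤ a j) ∧
    A * cz D q w * ((a j : ℝ) + 1) * ((a j : ℝ) + 1 + 2 * w) ≤ a i * w

/-- the exponent of the main induction -/
noncomputable def Vg (C η' q : ℝ) (w : ℕ) (Φ : (Fin D → ℕ) → ℝ) (R : Bx D) : ℝ :=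
  - Φ (ex R) + C * NV q w (ex R) + η' * psi R

noncomputable def LamV (d N k : ℕ) : ℝ := 2 * d * Real.log (2 * N + 1 + k)

noncomputable def Lv (D N : ℕ) : ℝ := 6 * D * Real.log (2 * N + 1) + 1

/-- conditions on the parameters -/
def Par3 (D d : ℕ) (A q : ℝ) (k N w T : ℕ) (ρ X G : ℝ) : Prop :=
  q ≤ 1 / 2000 ∧ 8 ≤ w ∧ 1 ≤ T ∧ A ≤ w ∧ 1200 * (2 * T + 1) ^ d ≤ w ∧ 4 * A * q * w ≤ 1 ∧
  q * (T + 2 * w + 1) ≤ 1 ∧ q ^ 2 * (2 * N + 2 * w + 1) ≤ 1 ∧ 0 ≤ ρ ∧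
  A * (A * Real.sqrt q) ≤ ρ ^ 3 ∧ A * Real.sqrt q * (1 + q * (2 * N + 1)) ≤ 1 ∧
  2 * (A + 2 * D * cz D q w + A * q * N * (1 + q * (2 * N + 1)) ^ D) +
    2 * D * Real.log (2 * N + 1) ≤ X ∧
  X + Lv D N + LamV d N k + 6 * cz D q w + A * cz D q w ^ 2 ≤ G ∧
  G + X + Lv D N + LamV d N k ≤ T ∧ 24 * q ^ 2 * N * w ≤ 1 ∧ A * cz D q w ≤ w ∧
  2 * (A * Real.sqrt q) * ρ * Real.sqrt w ≤ 1 ∧
  2 * (2 * (A * Real.sqrt q) * ρ) * N * Real.sqrt q ≤ 1 ∧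
  9600 * (2 * (A * Real.sqrt q) * ρ) * N ≤ w ∧
  A * (1 / Real.sqrt w + q * Real.sqrt (2 * N + 2 * w)) ≤ 1 ∧
  (2 * w + 2) * (1 + Real.log (1 / q)) * Real.sqrt q ≤ 1 ∧ (T + 1) * Real.sqrt q ≤ 1

end Pool.Agent.MP_6d294b_pr

end

section

open Finset

namespace Pool.Agent.MP_6d294b_pr

/-! ### geometry -/

/-- a family of small boxes and bricks in which nothing can be merged -/
def GFam : Prop := ∀ (D d : ℕ) (F : Fr D d) (T K : ℕ) (A : Finset (Pt d)) (P : Bx d), 1 ≤ T →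
  F.Reg P → (∀ x ∈ A, InB x P) →
  ∃ (I : Finset (Finset (Pt d) × Bx d)) (J : Finset (Finset (Pt d) × Bx D)),
    (∀ u ∈ I, Val u.2 ∧ u.2 ≤ P ∧ psi u.2 < T) ∧
    (∀ v ∈ J, v.1 ⊆ A ∧ Br F T K 0 v.1 v.2 ∧ v.2 ≤ F.pr P) ∧
    (∀ x ∈ A, (∃ u ∈ I, InB x u.2) ∨ ∃ v ∈ J, InB (F.pp x) v.2) ∧
    (∀ u ∈ I, ∀ u' ∈ I, gap u.2 u'.2 ≤ 2 → u = u') ∧
    (∀ u ∈ I, ∀ v ∈ J, ¬ Trg F T v.2 u.2) ∧
    (∀ v ∈ J, ∀ v' ∈ J, gap v.2 v'.2 ≤ 2 → v = v') ∧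
    (∀ u ∈ I, ∀ v ∈ J, ∀ v' ∈ J, gap v.2 (F.pr u.2) ≤ 2 → gap v'.2 (F.pr u.2) ≤ 2 → v = v')

/-- reduction to bricks -/
def GRed : Prop := ∀ (D d : ℕ) (F : Fr D d) (T K : ℕ) (A : Finset (Pt d)) (R : Bx D), 1 ≤ T →
  IFl F R A → psi R < T ∨ ∃ B, B ≤ R ∧ IBr F T K 0 B A ∧ ∀ s, R s ≤ B s + (T + 1)

/-- good bricks, or a thin long brick -/
def GBrG : Prop := ∀ (D d : ℕ) (F : Fr D d) (T K Y : ℕ) (A : Finset (Pt d)) (B : Bx D),
  (Br F T K Y A B → Val B ∧ Gd K Y B) ∧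
  (1 ≤ T → 2 * T ≤ K → Br F T K 0 A B → Br F T K Y A B ∨
    ∃ (A' : Finset (Pt d)) (B' : Bx D), A' ⊆ A ∧ Br F T K 0 A' B' ∧ B' ≤ B ∧ K ≤ psi B' ∧
      psi B' ≤ 3 * K ∧ ∃ i, ex B' i + 1 < Y)

/-- chains -/
def GChn : Prop := ∀ (D d : ℕ) (F : Fr D d) (T : ℕ),
  (∀ (G : Bx D → Prop) (S R : Bx D), Incr (Chn2 F T G S R) ∧
    ∀ A, Chn2 F T G S R A → S ≤ R ∧ G S) ∧
  (∀ (G : Bx D → Prop) (S R : Bx D) (A : Finset (Pt d)) (K : ℕ), Chn2 F T G S R A → Val S →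
    psi S < K → K ≤ psi R → ∃ (S' : Bx D) (B C : Finset (Pt d)), B ⊆ A ∧ C ⊆ A ∧ Disjoint B C ∧
      Chn2 F T G S S' B ∧ Chn2 F T G S' R C ∧ K ≤ psi S' ∧ psi S' ≤ K + T) ∧
  (∀ (K Y : ℕ) (A : Finset (Pt d)) (R : Bx D), Br F T K Y A R →
    (∃ (S : Bx D) (B C : Finset (Pt d)), B ⊆ A ∧ C ⊆ A ∧ Disjoint B C ∧ Val S ∧ Sed F T S B ∧
      Chn2 F T (Gd K Y) S R C) ∨
    (∃ (Q P S : Bx D) (B₁ B₂ B₃ C : Finset (Pt d)), B₁ ⊆ A ∧ B₂ ⊆ A ∧ B₃ ⊆ A ∧ C ⊆ A ∧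
      Disjoint B₁ B₂ ∧ Disjoint B₁ B₃ ∧ Disjoint B₁ C ∧ Disjoint B₂ B₃ ∧ Disjoint B₂ C ∧
      Disjoint B₃ C ∧ Br F T K Y B₁ Q ∧ Br F T K Y B₂ P ∧
      Lk F T S (dfc (ex Q) (ex P) (ex S)) B₃ ∧ Chn2 F T (Gd K Y) S R C ∧ Q ≤ S ∧ P ≤ S ∧
      psi P ≤ psi Q ∧ psi Q < psi S))

/-- every chain follows a path -/
def GWord : Prop := ∀ (D d : ℕ) (F : Fr D d) (m : ℕ → ℕ) (N : ℕ → ℝ) (L M T : ℕ)
  (G : Bx D → Prop) (S R : Bx D) (A : Finset (Pt d)), 1 ≤ D → Monotone N →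
  (∀ y, y ≤ L → N y + 1 ≤ N (y + m y)) → (∀ i, ex R i ≤ L) → Val S →
  ∑ i, (N (ex R i) - N (ex S i)) + 2 * D ≤ M → Chn2 F T G S R A →
  ∃ z, IsPath m S R M z ∧ Chn2 F T (Fol m R M z) S R A

/-- union over the paths -/
def GWrd : Prop := ∀ (D d : ℕ) (F : Fr D d) (T w : ℕ) (G : Bx D → Prop) (S R : Bx D)
  (Ω : Finset (Pt d)) (p q a c : ℝ), 1 ≤ D → 0 < q → 0 ≤ p → p ≤ 1 → 0 ≤ c → Val S → S ≤ R →
  q ^ 2 * (psi R + 2 * w + 1) ≤ 1 →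
  (∀ (M : ℕ) (z : ℕ → Bx D), IsPath (m2 q w) S R M z →
    Pr Ω p (Chn2 F T (Fol (m2 q w) R M z) S R) ≤ Real.exp (a + (M + 1) * c)) →
  Pr Ω p (Chn2 F T G S R) ≤ Real.exp (a + (Real.log (2 * D + 1) + c + 1) * (2 * D + 2) *
    (NV q w (ex R) - NV q w (ex S) + 1))

/-- lifted layers, and a larger ground set -/
def GLY : Prop :=
  (∀ (D d : ℕ) (F : Fr D d) (X : Finset (Pt D)),
    (∀ (h : ℕ) (x : Pt d), x ∈ LY F h X ↔ F.pp x ∈ X ∧ F.Low x ∧ F.lev (ptB x) ≤ h) ∧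
    (LY F 0 X).card = X.card ∧ (LY F 1 X).card = (d - D + 1) * X.card ∧
    (∀ x : Pt d, F.Reg (ptB x) → F.Low x)) ∧
  (∀ (α : Type) [DecidableEq α] (Ω Ω' : Finset α) (p : ℝ) (E : Finset α → Prop), 0 ≤ p → p ≤ 1 →
    Ω ⊆ Ω' → Incr E → Pr Ω p E ≤ Pr Ω' p E)

def GExtA : Prop := ∀ (D d : ℕ) (F : Fr D d) (m : ℕ → ℕ) (S R : Bx D) (M T : ℕ) (z : ℕ → Bx D)
  (A : Finset (Pt d)), Monotone m → Val S → S ≤ R → IsPath m S R M z →
  Chn2 F T (Fol m R M z) S R A →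
  Rec (admM F T R S R (oz m R M (T + 1) z) ∪ admD F m M R z)
    (EvA F (fun s j => LY F 0 (reg m R M 0 z s j)) (fun s j => LY F 1 (reg m R M 0 z s j)) S R) A

def GExtB : Prop := ∀ (D d : ℕ) (F : Fr D d) (m : ℕ → ℕ) (S R : Bx D) (M T : ℕ) (z : ℕ → Bx D)
  (A : Finset (Pt d)), Monotone m → Val S → S ≤ R → IsPath m S R M z →
  Chn2 F T (Fol m R M z) S R A →
  Rec (admM F T R S R (oz m R M (T + 1) z))
    (EvB F (fun s j => Dall F (oz m R M 2 z s j) s j) S R) A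

def GExtC : Prop := ∀ (D d : ℕ) (F : Fr D d) (T : ℕ) (G : Bx D → Prop) (S R : Bx D) (i : Fin D)
  (A : Finset (Pt d)), Val S → Chn2 F T G S R A →
  Rec (admM F T R S (dirB S R i) fun _ _ => R)
    (EvA F (fun s j => LY F 0 (lay R s j)) (fun s j => LY F 1 (lay R s j)) S (dirB S R i)) A

/-! ### probability -/

/-- layers with growing faces, jointly with an independent event -/
def GLine : Prop := ∀ (α : Type) [DecidableEq α] (Ω : Finset α) (p p' : ℝ) (k : ℕ), 1 ≤ k →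
  0 ≤ p' → p = 1 - Real.exp (- p') →
  ∀ (C₀ C₁ : ℤ → Finset α) (φ : ℤ → ℝ) (J : Finset ℤ) (G : Finset α → Prop),
    (∀ i j, (i ∈ J ∨ i - 1 ∈ J) → (j ∈ J ∨ j - 1 ∈ J) → i ≠ j → Disjoint (C₁ i) (C₁ j)) →
    (∀ j, (j ∈ J ∨ j - 1 ∈ J) → C₀ j ⊆ C₁ j ∧ p' * (C₀ j).card ≤ φ j ∧
      p' * (C₁ j).card ≤ k * φ j ∧ 0 < φ j) →
    (∀ j ∈ J, φ j ≤ φ (j + 1)) →
    (∀ j, (j ∈ J ∨ j - 1 ∈ J) → ∀ A, G A ↔ G (A \ C₁ j)) →
    Pr Ω p (fun A => G A ∧ NG2 C₀ C₁ J A) ≤ Pr Ω p G * ∏ j ∈ J, Real.exp (- gk k (φ (j + 1)))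

/-- records, and the price of deleted layers -/
def GRec : Prop := ∀ (D d : ℕ),
  (∀ (Ω : Finset (Pt d)) (p : ℝ), 0 ≤ p → p ≤ 1 / 2 → ∀ (X : Finset (Rc2 D d))
    (H : Finset (Rc2 D d) → Finset (Pt d) → Prop) (a : Rc2 D d → ℝ) (M₀ : ℝ), 0 ≤ M₀ →
    (∀ u, 0 ≤ a u) → (∀ U, U ⊆ X → Incr (H U) ∧ Pr Ω p (H U) ≤ M₀ * ∏ u ∈ U, a u) →
    Pr Ω p (Rec X H) ≤ M₀ * Real.exp (∑ u ∈ X, Pr Ω p (ISp u.1) * a u)) ∧
  (∀ (F : Fr D d) (S R : Bx D) (b : Sd D → ℤ → ℝ) (U : Finset (Rc2 D d)),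
    (∀ s j, 0 < b s j ∧ b s j ≤ 1 ∧ b s j ≤ b s (j + 1)) →
    ∏ s : Sd D, ∏ j ∈ JU F S R U s, b s (j + 1) ≤
      (∏ s : Sd D, ∏ j ∈ Ioo (S s) (R s), b s (j + 1)) * ∏ u ∈ U, aw F b u)

def GCrA : Prop := ∀ (D d : ℕ) (F : Fr D d) (Ω : Finset (Pt d)) (p : ℝ), 0 ≤ p → p ≤ 1 / 2 →
  ∀ (X : Finset (Rc2 D d)) (C₀ C₁ : Sd D → ℤ → Finset (Pt d)) (S R : Bx D) (b : Sd D → ℤ → ℝ),
    (∀ s j, 0 < b s j ∧ b s j ≤ 1 ∧ b s j ≤ b s (j + 1)) →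
    (∀ (s : Sd D) (J : Finset ℤ), J ⊆ Ioo (S s) (R s) →
      Pr Ω p (NG2 (C₀ s) (C₁ s) J) ≤ ∏ j ∈ J, b s (j + 1)) →
    Pr Ω p (Rec X (EvA F C₀ C₁ S R)) ≤ (∏ s : Sd D, ∏ j ∈ Ioo (S s) (R s), b s (j + 1)) *
      Real.exp (∑ u ∈ X, Pr Ω p (ISp u.1) * aw F b u)

/-- low boxes near a layer -/
def GWMa : Prop := ∀ D d : ℕ, ∃ C : ℝ, 0 ≤ C ∧ ∀ (F : Fr D d) (O : Bx D) (s : Sd D) (j : ℤ)
  (X : Finset (Bx d)), Val O →
  (∀ P ∈ X, Val P ∧ F.Reg P ∧ F.lev P ≤ 1 ∧ j ≤ F.pr P s ∧ F.pr P s ≤ j + psi (F.pr P) + 1 ∧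
    ∀ t : Sd D, t.1 ≠ s.1 → F.pr P t ≤ O t) →
  ∑ P ∈ X, (1 / 4 : ℝ) ^ psi P ≤ C * sg (ex O) s.1

/-- total weight of the records with several sites -/
def GWM : Prop := ∀ D d : ℕ, ∃ C : ℝ, 0 ≤ C ∧ ∀ (F : Fr D d) (Ω : Finset (Pt d)) (p : ℝ),
  0 ≤ p → p ≤ 1 → ∀ (T : ℕ) (R₀ S R : Bx D) (O : Sd D → ℤ → Bx D) (b : Sd D → ℤ → ℝ),
    (∀ s j, S s < j → j ≤ R s → Val (O s j) ∧ 0 < b s j ∧ b s j ≤ 1 ∧
      64 * (T : ℝ) ^ d * p * (b s j)⁻¹ ^ 2 ≤ 1) →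
    ∑ u ∈ admM F T R₀ S R O, Pr Ω p (ISp u.1) * aw F b u ≤
      ∑ s : Sd D, ∑ j ∈ Ioc (S s) (R s), C * (p ^ 2 * sg (ex (O s j)) s.1 * (b s j)⁻¹ ^ 4)

/-- total weight of the diagonal sites -/
def GW1 : Prop := ∀ (D d : ℕ) (κ : ℝ), 1 ≤ κ → ∃ C : ℝ, 0 ≤ C ∧
  ∀ (k : ℕ) (q p : ℝ) (w : ℕ) (η ε : ℝ) (Φ : (Fin D → ℕ) → ℝ) (F : Fr D d) (Ω : Finset (Pt d))
    (S R : Bx D) (M : ℕ) (z : ℕ → Bx D), Bas2 D k q p w η ε Φ → Val S → S ≤ R →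
    q * (psi R + 2 * w + 1) ≤ κ → IsPath (m2 q w) S R M z →
    ∑ u ∈ admD F (m2 q w) M R z, Pr Ω p (ISp u.1) *
      aw F (fun s j => Real.exp (- gk k (F2 q w w (ex (z (tm z M s j))) s.1))) u ≤ (M + 1) * C

/-- helper sites -/
def GHa : Prop := ∀ (D : ℕ) (α : Type) [DecidableEq α] (Ω : Finset α) (S R : Bx D)
  (ht : Sd D → α → ℤ) (C₀ C₁ E : Sd D → ℤ → Finset α) (J : Sd D → Finset ℤ) (A : Finset α),
  Lays2 Ω S R ht C₀ C₁ E → (∀ s, J s ⊆ Ioo (S s) (R s)) →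
  (∀ s, ∀ j ∈ J s, ∃ x ∈ A, x ∈ E s j) →
  ∃ Y : Finset ((Sd D × ℤ) × α),
    (∀ y ∈ Y, y.1.2 ∈ J y.1.1 ∧
      y.2 ∈ E y.1.1 y.1.2 \ (C₁ y.1.1 y.1.2 ∪ C₀ y.1.1 (y.1.2 + 1)) ∧ y.2 ∈ A) ∧
    Set.InjOn Prod.fst (Y : Set ((Sd D × ℤ) × α)) ∧
    Set.InjOn Prod.snd (Y : Set ((Sd D × ℤ) × α)) ∧
    EY2 ht C₀ C₁ J Y (A \ Y.image Prod.snd)

def GHb : Prop := ∀ (D : ℕ) (α : Type) [DecidableEq α] (Ω : Finset α) (p p' : ℝ) (k : ℕ),
  1 ≤ k → 0 ≤ p' → p = 1 - Real.exp (- p') → p ≤ 1 / 2 →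
  ∀ (S R : Bx D) (ht : Sd D → α → ℤ) (C₀ C₁ E : Sd D → ℤ → Finset α) (φ : Sd D → ℤ → ℝ)
    (J : Sd D → Finset ℤ) (Y : Finset ((Sd D × ℤ) × α)), Lays2 Ω S R ht C₀ C₁ E →
    (∀ s, J s ⊆ Ioo (S s) (R s)) →
    (∀ s j, S s < j → j ≤ R s → p' * (C₀ s j).card ≤ φ s j ∧ p' * (C₁ s j).card ≤ k * φ s j ∧
      0 < φ s j) →
    (∀ s j, S s < j → j < R s → φ s j ≤ φ s (j + 1)) →
    (∀ y ∈ Y, y.1.2 ∈ J y.1.1) → Set.InjOn Prod.fst (Y : Set ((Sd D × ℤ) × α)) →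
    Pr Ω p (EY2 ht C₀ C₁ J Y) ≤ (∏ y ∈ Y, (1 - p) ^ (C₁ y.1.1 y.1.2).card) *
      ∏ s : Sd D, ∏ j ∈ JY2 ht J Y s, Real.exp (- gk k (φ s (j + 1)))

def GHc : Prop := ∀ (D : ℕ) (α : Type) [DecidableEq α] (Ω : Finset α) (p p' : ℝ) (k : ℕ),
  1 ≤ D → 1 ≤ k → 0 ≤ p' → p = 1 - Real.exp (- p') → p ≤ 1 / 2 →
  ∀ (S R : Bx D) (ht : Sd D → α → ℤ) (C₀ C₁ E : Sd D → ℤ → Finset α) (φ : Sd D → ℤ → ℝ)
    (g₀ : ℝ) (J : Sd D → Finset ℤ), Lays2 Ω S R ht C₀ C₁ E → (∀ s, J s ⊆ Ioo (S s) (R s)) →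
    (∀ s j, S s < j → j ≤ R s → p' * (C₀ s j).card ≤ φ s j ∧ p' * (C₁ s j).card ≤ k * φ s j ∧
      0 < φ s j ∧ gk k (φ s j) ≤ g₀) →
    (∀ s j, S s < j → j < R s → φ s j ≤ φ s (j + 1)) → 0 ≤ g₀ →
    Pr Ω p (fun A => ∀ s, ∀ j ∈ J s, ∃ x ∈ A, x ∈ E s j) ≤
      (∏ s : Sd D, ∏ j ∈ J s, Real.exp (- gk k (φ s (j + 1)))) *
      Real.exp (∑ s : Sd D, ∑ j ∈ Ioo (S s) (R s),
        ((E s j \ (C₁ s j ∪ C₀ s (j + 1))).card : ℝ) *
          (2 * p * (1 - p) ^ (C₁ s j).card * Real.exp (8 * D * g₀)))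

/-- seeds and links -/
def GSL : Prop := ∀ (D d : ℕ) (F : Fr D d) (Ω : Finset (Pt d)) (p c : ℝ) (T N : ℕ) (S : Bx D),
  1 ≤ D → 0 ≤ p → p ≤ 1 → 0 ≤ c → 1 ≤ F.k →
  3 * Real.exp 1 * p * (2 * T + 1) ^ (d - 1) * Real.exp (2 * c) ≤ 1 / 64 → psi S ≤ 2 * N →
  Pr Ω p (Sed F T S) ≤ Real.exp (LamV d N F.k - c * psi S - T) ∧
  ∀ n : ℕ, Pr Ω p (Lk F T S n) ≤ Real.exp (LamV d N F.k + 4 * c - c * n)

/-- both regimes together -/
def GX : Prop := ∀ (D d : ℕ) (F : Fr D d) (Ω : Finset (Pt d)) (p : ℝ), 0 ≤ p → p ≤ 1 / 2 →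
  ∀ (T K Y N : ℕ) (R₀ : Bx D) (V : Bx D → ℝ) (X : ℝ), 0 ≤ X → psi R₀ ≤ 2 * N →
    (∀ S R : Bx D, Val S → S ≤ R → R ≤ R₀ → psi R ≤ K + T →
      Pr Ω p (Chn2 F T (Gd K Y) S R) ≤ Real.exp (V R - V S + X)) →
    (∀ S R : Bx D, Val S → S ≤ R → R ≤ R₀ → (∀ i, Y ≤ ex S i + 1) →
      Pr Ω p (Chn2 F T (Gd K Y) S R) ≤ Real.exp (V R - V S + X)) →
    ∀ S R : Bx D, Val S → S ≤ R → R ≤ R₀ →
      Pr Ω p (Chn2 F T (Gd K Y) S R) ≤
        Real.exp (V R - V S + (2 * X + 2 * D * Real.log (2 * N + 1)))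

/-- the induction -/
def GInd : Prop := ∀ (D d : ℕ) (F : Fr D d) (Ω : Finset (Pt d)) (p : ℝ), 0 ≤ p → p ≤ 1 / 2 →
  ∀ (T K Y N : ℕ) (R₀ : Bx D) (V : Bx D → ℝ) (X E : ℝ), psi R₀ ≤ 2 * N →
    (∀ S R : Bx D, Val S → S ≤ R → R ≤ R₀ →
      Pr Ω p (Chn2 F T (Gd K Y) S R) ≤ Real.exp (V R - V S + X)) →
    (∀ S : Bx D, Val S → S ≤ R₀ → Pr Ω p (Sed F T S) ≤ Real.exp (V S + E - X - Lv D N)) →
    (∀ Q P S : Bx D, Val Q → Val P → Q ≤ S → P ≤ S → S ≤ R₀ → psi P ≤ psi Q →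
      Pr Ω p (IBr F T K Y Q) ≤ Real.exp (V Q + E) →
      Pr Ω p (IBr F T K Y P) ≤ Real.exp (V P + E) →
      Pr Ω p (IBr F T K Y Q) * Pr Ω p (IBr F T K Y P) *
        Pr Ω p (Lk F T S (dfc (ex Q) (ex P) (ex S))) ≤ Real.exp (V S + E - X - Lv D N)) →
    ∀ R : Bx D, Val R → R ≤ R₀ → Pr Ω p (IBr F T K Y R) ≤ Real.exp (V R + E)

/-! ### analysis -/

def GSlpA : Prop := ∀ k : ℕ, 1 ≤ k → Slp1 k

/-- uniform strict convexity -/
def GRat : Prop := ∀ k : ℕ, 1 ≤ k → ∃ δ : ℝ, 0 < δ ∧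
  ∀ Z : ℝ, 0 < Z → (1 + δ) * (- mkk k Z) ≤ - mkk k (3 * Z / 4)

def GSlp : Prop := ∀ k : ℕ, 1 ≤ k → (∃ ε : ℝ, Slp2 k ε) ∧ 0 < gk k 1

/-- cells -/
def GN2 : Prop := ∀ (q : ℝ) (w : ℕ), 0 < q → 1 ≤ w →
  Monotone (m2 q w) ∧ Monotone (N2 q w) ∧
  (∀ y : ℕ, 0 ≤ N2 q w y ∧ N2 q w y ≤ 12 * Real.sqrt y ∧ N2 q w y ≤ 6 * y / Real.sqrt w ∧
    N2 q w y ≤ 12 / Real.sqrt q) ∧
  (∀ y : ℕ, (m2 q w y : ℝ) ≤
    2 * Real.sqrt ((y : ℝ) + 2 * w + 1) * (1 + q * ((y : ℝ) + 2 * w + 1))) ∧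
  (∀ y a : ℕ, 8 ≤ w → a ≤ 2 * w → q * ((y : ℝ) + 2 * w + 1) ≤ 1 →
    t2 q w a y ≤ 3 * ((y : ℝ) + 2 * w + 1)) ∧
  (∀ a x y : ℕ, x ≤ y → t2 q w a x + ((y - x : ℕ) : ℝ) ≤ t2 q w a y)

def GCost : Prop := ∀ (D k : ℕ) (q p : ℝ) (w : ℕ) (η ε : ℝ) (Φ : (Fin D → ℕ) → ℝ),
  Bas2 D k q p w η ε Φ →
  (0 ≤ p ∧ p ≤ q ^ (D - 1) ∧ q ^ (D - 1) ≤ q ∧ p ≤ 1 / 2 ∧ ε ≤ 1 / 8) ∧
  (∀ F F' : ℝ, 0 < F → F ≤ F' → F ≤ Th2 η ε F ∧ Th2 η ε F ≤ (1 + ε) * F ∧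
    Th2 η ε F * F' ≤ Th2 η ε F' * F) ∧
  (∀ (a : ℕ) (i : Fin D), Monotone fun y : Fin D → ℕ => F2 q w a y i) ∧
  (∀ i : Fin D, Antitone fun y : Fin D → ℕ => co2 k q w η ε y i) ∧
  (∀ (a : ℕ) (y : Fin D → ℕ) (i : Fin D), w ≤ a → (q * w) ^ (D - 1) ≤ F2 q w a y i) ∧
  (∀ (a : ℕ) (y y' : Fin D → ℕ) (i : Fin D), (∀ j, y' j + 1 ≤ y j + a + 2 * m2 q w (y j)) →
    q ^ (D - 1) * sg y' i ≤ F2 q w a y i) ∧
  (∀ (y : Fin D → ℕ) (i : Fin D), 0 ≤ co2 k q w η ε y i ∧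
    co2 k q w η ε y i ≤ gk k (F2 q w (2 * w) y i) ∧ co2 k q w η ε y i ≤ cz D q w) ∧
  (∀ F : ℝ, (q * w) ^ (D - 1) ≤ F → 0 < F ∧ 0 ≤ gk k F ∧ gk k F ≤ cz D q w ∧
    (Real.exp (- gk k F))⁻¹ ^ 2 ≤ 1 + 1 / F) ∧
  1 / 3 ≤ cz D q w ∧ Real.exp (2 * cz D q w) = 2 / (q * w) ^ (D - 1) ∧
  (∀ d T : ℕ, 1200 * (2 * T + 1) ^ d ≤ w →
    3 * Real.exp 1 * p * (2 * T + 1) ^ (d - 1) * Real.exp (2 * cz D q w) ≤ 1 / 64 ∧
    ∀ F : ℝ, (q * w) ^ (D - 1) ≤ F →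
      64 * (T : ℝ) ^ d * p * (Real.exp (- gk k F))⁻¹ ^ 2 ≤ 1)

/-- the shift of the sides pays for the records with several sites -/
def GShift : Prop := ∀ (D k : ℕ) (Z C : ℝ), 0 ≤ C → ∃ A c : ℝ, 1 ≤ A ∧ 0 < c ∧
  ∀ (q p : ℝ) (w : ℕ) (η ε : ℝ) (Φ : (Fin D → ℕ) → ℝ) (y : Fin D → ℕ) (i j : Fin D),
    Bas2 D k q p w η ε Φ → A ≤ w → j ≠ i → F2 q w w y i ≤ Z →
    gk k (F2 q w (2 * w) y i) + c * w / t2 q w w (y j) + C * om D q (F2 q w w y i) ≤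
      gk k (F2 q w w y i)

def GNdl : Prop := ∀ (D k : ℕ) (C : ℝ), 0 ≤ C → ∃ A : ℝ, 1 ≤ A ∧
  ∀ (q p : ℝ) (w N : ℕ) (η ε : ℝ) (Φ : (Fin D → ℕ) → ℝ) (a : Fin D → ℕ) (i : Fin D),
    Bas2 D k q p w η ε Φ → A ≤ w → 24 * q ^ 2 * N * w ≤ 1 → ∑ l, a l ≤ 2 * N → Ndl A q w a i →
    0 ≤ gk k (F2 q w w a i) - C * om D q (F2 q w w a i) ∧
    Φ a ≤ (gk k (F2 q w w a i) - C * om D q (F2 q w w a i)) * a i

/-- gain per step next to a box with two long sides -/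
def GGain : Prop := ∀ (D k : ℕ) (q p : ℝ) (w : ℕ) (η ε : ℝ) (Φ : (Fin D → ℕ) → ℝ)
  (a : Fin D → ℕ) (t x : ℕ) (j₁ j₂ : Fin D), Bas2 D k q p w η ε Φ → j₁ ≠ j₂ → x ≤ a j₁ →
  x ≤ a j₂ → 2 * t ≤ x → 30 * (k : ℝ) ^ 2 * q * (t + 2 * w + 1) ≤ 1 →
  ∀ (i : Fin D) (y₁ y₂ : Fin D → ℕ), ∑ l, y₁ l < t → y₁ ≤ y₂ → a ≤ y₂ →
    co2 k q w η ε y₂ i + x / (100 * ((x : ℝ) + 2 * w + 1)) ≤ co2 k q w η ε y₁ i

/-- the frame loss is absorbed by `Th2` -/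
def GDom : Prop := ∀ (k : ℕ) (B η ε ρ F F' : ℝ), 1 ≤ k → Slp2 k ε → 0 < F → F ≤ F' → 0 ≤ B →
  8 * B ≤ η → 0 ≤ ρ → η ≤ ε * ρ ^ 3 →
  gk k (Th2 η ε F') ≤ gk k F - B * F * (1 + F) * Real.exp (- (k * F)) + 16 * B * ρ

/-- arithmetic of the merging step -/
def GAri : Prop := ∀ (D k : ℕ) (A₀ C : ℝ), 1 ≤ k → 1 ≤ A₀ → 0 ≤ C → ∃ A : ℝ, 1 ≤ A ∧
  ∀ (q c e : ℝ) (w a₁ a₂ b : ℕ), 0 < q → 8 ≤ w → 1 / 3 ≤ c → A * c ≤ w → A * Real.sqrt q ≤ 1 →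
    4 * A * q * w ≤ 1 → b ≤ D * a₁ →
    (a₁ : ℝ) * w < A₀ * c * ((a₂ : ℝ) + 1) * ((a₂ : ℝ) + 1 + 2 * w) →
    e ≤ (6 * C * D + 1) * b / Real.sqrt w → e ≤ (12 * C * D + 1) / Real.sqrt q →
    e ≤ 12 * C * D * Real.sqrt a₁ + w / 4800 →
    ∃ t : ℕ, 2 * t ≤ a₂ ∧ t ≤ b ∧ 30 * (k : ℝ) ^ 2 * q * (t + 2 * w + 1) ≤ 1 ∧
      e ≤ a₂ / (100 * ((a₂ : ℝ) + 2 * w + 1)) * t + A * c ^ 2

/-- merging of two boxes -/
def GSpl : Prop := ∀ (D k : ℕ) (A₀ C : ℝ), 1 ≤ k → 1 ≤ A₀ → 0 ≤ C → ∃ A : ℝ, 1 ≤ A ∧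
  ∀ (q p : ℝ) (w N : ℕ) (η ε η' : ℝ) (Φ : (Fin D → ℕ) → ℝ), Bas2 D k q p w η ε Φ → 0 ≤ η' →
    A * cz D q w ≤ w → A * Real.sqrt q ≤ 1 → 4 * A * q * w ≤ 1 → η' * Real.sqrt w ≤ 1 →
    2 * η' * N * Real.sqrt q ≤ 1 → 9600 * η' * N ≤ w →
    ∀ a b y : Fin D → ℕ, a ≤ y → b ≤ y → ∑ l, b l ≤ ∑ l, a l → ∑ l, y l ≤ 2 * N →
      Φ y ≤ Φ a + Φ b + (dfc a b y + 2) * cz D q w ∧
      ((∃ i, Ndl A₀ q w a i) ∨
        Φ y + C * (NV q w a + NV q w b - NV q w y) +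
          η' * (((∑ l, a l : ℕ) : ℝ) + ((∑ l, b l : ℕ) : ℝ) - ((∑ l, y l : ℕ) : ℝ)) ≤
        Φ a + Φ b + (dfc a b y + 2) * cz D q w + A * cz D q w ^ 2)

def GStepH : Prop := ∀ D k : ℕ, ∃ A : ℝ, 0 ≤ A ∧
  ∀ (q p : ℝ) (w N : ℕ) (η ε : ℝ) (Φ : (Fin D → ℕ) → ℝ), Bas2 D k q p w η ε Φ →
    24 * D * (1 / Real.sqrt w + q * Real.sqrt (2 * N + 2 * w)) ≤ ε →
    ∀ (y : Fin D → ℕ) (i : Fin D), ∑ l, y l < 2 * N →
      gk k (q ^ (D - 1) * Dd D ((2 * w : ℕ) : ℝ) (∑ l, y l)) +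
        q ^ (D - 1) * mkk k (q ^ (D - 1) * Dd D ((2 * w : ℕ) : ℝ) (∑ l, y l)) *
          (∏ j ∈ univ.erase i, ((y j : ℝ) + ((2 * w : ℕ) : ℝ)) -
            Dd D ((2 * w : ℕ) : ℝ) (∑ l, y l)) -
        A * ell D q (2 * w) η (∑ l, y l) ≤ co2 k q w η ε y i

/-- lower bound for the potential -/
def GLow : Prop := ∀ D k : ℕ, ∃ A : ℝ, 0 ≤ A ∧
  ∀ (q p : ℝ) (w N : ℕ) (η ε : ℝ) (Φ : (Fin D → ℕ) → ℝ), Bas2 D k q p w η ε Φ →
    24 * D * (1 / Real.sqrt w + q * Real.sqrt (2 * N + 2 * w)) ≤ ε →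
    ∀ y : Fin D → ℕ, D * Real.log (1 / q) ≤ q * ((∑ l, y l : ℕ) : ℝ) → ∑ l, y l ≤ 2 * N →
      D * lamD k D / q - D ^ 2 * (2 * w + 2) * (1 + Real.log (1 / q)) - D -
        A * (η / q + 1 / Real.sqrt q) ≤ Φ y

/-- relative size of the frame -/
def GFrame : Prop := ∀ (D : ℕ) (y₀ : ℝ), 2 ≤ D → 0 < y₀ → y₀ ≤ 1 → ∃ A : ℝ, 1 ≤ A ∧
  ∀ (q : ℝ) (w N : ℕ) (y y' : Fin D → ℕ) (i : Fin D), 0 < q → 2 * q * w ≤ y₀ →
    A * Real.sqrt q * (1 + q * (2 * N + 1)) ≤ 1 →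
    (∀ j, y₀ ≤ q * (y j + 1) ∧ y j ≤ 2 * N ∧ y' j ≤ y j + 2 * m2 q w (y j) + 4) →
    q ^ (D - 1) * ((sg y' i : ℝ) - sg y i) ≤
      A * Real.sqrt q * (q ^ (D - 1) * sg y i) * (1 + q ^ (D - 1) * sg y i)

/-! ### crossing bounds -/

/-- small boxes, one path -/
def GP1 : Prop := ∀ (D d : ℕ) (κ : ℝ), 1 ≤ κ → ∃ A C : ℝ, 1 ≤ A ∧ 0 ≤ C ∧
  ∀ (q p : ℝ) (w T : ℕ) (η ε : ℝ) (Φ : (Fin D → ℕ) → ℝ) (F : Fr D d) (Ω : Finset (Pt d))
    (S R : Bx D) (M : ℕ) (z : ℕ → Bx D), Bas2 D (d - D + 1) q p w η ε Φ → A ≤ w →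
    1200 * (2 * T + 1) ^ d ≤ w → Val S → S ≤ R → q * (psi R + 2 * w + 1) ≤ κ →
    IsPath (m2 q w) S R M z →
    Pr Ω p (Chn2 F T (Fol (m2 q w) R M z) S R) ≤
      Real.exp (Φ (ex S) - Φ (ex R) + 2 * D * cz D q w + (M + 1) * C)

/-- large boxes, one path -/
def GP2 : Prop := ∀ (D d : ℕ) (y₀ : ℝ), 0 < y₀ → y₀ ≤ 1 → ∃ A : ℝ, 1 ≤ A ∧
  ∀ (q p : ℝ) (w T N : ℕ) (η ε ρ : ℝ) (Φ : (Fin D → ℕ) → ℝ) (F : Fr D d) (Ω : Finset (Pt d))
    (S R : Bx D) (M : ℕ) (z : ℕ → Bx D), Bas2 D (d - D + 1) q p w η ε Φ →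
    A * Real.sqrt q ≤ η → 0 ≤ ρ → η ≤ ε * ρ ^ 3 → 1200 * (2 * T + 1) ^ d ≤ w →
    2 * q * w ≤ y₀ → A * Real.sqrt q * (1 + q * (2 * N + 1)) ≤ 1 → Val S → S ≤ R →
    psi R ≤ 2 * N → Full2 F Ω R → (∀ i, y₀ ≤ q * (ex S i + 1)) → IsPath (m2 q w) S R M z →
    Pr Ω p (Chn2 F T (Fol (m2 q w) R M z) S R) ≤
      Real.exp (Φ (ex S) - Φ (ex R) + 2 * η * ρ * ((psi R : ℝ) - psi S) +
        (2 * D * cz D q w + A * q * N * (1 + q * (2 * N + 1)) ^ D))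

/-- growth in one direction -/
def GD0 : Prop := ∀ D d : ℕ, ∃ C : ℝ, 0 ≤ C ∧
  ∀ (q p : ℝ) (w T : ℕ) (η ε : ℝ) (Φ : (Fin D → ℕ) → ℝ) (F : Fr D d) (Ω : Finset (Pt d))
    (G : Bx D → Prop) (S R : Bx D) (i : Fin D) (φ γ : ℝ), Bas2 D (d - D + 1) q p w η ε Φ →
    1200 * (2 * T + 1) ^ d ≤ w → Val S → S ≤ R → q ^ (D - 1) * sg (ex R) i ≤ φ →
    (q * w) ^ (D - 1) ≤ φ → γ ≤ gk (d - D + 1) φ - C * om D q φ →
    Pr Ω p (Chn2 F T G S R) ≤ Real.exp (- (γ * ex R i) - - (γ * ex S i) + 2 * cz D q w)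

/-- direct bound for a brick in one direction -/
def GDir : Prop := ∀ D d : ℕ, ∃ C : ℝ, 0 ≤ C ∧
  ∀ (q p : ℝ) (w T K Y N : ℕ) (η ε G : ℝ) (Φ : (Fin D → ℕ) → ℝ) (F : Fr D d)
    (Ω : Finset (Pt d)) (R : Bx D) (i : Fin D) (φ γ : ℝ), Bas2 D (d - D + 1) q p w η ε Φ →
    1200 * (2 * T + 1) ^ d ≤ w → 1 ≤ F.k → Val R → psi R ≤ 2 * N →
    6 * cz D q w + Lv D N + LamV d N F.k ≤ G → G + 2 * cz D q w + Lv D N + LamV d N F.k ≤ T →
    q ^ (D - 1) * sg (ex R) i ≤ φ → (q * w) ^ (D - 1) ≤ φ → 0 ≤ γ →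
    γ ≤ gk (d - D + 1) φ - C * om D q φ →
    Pr Ω p (IBr F T K Y R) ≤ Real.exp (- (γ * ex R i) - G)

/-- chains in final form -/
def GCh : Prop := ∀ (D d : ℕ) (κ y₀ ε : ℝ), 1 ≤ κ → 0 < y₀ → y₀ ≤ 1 → 0 < ε →
  ∃ A₀ C : ℝ, 1 ≤ A₀ ∧ 0 ≤ C ∧ ∀ A : ℝ, A₀ ≤ A →
  ∀ (q p : ℝ) (N w T K Y : ℕ) (ρ X G : ℝ) (Φ : (Fin D → ℕ) → ℝ) (F : Fr D d)
    (Ω : Finset (Pt d)) (R₀ : Bx D), Bas2 D (d - D + 1) q p w (A * Real.sqrt q) ε Φ →
    Par3 D d A q F.k N w T ρ X G → q * K + 1 ≤ κ → y₀ ≤ q * Y → psi R₀ ≤ 2 * N →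
    Full2 F Ω R₀ → ∀ S R : Bx D, Val S → S ≤ R → R ≤ R₀ →
      Pr Ω p (Chn2 F T (Gd K Y) S R) ≤
        Real.exp (Vg C (2 * (A * Real.sqrt q) * ρ) q w Φ R -
          Vg C (2 * (A * Real.sqrt q) * ρ) q w Φ S + X)

/-- splits in final form -/
def GSplG : Prop := ∀ (D d : ℕ) (C : ℝ), 0 ≤ C → ∃ A₀ : ℝ, 1 ≤ A₀ ∧ ∀ A : ℝ, A₀ ≤ A →
  ∀ (q p : ℝ) (N w T K Y : ℕ) (ε ρ X G : ℝ) (Φ : (Fin D → ℕ) → ℝ) (F : Fr D d)
    (Ω : Finset (Pt d)), Bas2 D (d - D + 1) q p w (A * Real.sqrt q) ε Φ → 1 ≤ F.k →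
    Par3 D d A q F.k N w T ρ X G →
    ∀ Q P S : Bx D, Val Q → Val P → Q ≤ S → P ≤ S → psi S ≤ 2 * N → psi P ≤ psi Q →
      Pr Ω p (IBr F T K Y Q) ≤ Real.exp (Vg C (2 * (A * Real.sqrt q) * ρ) q w Φ Q + - G) →
      Pr Ω p (IBr F T K Y P) ≤ Real.exp (Vg C (2 * (A * Real.sqrt q) * ρ) q w Φ P + - G) →
      Pr Ω p (IBr F T K Y Q) * Pr Ω p (IBr F T K Y P) *
        Pr Ω p (Lk F T S (dfc (ex Q) (ex P) (ex S))) ≤
        Real.exp (Vg C (2 * (A * Real.sqrt q) * ρ) q w Φ S + - G - X - Lv D N)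

/-- choice of the parameters -/
def GPar : Prop := ∀ (D d : ℕ) (A : ℝ), 2 ≤ D → 1 ≤ A → ∃ q₀ : ℝ, 0 < q₀ ∧
  ∀ q : ℝ, 0 < q → q ≤ q₀ → ∀ k N : ℕ, (k : ℝ) ≤ 1 / q ^ 2 →
    q * N ≤ 2 * D * Real.log (1 / q) →
    ∃ (w T : ℕ) (ρ X G : ℝ), Par3 D d A q k N w T ρ X G

/-- bound for critical bricks and for thin bricks -/
def GCrit : Prop := ∀ (D d : ℕ) (κ y₀ : ℝ), 2 ≤ D → 1 ≤ κ → 0 < y₀ → y₀ ≤ 1 →
  ∃ C q₀ : ℝ, 0 ≤ C ∧ 0 < q₀ ∧ ∀ q : ℝ, 0 < q → q ≤ q₀ → ∀ k N : ℕ, 1 ≤ k →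
    (k : ℝ) ≤ 1 / q ^ 2 → q * N ≤ 2 * D * Real.log (1 / q) →
    ∃ T : ℕ, 1 ≤ T ∧ (T + 1) * Real.sqrt q ≤ 1 ∧ ∀ F : Fr D d, F.k = k →
      ∀ (K Y : ℕ) (Ω : Finset (Pt d)) (R : Bx D), Val R → psi R ≤ 2 * N →
        (q * K + 1 ≤ κ → y₀ ≤ q * Y → Full2 F Ω R → D * Real.log (1 / q) ≤ q * psi R →
          Pr Ω (1 - Real.exp (- q ^ (D - 1))) (IBr F T K Y R) ≤
            Real.exp (- (D * lamD (d - D + 1) D / q) + C / Real.sqrt q)) ∧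
        (∀ i, q ^ (D - 1) * sg (ex R) i ≤ 1 →
          Pr Ω (1 - Real.exp (- q ^ (D - 1))) (IBr F T K Y R) ≤
            Real.exp (- (gk (d - D + 1) 1 / 2 * ex R i)))

/-- critical droplets without logarithmic loss -/
def GDrop : Prop := ∀ D d : ℕ, 2 ≤ D → ∃ C : ℝ, 0 ≤ C ∧
  DropP D d (lamD (d - D + 1) D) fun q => C / Real.sqrt q

end Pool.Agent.MP_6d294b_pr

end

section

open Finset

namespace Pool.Agent.MP_6d294b_pr

variable {d : ℕ}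

lemma prod_Wsum (e : Sd d → ℕ) (b : Fin d → ℝ) (c : ℝ) (n : ℕ) (hb : ∀ i, 0 < b i ∧ b i ≤ 1)
    (hc : ∀ i, (b i)⁻¹ ≤ Real.exp c) (s s' : Sd d) (hss : s ≠ s') (hs : e s ≠ 0) (hs' : e s' ≠ 0)
    (he : ∑ t, e t ≤ n + 2) :
    ∏ t : Sd d, (b t.1)⁻¹ ^ e t ≤ (b s.1)⁻¹ * (b s'.1)⁻¹ * Real.exp (c * n) := by
  classical
  set e' : Sd d → ℕ := fun t => e t - (if t = s then 1 else 0) - (if t = s' then 1 else 0) with he'
  have h1 : ∀ t, e t = e' t + (if t = s then 1 else 0) + (if t = s' then 1 else 0) := by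
    intro t
    simp only [he']
    by_cases h : t = s
    · subst h
      simp only [if_true, if_neg hss]
      omega
    · by_cases h' : t = s'
      · subst h'
        simp only [if_true, if_neg h]
        omega
      · simp only [if_neg h, if_neg h']
        omega
  have h2 : ∑ t, e t = ∑ t, e' t + 2 := by
    rw [Finset.sum_congr rfl fun t _ => h1 t]
    simp [Finset.sum_add_distrib]
  have hpos : ∀ i, 0 < (b i)⁻¹ := fun i => inv_pos.2 (hb i).1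
  have hone : 1 ≤ Real.exp c := le_trans (one_le_inv₀ (hb s.1).1 |>.2 (hb s.1).2) (hc s.1)
  have h3 : ∏ t : Sd d, (b t.1)⁻¹ ^ e t =
      (∏ t : Sd d, (b t.1)⁻¹ ^ e' t) * (b s.1)⁻¹ * (b s'.1)⁻¹ := by
    rw [Finset.prod_congr rfl fun t _ => by rw [h1 t, pow_add, pow_add]]
    rw [Finset.prod_mul_distrib, Finset.prod_mul_distrib]
    simp [pow_ite]
  have h4 : ∏ t : Sd d, (b t.1)⁻¹ ^ e' t ≤ Real.exp (c * n) := by
    calc ∏ t : Sd d, (b t.1)⁻¹ ^ e' t ≤ ∏ t : Sd d, Real.exp c ^ e' t :=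
          Finset.prod_le_prod (fun t _ => pow_nonneg (hpos _).le _)
            (fun t _ => pow_le_pow_left₀ (hpos _).le (hc _) _)
      _ = Real.exp c ^ ∑ t, e' t := Finset.prod_pow_eq_pow_sum _ _ _
      _ ≤ Real.exp c ^ n := pow_le_pow_right₀ hone (by omega)
      _ = Real.exp (c * n) := by rw [← Real.exp_nat_mul, mul_comm]
  rw [h3]
  have := mul_le_mul_of_nonneg_right h4 (mul_pos (hpos s.1) (hpos s'.1)).le
  nlinarith [this]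

lemma box_Wsum (T : ℕ) (X : Finset (Bx d)) (σ : Fin d → Bool) (I : Fin d → Finset ℤ)
    (hX : ∀ P ∈ X, Val P ∧ psi P < T ∧ ∀ k, P (k, σ k) ∈ I k) :
    ∑ P ∈ X, (1 / 2 : ℝ) ^ psi P ≤ 2 ^ d * ∏ k, ((I k).card : ℝ) := by
  classical
  set φ : Bx d → (Fin d → ℤ × ℕ) := fun P k => (P (k, σ k), ex P k) with hφ
  have hinj : Set.InjOn φ X := by
    intro P hP Q hQ h
    have hP' := (hX P hP).1
    have hQ' := (hX Q hQ).1
    funext t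
    obtain ⟨k, t⟩ := t
    have h1 := congrFun h k
    simp only [hφ, Prod.mk.injEq, ex] at h1
    obtain ⟨h1, h2⟩ := h1
    have a1 := hP' k
    have a2 := hQ' k
    cases hσ : σ k <;> rw [hσ] at h1 <;> cases t <;> omega
  have h1 : ∑ P ∈ X, (1 / 2 : ℝ) ^ psi P = ∑ y ∈ X.image φ, ∏ k, (1 / 2 : ℝ) ^ (y k).2 := by
    rw [Finset.sum_image hinj]
    refine Finset.sum_congr rfl fun P _ => ?_
    rw [Finset.prod_pow_eq_pow_sum]
    rfl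
  have h2 : X.image φ ⊆ Fintype.piFinset fun k => I k ×ˢ range T := by
    intro y hy
    obtain ⟨P, hP, rfl⟩ := Finset.mem_image.1 hy
    rw [Fintype.mem_piFinset]
    intro k
    refine Finset.mem_product.2 ⟨(hX P hP).2.2 k, Finset.mem_range.2 ?_⟩
    have : ex P k ≤ psi P :=
      Finset.single_le_sum (f := fun i => ex P i) (fun _ _ => Nat.zero_le _) (Finset.mem_univ k)
    have := (hX P hP).2.1
    simp only [hφ]
    omega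
  rw [h1]
  calc ∑ y ∈ X.image φ, ∏ k, (1 / 2 : ℝ) ^ (y k).2
      ≤ ∑ y ∈ Fintype.piFinset fun k => I k ×ˢ range T, ∏ k, (1 / 2 : ℝ) ^ (y k).2 :=
        Finset.sum_le_sum_of_subset_of_nonneg h2 fun _ _ _ => by positivity
    _ = ∏ k, ∑ a ∈ I k ×ˢ range T, (1 / 2 : ℝ) ^ a.2 :=
        (Finset.prod_univ_sum (fun k => I k ×ˢ range T) (fun _ a => (1 / 2 : ℝ) ^ a.2)).symm
    _ ≤ ∏ k, (2 * ((I k).card : ℝ)) := by
        refine Finset.prod_le_prod (fun k _ => Finset.sum_nonneg fun _ _ => by positivity)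
          fun k _ => ?_
        rw [Finset.sum_product]
        simp only [Finset.sum_const, nsmul_eq_mul]
        rw [mul_comm]
        exact mul_le_mul_of_nonneg_right (sum_geometric_two_le T) (Nat.cast_nonneg _)
    _ = 2 ^ d * ∏ k, ((I k).card : ℝ) := by
        rw [Finset.prod_mul_distrib]
        simp

lemma exps_Wsum (n : ℕ) :
    ∑ e ∈ Fintype.piFinset (fun _ : Sd d => range n), ∏ t, (1 / 2 : ℝ) ^ e t ≤ 2 ^ (2 * d) := by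
  classical
  rw [← Finset.prod_univ_sum (fun _ : Sd d => range n) (fun _ a => (1 / 2 : ℝ) ^ a)]
  calc ∏ _t : Sd d, ∑ a ∈ range n, (1 / 2 : ℝ) ^ a ≤ ∏ _t : Sd d, (2 : ℝ) :=
        Finset.prod_le_prod (fun k _ => Finset.sum_nonneg fun _ _ => by positivity)
          fun k _ => sum_geometric_two_le n
    _ = 2 ^ (2 * d) := by simp [mul_comm]

/-- boxes that overhang on both sides -/
lemma pos_Wsum (T : ℕ) (S R : Bx d) (hR : Val R) (s s' : Sd d) (hss : s.1 ≠ s'.1)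
    (X : Finset (Bx d))
    (hX : ∀ P ∈ X, Val P ∧ P ≤ R ∧ psi P < T ∧ S s < P s ∧ S s' < P s') :
    ∑ P ∈ X, (1 / 2 : ℝ) ^ psi P ≤ 2 ^ d * (((R s - S s).toNat : ℝ) * (R s' - S s').toNat *
      ∏ k ∈ (univ.erase s.1).erase s'.1, ((ex R k : ℝ) + 1)) := by
  classical
  set σ : Fin d → Bool := fun k => if k = s.1 then s.2 else if k = s'.1 then s'.2 else true with hσ
  set I : Fin d → Finset ℤ := fun k => if k = s.1 then Finset.Ioc (S s) (R s) else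
    if k = s'.1 then Finset.Ioc (S s') (R s') else Finset.Icc (- R (k, false)) (R (k, true))
    with hI
  refine (box_Wsum T X σ I ?_).trans (le_of_eq ?_)
  · intro P hP
    obtain ⟨h1, h2, h3, h4, h5⟩ := hX P hP
    refine ⟨h1, h3, fun k => ?_⟩
    simp only [hσ, hI]
    by_cases hk : k = s.1
    · subst hk
      simp only [if_true]
      exact Finset.mem_Ioc.2 ⟨h4, h2 s⟩
    · by_cases hk' : k = s'.1
      · subst hk'
        simp only [if_neg hk, if_true]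
        exact Finset.mem_Ioc.2 ⟨h5, h2 s'⟩
      · simp only [if_neg hk, if_neg hk']
        have a1 := h1 k
        have a2 : P (k, false) ≤ R (k, false) := h2 _
        have a3 : P (k, true) ≤ R (k, true) := h2 _
        exact Finset.mem_Icc.2 ⟨by omega, a3⟩
  · congr 1
    rw [← Finset.mul_prod_erase univ _ (Finset.mem_univ s.1),
      ← Finset.mul_prod_erase (univ.erase s.1) _
        (Finset.mem_erase.2 ⟨hss.symm, Finset.mem_univ s'.1⟩), mul_assoc]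
    congr 1
    · simp [hI]
    congr 1
    · simp [hI, hss.symm]
    refine Finset.prod_congr rfl fun k hk => ?_
    have hk1 : k ≠ s'.1 := (Finset.mem_erase.1 hk).1
    have hk2 : k ≠ s.1 := (Finset.mem_erase.1 (Finset.mem_erase.1 hk).2).1
    simp only [hI, if_neg hk1, if_neg hk2, Int.card_Icc, ex]
    have a1 := hR k
    have : (R (k, true) + 1 - -R (k, false)).toNat = (R (k, true) + R (k, false)).toNat + 1 := by
      omega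
    rw [this]
    push_cast
    ring

lemma sg_Wsum (y : Fin d → ℕ) (i j : Fin d) (hij : i ≠ j) :
    (sg y i : ℝ) = ((y j : ℝ) + 1) * ∏ k ∈ (univ.erase i).erase j, ((y k : ℝ) + 1) := by
  classical
  unfold sg
  rw [← Finset.mul_prod_erase (univ.erase i) _ (Finset.mem_erase.2 ⟨hij.symm, Finset.mem_univ j⟩)]
  push_cast
  rfl

lemma amgm_Wsum (yy bi bj Ri Rj Z x x' : ℝ) (hy : 0 < yy) (hRi : 0 < Ri) (hRj : 0 < Rj)
    (hi : bi ^ 2 ≤ 1 + 1 / (yy * Rj)) (hj : bj ^ 2 ≤ 1 + 1 / (yy * Ri))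
    (hZi : yy * Rj ≤ Z) (hZj : yy * Ri ≤ Z) :
    yy * (bi * bj) * (x * x') ≤ (Z + 1) / 2 * (x ^ 2 / Ri + x' ^ 2 / Rj) := by
  have h1 : yy * bj ^ 2 ≤ (Z + 1) / Ri := by
    rw [le_div_iff₀ hRi]
    have h := mul_le_mul_of_nonneg_left hj (mul_pos hy hRi).le
    have h' : yy * Ri * (1 + 1 / (yy * Ri)) = yy * Ri + 1 := by
      field_simp
    nlinarith
  have h2 : yy * bi ^ 2 ≤ (Z + 1) / Rj := by
    rw [le_div_iff₀ hRj]
    have h := mul_le_mul_of_nonneg_left hi (mul_pos hy hRj).le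
    have h' : yy * Rj * (1 + 1 / (yy * Rj)) = yy * Rj + 1 := by
      field_simp
    nlinarith
  have h3 : bi * bj * (x * x') ≤ (bj ^ 2 * x ^ 2 + bi ^ 2 * x' ^ 2) / 2 := by
    nlinarith [sq_nonneg (bj * x - bi * x')]
  have h4 := mul_le_mul_of_nonneg_left h3 hy.le
  have h5 := mul_le_mul_of_nonneg_right h1 (sq_nonneg x)
  have h6 := mul_le_mul_of_nonneg_right h2 (sq_nonneg x')
  have e1 : (Z + 1) / 2 * (x ^ 2 / Ri + x' ^ 2 / Rj) =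
      ((Z + 1) / Ri * x ^ 2 + (Z + 1) / Rj * x' ^ 2) / 2 := by ring
  rw [e1]
  nlinarith

lemma log_Wsum (a c : ℝ) (ha : 0 < a) (hc : 0 < c) : (c - a) / c ≤ Real.log c - Real.log a := by
  have h := Real.log_le_sub_one_of_pos (div_pos ha hc)
  rw [Real.log_div ha.ne' hc.ne'] at h
  have : (c - a) / c = 1 - a / c := by field_simp
  linarith

theorem sWsum (hG : SGeoA) : SWsum := by
  classical
  intro d T D S R f b c Z p' hS hSR hD hp hb hc hb2 hZ hf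
  obtain ⟨-, -, -, hG4, -⟩ := hG d
  obtain ⟨hR, hex, hex2, hpsi, -⟩ := hG4 S R hS hSR
  set Del : Sd d → ℕ := fun s => (R s - S s).toNat with hDel
  set E : Finset (Sd d → ℕ) := Fintype.piFinset fun _ => Finset.range (T + 2) with hE
  set X : Sd d × Sd d → Finset (Bx d) := fun q => (boxes R).filter fun P =>
    Val P ∧ P ≤ R ∧ psi P < T ∧ S q.1 < P q.1 ∧ S q.2 < P q.2 with hX
  set Q : Finset (Sd d × Sd d) := univ.filter fun q => q.1.1 ≠ q.2.1 with hQ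
  set h : Sd d × Sd d → Dat d → ℝ := fun q u => 4 * p' * ((b q.1.1)⁻¹ * (b q.2.1)⁻¹) *
    ((1 / 2 : ℝ) ^ psi u.1 * ∏ t, (1 / 2 : ℝ) ^ u.2 t) with hh
  have hpos : ∀ i, 0 < (b i)⁻¹ := fun i => inv_pos.2 (hb i).1
  have hh0 : ∀ q u, 0 ≤ h q u := by
    intro q u
    have := hpos q.1.1
    have := hpos q.2.1
    simp only [hh]
    positivity
  have step1 : ∀ u ∈ admSet T S R, f u.1 * ∏ s : Sd d, (b s.1)⁻¹ ^ u.2 s ≤
      ∑ q ∈ Q, if u ∈ X q ×ˢ E then h q u else 0 := by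
    intro u hu
    simp only [admSet, Finset.mem_filter] at hu
    obtain ⟨hu1, a1, a2, a3, a4, a5, s, s', hss, hs, hs'⟩ := hu
    have hq : (s, s') ∈ Q := by simp [hQ, hss]
    have hmem : u ∈ X (s, s') ×ˢ E := by
      rw [Finset.mem_product] at hu1 ⊢
      refine ⟨?_, hu1.2⟩
      simp only [hX, Finset.mem_filter]
      have b1 := a5 s hs
      have b2 := a5 s' hs'
      exact ⟨hu1.1, a1, a2, a3, by omega, by omega⟩
    refine le_trans ?_ (Finset.single_le_sum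
      (f := fun q => if u ∈ X q ×ˢ E then h q u else 0) (fun q _ => ?_) hq)
    · simp only [if_pos hmem]
      have hne : s ≠ s' := fun e => hss (congrArg Prod.fst e)
      have c1 := prod_Wsum u.2 b c (psi u.1) hb hc s s' hne hs hs' a4
      obtain ⟨c2, c3⟩ := hf u.1 a1 a3
      have c4 : (1 / 2 : ℝ) ^ (psi u.1 + 2) ≤ ∏ t, (1 / 2 : ℝ) ^ u.2 t := by
        rw [Finset.prod_pow_eq_pow_sum]
        exact pow_le_pow_of_le_one (by norm_num) (by norm_num) a4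
      have c5 : (1 / 4 : ℝ) ^ psi u.1 = 4 * ((1 / 2 : ℝ) ^ psi u.1 * (1 / 2) ^ (psi u.1 + 2)) := by
        rw [pow_add, show (1 / 4 : ℝ) = 1 / 2 * (1 / 2) by norm_num, mul_pow]
        ring
      have hbb : 0 < (b s.1)⁻¹ * (b s'.1)⁻¹ := mul_pos (hpos _) (hpos _)
      calc f u.1 * ∏ s : Sd d, (b s.1)⁻¹ ^ u.2 s
          ≤ f u.1 * ((b s.1)⁻¹ * (b s'.1)⁻¹ * Real.exp (c * psi u.1)) :=
            mul_le_mul_of_nonneg_left c1 c2
        _ = ((b s.1)⁻¹ * (b s'.1)⁻¹) * (f u.1 * Real.exp (c * psi u.1)) := by ring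
        _ ≤ ((b s.1)⁻¹ * (b s'.1)⁻¹) * (p' * (1 / 4) ^ psi u.1) :=
            mul_le_mul_of_nonneg_left c3 hbb.le
        _ = 4 * p' * ((b s.1)⁻¹ * (b s'.1)⁻¹) *
            ((1 / 2 : ℝ) ^ psi u.1 * (1 / 2) ^ (psi u.1 + 2)) := by rw [c5]; ring
        _ ≤ h (s, s') u := by
            simp only [hh]
            gcongr
    · split_ifs
      · exact hh0 _ _
      · exact le_rfl
  have step2 : ∀ q ∈ Q, ∑ u ∈ admSet T S R, (if u ∈ X q ×ˢ E then h q u else 0) ≤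
      2 ^ (3 * d + 2) * ((Z + 1) / 2 * ((Del q.1 : ℝ) ^ 2 / ((ex R q.1.1 : ℝ) + 1) +
        (Del q.2 : ℝ) ^ 2 / ((ex R q.2.1 : ℝ) + 1))) := by
    rintro ⟨s, s'⟩ hq
    have hss : s.1 ≠ s'.1 := by simpa [hQ] using hq
    set Y : ℝ := ∏ k ∈ (univ.erase s.1).erase s'.1, ((ex R k : ℝ) + 1) with hY
    have hY0 : 0 < Y := Finset.prod_pos fun _ _ => by positivity
    have e1 : (sg (ex R) s.1 : ℝ) = ((ex R s'.1 : ℝ) + 1) * Y := sg_Wsum _ _ _ hss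
    have e2 : (sg (ex R) s'.1 : ℝ) = ((ex R s.1 : ℝ) + 1) * Y := by
      rw [sg_Wsum _ _ _ hss.symm, Finset.erase_right_comm]
    have f1 : p' * (sg (ex R) s.1 : ℝ) = p' * Y * ((ex R s'.1 : ℝ) + 1) := by rw [e1]; ring
    have f2 : p' * (sg (ex R) s'.1 : ℝ) = p' * Y * ((ex R s.1 : ℝ) + 1) := by rw [e2]; ring
    have g1 := amgm_Wsum (p' * Y) (b s.1)⁻¹ (b s'.1)⁻¹ ((ex R s.1 : ℝ) + 1) ((ex R s'.1 : ℝ) + 1)
      Z (Del s) (Del s') (mul_pos hp hY0) (by positivity) (by positivity)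
      (f1 ▸ hb2 s.1) (f2 ▸ hb2 s'.1) (f1 ▸ hZ s.1) (f2 ▸ hZ s'.1)
    have g2 := pos_Wsum T S R hR s s' hss (X (s, s')) (fun P hP => (Finset.mem_filter.1 hP).2)
    have g3 := exps_Wsum (d := d) (T + 2)
    have hbb : 0 < (b s.1)⁻¹ * (b s'.1)⁻¹ := mul_pos (hpos _) (hpos _)
    calc ∑ u ∈ admSet T S R, (if u ∈ X (s, s') ×ˢ E then h (s, s') u else 0)
        = ∑ u ∈ (admSet T S R).filter (fun u => u ∈ X (s, s') ×ˢ E), h (s, s') u := by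
          rw [Finset.sum_filter]
      _ ≤ ∑ u ∈ X (s, s') ×ˢ E, h (s, s') u :=
          Finset.sum_le_sum_of_subset_of_nonneg (fun u hu => (Finset.mem_filter.1 hu).2)
            fun _ _ _ => hh0 _ _
      _ = 4 * p' * ((b s.1)⁻¹ * (b s'.1)⁻¹) * ((∑ P ∈ X (s, s'), (1 / 2 : ℝ) ^ psi P) *
            ∑ e ∈ E, ∏ t, (1 / 2 : ℝ) ^ e t) := by
          rw [Finset.sum_mul_sum, Finset.sum_product, Finset.mul_sum]
          refine Finset.sum_congr rfl fun P _ => ?_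
          rw [Finset.mul_sum]
      _ ≤ 4 * p' * ((b s.1)⁻¹ * (b s'.1)⁻¹) *
            ((2 ^ d * ((Del s : ℝ) * (Del s') * Y)) * 2 ^ (2 * d)) := by
          refine mul_le_mul_of_nonneg_left ?_ (by positivity)
          exact mul_le_mul g2 g3 (Finset.sum_nonneg fun _ _ => by positivity) (by positivity)
      _ = 2 ^ (3 * d + 2) * (p' * Y * ((b s.1)⁻¹ * (b s'.1)⁻¹) * ((Del s : ℝ) * (Del s'))) := by
          rw [show 3 * d + 2 = d + 2 * d + 2 by ring, pow_add, pow_add]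
          ring
      _ ≤ _ := mul_le_mul_of_nonneg_left g1 (by positivity)
  have hZ0 : ∀ _i : Fin d, 0 ≤ Z + 1 := by
    intro i
    have h1 := hZ i
    have : 0 ≤ p' * (sg (ex R) i : ℝ) := by positivity
    linarith
  have hdZ : 0 ≤ (d : ℝ) * (Z + 1) := by
    rcases Nat.eq_zero_or_pos d with h0 | h0
    · simp [h0]
    · exact mul_nonneg (Nat.cast_nonneg _) (hZ0 ⟨0, h0⟩)
  have hDel1 : ∀ s, Del s ≤ D := by
    intro s
    have : Del s ≤ ∑ t, Del t :=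
      Finset.single_le_sum (f := Del) (fun _ _ => Nat.zero_le _) (Finset.mem_univ s)
    have h2 : psi R = psi S + ∑ t, Del t := hpsi
    omega
  have step3 : ∑ s : Sd d, (Del s : ℝ) ^ 2 / ((ex R s.1 : ℝ) + 1) ≤ D * (lg R - lg S) := by
    calc ∑ s : Sd d, (Del s : ℝ) ^ 2 / ((ex R s.1 : ℝ) + 1)
        ≤ ∑ s : Sd d, D * ((Del s : ℝ) / ((ex R s.1 : ℝ) + 1)) := by
          refine Finset.sum_le_sum fun s _ => ?_
          rw [← mul_div_assoc, sq]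
          have : (Del s : ℝ) ≤ D := by exact_mod_cast hDel1 s
          gcongr
      _ = D * ∑ i : Fin d, (((ex R i : ℝ) + 1) - ((ex S i : ℝ) + 1)) / ((ex R i : ℝ) + 1) := by
          rw [← Finset.mul_sum, Fintype.sum_prod_type]
          congr 1
          refine Finset.sum_congr rfl fun i _ => ?_
          rw [Fintype.sum_bool, ← add_div]
          congr 1
          have h1 := hex2 i
          have h2 := hex i
          have h3 : ex R i = ex S i + (Del (i, true) + Del (i, false)) := by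
            simp only [hDel]
            omega
          rw [h3]
          push_cast
          ring
      _ ≤ D * (lg R - lg S) := by
          refine mul_le_mul_of_nonneg_left ?_ (Nat.cast_nonneg _)
          unfold lg
          rw [← Finset.sum_sub_distrib]
          exact Finset.sum_le_sum fun i _ => log_Wsum _ _ (by positivity) (by positivity)
  calc ∑ u ∈ admSet T S R, f u.1 * ∏ s : Sd d, (b s.1)⁻¹ ^ u.2 s
      ≤ ∑ u ∈ admSet T S R, ∑ q ∈ Q, if u ∈ X q ×ˢ E then h q u else 0 :=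
        Finset.sum_le_sum step1
    _ = ∑ q ∈ Q, ∑ u ∈ admSet T S R, if u ∈ X q ×ˢ E then h q u else 0 := Finset.sum_comm
    _ ≤ ∑ q ∈ Q, 2 ^ (3 * d + 2) * ((Z + 1) / 2 * ((Del q.1 : ℝ) ^ 2 / ((ex R q.1.1 : ℝ) + 1) +
        (Del q.2 : ℝ) ^ 2 / ((ex R q.2.1 : ℝ) + 1))) := Finset.sum_le_sum step2
    _ ≤ ∑ q : Sd d × Sd d, 2 ^ (3 * d + 2) * ((Z + 1) / 2 *
        ((Del q.1 : ℝ) ^ 2 / ((ex R q.1.1 : ℝ) + 1) +
        (Del q.2 : ℝ) ^ 2 / ((ex R q.2.1 : ℝ) + 1))) := by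
        refine Finset.sum_le_sum_of_subset_of_nonneg (Finset.subset_univ _) fun q _ _ => ?_
        have := hZ0 q.1.1
        positivity
    _ = 2 ^ (3 * d + 3) * (d * (Z + 1)) *
        ∑ s : Sd d, (Del s : ℝ) ^ 2 / ((ex R s.1 : ℝ) + 1) := by
        rw [← Finset.mul_sum, ← Finset.mul_sum, Fintype.sum_prod_type]
        simp only [Finset.sum_add_distrib, Finset.sum_const, Finset.card_univ, Fintype.card_prod,
          Fintype.card_fin, Fintype.card_bool, nsmul_eq_mul, ← Finset.mul_sum]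
        push_cast
        ring
    _ ≤ 2 ^ (3 * d + 3) * (d * (Z + 1)) * (D * (lg R - lg S)) :=
        mul_le_mul_of_nonneg_left step3 (by positivity)
    _ = 2 ^ (3 * d + 3) * d * (Z + 1) * D * (lg R - lg S) := by ring

end Pool.Agent.MP_6d294b_pr

end

section

open Finset

namespace Pool.Agent.MP_6d294b_pr

variable {d : ℕ}

lemma box_FWsum (T : ℕ) (X : Finset (Bx d)) (σ : Fin d → Bool) (I : ℕ → Fin d → Finset ℤ)
    (w : ℕ → ℝ) (B : ℝ) (hw : ∀ n, 0 ≤ w n) (hB : ∀ n, (∏ k, ((I n k).card : ℝ)) * w n ≤ B)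
    (hX : ∀ P ∈ X, Val P ∧ psi P < T ∧ ∀ k, P (k, σ k) ∈ I (psi P) k) :
    ∑ P ∈ X, (1 / 2 : ℝ) ^ psi P * w (psi P) ≤ 2 ^ d * B := by
  classical
  have hB0 : 0 ≤ B := le_trans (mul_nonneg (Finset.prod_nonneg fun _ _ => Nat.cast_nonneg _)
    (hw 0)) (hB 0)
  have hmap : ∀ P ∈ X, ex P ∈ Fintype.piFinset fun _ : Fin d => range T := by
    intro P hP
    rw [Fintype.mem_piFinset]
    intro k
    have h1 : ex P k ≤ psi P :=
      Finset.single_le_sum (f := fun i => ex P i) (fun _ _ => Nat.zero_le _) (Finset.mem_univ k)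
    have h2 := (hX P hP).2.1
    exact Finset.mem_range.2 (by omega)
  rw [← Finset.sum_fiberwise_of_maps_to hmap]
  have key : ∀ y : Fin d → ℕ, ∑ P ∈ X with ex P = y, (1 / 2 : ℝ) ^ psi P * w (psi P) ≤
      (∏ k, (1 / 2 : ℝ) ^ y k) * B := by
    intro y
    have h1 : ∀ P ∈ X.filter (fun P => ex P = y), psi P = ∑ k, y k := by
      intro P hP
      rw [← (Finset.mem_filter.1 hP).2]
      rfl
    have h2 : (X.filter fun P => ex P = y).card ≤ (Fintype.piFinset (I (∑ k, y k))).card := by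
      refine Finset.card_le_card_of_injOn (fun P k => P (k, σ k)) ?_ ?_
      · intro P hP
        have hP' := Finset.mem_coe.1 hP
        rw [Finset.mem_coe, Fintype.mem_piFinset, ← h1 P hP']
        exact (hX P (Finset.mem_filter.1 hP').1).2.2
      · intro P hP Q hQ h
        obtain ⟨hP1, hP2⟩ := Finset.mem_filter.1 (Finset.mem_coe.1 hP)
        obtain ⟨hQ1, hQ2⟩ := Finset.mem_filter.1 (Finset.mem_coe.1 hQ)
        funext t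
        obtain ⟨k, t⟩ := t
        have e1 : P (k, σ k) = Q (k, σ k) := congrFun h k
        have e2 : ex P k = ex Q k := by rw [hP2, hQ2]
        simp only [ex] at e2
        have a1 := (hX P hP1).1 k
        have a2 := (hX Q hQ1).1 k
        cases hσ : σ k <;> rw [hσ] at e1 <;> cases t <;> omega
    rw [Fintype.card_piFinset] at h2
    have h3 : ((X.filter fun P => ex P = y).card : ℝ) ≤ ∏ k, ((I (∑ k, y k) k).card : ℝ) := by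
      exact_mod_cast h2
    rw [Finset.sum_congr rfl fun P hP => by rw [h1 P hP], Finset.sum_const, nsmul_eq_mul,
      Finset.prod_pow_eq_pow_sum]
    have h4 := (mul_le_mul_of_nonneg_right h3 (hw (∑ k, y k))).trans (hB _)
    calc _ = (1 / 2 : ℝ) ^ (∑ k, y k) * (((X.filter fun P => ex P = y).card : ℝ) *
          w (∑ k, y k)) := by ring
      _ ≤ _ := mul_le_mul_of_nonneg_left h4 (by positivity)
  refine (Finset.sum_le_sum fun y _ => key y).trans ?_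
  rw [← Finset.sum_mul]
  refine mul_le_mul_of_nonneg_right ?_ hB0
  rw [← Finset.prod_univ_sum (fun _ : Fin d => range T) (fun _ a => (1 / 2 : ℝ) ^ a)]
  calc ∏ _t : Fin d, ∑ a ∈ range T, (1 / 2 : ℝ) ^ a ≤ ∏ _t : Fin d, (2 : ℝ) :=
        Finset.prod_le_prod (fun k _ => Finset.sum_nonneg fun _ _ => by positivity)
          fun k _ => sum_geometric_two_le T
    _ = 2 ^ d := by simp

lemma pow_FWsum (d n : ℕ) :
    (2 * (n : ℝ) + 5) ^ d * Real.exp (-(n : ℝ)) ≤ (2 * d + 5) ^ d := by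
  have h0 : (2 * (n : ℝ) + 5) ^ d ≤ (2 * d + 5) ^ d * Real.exp n := by
    rcases Nat.eq_zero_or_pos d with rfl | hd
    · simp
    · have hd' : (0 : ℝ) < d := by exact_mod_cast hd
      have h1 : (n : ℝ) / d + 1 ≤ Real.exp (n / d) := Real.add_one_le_exp _
      have h2 : (d : ℝ) * (n / d) = n := by field_simp
      have h3 : (0 : ℝ) ≤ n / d := by positivity
      have h4 : 2 * (n : ℝ) + 5 ≤ (2 * d + 5) * (n / d + 1) := by nlinarith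
      have h5 : 2 * (n : ℝ) + 5 ≤ (2 * d + 5) * Real.exp (n / d) :=
        h4.trans (mul_le_mul_of_nonneg_left h1 (by positivity))
      calc (2 * (n : ℝ) + 5) ^ d ≤ ((2 * d + 5) * Real.exp (n / d)) ^ d :=
            pow_le_pow_left₀ (by positivity) h5 d
        _ = (2 * d + 5) ^ d * Real.exp n := by rw [mul_pow, ← Real.exp_nat_mul, h2]
  calc (2 * (n : ℝ) + 5) ^ d * Real.exp (-(n : ℝ))
      ≤ (2 * d + 5) ^ d * Real.exp n * Real.exp (-(n : ℝ)) :=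
        mul_le_mul_of_nonneg_right h0 (Real.exp_pos _).le
    _ = (2 * d + 5) ^ d := by rw [mul_assoc, ← Real.exp_add, add_neg_cancel, Real.exp_zero, mul_one]

lemma ioc_FWsum (a b : ℤ) (n : ℕ) (x : ℝ) (hx : 1 ≤ x) (h : ((b - a : ℤ) : ℝ) ≤ x) :
    ((Finset.Ioc a (b + n + 2)).card : ℝ) ≤ x * (2 * n + 5) := by
  rw [Int.card_Ioc]
  have hn : (0 : ℝ) ≤ n := Nat.cast_nonneg n
  rcases le_total (b + n + 2 - a) 0 with h0 | h0
  · rw [Int.toNat_eq_zero.2 h0, Nat.cast_zero]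
    positivity
  · have h1 : (((b + n + 2 - a).toNat : ℕ) : ℝ) = ((b + n + 2 - a : ℤ) : ℝ) := by
      rw [← Int.cast_natCast, Int.toNat_of_nonneg h0]
    rw [h1]
    push_cast at h ⊢
    nlinarith

/-- boxes that overhang on both sides -/
lemma pos_FWsum (T : ℕ) (z o : Bx d) (ho : Val o) (θ : Fin d → ℝ) (μ : ℝ) (hμ : 1 ≤ μ)
    (hθ : ∀ i, (ex o i : ℝ) + 1 ≤ θ i)
    (hz : ∀ s : Sd d, ((o s - z s : ℤ) : ℝ) ≤ μ * Real.sqrt (θ s.1))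
    (s s' : Sd d) (hss : s.1 ≠ s'.1) (X : Finset (Bx d))
    (hX : ∀ P ∈ X, Val P ∧ psi P < T ∧ (∀ t, P t ≤ o t + psi P + 2) ∧ z s < P s ∧ z s' < P s') :
    ∑ P ∈ X, (1 / 2 : ℝ) ^ psi P * Real.exp (-(psi P : ℝ)) ≤
      2 ^ d * ((μ * Real.sqrt (θ s.1)) * (μ * Real.sqrt (θ s'.1)) *
        (∏ k ∈ (univ.erase s.1).erase s'.1, θ k) * (2 * d + 5) ^ d) := by
  classical
  set σ : Fin d → Bool := fun k => if k = s.1 then s.2 else if k = s'.1 then s'.2 else true with hσ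
  set I : ℕ → Fin d → Finset ℤ := fun n k => if k = s.1 then Finset.Ioc (z s) (o s + n + 2) else
    if k = s'.1 then Finset.Ioc (z s') (o s' + n + 2) else
      Finset.Icc (- (o (k, false) + n + 2)) (o (k, true) + n + 2) with hI
  set g : Fin d → ℝ := fun k => if k = s.1 then μ * Real.sqrt (θ s.1) else
    if k = s'.1 then μ * Real.sqrt (θ s'.1) else θ k with hg
  have hθ1 : ∀ i, 1 ≤ θ i := fun i => by
    have := hθ i
    have : (0 : ℝ) ≤ ex o i := Nat.cast_nonneg _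
    linarith
  have hx : ∀ i, 1 ≤ μ * Real.sqrt (θ i) := fun i =>
    one_le_mul_of_one_le_of_one_le hμ (Real.one_le_sqrt.2 (hθ1 i))
  have hg0 : ∀ k, 0 ≤ g k := by
    intro k
    simp only [hg]
    split_ifs
    · linarith [hx s.1]
    · linarith [hx s'.1]
    · linarith [hθ1 k]
  have hcard : ∀ n k, ((I n k).card : ℝ) ≤ g k * (2 * n + 5) := by
    intro n k
    simp only [hI, hg]
    split_ifs
    · exact ioc_FWsum _ _ _ _ (hx _) (hz s)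
    · exact ioc_FWsum _ _ _ _ (hx _) (hz s')
    · rw [Int.card_Icc]
      have a1 := ho k
      have a2 : (o (k, true) + n + 2 + 1 - -(o (k, false) + n + 2)).toNat = ex o k + 2 * n + 5 := by
        simp only [ex]
        omega
      rw [a2]
      push_cast
      have a3 := hθ k
      have a4 : (0 : ℝ) ≤ ex o k := Nat.cast_nonneg _
      have a5 : (0 : ℝ) ≤ n := Nat.cast_nonneg _
      nlinarith [mul_nonneg a4 a5, mul_le_mul_of_nonneg_right a3 (show (0 : ℝ) ≤ 2 * n + 5 by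
        positivity)]
  have hprod : ∏ k, g k = (μ * Real.sqrt (θ s.1)) * (μ * Real.sqrt (θ s'.1)) *
      ∏ k ∈ (univ.erase s.1).erase s'.1, θ k := by
    rw [← Finset.mul_prod_erase univ _ (Finset.mem_univ s.1),
      ← Finset.mul_prod_erase (univ.erase s.1) _
        (Finset.mem_erase.2 ⟨hss.symm, Finset.mem_univ s'.1⟩), mul_assoc (μ * Real.sqrt (θ s.1))]
    congr 1
    · simp [hg]
    congr 1
    · simp [hg, hss.symm]
    refine Finset.prod_congr rfl fun k hk => ?_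
    have hk1 : k ≠ s'.1 := (Finset.mem_erase.1 hk).1
    have hk2 : k ≠ s.1 := (Finset.mem_erase.1 (Finset.mem_erase.1 hk).2).1
    simp only [hg, if_neg hk1, if_neg hk2]
  refine box_FWsum T X σ I (fun n => Real.exp (-(n : ℝ))) _ (fun n => (Real.exp_pos _).le) ?_ ?_
  · intro n
    have h1 : ∏ k, ((I n k).card : ℝ) ≤ (∏ k, g k) * (2 * n + 5) ^ d := by
      refine (Finset.prod_le_prod (fun _ _ => Nat.cast_nonneg _) fun k _ => hcard n k).trans ?_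
      rw [Finset.prod_mul_distrib]
      simp
    rw [← hprod]
    calc (∏ k, ((I n k).card : ℝ)) * Real.exp (-(n : ℝ))
        ≤ (∏ k, g k) * (2 * n + 5) ^ d * Real.exp (-(n : ℝ)) :=
          mul_le_mul_of_nonneg_right h1 (Real.exp_pos _).le
      _ = (∏ k, g k) * ((2 * n + 5) ^ d * Real.exp (-(n : ℝ))) := mul_assoc _ _ _
      _ ≤ _ := mul_le_mul_of_nonneg_left (pow_FWsum d n) (Finset.prod_nonneg fun k _ => hg0 k)
  · intro P hP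
    obtain ⟨h1, h3, h2, h4, h5⟩ := hX P hP
    refine ⟨h1, h3, fun k => ?_⟩
    simp only [hσ, hI]
    by_cases hk : k = s.1
    · subst hk
      simp only [if_true]
      exact Finset.mem_Ioc.2 ⟨h4, h2 s⟩
    · by_cases hk' : k = s'.1
      · subst hk'
        simp only [if_neg hk, if_true]
        exact Finset.mem_Ioc.2 ⟨h5, h2 s'⟩
      · simp only [if_neg hk, if_neg hk']
        have a1 := h1 k
        have a2 := h2 (k, false)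
        have a3 := h2 (k, true)
        exact Finset.mem_Icc.2 ⟨by omega, a3⟩

lemma term_FWsum (F bb pr p' c : ℝ) (n : ℕ) (E : ℝ) (hF : 0 ≤ F) (hbb : 0 < bb) (hp : 0 < p')
    (c1 : pr ≤ bb * Real.exp (c * n)) (c3 : F * Real.exp ((c + 1) * n) ≤ p' * (1 / 4) ^ n)
    (c4 : (1 / 2 : ℝ) ^ (n + 2) ≤ E) :
    F * pr ≤ 4 * p' * bb * ((1 / 2 : ℝ) ^ n * Real.exp (-(n : ℝ)) * E) := by
  have c5 : (1 / 4 : ℝ) ^ n = 4 * ((1 / 2 : ℝ) ^ n * (1 / 2) ^ (n + 2)) := by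
    rw [pow_add, show (1 / 4 : ℝ) = 1 / 2 * (1 / 2) by norm_num, mul_pow]
    ring
  have c6 : Real.exp (c * n) = Real.exp ((c + 1) * n) * Real.exp (-(n : ℝ)) := by
    rw [← Real.exp_add]
    congr 1
    ring
  have c7 := Real.exp_pos (-(n : ℝ))
  calc F * pr ≤ F * (bb * Real.exp (c * n)) := mul_le_mul_of_nonneg_left c1 hF
    _ = (bb * Real.exp (-(n : ℝ))) * (F * Real.exp ((c + 1) * n)) := by rw [c6]; ring
    _ ≤ (bb * Real.exp (-(n : ℝ))) * (p' * (1 / 4) ^ n) :=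
        mul_le_mul_of_nonneg_left c3 (by positivity)
    _ = 4 * p' * bb * ((1 / 2 : ℝ) ^ n * Real.exp (-(n : ℝ)) * (1 / 2) ^ (n + 2)) := by
        rw [c5]; ring
    _ ≤ _ := by gcongr

theorem tWs1 : TWs1 := by
  classical
  intro d T R z o f b θ c Z p' μ ho hp hμ hθ hz hb hc hb2 hZ hZ0 hf
  set E : Finset (Sd d → ℕ) := Fintype.piFinset fun _ => Finset.range (T + 2) with hE
  set X : Sd d × Sd d → Finset (Bx d) := fun q => (boxes R).filter fun P =>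
    Val P ∧ psi P < T ∧ (∀ t, P t ≤ o t + psi P + 2) ∧ z q.1 < P q.1 ∧ z q.2 < P q.2 with hX
  set Q : Finset (Sd d × Sd d) := univ.filter fun q => q.1.1 ≠ q.2.1 with hQ
  set h : Sd d × Sd d → Dat d → ℝ := fun q u => 4 * p' * ((b q.1.1)⁻¹ * (b q.2.1)⁻¹) *
    ((1 / 2 : ℝ) ^ psi u.1 * Real.exp (-(psi u.1 : ℝ)) * ∏ t, (1 / 2 : ℝ) ^ u.2 t) with hh
  have hpos : ∀ i, 0 < (b i)⁻¹ := fun i => inv_pos.2 (hb i).1
  have hθ0 : ∀ i, 0 < θ i := fun i => lt_of_lt_of_le (by positivity) (hθ i)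
  have hh0 : ∀ q u, 0 ≤ h q u := by
    intro q u
    have := hpos q.1.1
    have := hpos q.2.1
    simp only [hh]
    positivity
  have step1 : ∀ u ∈ adm1 T R z o, f u.1 * ∏ s : Sd d, (b s.1)⁻¹ ^ u.2 s ≤
      ∑ q ∈ Q, if u ∈ X q ×ˢ E then h q u else 0 := by
    intro u hu
    simp only [adm1, Finset.mem_filter] at hu
    obtain ⟨hu1, a1, a3, a4, a5, a2, s, s', hss, hs, hs'⟩ := hu
    have hq : (s, s') ∈ Q := by simp [hQ, hss]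
    have hmem : u ∈ X (s, s') ×ˢ E := by
      rw [Finset.mem_product] at hu1 ⊢
      refine ⟨?_, hu1.2⟩
      simp only [hX, Finset.mem_filter]
      have b1 := a5 s hs
      have b2 := a5 s' hs'
      exact ⟨hu1.1, a1, a3, a2, by omega, by omega⟩
    refine le_trans ?_ (Finset.single_le_sum
      (f := fun q => if u ∈ X q ×ˢ E then h q u else 0) (fun q _ => ?_) hq)
    · simp only [if_pos hmem]
      have hne : s ≠ s' := fun e => hss (congrArg Prod.fst e)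
      have c1 := prod_Wsum u.2 b c (psi u.1) hb hc s s' hne hs hs' a4
      obtain ⟨c2, c3⟩ := hf u.1 a1 a3
      have c4 : (1 / 2 : ℝ) ^ (psi u.1 + 2) ≤ ∏ t, (1 / 2 : ℝ) ^ u.2 t := by
        rw [Finset.prod_pow_eq_pow_sum]
        exact pow_le_pow_of_le_one (by norm_num) (by norm_num) a4
      exact term_FWsum _ _ _ _ _ _ _ c2 (mul_pos (hpos _) (hpos _)) hp c1 c3 c4
    · split_ifs
      · exact hh0 _ _
      · exact le_rfl
  have step2 : ∀ q ∈ Q, ∑ u ∈ adm1 T R z o, (if u ∈ X q ×ˢ E then h q u else 0) ≤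
      2 ^ (3 * d + 2) * (2 * d + 5) ^ d * μ ^ 2 * (Z + 1) := by
    rintro ⟨s, s'⟩ hq
    have hss : s.1 ≠ s'.1 := by simpa [hQ] using hq
    set Y : ℝ := ∏ k ∈ (univ.erase s.1).erase s'.1, θ k with hY
    have hY0 : 0 < Y := Finset.prod_pos fun k _ => hθ0 k
    have e1 : ∏ j ∈ univ.erase s.1, θ j = θ s'.1 * Y :=
      (Finset.mul_prod_erase (univ.erase s.1) _
        (Finset.mem_erase.2 ⟨hss.symm, Finset.mem_univ s'.1⟩)).symm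
    have e2 : ∏ j ∈ univ.erase s'.1, θ j = θ s.1 * Y := by
      rw [hY, Finset.erase_right_comm]
      exact (Finset.mul_prod_erase (univ.erase s'.1) _
        (Finset.mem_erase.2 ⟨hss, Finset.mem_univ s.1⟩)).symm
    have f1 : p' * ∏ j ∈ univ.erase s.1, θ j = p' * Y * θ s'.1 := by rw [e1]; ring
    have f2 : p' * ∏ j ∈ univ.erase s'.1, θ j = p' * Y * θ s.1 := by rw [e2]; ring
    have g1 := amgm_Wsum (p' * Y) (b s.1)⁻¹ (b s'.1)⁻¹ (θ s.1) (θ s'.1)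
      Z (Real.sqrt (θ s.1)) (Real.sqrt (θ s'.1)) (mul_pos hp hY0) (hθ0 _) (hθ0 _)
      (f1 ▸ hb2 s.1) (f2 ▸ hb2 s'.1) (f1 ▸ hZ s.1) (f2 ▸ hZ s'.1)
    rw [Real.sq_sqrt (hθ0 _).le, Real.sq_sqrt (hθ0 _).le, div_self (hθ0 _).ne',
      div_self (hθ0 _).ne'] at g1
    have g2 := pos_FWsum T z o ho θ μ hμ hθ hz s s' hss (X (s, s'))
      (fun P hP => (Finset.mem_filter.1 hP).2)
    have g3 := exps_Wsum (d := d) (T + 2)
    have hbb : 0 < (b s.1)⁻¹ * (b s'.1)⁻¹ := mul_pos (hpos _) (hpos _)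
    have hμ0 : 0 ≤ μ := by linarith
    calc ∑ u ∈ adm1 T R z o, (if u ∈ X (s, s') ×ˢ E then h (s, s') u else 0)
        = ∑ u ∈ (adm1 T R z o).filter (fun u => u ∈ X (s, s') ×ˢ E), h (s, s') u := by
          rw [Finset.sum_filter]
      _ ≤ ∑ u ∈ X (s, s') ×ˢ E, h (s, s') u :=
          Finset.sum_le_sum_of_subset_of_nonneg (fun u hu => (Finset.mem_filter.1 hu).2)
            fun _ _ _ => hh0 _ _
      _ = 4 * p' * ((b s.1)⁻¹ * (b s'.1)⁻¹) *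
            ((∑ P ∈ X (s, s'), (1 / 2 : ℝ) ^ psi P * Real.exp (-(psi P : ℝ))) *
            ∑ e ∈ E, ∏ t, (1 / 2 : ℝ) ^ e t) := by
          rw [Finset.sum_mul_sum, Finset.sum_product, Finset.mul_sum]
          refine Finset.sum_congr rfl fun P _ => ?_
          rw [Finset.mul_sum]
      _ ≤ 4 * p' * ((b s.1)⁻¹ * (b s'.1)⁻¹) *
            ((2 ^ d * ((μ * Real.sqrt (θ s.1)) * (μ * Real.sqrt (θ s'.1)) * Y *
              (2 * d + 5) ^ d)) * 2 ^ (2 * d)) := by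
          refine mul_le_mul_of_nonneg_left ?_ (by positivity)
          exact mul_le_mul g2 g3 (Finset.sum_nonneg fun _ _ => by positivity) (by positivity)
      _ = 2 ^ (3 * d + 2) * (2 * d + 5) ^ d * μ ^ 2 * (p' * Y * ((b s.1)⁻¹ * (b s'.1)⁻¹) *
            (Real.sqrt (θ s.1) * Real.sqrt (θ s'.1))) := by
          rw [show 3 * d + 2 = d + 2 * d + 2 by ring, pow_add, pow_add]
          ring
      _ ≤ _ := mul_le_mul_of_nonneg_left (by linarith) (by positivity)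
  calc ∑ u ∈ adm1 T R z o, f u.1 * ∏ s : Sd d, (b s.1)⁻¹ ^ u.2 s
      ≤ ∑ u ∈ adm1 T R z o, ∑ q ∈ Q, if u ∈ X q ×ˢ E then h q u else 0 :=
        Finset.sum_le_sum step1
    _ = ∑ q ∈ Q, ∑ u ∈ adm1 T R z o, if u ∈ X q ×ˢ E then h q u else 0 := Finset.sum_comm
    _ ≤ ∑ _q ∈ Q, (2 : ℝ) ^ (3 * d + 2) * (2 * d + 5) ^ d * μ ^ 2 * (Z + 1) :=
        Finset.sum_le_sum step2
    _ ≤ ∑ _q : Sd d × Sd d, (2 : ℝ) ^ (3 * d + 2) * (2 * d + 5) ^ d * μ ^ 2 * (Z + 1) :=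
        Finset.sum_le_sum_of_subset_of_nonneg (Finset.subset_univ _) fun q _ _ => by positivity
    _ = 2 ^ (3 * d + 4) * d ^ 2 * (2 * d + 5) ^ d * μ ^ 2 * (Z + 1) := by
        simp only [Finset.sum_const, Finset.card_univ, Fintype.card_prod, Fintype.card_fin,
          Fintype.card_bool, nsmul_eq_mul]
        push_cast
        ring

end Pool.Agent.MP_6d294b_pr

end

section

/-! Gain of the cost in a larger box, and absorption of the frame loss. -/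

open Finset

namespace Pool.Agent.MP_6d294b_pr

theorem anti_GGain {k : ℕ} (h : Slp1 k) {z w : ℝ} (hz : 0 < z) (hw : z ≤ w) :
    gk k w ≤ gk k z := by
  have a1 := h.1 w z (hz.trans_le hw) hz
  have a2 := mul_nonneg_of_nonpos_of_nonpos (h.2.2.1 w (hz.trans_le hw)) (sub_nonpos.2 hw)
  linarith

theorem gk_GGain {k : ℕ} (h : Slp1 k) {z w r : ℝ} (hz : 0 < z) (r0 : 0 ≤ r) (r1 : r ≤ 1 / 6)
    (hz1 : 4 * (k : ℝ) ^ 2 * ((1 + r) * z) ≤ 1) (hw : (1 + r) * z ≤ w) :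
    gk k w + r / 14 ≤ gk k z := by
  have h0 : 0 < (1 + r) * z := by positivity
  have a1 := anti_GGain h h0 hw
  have a2 := h.2.2.1 _ h0
  have a3 := h.1 _ z h0 hz
  have a4 := h.2.2.2.1 _ h0 hz1
  generalize mkk k ((1 + r) * z) = m at a2 a3 a4
  have a5 := mul_le_mul_of_nonneg_right r1 (mul_nonneg hz.le (neg_nonneg.2 a2))
  have a6 : 1 / 14 ≤ z * -m := by linarith
  have a7 := mul_le_mul_of_nonneg_left a6 r0
  linarith

theorem gGain (h1 : GN2) (h2 : GCost) : GGain := by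
  intro D k q p w η ε Φ a t x j₁ j₂ hB hj ha1 ha2 htx hqt i y₁ y₂ hy h12 ha
  obtain ⟨⟨-, -, -, -, hε⟩, c2, -, -, c5, -⟩ := h2 D k q p w η ε Φ hB
  obtain ⟨-, hk, hq, -, -, hw, -, -, hS, -⟩ := hB
  obtain ⟨-, -, -, -, n5, n6⟩ := h1 q w hq (by omega)
  have k1 : (1 : ℝ) ≤ k := by exact_mod_cast hk
  have k2 : (1 : ℝ) ≤ (k : ℝ) ^ 2 := one_le_pow₀ k1
  have w8 : (8 : ℝ) ≤ w := by exact_mod_cast hw
  have tx : 2 * (t : ℝ) ≤ x := by exact_mod_cast htx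
  have t0 : (0 : ℝ) ≤ t := Nat.cast_nonneg t
  have u0 : 0 < q * ((t : ℝ) + 2 * w + 1) := by positivity
  have u1 : 30 * (q * ((t : ℝ) + 2 * w + 1)) ≤ 1 := by
    linarith [mul_le_mul_of_nonneg_right k2 u0.le]
  have p0 : ∀ y : ℕ, 0 ≤ t2 q w (2 * w) y := fun y => by unfold t2; positivity
  have mono : ∀ x y : ℕ, x ≤ y → t2 q w (2 * w) x ≤ t2 q w (2 * w) y := fun x y h =>
    (le_add_of_nonneg_right (Nat.cast_nonneg _)).trans (n6 _ x y h)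
  have ht := n5 t (2 * w) hw le_rfl (by linarith)
  have yt : ∀ l, y₁ l < t := fun l =>
    (single_le_sum (f := y₁) (fun _ _ => Nat.zero_le _) (mem_univ l)).trans_lt hy
  have b1 : ∀ l, t2 q w (2 * w) (y₁ l) ≤ 3 * ((t : ℝ) + 2 * w + 1) :=
    fun l => (mono _ _ (yt l).le).trans ht
  obtain ⟨j, hji, hj2⟩ : ∃ j, j ≠ i ∧ x ≤ y₂ j := by
    by_cases h : j₁ = i
    · exact ⟨j₂, fun e => hj (h.trans e.symm), ha2.trans (ha j₂)⟩
    · exact ⟨j₁, h, ha1.trans (ha j₁)⟩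
  have hm : j ∈ univ.erase i := mem_erase.2 ⟨hji, mem_univ j⟩
  have hc : (univ.erase i).card = D - 1 := by simp
  have hd : D - 1 ≠ 0 := hc ▸ card_ne_zero_of_mem hm
  have v0 : 0 < (x : ℝ) + 2 * w + 1 := by positivity
  obtain ⟨r, r0, hr⟩ : ∃ r : ℝ, 0 ≤ r ∧ r * ((x : ℝ) + 2 * w + 1) = x / 6 :=
    ⟨x / 6 / ((x : ℝ) + 2 * w + 1), by positivity, div_mul_cancel₀ _ v0.ne'⟩
  have r1 : r ≤ 1 / 6 := le_of_mul_le_mul_right (by rw [hr]; linarith) v0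
  have r2 : x / (100 * ((x : ℝ) + 2 * w + 1)) ≤ r / 14 := by
    rw [div_le_iff₀ (by positivity)]
    linarith
  have b2 : (1 + r) * t2 q w (2 * w) (y₁ j) ≤ t2 q w (2 * w) (y₂ j) := by
    have e1 := n6 (2 * w) _ _ (h12 j)
    have e2 : (x : ℝ) ≤ 2 * ((y₂ j - y₁ j : ℕ) : ℝ) := by
      have := yt j
      exact_mod_cast (by omega : x ≤ 2 * (y₂ j - y₁ j))
    have e3 : t2 q w (2 * w) (y₁ j) ≤ 3 * ((x : ℝ) + 2 * w + 1) := (b1 j).trans (by linarith)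
    have e4 := mul_le_mul_of_nonneg_left e3 r0
    linarith
  have b3 : (1 + r) * F2 q w (2 * w) y₁ i ≤ F2 q w (2 * w) y₂ i := by
    unfold F2
    rw [← mul_prod_erase _ _ hm, ← mul_prod_erase _ (fun l => t2 q w (2 * w) (y₂ l)) hm,
      mul_left_comm, ← mul_assoc (1 + r)]
    refine mul_le_mul_of_nonneg_left (mul_le_mul b2 (prod_le_prod (fun l _ => p0 _)
      fun l _ => mono _ _ (h12 l)) (prod_nonneg fun l _ => p0 _) (p0 _)) (by positivity)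
  have b4 : F2 q w (2 * w) y₁ i ≤ q * (3 * ((t : ℝ) + 2 * w + 1)) := by
    have e1 : ∏ l ∈ univ.erase i, t2 q w (2 * w) (y₁ l) ≤
        ∏ _l ∈ univ.erase i, 3 * ((t : ℝ) + 2 * w + 1) :=
      prod_le_prod (fun l _ => p0 _) fun l _ => b1 l
    rw [prod_const, hc] at e1
    have e2 : (q * (3 * ((t : ℝ) + 2 * w + 1))) ^ (D - 1) ≤ q * (3 * ((t : ℝ) + 2 * w + 1)) :=
      pow_le_of_le_one (by positivity) (by linarith) hd
    rw [mul_pow] at e2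
    exact (mul_le_mul_of_nonneg_left e1 (pow_nonneg hq.le (D - 1))).trans e2
  have f0 : 0 < F2 q w (2 * w) y₁ i :=
    lt_of_lt_of_le (by positivity) (c5 (2 * w) y₁ i (by omega))
  unfold co2
  generalize F2 q w (2 * w) y₁ i = F at b3 b4 f0
  generalize F2 q w (2 * w) y₂ i = F' at b3
  obtain ⟨g1, g2, g3⟩ := c2 F F' f0 (by linarith [mul_nonneg r0 f0.le])
  have z0 : 0 < Th2 η ε F := f0.trans_le g1
  have z1 : Th2 η ε F ≤ 9 / 8 * F := by linarith [mul_le_mul_of_nonneg_right hε f0.le]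
  have z2 : (1 + r) * Th2 η ε F ≤ 2 * (q * (3 * ((t : ℝ) + 2 * w + 1))) := by
    linarith [mul_le_mul_of_nonneg_right r1 z0.le]
  have z3 := mul_le_mul_of_nonneg_left z2 (show 0 ≤ 4 * (k : ℝ) ^ 2 by positivity)
  have z4 := mul_le_mul_of_nonneg_left b3 z0.le
  have := gk_GGain hS.1 (w := Th2 η ε F') z0 r0 r1 (by linarith)
    (le_of_mul_le_mul_right (by linarith) f0)
  linarith

theorem gDom : GDom := by
  intro k B η ε ρ F F' hk hS hF hFF hB hBη hρ hηρ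
  obtain ⟨h, hε, hkε, -⟩ := hS
  have k1 : (1 : ℝ) ≤ k := by exact_mod_cast hk
  have hη : 0 ≤ η := by linarith
  have m0 : 0 ≤ min (η * Real.exp (3 * F / 2)) ε := le_min (by positivity) hε.le
  have a1 : F ≤ Th2 η ε F := le_mul_of_one_le_right hF.le (by linarith)
  have a2 : Th2 η ε F ≤ F * (1 + ε) :=
    mul_le_mul_of_nonneg_left (by linarith [min_le_right (η * Real.exp (3 * F / 2)) ε]) hF.le
  have a3 : 0 < Th2 η ε F := hF.trans_le a1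
  have a4 : Th2 η ε F ≤ Th2 η ε F' := by
    refine mul_le_mul hFF (add_le_add le_rfl (min_le_min ?_ le_rfl)) (by linarith)
      (hF.le.trans hFF)
    exact mul_le_mul_of_nonneg_left (Real.exp_le_exp.2 (by linarith)) hη
  refine (anti_GGain h a3 a4).trans ?_
  have hBρ : 0 ≤ B * ρ := mul_nonneg hB hρ
  by_cases hc : η * Real.exp (3 * F / 2) ≤ ε
  · have e : F - Th2 η ε F = - (F * (η * Real.exp (3 * F / 2))) := by
      unfold Th2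
      rw [min_eq_left hc]
      ring
    have b1 := h.1 _ F a3 hF
    rw [e] at b1
    have b2 : Real.exp (- ((k + 1) * F + F / 4)) / 2 ≤ - mkk k (Th2 η ε F) := by
      refine le_trans ?_ (h.2.2.2.2.1 _ a3)
      refine div_le_div_of_nonneg_right (Real.exp_le_exp.2 ?_) (by norm_num)
      have c1 := mul_le_mul_of_nonneg_left a2 (show (0 : ℝ) ≤ k + 1 by positivity)
      have c2 := mul_le_mul_of_nonneg_right hkε hF.le
      linarith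
    have b3 := mul_le_mul_of_nonneg_right b2
      (show 0 ≤ F * (η * Real.exp (3 * F / 2)) by positivity)
    have b4 : Real.exp (- ((k + 1) * F + F / 4)) * Real.exp (3 * F / 2) =
        Real.exp (F / 4) * Real.exp (- (k * F)) := by
      rw [← Real.exp_add, ← Real.exp_add]
      congr 1
      ring
    have b5 : 1 + F ≤ 4 * Real.exp (F / 4) := by
      linarith [Real.add_one_le_exp (F / 4)]
    have b6 : B * (1 + F) ≤ η / 2 * Real.exp (F / 4) := by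
      have c1 := mul_le_mul_of_nonneg_left b5 hB
      have c2 := mul_le_mul_of_nonneg_right hBη (Real.exp_pos (F / 4)).le
      linarith
    have b7 := mul_le_mul_of_nonneg_right b6 (show 0 ≤ F * Real.exp (- (k * F)) by positivity)
    have b8 : Real.exp (- ((k + 1) * F + F / 4)) / 2 * (F * (η * Real.exp (3 * F / 2))) =
        η / 2 * Real.exp (F / 4) * (F * Real.exp (- (k * F))) := by
      linear_combination (F * η / 2) * b4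
    linarith
  · have b1 := anti_GGain h hF a1
    have b2 : Real.exp (- (F / 2)) ≤ ρ := by
      refine le_of_pow_le_pow_left₀ (n := 3) (by norm_num) hρ ?_
      have c1 : Real.exp (- (F / 2)) ^ 3 * Real.exp (3 * F / 2) = 1 := by
        rw [← Real.exp_nat_mul, ← Real.exp_add]
        push_cast
        rw [show 3 * - (F / 2) + 3 * F / 2 = 0 by ring, Real.exp_zero]
      have c2 := mul_le_mul_of_nonneg_right hηρ (Real.exp_pos (3 * F / 2)).le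
      refine le_of_mul_le_mul_right ?_ (Real.exp_pos (3 * F / 2))
      rw [c1]
      exact le_of_mul_le_mul_left (by linarith [not_le.1 hc]) hε
    have b3 : F * (1 + F) ≤ 16 * Real.exp (F / 2) := by
      have c1 := Real.add_one_le_exp (F / 4)
      have c2 : Real.exp (F / 2) = Real.exp (F / 4) ^ 2 := by
        rw [← Real.exp_nat_mul]
        congr 1
        push_cast
        ring
      have c3 : (F / 4 + 1) ^ 2 ≤ Real.exp (F / 4) ^ 2 := pow_le_pow_left₀ (by positivity) c1 2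
      rw [c2]
      linarith
    have b4 : Real.exp (F / 2) * Real.exp (- F) = Real.exp (- (F / 2)) := by
      rw [← Real.exp_add]
      congr 1
      ring
    have b5 : Real.exp (- (k * F)) ≤ Real.exp (- F) :=
      Real.exp_le_exp.2 (by linarith [mul_le_mul_of_nonneg_right k1 hF.le])
    have b6 := mul_le_mul b3 b5 (Real.exp_pos _).le (by positivity)
    have b7 : F * (1 + F) * Real.exp (- (k * F)) ≤ 16 * ρ := by linarith
    have b8 := mul_le_mul_of_nonneg_left b7 hB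
    linarith

end Pool.Agent.MP_6d294b_pr

end

section

open Finset

namespace Pool.Agent.MP_6d294b_pr

lemma cover_FCr1 {ι : Type} [DecidableEq ι] (f : ℤ → ℝ) (hf : ∀ j, 1 ≤ f j) (K : ι → Finset ℤ)
    (U : Finset ι) : ∀ I : Finset ℤ, (∀ j ∈ I, ∃ u ∈ U, j ∈ K u) →
      ∏ j ∈ I, f j ≤ ∏ u ∈ U, ∏ j ∈ K u, f j := by
  have h0 : ∀ j, 0 ≤ f j := fun j => zero_le_one.trans (hf j)
  induction U using Finset.induction_on with
  | empty =>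
    intro I hI
    have : I = ∅ := eq_empty_of_forall_notMem fun j hj => by simpa using hI j hj
    simp [this]
  | insert a U ha ih =>
    intro I hI
    rw [prod_insert ha, ← prod_inter_mul_prod_sdiff I (K a)]
    refine mul_le_mul (prod_le_prod_of_subset_of_one_le inter_subset_right (fun j _ => h0 j)
      fun j _ _ => hf j) (ih _ fun j hj => ?_) (prod_nonneg fun j _ => h0 j)
      (prod_nonneg fun j _ => h0 j)
    obtain ⟨u, hu, h⟩ := hI j (mem_sdiff.1 hj).1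
    rcases mem_insert.1 hu with rfl | hu
    · exact absurd h (mem_sdiff.1 hj).2
    · exact ⟨u, hu, h⟩

lemma sub_FCr1 {d : ℕ} (S R : Bx d) (U : Finset (Dat d)) (s : Sd d) :
    (JS S R U s).erase (R s) ⊆ Ioo (S s) (R s) := by
  intro j hj
  obtain ⟨h1, h2⟩ := mem_erase.1 hj
  unfold JS at h2
  have h3 := mem_Ioc.1 (mem_filter.1 h2).1
  exact mem_Ioo.2 ⟨h3.1, lt_of_le_of_ne h3.2 h1⟩

lemma prod_JS_FCr1 {d : ℕ} (S R : Bx d) (U : Finset (Dat d)) (s : Sd d) (g : ℤ → ℝ)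
    (hg : ∀ j, 0 < g j ∧ g j ≤ 1) :
    ∏ j ∈ (JS S R U s).erase (R s), g j ≤ (∏ j ∈ Ioo (S s) (R s), g j) *
      ∏ u ∈ U, ∏ j ∈ Ioc (u.1 s - u.2 s) (u.1 s), (g j)⁻¹ := by
  classical
  have h1 := cover_FCr1 (fun j => (g j)⁻¹) (fun j => (one_le_inv₀ (hg j).1).2 (hg j).2)
    (fun u : Dat d => Ioc (u.1 s - u.2 s) (u.1 s)) U
    (Ioo (S s) (R s) \ (JS S R U s).erase (R s)) (by
      intro j hj
      obtain ⟨h1, h2⟩ := mem_sdiff.1 hj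
      have h3 := mem_Ioo.1 h1
      by_contra hc
      refine h2 (mem_erase.2 ⟨h3.2.ne, ?_⟩)
      unfold JS
      exact mem_filter.2 ⟨mem_Ioc.2 ⟨h3.1, h3.2.le⟩, fun u hu h => hc ⟨u, hu, mem_Ioc.2 h⟩⟩)
  rw [← prod_sdiff (sub_FCr1 S R U s), mul_comm (∏ j ∈ _ \ _, g j), mul_assoc]
  refine le_mul_of_one_le_right (prod_nonneg fun j _ => (hg j).1.le) ?_
  have hp : 0 < ∏ j ∈ Ioo (S s) (R s) \ (JS S R U s).erase (R s), g j :=
    prod_pos fun j _ => (hg j).1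
  rw [prod_inv_distrib] at h1
  calc (1 : ℝ) = (∏ j ∈ Ioo (S s) (R s) \ (JS S R U s).erase (R s), g j) *
        (∏ j ∈ Ioo (S s) (R s) \ (JS S R U s).erase (R s), g j)⁻¹ := (mul_inv_cancel₀ hp.ne').symm
    _ ≤ _ := mul_le_mul_of_nonneg_left h1 hp.le

theorem tCr1 : TCr1 := by
  classical
  intro d Ω p p0 p1 X C S R b hb hgood
  obtain ⟨a1, -, a3, -, a5, -⟩ := sPrA (Pt d) Ω p p0 (by linarith)
  let E : Finset (Dat d) → Dat d ⊕ Sd d → Finset (Pt d) → Prop := fun U =>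
    Sum.elim (fun u => ISp u.1) (fun s => NG (C s) ((JS S R U s).erase (R s)))
  have hE : ∀ U k, Incr (E U k) := by
    rintro U (u | s) A B hAB h
    · obtain ⟨D, hD, hs⟩ := h
      exact ⟨D, hD.trans hAB, hs⟩
    · intro j hj
      rcases h j hj with ⟨x, hx, h⟩ | ⟨x, hx, h⟩
      · exact Or.inl ⟨x, hAB hx, h⟩
      · exact Or.inr ⟨x, hAB hx, h⟩
  have step1 := a3 (Cr1 X C S R) (fun A => ∃ U ∈ X.powerset,
      ∃ w : Dat d ⊕ Sd d → Finset (Pt d), (∀ k ∈ U.disjSum univ, w k ⊆ A ∧ E U k (w k)) ∧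
        ∀ k ∈ U.disjSum univ, ∀ l ∈ U.disjSum univ, k ≠ l → Disjoint (w k) (w l)) (by
    rintro A - ⟨U, w, W, h1, h2, h3, h4, h5⟩
    refine ⟨U, mem_powerset.2 fun u hu => (h1 u hu).1, Sum.elim w W, ?_, ?_⟩
    · rintro (u | s) hk
      · have hu : u ∈ U := by simpa using hk
        exact ⟨(h1 u hu).2.1, w u, Subset.rfl, (h1 u hu).2.2⟩
      · exact h2 s
    · rintro (u | s) hk (v | t) hl hne
      · exact h3 u (by simpa using hk) v (by simpa using hl) (fun h => hne (by rw [h]))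
      · exact h5 u (by simpa using hk) t
      · exact (h5 v (by simpa using hl) s).symm
      · exact h4 s t (fun h => hne (by rw [h])))
  refine step1.trans ((a5 _ _ _).trans ?_)
  have wn : ∀ u : Dat d, 0 ≤ Pr Ω p (ISp u.1) *
      ∏ s : Sd d, ∏ j ∈ Ioc (u.1 s - u.2 s) (u.1 s), (b s (j + 1))⁻¹ := fun u =>
    mul_nonneg (a1 _) (prod_nonneg fun s _ => prod_nonneg fun j _ => inv_nonneg.2 (hb _ _).1.le)
  have pn : 0 ≤ ∏ s : Sd d, ∏ j ∈ Ioo (S s) (R s), b s (j + 1) :=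
    prod_nonneg fun s _ => prod_nonneg fun j _ => (hb _ _).1.le
  calc _ ≤ ∑ U ∈ X.powerset, (∏ s : Sd d, ∏ j ∈ Ioo (S s) (R s), b s (j + 1)) *
        ∏ u ∈ U, (Pr Ω p (ISp u.1) *
          ∏ s : Sd d, ∏ j ∈ Ioc (u.1 s - u.2 s) (u.1 s), (b s (j + 1))⁻¹) := by
        refine sum_le_sum fun U _ => ?_
        refine (sBK sPrA (Pt d) Ω p p0 p1 _ (U.disjSum univ) (E U) (fun k _ => hE U k)).trans ?_
        rw [Finset.prod_disjSum, prod_mul_distrib, prod_comm (s := U), mul_left_comm,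
          ← prod_mul_distrib]
        refine mul_le_mul_of_nonneg_left ?_ (prod_nonneg fun u _ => a1 _)
        refine prod_le_prod (fun s _ => a1 _) fun s _ => ?_
        exact (hgood s _ (sub_FCr1 S R U s)).trans
          (prod_JS_FCr1 S R U s (fun j => b s (j + 1)) fun j => hb s (j + 1))
    _ = (∏ s : Sd d, ∏ j ∈ Ioo (S s) (R s), b s (j + 1)) *
        ∏ u ∈ X, (1 + Pr Ω p (ISp u.1) *
          ∏ s : Sd d, ∏ j ∈ Ioc (u.1 s - u.2 s) (u.1 s), (b s (j + 1))⁻¹) := by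
        rw [← mul_sum, Finset.prod_one_add]
    _ ≤ _ := by
        refine mul_le_mul_of_nonneg_left ?_ pn
        rw [Real.exp_sum]
        refine prod_le_prod (fun u _ => add_nonneg zero_le_one (wn u)) fun u _ => ?_
        rw [add_comm]; exact Real.add_one_le_exp _

end Pool.Agent.MP_6d294b_pr

end

section

open Finset

namespace Pool.Agent.MP_6d294b_pr

lemma sub_GRec {D d : ℕ} (F : Fr D d) (S R : Bx D) (U : Finset (Rc2 D d)) (s : Sd D) :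
    JU F S R U s ⊆ Ioo (S s) (R s) := by
  intro j hj
  unfold JU at hj
  exact (mem_filter.1 hj).1

lemma side_GRec {D d : ℕ} (F : Fr D d) (S R : Bx D) (U : Finset (Rc2 D d)) (s : Sd D)
    (g : ℤ → ℝ) (hg : ∀ j, 0 < g j ∧ g j ≤ 1 ∧ g j ≤ g (j + 1)) :
    ∏ j ∈ JU F S R U s, g (j + 1) ≤ (∏ j ∈ Ioo (S s) (R s), g (j + 1)) *
      ∏ u ∈ U, ∏ j ∈ Ioc (F.pr u.1 s - u.2 s) (F.pr u.1 s), (g j)⁻¹ := by
  classical
  have h1 := cover_FCr1 (fun j => (g j)⁻¹) (fun j => (one_le_inv₀ (hg j).1).2 (hg j).2.1)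
    (fun u : Rc2 D d => Ioc (F.pr u.1 s - u.2 s) (F.pr u.1 s)) U
    (Ioo (S s) (R s) \ JU F S R U s) (by
      intro j hj
      obtain ⟨h1, h2⟩ := mem_sdiff.1 hj
      by_contra hc
      refine h2 ?_
      unfold JU
      exact mem_filter.2 ⟨h1, fun u hu h => hc ⟨u, hu, mem_Ioc.2 h⟩⟩)
  rw [← prod_sdiff (sub_GRec F S R U s), mul_comm (∏ j ∈ _ \ _, g (j + 1)), mul_assoc]
  refine le_mul_of_one_le_right (prod_nonneg fun j _ => (hg _).1.le) ?_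
  have hp : 0 < ∏ j ∈ Ioo (S s) (R s) \ JU F S R U s, g j := prod_pos fun j _ => (hg j).1
  have h2 : ∏ j ∈ Ioo (S s) (R s) \ JU F S R U s, g j ≤
      ∏ j ∈ Ioo (S s) (R s) \ JU F S R U s, g (j + 1) :=
    prod_le_prod (fun j _ => (hg j).1.le) fun j _ => (hg j).2.2
  rw [prod_inv_distrib] at h1
  calc (1 : ℝ) = (∏ j ∈ Ioo (S s) (R s) \ JU F S R U s, g j) *
        (∏ j ∈ Ioo (S s) (R s) \ JU F S R U s, g j)⁻¹ := (mul_inv_cancel₀ hp.ne').symm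
    _ ≤ _ := mul_le_mul h2 h1 (inv_nonneg.2 hp.le) (hp.le.trans h2)

theorem gRec : GRec := by
  classical
  intro D d
  refine ⟨?_, ?_⟩
  · intro Ω p p0 p1 X H a M₀ hM ha hH
    obtain ⟨a1, -, a3, -, a5, -⟩ := sPrA (Pt d) Ω p p0 (by linarith)
    let E : Finset (Rc2 D d) → Rc2 D d ⊕ Unit → Finset (Pt d) → Prop := fun U =>
      Sum.elim (fun u => ISp u.1) (fun _ => H U)
    have hE : ∀ U, U ⊆ X → ∀ k, Incr (E U k) := by
      rintro U hU (u | s)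
      · rintro A B hAB ⟨C, hC, hs⟩
        exact ⟨C, hC.trans hAB, hs⟩
      · exact (hH U hU).1
    have step1 := a3 (Rec X H) (fun A => ∃ U ∈ X.powerset,
        ∃ w : Rc2 D d ⊕ Unit → Finset (Pt d), (∀ k ∈ U.disjSum univ, w k ⊆ A ∧ E U k (w k)) ∧
          ∀ k ∈ U.disjSum univ, ∀ l ∈ U.disjSum univ, k ≠ l → Disjoint (w k) (w l)) (by
      rintro A - ⟨U, w, W, h1, h2, h3, h4⟩
      refine ⟨U, mem_powerset.2 fun u hu => (h1 u hu).1, Sum.elim w fun _ => W, ?_, ?_⟩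
      · rintro (u | s) hk
        · have hu : u ∈ U := by simpa using hk
          exact ⟨(h1 u hu).2.1, w u, Subset.rfl, (h1 u hu).2.2.1⟩
        · exact ⟨h2, h3⟩
      · rintro (u | s) hk (v | t) hl hne
        · exact h4 u (by simpa using hk) v (by simpa using hl) (fun h => hne (by rw [h]))
        · exact (h1 u (by simpa using hk)).2.2.2
        · exact (h1 v (by simpa using hl)).2.2.2.symm
        · exact absurd rfl hne)
    refine step1.trans ((a5 _ _ _).trans ?_)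
    have wn : ∀ u : Rc2 D d, 0 ≤ Pr Ω p (ISp u.1) * a u := fun u => mul_nonneg (a1 _) (ha u)
    calc _ ≤ ∑ U ∈ X.powerset, M₀ * ∏ u ∈ U, (Pr Ω p (ISp u.1) * a u) := by
          refine sum_le_sum fun U hU => ?_
          have hU' := mem_powerset.1 hU
          refine (sBK sPrA (Pt d) Ω p p0 p1 _ (U.disjSum univ) (E U)
            (fun k _ => hE U hU' k)).trans ?_
          rw [Finset.prod_disjSum, prod_mul_distrib, mul_left_comm]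
          refine mul_le_mul_of_nonneg_left ?_ (prod_nonneg fun u _ => a1 _)
          rw [Fintype.prod_unique]
          exact (hH U hU').2
      _ = M₀ * ∏ u ∈ X, (1 + Pr Ω p (ISp u.1) * a u) := by
          rw [← mul_sum, Finset.prod_one_add]
      _ ≤ _ := by
          refine mul_le_mul_of_nonneg_left ?_ hM
          rw [Real.exp_sum]
          refine prod_le_prod (fun u _ => add_nonneg zero_le_one (wn u)) fun u _ => ?_
          rw [add_comm]; exact Real.add_one_le_exp _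
  · intro F S R b U hb
    unfold aw
    rw [prod_comm (s := U), ← prod_mul_distrib]
    exact prod_le_prod (fun s _ => prod_nonneg fun j _ => (hb s _).1.le)
      fun s _ => side_GRec F S R U s (b s) (hb s)

theorem gCrA (h1 : GRec) : GCrA := by
  classical
  intro D d F Ω p p0 p1 X C₀ C₁ S R b hb hgood
  obtain ⟨r1, r2⟩ := h1 D d
  refine r1 Ω p p0 p1 X _ (aw F b) _
    (prod_nonneg fun s _ => prod_nonneg fun j _ => (hb _ _).1.le)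
    (fun u => prod_nonneg fun s _ => prod_nonneg fun j _ => inv_nonneg.2 (hb _ _).1.le)
    fun U _ => ⟨?_, ?_⟩
  · rintro A B hAB ⟨V, hV, hd⟩
    exact ⟨V, fun s => ⟨(hV s).1.trans hAB, (hV s).2⟩, hd⟩
  · refine le_trans ?_ (r2 F S R b U hb)
    have hI : ∀ s : Sd D, Incr (NG2 (C₀ s) (C₁ s) (JU F S R U s)) := by
      intro s A B hAB h j hj
      rcases h j hj with ⟨x, hx, h⟩ | ⟨x, hx, h⟩
      · exact Or.inl ⟨x, hAB hx, h⟩
      · exact Or.inr ⟨x, hAB hx, h⟩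
    have h2 := sBK sPrA (Pt d) Ω p p0 p1 (Sd D) univ
      (fun s => NG2 (C₀ s) (C₁ s) (JU F S R U s)) fun s _ => hI s
    refine le_trans (le_trans (mono_PrA Ω p0 (by linarith) _ _ ?_) h2) ?_
    · rintro A - ⟨V, hV, hd⟩
      exact ⟨V, fun s _ => hV s, fun s _ t _ hst => hd s t hst⟩
    · exact prod_le_prod (fun s _ => nonneg_PrA Ω p0 (by linarith) _)
        fun s _ => hgood s _ (sub_GRec F S R U s)

end Pool.Agent.MP_6d294b_pr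

end
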