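import Pool.Agent.Mg.F6d294b.Gf2a008
import Pool.Agent.Mg.F6d294b.Gdbf881
import Pool.Agent.Mg.F6d294b.G28e636
import Pool.Agent.Mg.F6d294b.Gdc8984
import Pool.Agent.Mg.F6d294b.G5025c3

set_option linter.all false

section

open Finset

namespace Pool.Agent.MP_6d294b_pr

variable {D d : ℕ}

theorem mem_th_RLiftA (F : Fr D d) (t : Fin d) : t ∈ F.th ↔ ∀ i, F.io i ≠ t := by
  simp [Fr.th]

theorem th_eq_RLiftA (F : Fr D d) : F.th = (univ.map ⟨F.io, F.inj⟩)ᶜ := by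
  ext t
  simp [mem_th_RLiftA]

theorem prod_RLiftA {M : Type*} [CommMonoid M] (F : Fr D d) (f : Fin d → M) :
    ∏ t, f t = (∏ i, f (F.io i)) * ∏ t ∈ F.th, f t := by
  rw [th_eq_RLiftA, ← Finset.prod_mul_prod_compl (univ.map ⟨F.io, F.inj⟩) f, Finset.prod_map]
  rfl

theorem sum_RLiftA {M : Type*} [AddCommMonoid M] (F : Fr D d) (f : Fin d → M) :
    ∑ t, f t = (∑ i, f (F.io i)) + ∑ t ∈ F.th, f t := by
  rw [th_eq_RLiftA, ← Finset.sum_add_sum_compl (univ.map ⟨F.io, F.inj⟩) f, Finset.sum_map]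
  rfl

theorem lift_io_RLiftA (F : Fr D d) (B : Bx D) (i : Fin D) (b : Bool) :
    F.lift B (F.io i, b) = B (i, b) := by
  have h : ∃ j, F.io j = (F.io i, b).1 := ⟨i, rfl⟩
  unfold Fr.lift
  rw [dif_pos h]
  have : h.choose = i := F.inj h.choose_spec
  rw [this]

theorem lift_th_RLiftA (F : Fr D d) (B : Bx D) {t : Fin d} (ht : t ∈ F.th) (b : Bool) :
    F.lift B (t, b) = if b = F.ta t then F.c t else (F.k : ℤ) - 1 - F.c t := by
  have h : ¬ ∃ j, F.io j = (t, b).1 := fun ⟨j, hj⟩ => (mem_th_RLiftA F t).1 ht j hj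
  unfold Fr.lift
  rw [dif_neg h]

theorem dst_RLiftA (F : Fr D d) (x y : Pt d) :
    dst x y = dst (F.pp x) (F.pp y) + ∑ t ∈ F.th, (x t - y t).natAbs :=
  sum_RLiftA F _

theorem lev_RLiftA (F : Fr D d) (u v : Pt d) :
    F.lev (ptB u) ≤ F.lev (ptB v) + ((∑ t ∈ F.th, (u t - v t).natAbs : ℕ) : ℤ) := by
  unfold Fr.lev
  rw [Nat.cast_sum, ← Finset.sum_add_distrib]
  refine Finset.sum_le_sum fun t _ => ?_
  simp only [ptB, kap]
  split_ifs <;> omega

theorem rLiftA (h0 : RGap) : RLiftA := by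
  intro D d F
  have hc : D + F.th.card = d := by
    simpa using (sum_RLiftA F (fun _ => (1 : ℕ))).symm
  refine ⟨⟨by omega, by omega⟩, fun v => ?_, fun x => rfl, fun Q P => rfl,
    fun Q P h s => h _, fun P h i => h _, fun x P h s => h (F.io s.1, s.2), fun Q P => ?_,
    fun x y => ?_, fun P => sum_RLiftA F _, fun P => ?_, fun P h t ht => ?_, fun B P => ?_,
    fun B => ?_, fun Q P h => ⟨?_, fun hP t ht => ?_⟩, fun Q P hQ hP t ht => ?_,
    fun P h => ?_, fun u v h => ?_⟩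
  · unfold Fr.thr
    split_ifs <;> omega
  · unfold gap
    rw [Fintype.sum_prod_type, Fintype.sum_prod_type,
      sum_RLiftA F fun t => ∑ b, (- P (opp (t, b)) - Q (t, b)).toNat]
    exact Nat.le_add_right _ _
  · rw [dst_RLiftA F x y]
    exact Nat.le_add_right _ _
  · unfold volB
    rw [prod_RLiftA F fun t => ex P t + 1]
    exact Nat.le_mul_of_pos_right _ (Finset.prod_pos fun _ _ => Nat.succ_pos _)
  · obtain ⟨h1, h2⟩ := h t ht
    unfold ex
    cases hb : F.ta t <;> simp only [hb, Bool.not_false, Bool.not_true] at h1 h2 <;> omega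
  · constructor
    · intro h
      refine ⟨fun s => ?_, fun t ht => ⟨?_, ?_⟩⟩
      · have := h (F.io s.1, s.2)
        rwa [lift_io_RLiftA] at this
      · have := h (t, F.ta t)
        rwa [lift_th_RLiftA F B ht, if_pos rfl] at this
      · have := h (t, !F.ta t)
        rwa [lift_th_RLiftA F B ht, if_neg (by simp)] at this
    · rintro ⟨h1, h2⟩ ⟨t, b⟩
      by_cases ht : t ∈ F.th
      · rw [lift_th_RLiftA F B ht]
        obtain ⟨h3, h4⟩ := h2 t ht
        split_ifs with hb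
        · rw [hb]; exact h3
        · have : b = !F.ta t := by
            cases b <;> cases h5 : F.ta t <;> simp_all
          rw [this]; exact h4
      · rw [mem_th_RLiftA] at ht
        push Not at ht
        obtain ⟨i, rfl⟩ := ht
        rw [lift_io_RLiftA]
        exact h1 (i, b)
  · funext s
    exact lift_io_RLiftA F B s.1 s.2
  · exact Finset.sum_le_sum fun t _ => sub_le_sub_left (h _) _
  · exact ⟨(h _).trans (hP t ht).1, (h _).trans (hP t ht).2⟩
  · exact ⟨sup_le (hQ t ht).1 (hP t ht).1, sup_le (hQ t ht).2 (hP t ht).2⟩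
  · exact Finset.sum_nonneg fun t ht => sub_nonneg.2 (h t ht).1
  · have h1 := dst_RLiftA F u v
    have h2 := lev_RLiftA F u v
    have h3 := lev_RLiftA F v u
    have h4 : ∑ t ∈ F.th, (v t - u t).natAbs = ∑ t ∈ F.th, (u t - v t).natAbs :=
      Finset.sum_congr rfl fun t _ => by omega
    rw [h4] at h3
    refine ⟨by omega, ?_⟩
    by_cases h5 : dst (F.pp u) (F.pp v) = 0
    · left
      funext i
      have := (Finset.sum_eq_zero_iff.1 h5) i (mem_univ i)
      omega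
    · right
      exact ⟨by omega, by omega⟩

end Pool.Agent.MP_6d294b_pr

end

section

open Finset

namespace Pool.Agent.MP_6d294b_pr

theorem one_RLiftB {ι : Type} [DecidableEq ι] (S : Finset ι) (f : ι → ℤ) (h0 : ∀ t ∈ S, 0 ≤ f t)
    (h1 : ∑ t ∈ S, f t ≤ 1) : ∃ o ∈ insertNone S, ∀ t ∈ S, f t = if o = some t then 1 else 0 := by
  by_cases h : ∀ t ∈ S, f t = 0
  · exact ⟨none, none_mem_insertNone, fun t ht => by simp [h t ht]⟩
  push Not at h
  obtain ⟨u, hu, h⟩ := h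
  have a := h0 u hu
  have b : 0 ≤ ∑ t ∈ S.erase u, f t := sum_nonneg fun t ht => h0 t (mem_of_mem_erase ht)
  rw [← add_sum_erase S f hu] at h1
  refine ⟨some u, some_mem_insertNone.2 hu, fun t ht => ?_⟩
  by_cases e : u = t
  · subst e
    rw [if_pos rfl]
    omega
  · have c := single_le_sum (fun t ht => h0 t (mem_of_mem_erase ht))
      (mem_erase.2 ⟨fun e' => e e'.symm, ht⟩)
    have c0 := h0 t ht
    rw [if_neg (by simpa using e)]
    omega

theorem inj_RLiftB {D d : ℕ} (F : Fr D d) {x y : Pt d} (h : F.pp x = F.pp y)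
    (h' : ∀ t ∈ F.th, F.c t - ptB x (t, F.ta t) = F.c t - ptB y (t, F.ta t)) : x = y := by
  funext t
  by_cases e : ∃ i, F.io i = t
  · obtain ⟨i, rfl⟩ := e
    exact congrFun h i
  · have := h' t (by simpa [Fr.th] using e)
    simp only [ptB, kap] at this
    split_ifs at this <;> omega

theorem rLiftB (hO : SOld) (_h0 : RGap) (hL : RLiftA) : RLiftB := by
  intro D d F
  obtain ⟨-, -, -, hA, hB, -⟩ := hO
  have p2 : ∀ (K : ℕ) (B : Bx D), (∀ i, ex B i + 1 ≤ K) → 1 ≤ F.k →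
      (boxes (F.lift B)).card ≤ (K + F.k) ^ (2 * d) := by
    intro K B hK hk
    refine (hB d).1 _ _ fun i => ?_
    by_cases e : ∃ j, F.io j = i
    · have := hK e.choose
      simp only [ex, Fr.lift, dif_pos e] at this ⊢
      omega
    · simp only [ex, Fr.lift, dif_neg e]
      cases F.ta i <;> simp <;> omega
  refine ⟨fun P P' h => Fintype.piFinset_subset _ _ fun s =>
    Icc_subset_Icc (neg_le_neg (h _)) (h _), p2, fun a b T S B hS hSB u => ?_,
    fun a b T K S B hK hk => ?_, fun X Xp hX => ⟨fun h => ?_, fun h => ?_⟩⟩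
  · simp only [admS, mem_filter, mem_product, Fintype.mem_piFinset, mem_range, mem_univ, and_true,
      and_iff_right_iff_imp]
    rintro ⟨h1, h2, h3, h4, -⟩
    refine ⟨((hA d).2.2.2.1 _ _ h1
      (((hL D d F).2.2.2.2.2.2.2.2.2.2.2.2.1 B u.1).2 ⟨h3, h2⟩)).2.2.2.2, fun s => ?_⟩
    have e := ((hA D).2.2.2.1 S B hS hSB).2.2.2.1
    have c := single_le_sum (f := fun s => (B s - S s).toNat) (fun _ _ => Nat.zero_le _) (mem_univ s)
    have c3 : F.pr u.1 s ≤ B s := h3 s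
    by_cases z : u.2.1 s = 0
    · omega
    · have := h4 s z
      omega
  · unfold admS
    refine (@card_filter_le _ _ _ (_)).trans ?_
    rw [card_product, card_product, Fintype.card_piFinset, prod_const, card_range, card_univ,
      card_univ, Fintype.card_prod, Fintype.card_fin, Fintype.card_bool, mul_comm D 2]
    have c := p2 K B (fun i => le_trans (Nat.succ_le_succ
      (single_le_sum (f := ex B) (fun _ _ => Nat.zero_le _) (mem_univ i))) hK) hk
    calc _ ≤ (K + F.k) ^ (2 * d) * (K ^ (2 * D) * 2) := by gcongr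
      _ = _ := by ring
  · refine card_le_card_of_injOn F.pp (fun x hx => (hX x hx).2) fun x hx y hy e =>
      inj_RLiftB F e fun t ht => ?_
    have k : ∀ x ∈ X, F.c t - ptB x (t, F.ta t) = 0 := fun x hx =>
      le_antisymm ((single_le_sum (f := fun t => F.c t - ptB x (t, F.ta t))
        (fun t ht => sub_nonneg.2 ((hX x hx).1 t ht).1) ht).trans (h x hx))
        (sub_nonneg.2 ((hX x hx).1 t ht).1)
    rw [k x hx, k y hy]
  · choose! g g1 g2 using fun x (hx : x ∈ X) => one_RLiftB F.th (fun t => F.c t - ptB x (t, F.ta t))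
      (fun t ht => sub_nonneg.2 ((hX x hx).1 t ht).1) (h x hx)
    rw [← (hL D d F).1.1, ← card_insertNone, ← card_product]
    refine card_le_card_of_injOn (fun x => (g x, F.pp x))
      (fun x hx => mem_coe.2 (mem_product.2 ⟨g1 x hx, (hX x hx).2⟩)) fun x hx y hy e => ?_
    obtain ⟨e1, e2⟩ := Prod.mk.inj e
    exact inj_RLiftB F e2 fun t ht => by rw [g2 x hx t ht, g2 y hy t ht, e1]

end Pool.Agent.MP_6d294b_pr

end

section

open Finset

namespace Pool.Agent.MP_6d294b_pr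

theorem single_RLowC {d : ℕ} (f : Fin d → ℤ) (h0 : ∀ t, 0 ≤ f t) (h1 : ∑ t, f t ≤ 1) :
    f ∈ insert (0 : Fin d → ℤ) (univ.image fun t => (Pi.single t 1 : Fin d → ℤ)) := by
  rw [mem_insert, mem_image]
  by_cases hf : f = 0
  · exact Or.inl hf
  obtain ⟨t, ht⟩ := Function.ne_iff.1 hf
  have ht' : f t ≠ 0 := ht
  refine Or.inr ⟨t, mem_univ t, funext fun s => ?_⟩
  rw [← add_sum_erase _ _ (mem_univ t)] at h1
  have h2 : 0 ≤ ∑ x ∈ univ.erase t, f x := sum_nonneg fun x _ => h0 x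
  have h3 := h0 t
  by_cases hs : s = t
  · rw [hs, Pi.single_eq_same]; omega
  · rw [Pi.single_eq_of_ne hs]
    have h4 : f s ≤ ∑ x ∈ univ.erase t, f x :=
      single_le_sum (fun x _ => h0 x) (mem_erase.2 ⟨hs, mem_univ s⟩)
    have := h0 s
    omega

theorem geo_RLowC {ρ : ℝ} (h0 : 0 ≤ ρ) (h1 : ρ ≤ 1 / 2) (n : ℕ) : ∑ j ∈ range n, ρ ^ j ≤ 2 :=
  (sum_le_sum fun j _ => pow_le_pow_left₀ h0 h1 j).trans (sum_geometric_two_le n)

theorem rLowC (hL : RLiftA) : RLowC := by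
  intro D d F Pp ρ X h0 h1 hX
  obtain ⟨-, -, -, -, -, -, -, -, -, hpsi, -, hex, -⟩ := hL D d F
  set φ : Bx d → (Fin d → ℤ) × (Fin d → ℕ) := fun P =>
    (fun t => if t ∈ F.th then F.c t - P (t, F.ta t) else 0,
      fun t => if t ∈ F.th then ex P t else 0) with hφ
  set O : Finset (Fin d → ℤ) :=
    insert (0 : Fin d → ℤ) (univ.image fun t => (Pi.single t 1 : Fin d → ℤ)) with hO
  have hOc : (O.card : ℝ) ≤ d + 1 := by
    have : O.card ≤ d + 1 :=
      (card_insert_le _ _).trans (Nat.succ_le_succ (card_image_le.trans (by simp)))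
    exact_mod_cast this
  have hinj : Set.InjOn φ X := by
    intro P hP Q hQ e
    have e1 := congrArg Prod.fst e
    have e2 := congrArg Prod.snd e
    funext ⟨t, b⟩
    by_cases ht : t ∈ F.th
    · have a1 := congrFun e1 t
      have a2 := congrFun e2 t
      simp only [hφ, if_pos ht, ex] at a1 a2
      have a3 := (hX P hP).1 t
      have a4 := (hX Q hQ).1 t
      cases hta : F.ta t <;> rw [hta] at a1 <;> cases b <;> omega
    · simp only [Fr.th, mem_filter, mem_univ, true_and, not_forall, not_not] at ht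
      obtain ⟨i, rfl⟩ := ht
      exact (congrFun (hX P hP).2.2.2 (i, b)).trans (congrFun (hX Q hQ).2.2.2 (i, b)).symm
  have hmap : X.image φ ⊆ O ×ˢ Fintype.piFinset fun _ : Fin d => range (F.k + 1) := by
    intro z hz
    obtain ⟨P, hP, rfl⟩ := mem_image.1 hz
    refine mem_product.2 ⟨single_RLowC _ (fun t => ?_) ?_, Fintype.mem_piFinset.2 fun t => ?_⟩
    · simp only [hφ]
      split_ifs with ht
      · exact sub_nonneg.2 ((hX P hP).2.1 t ht).1
      · exact le_rfl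
    · simp only [hφ]
      rw [sum_ite_mem, univ_inter]
      exact (hX P hP).2.2.1
    · simp only [hφ]
      rw [mem_range]
      split_ifs with ht
      · have := hex P (hX P hP).2.1 t ht
        omega
      · omega
  calc ∑ P ∈ X, ρ ^ psi P = ∑ P ∈ X, (∏ t, ρ ^ (φ P).2 t) * ρ ^ psi Pp := by
        refine sum_congr rfl fun P hP => ?_
        rw [prod_pow_eq_pow_sum, ← pow_add, hpsi P, (hX P hP).2.2.2, add_comm]
        simp only [hφ]
        rw [sum_ite_mem, univ_inter]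
    _ = (∑ z ∈ X.image φ, ∏ t, ρ ^ z.2 t) * ρ ^ psi Pp := by
        rw [sum_image hinj, sum_mul]
    _ ≤ _ := by
        refine mul_le_mul_of_nonneg_right ?_ (pow_nonneg h0 _)
        refine (sum_le_sum_of_subset_of_nonneg hmap fun z _ _ =>
          prod_nonneg fun t _ => pow_nonneg h0 _).trans ?_
        rw [sum_product]
        simp only
        rw [sum_const, nsmul_eq_mul, ← prod_univ_sum (fun _ : Fin d => range (F.k + 1))
          (fun _ j => ρ ^ j)]
        refine mul_le_mul hOc ?_ (prod_nonneg fun _ _ => sum_nonneg fun _ _ => pow_nonneg h0 _)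
          (by positivity)
        refine (prod_le_prod (g := fun _ => (2 : ℝ))
          (fun _ _ => sum_nonneg fun _ _ => pow_nonneg h0 _)
          fun _ _ => geo_RLowC h0 h1 _).trans (by simp)

end Pool.Agent.MP_6d294b_pr

end

section

open Finset

namespace Pool.Agent.MP_6d294b_pr

theorem bz_eq_RDer (k : ℕ) (t : ℝ) : bz k t = 1 / 2 - Real.exp (- t) ^ k / 2 +
    Real.sqrt (1 + (2 - 4 * Real.exp (- t)) * Real.exp (- t) ^ k + (Real.exp (- t) ^ k) ^ 2) / 2 := by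
  unfold bz betk
  rw [sub_sub_cancel, mul_comm 2 k, pow_mul]
  congr 3
  ring

theorem rDer (hb : RBet) : RDer := by
  have _h := hb
  intro k hk z hz
  have hy : HasDerivAt (fun t : ℝ => Real.exp (- t)) (- Real.exp (- z)) z := by
    simpa using (hasDerivAt_neg z).exp
  have hs : HasDerivAt (fun t : ℝ => Real.exp (- t) ^ k) (- (k * Real.exp (- z) ^ k)) z := by
    have e : (fun t : ℝ => Real.exp (- t) ^ k) = fun t => Real.exp (k * - t) := by
      funext t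
      rw [Real.exp_nat_mul]
    rw [e, ← Real.exp_nat_mul]
    refine ((hasDerivAt_neg z).const_mul (k : ℝ)).exp.congr_deriv ?_
    ring
  have y0 : 0 < Real.exp (- z) := Real.exp_pos _
  have y1 : Real.exp (- z) < 1 := Real.exp_lt_one_iff.2 (by linarith)
  have s0 : 0 < Real.exp (- z) ^ k := pow_pos y0 k
  have s1 : Real.exp (- z) ^ k < 1 := pow_lt_one₀ y0.le y1 (by omega)
  have hD := (((hy.const_mul 4).const_sub 2).mul hs).const_add 1 |>.add (hs.pow 2)
  have D0 : (1 - Real.exp (- z) ^ k) ^ 2 ≤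
      1 + (2 - 4 * Real.exp (- z)) * Real.exp (- z) ^ k + (Real.exp (- z) ^ k) ^ 2 := by
    nlinarith [mul_pos s0 (sub_pos.2 y1)]
  have D1 : 0 < 1 + (2 - 4 * Real.exp (- z)) * Real.exp (- z) ^ k + (Real.exp (- z) ^ k) ^ 2 :=
    lt_of_lt_of_le (pow_pos (sub_pos.2 s1) 2) D0
  have hB := ((hs.div_const 2).const_sub (1 / 2)).add ((hD.sqrt D1.ne').div_const 2)
  have eb := bz_eq_RDer k z
  have q2 := Real.sq_sqrt D1.le
  have q0 := Real.sqrt_pos.2 D1
  have q1 := Real.le_sqrt_of_sq_le D0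
  have ed : dl k z = Real.sqrt (1 + (2 - 4 * Real.exp (- z)) * Real.exp (- z) ^ k +
      (Real.exp (- z) ^ k) ^ 2) := by
    unfold dl
    rw [eb]
    ring
  have b0 : 0 < bz k z := by rw [eb]; linarith
  have hB' : HasDerivAt (bz k) (- mkk k z * bz k z) z := by
    have e : bz k = fun t => 1 / 2 - Real.exp (- t) ^ k / 2 + Real.sqrt (1 + (2 - 4 * Real.exp (- t)) *
        Real.exp (- t) ^ k + (Real.exp (- t) ^ k) ^ 2) / 2 := funext (bz_eq_RDer k)
    have e2 : - mkk k z * bz k z =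
        (k * (1 - bz k z) * bz k z + Real.exp (- z) ^ k * Real.exp (- z)) / dl k z := by
      have : dl k z ≠ 0 := by rw [ed]; exact q0.ne'
      unfold mkk
      rw [pow_succ]
      field_simp
    rw [e2, ed, eb, e]
    refine hB.congr_deriv ?_
    simp only [Pi.add_apply, Pi.mul_apply, Pi.pow_apply]
    generalize Real.sqrt (1 + (2 - 4 * Real.exp (- z)) * Real.exp (- z) ^ k +
      (Real.exp (- z) ^ k) ^ 2) = q at *
    generalize Real.exp (- z) ^ k = s at *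
    field_simp
    push_cast
    linear_combination (k : ℝ) * q2
  refine ⟨?_, hB', b0, by rw [ed, eb]; linarith, by rw [ed, q2]; ring⟩
  refine (hB'.log b0.ne').neg.congr_deriv ?_
  field_simp

end Pool.Agent.MP_6d294b_pr

end

section

open Finset

namespace Pool.Agent.MP_6d294b_pr

theorem val_FPathA {d : ℕ} {S R : Bx d} (h : Val S) (hSR : S ≤ R) : Val R := fun i => by
  have h1 := h i
  have h2 : S (i, true) ≤ R (i, true) := hSR (i, true)
  have h3 : S (i, false) ≤ R (i, false) := hSR (i, false)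
  omega

theorem ex_FPathA {d : ℕ} {S R : Bx d} (hSR : S ≤ R) (i : Fin d) : ex S i ≤ ex R i := by
  have h2 : S (i, true) ≤ R (i, true) := hSR (i, true)
  have h3 : S (i, false) ≤ R (i, false) := hSR (i, false)
  unfold ex
  omega

theorem le_out_FPathA {d : ℕ} (m : ℕ → ℕ) {R z : Bx d} (h : z ≤ R) : z ≤ outB m R z := fun s => by
  have h1 : z s ≤ R s := h s
  show z s ≤ min (R s) (z s + m (ex z s.1))
  omega

theorem out_le_FPathA {d : ℕ} (m : ℕ → ℕ) (R z : Bx d) : outB m R z ≤ R := fun _ =>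
  min_le_left _ _

theorem step_FPathA {d : ℕ} (m : ℕ → ℕ) {R z : Bx d} (h : z ≤ R) (s : Sd d) :
    z ≤ Function.update z s (outB m R z s) ∧ Function.update z s (outB m R z s) ≤ R := by
  constructor
  · intro t
    by_cases ht : t = s
    · rw [ht, Function.update_self]
      exact le_out_FPathA m h s
    · rw [Function.update_of_ne ht]
  · intro t
    by_cases ht : t = s
    · rw [ht, Function.update_self]
      exact out_le_FPathA m R z s
    · rw [Function.update_of_ne ht]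
      exact h t

theorem tPathA : TPathA := by
  intro d m S R M z hm hS hSR ⟨h0, hM, hz⟩
  have hR : ∀ t, z t ≤ R := by
    intro t
    induction t with
    | zero => rw [h0]; exact hSR
    | succ t ih =>
      obtain ⟨s, hs⟩ := hz t
      rw [hs]
      exact (step_FPathA m ih s).2
  have hmono : Monotone z := monotone_nat_of_le_succ fun t => by
    obtain ⟨s, hs⟩ := hz t
    rw [hs]
    exact (step_FPathA m (hR t) s).1
  have hS' : ∀ t, S ≤ z t := fun t => h0 ▸ hmono (Nat.zero_le t)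
  have hne : ∀ s j, {t : ℕ | j ≤ z (t + 1) s ∨ M ≤ t}.Nonempty := fun s j => ⟨M, Or.inr le_rfl⟩
  have hmem : ∀ s j, j ≤ z (tm z M s j + 1) s ∨ M ≤ tm z M s j := fun s j =>
    Nat.sInf_mem (hne s j)
  refine ⟨hmono, fun t => ⟨hS' t, hR t, val_FPathA hS (hS' t)⟩, fun a b hab s => ?_,
    fun t => ⟨le_out_FPathA m (hR t), out_le_FPathA m R _, fun s => min_le_right _ _,
      fun e i => ?_⟩, fun s a b hab => ?_, fun s j => Nat.sInf_le (Or.inr le_rfl),
    fun s j τ h1 h2 => ?_, fun s j h1 => ?_, fun s j τ h1 h2 => ?_⟩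
  · have h1 : z a s ≤ z b s := hmono hab s
    have h2 := hm (ex_FPathA (hmono hab) s.1)
    simp only [outB]
    omega
  · have h1 := val_FPathA hS (hS' t) i
    simp only [ex, outB] at h1 ⊢
    omega
  · refine Nat.sInf_le ?_
    rcases hmem s b with h | h
    · exact Or.inl (hab.trans h)
    · exact Or.inr h
  · by_contra h3
    rcases hmem s j with h | h
    · have h4 : z (tm z M s j + 1) s ≤ z τ s := hmono (show tm z M s j + 1 ≤ τ by omega) s
      omega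
    · omega
  · rcases hmem s j with h | h
    · exact h
    · have h4 := hmono (show M ≤ tm z M s j + 1 by omega) s
      rw [hM] at h4
      exact h1.trans h4
  · cases τ with
    | zero =>
      rw [h0] at h2
      omega
    | succ τ => exact Nat.lt_succ_of_le (Nat.sInf_le (Or.inl h2))

end Pool.Agent.MP_6d294b_pr

end

section

open Finset

namespace Pool.Agent.MP_6d294b_pr

theorem many_FPathC {d : ℕ} {c : (Fin d → ℕ) → Fin d → ℝ} {Φ : (Fin d → ℕ) → ℝ}
    (h1 : ∀ y i, Φ (y + Pi.single i 1) ≤ Φ y + c y i) (h2 : ∀ i, Antitone fun y => c y i)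
    (y : Fin d → ℕ) (i : Fin d) (D : ℕ) : Φ (y + Pi.single i D) ≤ Φ y + D * c y i := by
  induction D with
  | zero => simp
  | succ D ih =>
    have h3 := h1 (y + Pi.single i D) i
    have h4 : c (y + Pi.single i D) i ≤ c y i := h2 i le_self_add
    rw [Pi.single_add, ← add_assoc]
    push_cast
    linarith

theorem ex_FPathC {d : ℕ} {z : Bx d} (hz : Val z) (s : Sd d) {a : ℤ} (ha : z s ≤ a) :
    ex (Function.update z s a) = ex z + Pi.single s.1 (a - z s).toNat := by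
  funext i
  obtain ⟨k, b⟩ := s
  have h1 := hz i
  by_cases hi : i = k
  · subst hi
    cases b
    · simp only [ex, Pi.add_apply, Pi.single_eq_same, Function.update_self,
        Function.update_of_ne (show ((i, true) : Sd d) ≠ (i, false) by simp)]
      omega
    · simp only [ex, Pi.add_apply, Pi.single_eq_same, Function.update_self,
        Function.update_of_ne (show ((i, false) : Sd d) ≠ (i, true) by simp)]
      omega
  · simp only [ex, Pi.add_apply, Pi.single_eq_of_ne hi, add_zero,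
      Function.update_of_ne (show ((i, true) : Sd d) ≠ (k, b) by simp [hi]),
      Function.update_of_ne (show ((i, false) : Sd d) ≠ (k, b) by simp [hi])]

theorem tPathC (h5 : TPathA) : TPathC := by
  intro d m S R M z c Φ hm hS hSR hp h1 h2
  obtain ⟨-, a2, -, a4, -, -, a7, -, a9⟩ := h5 d m S R M z hm hS hSR hp
  have key : ∀ t, t ≤ M → Φ (ex (z t)) ≤
      Φ (ex S) + ∑ s : Sd d, ∑ j ∈ Ioc (S s) (z t s), c (ex (z (tm z M s j))) s.1 := by
    intro t
    induction t with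
    | zero =>
      intro _
      rw [hp.1]
      simp
    | succ t ih =>
      intro ht
      obtain ⟨s, hs⟩ := hp.2.2 t
      have b1 : z t s ≤ outB m R (z t) s := (a4 t).1 s
      have b2 : z (t + 1) s = outB m R (z t) s := by rw [hs, Function.update_self]
      have b3 := many_FPathC h1 h2 (ex (z t)) s.1 (outB m R (z t) s - z t s).toNat
      rw [← ex_FPathC (a2 t).2.2 s b1, ← hs] at b3
      have b4 : ∑ j ∈ Ioc (S s) (z (t + 1) s), c (ex (z (tm z M s j))) s.1 =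
          ∑ j ∈ Ioc (S s) (z t s), c (ex (z (tm z M s j))) s.1 +
            ((outB m R (z t) s - z t s).toNat : ℝ) * c (ex (z t)) s.1 := by
        rw [← Ioc_union_Ioc_eq_Ioc ((a2 t).1 s) (b2 ▸ b1 : z t s ≤ z (t + 1) s),
          sum_union (Ioc_disjoint_Ioc_of_le le_rfl), ← b2, ← Int.card_Ioc, ← nsmul_eq_mul,
          ← sum_const]
        congr 1
        refine sum_congr rfl fun j hj => ?_
        obtain ⟨c1, c2⟩ := mem_Ioc.mp hj
        have c3 := a7 s j t (Nat.le_of_succ_le ht) c1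
        have c4 := a9 s j (t + 1) (lt_of_le_of_lt ((a2 t).1 s) c1) c2
        rw [show tm z M s j = t by omega]
      have b5 : ∑ u ∈ univ.erase s, ∑ j ∈ Ioc (S u) (z (t + 1) u), c (ex (z (tm z M u j))) u.1 =
          ∑ u ∈ univ.erase s, ∑ j ∈ Ioc (S u) (z t u), c (ex (z (tm z M u j))) u.1 :=
        sum_congr rfl fun u hu => by rw [hs, Function.update_of_ne (ne_of_mem_erase hu)]
      have b6 := ih (Nat.le_of_succ_le ht)
      rw [← add_sum_erase univ _ (mem_univ s)] at b6 ⊢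
      rw [b4, b5]
      linarith
  have := key M le_rfl
  rwa [hp.2.1] at this

end Pool.Agent.MP_6d294b_pr

end

section

open Finset

namespace Pool.Agent.MP_6d294b_pr

variable {d : ℕ}

noncomputable def pot_FPotA (c : (Fin d → ℕ) → Fin d → ℝ) : ℕ → (Fin d → ℕ) → ℝ
  | 0, _ => 0
  | k + 1, y => if h : (univ.filter (fun i => y i ≠ 0)).Nonempty then
      (univ.filter (fun i => y i ≠ 0)).inf' h
        (fun i => pot_FPotA c k (y - Pi.single i 1) + c (y - Pi.single i 1) i) else 0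

lemma exists_FPotA (c : (Fin d → ℕ) → Fin d → ℝ) : ∃ Φ : (Fin d → ℕ) → ℝ, IsPot2 c Φ := by
  refine ⟨fun y => pot_FPotA c (∑ j, y j) y, by simp [pot_FPotA], fun y i => ?_, fun y hy => ?_⟩
  · have hi : i ∈ univ.filter (fun j => (y + Pi.single i 1 : Fin d → ℕ) j ≠ 0) := by simp
    have hne : (univ.filter (fun j => (y + Pi.single i 1 : Fin d → ℕ) j ≠ 0)).Nonempty := ⟨i, hi⟩
    simp only [sum_single_PotA, pot_FPotA]
    rw [dif_pos hne]
    refine le_trans (Finset.inf'_le _ hi) (le_of_eq ?_)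
    rw [add_tsub_cancel_right]
  · have hne : (univ.filter (fun i => y i ≠ 0)).Nonempty := by
      obtain ⟨i, hi⟩ := Function.ne_iff.1 hy
      exact ⟨i, mem_filter.2 ⟨mem_univ _, hi⟩⟩
    obtain ⟨i, hi, he⟩ := Finset.exists_mem_eq_inf' hne (fun i =>
      pot_FPotA c (∑ j, y j - 1) (y - Pi.single i 1) + c (y - Pi.single i 1) i)
    have hi' := (mem_filter.1 hi).2
    have hs := sum_single_PotA (y - Pi.single i 1) i
    rw [← split_PotA hi'] at hs
    refine ⟨y - Pi.single i 1, i, split_PotA hi', ?_⟩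
    have e1 : ∑ j, y j - 1 = ∑ j, (y - Pi.single i 1 : Fin d → ℕ) j := by omega
    rw [e1] at he
    simp only [hs, pot_FPotA, dif_pos hne]
    exact he

lemma p1_FPotA {c : (Fin d → ℕ) → Fin d → ℝ} {Φ : (Fin d → ℕ) → ℝ} (hΦ : IsPot2 c Φ)
    (hG : ∀ i, Antitone fun y => c y i)
    (a y : Fin d → ℕ) (h : a ≤ y) : Φ y ≤ Φ a + ∑ i, ((y i - a i : ℕ) : ℝ) * c a i := by
  have key : ∀ z : Fin d → ℕ, Φ (a + z) ≤ Φ a + ∑ i, (z i : ℝ) * c a i := by
    refine ind_PotA _ (by simp) fun z i ih => ?_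
    have h1 := hΦ.2.1 (a + z) i
    have h2 : c (a + z) i ≤ c a i := hG i le_self_add
    have h3 : ∑ j, (((z + Pi.single i 1 : Fin d → ℕ) j : ℕ) : ℝ) * c a j =
        ∑ j, (z j : ℝ) * c a j + c a i := by
      simp [add_mul, Finset.sum_add_distrib, Pi.single_apply]
    rw [← add_assoc, h3]
    linarith
  have := key (y - a)
  rwa [add_tsub_cancel_of_le h] at this

theorem tPotA : TPotA := by
  intro d c
  refine ⟨exists_FPotA c, fun Φ c₀ hΦ hG hc c0 => ⟨p1_FPotA hΦ hG, fun y => ?_, ?_⟩⟩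
  · have h := p1_FPotA hΦ hG 0 y bot_le
    rw [hΦ.1, zero_add] at h
    refine h.trans ?_
    rw [Nat.cast_sum, Finset.sum_mul]
    exact Finset.sum_le_sum fun i _ => mul_le_mul_of_nonneg_left (hc _ _).2 (Nat.cast_nonneg _)
  · intro a b y M γ hay hby h2 hγ hM hk
    have key : ∀ n, ∀ z : Fin d → ℕ, ∑ j, z j = n → z ≤ y →
        Φ (fun i => min (a i + z i) (y i)) ≤ Φ a + Φ z - γ * (min n M : ℕ) := by
      intro n
      induction n with
      | zero =>
        intro z hz _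
        have : z = 0 := funext fun j => (Finset.sum_eq_zero_iff.1 hz) j (mem_univ j)
        subst this
        have e : (fun i => min (a i + (0 : Fin d → ℕ) i) (y i)) = a :=
          funext fun i => by simpa using hay i
        rw [e, hΦ.1]; simp
      | succ n ih =>
        intro z hz hzy
        obtain ⟨z', i, rfl, hΦz⟩ := hΦ.2.2 z (by rintro rfl; simp at hz)
        rw [sum_single_PotA] at hz
        have hz' : z' ≤ y := le_self_add.trans hzy
        have ih' := ih z' (by omega) hz'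
        have l1 : a ≤ fun j => min (a j + z' j) (y j) :=
          fun j => le_min (Nat.le_add_right _ _) (hay j)
        have l2 : z' ≤ fun j => min (a j + z' j) (y j) :=
          fun j => le_min (Nat.le_add_left _ _) (hz' j)
        have d2 : c (fun j => min (a j + z' j) (y j)) i ≤ c z' i := hG i l2
        have step : Φ (fun j => min (a j + (z' + Pi.single i 1 : Fin d → ℕ) j) (y j)) ≤
            Φ (fun j => min (a j + z' j) (y j)) + c (fun j => min (a j + z' j) (y j)) i := by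
          by_cases hlt : a i + z' i < y i
          · refine le_trans (le_of_eq (congrArg Φ (funext fun j => ?_))) (hΦ.2.1 _ i)
            by_cases hj : j = i
            · subst hj; simp; omega
            · simp [hj]
          · refine le_trans (le_of_eq (congrArg Φ (funext fun j => ?_)))
              (le_add_of_nonneg_right (hc _ _).1)
            by_cases hj : j = i
            · subst hj; simp; omega
            · simp [hj]
        rw [hΦz]
        by_cases hn : n < M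
        · have h3 := hk i z' _ (by omega) l2 l1
          rw [min_eq_left hn.le] at ih'
          rw [min_eq_left (Nat.succ_le_of_lt hn)]
          push_cast
          linarith
        · rw [min_eq_right (not_lt.1 hn)] at ih'
          rw [min_eq_right (by omega)]
          linarith
    have k1 := key _ b rfl hby
    rw [min_eq_right hM] at k1
    have k2 := p1_FPotA hΦ hG (fun i => min (a i + b i) (y i)) y (fun i => min_le_right _ _)
    have k3 : ∑ i, ((y i - min (a i + b i) (y i) : ℕ) : ℝ) *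
        c (fun i => min (a i + b i) (y i)) i ≤ 2 * c₀ := by
      calc _ ≤ ∑ i, ((y i - (a i + b i) : ℕ) : ℝ) * c₀ := by
            refine Finset.sum_le_sum fun i _ => ?_
            rw [show y i - min (a i + b i) (y i) = y i - (a i + b i) by omega]
            exact mul_le_mul_of_nonneg_left (hc _ _).2 (Nat.cast_nonneg _)
        _ = ((∑ i, (y i - (a i + b i)) : ℕ) : ℝ) * c₀ := by rw [Nat.cast_sum, Finset.sum_mul]
        _ ≤ 2 * c₀ := mul_le_mul_of_nonneg_right (by exact_mod_cast h2) c0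
    linarith

end Pool.Agent.MP_6d294b_pr

end

section

open Finset

namespace Pool.Agent.MP_6d294b_pr

noncomputable def W_FPotB (d : ℕ) (v : ℝ) (t : ℕ) : ℝ := (((t : ℝ) + d * v) / d) ^ d

theorem W_succ_FPotB (d : ℕ) (v : ℝ) (t : ℕ) :
    W_FPotB d v (t + 1) = W_FPotB d v t + Dd d v t := by
  unfold W_FPotB Dd
  push_cast
  ring

theorem D_bd_FPotB (d : ℕ) (v : ℝ) (hd : 1 ≤ d) (hv : 0 < v) (t : ℕ) :
    (((t : ℝ) + d * v) / d) ^ (d - 1) ≤ Dd d v t ∧
      Dd d v t ≤ (((t : ℝ) + 1 + d * v) / d) ^ (d - 1) := by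
  obtain ⟨n, rfl⟩ : ∃ n, d = n + 1 := ⟨d - 1, by omega⟩
  have hn : (0 : ℝ) < n + 1 := by positivity
  have h := pow_bd_PotB (((t : ℝ) + 1 + (n + 1) * v) / (n + 1)) (((t : ℝ) + (n + 1) * v) / (n + 1))
    (by positivity) (div_le_div_of_nonneg_right (by linarith) hn.le) n
  have e : ((t : ℝ) + 1 + (n + 1) * v) / (n + 1) - ((t : ℝ) + (n + 1) * v) / (n + 1) =
      1 / (n + 1) := by
    ring
  have e2 : ∀ x : ℝ, ((n : ℝ) + 1) * x * (1 / (n + 1)) = x := by
    intro x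
    field_simp
  rw [e, e2, e2] at h
  unfold Dd
  simp only [Nat.add_sub_cancel]
  push_cast
  exact h

theorem D_pos_FPotB (d : ℕ) (v : ℝ) (hd : 1 ≤ d) (hv : 0 < v) (t : ℕ) : 0 < Dd d v t := by
  have : (0 : ℝ) < d := by exact_mod_cast hd
  exact lt_of_lt_of_le (by positivity) (D_bd_FPotB d v hd hv t).1

theorem D_mono_FPotB (d : ℕ) (v : ℝ) (hd : 1 ≤ d) (hv : 0 < v) (t : ℕ) :
    Dd d v t ≤ Dd d v (t + 1) := by
  refine le_trans (D_bd_FPotB d v hd hv t).2 (le_trans (le_of_eq ?_) (D_bd_FPotB d v hd hv _).1)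
  push_cast
  rfl

theorem amgm_FPotB (d : ℕ) (v : ℝ) (hd : 1 ≤ d) (hv : 0 < v) (y : Fin d → ℕ) :
    ∏ i, ((y i : ℝ) + v) ≤ W_FPotB d v (∑ i, y i) := by
  set μ : ℝ := (((∑ i, y i : ℕ) : ℝ) + d * v) / d with hμ
  have hn : (0 : ℝ) < d := by exact_mod_cast hd
  have hμ0 : 0 < μ := by positivity
  have h1 : ∏ i, ((y i : ℝ) + v) ≤ ∏ i, (μ * Real.exp (((y i : ℝ) + v) / μ - 1)) := by
    refine prod_le_prod (fun i _ => by positivity) (fun i _ => ?_)
    have := Real.add_one_le_exp (((y i : ℝ) + v) / μ - 1)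
    calc (y i : ℝ) + v = μ * (((y i : ℝ) + v) / μ - 1 + 1) := by field_simp; ring
      _ ≤ _ := mul_le_mul_of_nonneg_left this hμ0.le
  refine le_trans h1 (le_of_eq ?_)
  rw [prod_mul_distrib, ← Real.exp_sum, prod_const, card_univ, Fintype.card_fin]
  have h2 : ∑ i, (((y i : ℝ) + v) / μ - 1) = 0 := by
    rw [sum_sub_distrib, ← sum_div, sum_add_distrib]
    simp only [sum_const, card_univ, Fintype.card_fin, nsmul_eq_mul, mul_one]
    have h3 : ∑ i, (y i : ℝ) + (d : ℝ) * v = μ * d := by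
      rw [hμ]
      push_cast
      field_simp
    rw [h3]
    field_simp
    ring
  rw [h2, Real.exp_zero, mul_one]
  rfl

theorem prod_step_FPotB {d : ℕ} (v : ℝ) (y : Fin d → ℕ) (i : Fin d) :
    ∏ j, ((((y + Pi.single i 1 : Fin d → ℕ) j : ℕ) : ℝ) + v) =
      ∏ j, ((y j : ℝ) + v) + ∏ j ∈ univ.erase i, ((y j : ℝ) + v) := by
  rw [← mul_prod_erase univ _ (mem_univ i), ← mul_prod_erase univ (fun j => (y j : ℝ) + v)
    (mem_univ i)]
  have h : ∏ j ∈ univ.erase i, ((((y + Pi.single i 1 : Fin d → ℕ) j : ℕ) : ℝ) + v) =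
      ∏ j ∈ univ.erase i, ((y j : ℝ) + v) := by
    refine prod_congr rfl fun j hj => ?_
    simp [Pi.single_eq_of_ne (mem_erase.1 hj).1]
  rw [h]
  simp only [Pi.add_apply, Pi.single_eq_same]
  push_cast
  ring

theorem tPotB : TPotB := by
  intro d v hd hv
  refine ⟨D_bd_FPotB d v hd hv, fun c Φ H m l N hΦ hm hm0 hc y hyN => ?_⟩
  have key : ∀ s : ℕ, s ≤ N → ∀ y : Fin d → ℕ, ∑ i, y i = s →
      ∑ t ∈ range s, (H (Dd d v t) - l t) +
        m (Dd d v s) * (∏ i, ((y i : ℝ) + v) - W_FPotB d v s) ≤ Φ y := by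
    intro s
    induction s with
    | zero =>
      intro _ y hy
      have h0 : y = 0 := by
        funext i
        exact (sum_eq_zero_iff.1 hy) i (mem_univ i)
      subst h0
      have hn : (d : ℝ) ≠ 0 := by positivity
      simp [hΦ.1, W_FPotB, mul_div_cancel_left₀ _ hn]
    | succ s ih =>
      intro hsN y hy
      have hy0 : y ≠ 0 := by
        rintro rfl
        simp at hy
      obtain ⟨y', i, rfl, hΦy⟩ := hΦ.2.2 y hy0
      have hs : ∑ j, y' j = s := by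
        simp only [Pi.add_apply, sum_add_distrib] at hy
        rw [Finset.sum_pi_single'] at hy
        simp at hy
        exact hy
      have h1 := ih (by omega) y' hs
      have h2 := hc y' i (by omega)
      rw [hs] at h2
      have h3 := amgm_FPotB d v hd hv (y' + Pi.single i 1)
      rw [hy] at h3
      have h4 := hm _ _ (D_pos_FPotB d v hd hv s) (D_mono_FPotB d v hd hv s)
      have h5 := mul_le_mul_of_nonpos_right h4 (sub_nonpos.2 h3)
      rw [sum_range_succ, hΦy]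
      rw [prod_step_FPotB, W_succ_FPotB] at h5 ⊢
      nlinarith
  have h1 := key _ hyN y rfl
  have h2 := mul_nonneg_of_nonpos_of_nonpos (hm0 _ (D_pos_FPotB d v hd hv (∑ i, y i)))
    (sub_nonpos.2 (amgm_FPotB d v hd hv y))
  linarith

end Pool.Agent.MP_6d294b_pr

end

section

namespace Pool.Agent.MP_6d294b_pr

theorem bPrA : SPrA := sPrA
theorem bPrB : SPrB := sPrB sPrA
theorem bBK : SBK := sBK sPrA
theorem bGeoA : SGeoA := sGeoA
theorem bGeoB : SGeoB := sGeoB sGeoA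
theorem bSeed : SSeed := sSeed sPrA sGeoA bGeoB
theorem bOld : SOld := ⟨bPrA, bPrB, bBK, bGeoA, bGeoB, bSeed, sWsum sGeoA, sPotA, sPotB⟩
theorem bGap : RGap := rGap bOld
theorem bFill : RFill := rFill bOld bGap
theorem bLiftA : RLiftA := rLiftA bGap
theorem bLiftB : RLiftB := rLiftB bOld bGap bLiftA
theorem bLowC : RLowC := rLowC bLiftA
theorem bBoxC : RBoxC := rBoxC bOld bGap
theorem bUni : RUni := rUni bOld bFill bBoxC
theorem bBet : RBet := rBet
theorem bDer : RDer := rDer rBet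
theorem bConv : RConv := rConv rBet bDer
theorem bSlope : RSlope := rSlope rBet bDer bConv
theorem bInt : RInt := rInt
theorem bTrick : TTrick := tTrick
theorem bLay : TLay := tLay
theorem bPathA : TPathA := tPathA
theorem bPathB : TPathB := tPathB
theorem bPathC : TPathC := tPathC tPathA
theorem bExt2 : TExt2 := tExt2 tLay (tChn tSp) tPathA
theorem bWs1 : TWs1 := tWs1
theorem bNf : TNf := tNf
theorem bPotA : TPotA := tPotA
theorem bPotB : TPotB := tPotB
theorem bSumL : TSumL := tSumL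

end Pool.Agent.MP_6d294b_pr

end

section

open Finset

namespace Pool.Agent.MP_6d294b_pr

variable {D d : ℕ}

theorem prval_GBrG (F : Fr D d) {W : Finset (Pt d)} {P : Bx d} (h : Span W P) :
    Val (F.pr P) ∧ psi (F.pr P) ≤ psi P :=
  ⟨(bLiftA D d F).2.2.2.2.2.1 P ((bGeoA d).1 W P h).1,
    ((bLiftA D d F).2.2.2.2.2.2.2.2.2.1 P).ge.trans' (Nat.le_add_right _ _)⟩

theorem val_GBrG {F : Fr D d} {T K Y : ℕ} {A : Finset (Pt d)} {B : Bx D} (h : Br F T K Y A B) :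
    Val B ∧ Gd K Y B := by
  induction h with
  | seed h1 _ _ _ h5 => exact ⟨(prval_GBrG F h1).1, h5⟩
  | trig _ _ _ _ h5 ih => exact ⟨((bGeoA D).2.2.2.1 _ _ ih.1 le_sup_left).1, h5⟩
  | join _ _ _ _ h5 ih _ => exact ⟨((bGeoA D).2.2.2.1 _ _ ih.1 le_sup_left).1, h5⟩
  | link _ _ _ _ _ _ _ _ _ _ h5 ih _ =>
    exact ⟨((bGeoA D).2.2.2.1 _ _ ih.1 (le_sup_left.trans le_sup_left)).1, h5⟩

/-- a thin brick of intermediate size -/
def Bad_GBrG (F : Fr D d) (T K Y : ℕ) (A : Finset (Pt d)) (B : Bx D) : Prop :=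
  ∃ (A' : Finset (Pt d)) (B' : Bx D), A' ⊆ A ∧ Br F T K 0 A' B' ∧ B' ≤ B ∧ K ≤ psi B' ∧
    psi B' ≤ 3 * K ∧ ∃ i, ex B' i + 1 < Y

theorem up_GBrG {F : Fr D d} {T K Y : ℕ} {A A' : Finset (Pt d)} {B B' : Bx D}
    (h : Bad_GBrG F T K Y A B) (h1 : A ⊆ A') (h2 : B ≤ B') : Bad_GBrG F T K Y A' B' := by
  obtain ⟨C, E, a1, a2, a3, a4⟩ := h
  exact ⟨C, E, a1.trans h1, a2, a3.trans h2, a4⟩

theorem small_GBrG {F : Fr D d} {T K Y : ℕ} {A : Finset (Pt d)} {B B' : Bx D}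
    (h : Br F T K Y A B) (h1 : B ≤ B') (h2 : ¬ Gd K Y B') : psi B < K := by
  obtain ⟨v, g⟩ := val_GBrG h
  refine g.resolve_right fun h3 => h2 (Or.inr fun i => ?_)
  have := ((bGeoA D).2.2.2.1 _ _ v h1).2.1 i
  have := h3 i
  omega

theorem bad_GBrG {F : Fr D d} {T K Y : ℕ} {A : Finset (Pt d)} {B : Bx D} (h : Br F T K 0 A B)
    (h2 : ¬ Gd K Y B) (h3 : psi B ≤ 3 * K) : Bad_GBrG F T K Y A B := by
  rw [Gd, not_or, not_lt, not_forall] at h2
  obtain ⟨i, hi⟩ := h2.2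
  exact ⟨A, B, Subset.refl _, h, le_rfl, h2.1, h3, i, not_le.1 hi⟩

theorem alt_GBrG {F : Fr D d} {T K : ℕ} (Y : ℕ) {A : Finset (Pt d)} {B : Bx D} (hT : 1 ≤ T)
    (hK : 2 * T ≤ K) (h : Br F T K 0 A B) : Br F T K Y A B ∨ Bad_GBrG F T K Y A B := by
  have hp := (bGeoA D).2.2.2.2
  induction h with
  | @seed W P h1 h2 h3 h4 h5 =>
    by_cases g : Gd K Y (F.pr P)
    · exact Or.inl (Br.seed h1 h2 h3 h4 g)
    · have := (prval_GBrG F h1).2
      exact Or.inr (bad_GBrG (Br.seed h1 h2 h3 h4 h5) g (by omega))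
  | @trig A W B P h1 h2 h3 h4 h5 ih =>
    rcases ih with ih | ih
    · by_cases g : Gd K Y (B ⊔ F.pr P)
      · exact Or.inl (Br.trig ih h2 h3 h4 g)
      · refine Or.inr (bad_GBrG (Br.trig h1 h2 h3 h4 h5) g ?_)
        obtain ⟨v, a1⟩ := prval_GBrG F h2
        have a2 := small_GBrG ih le_sup_left g
        have a3 := (hp _ _ (val_GBrG h1).1 v).2
        obtain ⟨t1, t2, -, t4⟩ := h4
        have a4 := (bLiftA D d F).2.2.2.2.2.2.2.2.2.2.2.2.2.2.2.2.1 P t1
        omega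
    · exact Or.inr (up_GBrG ih subset_union_left le_sup_left)
  | @join A A' B B' h1 h2 h3 h4 h5 ih ih' =>
    rcases ih with ih | ih
    · rcases ih' with ih' | ih'
      · by_cases g : Gd K Y (B ⊔ B')
        · exact Or.inl (Br.join ih ih' h3 h4 g)
        · refine Or.inr (bad_GBrG (Br.join h1 h2 h3 h4 h5) g ?_)
          have a1 := small_GBrG ih le_sup_left g
          have a2 := small_GBrG ih' le_sup_right g
          have a3 := (hp _ _ (val_GBrG h1).1 (val_GBrG h2).1).2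
          omega
      · exact Or.inr (up_GBrG ih' subset_union_right le_sup_right)
    · exact Or.inr (up_GBrG ih subset_union_left le_sup_left)
  | @link A A' W B B' P h1 h2 h3 h4 h5 h6 h7 h8 h9 h10 h11 ih ih' =>
    rcases ih with ih | ih
    · rcases ih' with ih' | ih'
      · by_cases g : Gd K Y (B ⊔ B' ⊔ F.pr P)
        · exact Or.inl (Br.link ih ih' h3 h4 h5 h6 h7 h8 h9 h10 g)
        · refine Or.inr (bad_GBrG (Br.link h1 h2 h3 h4 h5 h6 h7 h8 h9 h10 h11) g ?_)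
          obtain ⟨v, a0⟩ := prval_GBrG F h3
          have a1 := small_GBrG ih (le_sup_left.trans le_sup_left) g
          have a2 := small_GBrG ih' (le_sup_right.trans le_sup_left) g
          have a3 := (hp _ _ (val_GBrG h1).1 v).2
          have a4 := (hp (B ⊔ F.pr P) B'
            ((bGeoA D).2.2.2.1 _ _ v le_sup_right).1 (val_GBrG h2).1).2
          have a5 := (bGap D).2.2.2.2.1 (F.pr P) (B ⊔ F.pr P) B' B' le_sup_right le_rfl
          have a6 := (bGeoA D).2.1 (F.pr P) B'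
          rw [sup_right_comm]
          omega
      · exact Or.inr (up_GBrG ih' (subset_union_right.trans subset_union_left)
          (le_sup_right.trans le_sup_left))
    · exact Or.inr (up_GBrG ih (subset_union_left.trans subset_union_left)
        (le_sup_left.trans le_sup_left))

theorem gBrG : GBrG := fun _ _ _ _ _ Y _ _ => ⟨val_GBrG, alt_GBrG Y⟩

theorem gX (h1 : GChn) : GX := by
  classical
  intro D d F Ω p p0 p1 T K Y N R₀ V X hX h0 k1' k2' S R hS hSR hR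
  obtain ⟨c1, c2, -⟩ := h1 D d F T
  obtain ⟨a1, -, a3, -, a5, -⟩ := bPrA (Pt d) Ω p p0 (by linarith)
  have n1 : (1 : ℝ) ≤ 2 * N + 1 := by linarith [Nat.cast_nonneg (α := ℝ) N]
  have l0 : 0 ≤ 2 * D * Real.log (2 * N + 1) := mul_nonneg (by positivity) (Real.log_nonneg n1)
  have w : Real.exp (V R - V S + X) ≤
      Real.exp (V R - V S + (2 * X + 2 * D * Real.log (2 * N + 1))) :=
    Real.exp_le_exp.2 (by linarith)
  by_cases k1 : psi R ≤ K + T
  · exact (k1' S R hS hSR hR k1).trans w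
  by_cases k2 : K ≤ psi S
  · by_cases g : Gd K Y S
    · exact (k2' S R hS hSR hR (g.resolve_left (by omega))).trans w
    · refine (a3 _ (fun _ => False) fun A _ h => g ((c1 _ S R).2 A h).2).trans ?_
      simp only [Pr, if_false, sum_const_zero]
      positivity
  set I := (boxes R).filter fun S' => S ≤ S' ∧ S' ≤ R ∧ K ≤ psi S' ∧ psi S' ≤ K + T ∧ Gd K Y S'
  refine (a3 _ (fun A => ∃ S' ∈ I, BoxInd (Chn2 F T (Gd K Y) S S') (Chn2 F T (Gd K Y) S' R) A)
    fun A _ h => ?_).trans ((a5 _ I _).trans ((sum_le_card_nsmul _ _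
      (Real.exp (V R - V S + 2 * X)) fun S' hS' => ?_).trans ?_))
  · obtain ⟨S', B, C, b1, b2, b3, b4, b5, b6, b7⟩ := c2 _ S R A K h hS (by omega) (by omega)
    have e1 := ((c1 _ S S').2 B b4).1
    have e2 := (c1 _ S' R).2 C b5
    exact ⟨S', mem_filter.2 ⟨((bGeoA D).2.2.2.1 _ _ ((bGeoA D).2.2.2.1 _ _ hS e1).1 e2.1).2.2.2.2,
      e1, e2.1, b6, b7, e2.2⟩, B, C, b1, b2, b3, b4, b5⟩
  · obtain ⟨-, e1, e2, e3, e4, e5⟩ := mem_filter.1 hS'
    have v := ((bGeoA D).2.2.2.1 _ _ hS e1).1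
    refine (bk_Ind bPrA bBK Ω p0 p1 (c1 _ S S').1 (c1 _ S' R).1).trans
      ((mul_le_mul (k1' S S' hS e1 (e2.trans hR) e4)
        (k2' S' R v e2 hR (e5.resolve_left (by omega)))
        (a1 _) (Real.exp_nonneg _)).trans (le_of_eq ?_))
    rw [← Real.exp_add]
    congr 1
    ring
  · have r0 := ((bGeoA D).2.2.2.1 _ _ ((bGeoA D).2.2.2.1 _ _ hS hSR).1 hR).2.2.2.1
    have c : (I.card : ℝ) ≤ (2 * N + 1) ^ (2 * D) := by
      exact_mod_cast (card_filter_le _ _).trans ((bGeoB D).1 R (2 * N + 1) fun i => by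
        have := ex_le_Ind R i
        omega)
    rw [nsmul_eq_mul, ← add_assoc, Real.exp_add _ (2 * D * _), mul_comm (Real.exp _),
      show (2 * D : ℝ) = ((2 * D : ℕ) : ℝ) by push_cast; ring, Real.exp_nat_mul,
      Real.exp_log (by linarith)]
    exact mul_le_mul_of_nonneg_right c (Real.exp_nonneg _)

end Pool.Agent.MP_6d294b_pr

end

section

open Finset

namespace Pool.Agent.MP_6d294b_pr

variable {D d T : ℕ} {F : Fr D d} {G : Bx D → Prop} {S R : Bx D}

theorem incr_GChn : Incr (Chn2 F T G S R) := by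
  rintro A B h ⟨k, Q, P, W, h0, hk, hG, hW, hD⟩
  exact ⟨k, Q, P, W, h0, hk, hG, fun j hj => ⟨(hW j hj).1.trans h, (hW j hj).2⟩, hD⟩

theorem mono_GChn {k : ℕ} {Q : ℕ → Bx D} {P : ℕ → Bx d}
    (h : ∀ j, j < k → Q (j + 1) = Q j ⊔ F.pr (P j)) : ∀ j, j ≤ k → Q 0 ≤ Q j :=
  mono_FChn (P := fun j => F.pr (P j)) h

theorem nil_GChn (h : G S) (A : Finset (Pt d)) : Chn2 F T G S S A :=
  ⟨0, fun _ => S, fun _ => 0, fun _ => ∅, rfl, rfl, fun _ _ => h, fun _ hj => absurd hj (by omega),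
    fun _ _ hj => absurd hj (by omega)⟩

theorem app_GChn {Q : Bx D} {P : Bx d} {B C : Finset (Pt d)} (h : Chn2 F T G S Q C)
    (hB : Span B P) (hd : Disjoint C B) (hg : Trg F T Q P) (hG : G (Q ⊔ F.pr P)) :
    Chn2 F T G S (Q ⊔ F.pr P) (C ∪ B) := by
  obtain ⟨k, Q', P', W, h0, hk, hG', hW, hD⟩ := h
  refine ⟨k + 1, fun j => if j ≤ k then Q' j else Q ⊔ F.pr P, fun j => if j < k then P' j else P,
    fun j => if j < k then W j else B, by simpa using h0, by simp, fun j _ => ?_, fun j hj => ?_,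
    fun i j hi hj hij => ?_⟩
  · simp only []
    split_ifs with e
    exacts [hG' j e, hG]
  · by_cases e : j < k
    · simp only [e, e.le, Nat.succ_le_of_lt e, if_true]
      exact ⟨(hW j e).1.trans subset_union_left, (hW j e).2⟩
    · obtain rfl : j = k := by omega
      simp only [e, le_refl, if_true, if_false, hk, Nat.not_succ_le_self]
      exact ⟨subset_union_right, hB, hg, trivial⟩
  · simp only []
    split_ifs with e e' e'
    · exact hD i j e e' hij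
    · exact hd.mono_left (hW i e).1
    · exact (hd.mono_left (hW j e').1).symm
    · omega

theorem psi_GChn (F : Fr D d) (P : Bx d) : psi (F.pr P) ≤ psi P := by
  have := (bLiftA D d F).2.2.2.2.2.2.2.2.2.1 P
  omega

theorem val_GChn (F : Fr D d) {W : Finset (Pt d)} {P : Bx d} (h : Span W P) : Val (F.pr P) :=
  (bLiftA D d F).2.2.2.2.2.1 P ((bGeoA d).1 _ _ h).1

theorem cut_GChn {A : Finset (Pt d)} {K : ℕ} (h : Chn2 F T G S R A) (hS : Val S) (h1 : psi S < K)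
    (h2 : K ≤ psi R) : ∃ (S' : Bx D) (B C : Finset (Pt d)), B ⊆ A ∧ C ⊆ A ∧ Disjoint B C ∧
      Chn2 F T G S S' B ∧ Chn2 F T G S' R C ∧ K ≤ psi S' ∧ psi S' ≤ K + T := by
  classical
  obtain ⟨k, Q, P, W, h0, hk, hG, hW, hD⟩ := h
  have ex : ∃ j, K ≤ psi (Q j) := ⟨k, hk ▸ h2⟩
  have jk : Nat.find ex ≤ k := Nat.find_min' ex (hk ▸ h2)
  have hj := Nat.find_spec ex
  have hm := fun i => Nat.find_min ex (m := i)
  generalize Nat.find ex = j at jk hj hm
  refine ⟨Q j, (range j).biUnion W, (Ico j k).biUnion W,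
    biUnion_subset.2 fun i hi => (hW i (by have := mem_range.1 hi; omega)).1,
    biUnion_subset.2 fun i hi => (hW i (mem_Ico.1 hi).2).1, ?_,
    ⟨j, Q, P, W, h0, rfl, fun i hi => hG i (by omega), fun i hi =>
      ⟨subset_biUnion_of_mem W (mem_range.2 hi), (hW i (by omega)).2⟩,
      fun a b ha hb => hD a b (by omega) (by omega)⟩,
    ⟨k - j, fun i => Q (j + i), fun i => P (j + i), fun i => W (j + i), rfl,
      by simp only [Nat.add_sub_cancel' jk, hk], fun i hi => hG _ (by omega), fun i hi =>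
      ⟨subset_biUnion_of_mem W (mem_Ico.2 ⟨by omega, by omega⟩), (hW (j + i) (by omega)).2⟩,
      fun a b ha hb hab => hD _ _ (by omega) (by omega) (by omega)⟩, hj, ?_⟩
  · rw [disjoint_biUnion_left]
    intro a ha
    rw [disjoint_biUnion_right]
    intro b hb
    have := mem_range.1 ha
    have := mem_Ico.1 hb
    exact hD a b (by omega) (by omega) (by omega)
  · rcases j with _ | j
    · rw [h0] at hj
      omega
    · obtain ⟨-, a, ⟨b1, b2, -, b4⟩, e⟩ := hW j (by omega)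
      have v := ((bGeoA D).2.2.2.1 _ _ (h0 ▸ hS : Val (Q 0))
        (mono_GChn (fun i hi => (hW i hi).2.2.2) j (by omega))).1
      have := ((bGeoA D).2.2.2.2 _ _ v (val_GChn F a)).2
      have := hm j (by omega)
      have := psi_GChn F (P j)
      have := (bLiftA D d F).2.2.2.2.2.2.2.2.2.2.2.2.2.2.2.2.1 _ b1
      rw [e]
      omega

/-- the conclusion of the third part -/
def Alt_GChn (F : Fr D d) (T K Y : ℕ) (A : Finset (Pt d)) (R : Bx D) : Prop :=
  (∃ (S : Bx D) (B C : Finset (Pt d)), B ⊆ A ∧ C ⊆ A ∧ Disjoint B C ∧ Val S ∧ Sed F T S B ∧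
      Chn2 F T (Gd K Y) S R C) ∨
    (∃ (Q P S : Bx D) (B₁ B₂ B₃ C : Finset (Pt d)), B₁ ⊆ A ∧ B₂ ⊆ A ∧ B₃ ⊆ A ∧ C ⊆ A ∧
      Disjoint B₁ B₂ ∧ Disjoint B₁ B₃ ∧ Disjoint B₁ C ∧ Disjoint B₂ B₃ ∧ Disjoint B₂ C ∧
      Disjoint B₃ C ∧ Br F T K Y B₁ Q ∧ Br F T K Y B₂ P ∧
      Lk F T S (dfc (ex Q) (ex P) (ex S)) B₃ ∧ Chn2 F T (Gd K Y) S R C ∧ Q ≤ S ∧ P ≤ S ∧
      psi P ≤ psi Q ∧ psi Q < psi S)

theorem up_GChn {K Y : ℕ} {A A' : Finset (Pt d)} (l : A ⊆ A') (h : Alt_GChn F T K Y A R) :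
    Alt_GChn F T K Y A' R := by
  rcases h with ⟨S, B, C, a1, a2, a⟩ | ⟨Q, P, S, B₁, B₂, B₃, C, a1, a2, a3, a4, a⟩
  · exact .inl ⟨S, B, C, a1.trans l, a2.trans l, a⟩
  · exact .inr ⟨Q, P, S, B₁, B₂, B₃, C, a1.trans l, a2.trans l, a3.trans l, a4.trans l, a⟩

theorem step_GChn (h1 : GBrG) {K Y : ℕ} {A B₁ B₂ B₃ : Finset (Pt d)} {Q P : Bx D}
    (hQ : Br F T K Y B₁ Q) (hP : Br F T K Y B₂ P) (s1 : B₁ ⊆ A) (s2 : B₂ ⊆ A) (s3 : B₃ ⊆ A)
    (d12 : Disjoint B₁ B₂) (d13 : Disjoint B₁ B₃) (d23 : Disjoint B₂ B₃) (lQ : Q ≤ S)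
    (lP : P ≤ S) (hG : Gd K Y S) (hL : Lk F T S (dfc (ex Q) (ex P) (ex S)) B₃)
    (hl : psi P ≤ psi Q) (ih : Alt_GChn F T K Y B₁ Q) : Alt_GChn F T K Y A S := by
  have e := ((bGeoA D).2.2.2.1 _ _ ((h1 D d F T K Y B₁ Q).1 hQ).1 lQ).2.2.2.1
  by_cases c : psi Q < psi S
  · exact .inr ⟨Q, P, S, B₁, B₂, B₃, ∅, s1, s2, s3, empty_subset _, d12, d13,
      disjoint_empty_right _, d23, disjoint_empty_right _, disjoint_empty_right _, hQ, hP, hL,
      nil_GChn hG _, lQ, lP, hl, c⟩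
  · have z : S = Q := le_antisymm (fun s => by
      have := (sum_eq_zero_iff.1 (show ∑ s, (S s - Q s).toNat = 0 by omega)) s (mem_univ s)
      exact sub_nonpos.1 (Int.toNat_eq_zero.1 this)) lQ
    rw [z]
    exact up_GChn s1 ih

theorem dfc_GChn (a b y : Fin D → ℕ) : dfc a b y = dfc b a y := by
  simp only [dfc, add_comm]

theorem both_GChn (h1 : GBrG) {K Y : ℕ} {A B₁ B₂ B₃ : Finset (Pt d)} {Q P : Bx D}
    (hQ : Br F T K Y B₁ Q) (hP : Br F T K Y B₂ P) (s1 : B₁ ⊆ A) (s2 : B₂ ⊆ A) (s3 : B₃ ⊆ A)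
    (d12 : Disjoint B₁ B₂) (d13 : Disjoint B₁ B₃) (d23 : Disjoint B₂ B₃) (lQ : Q ≤ S)
    (lP : P ≤ S) (hG : Gd K Y S) (hL : Lk F T S (dfc (ex Q) (ex P) (ex S)) B₃)
    (iQ : Alt_GChn F T K Y B₁ Q) (iP : Alt_GChn F T K Y B₂ P) : Alt_GChn F T K Y A S := by
  rcases le_total (psi P) (psi Q) with l | l
  · exact step_GChn h1 hQ hP s1 s2 s3 d12 d13 d23 lQ lP hG hL l iQ
  · exact step_GChn h1 hP hQ s2 s1 s3 d12.symm d23 d13 lP lQ hG (dfc_GChn _ _ _ ▸ hL) l iP

theorem link_GChn {B B' U : Bx D} (v : Val B) (v' : Val B') (vU : Val U) (g : gap B U ≤ 2)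
    (g' : gap B' U ≤ 2) : dfc (ex B) (ex B') (ex (B ⊔ B' ⊔ U)) ≤ psi U + 4 := by
  have a := ((bGeoA D).2.2.2.2 _ _ v vU).1
  have vv := ((bGeoA D).2.2.2.1 _ _ v (le_sup_left : B ≤ B ⊔ U)).1
  have b := ((bGeoA D).2.2.2.2 _ _ vv v').1
  have c := (bGap D).2.2.2.2.1 U (B ⊔ U) B' B' le_sup_right le_rfl
  have c' := (bGeoA D).2.1 U B'
  rw [sup_right_comm]
  have : dfc (ex B) (ex B') (ex (B ⊔ U ⊔ B')) ≤ ∑ i, (ex U i +
      (ex (B ⊔ U) i - (ex B i + ex U i)) + (ex (B ⊔ U ⊔ B') i - (ex (B ⊔ U) i + ex B' i))) :=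
    sum_le_sum fun i _ => by omega
  rw [sum_add_distrib, sum_add_distrib] at this
  unfold psi
  omega

theorem gChn (h1 : GBrG) : GChn := by
  intro D d F T
  refine ⟨fun G S R => ⟨incr_GChn, ?_⟩, fun G S R A K => cut_GChn, fun K Y A R h => ?_⟩
  · rintro A ⟨k, Q, P, W, h0, hk, hG, hW, -⟩
    exact ⟨h0 ▸ hk ▸ mono_GChn (fun i hi => (hW i hi).2.2.2) k le_rfl, h0 ▸ hG 0 (by omega)⟩
  · change Alt_GChn F T K Y A R
    induction h with
    | @seed W P a1 a2 a3 a4 a5 =>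
      exact .inl ⟨F.pr P, W, ∅, Subset.rfl, empty_subset _, disjoint_empty_right _,
        val_GChn F a1, ⟨P, a2, rfl, a3, a4, W, Subset.rfl, a1⟩, nil_GChn a5 _⟩
    | @trig A W B P _ a2 a3 a4 a5 ih =>
      have l : A ⊆ A ∪ W := subset_union_left
      rcases ih with ⟨S, B', C, b1, b2, b3, b4, b5, b6⟩ |
        ⟨Q, P', S, B₁, B₂, B₃, C, b1, b2, b3, b4, c1, c2, c3, c4, c5, c6, e1, e2, e3, e4, e⟩
      · exact .inl ⟨S, B', C ∪ W, b1.trans l, union_subset_union_left b2,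
          disjoint_union_right.2 ⟨b3, a3.mono_left b1⟩, b4, b5,
          app_GChn b6 a2 (a3.mono_left b2) a4 a5⟩
      · exact .inr ⟨Q, P', S, B₁, B₂, B₃, C ∪ W, b1.trans l, b2.trans l, b3.trans l,
          union_subset_union_left b4, c1, c2, disjoint_union_right.2 ⟨c3, a3.mono_left b1⟩, c4,
          disjoint_union_right.2 ⟨c5, a3.mono_left b2⟩,
          disjoint_union_right.2 ⟨c6, a3.mono_left b3⟩, e1, e2, e3,
          app_GChn e4 a2 (a3.mono_left b4) a4 a5, e⟩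
    | @join A A' B B' a1 a2 a3 a4 a5 i1 i2 =>
      have := ((bGeoA D).2.2.2.2 _ _ ((h1 D d F T K Y A B).1 a1).1
        ((h1 D d F T K Y A' B').1 a2).1).1
      exact both_GChn (B₃ := ∅) h1 a1 a2 subset_union_left subset_union_right (empty_subset _) a3
        (disjoint_empty_right _) (disjoint_empty_right _) le_sup_left le_sup_right a5
        (.inl (by unfold dfc; omega)) i1 i2
    | @link A A' W B B' P a1 a2 a3 a4 a5 a6 a7 a8 a9 a10 a11 i1 i2 =>
      have := link_GChn ((h1 D d F T K Y A B).1 a1).1 ((h1 D d F T K Y A' B').1 a2).1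
        (val_GChn F a3) a9 a10
      have := psi_GChn F P
      exact both_GChn (B₃ := W) h1 a1 a2 (subset_union_left.trans subset_union_left)
        (subset_union_right.trans subset_union_left) subset_union_right a4 a5 a6
        (le_sup_left.trans le_sup_left) (le_sup_right.trans le_sup_left) a11
        (.inr ⟨P, a7, le_sup_right, a8, by omega, W, Subset.rfl, a3⟩) i1 i2

end Pool.Agent.MP_6d294b_pr

end

section

open Finset

namespace Pool.Agent.MP_6d294b_pr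

theorem gExtB (h1 : GLY) (h2 : GChn) : GExtB := by
  classical
  intro D d F m S R M T z A hm hS hSR hz hA
  obtain ⟨-, -, z3, -, -, -, z7, -, -⟩ := bPathA D m S R M z hm hS hSR hz
  obtain ⟨k, Q, P, W, q0, qk, qF, qs, qd⟩ := hA
  obtain ⟨-, -, l3, -, -, l6, -, -, -, l10, -, -, l13, -, -, -, l17, -⟩ := bLiftA D d F
  have hstep : ∀ j, j < k → Q j ≤ Q (j + 1) ∧ F.pr (P j) ≤ Q (j + 1) := fun j hj => by
    rw [(qs j hj).2.2.2]
    exact ⟨le_sup_left, le_sup_right⟩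
  have hmono : ∀ i j, i ≤ j → j ≤ k → Q i ≤ Q j := fun i j hij => by
    induction j, hij using Nat.le_induction with
    | base => exact fun _ => le_rfl
    | succ j _ ih => exact fun hj => (ih (by omega)).trans (hstep j (by omega)).1
  have hout : ∀ i, i ≤ k → ∀ s j, Q i s < j → ∀ t, Q i t ≤ outB m R (z (tm z M s j)) t := by
    intro i hi s j hj t
    obtain ⟨τ, t1, t2, t3⟩ := qF i hi
    exact (t3 t).trans (z3 (z7 s j τ t1 (lt_of_le_of_lt (t2 s) hj)) t)
  obtain ⟨e, he⟩ : ∃ e : ℕ → Sd D → ℕ, ∀ j s, e j s = (F.pr (P j) s - Q j s).toNat :=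
    ⟨_, fun _ _ => rfl⟩
  obtain ⟨I, hI⟩ : ∃ I : Finset ℕ, ∀ j, j ∈ I ↔ j < k ∧ 1 ≤ psi (P j) ∧ ∃ s, e j s ≠ 0 :=
    ⟨(range k).filter fun j => 1 ≤ psi (P j) ∧ ∃ s, e j s ≠ 0, fun j => by
      rw [mem_filter, mem_range]⟩
  obtain ⟨r, hr⟩ : ∃ r : ℕ → Rc2 D d, ∀ j, r j = (P j, e j) := ⟨_, fun _ => rfl⟩
  have hlt : ∀ i j, i < j → j ∈ I → r i ≠ r j := fun i j hij hj h => by
    obtain ⟨a1, -, s, a2⟩ := (hI j).1 hj
    have a3 : F.pr (P i) s ≤ Q j s :=
      ((hstep i (by omega)).2.trans (hmono (i + 1) j hij a1.le)) s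
    rw [hr, hr] at h
    rw [(Prod.mk.inj h).1] at a3
    have := he j s
    omega
  have hinj : Set.InjOn r I := fun i hi j hj h => by
    rcases lt_trichotomy i j with c | c | c
    · exact absurd h (hlt i j c hj)
    · exact c
    · exact absurd h.symm (hlt j i c hi)
  have hw : ∀ j ∈ I, Function.invFunOn r I (r j) = j := fun j hj => hinj.leftInvOn_invFunOn hj
  refine ⟨I.image r, fun u => W (Function.invFunOn r I u),
    ((range k).filter fun j => psi (P j) = 0).biUnion W, fun u hu => ?_,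
    biUnion_subset.2 fun j hj => (qs j (mem_range.1 (mem_filter.1 hj).1)).1, fun s j hj => ?_,
    fun u hu v hv huv => ?_⟩
  · obtain ⟨i, hi, rfl⟩ := mem_image.1 hu
    obtain ⟨a1, a2, a3⟩ := (hI i).1 hi
    obtain ⟨s1, s2, ⟨s3, s4, s5, s6⟩, -⟩ := qs i a1
    simp only [hw i hi]
    rw [hr]
    refine ⟨?_, s1, s2, (disjoint_biUnion_right _ _ _).2 fun j hj => ?_⟩
    · have hP : Val (P i) := ((bGeoA d).1 _ _ s2).1
      have hlo : S ≤ Q i := q0 ▸ hmono 0 i (Nat.zero_le _) a1.le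
      have hQ : Val (Q i) := ((bGeoA D).2.2.2.1 S (Q i) hS hlo).1
      have hPR : F.pr (P i) ≤ R := qk ▸ (hstep i a1).2.trans (hmono (i + 1) k a1 le_rfl)
      have b1 := l17 _ s3
      have b2 := l10 (P i)
      have hsum : ∑ s, e i s ≤ psi (F.pr (P i)) + 2 := by
        have c1 := (bGap D).2.2.2.2.2.2.2.2.2.2.2.2.1 (Q i) (F.pr (P i)) hQ
        have c2 := ((bGeoA D).2.2.2.2 (Q i) _ hQ (l6 _ hP)).2
        have c3 : ∑ s, e i s = ∑ s, (F.pr (P i) s - Q i s).toNat := sum_congr rfl fun s _ => he i s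
        omega
      have hle : ∀ s, e i s < T + 2 := fun s => by
        have := (single_le_sum (f := e i) (fun _ _ => Nat.zero_le _) (mem_univ s)).trans hsum
        omega
      unfold admM
      refine mem_filter.2 ⟨mem_product.2 ⟨((bGeoA d).2.2.2.1 _ _ hP ((l13 R _).2 ⟨hPR, s3⟩)).2.2.2.2,
        Fintype.mem_piFinset.2 fun s => mem_range.2 (hle s)⟩, hP, s3, s5, a2, s4, hsum, a3,
        fun s j c1 c2 => ?_⟩
      dsimp only at c1 c2 ⊢
      have c3 := he i s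
      have c4 : S s ≤ Q i s := hlo s
      have c5 : F.pr (P i) s ≤ R s := hPR s
      refine ⟨by omega, by omega, fun t _ => ?_⟩
      have c6 := hout i a1.le s j (by omega) t
      have c7 := he i t
      have c8 := hle t
      unfold oz
      omega
    · rw [mem_filter, mem_range] at hj
      exact qd i j a1 hj.1 fun h => by rw [h] at a2; omega
  · unfold JU at hj
    rw [mem_filter, mem_Ioo] at hj
    obtain ⟨i, hi, b1, b2⟩ := ivt_FExt2 (fun i => Q i s) j k (by rw [q0]; exact hj.1.1)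
      (by rw [qk]; exact hj.1.2.le)
    obtain ⟨-, s2, ⟨s3, -, s5, s6⟩, s7⟩ := qs i hi
    rw [s7, sup_GeoA] at b2
    have b3 := he i s
    have b4 : psi (P i) = 0 := by
      by_contra h
      refine hj.2 (r i) (mem_image_of_mem r ((hI i).2 ⟨hi, by omega, s, by omega⟩)) ?_
      rw [hr]
      dsimp only
      omega
    obtain ⟨-, g2, g3, -⟩ := (bGeoA d).1 _ _ s2
    obtain ⟨x, hx⟩ : (W i).Nonempty := card_pos.1 (by omega)
    have b5 : P i = ptB x := ((bGap d).2.2.2.2.2.2.2.2.2.2.2.1 _ x).2.2 (g2 x hx) b4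
    rw [b5] at s3 s5 s6 b2
    rw [l3] at s6 b2
    rw [(bGap D).2.2.2.2.2.2.1] at s6
    have b6 := l17 _ s3
    have b7 : ∀ t, (kap t (F.pp x) - Q i t).toNat ≤ ∑ t, (kap t (F.pp x) - Q i t).toNat := fun t =>
      single_le_sum (f := fun t => (kap t (F.pp x) - Q i t).toNat) (fun _ _ => Nat.zero_le _)
        (mem_univ t)
    have b8 : ∀ t, kap t (F.pp x) ≤ oz m R M 2 z s j t := fun t => by
      have c1 := hout i hi.le s j b1 t
      have c2 := b7 t
      unfold oz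
      omega
    have b9 := (h1.1 D d F ∅).2.2.2 x s3
    have b10 := b7 s
    change j ≤ max (Q i s) (kap s (F.pp x)) at b2
    refine ⟨x, mem_biUnion.2 ⟨i, mem_filter.2 ⟨mem_range.2 hi, b4⟩, hx⟩, ?_⟩
    unfold Dall
    by_cases c : kap s (F.pp x) = j
    · exact mem_union_left _ (((h1.1 D d F _).1 1 x).2
        ⟨((bLay D _ s j).1 _).2 ⟨c, fun t _ => b8 t⟩, b9, s5⟩)
    · exact mem_union_right _ (((h1.1 D d F _).1 0 x).2
        ⟨((bLay D _ s (j + 1)).1 _).2 ⟨by omega, fun t _ => b8 t⟩, b9, by omega⟩)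
  · obtain ⟨i, hi, rfl⟩ := mem_image.1 hu
    obtain ⟨j, hj, rfl⟩ := mem_image.1 hv
    simp only [hw i hi, hw j hj]
    exact qd i j ((hI i).1 hi).1 ((hI j).1 hj).1 fun h => huv (h ▸ rfl)

end Pool.Agent.MP_6d294b_pr

end

section

open Finset

namespace Pool.Agent.MP_6d294b_pr

variable {D d : ℕ}

/-- numbers of layers added in the direction `i` -/
def ee_GExtC (F : Fr D d) (i : Fin D) (Q : Bx D) (P : Bx d) : Sd D → ℕ :=
  fun s => if s.1 = i then (F.pr P s - Q s).toNat else 0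

lemma ee_ne_GExtC {F : Fr D d} {i : Fin D} {Q : Bx D} {P : Bx d} {s : Sd D}
    (h : ee_GExtC F i Q P s ≠ 0) :
    s.1 = i ∧ Q s < F.pr P s ∧ (ee_GExtC F i Q P s : ℤ) = F.pr P s - Q s := by
  unfold ee_GExtC at h ⊢
  by_cases hs : s.1 = i
  · rw [if_pos hs] at h ⊢
    exact ⟨hs, by omega, by omega⟩
  · rw [if_neg hs] at h
    exact absurd rfl h

lemma ee_pos_GExtC {F : Fr D d} {i : Fin D} {Q : Bx D} {P : Bx d} {s : Sd D} (hs : s.1 = i)
    (h : Q s < F.pr P s) : ee_GExtC F i Q P s ≠ 0 := by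
  unfold ee_GExtC
  rw [if_pos hs]
  omega

lemma psi_pr_GExtC (F : Fr D d) (P : Bx d) : psi (F.pr P) ≤ psi P := by
  have := (bLiftA D d F).2.2.2.2.2.2.2.2.2.1 P
  omega

lemma adm_GExtC {F : Fr D d} {T : ℕ} {S R Q : Bx D} {P : Bx d} (i : Fin D) (hP : Val P)
    (hQ : Val Q) (hSQ : S ≤ Q) (hR : F.pr P ≤ R) (hT : Trg F T Q P) (h1 : 1 ≤ psi P)
    (he : ∃ s, ee_GExtC F i Q P s ≠ 0) :
    (P, ee_GExtC F i Q P) ∈ admM F T R S (dirB S R i) fun _ _ => R := by
  classical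
  obtain ⟨t1, t2, t3, t4⟩ := hT
  obtain ⟨-, -, -, -, -, l6, -, -, -, -, -, -, l13, -, -, -, l17, -⟩ := bLiftA D d F
  have hlev := l17 P t1
  have hsum : ∑ s, ee_GExtC F i Q P s ≤ psi (F.pr P) + 2 := by
    have a1 := (bGap D).2.2.2.2.2.2.2.2.2.2.2.2.1 Q (F.pr P) hQ
    have a2 := ((bGeoA D).2.2.2.2 Q (F.pr P) hQ (l6 P hP)).2
    have a3 : ∑ s, ee_GExtC F i Q P s ≤ ∑ s, (F.pr P s - Q s).toNat := by
      refine sum_le_sum fun s _ => ?_
      unfold ee_GExtC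
      split_ifs
      · exact le_rfl
      · exact Nat.zero_le _
    omega
  have hpsi := psi_pr_GExtC F P
  unfold admM
  refine mem_filter.2 ⟨mem_product.2 ⟨((bGeoA d).2.2.2.1 P _ hP ((l13 R P).2 ⟨hR, t1⟩)).2.2.2.2,
    ?_⟩, hP, t1, t3, h1, t2, hsum, he, fun s j j1 j2 => ?_⟩
  · refine Fintype.mem_piFinset.2 fun s => mem_range.2 ?_
    have := single_le_sum (f := ee_GExtC F i Q P) (fun _ _ => Nat.zero_le _) (mem_univ s)
    show ee_GExtC F i Q P s < T + 2
    omega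
  · have j3 : F.pr P s - ee_GExtC F i Q P s < j := j1
    have j4 : j ≤ F.pr P s := j2
    obtain ⟨b1, b2, b3⟩ := ee_ne_GExtC (F := F) (i := i) (Q := Q) (P := P) (s := s) (by omega)
    have b4 : S s ≤ Q s := hSQ s
    have b5 : F.pr P s ≤ R s := hR s
    refine ⟨by omega, ?_, fun t _ => hR t⟩
    unfold dirB
    rw [if_pos b1]
    omega

/-- a single site that makes the brick grow -/
lemma pt_GExtC (h1 : GLY) {F : Fr D d} {T : ℕ} {R Q : Bx D} {x : Pt d} {s : Sd D} {j : ℤ}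
    (hR : F.pr (ptB x) ≤ R) (hT : Trg F T Q (ptB x)) (j1 : Q s < j) (j2 : j ≤ F.pr (ptB x) s) :
    x ∈ LY F 1 (lay R s j) ∨ x ∈ LY F 0 (lay R s (j + 1)) := by
  obtain ⟨t1, -, t3, t4⟩ := hT
  obtain ⟨-, -, l3, -, -, -, -, -, -, -, -, -, -, -, -, -, l17, -⟩ := bLiftA D d F
  have hlev := l17 _ t1
  rw [l3] at hR t4 j2
  have a1 := (bGap D).2.2.2.2.2.2.1 Q (F.pp x)
  have a2 := single_le_sum (f := fun s => (kap s (F.pp x) - Q s).toNat)
    (fun _ _ => Nat.zero_le _) (mem_univ s)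
  have a3 : j ≤ kap s (F.pp x) := j2
  have a4 : ∀ t : Sd D, t.1 ≠ s.1 → kap t (F.pp x) ≤ R t := fun t _ => hR t
  have hlow : F.Low x := (h1.1 D d F ∅).2.2.2 x t1
  by_cases hk : kap s (F.pp x) = j
  · refine Or.inl (((h1.1 D d F _).1 1 x).2 ⟨((bLay D R s j).1 _).2 ⟨hk, a4⟩, hlow, ?_⟩)
    push_cast
    exact t3
  · refine Or.inr (((h1.1 D d F _).1 0 x).2 ⟨((bLay D R s (j + 1)).1 _).2 ⟨?_, a4⟩, hlow, ?_⟩)
    · omega
    · push_cast
      omega

theorem gExtC (h1 : GLY) (h2 : GChn) : GExtC := by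
  classical
  intro D d F T G S R i A hS hA
  obtain ⟨k, Q, P, W, q0, qk, -, qs, qd⟩ := hA
  have hstep : ∀ j, j < k → Q j ≤ Q (j + 1) := fun j hj => by
    rw [(qs j hj).2.2.2]
    exact le_sup_left
  have hlo : ∀ j, j ≤ k → S ≤ Q j := by
    intro j
    induction j with
    | zero => exact fun _ => q0.ge
    | succ j ih => exact fun hj => (ih (by omega)).trans (hstep j (by omega))
  have hhi : ∀ n j, j + n = k → Q j ≤ R := by
    intro n
    induction n with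
    | zero =>
      intro j hj
      obtain rfl : j = k := by omega
      exact qk.le
    | succ n ih => exact fun j hj => (hstep j (by omega)).trans (ih (j + 1) (by omega))
  have hQ : ∀ j, j ≤ k → Val (Q j) := fun j hj => ((bGeoA D).2.2.2.1 S (Q j) hS (hlo j hj)).1
  have hPR : ∀ j, j < k → F.pr (P j) ≤ R := fun j hj => by
    have := hhi (k - (j + 1)) (j + 1) (by omega)
    rw [(qs j hj).2.2.2] at this
    exact le_sup_right.trans this
  obtain ⟨e, he⟩ : ∃ e : ℕ → Sd D → ℕ, ∀ j, e j = ee_GExtC F i (Q j) (P j) := ⟨_, fun _ => rfl⟩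
  obtain ⟨I, hI⟩ : ∃ I : Finset ℕ, ∀ j, j ∈ I ↔ j < k ∧ 1 ≤ psi (P j) ∧ ∃ s, e j s ≠ 0 :=
    ⟨(range k).filter fun j => 1 ≤ psi (P j) ∧ ∃ s, e j s ≠ 0, fun j => by
      rw [mem_filter, mem_range]⟩
  have hch : ∀ u : Rc2 D d, ∃ j, u ∈ I.image (fun j => (P j, e j)) → j ∈ I ∧ (P j, e j) = u := by
    intro u
    by_cases hu : u ∈ I.image (fun j => (P j, e j))
    · obtain ⟨j, hj⟩ := mem_image.1 hu
      exact ⟨j, fun _ => hj⟩
    · exact ⟨0, fun h => absurd h hu⟩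
  choose c hc using hch
  refine ⟨I.image fun j => (P j, e j), fun u => W (c u),
    ((range k).filter fun j => psi (P j) = 0).biUnion W, fun u hu => ?_, ?_,
    ⟨fun s => ((range k).filter fun j => psi (P j) = 0 ∧ e j s ≠ 0).biUnion W,
      fun s => ⟨?_, fun j hj => ?_⟩, fun s t hst => ?_⟩, fun u hu v hv huv => ?_⟩
  · obtain ⟨c1, c2⟩ := hc u hu
    obtain ⟨c3, c4, c5⟩ := (hI _).1 c1
    obtain ⟨s1, s2, s3, -⟩ := qs _ c3
    refine ⟨?_, s1, ?_, ?_⟩
    · rw [← c2, he]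
      rw [he] at c5
      exact adm_GExtC i ((bGeoA d).1 _ _ s2).1 (hQ _ c3.le) (hlo _ c3.le) (hPR _ c3) s3 c4 c5
    · have : u.1 = P (c u) := by rw [← congrArg Prod.fst c2]
      rw [this]
      exact s2
    · refine (disjoint_biUnion_right _ _ _).2 fun j hj => ?_
      obtain ⟨j1, j2⟩ := mem_filter.1 hj
      refine qd _ _ c3 (mem_range.1 j1) fun h => ?_
      rw [h] at c4
      omega
  · exact biUnion_subset.2 fun j hj => (qs j (mem_range.1 (mem_filter.1 hj).1)).1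
  · refine biUnion_subset_biUnion_of_subset_left _ fun j hj => ?_
    rw [mem_filter] at hj ⊢
    exact ⟨hj.1, hj.2.1⟩
  · unfold JU at hj
    obtain ⟨j1, j2⟩ := mem_filter.1 hj
    rw [mem_Ioo] at j1
    unfold dirB at j1
    have hs : s.1 = i := by
      by_contra h
      rw [if_neg h] at j1
      omega
    rw [if_pos hs] at j1
    obtain ⟨n, hn, b1, b2⟩ := ivt_FExt2 (fun n => Q n s) j k (by rw [q0]; exact j1.1)
      (by rw [qk]; exact j1.2.le)
    obtain ⟨s1, s2, s3, s4⟩ := qs n hn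
    have b3 : Q (n + 1) s = max (Q n s) (F.pr (P n) s) := by
      rw [s4]
      rfl
    have b4 : j ≤ F.pr (P n) s := by omega
    have b5 : ee_GExtC F i (Q n) (P n) s ≠ 0 := ee_pos_GExtC hs (by omega)
    have b6 : e n s ≠ 0 := by
      rw [he]
      exact b5
    have b7 : psi (P n) = 0 := by
      by_contra h
      have c1 : n ∈ I := (hI n).2 ⟨hn, by omega, s, b6⟩
      refine j2 (P n, e n) (mem_image_of_mem _ c1) ⟨?_, b4⟩
      have c2 := (ee_ne_GExtC b5).2.2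
      show F.pr (P n) s - e n s < j
      rw [he]
      omega
    obtain ⟨-, g2, g3, -⟩ := (bGeoA d).1 _ _ s2
    obtain ⟨x, hx⟩ : (W n).Nonempty := card_pos.1 (by omega)
    have hPx : P n = ptB x := ((bGap d).2.2.2.2.2.2.2.2.2.2.2.1 _ x).2.2 (g2 x hx) b7
    have hxV : x ∈ ((range k).filter fun j => psi (P j) = 0 ∧ e j s ≠ 0).biUnion W :=
      mem_biUnion.2 ⟨n, mem_filter.2 ⟨mem_range.2 hn, b7, b6⟩, hx⟩
    have hR := hPR n hn
    rw [hPx] at hR s3 b4
    rcases pt_GExtC h1 hR s3 b1 b4 with h | h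
    · exact Or.inl ⟨x, hxV, h⟩
    · exact Or.inr ⟨x, hxV, h⟩
  · refine disjoint_left.2 fun x hx hx' => ?_
    obtain ⟨n, n1, n2⟩ := mem_biUnion.1 hx
    obtain ⟨m, m1, m2⟩ := mem_biUnion.1 hx'
    obtain ⟨n3, n4, n5⟩ := mem_filter.1 n1
    obtain ⟨m3, -, m5⟩ := mem_filter.1 m1
    obtain rfl : n = m := by
      by_contra h
      exact disjoint_left.1 (qd n m (mem_range.1 n3) (mem_range.1 m3) h) n2 m2
    rw [he] at n5 m5
    obtain ⟨a1, a2, -⟩ := ee_ne_GExtC n5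
    obtain ⟨a3, a4, -⟩ := ee_ne_GExtC m5
    rcases side_FExt2 (a3.trans a1.symm) with h | h
    · exact hst h.symm
    · rw [h] at a4
      have a5 := val_FExt2 (hQ n (mem_range.1 n3).le) s
      have a6 := psi_FExt2 (F.pr (P n)) s
      have a7 := psi_pr_GExtC F (P n)
      omega
  · obtain ⟨c1, c2⟩ := hc u hu
    obtain ⟨c3, c4⟩ := hc v hv
    refine qd _ _ ((hI _).1 c1).1 ((hI _).1 c3).1 fun h => huv ?_
    rw [← c2, ← c4, h]

end Pool.Agent.MP_6d294b_pr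

end

section

open Finset

namespace Pool.Agent.MP_6d294b_pr

variable {d D : ℕ}

def Inv_GFam (F : Fr D d) (T K : ℕ) (A : Finset (Pt d)) (P : Bx d)
    (I : Finset (Finset (Pt d) × Bx d)) (J : Finset (Finset (Pt d) × Bx D)) : Prop :=
  (∀ u ∈ I, u.1 ⊆ A ∧ Span u.1 u.2 ∧ u.2 ≤ P ∧ psi u.2 < T) ∧
  (∀ v ∈ J, v.1 ⊆ A ∧ Br F T K 0 v.1 v.2 ∧ v.2 ≤ F.pr P) ∧
  (∀ u ∈ I, ∀ u' ∈ I, u ≠ u' → Disjoint u.1 u'.1) ∧
  (∀ v ∈ J, ∀ v' ∈ J, v ≠ v' → Disjoint v.1 v'.1) ∧
  (∀ u ∈ I, ∀ v ∈ J, Disjoint u.1 v.1) ∧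
  ∀ x ∈ A, (∃ u ∈ I, InB x u.2) ∨ ∃ v ∈ J, InB (F.pp x) v.2

theorem ins_GFam {α β : Type} [DecidableEq (Finset α × β)] {J : Finset (Finset α × β)}
    {w : Finset α × β} (h : ∀ v ∈ J, ∀ v' ∈ J, v ≠ v' → Disjoint v.1 v'.1)
    (hw : ∀ v ∈ J, Disjoint w.1 v.1) :
    ∀ v ∈ insert w J, ∀ v' ∈ insert w J, v ≠ v' → Disjoint v.1 v'.1 := by
  intro z hz z' hz' hzz
  rcases mem_insert.1 hz with e | g <;> rcases mem_insert.1 hz' with e' | g'
  · exact absurd (e.trans e'.symm) hzz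
  · rw [e]
    exact hw z' g'
  · rw [e']
    exact (hw z g).symm
  · exact h z g z' g' hzz

theorem brick_GFam {F : Fr D d} {T K : ℕ} {A : Finset (Pt d)} {P : Bx d}
    {I : Finset (Finset (Pt d) × Bx d)} {J : Finset (Finset (Pt d) × Bx D)}
    (h : Inv_GFam F T K A P I J) (I₀ : Finset (Finset (Pt d) × Bx d))
    (J₀ : Finset (Finset (Pt d) × Bx D)) {W : Finset (Pt d)} {B : Bx D} (hI : I₀ ⊆ I)
    (hJ : J₀ ⊆ J) (hc : 2 ≤ I₀.card + J₀.card) (hB : Br F T K 0 W B) (hP : B ≤ F.pr P)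
    (hW : ∀ x ∈ W, (∃ u ∈ I₀, x ∈ u.1) ∨ ∃ v ∈ J₀, x ∈ v.1) (h1 : ∀ u ∈ I₀, F.pr u.2 ≤ B)
    (h2 : ∀ v ∈ J₀, v.2 ≤ B) :
    ∃ I' J', Inv_GFam F T K A P I' J' ∧ I'.card + J'.card < I.card + J.card := by
  obtain ⟨a1, a2, a3, a4, a5, a6⟩ := h
  refine ⟨I \ I₀, insert (W, B) (J \ J₀), ⟨fun u hu => a1 u (mem_sdiff.1 hu).1, fun v hv => ?_,
    fun u hu u' hu' => a3 u (mem_sdiff.1 hu).1 u' (mem_sdiff.1 hu').1,
    ins_GFam (fun v hv v' hv' => a4 v (mem_sdiff.1 hv).1 v' (mem_sdiff.1 hv').1) fun v hv => ?_,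
    fun u hu v hv => ?_, fun x hx => ?_⟩, ?_⟩
  · rcases mem_insert.1 hv with rfl | hv
    · refine ⟨fun x hx => ?_, hB, hP⟩
      rcases hW x hx with ⟨u, hu, e⟩ | ⟨u, hu, e⟩
      · exact (a1 u (hI hu)).1 e
      · exact (a2 u (hJ hu)).1 e
    · exact a2 v (mem_sdiff.1 hv).1
  · obtain ⟨b1, b2⟩ := mem_sdiff.1 hv
    refine disjoint_left.2 fun x hx => ?_
    rcases hW x hx with ⟨u, hu, e⟩ | ⟨u, hu, e⟩
    · exact disjoint_left.1 (a5 u (hI hu) v b1) e
    · exact disjoint_left.1 (a4 u (hJ hu) v b1 fun g => b2 (g ▸ hu)) e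
  · obtain ⟨b1, b2⟩ := mem_sdiff.1 hu
    rcases mem_insert.1 hv with rfl | hv
    · refine disjoint_right.2 fun x hx => ?_
      rcases hW x hx with ⟨z, hz, e⟩ | ⟨z, hz, e⟩
      · exact disjoint_left.1 (a3 z (hI hz) u b1 fun g => b2 (g ▸ hz)) e
      · exact disjoint_right.1 (a5 u b1 z (hJ hz)) e
    · exact a5 u b1 v (mem_sdiff.1 hv).1
  · rcases a6 x hx with ⟨u, hu, e⟩ | ⟨v, hv, e⟩
    · by_cases g : u ∈ I₀
      · exact Or.inr ⟨_, mem_insert_self _ _, fun s =>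
          ((bLiftA D d F).2.2.2.2.2.2.1 x u.2 e s).trans (h1 u g s)⟩
      · exact Or.inl ⟨u, mem_sdiff.2 ⟨hu, g⟩, e⟩
    · by_cases g : v ∈ J₀
      · exact Or.inr ⟨_, mem_insert_self _ _, fun s => (e s).trans (h2 v g s)⟩
      · exact Or.inr ⟨v, mem_insert_of_mem (mem_sdiff.2 ⟨hv, g⟩), e⟩
  · have e1 := card_sdiff_add_card_eq_card hI
    have e2 := card_sdiff_add_card_eq_card hJ
    have e3 := card_insert_le (W, B) (J \ J₀)
    omega

theorem small_GFam {F : Fr D d} {T K : ℕ} {A : Finset (Pt d)} {P : Bx d}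
    {I : Finset (Finset (Pt d) × Bx d)} {J : Finset (Finset (Pt d) × Bx D)}
    (h : Inv_GFam F T K A P I J) {u u' : Finset (Pt d) × Bx d} (hu : u ∈ I) (hu' : u' ∈ I)
    (hne : u ≠ u') (hg : gap u.2 u'.2 ≤ 2) (hT : psi (u.2 ⊔ u'.2) < T) :
    ∃ I' J', Inv_GFam F T K A P I' J' ∧ I'.card + J'.card < I.card + J.card := by
  obtain ⟨a1, a2, a3, a4, a5, a6⟩ := h
  have hI : ({u, u'} : Finset (Finset (Pt d) × Bx d)) ⊆ I :=
    insert_subset hu (singleton_subset_iff.2 hu')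
  refine ⟨insert (u.1 ∪ u'.1, u.2 ⊔ u'.2) (I \ {u, u'}), J, ⟨fun z hz => ?_, a2,
    ins_GFam (fun v hv v' hv' => a3 v (mem_sdiff.1 hv).1 v' (mem_sdiff.1 hv').1) fun z hz => ?_,
    a4, fun z hz v hv => ?_, fun x hx => ?_⟩, ?_⟩
  · rcases mem_insert.1 hz with rfl | hz
    · exact ⟨union_subset (a1 u hu).1 (a1 u' hu').1,
        (a1 u hu).2.1.merge (a1 u' hu').2.1 (a3 u hu u' hu' hne) hg,
        sup_le (a1 u hu).2.2.1 (a1 u' hu').2.2.1, hT⟩
    · exact a1 z (mem_sdiff.1 hz).1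
  · obtain ⟨b1, b2⟩ := mem_sdiff.1 hz
    exact disjoint_union_left.2 ⟨a3 u hu z b1 fun g => b2 (g ▸ mem_insert_self _ _),
      a3 u' hu' z b1 fun g => b2 (g ▸ mem_insert_of_mem (mem_singleton_self _))⟩
  · rcases mem_insert.1 hz with rfl | hz
    · exact disjoint_union_left.2 ⟨a5 u hu v hv, a5 u' hu' v hv⟩
    · exact a5 z (mem_sdiff.1 hz).1 v hv
  · refine (a6 x hx).imp_left fun ⟨z, hz, e⟩ => ?_
    by_cases g : z ∈ ({u, u'} : Finset (Finset (Pt d) × Bx d))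
    · refine ⟨_, mem_insert_self _ _, fun s => (e s).trans ?_⟩
      rcases mem_insert.1 g with g | g
      · rw [g]
        exact le_sup_left
      · rw [mem_singleton.1 g]
        exact le_sup_right
    · exact ⟨z, mem_insert_of_mem (mem_sdiff.2 ⟨hz, g⟩), e⟩
  · have e1 := card_sdiff_add_card_eq_card hI
    have e2 := card_pair hne
    have e3 := card_insert_le (u.1 ∪ u'.1, u.2 ⊔ u'.2) (I \ {u, u'})
    omega

theorem gFam : GFam := by
  intro D d F T K A P hT hR hA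
  obtain ⟨g1, -, -, -, g5⟩ := bGeoA d
  obtain ⟨-, -, -, -, l5, -, -, -, -, -, -, -, -, -, l15, -⟩ := bLiftA D d F
  have hG : ∀ B : Bx D, Gd K 0 B := fun B => Or.inr fun i => Nat.zero_le _
  obtain ⟨⟨I, J⟩, hV, hmin⟩ := (measure fun z : Finset (Finset (Pt d) × Bx d) ×
      Finset (Finset (Pt d) × Bx D) => z.1.card + z.2.card).wf.has_min
    {z | Inv_GFam F T K A P z.1 z.2} ⟨(A.image fun x => ({x}, ptB x), ∅), fun m hm => by
      obtain ⟨x, hx, rfl⟩ := mem_image.1 hm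
      have e := (g1 _ _ (Span.pt x)).2.2.1
      rw [card_singleton] at e
      exact ⟨singleton_subset_iff.2 hx, .pt x, hA x hx, by dsimp only; omega⟩,
      fun v hv => absurd hv (notMem_empty v), fun m hm m' hm' hne => by
      obtain ⟨x, -, rfl⟩ := mem_image.1 hm
      obtain ⟨y, -, rfl⟩ := mem_image.1 hm'
      refine disjoint_singleton.2 ?_
      rintro rfl
      exact hne rfl, fun v hv => absurd hv (notMem_empty v),
      fun u _ v hv => absurd hv (notMem_empty v),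
      fun x hx => Or.inl ⟨_, mem_image_of_mem _ hx, fun _ => le_rfl⟩⟩
  have hV' : Inv_GFam F T K A P I J := hV
  have no : ¬ ∃ I' J', Inv_GFam F T K A P I' J' ∧ I'.card + J'.card < I.card + J.card :=
    fun ⟨I', J', h, hlt⟩ => hmin (I', J') h hlt
  obtain ⟨a1, a2, a3, a4, a5, a6⟩ := id hV'
  refine ⟨I, J, fun u hu => ⟨(g1 _ _ (a1 u hu).2.1).1, (a1 u hu).2.2⟩, a2, a6,
    fun u hu u' hu' hg => ?_, fun u hu v hv ht => no ?_, fun v hv v' hv' hg => ?_,
    fun u hu v hv v' hv' hg hg' => ?_⟩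
  · by_contra hne
    refine no ?_
    by_cases hs : psi (u.2 ⊔ u'.2) < T
    · exact small_GFam hV' hu hu' hne hg hs
    have e1 := (g5 _ _ (g1 _ _ (a1 u hu).2.1).1 (g1 _ _ (a1 u' hu').2.1).1).2
    have e2 := (a1 u hu).2.2.2
    have e3 := (a1 u' hu').2.2.2
    have e4 := sup_le (a1 u hu).2.2.1 (a1 u' hu').2.2.1
    refine brick_GFam hV' {u, u'} ∅ (insert_subset hu (singleton_subset_iff.2 hu'))
      (empty_subset _) (by rw [card_pair hne]; omega)
      (Br.seed ((a1 u hu).2.1.merge (a1 u' hu').2.1 (a3 u hu u' hu' hne) hg) ((l15 _ _ e4).2 hR)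
        (by omega) (by omega) (hG _)) (l5 _ _ e4) (fun x hx => Or.inl ?_) (fun z hz => l5 _ _ ?_)
      fun v hv => absurd hv (notMem_empty v)
    · rcases mem_union.1 hx with g | g
      · exact ⟨u, mem_insert_self _ _, g⟩
      · exact ⟨u', mem_insert_of_mem (mem_singleton_self _), g⟩
    · rcases mem_insert.1 hz with g | g
      · rw [g]
        exact le_sup_left
      · rw [mem_singleton.1 g]
        exact le_sup_right
  · refine brick_GFam hV' {u} {v} (singleton_subset_iff.2 hu) (singleton_subset_iff.2 hv)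
      (by simp) ((a2 v hv).2.1.trig (a1 u hu).2.1 (a5 u hu v hv).symm ht (hG _))
      (sup_le (a2 v hv).2.2 (l5 _ _ (a1 u hu).2.2.1)) (fun x hx => ?_) (fun z hz => ?_)
      fun z hz => ?_
    · rcases mem_union.1 hx with g | g
      · exact Or.inr ⟨v, mem_singleton_self _, g⟩
      · exact Or.inl ⟨u, mem_singleton_self _, g⟩
    · rw [mem_singleton.1 hz]
      exact le_sup_right
    · rw [mem_singleton.1 hz]
      exact le_sup_left
  · by_contra hne
    refine no (brick_GFam hV' ∅ {v, v'} (empty_subset _)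
      (insert_subset hv (singleton_subset_iff.2 hv')) (by rw [card_pair hne]; omega)
      ((a2 v hv).2.1.join (a2 v' hv').2.1 (a4 v hv v' hv' hne) hg (hG _))
      (sup_le (a2 v hv).2.2 (a2 v' hv').2.2) (fun x hx => Or.inr ?_)
      (fun z hz => absurd hz (notMem_empty z)) fun z hz => ?_)
    · rcases mem_union.1 hx with g | g
      · exact ⟨v, mem_insert_self _ _, g⟩
      · exact ⟨v', mem_insert_of_mem (mem_singleton_self _), g⟩
    · rcases mem_insert.1 hz with g | g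
      · rw [g]
        exact le_sup_left
      · rw [mem_singleton.1 g]
        exact le_sup_right
  · by_contra hne
    refine no (brick_GFam hV' {u} {v, v'} (singleton_subset_iff.2 hu)
      (insert_subset hv (singleton_subset_iff.2 hv')) (by rw [card_pair hne]; omega)
      ((a2 v hv).2.1.link (a2 v' hv').2.1 (a1 u hu).2.1 (a4 v hv v' hv' hne) (a5 u hu v hv).symm
        (a5 u hu v' hv').symm ((l15 _ _ (a1 u hu).2.2.1).2 hR) (a1 u hu).2.2.2 hg hg' (hG _))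
      (sup_le (sup_le (a2 v hv).2.2 (a2 v' hv').2.2) (l5 _ _ (a1 u hu).2.2.1)) (fun x hx => ?_)
      (fun z hz => ?_) fun z hz => ?_)
    · rcases mem_union.1 hx with g | g
      · rcases mem_union.1 g with g | g
        · exact Or.inr ⟨v, mem_insert_self _ _, g⟩
        · exact Or.inr ⟨v', mem_insert_of_mem (mem_singleton_self _), g⟩
      · exact Or.inl ⟨u, mem_singleton_self _, g⟩
    · rw [mem_singleton.1 hz]
      exact le_sup_right
    · rcases mem_insert.1 hz with g | g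
      · rw [g]
        exact le_sup_of_le_left le_sup_left
      · rw [mem_singleton.1 g]
        exact le_sup_of_le_left le_sup_right

end Pool.Agent.MP_6d294b_pr

end

section

open Finset

namespace Pool.Agent.MP_6d294b_pr

theorem gHa : GHa := by
  classical
  intro D α _ Ω S R ht C₀ C₁ E J A hL hJ hN
  obtain ⟨H, hH⟩ : ∃ H : Sd D × ℤ → Prop, ∀ l, H l ↔ l.2 ∈ J l.1 ∧
      (∀ x ∈ A, x ∉ C₁ l.1 l.2) ∧ ∀ x ∈ A, x ∉ C₀ l.1 (l.2 + 1) := ⟨_, fun _ => Iff.rfl⟩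
  have h1 : ∀ l : {l // H l}, ∃ x : α, x ∈ A ∧ x ∈ E l.1.1 l.1.2 := fun l =>
    hN _ _ ((hH l.1).1 l.2).1
  choose x hx using h1
  have h2 : ∀ z : {z // z ∈ A.filter fun z => ∃ l, x l = z}, ∃ l, x l = z.1 :=
    fun z => (mem_filter.1 z.2).2
  choose L hL2 using h2
  obtain ⟨Y, hY⟩ : ∃ Y : Finset ((Sd D × ℤ) × α), ∀ y, y ∈ Y ↔ ∃ z, ((L z).1, z.1) = y :=
    ⟨univ.image fun z => ((L z).1, z.1), fun y => by simp only [mem_image, mem_univ, true_and]⟩
  refine ⟨Y, fun y hy => ?_, fun y hy y' hy' e => ?_, fun y hy y' hy' e => ?_,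
    fun y hy a ha => ?_, fun s j hj => ?_⟩
  · obtain ⟨z, rfl⟩ := (hY y).1 hy
    have a := (hH _).1 (L z).2
    have b := hx (L z)
    rw [hL2] at b
    refine ⟨a.1, mem_sdiff.2 ⟨b.2, fun c => ?_⟩, b.1⟩
    rcases mem_union.1 c with c | c
    · exact a.2.1 _ b.1 c
    · exact a.2.2 _ b.1 c
  · obtain ⟨z, rfl⟩ := (hY y).1 hy
    obtain ⟨z', rfl⟩ := (hY y').1 hy'
    have e' : L z = L z' := Subtype.ext e
    rw [← hL2 z, ← hL2 z', e']
  · obtain ⟨z, rfl⟩ := (hY y).1 hy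
    obtain ⟨z', rfl⟩ := (hY y').1 hy'
    rw [Subtype.ext e]
  · obtain ⟨z, rfl⟩ := (hY y).1 hy
    exact ((hH _).1 (L z).2).2.1 a (mem_sdiff.1 ha).1
  · simp only [JY2, mem_filter] at hj
    have hI := mem_Ioo.1 (hJ s hj.1)
    have l0 := hL.1 s j hI.1 hI.2.le
    have l1 := hL.1 s (j + 1) (by omega) (by omega)
    by_cases h : H (s, j)
    · exfalso
      have b := hx ⟨(s, j), h⟩
      have c := hj.2 _ ((hY _).2 ⟨⟨x ⟨(s, j), h⟩, mem_filter.2 ⟨b.1, _, rfl⟩⟩, rfl⟩)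
      rcases l0.2.2.2 _ b.2 with e | e
      · exact c.1 e
      · exact c.2.1 e
    · rw [hH] at h
      by_cases h' : ∀ a ∈ A, a ∉ C₁ s j
      · have h'' : ¬ ∀ a ∈ A, a ∉ C₀ s (j + 1) := fun c => h ⟨hj.1, h', c⟩
        push Not at h''
        obtain ⟨a, a1, a2⟩ := h''
        refine .inr ⟨a, mem_sdiff.2 ⟨a1, fun c => ?_⟩, a2⟩
        obtain ⟨y, y1, rfl⟩ := mem_image.1 c
        exact (hj.2 y y1).2.1 (l1.2.2.1 _ (l1.1 a2))
      · push Not at h'
        obtain ⟨a, a1, a2⟩ := h'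
        refine .inl ⟨a, mem_sdiff.2 ⟨a1, fun c => ?_⟩, a2⟩
        obtain ⟨y, y1, rfl⟩ := mem_image.1 c
        exact (hj.2 y y1).1 (l0.2.2.1 _ a2)

end Pool.Agent.MP_6d294b_pr

end

section

open Finset

namespace Pool.Agent.MP_6d294b_pr

lemma near_GHb {D : ℕ} {α : Type} {S R : Bx D} {ht : Sd D → α → ℤ} {J : Sd D → Finset ℤ}
    {Y : Finset ((Sd D × ℤ) × α)} (hJ : ∀ s, J s ⊆ Ioo (S s) (R s)) {s : Sd D} {j : ℤ}
    (h : j ∈ JY2 ht J Y s ∨ j - 1 ∈ JY2 ht J Y s) :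
    S s < j ∧ j ≤ R s ∧ ∀ y ∈ Y, y.1 ≠ (s, j) := by
  unfold JY2 at h
  simp only [mem_filter] at h
  rcases h with ⟨h, c⟩ | ⟨h, c⟩
  · obtain ⟨a, b⟩ := mem_Ioo.1 (hJ s h)
    exact ⟨a, b.le, fun y hy => (c y hy).2.2.1⟩
  · obtain ⟨a, b⟩ := mem_Ioo.1 (hJ s h)
    refine ⟨by omega, by omega, fun y hy => ?_⟩
    have := (c y hy).2.2.2
    rwa [sub_add_cancel] at this

lemma ex_sdiff_GHb {α : Type} [DecidableEq α] {A B Z : Finset α} (h : Disjoint B Z) :
    (∃ x ∈ A, x ∈ B) ↔ ∃ x ∈ A \ Z, x ∈ B :=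
  ⟨fun ⟨x, a, b⟩ => ⟨x, mem_sdiff.2 ⟨a, disjoint_left.1 h b⟩, b⟩,
    fun ⟨x, a, b⟩ => ⟨x, (mem_sdiff.1 a).1, b⟩⟩

theorem gHb (h1 : GLine) : GHb := by
  intro D α _ Ω p p' k hk hp' hp hp1 S R ht C₀ C₁ E φ J Y hL hJ hu hmono hY0 hinj
  have hp0 : 0 ≤ p := by
    have : Real.exp (- p') ≤ 1 := Real.exp_le_one_iff.2 (by linarith)
    linarith
  have hY : ∀ y ∈ Y, S y.1.1 < y.1.2 ∧ y.1.2 ≤ R y.1.1 := fun y hy =>
    ⟨(mem_Ioo.1 (hJ _ (hY0 y hy))).1, (mem_Ioo.1 (hJ _ (hY0 y hy))).2.le⟩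
  have key : ∀ L : Finset (Sd D),
      Pr Ω p (fun A => (∀ y ∈ Y, ∀ x ∈ A, x ∉ C₁ y.1.1 y.1.2) ∧
        ∀ s ∈ L, NG2 (C₀ s) (C₁ s) (JY2 ht J Y s) A) ≤
      (∏ y ∈ Y, (1 - p) ^ (C₁ y.1.1 y.1.2).card) *
        ∏ s ∈ L, ∏ j ∈ JY2 ht J Y s, Real.exp (- gk k (φ s (j + 1))) := by
    intro L
    induction L using Finset.induction_on with
    | empty =>
      have e : (fun A : Finset α => (∀ y ∈ Y, ∀ x ∈ A, x ∉ C₁ y.1.1 y.1.2) ∧
          ∀ s ∈ (∅ : Finset (Sd D)), NG2 (C₀ s) (C₁ s) (JY2 ht J Y s) A) =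
          fun A => ∀ x ∈ A, x ∉ Y.biUnion fun y => C₁ y.1.1 y.1.2 := by
        funext A
        apply propext
        simp only [notMem_empty, false_imp_iff, implies_true, and_true, mem_biUnion, not_exists,
          not_and]
        exact ⟨fun h x hx y hy => h y hy x hx, fun h y hy x hx => h x hx y hy⟩
      rw [e, prod_empty, mul_one, prod_pow_eq_pow_sum, ← card_biUnion]
      · refine (bTrick.1 _ Ω p hp0 hp1).2 _ (biUnion_subset.2 fun y hy => ?_)
        exact (hL.1 _ _ (hY y hy).1 (hY y hy).2).2.1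
      · intro y hy y' hy' hne
        exact hL.2 _ _ _ _ (hY y hy).1 (hY y hy).2 (hY y' hy').1 (hY y' hy').2
          fun h => hne (hinj hy hy' h)
    | insert s L hs ih =>
      have e : (fun A : Finset α => (∀ y ∈ Y, ∀ x ∈ A, x ∉ C₁ y.1.1 y.1.2) ∧
          ∀ t ∈ insert s L, NG2 (C₀ t) (C₁ t) (JY2 ht J Y t) A) =
          fun A => ((∀ y ∈ Y, ∀ x ∈ A, x ∉ C₁ y.1.1 y.1.2) ∧
            ∀ t ∈ L, NG2 (C₀ t) (C₁ t) (JY2 ht J Y t) A) ∧
            NG2 (C₀ s) (C₁ s) (JY2 ht J Y s) A := by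
        funext A
        apply propext
        rw [forall_mem_insert]
        tauto
      rw [e, prod_insert hs, mul_comm (∏ j ∈ JY2 ht J Y s, Real.exp (- gk k (φ s (j + 1)))),
        ← mul_assoc]
      refine le_trans (h1 _ Ω p p' k hk hp' hp (C₀ s) (C₁ s) (φ s) (JY2 ht J Y s) _ ?_ ?_ ?_ ?_)
        (mul_le_mul_of_nonneg_right ih (prod_nonneg fun j _ => (Real.exp_pos _).le))
      · intro i j hi hj hne
        obtain ⟨a, b, -⟩ := near_GHb hJ hi
        obtain ⟨a', b', -⟩ := near_GHb hJ hj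
        exact hL.2 _ _ _ _ a b a' b' fun h => hne (Prod.ext_iff.1 h).2
      · intro j hj
        obtain ⟨a, b, -⟩ := near_GHb hJ hj
        exact ⟨(hL.1 s j a b).1, hu s j a b⟩
      · intro j hj
        obtain ⟨a, -, -⟩ := near_GHb hJ (Or.inl hj)
        obtain ⟨-, b, -⟩ := near_GHb hJ (j := j + 1) (Or.inr (by rwa [add_sub_cancel_right]))
        exact hmono s j a (by omega)
      · intro j hj A
        obtain ⟨a, b, c⟩ := near_GHb hJ hj
        refine and_congr (forall₂_congr fun y hy => ?_) (forall₂_congr fun t ht' => ?_)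
        · have hd : Disjoint (C₁ y.1.1 y.1.2) (C₁ s j) :=
            hL.2 _ _ _ _ (hY y hy).1 (hY y hy).2 a b (c y hy)
          exact ⟨fun h x hx => h x (mem_sdiff.1 hx).1,
            fun h x hx hx' => h x (mem_sdiff.2 ⟨hx, disjoint_left.1 hd hx'⟩) hx'⟩
        · have hd : ∀ i, (i ∈ JY2 ht J Y t ∨ i - 1 ∈ JY2 ht J Y t) →
              Disjoint (C₀ t i) (C₁ s j) ∧ Disjoint (C₁ t i) (C₁ s j) := by
            intro i hi
            obtain ⟨a', b', -⟩ := near_GHb hJ hi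
            have h2 : Disjoint (C₁ t i) (C₁ s j) := hL.2 _ _ _ _ a' b' a b fun h => hs (by
              have e1 := (Prod.ext_iff.1 h).1
              simp only at e1
              exact e1 ▸ ht')
            exact ⟨h2.mono_left (hL.1 t i a' b').1, h2⟩
          refine forall₂_congr fun i hi => or_congr (ex_sdiff_GHb (hd i (Or.inl hi)).2)
            (ex_sdiff_GHb (hd (i + 1) (Or.inr (by rwa [add_sub_cancel_right]))).1)
  have e : EY2 ht C₀ C₁ J Y = fun A => (∀ y ∈ Y, ∀ x ∈ A, x ∉ C₁ y.1.1 y.1.2) ∧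
      ∀ s ∈ (univ : Finset (Sd D)), NG2 (C₀ s) (C₁ s) (JY2 ht J Y s) A := by
    funext A
    simp only [EY2, mem_univ, true_imp_iff]
  rw [e]
  exact key univ

end Pool.Agent.MP_6d294b_pr

end

section

open Finset

namespace Pool.Agent.MP_6d294b_pr

lemma side_GHc {D : ℕ} {α : Type} (ht : Sd D → α → ℤ) (J : Sd D → Finset ℤ)
    (Y : Finset ((Sd D × ℤ) × α)) (s : Sd D) (g : ℤ → ℝ) (g₀ : ℝ) (h0 : 0 ≤ g₀)
    (hb : ∀ j ∈ J s, g j ≤ g₀) :
    ∏ j ∈ JY2 ht J Y s, Real.exp (- g j) ≤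
      (∏ j ∈ J s, Real.exp (- g j)) * Real.exp (4 * Y.card * g₀) := by
  classical
  have hsub : JY2 ht J Y s ⊆ J s := by
    unfold JY2
    exact Finset.filter_subset _ _
  have a1 : J s \ JY2 ht J Y s ⊆
      (Y.image (fun y => ht s y.2) ∪ Y.image (fun y => ht s y.2 - 1)) ∪
        (Y.image (fun y => y.1.2) ∪ Y.image (fun y => y.1.2 - 1)) := by
    intro j hj
    obtain ⟨b1, b2⟩ := Finset.mem_sdiff.1 hj
    by_contra hc
    simp only [mem_union, mem_image, not_or, not_exists, not_and] at hc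
    refine b2 ?_
    unfold JY2
    refine Finset.mem_filter.2 ⟨b1, fun y hy => ⟨hc.1.1 y hy, fun e => hc.1.2 y hy (by omega),
      fun e => hc.2.1 y hy (by rw [e]), fun e => hc.2.2 y hy ?_⟩⟩
    rw [e]
    exact add_sub_cancel_right j 1
  have a2 : (J s \ JY2 ht J Y s).card ≤ 4 * Y.card := by
    have b1 := (Finset.card_le_card a1).trans ((Finset.card_union_le _ _).trans
      (add_le_add (Finset.card_union_le _ _) (Finset.card_union_le _ _)))
    have b2 := Finset.card_image_le (s := Y) (f := fun y => ht s y.2)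
    have b3 := Finset.card_image_le (s := Y) (f := fun y => ht s y.2 - 1)
    have b4 := Finset.card_image_le (s := Y) (f := fun y => y.1.2)
    have b5 := Finset.card_image_le (s := Y) (f := fun y => y.1.2 - 1)
    omega
  have a3 : ∑ j ∈ J s \ JY2 ht J Y s, g j ≤ 4 * Y.card * g₀ := by
    refine (Finset.sum_le_card_nsmul _ _ g₀ fun j hj => hb j (Finset.mem_sdiff.1 hj).1).trans ?_
    rw [nsmul_eq_mul]
    exact mul_le_mul_of_nonneg_right (by exact_mod_cast a2) h0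
  rw [← Real.exp_sum, ← Real.exp_sum, ← Real.exp_add, ← Finset.sum_sdiff hsub,
    Finset.sum_neg_distrib (s := J s \ JY2 ht J Y s)]
  exact Real.exp_le_exp.2 (by linarith)

theorem gHc (h1 : GHa) (h2 : GHb) : GHc := by
  classical
  intro D α _ Ω p p' k hD hk hp' hp hp2 S R ht C₀ C₁ E φ g₀ J hL hJs hφ hmono hg
  have hp0 : 0 ≤ p := by
    have := Real.exp_le_one_iff.2 (neg_nonpos.2 hp')
    linarith
  have hp1 : p ≤ 1 := by linarith
  set J' : Finset (Sd D × ℤ) := ((univ : Finset (Sd D)).sigma fun s => Ioo (S s) (R s)).map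
    (Equiv.sigmaEquivProd _ _).toEmbedding with hJ
  set I : Finset ((Sd D × ℤ) × α) :=
    (J'.sigma fun k => E k.1 k.2 \ (C₁ k.1 k.2 ∪ C₀ k.1 (k.2 + 1))).map
      (Equiv.sigmaEquivProd _ _).toEmbedding with hI
  have memI : ∀ y : (Sd D × ℤ) × α, y ∈ I ↔ y.1.2 ∈ Ioo (S y.1.1) (R y.1.1) ∧
      y.2 ∈ E y.1.1 y.1.2 \ (C₁ y.1.1 y.1.2 ∪ C₀ y.1.1 (y.1.2 + 1)) := by
    rintro ⟨⟨s, j⟩, x⟩
    simp only [hI, hJ, Finset.mem_map_equiv, Finset.mem_sigma, Equiv.sigmaEquivProd_symm_apply,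
      Finset.mem_univ, true_and]
  set w : (Sd D × ℤ) × α → ℝ := fun y =>
    2 * p * (1 - p) ^ (C₁ y.1.1 y.1.2).card * Real.exp (8 * D * g₀) with hw
  have hw0 : ∀ y, 0 ≤ w y := by
    intro y
    have : 0 ≤ 1 - p := by linarith
    simp only [hw]
    positivity
  have hsum : ∑ y ∈ I, w y = ∑ s : Sd D, ∑ j ∈ Ioo (S s) (R s),
      ((E s j \ (C₁ s j ∪ C₀ s (j + 1))).card : ℝ) *
        (2 * p * (1 - p) ^ (C₁ s j).card * Real.exp (8 * D * g₀)) := by
    rw [hI, Finset.sum_map, Finset.sum_sigma, hJ, Finset.sum_map, Finset.sum_sigma]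
    refine Finset.sum_congr rfl fun s _ => Finset.sum_congr rfl fun j _ => ?_
    simp only [hw, Equiv.coe_toEmbedding, Equiv.sigmaEquivProd_apply, Finset.sum_const,
      nsmul_eq_mul]
  set P : ℝ := ∏ s : Sd D, ∏ j ∈ J s, Real.exp (- gk k (φ s (j + 1))) with hP
  have hb : ∀ s, ∀ j ∈ J s, gk k (φ s (j + 1)) ≤ g₀ := by
    intro s j hj
    obtain ⟨a1, a2⟩ := Finset.mem_Ioo.1 (hJs s hj)
    exact (hφ s (j + 1) (by omega) (by omega)).2.2.2
  have hP0 : 0 ≤ P :=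
    Finset.prod_nonneg fun s _ => Finset.prod_nonneg fun j _ => (Real.exp_pos _).le
  set 𝒴 : Finset (Finset ((Sd D × ℤ) × α)) := I.powerset.filter fun Y =>
    (∀ y ∈ Y, y.1.2 ∈ J y.1.1) ∧ Set.InjOn Prod.fst (Y : Set ((Sd D × ℤ) × α)) ∧
      Set.InjOn Prod.snd (Y : Set ((Sd D × ℤ) × α)) with h𝒴
  have term : ∀ Y ∈ 𝒴, Pr Ω p (fun A => Y.image Prod.snd ⊆ A ∧
      EY2 ht C₀ C₁ J Y (A \ Y.image Prod.snd)) ≤ P * ∏ y ∈ Y, w y := by
    intro Y hY
    obtain ⟨-, a1, a2, a3⟩ := Finset.mem_filter.1 hY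
    have b1 := (bTrick.1 _ Ω p hp0 hp2).1 (Y.image Prod.snd) (EY2 ht C₀ C₁ J Y)
    rw [Finset.card_image_of_injOn a3] at b1
    have b2 := h2 D α Ω p p' k hk hp' hp hp2 S R ht C₀ C₁ E φ J Y hL hJs
      (fun s j c1 c2 => ⟨(hφ s j c1 c2).1, (hφ s j c1 c2).2.1, (hφ s j c1 c2).2.2.1⟩) hmono a1 a2
    have b4 : ∏ s : Sd D, ∏ j ∈ JY2 ht J Y s, Real.exp (- gk k (φ s (j + 1))) ≤
        P * Real.exp (8 * D * g₀) ^ Y.card := by
      calc ∏ s : Sd D, ∏ j ∈ JY2 ht J Y s, Real.exp (- gk k (φ s (j + 1)))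
          ≤ ∏ s : Sd D, ((∏ j ∈ J s, Real.exp (- gk k (φ s (j + 1)))) *
              Real.exp (4 * Y.card * g₀)) :=
            Finset.prod_le_prod (fun s _ => Finset.prod_nonneg fun j _ => (Real.exp_pos _).le)
              fun s _ => side_GHc ht J Y s (fun j => gk k (φ s (j + 1))) g₀ hg (hb s)
        _ = P * Real.exp (8 * D * g₀) ^ Y.card := by
            rw [Finset.prod_mul_distrib, Finset.prod_const, ← Real.exp_nat_mul,
              ← Real.exp_nat_mul]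
            congr 2
            simp only [Finset.card_univ, Fintype.card_prod, Fintype.card_fin, Fintype.card_bool]
            push_cast
            ring
    have b5 : 0 ≤ ∏ y ∈ Y, (1 - p) ^ (C₁ y.1.1 y.1.2).card :=
      Finset.prod_nonneg fun _ _ => pow_nonneg (by linarith) _
    have b6 := b2.trans (mul_le_mul_of_nonneg_left b4 b5)
    refine b1.trans ((mul_le_mul_of_nonneg_left b6 (by positivity)).trans (le_of_eq ?_))
    simp only [hw]
    rw [Finset.prod_mul_distrib, Finset.prod_mul_distrib, Finset.prod_const, Finset.prod_const]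
    ring
  calc Pr Ω p (fun A => ∀ s, ∀ j ∈ J s, ∃ x ∈ A, x ∈ E s j)
      ≤ Pr Ω p (fun A => ∃ Y ∈ 𝒴, Y.image Prod.snd ⊆ A ∧
          EY2 ht C₀ C₁ J Y (A \ Y.image Prod.snd)) := by
        refine mono_PrA Ω hp0 hp1 _ _ fun A _ hA => ?_
        obtain ⟨Y, a1, a2, a3, a4⟩ := h1 D α Ω S R ht C₀ C₁ E J A hL hJs hA
        refine ⟨Y, Finset.mem_filter.2 ⟨Finset.mem_powerset.2 fun y hy => (memI y).2
          ⟨hJs _ (a1 y hy).1, (a1 y hy).2.1⟩, fun y hy => (a1 y hy).1, a2, a3⟩,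
          fun x hx => ?_, a4⟩
        obtain ⟨y, hy, rfl⟩ := Finset.mem_image.1 hx
        exact (a1 y hy).2.2
    _ ≤ ∑ Y ∈ 𝒴, Pr Ω p (fun A => Y.image Prod.snd ⊆ A ∧
          EY2 ht C₀ C₁ J Y (A \ Y.image Prod.snd)) := union_PrA Ω hp0 hp1 𝒴 _
    _ ≤ ∑ Y ∈ 𝒴, P * ∏ y ∈ Y, w y := Finset.sum_le_sum term
    _ ≤ ∑ Y ∈ I.powerset, P * ∏ y ∈ Y, w y :=
        Finset.sum_le_sum_of_subset_of_nonneg (Finset.filter_subset _ _)
          fun Y _ _ => mul_nonneg hP0 (Finset.prod_nonneg fun y _ => hw0 y)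
    _ ≤ P * Real.exp (∑ y ∈ I, w y) := by
        rw [← Finset.mul_sum]
        exact mul_le_mul_of_nonneg_left (bTrick.2.2 _ I w fun y _ => hw0 y) hP0
    _ = _ := by rw [hsum]

end Pool.Agent.MP_6d294b_pr

end

section

open Finset

namespace Pool.Agent.MP_6d294b_pr

variable {D d : ℕ}

open Classical in
/-- the point over `y` that is lowered by one step in the direction `o` -/
noncomputable def up_GLY (F : Fr D d) (o : Option (Fin d)) (y : Pt D) : Pt d := fun t =>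
  if h : ∃ i, F.io i = t then y h.choose
  else if F.ta t then F.c t - (if o = some t then 1 else 0)
  else (if o = some t then 1 else 0) - F.c t

theorem pp_GLY (F : Fr D d) (o : Option (Fin d)) (y : Pt D) : F.pp (up_GLY F o y) = y := by
  funext i
  have h : ∃ j, F.io j = F.io i := ⟨i, rfl⟩
  simp only [Fr.pp, up_GLY, dif_pos h]
  rw [F.inj h.choose_spec]

theorem th_GLY (F : Fr D d) (o : Option (Fin d)) (y : Pt D) {t : Fin d} (ht : t ∈ F.th) :
    F.c t - ptB (up_GLY F o y) (t, F.ta t) = if o = some t then 1 else 0 := by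
  have h : ¬ ∃ j, F.io j = t := by simpa [Fr.th] using ht
  simp only [ptB, kap, up_GLY, dif_neg h]
  cases F.ta t <;> simp

theorem low_GLY (F : Fr D d) (o : Option (Fin d)) (y : Pt D) : F.Low (up_GLY F o y) := by
  intro t ht
  have h : F.c t - kap (t, F.ta t) (up_GLY F o y) = _ := th_GLY F o y ht
  split_ifs at h <;> omega

theorem lev_GLY (F : Fr D d) (o : Option (Fin d)) (y : Pt D) :
    F.lev (ptB (up_GLY F o y)) ≤ if o = none then 0 else 1 := by
  rw [Fr.lev, sum_congr rfl fun t ht => th_GLY F o y ht]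
  cases o with
  | none => simp
  | some u =>
    simp only [Option.some.injEq, sum_ite_eq, reduceCtorEq, if_false]
    split_ifs <;> omega

theorem mem_GLY (F : Fr D d) (X : Finset (Pt D)) (h : ℕ) (x : Pt d) :
    x ∈ LY F h X ↔ F.pp x ∈ X ∧ F.Low x ∧ F.lev (ptB x) ≤ h := by
  simp only [LY, mem_filter, and_iff_right_iff_imp, Fintype.mem_piFinset, mem_union, mem_biUnion,
    mem_univ, true_and, mem_image, mem_Icc]
  rintro ⟨h1, h2, h3⟩ t
  by_cases e : ∃ i, F.io i = t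
  · obtain ⟨i, rfl⟩ := e
    exact Or.inl ⟨i, _, h1, rfl⟩
  · have ht : t ∈ F.th := by simpa [Fr.th] using e
    have a := (single_le_sum (f := fun t => F.c t - ptB x (t, F.ta t))
      (fun t ht => sub_nonneg.2 (h2 t ht)) ht).trans h3
    have b := h2 t ht
    have c := le_abs_self (F.c t)
    have c' := neg_abs_le (F.c t)
    simp only [ptB, kap] at a b
    right
    split_ifs at a b <;> omega

theorem zero_GLY (F : Fr D d) (X : Finset (Pt D)) : (LY F 0 X).card = X.card := by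
  refine (card_bij (fun y _ => up_GLY F none y) (fun y hy => ?_) (fun y _ z _ e => ?_)
    fun x hx => ?_).symm
  · rw [mem_GLY, pp_GLY]
    exact ⟨hy, low_GLY F _ y, by simpa using lev_GLY F none y⟩
  · rw [← pp_GLY F none y, e, pp_GLY]
  · obtain ⟨h1, h2, h3⟩ := (mem_GLY F X 0 x).1 hx
    refine ⟨_, h1, inj_RLiftB F (pp_GLY F _ _) fun t ht => ?_⟩
    rw [th_GLY F _ _ ht, if_neg (by simp)]
    exact le_antisymm (sub_nonneg.2 (h2 t ht))
      ((single_le_sum (f := fun t => F.c t - ptB x (t, F.ta t))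
        (fun t ht => sub_nonneg.2 (h2 t ht)) ht).trans h3)

theorem one_GLY (F : Fr D d) (X : Finset (Pt D)) : (LY F 1 X).card = (d - D + 1) * X.card := by
  rw [← (bLiftA D d F).1.1, ← card_insertNone, ← card_product]
  refine (card_bij (fun z _ => up_GLY F z.1 z.2) (fun z hz => ?_) (fun z hz w hw e => ?_)
    fun x hx => ?_).symm
  · rw [mem_GLY, pp_GLY]
    refine ⟨(mem_product.1 hz).2, low_GLY F _ _, (lev_GLY F _ _).trans ?_⟩
    split_ifs <;> simp
  · have k : ∀ t ∈ F.th, (z.1 = some t ↔ w.1 = some t) := by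
      intro t ht
      have a := th_GLY F z.1 z.2 ht
      rw [e, th_GLY F _ _ ht] at a
      split_ifs at a <;> simp_all
    refine Prod.ext (Option.ext fun t => ⟨fun h => ?_, fun h => ?_⟩) ?_
    · exact (k t (mem_insertNone.1 (mem_product.1 hz).1 t h)).1 h
    · exact (k t (mem_insertNone.1 (mem_product.1 hw).1 t h)).2 h
    · rw [← pp_GLY F z.1 z.2, e, pp_GLY]
  · obtain ⟨h1, h2, h3⟩ := (mem_GLY F X 1 x).1 hx
    obtain ⟨o, ho, h⟩ := one_RLiftB F.th (fun t => F.c t - ptB x (t, F.ta t))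
      (fun t ht => sub_nonneg.2 (h2 t ht)) h3
    exact ⟨(o, F.pp x), mem_product.2 ⟨ho, h1⟩,
      inj_RLiftB F (pp_GLY F _ _) fun t ht => (th_GLY F _ _ ht).trans (h t ht).symm⟩

theorem ground_GLY {α : Type} [DecidableEq α] (Ω Ω' : Finset α) {p : ℝ} {E : Finset α → Prop}
    (h0 : 0 ≤ p) (h1 : p ≤ 1) (h : Ω ⊆ Ω') (hE : Incr E) : Pr Ω p E ≤ Pr Ω' p E := by
  have k : ∀ Z : Finset α, Pr Ω p E ≤ Pr (Ω ∪ Z) p E := by
    intro Z
    induction Z using Finset.induction_on with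
    | empty => simp
    | insert a Z _ ih =>
      rw [union_insert]
      by_cases ha : a ∈ Ω ∪ Z
      · rwa [insert_eq_of_mem ha]
      · have c := mono_PrA (Ω ∪ Z) h0 h1 E (fun A => E (insert a A))
          fun A _ hA => hE _ _ (subset_insert a A) hA
        rw [insert_PrA _ a ha]
        nlinarith
  simpa [union_eq_right.2 h] using k Ω'

theorem gLY : GLY :=
  ⟨fun _ _ F X => ⟨mem_GLY F X, zero_GLY F X, one_GLY F X, fun _ h t ht => (h t ht).1⟩,
    fun _ _ Ω Ω' _ _ h0 h1 h hE => ground_GLY Ω Ω' h0 h1 h hE⟩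

end Pool.Agent.MP_6d294b_pr

end

section

open Finset

namespace Pool.Agent.MP_6d294b_pr

lemma step_GLine {u w b κ a q y : ℝ} (hu : 0 < u) (hub : u ≤ b) (hw : w ≤ 1)
    (hb : b ^ 2 = w * b + (1 - w) * u) (hκ : b ≤ κ) (ha : a ≤ w) (hq : q ≤ u) (hy : 0 ≤ y) :
    a * (κ * y) + (1 - a) * (q * y) ≤ b * (κ * y) := by
  have h1 : w ≤ b := by
    have := mul_nonneg (sub_nonneg.2 hw) hu.le
    exact le_of_mul_le_mul_right (by linarith) (hu.trans_le hub)
  have h2 := mul_nonneg (sub_nonneg.2 hκ) (sub_nonneg.2 h1)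
  have h3 := mul_nonneg (sub_nonneg.2 ha) (sub_nonneg.2 (hub.trans hκ))
  have h4 := mul_nonneg (sub_nonneg.2 (ha.trans hw)) (sub_nonneg.2 hq)
  have h5 : a * κ + (1 - a) * q ≤ b * κ := by linarith
  have h6 := mul_le_mul_of_nonneg_right h5 hy
  linarith

lemma occ_GLine {α : Type} [DecidableEq α] {X Y : Finset α} (h : Disjoint Y X) (A : Finset α) :
    (∃ x ∈ A, x ∈ Y) ↔ (∃ x ∈ A \ X, x ∈ Y) :=
  ⟨fun ⟨x, hx, hy⟩ => ⟨x, mem_sdiff.2 ⟨hx, disjoint_left.1 h hy⟩, hy⟩,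
    fun ⟨x, hx, hy⟩ => ⟨x, (mem_sdiff.1 hx).1, hy⟩⟩

lemma occI_GLine {α : Type} [DecidableEq α] {X Y : Finset α} (h : Y ⊆ X) (A : Finset α) :
    (∃ x ∈ A, x ∈ Y) ↔ (∃ x ∈ A ∩ X, x ∈ Y) :=
  ⟨fun ⟨x, hx, hy⟩ => ⟨x, mem_inter.2 ⟨hx, h hy⟩, hy⟩,
    fun ⟨x, hx, hy⟩ => ⟨x, (mem_inter.1 hx).1, hy⟩⟩

lemma ng_GLine {α : Type} [DecidableEq α] {C₀ C₁ : ℤ → Finset α} {J : Finset ℤ} {X : Finset α}
    (h : ∀ i ∈ J, Disjoint (C₁ i) X ∧ Disjoint (C₀ (i + 1)) X) (A : Finset α) :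
    NG2 C₀ C₁ J A ↔ NG2 C₀ C₁ J (A \ X) := by
  unfold NG2
  refine forall_congr' fun i => forall_congr' fun hi => ?_
  rw [occ_GLine (h i hi).1 A, occ_GLine (h i hi).2 A]

lemma occP_GLine {α : Type} [DecidableEq α] (Ω : Finset α) {p p' z : ℝ} (p0 : 0 ≤ p)
    (p1 : p ≤ 1) (hp : p = 1 - Real.exp (- p')) (X : Finset α) (hz : p' * X.card ≤ z) :
    Pr Ω p (fun A => ∃ x ∈ A, x ∈ X) ≤ 1 - Real.exp (- z) := by
  obtain ⟨-, -, a2, -, -, -⟩ := bPrA α Ω p p0 p1
  obtain ⟨-, b2, b3, -⟩ := bPrB α Ω p p0 p1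
  have h1 := b3 X
  have h2 := b2 (fun A => A ∩ X = ∅)
  have h3 := a2 (fun A => ∃ x ∈ A, x ∈ X) (fun A => ¬ A ∩ X = ∅) (by
    rintro A - ⟨x, hx, hy⟩ h
    have : x ∈ A ∩ X := mem_inter.2 ⟨hx, hy⟩
    rw [h] at this
    exact notMem_empty x this)
  have h4 : Real.exp (- z) ≤ (1 - p) ^ X.card := by
    rw [hp, sub_sub_cancel, ← Real.exp_nat_mul]
    exact Real.exp_le_exp.2 (by linarith)
  linarith

theorem gLine : GLine := by
  intro α _ Ω p p' k hk hp' hp C₀ C₁ φ J G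
  have p0 : 0 ≤ p := by
    rw [hp]
    exact sub_nonneg.2 (Real.exp_le_one_iff.2 (neg_nonpos.2 hp'))
  have p1 : p ≤ 1 := by
    rw [hp]
    exact sub_le_self _ (Real.exp_pos _).le
  obtain ⟨a0, a1, a2, a3, -, -⟩ := bPrA α Ω p p0 p1
  obtain ⟨b1, b2, -, -⟩ := bPrB α Ω p p0 p1
  induction J using Finset.strongInduction with
  | H J ih =>
  intro hd hu hm hG
  rcases J.eq_empty_or_nonempty with rfl | hne
  · simp only [prod_empty, mul_one]
    exact a2 _ _ fun A _ h => h.1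
  obtain ⟨j, hj, hmin⟩ : ∃ j ∈ J, ∀ i ∈ J, j ≤ i :=
    ⟨J.min' hne, J.min'_mem hne, fun i hi => J.min'_le i hi⟩
  have sub : ∀ K, K ⊂ J → Pr Ω p (fun A => G A ∧ NG2 C₀ C₁ K A) ≤
      Pr Ω p G * ∏ i ∈ K, Real.exp (- gk k (φ (i + 1))) := by
    intro K hK
    have hs : ∀ i, (i ∈ K ∨ i - 1 ∈ K) → (i ∈ J ∨ i - 1 ∈ J) := fun i hi =>
      hi.imp (fun h => hK.1 h) (fun h => hK.1 h)
    exact ih K hK (fun i l hi hl => hd i l (hs i hi) (hs l hl)) (fun i hi => hu i (hs i hi))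
      (fun i hi => hm i (hK.1 hi)) (fun i hi => hG i (hs i hi))
  have mem1 : ∀ i ∈ J, i + 1 ∈ J ∨ i + 1 - 1 ∈ J := fun i hi => Or.inr (by simpa using hi)
  have hj1 := mem1 j hj
  have hj0 : j ∈ J ∨ j - 1 ∈ J := Or.inl hj
  have s1 : J.erase j ⊂ J := erase_ssubset hj
  have s2 : (J.erase j).erase (j + 1) ⊂ J := lt_of_le_of_lt (erase_subset _ _) s1
  have d1 : ∀ i ∈ J.erase j, Disjoint (C₁ i) (C₁ j) ∧ Disjoint (C₀ (i + 1)) (C₁ j) := by
    intro i hi
    obtain ⟨h1, h2⟩ := mem_erase.1 hi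
    have := hmin i h2
    exact ⟨hd _ _ (Or.inl h2) hj0 h1,
      (hd _ _ (mem1 i h2) hj0 (by omega)).mono_left (hu _ (mem1 i h2)).1⟩
  have d2 : ∀ i ∈ (J.erase j).erase (j + 1),
      Disjoint (C₁ i) (C₁ (j + 1)) ∧ Disjoint (C₀ (i + 1)) (C₁ (j + 1)) := by
    intro i hi
    obtain ⟨h0, hi'⟩ := mem_erase.1 hi
    obtain ⟨h1, h2⟩ := mem_erase.1 hi'
    exact ⟨hd _ _ (Or.inl h2) hj1 h0,
      (hd _ _ (mem1 i h2) hj1 (by omega)).mono_left (hu _ (mem1 i h2)).1⟩
  obtain ⟨u0, u1, -, u3⟩ := hu _ hj1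
  obtain ⟨-, -, v2, -⟩ := hu _ hj0
  have d3 : Disjoint (C₀ (j + 1)) (C₁ j) := (hd _ _ hj1 hj0 (by omega)).mono_left u0
  have i1 := b1 (C₁ j) (fun A => ∃ x ∈ A, x ∈ C₁ j)
    (fun A => G A ∧ NG2 C₀ C₁ (J.erase j) A) (occI_GLine Subset.rfl)
    (fun A => and_congr (hG _ hj0 A) (ng_GLine d1 A))
  have i2 := b1 (C₁ j) (fun A => ¬ ∃ x ∈ A, x ∈ C₁ j)
    (fun A => (∃ x ∈ A, x ∈ C₀ (j + 1)) ∧ G A ∧ NG2 C₀ C₁ ((J.erase j).erase (j + 1)) A)
    (fun A => not_congr (occI_GLine Subset.rfl A))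
    (fun A => and_congr (occ_GLine d3 A) (and_congr (hG _ hj0 A)
      (ng_GLine (fun i hi => d1 i (erase_subset _ _ hi)) A)))
  have i3 := b1 (C₁ (j + 1)) (fun A => ∃ x ∈ A, x ∈ C₀ (j + 1))
    (fun A => G A ∧ NG2 C₀ C₁ ((J.erase j).erase (j + 1)) A) (occI_GLine u0)
    (fun A => and_congr (hG _ hj1 A) (ng_GLine d2 A))
  have c1 := b2 (fun A => ∃ x ∈ A, x ∈ C₁ j)
  have un := a3 (fun A => (∃ x ∈ A, x ∈ C₁ j) ∧ G A ∧ NG2 C₀ C₁ (J.erase j) A)
    (fun A => (¬ ∃ x ∈ A, x ∈ C₁ j) ∧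
      (∃ x ∈ A, x ∈ C₀ (j + 1)) ∧ G A ∧ NG2 C₀ C₁ ((J.erase j).erase (j + 1)) A)
  have mo := a2 (fun A => G A ∧ NG2 C₀ C₁ J A)
    (fun A => ((∃ x ∈ A, x ∈ C₁ j) ∧ G A ∧ NG2 C₀ C₁ (J.erase j) A) ∨
      ((¬ ∃ x ∈ A, x ∈ C₁ j) ∧
      (∃ x ∈ A, x ∈ C₀ (j + 1)) ∧ G A ∧ NG2 C₀ C₁ ((J.erase j).erase (j + 1)) A)) (by
    rintro A - ⟨hg, hn⟩
    by_cases h : ∃ x ∈ A, x ∈ C₁ j
    · exact Or.inl ⟨h, hg, fun i hi => hn i (s1.1 hi)⟩
    · exact Or.inr ⟨h, (hn j hj).resolve_left h, hg, fun i hi => hn i (s2.1 hi)⟩)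
  rw [i1, i2, i3, c1] at un
  have o1 := occP_GLine Ω p0 p1 hp (C₁ j)
    (v2.trans (mul_le_mul_of_nonneg_left (hm j hj) (Nat.cast_nonneg k)))
  have o0 := occP_GLine Ω p0 p1 hp (C₀ (j + 1)) u1
  have w0 : 0 < 1 - Real.exp (- φ (j + 1)) :=
    sub_pos.2 (Real.exp_lt_one_iff.2 (neg_lt_zero.2 u3))
  obtain ⟨e1, e2, e3⟩ := (bBet k hk).1 _ w0.le (sub_le_self _ (Real.exp_pos _).le)
  rw [← ((bBet k hk).2 _ u3).1] at e1 e2 e3
  have e4 : Real.exp (- gk k (φ (j + 1))) ^ 2 =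
      (1 - Real.exp (- (k * φ (j + 1)))) * Real.exp (- gk k (φ (j + 1))) +
        (1 - (1 - Real.exp (- (k * φ (j + 1))))) * (1 - Real.exp (- φ (j + 1))) := by
    rw [e3, sub_sub_cancel, sub_sub_cancel, ← Real.exp_nat_mul, mul_neg]
  obtain ⟨κ, k1, k2⟩ : ∃ κ, Real.exp (- gk k (φ (j + 1))) ≤ κ ∧
      Pr Ω p G * ∏ i ∈ J.erase j, Real.exp (- gk k (φ (i + 1))) =
        κ * (Pr Ω p G * ∏ i ∈ (J.erase j).erase (j + 1), Real.exp (- gk k (φ (i + 1)))) := by
    by_cases h : j + 1 ∈ J.erase j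
    · refine ⟨Real.exp (- gk k (φ (j + 1 + 1))), Real.exp_le_exp.2 (neg_le_neg
        ((bSlope k hk).2 _ _ u3 (hm _ (mem_erase.1 h).2)).1), ?_⟩
      rw [← mul_prod_erase _ _ h]
      ring
    · exact ⟨1, e2, by rw [erase_eq_of_notMem h, one_mul]⟩
  have fin := step_GLine w0 e1 (sub_le_self _ (Real.exp_pos _).le) e4 k1 o1 o0
    (mul_nonneg (a0 G) (prod_nonneg (s := (J.erase j).erase (j + 1))
      fun i _ => (Real.exp_pos (- gk k (φ (i + 1)))).le))
  have t1 := mul_le_mul_of_nonneg_left (sub _ s1) (a0 (fun A => ∃ x ∈ A, x ∈ C₁ j))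
  have t2 := mul_le_mul_of_nonneg_left
    (mul_le_mul_of_nonneg_left (sub _ s2) (a0 (fun A => ∃ x ∈ A, x ∈ C₀ (j + 1))))
    (sub_nonneg.2 (a1 (fun A => ∃ x ∈ A, x ∈ C₁ j)))
  rw [← mul_prod_erase _ _ hj, mul_left_comm]
  rw [← k2] at fin
  exact mo.trans (un.trans ((add_le_add t1 t2).trans fin))

end Pool.Agent.MP_6d294b_pr

end

section

open Finset

namespace Pool.Agent.MP_6d294b_pr

theorem cov_GRed {d : ℕ} {θ : Pt d → ℕ} {A₀ K₀ : Finset (Pt d)} (Z : Pt d → Prop)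
    (h0 : ∀ x ∈ A₀, Z x)
    (h1 : ∀ (K : Finset (Pt d)) (v : Pt d), K ⊆ K₀ → (∀ x ∈ K, Z x) → θ v ≤ nb v K → Z v)
    {A K : Finset (Pt d)} {P : Bx d} (h : Fill θ A K P) : A ⊆ A₀ → K ⊆ K₀ → ∀ x ∈ K, Z x := by
  induction h with
  | pt x => exact fun a _ y hy => h0 y (a hy)
  | merge _ _ _ _ _ _ i1 i2 =>
    intro a b y hy
    rcases mem_union.1 hy with c | c
    · exact i1 (subset_union_left.trans a) (subset_union_left.trans b) y c
    · exact i2 (subset_union_right.trans a) (subset_union_right.trans b) y c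
  | add _ ht ih =>
    intro a b y hy
    have c := (subset_insert _ _).trans b
    rcases mem_insert.1 hy with rfl | e
    · exact h1 _ _ c (ih a c) ht
    · exact ih a c y e

theorem gRed (h1 : GFam) : GRed := by
  classical
  intro D d F T K A R hT ⟨A₀, K₀, P, a1, hF, hReg, hR⟩
  obtain ⟨g1, g2, -, g4, -, -, -, g8, -, -, -, g12, -⟩ := bGap d
  obtain ⟨g1', g2', -, g4', -⟩ := bGap D
  obtain ⟨-, l2, -, -, -, -, l7, -, l9, l10, -, -, l13, -, l15, -, -, l18⟩ := bLiftA D d F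
  obtain ⟨f1, f2, f3, f4, f5, f6, -⟩ := bFill d F.thr l2 A₀ K₀ P hF
  obtain ⟨I, J, i1, i2, i3, i4, i5, i6, i7⟩ :=
    h1 D d F T K A₀ P hT hReg fun x hx => f4 x (f2 hx)
  have gs := (bGeoA D).2.1
  have hreg : ∀ u ∈ K₀, F.Reg (ptB u) := fun u hu => (l15 _ _ (f4 u hu)).2 hReg
  have d2 : ∀ u u' v : Pt d, dst u v = 1 → dst u' v = 1 → dst u u' ≤ 2 := fun u u' v a b => by
    have := g2 u v u'
    have := g1 v u'
    omega
  have hZ : ∀ x ∈ K₀, (∃ u ∈ I, InB x u.2) ∨ ∃ v ∈ J, InB (F.pp x) v.2 := by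
    refine cov_GRed (K₀ := K₀) _ i3 (fun K' v hK hc ht => ?_) hF subset_rfl subset_rfl
    by_contra hv
    rw [not_or] at hv
    have hin : (((K'.filter fun u => dst u v = 1).filter
        fun u => ∃ b ∈ J, InB (F.pp u) b.2).card) ≤ 1 := by
      refine card_le_one.2 fun u hu u' hu' => ?_
      obtain ⟨c1, b, c2, c3⟩ := mem_filter.1 hu
      obtain ⟨c4, b', c5, c6⟩ := mem_filter.1 hu'
      obtain ⟨c7, c8⟩ := mem_filter.1 c1
      obtain ⟨c9, c10⟩ := mem_filter.1 c4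
      have e : b = b' := i6 b c2 b' c5
        ((g4' _ _ _ _ c3 c6).trans ((l9 u u').trans (d2 u u' v c8 c10)))
      subst e
      by_contra hne
      have := g8 (F.lift b.2) u u' v hne c8 c10 ((l13 _ _).2 ⟨c3, hreg u (hK c7)⟩)
        ((l13 _ _).2 ⟨c6, hreg u' (hK c9)⟩)
      exact hv.2 ⟨b, c2, ((l13 _ (ptB v)).1 this).1⟩
    have hout : (((K'.filter fun u => dst u v = 1).filter
        fun u => ¬ ∃ b ∈ J, InB (F.pp u) b.2).card) ≤ 1 := by
      refine card_le_one.2 fun u hu u' hu' => ?_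
      obtain ⟨c1, c2⟩ := mem_filter.1 hu
      obtain ⟨c4, c5⟩ := mem_filter.1 hu'
      obtain ⟨c7, c8⟩ := mem_filter.1 c1
      obtain ⟨c9, c10⟩ := mem_filter.1 c4
      obtain ⟨b, c3, c11⟩ := (hc u c7).resolve_right c2
      obtain ⟨b', c6, c12⟩ := (hc u' c9).resolve_right c5
      have e : b = b' := i4 b c3 b' c6 ((g4 _ _ _ _ c11 c12).trans (d2 u u' v c8 c10))
      subst e
      by_contra hne
      exact hv.1 ⟨b, c3, g8 _ u u' v hne c8 c10 c11 c12⟩
    have hs := card_filter_add_card_filter_not (s := K'.filter fun u => dst u v = 1)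
      fun u => ∃ b ∈ J, InB (F.pp u) b.2
    have h2 := l2 v
    unfold nb at ht
    have hl : F.lev (ptB v) = 0 := by
      by_contra hne
      rw [Fr.thr, if_neg hne] at ht
      omega
    obtain ⟨u, hu⟩ := card_pos.1 (show 0 < ((K'.filter fun u => dst u v = 1).filter
      fun u => ∃ b ∈ J, InB (F.pp u) b.2).card by omega)
    obtain ⟨u', hu'⟩ := card_pos.1 (show 0 < ((K'.filter fun u => dst u v = 1).filter
      fun u => ¬ ∃ b ∈ J, InB (F.pp u) b.2).card by omega)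
    obtain ⟨c1, b, c2, c3⟩ := mem_filter.1 hu
    obtain ⟨c4, c5⟩ := mem_filter.1 hu'
    obtain ⟨-, c8⟩ := mem_filter.1 c1
    obtain ⟨c9, c10⟩ := mem_filter.1 c4
    obtain ⟨a, c6, c12⟩ := (hc u' c9).resolve_right c5
    have k1 : F.lev a.2 ≤ F.lev (ptB u') := (l15 (ptB u') a.2 c12).1
    have k2 := g4' _ _ _ _ c3 (l7 _ _ c12)
    have k3 := l9 u v
    have k4 := l9 u u'
    have k5 := d2 u u' v c8 c10
    obtain ⟨k6, k7⟩ := l18 u' v c10
    refine i5 a c6 b c2 ⟨(l15 _ _ (i1 a c6).2.1).2 hReg, (i1 a c6).2.2, by omega, ?_⟩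
    rcases k7 with k7 | ⟨-, k7⟩
    · rw [k7] at k2
      omega
    · omega
  by_cases hb : ∃ x ∈ K₀, ∃ v ∈ J, InB (F.pp x) v.2
  swap
  · left
    obtain ⟨x₀, hx₀⟩ := f3
    have ho : ∀ x ∈ K₀, ∃ u ∈ I, InB x u.2 := fun x hx =>
      (hZ x hx).resolve_right fun c => hb ⟨x, hx, c⟩
    obtain ⟨u, hu, hx⟩ := ho x₀ (f2 hx₀)
    have hall := f6 (fun x => InB x u.2) (fun x _ y hy hd hx => by
      obtain ⟨u', hu', hy'⟩ := ho y hy
      rw [i4 u hu u' hu' ((g4 _ _ _ _ hx hy').trans hd)]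
      exact hy') x₀ (f2 hx₀)
    have hle : P ≤ u.2 := fun s => by
      obtain ⟨x, c1, c2⟩ := f5 s
      rw [← c2]
      exact hall x (f2 c1) hx s
    have c1 := ((bGeoA d).2.2.2.1 P u.2 ((bGeoA d).1 _ _ f1).1 hle).2.2.2.1
    have c2 := l10 P
    have c3 := (i1 u hu).2.2
    rw [← hR]
    omega
  obtain ⟨x₀, hx₀, b, hb1, hb2⟩ := hb
  have hall := f6 (fun x => InB (F.pp x) b.2 ∨ ∃ u ∈ I, InB x u.2 ∧ gap b.2 (F.pr u.2) ≤ 2)
    (fun x _ y hy hd hx => by
      have c0 := (l9 x y).trans hd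
      rcases hx with c1 | ⟨u, hu, c1, c2⟩
      · rcases hZ y hy with ⟨u', hu', c3⟩ | ⟨b', hb', c3⟩
        · exact Or.inr ⟨u', hu', c3, (g4' _ _ _ _ c1 (l7 _ _ c3)).trans c0⟩
        · rw [i6 b hb1 b' hb' ((g4' _ _ _ _ c1 c3).trans c0)]
          exact Or.inl c3
      · rcases hZ y hy with ⟨u', hu', c3⟩ | ⟨b', hb', c3⟩
        · rw [i4 u hu u' hu' ((g4 _ _ _ _ c1 c3).trans hd)] at c2
          exact Or.inr ⟨u', hu', c3, c2⟩
        · left
          rw [i7 u hu b hb1 b' hb' c2 (by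
            rw [gs]
            exact (g4' _ _ _ _ (l7 _ _ c1) c3).trans c0)]
          exact c3) x₀ hx₀
  obtain ⟨j1, j2, j3⟩ := i2 b hb1
  refine Or.inr ⟨b.2, hR ▸ j3, ⟨b.1, j1.trans a1, j2⟩, fun s => ?_⟩
  obtain ⟨x, c1, c2⟩ := f5 (F.io s.1, s.2)
  have c3 : R s = kap s (F.pp x) := by
    rw [← hR]
    exact c2.symm
  rw [c3]
  rcases hall x (f2 c1) (Or.inl hb2) with c4 | ⟨u, hu, c4, c5⟩
  · have := c4 s
    omega
  · have c6 := l7 _ _ c4 s
    have c7 := gap_FExt2 b.2 (F.pr u.2) s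
    have c8 := psi_FExt2 (F.pr u.2) s
    have c9 := l10 u.2
    have c10 := (i1 u hu).2.2
    omega

end Pool.Agent.MP_6d294b_pr

end

section

open Finset

namespace Pool.Agent.MP_6d294b_pr

theorem one_GSL {d : ℕ} (hd : 1 ≤ d) (Ω : Finset (Pt d)) {p c : ℝ} {T : ℕ} (p0 : 0 ≤ p)
    (p1 : p ≤ 1) (c0 : 0 ≤ c)
    (h : 3 * Real.exp 1 * p * (2 * T + 1) ^ (d - 1) * Real.exp (2 * c) ≤ 1 / 64)
    (P : Bx d) (hP : psi P ≤ 2 * T) : Pr Ω p (ISp P) ≤ Real.exp (- ((c + 1) * psi P)) := by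
  let i : Fin d := ⟨0, hd⟩
  have h1 : sg (ex P) i ≤ (2 * T + 1) ^ (d - 1) :=
    (((bBoxC d).2.2.2.1 P).2.1 i).2.1.trans (Nat.pow_le_pow_left (by omega) _)
  have h2 : (sg (ex P) i : ℝ) ≤ (2 * T + 1) ^ (d - 1) := by exact_mod_cast h1
  have h3 := (bSeed d Ω p p0 p1 P i c c0).2 (le_trans (mul_le_mul_of_nonneg_right
    (mul_le_mul_of_nonneg_left h2 (by positivity)) (Real.exp_pos _).le) h)
  have h4 : (1 / 4 : ℝ) ≤ Real.exp (-1) := by
    rw [Real.exp_neg, one_div]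
    exact inv_anti₀ (Real.exp_pos _) (by linarith [Real.exp_one_lt_d9])
  have h5 : p * (1 / 4 : ℝ) ^ psi P ≤ Real.exp (- (psi P : ℝ)) := by
    have h6 : (1 / 4 : ℝ) ^ psi P ≤ Real.exp (-1) ^ psi P :=
      pow_le_pow_left₀ (by norm_num) h4 _
    rw [← Real.exp_nat_mul, mul_neg, mul_one] at h6
    exact le_trans (mul_le_of_le_one_left (by positivity) p1) h6
  have h7 : Real.exp (- ((c + 1) * psi P)) * Real.exp (c * psi P) = Real.exp (- (psi P : ℝ)) := by
    rw [← Real.exp_add]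
    congr 1
    ring
  exact le_of_mul_le_mul_right (h7 ▸ h3.trans h5) (Real.exp_pos _)

theorem card_GSL {D d : ℕ} (F : Fr D d) (N : ℕ) (S : Bx D) (hk : 1 ≤ F.k)
    (hS : psi S ≤ 2 * N) : ((boxes (F.lift S)).card : ℝ) ≤ Real.exp (LamV d N F.k) := by
  have h1 := (bLiftB D d F).2.1 (2 * N + 1) S
    (fun i => by have := (((bBoxC D).2.2.2.1 S).2.1 i).2.2; omega) hk
  have h2 : Real.exp (LamV d N F.k) = (2 * N + 1 + F.k : ℝ) ^ (2 * d) := by
    have h3 : LamV d N F.k = ((2 * d : ℕ) : ℝ) * Real.log (2 * N + 1 + F.k) := by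
      unfold LamV
      push_cast
      ring
    rw [h3, Real.exp_nat_mul, Real.exp_log (by positivity)]
  rw [h2]
  exact_mod_cast h1

theorem uni_GSL {D d : ℕ} (F : Fr D d) (Ω : Finset (Pt d)) {p c : ℝ} {T N : ℕ} {S : Bx D}
    (hD : 1 ≤ D) (p0 : 0 ≤ p) (p1 : p ≤ 1) (c0 : 0 ≤ c) (hk : 1 ≤ F.k)
    (h : 3 * Real.exp 1 * p * (2 * T + 1) ^ (d - 1) * Real.exp (2 * c) ≤ 1 / 64)
    (hS : psi S ≤ 2 * N) (E : Finset (Pt d) → Prop) (L : ℝ)
    (hE : ∀ A, E A → ∃ P, F.Reg P ∧ F.pr P ≤ S ∧ psi P ≤ 2 * T ∧ L ≤ (c + 1) * psi P ∧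
      ISp P A) :
    Pr Ω p E ≤ Real.exp (LamV d N F.k - L) := by
  classical
  have hd : 1 ≤ d := hD.trans (bLiftA D d F).1.2
  obtain ⟨-, -, mono, -, un, -⟩ := bPrA (Pt d) Ω p p0 p1
  let X := (boxes (F.lift S)).filter fun P => psi P ≤ 2 * T ∧ L ≤ (c + 1) * psi P
  have h1 : Pr Ω p E ≤ Pr Ω p fun A => ∃ P ∈ X, ISp P A := mono _ _ fun A _ hA => by
    obtain ⟨P, r, s, t, l, B, hB, sp⟩ := hE A hA
    have v : Val P := ((bGeoA d).1 B P sp).1
    have le : P ≤ F.lift S :=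
      ((bLiftA D d F).2.2.2.2.2.2.2.2.2.2.2.2.1 S P).2 ⟨s, r⟩
    exact ⟨P, mem_filter.2 ⟨((bGeoA d).2.2.2.1 P _ v le).2.2.2.2, t, l⟩, B, hB, sp⟩
  have h2 : ∑ P ∈ X, Pr Ω p (ISp P) ≤ X.card • Real.exp (- L) :=
    sum_le_card_nsmul _ _ _ fun P hP => by
      obtain ⟨-, t, l⟩ := mem_filter.1 hP
      exact (one_GSL hd Ω p0 p1 c0 h P t).trans (Real.exp_le_exp.2 (neg_le_neg l))
  have h3 : (X.card : ℝ) ≤ Real.exp (LamV d N F.k) :=
    le_trans (by exact_mod_cast card_filter_le _ _) (card_GSL F N S hk hS)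
  refine h1.trans ((un _ X fun P => ISp P).trans (h2.trans ?_))
  rw [nsmul_eq_mul, sub_eq_add_neg, Real.exp_add]
  exact mul_le_mul_of_nonneg_right h3 (Real.exp_pos _).le

theorem gSL : GSL := by
  intro D d F Ω p c T N S hD p0 p1 c0 hk h hS
  refine ⟨?_, fun n => ?_⟩
  · rw [sub_sub]
    refine uni_GSL F Ω hD p0 p1 c0 hk h hS _ _ fun A hA => ?_
    obtain ⟨P, r, s, t, t', sp⟩ := hA
    refine ⟨P, r, s.le, t', ?_, sp⟩
    have h1 := (bLiftA D d F).2.2.2.2.2.2.2.2.2.1 P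
    rw [s] at h1
    have h2 : (psi S : ℝ) ≤ psi P := by exact_mod_cast h1 ▸ Nat.le_add_right _ _
    have h3 : (T : ℝ) ≤ psi P := by exact_mod_cast t
    nlinarith [mul_le_mul_of_nonneg_left h2 c0]
  · by_cases hn : n ≤ 4
    · refine ((bPrA (Pt d) Ω p p0 p1).2.1 _).trans (Real.one_le_exp ?_)
      have h1 : (n : ℝ) ≤ 4 := by exact_mod_cast hn
      have h2 : 0 ≤ LamV d N F.k := mul_nonneg (by positivity) (Real.log_nonneg (by
        have : (0 : ℝ) ≤ N := Nat.cast_nonneg _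
        have : (0 : ℝ) ≤ F.k := Nat.cast_nonneg _
        linarith))
      nlinarith [mul_le_mul_of_nonneg_left h1 c0]
    · rw [show LamV d N F.k + 4 * c - c * n = LamV d N F.k - (c * n - 4 * c) by ring]
      refine uni_GSL F Ω hD p0 p1 c0 hk h hS _ _ fun A hA => ?_
      obtain ⟨P, r, s, t, t', sp⟩ := hA.resolve_left hn
      refine ⟨P, r, s, by omega, ?_, sp⟩
      have h2 : (n : ℝ) ≤ psi P + 4 := by exact_mod_cast t'
      have h3 : (0 : ℝ) ≤ psi P := Nat.cast_nonneg _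
      nlinarith [mul_le_mul_of_nonneg_left h2 c0]

end Pool.Agent.MP_6d294b_pr

end
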