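import Pool.Agent.Mg.F6d294b.G4e8bb7

set_option linter.all false

section

open Finset

namespace Pool.Agent.MP_6d294b_pr

theorem half_GAri (a : ℕ) (h : 3 ≤ (a : ℝ)) : ((a : ℝ) + 1) / 4 ≤ ((a / 2 : ℕ) : ℝ) := by
  have h1 : a ≤ 2 * (a / 2) + 1 := by omega
  have h2 : (a : ℝ) ≤ 2 * ((a / 2 : ℕ) : ℝ) + 1 := by exact_mod_cast h1
  linarith

theorem big1_GAri {C₁ A c e w b : ℝ} (hA : 3 * (600 * C₁) ^ 2 ≤ A) (hw : 8 ≤ w)
    (hc : 1 / 3 ≤ c) (hAc : A * c ≤ w) (hb : 0 ≤ b) (he : e ≤ C₁ * b / Real.sqrt w) :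
    600 * e ≤ b := by
  have h0 : 0 ≤ A := le_trans (by positivity) hA
  have h1 : (600 * C₁) ^ 2 ≤ w := by nlinarith
  have h2 : 600 * C₁ ≤ Real.sqrt w := Real.le_sqrt_of_sq_le h1
  have h3 : 0 < Real.sqrt w := Real.sqrt_pos.2 (by linarith)
  have h4 : C₁ * b / Real.sqrt w ≤ b / 600 := by
    rw [div_le_div_iff₀ h3 (by norm_num)]
    nlinarith
  linarith

theorem big2_GAri {B K A q e : ℝ} (hK : 0 < K) (hq : 0 < q) (hA : 72000 * K * B ≤ A)
    (hAq : A * Real.sqrt q ≤ 1) (h2 : 120 * K * q ≤ 1) (he : e ≤ B / Real.sqrt q) :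
    600 * e ≤ (⌊1 / (60 * K * q)⌋₊ : ℝ) := by
  have h3 : 0 < Real.sqrt q := Real.sqrt_pos.2 hq
  have h4 : Real.sqrt q * Real.sqrt q = q := Real.mul_self_sqrt hq.le
  have h5 : 0 < 60 * K * q := by positivity
  have h6 : 2 ≤ 1 / (60 * K * q) := by
    rw [le_div_iff₀ h5]
    linarith
  have h7 := Nat.lt_floor_add_one (1 / (60 * K * q))
  have h8 : B / Real.sqrt q ≤ 1 / (60 * K * q) / 1200 := by
    rw [div_div, div_le_div_iff₀ h3 (by positivity)]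
    have h9 : 72000 * K * B * Real.sqrt q ≤ 1 :=
      (mul_le_mul_of_nonneg_right hA h3.le).trans hAq
    calc B * (60 * K * q * 1200) = 72000 * K * B * Real.sqrt q * Real.sqrt q := by
          rw [mul_assoc _ (Real.sqrt q), h4]; ring
      _ ≤ 1 * Real.sqrt q := mul_le_mul_of_nonneg_right h9 h3.le
  linarith

theorem big3_GAri {B A₀ A c e w a u : ℝ} (hA₀ : 1 ≤ A₀)
    (hA : 3 * A₀ * (4800 * B) ^ 2 ≤ A) (hw : 8 ≤ w) (hc : 1 / 3 ≤ c) (hAc : A * c ≤ w)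
    (ha : 0 ≤ a) (hu : w ≤ u) (h : a * w < A₀ * c * u * (u + 2 * w))
    (he : e ≤ B * Real.sqrt a + w / 4800) : 600 * e ≤ u / 4 := by
  have hu0 : 0 < u := by linarith
  have hc0 : 0 < c := by linarith
  have h1 : a * w ≤ A₀ * c * u * (3 * u) := by
    refine h.le.trans (mul_le_mul_of_nonneg_left (by linarith) (by positivity))
  have h2 : a * (A * c) ≤ 3 * A₀ * u ^ 2 * c := by
    have := mul_le_mul_of_nonneg_left hAc ha
    nlinarith
  have h3 : a * A ≤ 3 * A₀ * u ^ 2 := by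
    rw [← mul_assoc] at h2
    exact le_of_mul_le_mul_right h2 hc0
  have h4 : a * (3 * A₀ * (4800 * B) ^ 2) ≤ 3 * A₀ * u ^ 2 :=
    (mul_le_mul_of_nonneg_left hA ha).trans h3
  have h5 : (4800 * B) ^ 2 * a ≤ u ^ 2 := by
    have h6 : 3 * A₀ * ((4800 * B) ^ 2 * a) ≤ 3 * A₀ * u ^ 2 := by linarith
    exact le_of_mul_le_mul_left h6 (by linarith)
  have h7 : 4800 * B * Real.sqrt a ≤ u := by
    refine le_of_sq_le_sq ?_ hu0.le
    rw [mul_pow, Real.sq_sqrt ha]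
    exact h5
  linarith

theorem sm1_GAri {C₂ L A c e s u : ℝ} (hC : 0 ≤ C₂) (hL : 0 ≤ L) (hA : 3 * C₂ * L ≤ A)
    (hc : 1 / 3 ≤ c) (hs : 0 < s) (hu : u ≤ L * s) (he : e ≤ C₂ * c * u / s) :
    e ≤ A * c ^ 2 := by
  have hc0 : 0 < c := by linarith
  have h1 : C₂ * c * u / s ≤ C₂ * c * L := by
    rw [div_le_iff₀ hs, mul_assoc _ L]
    exact mul_le_mul_of_nonneg_left hu (by positivity)
  have h2 : C₂ * c * L * 1 ≤ C₂ * c * L * (3 * c) :=
    mul_le_mul_of_nonneg_left (by linarith) (by positivity)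
  have h3 : 3 * C₂ * L * c ^ 2 ≤ A * c ^ 2 := mul_le_mul_of_nonneg_right hA (by positivity)
  nlinarith

theorem sm2_GAri {C₂ A c e s a t g : ℝ} (hA : 600 * C₂ ^ 2 ≤ A) (hs : 0 < s) (ha : 3 ≤ a)
    (ht : (a + 1) / 4 ≤ t) (hg : a / (300 * s ^ 2) ≤ g) (he : e ≤ C₂ * c * (a + 1) / s) :
    e ≤ g * t + A * c ^ 2 := by
  have h1 : (a + 1) / (600 * s ^ 2) ≤ a / (300 * s ^ 2) := by
    rw [div_le_div_iff₀ (by positivity) (by positivity)]
    have : 0 < s ^ 2 := by positivity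
    nlinarith
  have h0 : 0 ≤ (a + 1) / (600 * s ^ 2) := by positivity
  have h2 : (a + 1) / (600 * s ^ 2) * ((a + 1) / 4) ≤ g * t :=
    mul_le_mul (h1.trans hg) ht (by positivity) (h0.trans (h1.trans hg))
  have h3 : (a + 1) / (600 * s ^ 2) * ((a + 1) / 4) = ((a + 1) / s) ^ 2 / 2400 := by
    field_simp
    norm_num
  have h4 : 600 * C₂ ^ 2 * c ^ 2 ≤ A * c ^ 2 := mul_le_mul_of_nonneg_right hA (by positivity)
  rw [mul_div_assoc] at he
  nlinarith [sq_nonneg ((a + 1) / s - 1200 * (C₂ * c))]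

theorem sm3_GAri {C₁ e s a b g : ℝ} (hs : 1 ≤ s) (hb : 0 ≤ b)
    (ha : (300 * C₁ + 4) * s ≤ a + 1) (hg : a / (300 * s ^ 2) ≤ g) (he : e ≤ C₁ * b / s) :
    e ≤ g * b := by
  have hs0 : 0 < s := by linarith
  have h1 : C₁ / s ≤ a / (300 * s ^ 2) := by
    rw [div_le_div_iff₀ hs0 (by positivity)]
    have h2 : 300 * C₁ * s ≤ a := by linarith
    nlinarith
  calc e ≤ C₁ / s * b := by rw [div_mul_eq_mul_div]; exact he
    _ ≤ g * b := mul_le_mul_of_nonneg_right (h1.trans hg) hb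

theorem gAri : GAri := by
  intro D k A₀ C hk hA₀ hC
  obtain ⟨K, hK⟩ : ∃ K : ℝ, K = (k : ℝ) ^ 2 := ⟨_, rfl⟩
  have hK1 : 1 ≤ K := by
    rw [hK]
    exact one_le_pow₀ (by exact_mod_cast hk)
  obtain ⟨C₁, hC₁⟩ : ∃ C₁ : ℝ, C₁ = 6 * C * D + 1 := ⟨_, rfl⟩
  have hC1 : 0 ≤ C₁ := by rw [hC₁]; positivity
  obtain ⟨C₂, hC₂⟩ : ∃ C₂ : ℝ, C₂ = C₁ * (D * (3 * A₀)) := ⟨_, rfl⟩
  have hC2 : 0 ≤ C₂ := by rw [hC₂]; positivity
  obtain ⟨A, p0, p1, p2, p3, p4, p5, p6⟩ : ∃ A : ℝ, 1 ≤ A ∧ 45 * K ≤ A ∧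
      3 * (600 * C₁) ^ 2 ≤ A ∧ 72000 * K * (12 * C * D + 1) ≤ A ∧
      3 * A₀ * (4800 * (12 * C * D)) ^ 2 ≤ A ∧ 3 * C₂ * (300 * C₁ + 4) ≤ A ∧
      600 * C₂ ^ 2 ≤ A := by
    have q2 : 0 ≤ 3 * (600 * C₁) ^ 2 := by positivity
    have q3 : 0 ≤ 72000 * K * (12 * C * D + 1) := by positivity
    have q4 : 0 ≤ 3 * A₀ * (4800 * (12 * C * D)) ^ 2 := by positivity
    have q5 : 0 ≤ 3 * C₂ * (300 * C₁ + 4) := by positivity
    have q6 : 0 ≤ 600 * C₂ ^ 2 := by positivity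
    refine ⟨45 * K + 3 * (600 * C₁) ^ 2 + 72000 * K * (12 * C * D + 1) +
      3 * A₀ * (4800 * (12 * C * D)) ^ 2 + 3 * C₂ * (300 * C₁ + 4) + 600 * C₂ ^ 2,
      ?_, ?_, ?_, ?_, ?_, ?_, ?_⟩ <;> linarith
  refine ⟨A, p0, fun q c e w a₁ a₂ b hq hw hc hAc hAq hqw hb ha e1 e2 e3 => ?_⟩
  rw [← hK]
  rw [← hC₁] at e1
  have hw' : (8 : ℝ) ≤ w := by exact_mod_cast hw
  have hb' : (b : ℝ) ≤ D * a₁ := by exact_mod_cast hb
  have ha0 : (0 : ℝ) ≤ a₂ := Nat.cast_nonneg _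
  have hb0 : (0 : ℝ) ≤ b := Nat.cast_nonneg _
  have hc0 : 0 < c := by linarith
  have hKq : 0 < K * q := by positivity
  have hKw : 180 * (K * q * w) ≤ 1 := by
    have : 45 * K * (q * w) ≤ A * (q * w) := mul_le_mul_of_nonneg_right p1 (by positivity)
    linarith
  have hKw' : K * q * 8 ≤ K * q * w := mul_le_mul_of_nonneg_left hw' hKq.le
  have hAc2 : 0 ≤ A * c ^ 2 := by positivity
  suffices H : ∃ t : ℕ, 2 * t ≤ a₂ ∧ t ≤ b ∧ 60 * K * q * t ≤ 1 ∧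
      e ≤ a₂ / (100 * ((a₂ : ℝ) + 2 * w + 1)) * t + A * c ^ 2 by
    obtain ⟨t, t1, t2, t3, t4⟩ := H
    exact ⟨t, t1, t2, by linarith, t4⟩
  rcases le_total (w : ℝ) (a₂ + 1) with hu | hu
  · refine ⟨min (a₂ / 2) (min b ⌊1 / (60 * K * q)⌋₊), by omega, by omega, ?_, ?_⟩
    · have h5 : 0 < 60 * K * q := by positivity
      have h6 : ((min (a₂ / 2) (min b ⌊1 / (60 * K * q)⌋₊) : ℕ) : ℝ) ≤ 1 / (60 * K * q) :=
        le_trans (by exact_mod_cast (min_le_right _ _).trans (min_le_right _ _))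
          (Nat.floor_le (by positivity))
      rw [le_div_iff₀ h5] at h6
      linarith
    · have g1 : 1 / 600 ≤ a₂ / (100 * ((a₂ : ℝ) + 2 * w + 1)) := by
        rw [div_le_div_iff₀ (by norm_num) (by positivity)]
        linarith
      have g2 : 600 * e ≤ ((min (a₂ / 2) (min b ⌊1 / (60 * K * q)⌋₊) : ℕ) : ℝ) := by
        rw [Nat.cast_min, Nat.cast_min]
        exact le_min ((big3_GAri hA₀ p4 hw' hc hAc (Nat.cast_nonneg _) hu ha e3).trans
          (half_GAri a₂ (by linarith))) (le_min (big1_GAri p2 hw' hc hAc hb0 e1)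
          (big2_GAri (by linarith) hq p3 hAq (by linarith) e2))
      have g3 := mul_le_mul_of_nonneg_right g1
        (Nat.cast_nonneg (min (a₂ / 2) (min b ⌊1 / (60 * K * q)⌋₊)))
      linarith
  · have hs1 : 1 ≤ Real.sqrt w := Real.le_sqrt_of_sq_le (by linarith)
    have hs0 : 0 < Real.sqrt w := by linarith
    have g1 : a₂ / (300 * Real.sqrt w ^ 2) ≤ a₂ / (100 * ((a₂ : ℝ) + 2 * w + 1)) := by
      rw [Real.sq_sqrt (by linarith)]
      exact div_le_div_of_nonneg_left ha0 (by positivity) (by linarith)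
    have g2 : (a₁ : ℝ) ≤ 3 * A₀ * c * (a₂ + 1) := by
      have : (a₁ : ℝ) * w ≤ A₀ * c * (a₂ + 1) * (3 * w) :=
        ha.le.trans (mul_le_mul_of_nonneg_left (by linarith) (by positivity))
      exact le_of_mul_le_mul_right (by linarith) (by linarith : (0 : ℝ) < w)
    have g3 : e ≤ C₂ * c * (a₂ + 1) / Real.sqrt w := by
      refine e1.trans (div_le_div_of_nonneg_right ?_ hs0.le)
      calc C₁ * b ≤ C₁ * (D * (3 * A₀ * c * (a₂ + 1))) :=
            mul_le_mul_of_nonneg_left (hb'.trans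
              (mul_le_mul_of_nonneg_left g2 (Nat.cast_nonneg _))) hC1
        _ = C₂ * c * (a₂ + 1) := by rw [hC₂]; ring
    rcases le_total ((a₂ : ℝ) + 1) ((300 * C₁ + 4) * Real.sqrt w) with hx | hx
    · refine ⟨0, by omega, by omega, by simp, ?_⟩
      have := sm1_GAri hC2 (by positivity) p5 hc hs0 hx g3
      simpa using this
    · have g4 : (3 : ℝ) ≤ a₂ := by nlinarith
      refine ⟨min (a₂ / 2) b, by omega, by omega, ?_, ?_⟩
      · have h6 : ((min (a₂ / 2) b : ℕ) : ℝ) ≤ a₂ := by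
          exact_mod_cast (min_le_left _ _).trans (Nat.div_le_self _ _)
        have h7 : K * q * ((min (a₂ / 2) b : ℕ) : ℝ) ≤ K * q * w :=
          mul_le_mul_of_nonneg_left (by linarith) hKq.le
        linarith
      · rcases min_choice (a₂ / 2) b with h | h <;> rw [h]
        · exact sm2_GAri p6 hs0 g4 (half_GAri a₂ g4) g1 g3
        · exact (sm3_GAri hs1 hb0 hx g1 e1).trans (by linarith)

end Pool.Agent.MP_6d294b_pr

end

section

open Finset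

namespace Pool.Agent.MP_6d294b_pr

theorem gCrit (h1 : GSlp) (h2 : GCh) (h3 : GSplG) (h4 : GInd) (h5 : GSL) (h6 : GDir) (h7 : GLow)
    (h8 : GPar) (h9 : GN2) (h10 : GCost) : GCrit := by
  intro D d κ y₀ hD hκ hy0 hy1
  obtain ⟨⟨ε, hε⟩, g0⟩ := h1 (d - D + 1) (by omega)
  have e0 : 0 < ε := hε.2.1
  obtain ⟨A₁, C, a1, c0, H2⟩ := h2 D d κ y₀ ε hκ hy0 hy1 e0
  obtain ⟨A₂, a2, H3⟩ := h3 D d C c0
  obtain ⟨Cd, cd, H6⟩ := h6 D d
  obtain ⟨A₃, a3, H7⟩ := h7 D (d - D + 1)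
  have D0 : (2 : ℝ) ≤ D := by exact_mod_cast hD
  obtain ⟨A, b1, b2, b3, b4⟩ : ∃ A : ℝ, A₁ ≤ A ∧ A₂ ≤ A ∧ 24 * D / ε ≤ A ∧
      8 * Cd / gk (d - D + 1) 1 ≤ A :=
    ⟨max (max A₁ A₂) (max (24 * D / ε) (8 * Cd / gk (d - D + 1) 1)),
      le_max_of_le_left (le_max_left _ _), le_max_of_le_left (le_max_right _ _),
      le_max_of_le_right (le_max_left _ _), le_max_of_le_right (le_max_right _ _)⟩
  have A1 : 1 ≤ A := a1.trans b1
  obtain ⟨q₀, hq₀, H8⟩ := h8 D d A hD A1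
  refine ⟨12 * D * C + 1 + D ^ 2 + D + A₃ * (A + 1), q₀, by positivity, hq₀, ?_⟩
  intro q hq hqq k N hk hk2 hN
  obtain ⟨w, T, ρ, X, G, hP⟩ := H8 q hq hqq k N hk2 hN
  have hP' := hP
  obtain ⟨p1, p2, p3, -, p5, p6, -, -, p9, -, p11, p12, p13, p14, -, -, -, p18, -, p20, p21,
    p22⟩ := hP'
  refine ⟨T, p3, p22, ?_⟩
  rintro F rfl K Y Ω R hR hψ
  have sq : 0 < Real.sqrt q := Real.sqrt_pos.2 hq
  have sq2 : Real.sqrt q * Real.sqrt q = q := Real.mul_self_sqrt hq.le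
  have qw : 4 * q * w ≤ 1 := by
    have := mul_le_mul_of_nonneg_right A1 (by positivity : 0 ≤ 4 * q * w)
    linarith
  obtain ⟨hΦ, hΦ'⟩ := bPotA D (co2 (d - D + 1) q w (A * Real.sqrt q) ε)
  obtain ⟨Φ, hΦ⟩ := hΦ
  have hB : Bas2 D (d - D + 1) q _ w (A * Real.sqrt q) ε Φ :=
    ⟨hD, by omega, hq, p1, rfl, p2, qw, by positivity, hε, hΦ⟩
  obtain ⟨⟨c1, -, c3, c4, -⟩, -, -, c5, -, -, c6, -, c7, -, c8⟩ := h10 _ _ _ _ _ _ _ _ hB
  have z0 : 0 ≤ cz D q w := by linarith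
  have N0 : (0 : ℝ) ≤ N := Nat.cast_nonneg N
  have l1 : 0 ≤ Real.log (2 * N + 1) := Real.log_nonneg (by linarith)
  have l2 : 0 ≤ Lv D N := by unfold Lv; positivity
  have l3 : 0 ≤ LamV d N F.k :=
    mul_nonneg (by positivity) (Real.log_nonneg (by linarith [Nat.cast_nonneg (α := ℝ) F.k]))
  have x0 : 2 * cz D q w ≤ X := by
    have f1 : 0 ≤ A * q * N * (1 + q * (2 * N + 1)) ^ D := by positivity
    have f2 := mul_le_mul_of_nonneg_right D0 z0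
    have f3 : 0 ≤ 2 * D * Real.log (2 * N + 1) := by positivity
    linarith
  have x1 : 0 ≤ A * cz D q w ^ 2 := by positivity
  obtain ⟨-, -, n3, -⟩ := h9 q w hq (by omega)
  have hψ' : ∀ S : Bx D, Val S → S ≤ R → psi S ≤ 2 * N := fun S h h' => by
    have := ((bGeoA D).2.2.2.1 S R h h').2.2.2.1
    omega
  refine ⟨fun hK hY hΩ hl => ?_, fun i hi => ?_⟩
  · refine (h4 D d F Ω _ c1 c4 T K Y N R (Vg C (2 * (A * Real.sqrt q) * ρ) q w Φ) X (- G) hψ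
      (H2 A b1 q _ N w T K Y ρ X G Φ F Ω R hB hP hK hY hψ hΩ) (fun S s1 s2 => ?_)
      (fun Q P S s1 s2 s3 s4 s5 => H3 A b2 q _ N w T K Y ε ρ X G Φ F Ω hB hk hP Q P S s1 s2 s3
        s4 (hψ' S ((bGeoA D).2.2.2.1 Q S s1 s3).1 s5)) R hR le_rfl).trans (Real.exp_le_exp.2 ?_)
    · refine (h5 D d F Ω _ (cz D q w) T N S (by omega) c1 (by linarith) z0 hk (c8 d T p5).1
        (hψ' S s1 s2)).1.trans (Real.exp_le_exp.2 ?_)
      have f1 : Φ (ex S) ≤ psi S * cz D q w :=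
        (hΦ' Φ _ hΦ c5 (fun y i => ⟨(c6 y i).1, (c6 y i).2.2⟩) z0).2.1 (ex S)
      have f2 : 0 ≤ C * NV q w (ex S) := mul_nonneg c0 (sum_nonneg fun i _ => (n3 _).1)
      have f3 : 0 ≤ 2 * (A * Real.sqrt q) * ρ * psi S := by positivity
      unfold Vg
      linarith
    · have k0 : 24 * D * (1 / Real.sqrt w + q * Real.sqrt (2 * N + 2 * w)) ≤ ε := by
        rw [div_le_iff₀ e0] at b3
        have f1 := mul_le_mul_of_nonneg_right b3
          (by positivity : 0 ≤ 1 / Real.sqrt w + q * Real.sqrt (2 * N + 2 * w))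
        have f2 := mul_le_mul_of_nonneg_right p20 e0.le
        linarith
      have k1 := H7 q _ w N _ ε Φ hB k0 (ex R) hl hψ
      obtain ⟨r, hr⟩ : ∃ r, r = 1 / Real.sqrt q := ⟨_, rfl⟩
      have k2 : NV q w (ex R) ≤ 12 * D * r := by
        refine (sum_le_card_nsmul _ _ _ fun i _ => (n3 _).2.2.2).trans (le_of_eq ?_)
        rw [card_univ, Fintype.card_fin, nsmul_eq_mul, hr]
        ring
      have k3 : (T : ℝ) + 1 ≤ r := by rwa [hr, le_div_iff₀ sq]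
      have k4 : (2 * (w : ℝ) + 2) * (1 + Real.log (1 / q)) ≤ r := by rwa [hr, le_div_iff₀ sq]
      have k5 : A * Real.sqrt q / q = A * r := by
        rw [hr, div_eq_iff hq.ne', mul_assoc, one_div, ← div_eq_inv_mul, Real.div_sqrt]
      have k6 : 2 * (A * Real.sqrt q) * ρ * psi R ≤ r := by
        have f1 : (psi R : ℝ) ≤ 2 * N := by exact_mod_cast hψ
        refine (mul_le_mul_of_nonneg_left f1 (by positivity)).trans ?_
        rw [hr, le_div_iff₀ sq]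
        linarith
      have k7 := mul_le_mul_of_nonneg_left k2 c0
      have k8 := mul_le_mul_of_nonneg_left k4 (sq_nonneg (D : ℝ))
      have k9 : (D : ℝ) ≤ D * r :=
        le_mul_of_one_le_right (by linarith) (by linarith [Nat.cast_nonneg (α := ℝ) T])
      rw [k5, ← hr] at k1
      rw [div_eq_mul_one_div _ (Real.sqrt q), ← hr]
      unfold Vg
      linarith
  · refine (H6 q _ w T K Y N _ ε G Φ F Ω R i 1 (gk (d - D + 1) 1 / 2) hB p5 hk hR hψ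
      (by linarith) (by linarith) hi (pow_le_one₀ (by positivity) (by
        linarith [mul_nonneg hq.le (Nat.cast_nonneg (α := ℝ) w)])) (by positivity) ?_).trans
      (Real.exp_le_exp.2 (by linarith))
    have f1 : A * Real.sqrt q ≤ 1 :=
      (le_mul_of_one_le_right (by positivity) (le_add_of_nonneg_right (by positivity))).trans p11
    have f2 : q ≤ Real.sqrt q := Real.le_sqrt_of_sq_le (by nlinarith)
    rw [div_le_iff₀ g0] at b4
    have f3 := mul_le_mul_of_nonneg_right b4 sq.le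
    have f4 := mul_le_mul_of_nonneg_right f1 g0.le
    have f5 := mul_le_mul_of_nonneg_left (c3.trans f2) cd
    have f6 : om D q 1 = 4 * q ^ (D - 1) := by unfold om; ring
    rw [f6]
    linarith

end Pool.Agent.MP_6d294b_pr

end
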