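import Pool.Agent.Mg.F6d294b.G4e8bb7

set_option linter.all false

section

open Finset

namespace Pool.Agent.MP_6d294b_pr

lemma lip_GN2 {r x z : ℝ} (hr : 0 ≤ r) (hx : 0 ≤ x) (h : x ≤ z) :
    12 * z / (1 + r * z) - 12 * x / (1 + r * x) ≤ 12 * (z - x) := by
  have hz : 0 ≤ z := hx.trans h
  have a1 : 0 ≤ r * x := by positivity
  have a2 : 0 ≤ r * z := by positivity
  have e : 12 * z / (1 + r * z) - 12 * x / (1 + r * x) =
      12 * (z - x) / ((1 + r * z) * (1 + r * x)) := by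
    field_simp
    ring
  rw [e]
  exact div_le_self (by linarith) (by nlinarith [mul_nonneg a1 a2])

lemma dif_GN2 {q : ℝ} (hq : 0 < q) (w y : ℕ) : N2 q w y ≤
    12 * (Real.sqrt ((y : ℝ) + (2 * w + 1)) - Real.sqrt (2 * (w : ℝ) + 1)) := by
  have y0 : (0 : ℝ) ≤ y := Nat.cast_nonneg y
  have h := lip_GN2 (Real.sqrt_nonneg q) (Real.sqrt_nonneg (2 * (w : ℝ) + 1))
    (Real.sqrt_le_sqrt (show 2 * (w : ℝ) + 1 ≤ (y : ℝ) + (2 * w + 1) by linarith))
  unfold N2 Nf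
  push_cast
  rw [Real.sqrt_mul hq.le, Real.sqrt_mul hq.le, add_assoc (y : ℝ)]
  exact h

theorem gN2 : GN2 := by
  intro q w hq hw
  obtain ⟨n1, n2, n3, n4, -⟩ := bNf q hq
  have hw1 : (1 : ℝ) ≤ w := by exact_mod_cast hw
  have m1 : Monotone (m2 q w) := fun a b h => n1 (Nat.add_le_add_right h _)
  have m3 : ∀ y : ℕ, (m2 q w y : ℝ) ≤
      2 * Real.sqrt ((y : ℝ) + 2 * w + 1) * (1 + q * ((y : ℝ) + 2 * w + 1)) := fun y => by
    have c := n3 (y + 2 * w)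
    push_cast at c
    exact c
  refine ⟨m1, fun a b h => sub_le_sub_right (n2 (Nat.add_le_add_right h _)) _, fun y => ?_, m3,
    fun y a h8 ha hs => ?_, fun a x y h => ?_⟩
  · have y0 : (0 : ℝ) ≤ y := Nat.cast_nonneg y
    have d := dif_GN2 hq w y
    set A := Real.sqrt ((y : ℝ) + (2 * w + 1)) with hA
    set B := Real.sqrt (2 * (w : ℝ) + 1) with hB
    have A0 : 0 ≤ A := Real.sqrt_nonneg _
    have B0 : 0 ≤ B := Real.sqrt_nonneg _
    have A2 : A * A = (y : ℝ) + (2 * w + 1) := Real.mul_self_sqrt (by positivity)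
    have B2 : B * B = 2 * (w : ℝ) + 1 := Real.mul_self_sqrt (by positivity)
    have AB : B ≤ A := Real.sqrt_le_sqrt (by linarith)
    have s0 : 0 < Real.sqrt w := Real.sqrt_pos.2 (by linarith)
    have sB : Real.sqrt w ≤ B := Real.sqrt_le_sqrt (by linarith)
    have u0 := Real.sqrt_nonneg (y : ℝ)
    have u2 : Real.sqrt y * Real.sqrt y = y := Real.mul_self_sqrt y0
    refine ⟨sub_nonneg.2 (n2 (Nat.le_add_left _ _)), d.trans ?_, d.trans ?_, ?_⟩
    · have : A ≤ Real.sqrt y + B := by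
        refine abs_le_of_sq_le_sq' ?_ (by positivity) |>.2
        nlinarith [mul_nonneg u0 B0]
      linarith
    · rw [le_div_iff₀ s0]
      have c1 : (A - B) * Real.sqrt w ≤ (A - B) * ((A + B) / 2) :=
        mul_le_mul_of_nonneg_left (by linarith) (by linarith)
      nlinarith
    · have c1 := (n4 (y + 2 * w)).2.2
      have c2 := (n4 (2 * w)).1
      unfold N2
      linarith
  · have y0 : (0 : ℝ) ≤ y := Nat.cast_nonneg y
    have c8 : (8 : ℝ) ≤ w := by exact_mod_cast h8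
    have ca : (a : ℝ) ≤ 2 * w := by exact_mod_cast ha
    have c := m3 y
    set s : ℝ := (y : ℝ) + 2 * w + 1 with hs'
    have s4 : 4 ≤ Real.sqrt s := Real.le_sqrt_of_sq_le (by linarith)
    have s2 : Real.sqrt s * Real.sqrt s = s := Real.mul_self_sqrt (by linarith)
    have c1 : 2 * Real.sqrt s * (1 + q * s) ≤ 2 * Real.sqrt s * 2 :=
      mul_le_mul_of_nonneg_left (by linarith) (by linarith)
    unfold t2
    nlinarith
  · have c : (m2 q w x : ℝ) ≤ m2 q w y := by exact_mod_cast m1 h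
    unfold t2
    rw [Nat.cast_sub h]
    linarith

lemma eps_GN2 {q y₀ a a' m v : ℝ} (hq : 0 < q) (h0 : 0 < y₀) (h1 : y₀ ≤ 1) (ha : 1 ≤ a)
    (hv0 : 0 ≤ v) (hv : q * v ≤ y₀) (hX : y₀ ≤ q * a)
    (hm : m ≤ 2 * Real.sqrt (a + v) * (1 + q * (a + v))) (h : a' ≤ a + 2 * m + 4) :
    a' ≤ a * (1 + 16 * Real.sqrt q * (1 + q * a) / y₀) := by
  have ha0 : 0 < a := by linarith
  have s2 : Real.sqrt a * Real.sqrt a = a := Real.mul_self_sqrt ha0.le
  have s3 : 0 < Real.sqrt q := Real.sqrt_pos.2 hq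
  have s4 : 1 ≤ Real.sqrt a := Real.one_le_sqrt.2 ha
  have b1 : y₀ ≤ Real.sqrt q * Real.sqrt a := by
    refine le_of_sq_le_sq ?_ (by positivity)
    rw [mul_pow, Real.sq_sqrt hq.le, Real.sq_sqrt ha0.le]
    nlinarith
  have hqa : 0 < q * a := by positivity
  have va : v ≤ a := le_of_mul_le_mul_left (hv.trans hX) hq
  have b0 : Real.sqrt (a + v) ≤ 3 / 2 * Real.sqrt a :=
    Real.sqrt_le_iff.2 ⟨by positivity, by nlinarith⟩
  have b2 : m ≤ 6 * (Real.sqrt a * (1 + q * a)) := by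
    have c1 : 1 + q * (a + v) ≤ 2 * (1 + q * a) := by nlinarith
    have c2 := mul_le_mul b0 c1 (by positivity) (by positivity)
    linarith
  have b3 : 1 ≤ Real.sqrt a * (1 + q * a) := by nlinarith
  have b5 : Real.sqrt a * (1 + q * a) * y₀ ≤ a * Real.sqrt q * (1 + q * a) := by
    have c2 := mul_le_mul_of_nonneg_left b1
      (show 0 ≤ Real.sqrt a * (1 + q * a) by positivity)
    have c3 : Real.sqrt a * (1 + q * a) * (Real.sqrt q * Real.sqrt a) =
        a * Real.sqrt q * (1 + q * a) := by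
      linear_combination ((1 + q * a) * Real.sqrt q) * s2
    linarith
  have e : a * (1 + 16 * Real.sqrt q * (1 + q * a) / y₀) =
      a + 16 * (a * Real.sqrt q * (1 + q * a)) / y₀ := by ring
  have b4 : 16 * (Real.sqrt a * (1 + q * a)) ≤ 16 * (a * Real.sqrt q * (1 + q * a)) / y₀ := by
    rw [le_div_iff₀ h0]
    linarith
  linarith

lemma prod_GN2 {ι : Type} (I : Finset ι) (ε : ι → ℝ) (h0 : ∀ j ∈ I, 0 ≤ ε j)
    (h1 : ∑ j ∈ I, ε j ≤ 1 / 2) : ∏ j ∈ I, (1 + ε j) ≤ 1 + 2 * ∑ j ∈ I, ε j := by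
  have a0 : 0 ≤ ∑ j ∈ I, ε j := Finset.sum_nonneg h0
  have a1 : ∏ j ∈ I, (1 + ε j) ≤ Real.exp (∑ j ∈ I, ε j) := by
    rw [Real.exp_sum]
    exact Finset.prod_le_prod (fun j hj => by linarith [h0 j hj])
      fun j _ => by linarith [Real.add_one_le_exp (ε j)]
  refine a1.trans ((Real.exp_bound_div_one_sub_of_interval a0 (by linarith)).trans ?_)
  rw [div_le_iff₀ (by linarith)]
  nlinarith

theorem gFrame (h1 : GN2) : GFrame := by
  classical
  intro d y₀ hd h0 hy1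
  have hd2 : (2 : ℝ) ≤ d := by exact_mod_cast hd
  have hp0 : 0 < y₀ ^ (d - 2) := pow_pos h0 _
  have hp1 : y₀ ^ (d - 2) ≤ 1 := pow_le_one₀ h0.le hy1
  have hA : 32 * d / y₀ ≤ 32 * d / (y₀ * y₀ ^ (d - 2)) :=
    div_le_div_of_nonneg_left (by positivity) (by positivity) (by nlinarith)
  refine ⟨32 * d / (y₀ * y₀ ^ (d - 2)), le_trans ?_ hA, fun q w N y y' i hq hT hN hy => ?_⟩
  · rw [le_div_iff₀ h0]
    linarith
  have hs : 0 < Real.sqrt q := Real.sqrt_pos.2 hq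
  have hcard : (univ.erase i).card = d - 1 := by
    rw [Finset.card_erase_of_mem (Finset.mem_univ i), Finset.card_univ, Fintype.card_fin]
  have hcard' : ((univ.erase i).card : ℝ) ≤ d := by
    rw [hcard]
    exact_mod_cast Nat.sub_le d 1
  set ε : Fin d → ℝ := fun j => 16 * Real.sqrt q * (1 + q * ((y j : ℝ) + 1)) / y₀ with hε
  have hε0 : ∀ j, 0 ≤ ε j := fun j => by simp only [hε]; positivity
  set F : ℝ := q ^ (d - 1) * sg y i with hF
  have hF1 : F = ∏ j ∈ univ.erase i, q * ((y j : ℝ) + 1) := by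
    rw [Finset.prod_mul_distrib, Finset.prod_const, hcard, hF]
    unfold sg
    push_cast
    rfl
  have hF0 : 0 ≤ F := by positivity
  have a1 : ∀ j, (y' j : ℝ) + 1 ≤ ((y j : ℝ) + 1) * (1 + ε j) := by
    intro j
    obtain ⟨b1, -, b3⟩ := hy j
    have b4 : (y' j : ℝ) ≤ y j + 2 * m2 q w (y j) + 4 := by exact_mod_cast b3
    have b5 : (m2 q w (y j) : ℝ) ≤ 2 * Real.sqrt ((y j : ℝ) + 1 + 2 * w) *
        (1 + q * ((y j : ℝ) + 1 + 2 * w)) := by
      have c := (bNf q hq).2.2.1 (y j + 2 * w)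
      push_cast at c
      rw [add_right_comm (y j : ℝ) 1]
      exact c
    exact eps_GN2 (v := 2 * w) hq h0 hy1 (by linarith [Nat.cast_nonneg (α := ℝ) (y j)])
      (by positivity) (by linarith) b1 b5 (by linarith)
  have a2 : ∑ j ∈ univ.erase i, ε j ≤ 1 / 2 := by
    have b1 : ∀ j ∈ univ.erase i, ε j ≤ 16 * Real.sqrt q * (1 + q * (2 * N + 1)) / y₀ := by
      intro j _
      have : (y j : ℝ) ≤ 2 * N := by exact_mod_cast (hy j).2.1
      simp only [hε]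
      gcongr
    have b2 := Finset.sum_le_card_nsmul _ _ _ b1
    rw [nsmul_eq_mul] at b2
    have b3 := mul_le_mul_of_nonneg_right hcard'
      (show 0 ≤ 16 * Real.sqrt q * (1 + q * (2 * N + 1)) / y₀ by positivity)
    have b4 := mul_le_mul_of_nonneg_right hA
      (show 0 ≤ Real.sqrt q * (1 + q * (2 * N + 1)) by positivity)
    have e : d * (16 * Real.sqrt q * (1 + q * (2 * N + 1)) / y₀) =
        32 * d / y₀ * (Real.sqrt q * (1 + q * (2 * N + 1))) / 2 := by ring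
    rw [mul_assoc] at hN
    linarith
  have a3 : ∀ j ∈ univ.erase i, ε j ≤ 16 * Real.sqrt q * (1 + F) / (y₀ * y₀ ^ (d - 2)) := by
    intro j hj
    have b1 : y₀ ^ (d - 2) ≤ ∏ k ∈ (univ.erase i).erase j, q * ((y k : ℝ) + 1) := by
      have e : y₀ ^ (d - 2) = ∏ _k ∈ (univ.erase i).erase j, y₀ := by
        rw [Finset.prod_const, Finset.card_erase_of_mem hj, hcard]
        rfl
      rw [e]
      exact Finset.prod_le_prod (fun _ _ => h0.le) fun k _ => (hy k).1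
    have b2 : q * ((y j : ℝ) + 1) * y₀ ^ (d - 2) ≤ F := by
      rw [hF1, ← Finset.mul_prod_erase _ _ hj]
      exact mul_le_mul_of_nonneg_left b1 (by positivity)
    simp only [hε]
    rw [div_le_div_iff₀ h0 (by positivity)]
    have b3 : (1 + q * ((y j : ℝ) + 1)) * y₀ ^ (d - 2) ≤ 1 + F := by linarith
    have b4 := mul_le_mul_of_nonneg_left b3 (show 0 ≤ 16 * Real.sqrt q * y₀ by positivity)
    linarith
  have a4 : 2 * ∑ j ∈ univ.erase i, ε j ≤
      32 * d / (y₀ * y₀ ^ (d - 2)) * Real.sqrt q * (1 + F) := by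
    have b2 := Finset.sum_le_card_nsmul _ _ _ a3
    rw [nsmul_eq_mul] at b2
    have b3 := mul_le_mul_of_nonneg_right hcard'
      (show 0 ≤ 16 * Real.sqrt q * (1 + F) / (y₀ * y₀ ^ (d - 2)) by positivity)
    have e : 32 * d / (y₀ * y₀ ^ (d - 2)) * Real.sqrt q * (1 + F) =
        2 * (d * (16 * Real.sqrt q * (1 + F) / (y₀ * y₀ ^ (d - 2)))) := by ring
    linarith
  have a5 : (sg y' i : ℝ) ≤ sg y i * ∏ j ∈ univ.erase i, (1 + ε j) := by
    unfold sg
    push_cast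
    rw [← Finset.prod_mul_distrib]
    exact Finset.prod_le_prod (fun j _ => by positivity) fun j _ => a1 j
  have a6 := (prod_GN2 _ ε (fun j _ => hε0 j) a2).trans (add_le_add_right a4 1)
  have a7 := mul_le_mul_of_nonneg_left a6 hF0
  have a8 := mul_le_mul_of_nonneg_left a5 (pow_pos hq (d - 1)).le
  rw [← mul_assoc, ← hF] at a8
  rw [mul_sub, ← hF]
  linarith

end Pool.Agent.MP_6d294b_pr

end

section

open Finset

namespace Pool.Agent.MP_6d294b_pr

theorem slope_GNdl {k : ℕ} (hm : Slp1 k) {Z z : ℝ} (hz : 0 < z) (hZ : z ≤ 2 * |Z|) :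
    min (1 / 12) (Real.exp (- (2 * (k + 1) * |Z|)) / (8 * (k ^ 2 + 1))) ≤ z * (- mkk k z) := by
  obtain ⟨-, -, -, m4, m5, -⟩ := hm
  by_cases h : 4 * (k : ℝ) ^ 2 * z ≤ 1
  · have := m4 z hz h
    exact (min_le_left _ _).trans (by linarith)
  · refine (min_le_right _ _).trans ?_
    have a1 := m5 z hz
    have a2 : Real.exp (- (2 * (k + 1) * |Z|)) ≤ Real.exp (- ((k + 1) * z)) := by
      refine Real.exp_le_exp.2 ?_
      have : ((k : ℝ) + 1) * z ≤ (k + 1) * (2 * |Z|) :=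
        mul_le_mul_of_nonneg_left hZ (by positivity)
      linarith
    have a3 := Real.exp_pos (- (2 * (k + 1) * |Z|))
    set E := Real.exp (- (2 * (k + 1) * |Z|))
    rw [div_le_iff₀ (by positivity)]
    have a4 : 1 ≤ 4 * ((k : ℝ) ^ 2 + 1) * z := by nlinarith
    have a5 : E ≤ 2 * (- mkk k z) := by linarith
    calc E ≤ 2 * (- mkk k z) * 1 := by linarith
      _ ≤ 2 * (- mkk k z) * (4 * ((k : ℝ) ^ 2 + 1) * z) :=
        mul_le_mul_of_nonneg_left a4 (by linarith)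
      _ = _ := by ring

theorem t2_GNdl (q : ℝ) (w y : ℕ) :
    (w : ℝ) ≤ t2 q w w y ∧ t2 q w (2 * w) y = t2 q w w y + w := by
  unfold t2
  have a1 : (0 : ℝ) ≤ m2 q w y := Nat.cast_nonneg _
  have a2 : (0 : ℝ) ≤ y := Nat.cast_nonneg _
  refine ⟨by linarith, ?_⟩
  push_cast
  ring

theorem gShift (h1 : GN2) (h2 : GCost) : GShift := by
  intro D k Z C hC
  set c₁ : ℝ := min (1 / 12) (Real.exp (- (2 * (k + 1) * |Z|)) / (8 * (k ^ 2 + 1))) with hc₁
  have hc : 0 < c₁ := lt_min (by norm_num) (by positivity)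
  have hA : 0 ≤ 4 * C * (1 + |Z|) ^ 2 / c₁ := by positivity
  refine ⟨1 + 4 * C * (1 + |Z|) ^ 2 / c₁, c₁ / 4, by linarith, by positivity, ?_⟩
  intro q p w η ε Φ y i j hB hw hji hF
  obtain ⟨hD, hk, hq, hq1, hp, hw8, hqw, hη, hS, hΦ⟩ := hB
  have hm := hS.1
  have hw8' : (8 : ℝ) ≤ w := by exact_mod_cast hw8
  have hj : j ∈ univ.erase i := mem_erase.2 ⟨hji, mem_univ j⟩
  set θ := t2 q w w (y j) with hθ
  have hθw : (w : ℝ) ≤ θ := (t2_GNdl q w (y j)).1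
  have hθ0 : 0 < θ := by linarith
  set P := ∏ l ∈ (univ.erase i).erase j, t2 q w w (y l) with hP
  have hP1 : 1 ≤ P := by
    calc (1 : ℝ) = ∏ _l ∈ (univ.erase i).erase j, (1 : ℝ) := by simp
      _ ≤ P := prod_le_prod (fun _ _ => zero_le_one) fun l _ => by
        linarith [(t2_GNdl q w (y l)).1]
  have hq' : 0 < q ^ (D - 1) := by positivity
  have e1 : F2 q w w y i = q ^ (D - 1) * (θ * P) := by
    unfold F2
    rw [← mul_prod_erase _ (fun l => t2 q w w (y l)) hj]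
  have e2 : q ^ (D - 1) * ((θ + w) * P) ≤ F2 q w (2 * w) y i := by
    unfold F2
    rw [← mul_prod_erase _ (fun l => t2 q w (2 * w) (y l)) hj, (t2_GNdl q w (y j)).2]
    refine mul_le_mul_of_nonneg_left (mul_le_mul_of_nonneg_left ?_ (by linarith)) hq'.le
    exact prod_le_prod (fun l _ => by linarith [(t2_GNdl q w (y l)).1]) fun l _ => by
      rw [(t2_GNdl q w (y l)).2]
      linarith
  set F := F2 q w w y i with hFd
  set F' := F2 q w (2 * w) y i with hF'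
  have hF0 : 0 < F := by rw [e1]; positivity
  set r : ℝ := w / θ with hr
  have hr0 : 0 < r := by positivity
  have hr1 : r ≤ 1 := (div_le_one hθ0).2 hθw
  have e3 : F * (1 + r) = q ^ (D - 1) * ((θ + w) * P) := by
    rw [e1, hr]
    field_simp
  have hz : 0 < F * (1 + r) := by positivity
  have hz1 : F * (1 + r) ≤ F' := by rw [e3]; exact e2
  have hz2 : F * (1 + r) ≤ 2 * F := by nlinarith
  have hZ := le_abs_self Z
  have s1 := slope_GNdl hm (Z := Z) hz (by linarith)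
  rw [← hc₁] at s1
  obtain ⟨m1, -, m3, -⟩ := hm
  have a1 := m1 F' (F * (1 + r)) (by linarith) hz
  have a2 : 0 ≤ mkk k F' * (F * (1 + r) - F') :=
    mul_nonneg_of_nonpos_of_nonpos (m3 F' (by linarith)) (by linarith)
  have a3 := m1 (F * (1 + r)) F hz hF0
  have a4 := m3 _ hz
  set μ := mkk k (F * (1 + r)) with hμ
  have a5 : c₁ ≤ 2 * F * (- μ) := s1.trans (mul_le_mul_of_nonneg_right hz2 (by linarith))
  have a6 : μ * (F - F * (1 + r)) = r * (F * (- μ)) := by ring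
  have a7 : r * (c₁ / 2) ≤ r * (F * (- μ)) := mul_le_mul_of_nonneg_left (by linarith) hr0.le
  have a8 : om D q F ≤ (1 + |Z|) ^ 2 / θ := by
    have b1 : om D q F = (1 + F) ^ 2 / (θ * P) := by
      unfold om
      have b0 : q ^ (D - 1) = F / (θ * P) := by
        rw [e1]
        field_simp
      rw [b0]
      field_simp
      ring
    rw [b1]
    refine div_le_div₀ (by positivity) ?_ hθ0 (le_mul_of_one_le_right hθ0.le hP1)
    exact pow_le_pow_left₀ (by linarith) (by linarith) 2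
  have a9 : C * om D q F ≤ c₁ / 4 * r := by
    refine (mul_le_mul_of_nonneg_left a8 hC).trans ?_
    have b1 : 4 * C * (1 + |Z|) ^ 2 ≤ w * c₁ := (div_le_iff₀ hc).1 (by linarith)
    rw [hr, ← mul_div_assoc, ← mul_div_assoc]
    exact div_le_div_of_nonneg_right (by linarith) hθ0.le
  have a10 : c₁ / 4 * w / θ = c₁ / 4 * r := by rw [hr, mul_div_assoc]
  rw [a10]
  linarith

theorem gNdl (h1 : GN2) (h2 : GCost) (h3 : GShift) : GNdl := by
  intro D k C hC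
  obtain ⟨A₁, c, hA₁, hc, hs⟩ := h3 D k (3 ^ (D - 1)) C hC
  have hDc : 0 ≤ 3 * (D : ℝ) / c := by positivity
  refine ⟨A₁ + 3 * D / c, by linarith, ?_⟩
  intro q p w N η ε Φ a i hB hw hqN hN hnd
  obtain ⟨-, -, -, c4, -, -, c7, -, c9, -⟩ := h2 D k q p w η ε Φ hB
  obtain ⟨j, hij, hmax, hl⟩ := hnd
  have hs' := hs q p w η ε Φ a i j hB (by linarith) hij.symm
  obtain ⟨hD, hk, hq, hq1, hp, hw8, hqw, hη, hS, hΦ⟩ := hB
  obtain ⟨-, -, -, -, n5, -⟩ := h1 q w hq (by omega)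
  have hcz : 0 ≤ cz D q w := by linarith
  obtain ⟨pA, pB, -⟩ := (bPotA D (co2 k q w η ε)).2 Φ (cz D q w) hΦ c4
    (fun y i => ⟨(c7 y i).1, (c7 y i).2.2⟩) hcz
  have hw8' : (8 : ℝ) ≤ w := by exact_mod_cast hw8
  set b : ℝ := (a j : ℝ) + 1 with hb
  have hb0 : 0 < b := by positivity
  have hai : (a i : ℝ) ≤ 2 * N := by
    have b1 : a i ≤ ∑ l, a l := single_le_sum (f := a) (fun _ _ => Nat.zero_le _) (mem_univ i)
    exact_mod_cast b1.trans hN
  have hqb : q * b ≤ 1 / 2 := by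
    have b1 : 1 * (1 / 3) ≤ (A₁ + 3 * D / c) * cz D q w :=
      mul_le_mul (by linarith) c9 (by norm_num) (by linarith)
    have b2 : 1 * (1 / 3) * (b * b) ≤ (A₁ + 3 * D / c) * cz D q w * (b * (b + 2 * w)) :=
      mul_le_mul b1 (mul_le_mul_of_nonneg_left (by linarith) hb0.le) (by positivity)
        (by positivity)
    have b3 : (a i : ℝ) * w ≤ 2 * N * w := mul_le_mul_of_nonneg_right hai (by linarith)
    have b4 : b * b ≤ 6 * N * w := by linarith
    have b5 : q ^ 2 * (b * b) ≤ q ^ 2 * (6 * N * w) :=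
      mul_le_mul_of_nonneg_left b4 (by positivity)
    have b6 : 0 < q * b := by positivity
    nlinarith
  have ht : ∀ l, l ≠ i → q * ((a l : ℝ) + 2 * w + 1) ≤ 1 := fun l hl' => by
    have b1 : (a l : ℝ) ≤ a j := by exact_mod_cast hmax l hl'
    have b2 : q * (a l : ℝ) ≤ q * a j := mul_le_mul_of_nonneg_left b1 hq.le
    nlinarith
  have hF : F2 q w w a i ≤ 3 ^ (D - 1) := by
    have b0 : (univ.erase i).card = D - 1 := by
      rw [card_erase_of_mem (mem_univ i), card_univ, Fintype.card_fin]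
    unfold F2
    rw [← b0, ← prod_const, ← prod_const, ← prod_mul_distrib]
    refine prod_le_prod (fun l _ => ?_) fun l hl' => ?_
    · exact mul_nonneg hq.le (by linarith [(t2_GNdl q w (a l)).1])
    · have b1 := ht l (mem_erase.1 hl').1
      have b2 := mul_le_mul_of_nonneg_left (n5 (a l) w hw8 (by omega) b1) hq.le
      linarith
  have s1 := hs' hF
  have hθ := n5 (a j) w hw8 (by omega) (ht j hij.symm)
  have hθw := (t2_GNdl q w (a j)).1
  set θ := t2 q w w (a j)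
  have hθ0 : 0 < θ := by linarith
  have hg : 0 ≤ c * w / θ := by positivity
  obtain ⟨e1, e2, -⟩ := c7 a i
  refine ⟨by linarith, ?_⟩
  have hle : Function.update a i 0 ≤ a := by
    intro l
    by_cases hl' : l = i
    · subst hl'; simp
    · simp [Function.update_of_ne hl']
  have hce : co2 k q w η ε (Function.update a i 0) i = co2 k q w η ε a i := by
    unfold co2 F2
    congr 3
    exact prod_congr rfl fun l hl' => by rw [Function.update_of_ne (mem_erase.1 hl').1]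
  have d1 := pA _ _ hle
  rw [sum_eq_single i (fun l _ hl' => by simp [Function.update_of_ne hl'])
    (fun h => absurd (mem_univ i) h), hce] at d1
  simp only [Function.update_self, Nat.sub_zero] at d1
  have d2 := pB (Function.update a i 0)
  have d3 : ((∑ l, Function.update a i 0 l : ℕ) : ℝ) ≤ D * b := by
    have b1 : ∑ l, Function.update a i 0 l ≤ ∑ _l : Fin D, a j :=
      sum_le_sum fun l _ => by
        by_cases hl' : l = i
        · subst hl'; simp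
        · rw [Function.update_of_ne hl']; exact hmax l hl'
    rw [sum_const, card_univ, Fintype.card_fin, smul_eq_mul] at b1
    have b2 : ((∑ l, Function.update a i 0 l : ℕ) : ℝ) ≤ D * (a j : ℝ) := by exact_mod_cast b1
    have b3 : (0 : ℝ) ≤ D := Nat.cast_nonneg D
    nlinarith
  have d4 : Φ (Function.update a i 0) ≤ D * b * cz D q w :=
    d2.trans (mul_le_mul_of_nonneg_right d3 hcz)
  have d5 : D * b * cz D q w ≤ a i * (c * w / θ) := by
    rw [← mul_div_assoc, le_div_iff₀ hθ0]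
    have b1 : 3 * D / c * (cz D q w * b * (b + 2 * w)) ≤
        (A₁ + 3 * D / c) * (cz D q w * b * (b + 2 * w)) :=
      mul_le_mul_of_nonneg_right (by linarith) (by positivity)
    have b2 : 3 * D / c * (cz D q w * b * (b + 2 * w)) ≤ a i * w := by linarith
    rw [div_mul_eq_mul_div, div_le_iff₀ hc] at b2
    have b3 : D * b * cz D q w * θ ≤ D * b * cz D q w * (3 * (b + 2 * w)) :=
      mul_le_mul_of_nonneg_left (by linarith) (by positivity)
    linarith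
  have d6 : (a i : ℝ) * (co2 k q w η ε a i + c * w / θ) ≤
      a i * (gk k (F2 q w w a i) - C * om D q (F2 q w w a i)) :=
    mul_le_mul_of_nonneg_left (by linarith) (Nat.cast_nonneg _)
  linarith

end Pool.Agent.MP_6d294b_pr

end

section

open Finset

namespace Pool.Agent.MP_6d294b_pr

theorem face_GP2 {d : ℕ} (q : ℝ) (y : Fin d → ℕ) (i : Fin d) :
    q ^ (d - 1) * (sg y i : ℝ) = ∏ j ∈ univ.erase i, q * ((y j : ℝ) + 1) := by
  rw [prod_mul_distrib, prod_const, card_erase_of_mem (mem_univ i), card_univ, Fintype.card_fin,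
    sg]
  push_cast
  rfl

theorem low_GP2 {d : ℕ} {q y₀ : ℝ} (h0 : 0 < y₀) (y : Fin d → ℕ) (i : Fin d)
    (h : ∀ j, y₀ ≤ q * ((y j : ℝ) + 1)) : y₀ ^ (d - 1) ≤ q ^ (d - 1) * (sg y i : ℝ) := by
  rw [face_GP2]
  have := prod_le_prod (s := univ.erase i) (f := fun _ => y₀) (fun _ _ => h0.le) fun j _ => h j
  rwa [prod_const, card_erase_of_mem (mem_univ i), card_univ, Fintype.card_fin] at this

theorem up_GP2 {d : ℕ} {q Z : ℝ} (h0 : 0 < q) (y : Fin d → ℕ) (i : Fin d)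
    (h : ∀ j, q * ((y j : ℝ) + 1) ≤ Z) : q ^ (d - 1) * (sg y i : ℝ) ≤ Z ^ (d - 1) := by
  rw [face_GP2]
  have := prod_le_prod (s := univ.erase i) (g := fun _ => Z)
    (f := fun j => q * ((y j : ℝ) + 1)) (fun _ _ => by positivity) fun j _ => h j
  rwa [prod_const, card_erase_of_mem (mem_univ i), card_univ, Fintype.card_fin] at this

theorem sg_mono_GP2 {d : ℕ} {y y' : Fin d → ℕ} (h : ∀ j, y j ≤ y' j) (i : Fin d) :
    sg y i ≤ sg y' i :=
  prod_le_prod' fun j _ => Nat.succ_le_succ (h j)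

theorem lay_mono_GP2 {D : ℕ} {B B' : Bx D} (h : B ≤ B') (s : Sd D) (j : ℤ) :
    lay B s j ⊆ lay B' s j := fun x hx => by
  rw [(bLay D _ s j).1] at hx ⊢
  exact ⟨hx.1, fun t ht => (hx.2 t ht).trans (h t)⟩

theorem LY_mono_GP2 (h1 : GLY) {D d : ℕ} (F : Fr D d) (h : ℕ) {X X' : Finset (Pt D)}
    (hX : X ⊆ X') : LY F h X ⊆ LY F h X' := fun x hx => by
  rw [(h1.1 D d F _).1] at hx ⊢
  exact ⟨hX hx.1, hx.2⟩

theorem lays_GP2 (h1 : GLY) {D d : ℕ} (F : Fr D d) {m : ℕ → ℕ} {S R : Bx D} {M : ℕ}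
    {z : ℕ → Bx D} {Ω : Finset (Pt d)} (hm : Monotone m) (hS : Val S) (hSR : S ≤ R)
    (hz : IsPath m S R M z) (hΩ : Full2 F Ω R) :
    Lays2 Ω S R (fun s x => kap s (F.pp x)) (fun s j => LY F 0 (cor M z s j))
      (fun s j => LY F 1 (cor M z s j)) (fun s j => Dall F (oz m R M 2 z s j) s j) := by
  obtain ⟨X, -, hX⟩ := ((bBoxC D).2.2.2.1 R).2.2.1
  obtain ⟨l1, l2⟩ := (bExt2 D m S R M 0 z hm hS hSR hz).2 X fun x hx => (hX x).2 hx
  refine ⟨fun s j j1 j2 => ⟨fun x hx => ?_, fun x hx => ?_, fun x hx => ?_, fun x hx => ?_⟩,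
    fun s j s' j' j1 j2 j3 j4 hne => ?_⟩
  · rw [(h1.1 D d F _).1] at hx ⊢
    refine ⟨hx.1, hx.2.1, hx.2.2.trans ?_⟩
    norm_num
  · rw [(h1.1 D d F _).1] at hx
    exact hΩ x ((hX _).1 ((l1 s j j1 j2).1 hx.1)) hx.2.1 (by exact_mod_cast hx.2.2)
  · rw [(h1.1 D d F _).1] at hx
    exact (l1 s j j1 j2).2.1 _ hx.1
  · simp only [Dall, mem_union] at hx
    rcases hx with hx | hx
    · rw [(h1.1 D d F _).1, (bLay D _ s j).1] at hx
      exact Or.inl hx.1.1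
    · rw [(h1.1 D d F _).1, (bLay D _ s (j + 1)).1] at hx
      exact Or.inr hx.1.1
  · refine disjoint_left.2 fun x hx hx' => ?_
    rw [(h1.1 D d F _).1] at hx hx'
    exact disjoint_left.1 (l2 s j s' j' j1 j2 j3 j4 hne) hx.1 hx'.1

theorem card_GP2 (h1 : GLY) {D d : ℕ} (F : Fr D d) {B B' O : Bx D} (hB : Val B) (h : B ≤ B')
    (hO : B ≤ O) (s : Sd D) (j : ℤ) :
    ((Dall F O s j \ (LY F 1 (lay B s j) ∪ LY F 0 (lay B' s (j + 1)))).card : ℝ) ≤
      ((d - D + 1 : ℕ) + 1 : ℝ) * ((sg (ex O) s.1 : ℝ) - sg (ex B) s.1) := by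
  have vO : Val O := ((bGeoA D).2.2.2.1 B O hB hO).1
  have e1 : Dall F O s j \ (LY F 1 (lay B s j) ∪ LY F 0 (lay B' s (j + 1))) ⊆
      (LY F 1 (lay O s j) \ LY F 1 (lay B s j)) ∪
        (LY F 0 (lay O s (j + 1)) \ LY F 0 (lay B s (j + 1))) := fun x hx => by
    simp only [Dall, mem_union, mem_sdiff, not_or] at hx ⊢
    rcases hx.1 with h' | h'
    · exact Or.inl ⟨h', hx.2.1⟩
    · exact Or.inr ⟨h', fun h'' => hx.2.2 (LY_mono_GP2 h1 F 0 (lay_mono_GP2 h s _) h'')⟩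
  have e2 := (card_le_card e1).trans (card_union_le _ _)
  have s1 := LY_mono_GP2 h1 F 1 (lay_mono_GP2 hO s j)
  have s0 := LY_mono_GP2 h1 F 0 (lay_mono_GP2 hO s (j + 1))
  have e3 : ((LY F 1 (lay O s j) \ LY F 1 (lay B s j)).card : ℝ) =
      ((d - D + 1 : ℕ) : ℝ) * ((sg (ex O) s.1 : ℝ) - sg (ex B) s.1) := by
    rw [card_sdiff_of_subset s1, Nat.cast_sub (card_le_card s1), (h1.1 D d F _).2.2.1,
      (h1.1 D d F _).2.2.1, (bLay D _ s j).2 vO, (bLay D _ s j).2 hB, Nat.cast_mul, Nat.cast_mul]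
    ring
  have e4 : ((LY F 0 (lay O s (j + 1)) \ LY F 0 (lay B s (j + 1))).card : ℝ) =
      (sg (ex O) s.1 : ℝ) - sg (ex B) s.1 := by
    rw [card_sdiff_of_subset s0, Nat.cast_sub (card_le_card s0), (h1.1 D d F _).2.1,
      (h1.1 D d F _).2.1, (bLay D _ s (j + 1)).2 vO, (bLay D _ s (j + 1)).2 hB]
  have e5 : ((Dall F O s j \ (LY F 1 (lay B s j) ∪ LY F 0 (lay B' s (j + 1)))).card : ℝ) ≤
      ((LY F 1 (lay O s j) \ LY F 1 (lay B s j)).card : ℝ) +
        ((LY F 0 (lay O s (j + 1)) \ LY F 0 (lay B s (j + 1))).card : ℝ) := by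
    exact_mod_cast e2
  rw [e3, e4] at e5
  linarith

theorem path_GP2 (h1 : GLY) (h2 : GExtB) (h3 : GRec) (h4 : GHc) (h6 : GN2) (h7 : GCost)
    (h9 : GDom) {D d k : ℕ} (hk : k = d - D + 1) {y₀ A₀ C g₀ B : ℝ} (y0 : 0 < y₀) (y1 : y₀ ≤ 1)
    (a0 : 1 ≤ A₀) (c0 : 0 ≤ C) (hg : g₀ = gk k (y₀ ^ (D - 1)))
    {q p : ℝ} {w T N : ℕ} {η ε ρ : ℝ} {Φ : (Fin D → ℕ) → ℝ} {F : Fr D d} {Ω : Finset (Pt d)}
    {S R : Bx D} {M : ℕ} {z : ℕ → Bx D}
    (hF : ∀ (y y' : Fin D → ℕ) (i : Fin D),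
      (∀ j, y₀ ≤ q * (y j + 1) ∧ y j ≤ 2 * N ∧ y' j ≤ y j + 2 * m2 q w (y j) + 4) →
      q ^ (D - 1) * ((sg y' i : ℝ) - sg y i) ≤
        A₀ * Real.sqrt q * (q ^ (D - 1) * sg y i) * (1 + q ^ (D - 1) * sg y i))
    (hW : ∀ (O : Sd D → ℤ → Bx D) (b : Sd D → ℤ → ℝ),
      (∀ s j, S s < j → j ≤ R s → Val (O s j) ∧ 0 < b s j ∧ b s j ≤ 1 ∧
        64 * (T : ℝ) ^ d * p * (b s j)⁻¹ ^ 2 ≤ 1) →
      ∑ u ∈ admM F T R S R O, Pr Ω p (ISp u.1) * aw F b u ≤
        ∑ s : Sd D, ∑ j ∈ Ioc (S s) (R s), C * (p ^ 2 * sg (ex (O s j)) s.1 * (b s j)⁻¹ ^ 4))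
    (hB : Bas2 D k q p w η ε Φ)
    (hBd : B = 2 * ((k : ℝ) + 1) * A₀ * Real.exp (8 * D * g₀) * Real.sqrt q)
    (hη : 8 * B ≤ η) (hρ : 0 ≤ ρ) (hρ' : η ≤ ε * ρ ^ 3) (hT : 1200 * (2 * T + 1) ^ d ≤ w)
    (hw : 2 * q * w ≤ y₀) (hS : Val S) (hSR : S ≤ R) (hN : psi R ≤ 2 * N) (hΩ : Full2 F Ω R)
    (hy : ∀ i, y₀ ≤ q * (ex S i + 1)) (hz : IsPath (m2 q w) S R M z) :
    Pr Ω p (Chn2 F T (Fol (m2 q w) R M z) S R) ≤
      Real.exp (Φ (ex S) - Φ (ex R) + 2 * η * ρ * ((psi R : ℝ) - psi S) +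
        (2 * D * cz D q w +
          2 * C * Real.exp (4 * g₀) * q * N * (1 + q * (2 * N + 1)) ^ D)) := by
  obtain ⟨⟨p3, p2, p1, p4, -⟩, -, -, k4, -, k6, -, k8, k9, -, k11⟩ := h7 D k q p w η ε Φ hB
  obtain ⟨d2, k1, q0, q1, hp, w8, qw, η0, hsl, hΦ⟩ := hB
  have hG := bGeoA D
  have hm := (h6 q w q0 (by omega)).1
  obtain ⟨z1, z2, -, z4, z5, -⟩ := bPathA D (m2 q w) S R M z hm hS hSR hz
  have p0 : 0 < q ^ (D - 1) := by positivity
  have F00 : 0 < y₀ ^ (D - 1) := by positivity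
  have g0 : 0 ≤ g₀ := hg ▸ ((bBet k k1).2 _ F00).2.1
  have B0 : 0 ≤ B := by
    rw [hBd]
    positivity
  have xR : ∀ i, ex R i ≤ 2 * N := fun i =>
    (single_le_sum (f := ex R) (fun _ _ => Nat.zero_le _) (mem_univ i)).trans hN
  obtain ⟨φ, hφ⟩ : ∃ φ : Sd D → ℤ → ℝ, ∀ s j,
      φ s j = q ^ (D - 1) * (sg (ex (z (tm z M s j))) s.1 : ℝ) := ⟨_, fun _ _ => rfl⟩
  have ey : ∀ t i, y₀ ≤ q * (ex (z t) i + 1) := fun t i => by
    have : (ex S i : ℝ) ≤ ex (z t) i := by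
      exact_mod_cast (hG.2.2.2.1 S (z t) hS (z2 t).1).2.1 i
    exact (hy i).trans (by gcongr)
  have F1 : ∀ s j, y₀ ^ (D - 1) ≤ φ s j := fun s j => by
    rw [hφ]
    exact low_GP2 y0 _ _ (ey _)
  have qw0 : 0 ≤ q * w := by positivity
  have F1' : ∀ s j, (q * w) ^ (D - 1) ≤ φ s j := fun s j =>
    (pow_le_pow_left₀ qw0 (by linarith) _).trans (F1 s j)
  have F2' : ∀ s j, 0 < φ s j := fun s j => F00.trans_le (F1 s j)
  have F3 : ∀ s j, gk k (φ s j) ≤ g₀ := fun s j =>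
    hg ▸ ((bSlope k k1).2 _ _ F00 (F1 s j)).1
  have F4 : ∀ s j, ((cor M z s j).card : ℝ) = sg (ex (z (tm z M s j))) s.1 := fun s j => by
    rw [cor, (bLay D _ s j).2 (z2 _).2.2]
  have F40 : ∀ s j, q ^ (D - 1) * ((LY F 0 (cor M z s j)).card : ℝ) = φ s j := fun s j => by
    rw [(h1.1 D d F _).2.1, F4, hφ]
  have F41 : ∀ s j, q ^ (D - 1) * ((LY F 1 (cor M z s j)).card : ℝ) = k * φ s j := fun s j => by
    rw [(h1.1 D d F _).2.2.1, ← hk, Nat.cast_mul, F4, hφ]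
    ring
  have F5 : ∀ s j, (1 - p) ^ (LY F 1 (cor M z s j)).card = Real.exp (-(k * φ s j)) :=
    fun s j => by
      rw [hp, sub_sub_cancel, ← Real.exp_nat_mul, ← F41]
      congr 1
      ring
  have zm : ∀ s j, z (tm z M s j) ≤ z (tm z M s (j + 1)) := fun s j =>
    z1 (z5 s (show j ≤ j + 1 by omega))
  have F6 : ∀ s j, φ s j ≤ φ s (j + 1) := fun s j => by
    rw [hφ, hφ]
    refine mul_le_mul_of_nonneg_left ?_ p0.le
    exact_mod_cast sg_mono_GP2 (hG.2.2.2.1 _ _ (z2 _).2.2 (zm s j)).2.1 s.1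
  have zo : ∀ e s j, z (tm z M s j) ≤ oz (m2 q w) R M e z s j := fun e s j t =>
    ((z4 _).1 t).trans (le_add_of_nonneg_right (Int.natCast_nonneg _))
  have F7 : ∀ s j, ((Dall F (oz (m2 q w) R M 2 z s j) s j \
      (LY F 1 (cor M z s j) ∪ LY F 0 (cor M z s (j + 1)))).card : ℝ) *
      (2 * p * (1 - p) ^ (LY F 1 (cor M z s j)).card * Real.exp (8 * D * g₀)) ≤
      B * φ s j * (1 + φ s j) * Real.exp (-(k * φ s j)) := fun s j => by
    have e1 := card_GP2 h1 F (z2 _).2.2 (zm s j) (zo 2 s j) s j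
    have e3 := hF (ex (z (tm z M s j))) (ex (oz (m2 q w) R M 2 z s j)) s.1 fun i =>
      ⟨ey _ i, ((hG.2.2.2.1 _ R (z2 _).2.2 (z2 _).2.1).2.1 i).trans (xR i), (z4 _).2.2.2 2 i⟩
    rw [← hφ] at e3
    rw [← hk] at e1
    rw [F5, hBd]
    have e5 : (0 : ℝ) ≤ (Dall F (oz (m2 q w) R M 2 z s j) s j \
      (LY F 1 (cor M z s j) ∪ LY F 0 (cor M z s (j + 1)))).card := Nat.cast_nonneg _
    have e6 := (mul_le_mul_of_nonneg_right p2 e5).trans (mul_le_mul_of_nonneg_left e1 p0.le)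
    have e7 := mul_le_mul_of_nonneg_left e3 (show (0 : ℝ) ≤ k + 1 by positivity)
    have e8 : p * ((Dall F (oz (m2 q w) R M 2 z s j) s j \
        (LY F 1 (cor M z s j) ∪ LY F 0 (cor M z s (j + 1)))).card : ℝ) ≤
        ((k : ℝ) + 1) * (A₀ * Real.sqrt q * φ s j * (1 + φ s j)) := by linarith
    have e9 := mul_le_mul_of_nonneg_right e8 (show 0 ≤ 2 * Real.exp (-(k * φ s j)) *
      Real.exp (8 * D * g₀) by positivity)
    linarith
  have F8 : ∀ s j, co2 k q w η ε (ex (z (tm z M s j))) s.1 ≤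
      gk k (φ s j) - B * φ s j * (1 + φ s j) * Real.exp (-(k * φ s j)) + 16 * B * ρ :=
    fun s j => h9 k B η ε ρ _ _ k1 hsl (F2' s j)
      (by rw [hφ]; exact k6 (2 * w) _ _ _ fun _ => by omega) B0 hη hρ hρ'
  obtain ⟨b, hb⟩ : ∃ b : Sd D → ℤ → ℝ, ∀ s j, b s j = Real.exp (-gk k (φ s j)) :=
    ⟨_, fun _ _ => rfl⟩
  have b1 : ∀ s j, 0 < b s j ∧ b s j ≤ 1 ∧ b s j ≤ b s (j + 1) := fun s j => by
    rw [hb, hb]
    exact ⟨Real.exp_pos _, Real.exp_le_one_iff.2 (neg_nonpos.2 (k8 _ (F1' s j)).2.1),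
      Real.exp_le_exp.2 (neg_le_neg ((bSlope k k1).2 _ _ (F2' s j) (F6 s j)).1)⟩
  have a1 : ∀ u, 0 ≤ aw F b u := fun u =>
    prod_nonneg fun s _ => prod_nonneg fun j _ => inv_nonneg.2 (b1 s j).1.le
  obtain ⟨H, hH⟩ : ∃ H : ℝ, H = ∑ s : Sd D, ∑ j ∈ Ioo (S s) (R s),
      ((Dall F (oz (m2 q w) R M 2 z s j) s j \
        (LY F 1 (cor M z s j) ∪ LY F 0 (cor M z s (j + 1)))).card : ℝ) *
      (2 * p * (1 - p) ^ (LY F 1 (cor M z s j)).card * Real.exp (8 * D * g₀)) := ⟨_, rfl⟩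
  have main := (h3 D d).1 Ω p p3 p4 (admM F T R S R (oz (m2 q w) R M (T + 1) z))
    (EvB F (fun s j => Dall F (oz (m2 q w) R M 2 z s j) s j) S R) (aw F b)
    ((∏ s : Sd D, ∏ j ∈ Ioo (S s) (R s), b s (j + 1)) * Real.exp H)
    (mul_nonneg (prod_nonneg fun s _ => prod_nonneg fun j _ => (b1 s _).1.le) (Real.exp_pos _).le)
    a1 fun U _ => ⟨fun A A' hA h s j hj => by
      obtain ⟨x, x1, x2⟩ := h s j hj
      exact ⟨x, hA x1, x2⟩, by
      have e1 := h4 D (Pt d) Ω p (q ^ (D - 1)) k (by omega) k1 p0.le hp p4 S R _ _ _ _ φ g₀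
        (JU F S R U) (lays_GP2 h1 F hm hS hSR hz hΩ) (fun s => filter_subset _ _)
        (fun s j _ _ => ⟨(F40 s j).le, (F41 s j).le, F2' s j, F3 s j⟩) (fun s j _ _ => F6 s j) g0
      have e2 := (h3 D d).2 F S R b U b1
      simp only [← hb] at e1
      rw [← hH] at e1
      refine le_trans e1 ?_
      rw [mul_right_comm]
      exact mul_le_mul_of_nonneg_right e2 (Real.exp_pos _).le⟩
  refine le_trans ((bPrA (Pt d) Ω p p3 (by linarith)).2.2.1 _ _ fun A _ hA =>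
    h2 D d F (m2 q w) S R M T z A hm hS hSR hz hA) (main.trans ?_)
  have dd : D ≤ d := (bLiftA D d F).1.2
  have T1 : 2 * T + 3 ≤ w := by
    have : 2 * T + 1 ≤ (2 * T + 1) ^ d := Nat.le_self_pow (by omega) _
    omega
  have Z1 : (1 : ℝ) ≤ 1 + q * (2 * N + 1) := le_add_of_nonneg_right (by positivity)
  have W1 : ∀ s j, C * (p ^ 2 * sg (ex (oz (m2 q w) R M (T + 1) z s j)) s.1 * (b s j)⁻¹ ^ 4) ≤
      C * (q * (1 + q * (2 * N + 1)) ^ D * Real.exp (4 * g₀)) := fun s j => by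
    refine mul_le_mul_of_nonneg_left ?_ c0
    have e1 := up_GP2 (Z := 1 + q * (2 * N + 1)) q0 (ex (oz (m2 q w) R M (T + 1) z s j)) s.1
      fun i => by
        have i0 : ∀ t, outB (m2 q w) R (z (tm z M s j)) t ≤ R t := (z4 _).2.1
        have i1 := i0 (i, true)
        have i2 := i0 (i, false)
        have i3 := xR i
        have i4 : ex (oz (m2 q w) R M (T + 1) z s j) i + 1 ≤ 2 * N + w := by
          simp only [ex, oz] at i3 ⊢
          omega
        have i5 : (ex (oz (m2 q w) R M (T + 1) z s j) i : ℝ) + 1 ≤ 2 * N + w := by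
          exact_mod_cast i4
        have i6 := mul_le_mul_of_nonneg_left i5 q0.le
        linarith
    have e2 : (1 + q * (2 * N + 1)) ^ (D - 1) ≤ (1 + q * (2 * N + 1)) ^ D :=
      pow_le_pow_right₀ Z1 (by omega)
    have e3 : (b s j)⁻¹ ^ 4 ≤ Real.exp (4 * g₀) := by
      rw [hb, ← Real.exp_neg, neg_neg, ← Real.exp_nat_mul, Real.exp_le_exp]
      have := F3 s j
      push_cast
      linarith
    have e4 : (0 : ℝ) ≤ sg (ex (oz (m2 q w) R M (T + 1) z s j)) s.1 := Nat.cast_nonneg _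
    have e5 : p ^ 2 * sg (ex (oz (m2 q w) R M (T + 1) z s j)) s.1 ≤
        q * (1 + q * (2 * N + 1)) ^ D := by
      rw [sq, mul_assoc]
      exact mul_le_mul (p2.trans p1)
        ((mul_le_mul_of_nonneg_right p2 e4).trans (e1.trans e2)) (by positivity) q0.le
    exact mul_le_mul e5 e3 (pow_nonneg (inv_nonneg.2 (b1 s j).1.le) _) (by positivity)
  have W2 := (hW (oz (m2 q w) R M (T + 1) z) b fun s j _ _ =>
    ⟨(hG.2.2.2.1 _ _ (z2 _).2.2 (zo _ s j)).1, (b1 s j).1, (b1 s j).2.1,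
      by rw [hb]; exact (k11 d T hT).2 _ (F1' s j)⟩).trans
    (sum_le_sum fun s _ => sum_le_sum fun j _ => W1 s j)
  simp only [hb, ← Real.exp_sum]
  rw [← Real.exp_add, ← Real.exp_add, Real.exp_le_exp]
  have s1 : ∑ s : Sd D, (∑ j ∈ Ioc (S s) (R s), gk k (φ s j) - cz D q w) ≤
      ∑ s : Sd D, ∑ j ∈ Ioo (S s) (R s), gk k (φ s (j + 1)) :=
    sum_le_sum fun s _ => bTrick.2.1 _ _ (fun j => gk k (φ s j)) _ (by linarith)
      fun j _ _ => (k8 _ (F1' s j)).2.2.1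
  have s2 : H ≤ ∑ s : Sd D, ∑ j ∈ Ioc (S s) (R s),
      B * φ s j * (1 + φ s j) * Real.exp (-(k * φ s j)) := by
    rw [hH]
    refine sum_le_sum fun s _ => (sum_le_sum fun j _ => F7 s j).trans
      (sum_le_sum_of_subset_of_nonneg Ioo_subset_Ioc_self fun j _ _ => ?_)
    have := F2' s j
    positivity
  have s3 := sum_le_sum (s := (univ : Finset (Sd D))) fun s _ =>
    sum_le_sum (s := Ioc (S s) (R s)) fun j _ => F8 s j
  have s4 := bPathC D (m2 q w) S R M z (co2 k q w η ε) Φ hm hS hSR hz hΦ.2.1 k4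
  obtain ⟨L, hL⟩ : ∃ L : ℝ, L = ∑ s : Sd D, ((R s - S s).toNat : ℝ) := ⟨_, rfl⟩
  have s5 : (psi R : ℝ) - psi S = L := by
    rw [(hG.2.2.2.1 S R hS hSR).2.2.2.1, hL]
    push_cast
    ring
  have s6 : L ≤ 2 * N := by
    have e1 : (psi R : ℝ) ≤ 2 * N := by exact_mod_cast hN
    have e2 : (0 : ℝ) ≤ psi S := Nat.cast_nonneg _
    linarith
  have s7 : 0 ≤ L := hL ▸ sum_nonneg fun _ _ => Nat.cast_nonneg _
  have s8 := mul_le_mul_of_nonneg_right hη (mul_nonneg hρ s7)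
  have s9 := mul_le_mul_of_nonneg_right s6
    (show 0 ≤ C * (q * (1 + q * (2 * N + 1)) ^ D * Real.exp (4 * g₀)) by positivity)
  simp only [sum_add_distrib, sum_sub_distrib, sum_const, Int.card_Ioc, nsmul_eq_mul,
    ← sum_mul, card_univ, Fintype.card_prod, Fintype.card_fin, Fintype.card_bool, ← hL]
    at s1 s3 W2
  simp only [sum_neg_distrib]
  push_cast at s1
  rw [s5]
  linarith

theorem gP2 (h1 : GLY) (h2 : GExtB) (h3 : GRec) (h4 : GHc) (h5 : GWM) (h6 : GN2) (h7 : GCost)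
    (h8 : GFrame) (h9 : GDom) : GP2 := by
  intro D d y₀ y0 y1
  by_cases d2 : 2 ≤ D
  swap
  · exact ⟨1, le_rfl, fun q p w T N η ε ρ Φ F Ω S R M z hB => absurd hB.1 d2⟩
  obtain ⟨A₀, a0, hF⟩ := h8 D y₀ d2 y0 y1
  obtain ⟨C, c0, hW⟩ := h5 D d
  obtain ⟨k, hk⟩ : ∃ k, k = d - D + 1 := ⟨_, rfl⟩
  obtain ⟨g₀, hg⟩ : ∃ g₀, g₀ = gk k (y₀ ^ (D - 1)) := ⟨_, rfl⟩
  have a1 : 0 ≤ 16 * ((k : ℝ) + 1) * A₀ * Real.exp (8 * D * g₀) := by positivity
  have a2 : 0 ≤ 2 * C * Real.exp (4 * g₀) := by positivity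
  refine ⟨A₀ + 16 * ((k : ℝ) + 1) * A₀ * Real.exp (8 * D * g₀) + 2 * C * Real.exp (4 * g₀),
    by linarith, ?_⟩
  intro q p w T N η ε ρ Φ F Ω S R M z hB hη hρ hρ' hT hw hA hS hSR hN hΩ hy hz
  rw [← hk] at hB
  have q0 := hB.2.2.1
  have r0 : 0 ≤ Real.sqrt q := Real.sqrt_nonneg q
  obtain ⟨⟨p3, -, -, p4, -⟩, -⟩ := h7 D k q p w η ε Φ hB
  have e1 := mul_nonneg (show 0 ≤ A₀ + 2 * C * Real.exp (4 * g₀) by linarith) r0
  refine (path_GP2 h1 h2 h3 h4 h6 h7 h9 hk y0 y1 a0 c0 hg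
    (fun y y' i h => hF q w N y y' i q0 hw (le_trans (by gcongr; linarith) hA) h)
    (hW F Ω p p3 (by linarith) T R S R) hB rfl (by linarith) hρ hρ' hT hw hS hSR hN hΩ hy
    hz).trans ?_
  rw [Real.exp_le_exp]
  have e2 := mul_le_mul_of_nonneg_right (show 2 * C * Real.exp (4 * g₀) ≤
    A₀ + 16 * ((k : ℝ) + 1) * A₀ * Real.exp (8 * D * g₀) + 2 * C * Real.exp (4 * g₀) by linarith)
    (show 0 ≤ q * N * (1 + q * (2 * N + 1)) ^ D by positivity)
  linarith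

end Pool.Agent.MP_6d294b_pr

end
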