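import Pool.Agent.Mg.F6d294b.G4e8bb7

set_option linter.all false

open Finset

namespace Pool.Agent.MP_6d294b_pr

lemma exp_le_GStepH {x : ℝ} (h0 : 0 ≤ x) (h1 : x ≤ 1) : Real.exp x ≤ 1 + 2 * x := by
  have h := Real.abs_exp_sub_one_le (x := x) (by rw [abs_of_nonneg h0]; exact h1)
  rw [abs_of_nonneg h0] at h
  have := le_abs_self (Real.exp x - 1)
  linarith

/-- the face is comparable with the diagonal face -/
lemma near_GStepH {k : ℕ} (hk1 : 1 ≤ k) (hm : Slp1 k) {z F Z e η ε : ℝ} (hz : 0 < z) (hF : z ≤ F)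
    (hF' : F ≤ z * (1 + e)) (he : 0 ≤ e) (he' : e ≤ 1 / 8) (hη : 0 ≤ η) (hε : 0 ≤ ε) (hZ : 0 < Z)
    (hZz : Z < 2 * z) :
    gk k Z + mkk k Z * (z - Z) - (k + 1) * ((e + 32 * η) * Real.exp (- (Z / 8))) ≤
      gk k (Th2 η ε F) := by
  obtain ⟨s1, -, s3, -, -, s6⟩ := hm
  set u : ℝ := min (η * Real.exp (3 * F / 2)) ε with hu
  have hu0 : 0 ≤ u := le_min (by positivity) hε
  have hu1 : u ≤ η * Real.exp (27 * z / 16) := by
    refine (min_le_left _ _).trans (mul_le_mul_of_nonneg_left (Real.exp_le_exp.2 ?_) hη)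
    nlinarith
  have hT : Th2 η ε F = F * (1 + u) := rfl
  have hF0 : 0 < F := lt_of_lt_of_le hz hF
  have hT0 : 0 < Th2 η ε F := by rw [hT]; positivity
  have h1 := s1 Z z hZ hz
  have h2 := s1 z (Th2 η ε F) hz hT0
  have hm0 : 0 ≤ - mkk k z := by have := s3 z hz; linarith
  have h3 : Th2 η ε F - z ≤ z * (e + 2 * u) := by
    rw [hT]
    have a1 : F * (1 + u) ≤ z * (1 + e) * (1 + u) :=
      mul_le_mul_of_nonneg_right hF' (by linarith)
    have a2 : z * (e * u) ≤ z * u :=
      mul_le_mul_of_nonneg_left (by nlinarith) hz.le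
    nlinarith
  have hk' : (1 : ℝ) ≤ k := by exact_mod_cast hk1
  have s7 : z * (- mkk k z) ≤ (k + 1) * ((1 + z) * Real.exp (- (2 * z))) := by
    refine (s6 z hz).trans ?_
    rw [mul_assoc]
    have : Real.exp (- ((k + 1) * z)) ≤ Real.exp (- (2 * z)) :=
      Real.exp_le_exp.2 (by nlinarith)
    gcongr
  have h4 : (- mkk k z) * (Th2 η ε F - z) ≤
      ((k + 1) * ((1 + z) * Real.exp (- (2 * z)))) * (e + 2 * u) := by
    calc (- mkk k z) * (Th2 η ε F - z) ≤ (- mkk k z) * (z * (e + 2 * u)) :=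
          mul_le_mul_of_nonneg_left h3 hm0
      _ = (z * (- mkk k z)) * (e + 2 * u) := by ring
      _ ≤ _ := mul_le_mul_of_nonneg_right s7 (by linarith)
  have h5 : (1 + z) * Real.exp (- (2 * z)) ≤ Real.exp (- (Z / 8)) := by
    have a1 : 1 + z ≤ Real.exp z := by have := Real.add_one_le_exp z; linarith
    calc (1 + z) * Real.exp (- (2 * z)) ≤ Real.exp z * Real.exp (- (2 * z)) :=
          mul_le_mul_of_nonneg_right a1 (Real.exp_pos _).le
      _ = Real.exp (z + - (2 * z)) := (Real.exp_add _ _).symm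
      _ ≤ _ := Real.exp_le_exp.2 (by linarith)
  have h6 : (1 + z) * Real.exp (- (2 * z)) * u ≤ 16 * η * Real.exp (- (Z / 8)) := by
    have a1 : 1 + z ≤ 16 * Real.exp (z / 16) := by
      have := Real.add_one_le_exp (z / 16)
      linarith
    calc (1 + z) * Real.exp (- (2 * z)) * u
        ≤ (16 * Real.exp (z / 16)) * Real.exp (- (2 * z)) * (η * Real.exp (27 * z / 16)) := by
          gcongr
      _ = 16 * η * (Real.exp (z / 16) * Real.exp (- (2 * z)) * Real.exp (27 * z / 16)) := by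
          ring
      _ = 16 * η * Real.exp (z / 16 + - (2 * z) + 27 * z / 16) := by
          rw [Real.exp_add, Real.exp_add]
      _ ≤ _ := by
          refine mul_le_mul_of_nonneg_left (Real.exp_le_exp.2 (by linarith)) (by positivity)
  have h7 := mul_le_mul_of_nonneg_left h5 he
  have h8 : ((k + 1) * ((1 + z) * Real.exp (- (2 * z)))) * (e + 2 * u) ≤
      (k + 1) * ((e + 32 * η) * Real.exp (- (Z / 8))) := by
    rw [mul_assoc]
    exact mul_le_mul_of_nonneg_left (by linarith) (by linarith)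
  linarith

/-- the face is much smaller than the diagonal face -/
lemma far_GStepH {k : ℕ} {ε : ℝ} (hm : Slp2 k ε) (hε : ε ≤ 1 / 8) {z F Z e η : ℝ} (hz : 0 < z)
    (hF : z ≤ F) (hF' : F ≤ z * (1 + e)) (he' : e ≤ ε) (hη : 0 ≤ η) (hZz : 2 * z ≤ Z) :
    gk k Z + mkk k Z * (z - Z) ≤ gk k (Th2 η ε F) := by
  obtain ⟨-, e0, -, s7⟩ := hm
  set u : ℝ := min (η * Real.exp (3 * F / 2)) ε with hu
  have hu0 : 0 ≤ u := le_min (by positivity) e0.le
  have hu1 : u ≤ ε := min_le_right _ _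
  have hT : Th2 η ε F = F * (1 + u) := rfl
  have hF0 : 0 < F := lt_of_lt_of_le hz hF
  refine s7 Z z _ (by rw [hT]; positivity) ?_ hZz
  rw [hT]
  have a1 : F ≤ z * (1 + ε) := hF'.trans (mul_le_mul_of_nonneg_left (by linarith) hz.le)
  have a2 : F * (1 + u) ≤ z * (1 + ε) * (1 + ε) := by gcongr
  have a3 : (1 + ε) * (1 + ε) ≤ 1 + 4 * ε := by nlinarith
  have a4 := mul_le_mul_of_nonneg_left a3 hz.le
  linarith

lemma eps_GStepH (h1 : GN2) {q : ℝ} (hq : 0 < q) (hq' : q ≤ 1 / 2) (w v y : ℕ) (hw : 1 ≤ w)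
    (hv : (v : ℝ) = 2 * w) : t2 q w v y ≤ ((y : ℝ) + v) *
      (1 + 12 * (1 + q * ((y : ℝ) + v)) / Real.sqrt ((y : ℝ) + v)) := by
  have hw' : (1 : ℝ) ≤ w := by exact_mod_cast hw
  have hy : (0 : ℝ) ≤ y := Nat.cast_nonneg y
  have h2 := (h1 q w hq hw).2.2.2.1 y
  rw [← hv] at h2
  unfold t2
  have hb1 : 1 ≤ (y : ℝ) + v := by linarith
  generalize (y : ℝ) + v = b at *
  have hb0 : 0 < b := by linarith
  have hs : 0 < Real.sqrt b := Real.sqrt_pos.2 hb0
  have hss : Real.sqrt b * Real.sqrt b = b := Real.mul_self_sqrt hb0.le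
  have h3 : Real.sqrt (b + 1) ≤ 2 * Real.sqrt b :=
    Real.sqrt_le_iff.2 ⟨by positivity, by nlinarith⟩
  have h4 : 2 * Real.sqrt (b + 1) * (1 + q * (b + 1)) ≤
      2 * (2 * Real.sqrt b) * (3 / 2 * (1 + q * b)) := by
    have : 1 + q * (b + 1) ≤ 3 / 2 * (1 + q * b) := by nlinarith
    gcongr
  have h5 : b * (12 * (1 + q * b) / Real.sqrt b) = 12 * Real.sqrt b * (1 + q * b) := by
    field_simp
    nlinarith
  rw [mul_add, h5]
  linarith

lemma prod_GStepH {ι : Type} (I : Finset ι) (b t e : ι → ℝ) (hb : ∀ j ∈ I, 0 ≤ b j)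
    (ht : ∀ j ∈ I, 0 ≤ t j ∧ t j ≤ b j * (1 + e j)) (he : ∀ j ∈ I, 0 ≤ e j)
    (hs : ∑ j ∈ I, e j ≤ 1) :
    ∏ j ∈ I, t j ≤ (∏ j ∈ I, b j) * (1 + 2 * ∑ j ∈ I, e j) := by
  calc ∏ j ∈ I, t j ≤ ∏ j ∈ I, (b j * Real.exp (e j)) := by
        refine prod_le_prod (fun j hj => (ht j hj).1) fun j hj => (ht j hj).2.trans ?_
        refine mul_le_mul_of_nonneg_left ?_ (hb j hj)
        have := Real.add_one_le_exp (e j)
        linarith
    _ = (∏ j ∈ I, b j) * Real.exp (∑ j ∈ I, e j) := by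
        rw [prod_mul_distrib, Real.exp_sum]
    _ ≤ _ := mul_le_mul_of_nonneg_left (exp_le_GStepH (sum_nonneg he) hs) (prod_nonneg hb)

theorem gStepH (h1 : GN2) (h2 : GCost) : GStepH := by
  intro d k
  refine ⟨(k + 1) * (64 + 48 * d * Real.sqrt (2 * d ^ (d - 1))), by positivity, ?_⟩
  intro q p w N η ε Φ hB hsm y i hy
  have hε := (h2 d k q p w η ε Φ hB).1.2.2.2.2
  obtain ⟨hd, hk, hq, hq', -, hw, -, hη, hm, -⟩ := hB
  have h3 := bPotB
  unfold co2
  obtain ⟨v, hv⟩ : ∃ v, v = 2 * w := ⟨_, rfl⟩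
  rw [← hv]
  have hvw : (v : ℝ) = 2 * w := by exact_mod_cast hv
  have hw' : (8 : ℝ) ≤ w := by exact_mod_cast hw
  have hv' : (1 : ℝ) ≤ v := by linarith
  rw [← hvw] at hsm
  have hd0 : (0 : ℝ) < d := by have : (2 : ℝ) ≤ d := by exact_mod_cast hd
                               linarith
  set t : ℕ := ∑ l, y l with ht
  set s : ℝ := (t : ℝ) + d * v with hs
  have hs0 : 0 < s := by positivity
  set b : Fin d → ℝ := fun j => (y j : ℝ) + v with hb
  have hb0 : ∀ j, 0 < b j := fun j => by simp only [hb]; positivity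
  have hyt : ∀ j, y j ≤ t := fun j =>
    single_le_sum (f := y) (fun _ _ => Nat.zero_le _) (mem_univ j)
  have hbs : ∀ j, b j ≤ s := by
    intro j
    have a1 : (y j : ℝ) ≤ t := by exact_mod_cast hyt j
    have a2 : (1 : ℝ) ≤ d := by exact_mod_cast (by omega : 1 ≤ d)
    simp only [hb, hs]
    nlinarith
  have hbN : ∀ j, b j ≤ 2 * N + v := by
    intro j
    have a1 : (y j : ℝ) ≤ 2 * N := by exact_mod_cast (by have := hyt j; omega : y j ≤ 2 * N)
    simp only [hb]
    linarith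
  set p' : ℝ := q ^ (d - 1) with hp'
  have hp0 : 0 < p' := by positivity
  set e : Fin d → ℝ := fun j => 12 * (1 + q * b j) / Real.sqrt (b j) with he
  have he0 : ∀ j, 0 ≤ e j := fun j => by have := hb0 j; simp only [he]; positivity
  have he1 : ∀ j, e j ≤ 12 * (1 / Real.sqrt w + q * Real.sqrt (2 * N + v)) := by
    intro j
    have a0 := hb0 j
    have a1 : 0 < Real.sqrt (b j) := Real.sqrt_pos.2 a0
    have a2 : e j = 12 * (1 / Real.sqrt (b j) + q * Real.sqrt (b j)) := by
      have a3 : Real.sqrt (b j) * Real.sqrt (b j) = b j := Real.mul_self_sqrt a0.le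
      simp only [he]
      field_simp
      nlinarith
    have a4 : 1 / Real.sqrt (b j) ≤ 1 / Real.sqrt w := by
      refine one_div_le_one_div_of_le (Real.sqrt_pos.2 (by linarith)) (Real.sqrt_le_sqrt ?_)
      have : (0 : ℝ) ≤ y j := Nat.cast_nonneg _
      simp only [hb]
      linarith
    have a5 : q * Real.sqrt (b j) ≤ q * Real.sqrt (2 * N + v) :=
      mul_le_mul_of_nonneg_left (Real.sqrt_le_sqrt (hbN j)) hq.le
    rw [a2]
    linarith
  have hcard : ((univ.erase i).card : ℝ) ≤ d := by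
    have : (univ.erase i).card ≤ d := by
      rw [card_erase_of_mem (mem_univ i), card_univ, Fintype.card_fin]
      omega
    exact_mod_cast this
  have hsum : ∀ c : ℝ, 0 ≤ c → (∀ j ∈ univ.erase i, e j ≤ c) →
      ∑ j ∈ univ.erase i, e j ≤ d * c := by
    intro c hc h
    calc ∑ j ∈ univ.erase i, e j ≤ (univ.erase i).card • c := sum_le_card_nsmul _ _ _ h
      _ = ((univ.erase i).card : ℝ) * c := nsmul_eq_mul _ _
      _ ≤ d * c := mul_le_mul_of_nonneg_right hcard hc
  have hse : ∑ j ∈ univ.erase i, e j ≤ ε / 2 := by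
    have := hsum _ (by positivity) (fun j _ => he1 j)
    linarith
  have hse0 : 0 ≤ ∑ j ∈ univ.erase i, e j := sum_nonneg fun j _ => he0 j
  have hth : ∀ j, b j ≤ t2 q w v (y j) := by
    intro j
    have : (0 : ℝ) ≤ m2 q w (y j) := Nat.cast_nonneg _
    simp only [hb, t2]
    linarith
  set σ : ℝ := ∏ j ∈ univ.erase i, b j with hσ
  have hσ0 : 0 < σ := prod_pos fun j _ => hb0 j
  have hF1 : p' * σ ≤ F2 q w v y i :=
    mul_le_mul_of_nonneg_left (prod_le_prod (fun j _ => (hb0 j).le) fun j _ => hth j) hp0.le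
  have hF2 : F2 q w v y i ≤ p' * σ * (1 + 2 * ∑ j ∈ univ.erase i, e j) := by
    rw [mul_assoc]
    refine mul_le_mul_of_nonneg_left ?_ hp0.le
    exact prod_GStepH _ b _ e (fun j _ => (hb0 j).le)
      (fun j _ => ⟨(hb0 j).le.trans (hth j),
        eps_GStepH h1 hq (by linarith) w v (y j) (by omega) hvw⟩) (fun j _ => he0 j)
      (by linarith)
  have hD := ((h3 d v (by omega) (by linarith)).1 t).1
  have hD0 : 0 < Dd d v t := lt_of_lt_of_le (by positivity) hD
  have hell : ell d q v η t = (η + (1 + q * s) / Real.sqrt s) * Real.exp (- (q * s / (8 * d))) :=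
    rfl
  have hw0 : 0 ≤ (1 + q * s) / Real.sqrt s := by positivity
  have e1 : p' * mkk k (p' * Dd d v t) * (σ - Dd d v t) =
      mkk k (p' * Dd d v t) * (p' * σ - p' * Dd d v t) := by ring
  show gk k (p' * Dd d v t) + p' * mkk k (p' * Dd d v t) * (σ - Dd d v t) -
    (k + 1) * (64 + 48 * d * Real.sqrt (2 * d ^ (d - 1))) * ell d q v η t ≤
      gk k (Th2 η ε (F2 q w v y i))
  rw [e1, hell]
  by_cases hc : 2 * (p' * σ) ≤ p' * Dd d v t
  · have := far_GStepH hm hε (mul_pos hp0 hσ0) hF1 hF2 (by linarith) hη hc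
    have a1 : 0 ≤ (k + 1) * (64 + 48 * d * Real.sqrt (2 * d ^ (d - 1))) *
      ((η + (1 + q * s) / Real.sqrt s) * Real.exp (- (q * s / (8 * d)))) := by positivity
    linarith
  push Not at hc
  have hn := near_GStepH hk hm.1 (mul_pos hp0 hσ0) hF1 hF2 (by linarith) (by linarith) hη
    hm.2.1.le (mul_pos hp0 hD0) hc
  set r : ℝ := Real.sqrt (2 * d ^ (d - 1)) with hr
  have hr0 : 0 < r := Real.sqrt_pos.2 (by positivity)
  have hside : ∀ j ∈ univ.erase i, e j ≤ 12 * r * ((1 + q * s) / Real.sqrt s) := by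
    intro j hj
    have a1 : σ ≤ b j * s ^ (d - 2) := by
      rw [hσ, ← mul_prod_erase _ _ hj]
      refine mul_le_mul_of_nonneg_left ?_ (hb0 j).le
      have a2 : ((univ.erase i).erase j).card = d - 2 := by
        rw [card_erase_of_mem hj, card_erase_of_mem (mem_univ i), card_univ, Fintype.card_fin]
        omega
      calc ∏ l ∈ (univ.erase i).erase j, b l ≤ ∏ _l ∈ (univ.erase i).erase j, s :=
            prod_le_prod (fun l _ => (hb0 l).le) fun l _ => hbs l
        _ = s ^ (d - 2) := by rw [prod_const, a2]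
    have a3 : Dd d v t < 2 * σ := by
      have : p' * Dd d v t < p' * (2 * σ) := by linarith
      exact lt_of_mul_lt_mul_left this hp0.le
    have a4 : (s / d) ^ (d - 1) = s * s ^ (d - 2) / d ^ (d - 1) := by
      rw [div_pow, show d - 1 = (d - 2) + 1 by omega, pow_succ' s]
    have a5 : s * s ^ (d - 2) / d ^ (d - 1) ≤ 2 * (b j * s ^ (d - 2)) := by
      rw [← a4]
      linarith
    have a6 : s ≤ 2 * d ^ (d - 1) * b j := by
      rw [div_le_iff₀ (by positivity)] at a5
      have a7 : 0 < s ^ (d - 2) := by positivity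
      refine le_of_mul_le_mul_right ?_ a7
      linarith
    have a8 : Real.sqrt s ≤ r * Real.sqrt (b j) := by
      rw [hr, ← Real.sqrt_mul (by positivity)]
      exact Real.sqrt_le_sqrt a6
    have a9 : 0 < Real.sqrt (b j) := Real.sqrt_pos.2 (hb0 j)
    have a10 : 0 < Real.sqrt s := Real.sqrt_pos.2 hs0
    have a11 : 1 + q * b j ≤ 1 + q * s := by
      have := mul_le_mul_of_nonneg_left (hbs j) hq.le
      linarith
    have a12 : 0 ≤ 1 + q * b j := by have := hb0 j; positivity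
    simp only [he]
    rw [← mul_div_assoc, div_le_div_iff₀ a9 a10]
    calc 12 * (1 + q * b j) * Real.sqrt s ≤ 12 * (1 + q * s) * (r * Real.sqrt (b j)) := by
          gcongr
      _ = _ := by ring
  have hse2 := hsum _ (by positivity) hside
  have hZ : q * s / d - 1 ≤ p' * Dd d v t := by
    have a1 : (q * s / d) ^ (d - 1) ≤ p' * Dd d v t := by
      rw [mul_div_assoc, mul_pow]
      exact mul_le_mul_of_nonneg_left hD hp0.le
    refine le_trans ?_ a1
    by_cases a2 : 1 ≤ q * s / d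
    · have := le_self_pow₀ a2 (by omega : d - 1 ≠ 0)
      linarith
    · have : 0 ≤ (q * s / d) ^ (d - 1) := by positivity
      push Not at a2
      linarith
  have hE : Real.exp (- (p' * Dd d v t / 8)) ≤ 2 * Real.exp (- (q * s / (8 * d))) := by
    have a1 : Real.exp (1 / 8 : ℝ) ≤ 2 := by
      have := exp_le_GStepH (x := 1 / 8) (by norm_num) (by norm_num)
      linarith
    have a2 : q * s / (8 * d) = q * s / d / 8 := by
      rw [div_div, mul_comm (d : ℝ) 8]
    calc Real.exp (- (p' * Dd d v t / 8)) ≤ Real.exp (1 / 8 + - (q * s / (8 * d))) :=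
          Real.exp_le_exp.2 (by rw [a2]; linarith)
      _ = Real.exp (1 / 8) * Real.exp (- (q * s / (8 * d))) := Real.exp_add _ _
      _ ≤ _ := mul_le_mul_of_nonneg_right a1 (Real.exp_pos _).le
  have hfin : (2 * ∑ j ∈ univ.erase i, e j + 32 * η) * Real.exp (- (p' * Dd d v t / 8)) ≤
      (64 + 48 * d * r) *
        ((η + (1 + q * s) / Real.sqrt s) * Real.exp (- (q * s / (8 * d)))) := by
    have a1 : 0 ≤ (d : ℝ) * r := by positivity
    calc (2 * ∑ j ∈ univ.erase i, e j + 32 * η) * Real.exp (- (p' * Dd d v t / 8))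
        ≤ (24 * (d * r) * ((1 + q * s) / Real.sqrt s) + 32 * η) *
            (2 * Real.exp (- (q * s / (8 * d)))) :=
          mul_le_mul (by linarith) hE (Real.exp_pos _).le (by positivity)
      _ = (48 * (d * r) * ((1 + q * s) / Real.sqrt s) + 64 * η) *
            Real.exp (- (q * s / (8 * d))) := by ring
      _ ≤ ((64 + 48 * (d * r)) * (η + (1 + q * s) / Real.sqrt s)) *
            Real.exp (- (q * s / (8 * d))) := by
          refine mul_le_mul_of_nonneg_right ?_ (Real.exp_pos _).le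
          nlinarith [mul_nonneg a1 hη]
      _ = _ := by ring
  have hfin2 := mul_le_mul_of_nonneg_left hfin (by positivity : (0 : ℝ) ≤ k + 1)
  rw [mul_assoc ((k : ℝ) + 1)]
  linarith

end Pool.Agent.MP_6d294b_pr
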