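import Pool.Agent.Mg.F6d294b.G4e8bb7

set_option linter.all false

open Finset

namespace Pool.Agent.MP_6d294b_pr

theorem cz_GPar2 (d v : ℕ) (hd : 2 ≤ d) {q y : ℝ} (hq : 0 < q) (hv : 1 ≤ (v : ℝ))
    (hqv : q * v ≤ 1) (hy : 1 ≤ y) (hl : Real.log (1 / q) ≤ 24 * y) :
    0 ≤ cz d q v ∧ cz d q v ≤ 13 * d * y := by
  have hd2 : (2 : ℝ) ≤ d := by exact_mod_cast hd
  have h0 : 0 < q * v := by positivity
  have hq1 : q ≤ q * v := le_mul_of_one_le_right hq.le hv
  have h1 : (q * v) ^ (d - 1) ≤ 1 := pow_le_one₀ h0.le hqv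
  have h2 : q ^ d ≤ (q * v) ^ (d - 1) :=
    (pow_le_pow_of_le_one hq.le (hq1.trans hqv) (Nat.sub_le d 1)).trans
      (pow_le_pow_left₀ hq.le hq1 _)
  unfold cz
  constructor
  · refine div_nonneg (Real.log_nonneg ?_) (by norm_num)
    rw [le_div_iff₀ (by positivity)]
    linarith
  · have h3 : Real.log (2 / (q * v) ^ (d - 1)) ≤ Real.log (2 * (1 / q) ^ d) := by
      refine Real.log_le_log (by positivity) ?_
      rw [one_div, inv_pow, ← div_eq_mul_inv]
      exact div_le_div_of_nonneg_left (by norm_num) (by positivity) h2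
    rw [Real.log_mul (by norm_num) (by positivity), Real.log_pow] at h3
    have h4 : Real.log 2 ≤ 1 := by
      have := Real.log_le_sub_one_of_pos (x := 2) (by norm_num)
      linarith
    have h5 : (d : ℝ) * Real.log (1 / q) ≤ d * (24 * y) := by gcongr
    nlinarith

theorem ev_GPar2 (c : ℝ) (m : ℕ) (hc : 0 < c) :
    ∀ᶠ y : ℝ in Filter.atTop, c * (1 + Real.log y) ^ m ≤ y := by
  have h1 := (Real.isLittleO_pow_log_id_atTop (n := m)).bound
    (c := 1 / (c * 2 ^ m)) (by positivity)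
  have h2 := Real.tendsto_log_atTop.eventually_ge_atTop 1
  filter_upwards [h1, h2, Filter.eventually_ge_atTop 0] with y a b e
  rw [id, Real.norm_of_nonneg e, Real.norm_of_nonneg (by positivity), one_div,
    le_inv_mul_iff₀ (by positivity)] at a
  calc c * (1 + Real.log y) ^ m ≤ c * (2 * Real.log y) ^ m := by gcongr; linarith
    _ = c * 2 ^ m * Real.log y ^ m := by rw [mul_pow]; ring
    _ ≤ y := a

theorem main_GPar2 (D d : ℕ) (A : ℝ) (hD : 2 ≤ D) (hA : 1 ≤ A) (y u B : ℝ) (hy : 1 ≤ y)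
    (hu : u = 1 + Real.log y) (b1 : A * D * (98 * D) ^ D * u ^ (D + 1) ≤ B) (b2 : d * u ≤ B)
    (b3 : A * D ^ 2 * u ^ 2 ≤ B) (ha : 1200 * (3061 * B) ^ d ≤ y) (hb : 1000000 * B ^ 2 ≤ y)
    (k N : ℕ) (hk : (k : ℝ) ≤ 1 / (1 / y ^ 24) ^ 2)
    (hN : 1 / y ^ 24 * N ≤ 2 * D * Real.log (1 / (1 / y ^ 24))) :
    ∃ (w T : ℕ) (ρ X G : ℝ), Par3 D d A (1 / y ^ 24) k N w T ρ X G := by
  have hD2 : (2 : ℝ) ≤ D := by exact_mod_cast hD
  have hy0 : 0 < y := by linarith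
  have hl0 : 0 ≤ Real.log y := Real.log_nonneg hy
  have hu1 : 1 ≤ u := by linarith
  have hDu : 1 ≤ D * u := one_le_mul_of_one_le_of_one_le (by linarith) hu1
  have hDu2 : D * u ≤ (D * u) ^ 2 := le_self_pow₀ hDu (by norm_num)
  have b4 : A * (D * u) ^ 2 ≤ B := by rw [mul_pow, ← mul_assoc]; exact b3
  have b5 : A * (D * u) ≤ B := le_trans (by gcongr) b4
  have b6 : D * u ≤ B := le_trans (le_mul_of_one_le_left (by positivity) hA) b5
  have b7 : A ≤ B := le_trans (le_mul_of_one_le_right (by positivity) hDu) b5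
  have b8 : D * (D * u) ≤ B := by
    have e1 : (D : ℝ) ≤ D * u := le_mul_of_one_le_right (by positivity) hu1
    have e2 : D * (D * u) ≤ (D * u) * (D * u) := by gcongr
    have e3 : (D * u) ^ 2 ≤ A * (D * u) ^ 2 := le_mul_of_one_le_left (by positivity) hA
    nlinarith
  have b9 : u ≤ B := le_trans (le_mul_of_one_le_left (by positivity) (by linarith)) b6
  have hB1 : 1 ≤ B := hA.trans b7
  have hB2 : B ≤ B ^ 2 := le_self_pow₀ hB1 (by norm_num)
  have hB3 : 1000000 * B ≤ y := by linarith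
  have hy2 : 1000000 ≤ y := by linarith
  have hp : ∀ m n : ℕ, m ≤ n → y ^ m ≤ y ^ n := fun m n h => pow_le_pow_right₀ hy h
  have hp1 : ∀ n : ℕ, 1 ≤ n → y ≤ y ^ n := fun n h => by simpa using hp 1 n h
  have hs : ∀ (c : ℝ) (m n : ℕ), c ≤ y → m < n → c * y ^ m ≤ y ^ n := by
    intro c m n hc h
    calc c * y ^ m ≤ y * y ^ m := by gcongr
      _ = y ^ (m + 1) := by ring
      _ ≤ _ := hp _ _ h
  have hdiv : ∀ (a : ℝ) (n : ℕ), a ≤ y ^ n → 1 / y ^ n * a ≤ 1 := by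
    intro a n h
    rw [one_div, inv_mul_le_iff₀ (by positivity), mul_one]
    exact h
  have hsq : Real.sqrt (1 / y ^ 24) = 1 / y ^ 12 := by
    rw [show 1 / y ^ 24 = (1 / y ^ 12) ^ 2 by field_simp, Real.sqrt_sq (by positivity)]
  have hl : Real.log (1 / (1 / y ^ 24)) = 24 * Real.log y := by
    rw [one_div_one_div, Real.log_pow]; norm_num
  have hN0 : (0 : ℝ) ≤ N := Nat.cast_nonneg N
  have hk0 : (0 : ℝ) ≤ k := Nat.cast_nonneg k
  have hqN : 1 / y ^ 24 * N ≤ 48 * (D * u) := by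
    rw [hl] at hN
    have : (D : ℝ) * Real.log y ≤ D * u := by gcongr; linarith
    linarith
  have hN1 : (N : ℝ) ≤ 48 * (D * u) * y ^ 24 := by
    rw [one_div, inv_mul_le_iff₀ (by positivity)] at hqN
    linarith
  have hN2 : (N : ℝ) ≤ 48 * B * y ^ 24 := hN1.trans (by gcongr)
  have h24 := hp1 24 (by norm_num)
  have h10 := hp1 10 (by norm_num)
  have h12 := hp1 12 (by norm_num)
  have hN3 : 2 * (N : ℝ) + 1 ≤ y ^ 26 := by
    have e1 : 1 * y ^ 24 ≤ B * y ^ 24 := by gcongr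
    have e2 := hs (97 * B) 24 26 (by linarith) (by norm_num)
    linarith
  have hk1 : (k : ℝ) ≤ y ^ 48 := by
    rw [div_pow, one_pow, one_div_one_div, ← pow_mul] at hk; exact hk
  have hN4 : 2 * (N : ℝ) + 1 + k ≤ y ^ 49 := by
    have e1 := hp 26 48 (by norm_num)
    have e2 := hs 2 48 49 (by linarith) (by norm_num)
    linarith
  have hlk : Real.log (2 * (N : ℝ) + 1 + k) ≤ 49 * u := by
    have := Real.log_le_log (by positivity) hN4
    rw [Real.log_pow] at this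
    push_cast at this
    linarith
  have hlN : Real.log (2 * (N : ℝ) + 1) ≤ 49 * u :=
    (Real.log_le_log (by positivity) (by linarith)).trans hlk
  have hlN0 : 0 ≤ Real.log (2 * (N : ℝ) + 1) := Real.log_nonneg (by linarith)
  have hlk0 : 0 ≤ Real.log (2 * (N : ℝ) + 1 + k) := Real.log_nonneg (by linarith)
  obtain ⟨w, hw1, hw2⟩ : ∃ w : ℕ, y ^ 10 ≤ w ∧ (w : ℝ) ≤ 2 * y ^ 10 :=
    ⟨⌈y ^ 10⌉₊, Nat.le_ceil _, by
      have := Nat.ceil_lt_add_one (show 0 ≤ y ^ 10 by positivity)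
      linarith⟩
  have hq0 : 0 < 1 / y ^ 24 := by positivity
  have hqw : 1 / y ^ 24 * w ≤ 1 :=
    hdiv _ _ (hw2.trans (hs _ _ _ (by linarith) (by norm_num)))
  obtain ⟨c0, c1⟩ := cz_GPar2 D w hD hq0 (by linarith) hqw hu1 (by rw [hl]; linarith)
  obtain ⟨z, hz⟩ : ∃ z, z = cz D (1 / y ^ 24) w := ⟨_, rfl⟩
  rw [← hz] at c0 c1
  rw [mul_assoc] at c1
  have hq1 : 1 + 1 / y ^ 24 * (2 * (N : ℝ) + 1) ≤ 98 * (D * u) := by
    have := hdiv 1 24 (by linarith)
    linarith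
  obtain ⟨E, hE⟩ : ∃ E, E = A * (1 / y ^ 24) * N * (1 + 1 / y ^ 24 * (2 * (N : ℝ) + 1)) ^ D :=
    ⟨_, rfl⟩
  have hE0 : 0 ≤ E := by rw [hE]; positivity
  have hE1 : E ≤ 48 * B := by
    rw [hE, mul_assoc A]
    calc A * (1 / y ^ 24 * N) * (1 + 1 / y ^ 24 * (2 * (N : ℝ) + 1)) ^ D
        ≤ A * (48 * (D * u)) * (98 * (D * u)) ^ D := by gcongr
      _ = 48 * (A * D * (98 * D) ^ D * u ^ (D + 1)) := by
          rw [← mul_assoc 98, mul_pow]; ring
      _ ≤ _ := by linarith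
  have f1 : D * z ≤ 13 * B := by
    have : D * z ≤ D * (13 * (D * u)) := by gcongr
    linarith
  have f2 : D * Real.log (2 * (N : ℝ) + 1) ≤ 49 * B := by
    have : D * Real.log (2 * (N : ℝ) + 1) ≤ D * (49 * u) := by gcongr
    linarith
  have f3 : d * Real.log (2 * (N : ℝ) + 1 + k) ≤ 49 * B := by
    have : d * Real.log (2 * (N : ℝ) + 1 + k) ≤ d * (49 * u) := by gcongr
    linarith
  have f4 : A * z ^ 2 ≤ 169 * B := by
    have : A * z ^ 2 ≤ A * (13 * (D * u)) ^ 2 := by gcongr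
    linarith
  have f5 : A * z ≤ 13 * B := by
    have : A * z ≤ A * (13 * (D * u)) := by gcongr
    linarith
  have g1 : 0 ≤ D * z := by positivity
  have g2 : 0 ≤ D * Real.log (2 * (N : ℝ) + 1) := by positivity
  have g3 : 0 ≤ d * Real.log (2 * (N : ℝ) + 1 + k) := by positivity
  have g4 : 0 ≤ A * z ^ 2 := by positivity
  obtain ⟨X, hX⟩ : ∃ X, X = 2 * (A + 2 * D * z + E) + 2 * D * Real.log (2 * (N : ℝ) + 1) :=
    ⟨_, rfl⟩
  obtain ⟨G, hG⟩ : ∃ G, G = X + Lv D N + LamV d N k + 6 * z + A * z ^ 2 := ⟨_, rfl⟩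
  obtain ⟨S, hS⟩ : ∃ S, S = G + X + Lv D N + LamV d N k := ⟨_, rfl⟩
  have hS1 : 1 ≤ S ∧ S ≤ 1529 * B := by
    rw [hS, hG, hX]
    unfold Lv LamV
    constructor <;> linarith
  obtain ⟨T, hT1, hT2⟩ : ∃ T : ℕ, S ≤ T ∧ (T : ℝ) ≤ 1530 * B :=
    ⟨⌈S⌉₊, Nat.le_ceil _, by
      have := Nat.ceil_lt_add_one (show 0 ≤ S by linarith [hS1.1])
      linarith [hS1.2]⟩
  have hT0 : (0 : ℝ) ≤ T := Nat.cast_nonneg T
  have hA2 : A * A ≤ B ^ 2 := by rw [sq]; gcongr
  have hA3 : A * A * (D * u) ≤ B ^ 2 := by rw [sq, mul_assoc]; gcongr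
  have hη : 2 * (A * (1 / y ^ 12)) * (A / y ^ 4) = 1 / y ^ 16 * (2 * (A * A)) := by field_simp
  have hNw : 2 * (N : ℝ) + 2 * w + 1 ≤ 5 * y ^ 26 := by
    have := hp 10 26 (by norm_num)
    linarith
  refine ⟨w, T, A / y ^ 4, X, G, ?_⟩
  unfold Par3
  rw [hsq, hl, ← hz, ← hE, hη]
  refine ⟨?_, ?_, ?_, by linarith, ?_, ?_, ?_, ?_, by positivity, ?_, ?_, hX.ge, hG.ge,
    hS ▸ hT1, ?_, by linarith, ?_, ?_, ?_, ?_, ?_, ?_⟩
  · exact one_div_le_one_div_of_le (by norm_num) (by linarith)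
  · have : (8 : ℝ) ≤ w := by linarith
    exact_mod_cast this
  · have : (1 : ℝ) ≤ T := hS1.1.trans hT1
    exact_mod_cast this
  · have : (1200 : ℝ) * (2 * T + 1) ^ d ≤ w := by
      have : (2 * (T : ℝ) + 1) ^ d ≤ (3061 * B) ^ d := by gcongr; linarith
      linarith
    exact_mod_cast this
  · have e1 : 4 * A * w ≤ 4 * B * (2 * y ^ 10) := by gcongr
    have e2 := hs (8 * B) 10 24 (by linarith) (by norm_num)
    have e3 := hdiv (4 * A * w) 24 (by linarith)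
    linarith
  · have e2 := hs 6 10 24 (by linarith) (by norm_num)
    exact hdiv _ _ (by linarith)
  · rw [div_pow, one_pow, ← pow_mul]
    exact hdiv _ _ (hNw.trans (hs _ _ _ (by linarith) (by norm_num)))
  · rw [div_pow, ← pow_mul, mul_one_div, ← mul_div_assoc]
    gcongr
    have : A * A * 1 ≤ A * A * A := by gcongr
    linarith
  · rw [mul_comm A, mul_assoc]
    refine hdiv _ _ ?_
    have : A * (1 + 1 / y ^ 24 * (2 * (N : ℝ) + 1)) ≤ A * (98 * (D * u)) := by gcongr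
    linarith
  · have e0 : 1 / y ^ 24 * N ≤ 48 * B := by linarith
    have e1 : 24 * (1 / y ^ 24 * N) * w ≤ 24 * (48 * B) * (2 * y ^ 10) :=
      mul_le_mul (by linarith) hw2 (by positivity) (by linarith)
    have e2 := hs (2304 * B) 10 24 (by linarith) (by norm_num)
    have e3 := hdiv (24 * (1 / y ^ 24 * N) * w) 24 (by linarith)
    linarith
  · have e1 : Real.sqrt w ≤ 2 * y ^ 5 := by
      refine Real.sqrt_le_iff.2 ⟨by positivity, ?_⟩
      have e : (2 * y ^ 5) ^ 2 = 4 * y ^ 10 := by ring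
      linarith
    have e2 : 2 * (A * A) * Real.sqrt w ≤ 2 * B ^ 2 * (2 * y ^ 5) := by gcongr
    have e3 := hs (4 * B ^ 2) 5 16 (by linarith) (by norm_num)
    rw [mul_assoc]
    exact hdiv _ _ (by linarith)
  · have e1 : 4 * (A * A) * N ≤ 4 * (A * A) * (48 * (D * u) * y ^ 24) := by gcongr
    have e2 : A * A * (D * u) * y ^ 24 ≤ B ^ 2 * y ^ 24 := by gcongr
    have e3 := hs (192 * B ^ 2) 24 28 (by linarith) (by norm_num)
    have e4 := hdiv (4 * (A * A) * N) 28 (by linarith)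
    refine le_trans (le_of_eq ?_) e4
    field_simp
    ring
  · have e1 : 1 / y ^ 16 * N ≤ 48 * (D * u) * y ^ 8 := by
      rw [one_div, inv_mul_le_iff₀ (by positivity)]
      exact hN1.trans_eq (by ring)
    have e2 : A * A * (1 / y ^ 16 * N) ≤ A * A * (48 * (D * u) * y ^ 8) := by gcongr
    have e3 : A * A * (D * u) * y ^ 8 ≤ B ^ 2 * y ^ 8 := by gcongr
    have e4 := hs (921600 * B ^ 2) 8 10 (by linarith) (by norm_num)
    linarith
  · have e1 : 1 / Real.sqrt w ≤ 1 / y ^ 5 :=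
      one_div_le_one_div_of_le (by positivity) (Real.le_sqrt_of_sq_le (by
        rw [← pow_mul]; exact hw1))
    have e2 : Real.sqrt (2 * N + 2 * w) ≤ 3 * y ^ 13 := by
      refine Real.sqrt_le_iff.2 ⟨by positivity, ?_⟩
      have e : (3 * y ^ 13) ^ 2 = 9 * y ^ 26 := by ring
      have : 0 ≤ y ^ 26 := by positivity
      linarith
    have e3 : 1 / y ^ 24 * Real.sqrt (2 * N + 2 * w) ≤ 3 * (1 / y ^ 5) := by
      rw [one_div, inv_mul_le_iff₀ (by positivity)]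
      have := hp 13 19 (by norm_num)
      have e : y ^ 24 * (3 * (1 / y ^ 5)) = 3 * y ^ 19 := by field_simp
      linarith
    have e4 := hdiv (4 * A) 5 (by have := hp1 5 (by norm_num); linarith)
    calc A * (1 / Real.sqrt w + 1 / y ^ 24 * Real.sqrt (2 * N + 2 * w))
        ≤ A * (4 * (1 / y ^ 5)) := by gcongr; linarith
      _ = 1 / y ^ 5 * (4 * A) := by ring
      _ ≤ 1 := e4
  · rw [mul_comm]
    refine hdiv _ _ (le_trans ?_ (hs (150 * B) 10 12 (by linarith) (by norm_num)))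
    calc (2 * (w : ℝ) + 2) * (1 + 24 * Real.log y) ≤ (6 * y ^ 10) * (25 * B) := by
          gcongr <;> linarith
      _ = _ := by ring
  · rw [mul_comm]
    exact hdiv _ _ (by linarith)

theorem gPar2 : GPar := by
  intro D d A hD hA
  have hD2 : (2 : ℝ) ≤ D := by exact_mod_cast hD
  obtain ⟨c, hc⟩ : ∃ c : ℝ, c = A * D * (98 * D) ^ D + d + A * D ^ 2 := ⟨_, rfl⟩
  have hc0 : 0 < c := by rw [hc]; positivity
  obtain ⟨Y, hY⟩ := Filter.eventually_atTop.1
    ((ev_GPar2 (1200 * (3061 * c) ^ d) ((D + 1) * d) (by positivity)).and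
      ((ev_GPar2 (1000000 * c ^ 2) ((D + 1) * 2) (by positivity)).and
        (Filter.eventually_ge_atTop 1)))
  refine ⟨1 / (max Y 1) ^ 24, by positivity, fun q hq hq0 k N hk hN => ?_⟩
  obtain ⟨y, hy0, hy⟩ : ∃ y : ℝ, 0 < y ∧ y ^ 24 = 1 / q :=
    ⟨(1 / q) ^ ((24 : ℕ) : ℝ)⁻¹, by positivity,
      Real.rpow_inv_natCast_pow (by positivity) (by norm_num)⟩
  have e : q = 1 / y ^ 24 := by rw [hy, one_div_one_div]
  subst e
  have hle : max Y 1 ≤ y := (pow_le_pow_iff_left₀ (by positivity) hy0.le (by norm_num)).1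
    ((one_div_le_one_div (by positivity) (by positivity)).1 hq0)
  obtain ⟨h1, h2, h3⟩ := hY y ((le_max_left _ _).trans hle)
  obtain ⟨u, hu⟩ : ∃ u, u = 1 + Real.log y := ⟨_, rfl⟩
  rw [← hu] at h1 h2
  have hu1 : 1 ≤ u := by have := Real.log_nonneg h3; linarith
  have p1 : u ≤ u ^ (D + 1) := le_self_pow₀ hu1 (by omega)
  have p2 : u ^ 2 ≤ u ^ (D + 1) := pow_le_pow_right₀ hu1 (by omega)
  have t1 : 0 ≤ A * D * (98 * D) ^ D := by positivity
  have t2 : (0 : ℝ) ≤ d := by positivity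
  have t3 : 0 ≤ A * D ^ 2 := by positivity
  refine main_GPar2 D d A hD hA y u (c * u ^ (D + 1)) h3 hu ?_ ?_ ?_ ?_ ?_ k N hk hN
  · gcongr; linarith
  · gcongr; linarith
  · gcongr; linarith
  · rw [← mul_assoc, mul_pow, ← pow_mul, ← mul_assoc]; exact h1
  · rw [mul_pow, ← pow_mul, ← mul_assoc]; exact h2

end Pool.Agent.MP_6d294b_pr
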