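import Pool.Agent.Mg.F6d294b.Gf2a008

set_option linter.all false

open Finset

namespace Pool.Agent.MP_6d294b_pr

open Filter

theorem pr_mono_RBase {α : Type*} (Ω : Finset α) {p : ℝ} (h0 : 0 ≤ p) (h1 : p ≤ 1)
    {E E' : Finset α → Prop} (h : ∀ A, E A → E' A) : Pr Ω p E ≤ Pr Ω p E' := by
  unfold Pr
  refine sum_le_sum fun A _ => ?_
  have h2 : 0 ≤ p ^ A.card * (1 - p) ^ (Ω.card - A.card) :=
    mul_nonneg (pow_nonneg h0 _) (pow_nonneg (by linarith) _)
  by_cases hA : E A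
  · rw [if_pos hA, if_pos (h A hA)]
  · rw [if_neg hA]
    split_ifs
    · exact h2
    · exact le_rfl

theorem ev_RBase (c : ℝ) (m : ℕ) : ∀ᶠ x : ℝ in atTop, c * Real.log x ^ m ≤ x := by
  have hc : 0 < |c| + 1 := by positivity
  have h1 := (Real.isLittleO_pow_log_id_atTop (n := m)).bound (c := (|c| + 1)⁻¹) (by positivity)
  filter_upwards [h1, eventually_ge_atTop (1 : ℝ)] with x b1 b2
  have b3 : 0 ≤ Real.log x ^ m := pow_nonneg (Real.log_nonneg b2) _
  rw [Real.norm_of_nonneg b3, id, Real.norm_of_nonneg (by linarith), le_inv_mul_iff₀ hc] at b1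
  nlinarith [le_abs_self c]

theorem quarter_RBase (a : ℕ) (y : ℝ) (h : y ≤ a) : (1 / 4 : ℝ) ^ a ≤ Real.exp (- y) := by
  have h1 : (1 / 4 : ℝ) ≤ Real.exp (- 1) := by
    rw [Real.exp_neg, one_div]
    exact inv_anti₀ (Real.exp_pos _) (by linarith [Real.exp_one_lt_d9])
  calc (1 / 4 : ℝ) ^ a ≤ Real.exp (- 1) ^ a := pow_le_pow_left₀ (by norm_num) h1 _
    _ = Real.exp (- a) := by rw [← Real.exp_nat_mul]; ring_nf
    _ ≤ Real.exp (- y) := Real.exp_le_exp.2 (by linarith)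

theorem pw_RBase {x y : ℝ} (hx : 0 < x) (hy : 0 ≤ y) (m n : ℕ) (h : y ≤ x ^ m) :
    y ^ n ≤ Real.exp (m * n * Real.log x) := by
  calc y ^ n ≤ (x ^ m) ^ n := pow_le_pow_left₀ hy h n
    _ = Real.exp (m * n * Real.log x) := by
      rw [← pow_mul, ← Nat.cast_mul, Real.exp_nat_mul, Real.exp_log hx]

theorem rBase (hB : RBlk) (hC : RChi) (h1 : RBase1) : RBase := by
  intro d r lam err hr hd herr hDr χ hχ
  obtain ⟨D, hD⟩ : ∃ D, D = d - r + 2 := ⟨_, rfl⟩
  have e1 : d - r + 1 = D - 1 := by omega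
  have e2 : d - D + 2 = r := by omega
  have e3 : d - D = r - 2 := by omega
  rw [e1, ← hD]
  rw [← hD] at hDr
  obtain ⟨q₁, hq₁, hDr⟩ := hDr
  obtain ⟨C, hC0, hC⟩ := hC d (by omega)
  obtain ⟨x₀, hx₀⟩ := eventually_atTop.1
    ((((ev_RBase (25 * d * (D * |lam| + 1) + 2) 1).and
      (ev_RBase (192 * Real.exp 1 * (43 * d) ^ (d - 1)) (d - 1))).and
      (eventually_ge_atTop ((d : ℝ) + 3))).and (eventually_ge_atTop ((C + 1) / χ)))
  refine ⟨4 * D + (2 ^ d + d), min q₁ (1 / max x₀ 1), by positivity, by positivity, ?_⟩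
  intro q hq hq0
  have hqa : q ≤ q₁ := hq0.trans (min_le_left _ _)
  obtain ⟨x, hx⟩ : ∃ x : ℝ, x = 1 / q := ⟨_, rfl⟩
  have hx0 : 0 < x := by rw [hx]; positivity
  have hqx : q * x = 1 := by rw [hx]; field_simp
  have hxx : x₀ ≤ x := by
    have := hq0.trans (min_le_right _ _)
    rw [le_div_iff₀ (by positivity)] at this
    rw [hx, le_div_iff₀ hq]
    nlinarith [le_max_left x₀ 1]
  obtain ⟨⟨⟨c1, c2⟩, c3⟩, c4⟩ := hx₀ x hxx
  have hd2 : (2 : ℝ) ≤ d := by exact_mod_cast hr.trans hd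
  have hx5 : 5 ≤ x := by linarith
  have hq5 : q ≤ 1 / 5 := by nlinarith
  have f2 : 1 / q ^ 2 = x ^ 2 := by rw [hx]; field_simp
  have f3 : 1 / q ^ 3 = x ^ 3 := by rw [hx]; field_simp
  rw [f3, ← hx]
  obtain ⟨l, hl⟩ : ∃ l, l = Real.log x := ⟨_, rfl⟩
  have hl1 : 1 ≤ l := by
    rw [hl, Real.le_log_iff_exp_le hx0]
    linarith [Real.exp_one_lt_d9]
  rw [← hl] at c1 c2 ⊢
  rw [pow_one] at c1
  obtain ⟨a, ha⟩ : ∃ a : ℕ, a = ⌈20 * d * l⌉₊ := ⟨_, rfl⟩
  obtain ⟨n, hn⟩ : ∃ n : ℕ, n = ⌈D * lam / q⌉₊ := ⟨_, rfl⟩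
  have hdl : 1 ≤ d * l := by nlinarith
  have a1 : 20 * d * l ≤ a := by rw [ha]; exact Nat.le_ceil _
  have a2 : (a : ℝ) ≤ 20 * d * l + 1 := by
    rw [ha]; exact (Nat.ceil_lt_add_one (by positivity)).le
  have a3 : 1 ≤ a := by
    have : (1 : ℝ) ≤ a := by nlinarith
    exact_mod_cast this
  have n1 : D * lam / q ≤ n := by rw [hn]; exact Nat.le_ceil _
  have n2 : (n : ℝ) ≤ (D * |lam| + 1) * x := by
    have b1 : D * lam / q ≤ D * |lam| * x := by
      rw [div_eq_mul_one_div, ← hx]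
      gcongr
      exact le_abs_self _
    have b2 : n ≤ ⌈D * |lam| * x⌉₊ := by rw [hn]; exact Nat.ceil_mono b1
    have b3 : (n : ℝ) ≤ ⌈D * |lam| * x⌉₊ := by exact_mod_cast b2
    have b4 := Nat.ceil_lt_add_one (show 0 ≤ D * |lam| * x by positivity)
    nlinarith
  obtain ⟨k, hk⟩ : ∃ k : ℕ, k = n * (a + 4) + 2 := ⟨_, rfl⟩
  have k1 : (k : ℝ) ≤ x ^ 2 := by
    have b1 : (n : ℝ) * (a + 4) ≤ (D * |lam| + 1) * x * (25 * d * l) :=
      mul_le_mul n2 (by nlinarith) (by positivity) (by positivity)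
    have b2 := mul_le_mul_of_nonneg_right c1 hx0.le
    have b3 : 1 ≤ l * x := by nlinarith
    rw [hk]
    push_cast
    nlinarith
  obtain ⟨N, N1, N2, hN⟩ := hDr q hq hqa k (by omega) (by rw [f2]; exact k1)
  rw [f2] at N2
  rw [← hx] at N1
  obtain ⟨p, hp⟩ : ∃ p, p = 1 - Real.exp (- q ^ (D - 1)) := ⟨_, rfl⟩
  rw [← hp] at hN ⊢
  have p0 : 0 ≤ p := by
    rw [hp, sub_nonneg, Real.exp_le_one_iff, neg_nonpos]
    positivity
  have p1 : p ≤ q := by
    have b1 : q ^ (D - 1) ≤ q := pow_le_of_le_one hq.le (by linarith) (by omega)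
    have b2 := Real.add_one_le_exp (- q ^ (D - 1))
    linarith
  have p2 : 3 * Real.exp 1 * p * (2 * a + 1) ^ (d - 1) ≤ 1 / 64 := by
    have b1 : (2 * a + 1 : ℝ) ^ (d - 1) ≤ (43 * d) ^ (d - 1) * l ^ (d - 1) := by
      rw [← mul_pow]
      exact pow_le_pow_left₀ (by positivity) (by nlinarith) _
    have b2 : 3 * Real.exp 1 * p * (2 * a + 1) ^ (d - 1) ≤
        3 * Real.exp 1 * q * ((43 * d) ^ (d - 1) * l ^ (d - 1)) := by gcongr
    have b3 := mul_le_mul_of_nonneg_left c2 hq.le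
    nlinarith
  have q4 := quarter_RBase a _ a1
  have hx2 : 25 ≤ x ^ 2 := by nlinarith
  have s1 : ((N + d * k : ℕ) : ℝ) ≤ x ^ 3 := by
    have b1 : (d : ℝ) * k ≤ d * x ^ 2 := by gcongr
    have b2 : (d + 3) * x ^ 2 ≤ x * x ^ 2 := by gcongr
    push_cast
    nlinarith
  refine ⟨k, N + d * k, by omega, by rw [f2]; exact k1, s1, ?_, ?_⟩
  · have hN1 : 1 ≤ N := by
      have : (1 : ℝ) ≤ N := by linarith
      exact_mod_cast this
    have key := h1 D d k N p _ (Real.exp (- (D * lam / q) + err q)) (by omega) (by omega) hN1 p0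
      (by linarith) (Real.exp_pos _).le (Real.exp_pos _).le hN ?_
    · rw [e2, e3] at key
      intro Ω Θ c Y hΘ hY
      refine (key Ω Θ c Y hΘ hY).trans (mul_le_mul_of_nonneg_right ?_ (Nat.cast_nonneg _))
      have b1 : (2 * N + 1 : ℝ) ^ D ≤ Real.exp ((4 : ℕ) * D * Real.log x) :=
        pw_RBase hx0 (by positivity) 4 D (by nlinarith)
      rw [← hl] at b1
      have b2 : (2 ^ d + d : ℝ) ≤ Real.exp ((2 ^ d + d) * l) := by
        have b3 := Real.add_one_le_exp ((2 ^ d + d) * l)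
        have b4 : (0 : ℝ) ≤ 2 ^ d + d := by positivity
        nlinarith
      rw [← add_mul, ← mul_assoc]
      calc (2 * N + 1 : ℝ) ^ D * (2 ^ d + d) * Real.exp (- (D * lam / q) + err q)
          ≤ Real.exp ((4 : ℕ) * D * l) * Real.exp ((2 ^ d + d) * l) *
            Real.exp (- (D * lam / q) + err q) := by gcongr
        _ = _ := by
          rw [← Real.exp_add, ← Real.exp_add]
          congr 1
          push_cast
          ring
    · intro Ω Θ c Y t hΘ ht hY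
      rw [e2]
      refine (hB d r k n a p Ω Θ c Y t (by omega) ht a3 hk.ge p0 (by linarith) p2 ?_).trans
        (Real.exp_le_exp.2 ?_)
      · have b1 : ((boxes Y).card : ℝ) ≤ (2 * N + 1 + k : ℝ) ^ (2 * d) := by exact_mod_cast hY
        have b2 : (2 * N + 1 + k : ℝ) ^ (2 * d) ≤ Real.exp ((4 : ℕ) * (2 * d : ℕ) * Real.log x) :=
          pw_RBase hx0 (by positivity) 4 (2 * d) (by nlinarith)
        rw [← hl] at b2
        calc ((boxes Y).card : ℝ) * (1 / 4) ^ a
            ≤ Real.exp ((4 : ℕ) * (2 * d : ℕ) * l) * Real.exp (- (20 * d * l)) :=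
              mul_le_mul (b1.trans b2) q4 (by positivity) (by positivity)
          _ ≤ Real.exp (- 1) := by
            rw [← Real.exp_add, Real.exp_le_exp]
            push_cast
            nlinarith
      · have := herr q hq (by linarith)
        linarith
  · intro Ω Θ c y Z hΘ
    have b0 : ∀ v, 2 ≤ thS r k Θ c v := by
      intro v
      have := card_filter_le Θ fun t => v t = c t ∨ v t = c t + k - 1
      unfold thS
      omega
    refine le_trans (sum_le_sum fun z _ => pr_mono_RBase Ω p0 (by linarith) ?_)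
      ((hC (thS r k Θ c) Ω p (N + d * k) a y Z b0 p0 (by linarith) a3 p2).trans ?_)
    · rintro A ⟨B, K, P, g1, g2, _, g3⟩
      exact ⟨B, K, P, g1, g2, g3⟩
    · have b2 : (2 * ((N + d * k : ℕ) : ℝ) + 1) ^ (3 * d) ≤
          Real.exp ((5 : ℕ) * (3 * d : ℕ) * Real.log x) :=
        pw_RBase hx0 (by positivity) 5 (3 * d) (by
          have b3 : 1 ≤ x ^ 3 := one_le_pow₀ (by linarith)
          have b4 : x ^ 5 = x ^ 2 * x ^ 3 := by ring
          nlinarith)
      rw [← hl] at b2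
      have b5 : (2 * ((N + d * k : ℕ) : ℝ) + 1) ^ (3 * d) * (1 / 4) ^ a ≤ q := by
        calc (2 * ((N + d * k : ℕ) : ℝ) + 1) ^ (3 * d) * (1 / 4) ^ a
            ≤ Real.exp ((5 : ℕ) * (3 * d : ℕ) * l) * Real.exp (- (20 * d * l)) :=
              mul_le_mul b2 q4 (by positivity) (by positivity)
          _ ≤ Real.exp (- l) := by
            rw [← Real.exp_add, Real.exp_le_exp]
            push_cast
            nlinarith
          _ = q := by rw [hl, Real.exp_neg, Real.exp_log hx0, hx, one_div, inv_inv]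
      have b6 : C * p ≤ C * q := mul_le_mul_of_nonneg_left p1 hC0
      rw [div_le_iff₀ hχ] at c4
      have b7 := mul_le_mul_of_nonneg_left c4 hq.le
      have b8 : q * (x * χ) = χ := by rw [← mul_assoc, hqx, one_mul]
      linarith

end Pool.Agent.MP_6d294b_pr
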