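import Pool.Agent.Mg.F6d294b.G4e8bb7
import Pool.Agent.Mg.F6d294b.Gdbf881
import Pool.Agent.Mg.F6d294b.Gf2a008
import Pool.Agent.Mg.F6d294b.G01ca5b
import Pool.Agent.Mg.F6d294b.Gf38fbf
import Pool.Agent.Mg.F6d294b.Gc83fae
import Pool.Agent.Mg.F6d294b.G4d7d3f
import Pool.Agent.Mg.F6d294b.G28e636
import Pool.Agent.Mg.F6d294b.G65ed99
import Pool.Agent.Mg.F6d294b.G1a9418
import Pool.Agent.Mg.F6d294b.G14df3b
import Pool.Agent.Mg.F6d294b.G422c62
import Pool.Agent.Mg.F6d294b.Gdc8984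
import Pool.Agent.Mg.F6d294b.Gc8d037
import Pool.Agent.Mg.F6d294b.Gccaadd
import Pool.Agent.Mg.F6d294b.Gc9ffd1

set_option linter.all false

section

open Finset

namespace Pool.Agent.MP_6d294b_pr

lemma psi_mono_GCh {D : ℕ} {S R : Bx D} (hS : Val S) (h : S ≤ R) : psi S ≤ psi R := by
  have := ((bGeoA D).2.2.2.1 S R hS h).2.2.2.1
  omega

theorem gCh (h1 : GP1) (h2 : GP2) (h3 : GWrd) (h4 : GX) (h5 : GN2) (h6 : GCost) : GCh := by
  intro D d κ y₀ ε hκ hy0 hy1 hε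
  obtain ⟨A1, C1, hA1, hC1, H1⟩ := h1 D d κ hκ
  obtain ⟨A2, hA2, H2⟩ := h2 D d y₀ hy0 hy1
  have hD0 : (0 : ℝ) ≤ D := Nat.cast_nonneg D
  have hlog : 0 ≤ Real.log (2 * D + 1) := Real.log_nonneg (by linarith)
  obtain ⟨C, hC⟩ : ∃ C : ℝ, C = (Real.log (2 * D + 1) + C1 + 1) * (2 * D + 2) := ⟨_, rfl⟩
  have hC0 : 0 ≤ C := by rw [hC]; positivity
  have hε1 : 0 < 1 / ε := by positivity
  have hy2 : 0 < 1 / y₀ := by positivity
  refine ⟨A1 + A2 + C + 1 / ε + 1 / y₀, C, by linarith, hC0, ?_⟩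
  intro A hA q p N w T K Y ρ X G Φ F Ω R₀ hB hP hK hY hR₀ hΩ
  obtain ⟨p1, p2, p3, p4, p5, p6, p7, p8, p9, p10, p11, p12, -⟩ := hP
  obtain ⟨⟨c1, -, -, c2, -⟩, -, -, -, -, -, -, -, c3, -⟩ := h6 D _ q p w _ ε Φ hB
  have hD2 : 2 ≤ D := hB.1
  have hq : 0 < q := hB.2.2.1
  have hη0 : 0 ≤ A * Real.sqrt q := hB.2.2.2.2.2.2.2.1
  have hsq : 0 ≤ Real.sqrt q := Real.sqrt_nonneg q
  have hA1A : A1 ≤ A := by linarith
  have hA2A : A2 ≤ A := by linarith
  have hCA : C ≤ A := by linarith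
  have hA0 : 0 ≤ A := by linarith
  have hw0 : (0 : ℝ) ≤ w := Nat.cast_nonneg w
  have hN0 : (0 : ℝ) ≤ N := Nat.cast_nonneg N
  have hεA : 1 ≤ ε * A := by
    have a1 : 1 / ε ≤ A := by linarith
    rw [div_le_iff₀ hε] at a1
    linarith
  have hyA : 1 ≤ y₀ * A := by
    have a1 : 1 / y₀ ≤ A := by linarith
    rw [div_le_iff₀ hy0] at a1
    linarith
  have hE0 : 0 ≤ q * N * (1 + q * (2 * N + 1)) ^ D := by positivity
  have hcz : 0 ≤ 2 * D * cz D q w := by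
    have : 0 ≤ cz D q w := by linarith
    positivity
  have hη' : 0 ≤ 2 * (A * Real.sqrt q) * ρ := by positivity
  have hsqR : ∀ S R : Bx D, Val S → S ≤ R → R ≤ R₀ → psi R ≤ 2 * N := by
    intro S R hS hSR hR
    exact (psi_mono_GCh ((bGeoA D).2.2.2.1 S R hS hSR).1 hR).trans hR₀
  have hq2 : ∀ R : Bx D, psi R ≤ 2 * N → q ^ 2 * (psi R + 2 * w + 1) ≤ 1 := by
    intro R hR
    have b1 : (psi R : ℝ) ≤ 2 * N := by exact_mod_cast hR
    have := mul_le_mul_of_nonneg_left b1 (sq_nonneg q)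
    linarith
  have g1 : ∀ S R : Bx D, Val S → S ≤ R → R ≤ R₀ → psi R ≤ K + T →
      Pr Ω p (Chn2 F T (Gd K Y) S R) ≤
        Real.exp (Vg C (2 * (A * Real.sqrt q) * ρ) q w Φ R -
          Vg C (2 * (A * Real.sqrt q) * ρ) q w Φ S +
          (A + 2 * D * cz D q w + A * q * N * (1 + q * (2 * N + 1)) ^ D)) := by
    intro S R hS hSR hR a2
    have b2 : (psi R : ℝ) ≤ K + T := by exact_mod_cast a2
    have b3 : q * (psi R + 2 * w + 1) ≤ κ := by
      have := mul_le_mul_of_nonneg_left b2 hq.le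
      linarith
    have b4 := h3 D d F T w (Gd K Y) S R Ω p q (Φ (ex S) - Φ (ex R) + 2 * D * cz D q w) C1
      (by omega) hq c1 (by linarith) hC1 hS hSR (hq2 R (hsqR S R hS hSR hR))
      (fun M z hz => H1 q p w T _ ε Φ F Ω S R M z hB (hA1A.trans p4) p5 hS hSR b3 hz)
    refine b4.trans (Real.exp_le_exp.2 ?_)
    have b5 : (psi S : ℝ) ≤ psi R := by exact_mod_cast psi_mono_GCh hS hSR
    have b6 := mul_nonneg hη' (sub_nonneg.2 b5)
    have b7 := mul_nonneg hA0 hE0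
    rw [← hC]
    simp only [Vg]
    linarith
  have g2 : ∀ S R : Bx D, Val S → S ≤ R → R ≤ R₀ → (∀ i, Y ≤ ex S i + 1) →
      Pr Ω p (Chn2 F T (Gd K Y) S R) ≤
        Real.exp (Vg C (2 * (A * Real.sqrt q) * ρ) q w Φ R -
          Vg C (2 * (A * Real.sqrt q) * ρ) q w Φ S +
          (A + 2 * D * cz D q w + A * q * N * (1 + q * (2 * N + 1)) ^ D)) := by
    intro S R hS hSR hR a3
    have b1 : ∀ i, y₀ ≤ q * (ex S i + 1) := by
      intro i
      have : (Y : ℝ) ≤ ex S i + 1 := by exact_mod_cast a3 i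
      exact hY.trans (mul_le_mul_of_nonneg_left this hq.le)
    have b2 : A2 * Real.sqrt q ≤ A * Real.sqrt q := mul_le_mul_of_nonneg_right hA2A hsq
    have b3 : A * Real.sqrt q ≤ ε * ρ ^ 3 := by
      have a1 := mul_le_mul_of_nonneg_left p10 hε.le
      have a2 := mul_le_mul_of_nonneg_right hεA hη0
      linarith
    have b4 : 2 * q * w ≤ y₀ := by
      have a0 : 0 ≤ q * w := mul_nonneg hq.le hw0
      have a1 := mul_le_mul_of_nonneg_left p6 hy0.le
      have a2 := mul_le_mul_of_nonneg_right hyA a0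
      linarith
    have b5 : A2 * Real.sqrt q * (1 + q * (2 * N + 1)) ≤ 1 :=
      (mul_le_mul_of_nonneg_right b2 (by positivity)).trans p11
    have b6 : Full2 F Ω R := fun x hx => hΩ x fun s => (hx s).trans (hR s)
    have b7 := hsqR S R hS hSR hR
    have b8 := h3 D d F T w (Gd K Y) S R Ω p q
      (Φ (ex S) - Φ (ex R) + 2 * (A * Real.sqrt q) * ρ * ((psi R : ℝ) - psi S) +
        (2 * D * cz D q w + A2 * q * N * (1 + q * (2 * N + 1)) ^ D)) C1
      (by omega) hq c1 (by linarith) hC1 hS hSR (hq2 R b7)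
      (fun M z hz => (H2 q p w T N _ ε ρ Φ F Ω S R M z hB b2 p9 b3 p5 b4 b5 hS hSR b7 b6 b1
        hz).trans (Real.exp_le_exp.2 (le_add_of_nonneg_right (by positivity))))
    refine b8.trans (Real.exp_le_exp.2 ?_)
    have b9 := mul_le_mul_of_nonneg_right hA2A hE0
    rw [← hC]
    simp only [Vg]
    linarith
  intro S R hS hSR hR
  have b7 := mul_nonneg hA0 hE0
  have g3 := h4 D d F Ω p c1 c2 T K Y N R₀ (Vg C (2 * (A * Real.sqrt q) * ρ) q w Φ) _
    (by linarith) hR₀ g1 g2 S R hS hSR hR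
  refine g3.trans (Real.exp_le_exp.2 ?_)
  linarith

end Pool.Agent.MP_6d294b_pr

end

section

open Finset

namespace Pool.Agent.MP_6d294b_pr

theorem gDir (h1 : GD0) (h2 : GInd) (h3 : GSL) (h4 : GCost) : GDir := by
  intro D d
  obtain ⟨C, hC, H⟩ := h1 D d
  refine ⟨C, hC, ?_⟩
  intro q p w T K Y N η ε G Φ F Ω R i φ γ hB hw hk hR hN hG1 hG2 hφ1 hφ2 hγ0 hγ
  obtain ⟨⟨p0, -, -, p1, -⟩, -, -, -, -, -, -, c1, c2, -, c3⟩ := h4 D _ q p w η ε Φ hB
  have hD : 1 ≤ D := le_trans (by norm_num) hB.1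
  have q0 : 0 ≤ q ^ (D - 1) := (pow_pos hB.2.2.1 _).le
  have hc0 : 0 ≤ cz D q w := le_trans (by norm_num) c2
  obtain ⟨f0, -, f1, -⟩ := c1 φ hφ2
  have hom : 0 ≤ om D q φ := mul_nonneg (mul_nonneg q0 f0.le) (sq_nonneg _)
  have hγc : γ ≤ cz D q w := by
    have := mul_nonneg hC hom
    linarith
  have hex : ∀ S S' : Bx D, Val S → S ≤ S' → ∀ j, ex S j ≤ ex S' j := fun S S' a b =>
    ((bGeoA D).2.2.2.1 S S' a b).2.1
  have hval : ∀ S S' : Bx D, Val S → S ≤ S' → Val S' := fun S S' a b =>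
    ((bGeoA D).2.2.2.1 S S' a b).1
  have hSL := fun (S : Bx D) (a : Val S) (b : S ≤ R) =>
    h3 D d F Ω p (cz D q w) T N S hD p0 (by linarith) hc0 hk (c3 d T hw).1
      ((sum_le_sum fun j _ => hex S R a b j).trans hN)
  have hP := (bPrA (Pt d) Ω p p0 (by linarith)).1
  have key := h2 D d F Ω p p0 p1 T K Y N R (fun S => - (γ * ex S i)) (2 * cz D q w) (- G) hN
    (fun S R' a b c => by
      refine H q p w T η ε Φ F Ω _ S R' i φ γ hB hw a b (le_trans ?_ hφ1) hφ2 hγ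
      refine mul_le_mul_of_nonneg_left ?_ q0
      exact_mod_cast prod_le_prod' fun j _ => Nat.succ_le_succ (hex R' R (hval S R' a b) c j))
    (fun S a b => by
      refine (hSL S a b).1.trans (Real.exp_le_exp.2 ?_)
      have e1 : (ex S i : ℝ) ≤ psi S := by
        exact_mod_cast single_le_sum (f := ex S) (fun _ _ => Nat.zero_le _) (mem_univ i)
      have := mul_le_mul hγc e1 (Nat.cast_nonneg _) hc0
      linarith)
    (fun Q P S a b c e f _ g1 g2 => by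
      have g3 := (hSL S (hval Q S a c) f).2 (dfc (ex Q) (ex P) (ex S))
      refine (mul_le_mul (mul_le_mul g1 g2 (hP _) (Real.exp_pos _).le) g3 (hP _)
        (mul_pos (Real.exp_pos _) (Real.exp_pos _)).le).trans ?_
      rw [← Real.exp_add, ← Real.exp_add, Real.exp_le_exp]
      have e0 : ex S i - (ex Q i + ex P i) ≤ dfc (ex Q) (ex P) (ex S) :=
        single_le_sum (f := fun j => ex S j - (ex Q j + ex P j)) (fun _ _ => Nat.zero_le _)
          (mem_univ i)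
      have e1 : (ex S i : ℝ) ≤ ex Q i + ex P i + dfc (ex Q) (ex P) (ex S) := by
        exact_mod_cast (by omega : ex S i ≤ ex Q i + ex P i + dfc (ex Q) (ex P) (ex S))
      have e2 := mul_le_mul_of_nonneg_left e1 hγ0
      have e3 := mul_le_mul_of_nonneg_right hγc
        (Nat.cast_nonneg (α := ℝ) (dfc (ex Q) (ex P) (ex S)))
      linarith) R hR le_rfl
  rwa [sub_eq_add_neg]

end Pool.Agent.MP_6d294b_pr

end

section

open Finset

namespace Pool.Agent.MP_6d294b_pr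

variable {D d : ℕ}

/-- crossing event with the records lying beyond the start box -/
def CrQ_GExtA (F : Fr D d) (X : Finset (Rc2 D d)) (C : ℕ → Sd D → ℤ → Finset (Pt d))
    (S R : Bx D) (A : Finset (Pt d)) : Prop :=
  ∃ (U : Finset (Rc2 D d)) (w : Rc2 D d → Finset (Pt d)) (W : Sd D → Finset (Pt d)),
    (∀ u ∈ U, (u ∈ X ∧ w u ⊆ A ∧ Span (w u) u.1) ∧
      ∀ s, u.2 s ≠ 0 → S s + u.2 s ≤ F.pr u.1 s) ∧
    (∀ s, W s ⊆ A ∧ NG2 (C 0 s) (C 1 s) (JU F S R U s) (W s)) ∧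
    (∀ u ∈ U, ∀ v ∈ U, u ≠ v → Disjoint (w u) (w v)) ∧
    (∀ s t, s ≠ t → Disjoint (W s) (W t)) ∧
    (∀ u ∈ U, ∀ s, Disjoint (w u) (W s))

theorem mem_JU_GExtA {F : Fr D d} {S R : Bx D} {U : Finset (Rc2 D d)} {s : Sd D} {j : ℤ} :
    j ∈ JU F S R U s ↔ (S s < j ∧ j < R s) ∧
      ∀ u ∈ U, ¬ (F.pr u.1 s - u.2 s < j ∧ j ≤ F.pr u.1 s) := by
  simp only [JU, mem_filter, mem_Ioo]

theorem sum_GExtA {Q P : Bx D} (hQ : Val Q) (hP : Val P) (e : Sd D → ℕ)
    (he : ∀ s, e s = (max (Q s) (P s) - Q s).toNat) : ∑ s, e s ≤ psi P + gap Q P := by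
  have a1 := ((sGeoA D).2.2.2.1 Q (Q ⊔ P) hQ le_sup_left).2.2.2.1
  have a2 := ((sGeoA D).2.2.2.2 Q P hQ hP).2
  have a3 : ∑ s, e s = ∑ s, ((Q ⊔ P) s - Q s).toNat := sum_congr rfl fun s _ => he s
  omega

theorem key_GExtA {F : Fr D d} {T : ℕ} {X : Finset (Rc2 D d)}
    {C : ℕ → Sd D → ℤ → Finset (Pt d)} {B E : Finset (Pt d)} {Q R : Bx D} {P : Bx d}
    (hP : Span B P) (hQ : Val Q) (hT : Trg F T Q P) (hd : Disjoint B E)
    (hX : ∀ e : Sd D → ℕ, (∀ s, e s = (max (Q s) (F.pr P s) - Q s).toNat) →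
      ((1 ≤ psi P ∧ ∃ s, e s ≠ 0) ∨ (psi P = 0 ∧ Two e)) → (P, e) ∈ X)
    (hL : ∀ (h : ℕ) s j x, Q s < j → kap s (F.pp x) = j →
      (∀ t : Sd D, t.1 ≠ s.1 → kap t (F.pp x) ≤ Q t) → F.Reg (ptB x) → F.lev (ptB x) ≤ h →
      x ∈ C h s j)
    (hC : CrQ_GExtA F X C (Q ⊔ F.pr P) R E) : CrQ_GExtA F X C Q R (E ∪ B) := by
  classical
  obtain ⟨U, w, W, c1, c2, c3, c4, c5⟩ := hC
  obtain ⟨p1, p2, p3, -⟩ := (sGeoA d).1 _ _ hP
  obtain ⟨-, -, l3, -, -, l6, l7, -, -, l10, -, -, -, -, -, -, l17, -⟩ := bLiftA D d F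
  obtain ⟨t1, -, t3, t4⟩ := hT
  have hsup : ∀ s, (Q ⊔ F.pr P) s = max (Q s) (F.pr P s) := fun s => rfl
  obtain ⟨e, he⟩ : ∃ e : Sd D → ℕ, ∀ s, e s = (max (Q s) (F.pr P s) - Q s).toNat :=
    ⟨_, fun _ => rfl⟩
  have hold : ∀ u ∈ U, ∀ s, u.2 s ≠ 0 → Q s + u.2 s ≤ F.pr u.1 s := fun u hu s hs => by
    have := (c1 u hu).2 s hs
    rw [hsup] at this
    omega
  by_cases ha : (1 ≤ psi P ∧ ∃ s, e s ≠ 0) ∨ (psi P = 0 ∧ Two e)
  · have hnew : (P, e) ∉ U := by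
      intro h
      obtain ⟨s, hs⟩ : ∃ s, e s ≠ 0 := ha.elim (fun h => h.2) fun ⟨_, s, _, _, h, _⟩ => ⟨s, h⟩
      have := (c1 _ h).2 s hs
      simp only [hsup] at this
      omega
    have hw : ∀ u ∈ U, (if u = (P, e) then B else w u) = w u := fun u hu =>
      if_neg fun h : u = (P, e) => hnew (h ▸ hu)
    refine ⟨insert (P, e) U, fun u => if u = (P, e) then B else w u, W, ?_, fun s => ?_, ?_,
      c4, ?_⟩
    · intro u hu
      rcases mem_insert.1 hu with rfl | hu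
      · simp only [if_true]
        refine ⟨⟨hX e he ha, subset_union_right, hP⟩, fun s hs => ?_⟩
        have := he s
        omega
      · simp only [hw u hu]
        exact ⟨⟨(c1 u hu).1.1, (c1 u hu).1.2.1.trans subset_union_left, (c1 u hu).1.2.2⟩,
          hold u hu⟩
    · refine ⟨(c2 s).1.trans subset_union_left, ?_⟩
      have : JU F Q R (insert (P, e) U) s = JU F (Q ⊔ F.pr P) R U s := by
        ext j
        simp only [mem_JU_GExtA, forall_mem_insert, hsup]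
        have := he s
        constructor
        · rintro ⟨h1, h2, h3⟩
          exact ⟨by omega, h3⟩
        · rintro ⟨h1, h3⟩
          exact ⟨by omega, by omega, h3⟩
      rw [this]
      exact (c2 s).2
    · intro u hu v hv huv
      rcases mem_insert.1 hu with e1 | g1 <;> rcases mem_insert.1 hv with e2 | g2
      · exact absurd (e1.trans e2.symm) huv
      · simp only [hw v g2, e1, if_true]
        exact hd.mono_right (c1 v g2).1.2.1
      · simp only [hw u g1, e2, if_true]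
        exact (hd.mono_right (c1 u g1).1.2.1).symm
      · simp only [hw u g1, hw v g2]
        exact c3 u g1 v g2 huv
    · intro u hu s
      rcases mem_insert.1 hu with rfl | hu
      · simp only [if_true]
        exact hd.mono_right (c2 s).1
      · simp only [hw u hu]
        exact c5 u hu s
  · have h0 : ∀ s, e s ≠ 0 → psi P = 0 := fun s hs => by
      by_contra h
      exact ha (Or.inl ⟨by omega, s, hs⟩)
    have h2 : ∀ s t : Sd D, e s ≠ 0 → e t ≠ 0 → s.1 = t.1 := fun s t hs ht => by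
      by_contra h
      exact ha (Or.inr ⟨h0 s hs, s, t, h, hs, ht⟩)
    refine ⟨U, w, fun s => W s ∪ B.filter fun x => Q s < kap s (F.pp x), fun u hu => ?_,
      fun s => ?_, c3, fun s t hst => ?_, fun u hu s => ?_⟩
    · exact ⟨⟨(c1 u hu).1.1, (c1 u hu).1.2.1.trans subset_union_left, (c1 u hu).1.2.2⟩,
        hold u hu⟩
    · refine ⟨union_subset_union (c2 s).1 (filter_subset _ _), fun j hj => ?_⟩
      obtain ⟨⟨j1, j2⟩, j3⟩ := mem_JU_GExtA.1 hj
      by_cases hj' : (Q ⊔ F.pr P) s < j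
      · rcases (c2 s).2 j (mem_JU_GExtA.2 ⟨⟨hj', j2⟩, j3⟩) with ⟨x, hx, h⟩ | ⟨x, hx, h⟩
        · exact Or.inl ⟨x, mem_union_left _ hx, h⟩
        · exact Or.inr ⟨x, mem_union_left _ hx, h⟩
      · rw [hsup] at hj'
        have b2 := he s
        have a0 := h0 s (by omega)
        obtain ⟨x, hx⟩ : B.Nonempty := card_pos.1 (by omega)
        have a1 : P = ptB x := ((bGap d).2.2.2.2.2.2.2.2.2.2.2.1 P x).2.2 (p2 x hx) a0
        have a2 : ∀ t, F.pr P t = kap t (F.pp x) := fun t => by rw [a1, l3]; rfl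
        have a3 := sum_GExtA hQ (l6 P p1) e he
        have a4 : e s ≤ ∑ t, e t := single_le_sum (fun _ _ => Nat.zero_le _) (mem_univ s)
        have a5 := l10 P
        have a6 := l17 P t1
        have a7 := a2 s
        have a8 : ∀ t : Sd D, t.1 ≠ s.1 → kap t (F.pp x) ≤ Q t := by
          intro t ht
          have b1 := a2 t
          have b3 := he t
          by_contra h
          exact ht (h2 t s (by omega) (by omega))
        have a9 : x ∈ W s ∪ B.filter fun x => Q s < kap s (F.pp x) :=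
          mem_union_right _ (mem_filter.2 ⟨hx, by omega⟩)
        by_cases hk : kap s (F.pp x) = j
        · exact Or.inl ⟨x, a9, hL 1 s j x j1 hk a8 (a1 ▸ t1) (a1 ▸ t3)⟩
        · exact Or.inr ⟨x, a9, hL 0 s (j + 1) x (by omega) (by omega) a8 (a1 ▸ t1)
            (by rw [← a1]; omega)⟩
    · refine disjoint_union_left.2 ⟨disjoint_union_right.2 ⟨c4 s t hst,
        (hd.mono (filter_subset _ _) (c2 s).1).symm⟩, disjoint_union_right.2
          ⟨hd.mono (filter_subset _ _) (c2 t).1, disjoint_left.2 fun x hx hx' => ?_⟩⟩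
      rw [mem_filter] at hx hx'
      have a1 := l7 x P (p2 x hx.1) s
      have a2 := l7 x P (p2 x hx.1) t
      have a3 := he s
      have a4 := he t
      have a5 : s.1 = t.1 := h2 s t (by omega) (by omega)
      obtain ⟨i, b⟩ := s
      obtain ⟨i', b'⟩ := t
      obtain rfl : i = i' := a5
      have a6 := hQ i
      have a7 := hx.2
      have a8 := hx'.2
      cases b <;> cases b' <;> simp only [kap, if_true, Bool.false_eq_true, if_false] at a7 a8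
      · exact hst rfl
      · omega
      · omega
      · exact hst rfl
    · exact disjoint_union_right.2
        ⟨c5 u hu s, (hd.mono (filter_subset _ _) (c1 u hu).1.2.1).symm⟩

theorem adm_GExtA {F : Fr D d} {m : ℕ → ℕ} {S R : Bx D} {M T : ℕ} {z : ℕ → Bx D} {Q : Bx D}
    {P : Bx d} (z3 : Monotone fun t => outB m R (z t))
    (z7 : ∀ s j τ, τ ≤ M → z τ s < j → τ ≤ tm z M s j)
    (hP : Val P) (hQ : Val Q) (hS : S ≤ Q) (hT : Trg F T Q P) (hR : F.pr P ≤ R)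
    (hF : Fol m R M z Q) (e : Sd D → ℕ) (he : ∀ s, e s = (max (Q s) (F.pr P s) - Q s).toNat)
    (ha : (1 ≤ psi P ∧ ∃ s, e s ≠ 0) ∨ (psi P = 0 ∧ Two e)) :
    (P, e) ∈ admM F T R S R (oz m R M (T + 1) z) ∪ admD F m M R z := by
  classical
  obtain ⟨-, -, -, -, -, l6, -, -, -, l10, -, -, l13, -, -, -, l17, -⟩ := bLiftA D d F
  obtain ⟨t1, t2, t3, t4⟩ := hT
  have a3 := sum_GExtA hQ (l6 P hP) e he
  have a4 : ∀ s, e s ≤ ∑ t, e t := fun s =>
    single_le_sum (fun _ _ => Nat.zero_le _) (mem_univ s)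
  have a5 := l10 P
  have a6 := l17 P t1
  have hb : P ∈ boxes (F.lift R) :=
    ((sGeoA d).2.2.2.1 P _ hP ((l13 R P).2 ⟨hR, t1⟩)).2.2.2.2
  rcases ha with ⟨h1, h2⟩ | ⟨h1, h2⟩
  · refine mem_union_left _ ?_
    unfold admM
    refine mem_filter.2 ⟨mem_product.2 ⟨hb, Fintype.mem_piFinset.2 fun s => mem_range.2 ?_⟩,
      hP, t1, t3, h1, t2, ?_, h2, fun s j j1 j2 => ?_⟩
    · have := a4 s
      show e s < T + 2
      omega
    · show ∑ s, e s ≤ psi (F.pr P) + 2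
      omega
    · obtain ⟨τ, u1, u2, u3⟩ := hF
      change F.pr P s - e s < j at j1
      change j ≤ F.pr P s at j2
      have b1 := he s
      have b2 : S s ≤ Q s := hS s
      have b3 : F.pr P s ≤ R s := hR s
      have b4 : z τ s ≤ Q s := u2 s
      refine ⟨by omega, by omega, fun t _ => ?_⟩
      have b5 : Q t ≤ outB m R (z τ) t := u3 t
      have b6 : outB m R (z τ) t ≤ outB m R (z (tm z M s j)) t := z3 (z7 s j τ u1 (by omega)) t
      have b7 := he t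
      have b8 := a4 t
      show F.pr P t ≤ outB m R (z (tm z M s j)) t + ((T + 1 : ℕ) : ℤ)
      omega
  · refine mem_union_right _ ?_
    unfold admD
    have b0 : 2 ≤ ∑ t, e t := by
      obtain ⟨s, s', k1, k2, k3⟩ := h2
      have b1 : ∑ t ∈ {s, s'}, e t ≤ ∑ t, e t := sum_le_sum_of_subset (subset_univ _)
      rw [sum_pair fun h => k1 (congrArg Prod.fst h)] at b1
      omega
    refine mem_filter.2 ⟨mem_product.2 ⟨hb, Fintype.mem_piFinset.2 fun s => mem_range.2 ?_⟩,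
      hP, h1, t1, ?_, adm_FExt1 (l6 P hP) hQ (by omega) (by show psi (F.pr P) < 1; omega) hR hF
        e he h2⟩
    · have := a4 s
      show e s < 3
      omega
    · show F.lev P = 0
      omega

theorem gExtA (h1 : GLY) (h2 : GChn) : GExtA := by
  classical
  intro D d F m S R M T z A hm hS hSR hz hA
  obtain ⟨-, -, z3, -, -, -, z7, -, -⟩ := bPathA D m S R M z hm hS hSR hz
  obtain ⟨k, Q, P, W, q0, qk, qF, qs, qd⟩ := hA
  have hstep : ∀ j, j < k → Q j ≤ Q (j + 1) := fun j hj => by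
    rw [(qs j hj).2.2.2]
    exact le_sup_left
  have hlo : ∀ j, j ≤ k → S ≤ Q j := by
    intro j
    induction j with
    | zero => exact fun _ => q0.ge
    | succ j ih => exact fun hj => (ih (by omega)).trans (hstep j (by omega))
  have hmain : ∀ n j, j + n = k → Q j ≤ R ∧
      CrQ_GExtA F (admM F T R S R (oz m R M (T + 1) z) ∪ admD F m M R z)
        (fun h s i => LY F h (reg m R M 0 z s i)) (Q j) R ((Ico j k).biUnion W) := by
    intro n
    induction n with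
    | zero =>
      intro j hj
      obtain rfl : j = k := by omega
      refine ⟨qk.le, ∅, fun _ => ∅, fun _ => ∅, by simp,
        fun s => ⟨empty_subset _, fun i hi => ?_⟩, by simp, by simp, by simp⟩
      have := (mem_JU_GExtA.1 hi).1
      rw [qk] at this
      omega
    | succ n ih =>
      intro j hj
      have hjk : j < k := by omega
      obtain ⟨i1, i2⟩ := ih (j + 1) (by omega)
      obtain ⟨s1, s2, s3, s5⟩ := qs j hjk
      refine ⟨(hstep j hjk).trans i1, ?_⟩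
      have hQ : Val (Q j) := ((sGeoA D).2.2.2.1 S (Q j) hS (hlo j hjk.le)).1
      have hP : Val (P j) := ((sGeoA d).1 _ _ s2).1
      have hPR : F.pr (P j) ≤ R := by
        rw [s5] at i1
        exact le_sup_right.trans i1
      have hU : (Ico j k).biUnion W = (Ico (j + 1) k).biUnion W ∪ W j := by
        rw [← insert_Ico_add_one_left_eq_Ico hjk, biUnion_insert, union_comm]
      rw [hU]
      rw [s5] at i2
      refine key_GExtA s2 hQ s3 ?_
        (adm_GExtA z3 z7 hP hQ (hlo j hjk.le) s3 hPR (qF j hjk.le)) ?_ i2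
      · refine (disjoint_biUnion_right _ _ _).2 fun i hi => ?_
        have := mem_Ico.1 hi
        exact qd j i hjk this.2 (by omega)
      · intro h s i x hi hx ht hr hl
        obtain ⟨τ, t1, t2, t3⟩ := qF j hjk.le
        obtain ⟨y1, -, -, y4⟩ := h1.1 D d F (reg m R M 0 z s i)
        refine (y1 h x).2 ⟨((bLay D _ s i).1 _).2 ⟨hx, fun t hts => ?_⟩, y4 x hr, hl⟩
        have b1 := ht t hts
        have b2 : Q j t ≤ outB m R (z τ) t := t3 t
        have b3 : τ ≤ tm z M s i := z7 s i τ t1 (lt_of_le_of_lt (t2 s) hi)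
        have b4 : outB m R (z τ) t ≤ outB m R (z (tm z M s i)) t := z3 b3 t
        show kap t (F.pp x) ≤ outB m R (z (tm z M s i)) t + ((0 : ℕ) : ℤ)
        omega
  obtain ⟨U, w, V, c1, c2, c3, c4, c5⟩ := (hmain k 0 (by omega)).2
  have hsub : (Ico 0 k).biUnion W ⊆ A :=
    biUnion_subset.2 fun i hi => (qs i (mem_Ico.1 hi).2).1
  rw [q0] at c2
  exact ⟨U, w, univ.biUnion V, fun u hu => ⟨(c1 u hu).1.1, (c1 u hu).1.2.1.trans hsub,
      (c1 u hu).1.2.2, (disjoint_biUnion_right _ _ _).2 fun s _ => c5 u hu s⟩,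
    biUnion_subset.2 fun s _ => (c2 s).1.trans hsub,
    ⟨V, fun s => ⟨subset_biUnion_of_mem V (mem_univ s), (c2 s).2⟩, c4⟩, c3⟩

end Pool.Agent.MP_6d294b_pr

end

section

open Finset

namespace Pool.Agent.MP_6d294b_pr

lemma two_RBlk {d r k : ℕ} {Θ : Finset (Fin d)} (c : Fin d → ℤ) (h : Θ.card + 2 ≤ r) (v : Pt d) :
    2 ≤ thS r k Θ c v := by
  have := Finset.card_filter_le Θ fun t => v t = c t ∨ v t = c t + k - 1
  unfold thS
  omega

lemma three_RBlk {d r k : ℕ} {Θ : Finset (Fin d)} (c : Fin d → ℤ) (h : Θ.card + 2 ≤ r)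
    {t : Fin d} (ht : t ∈ Θ) (v : Pt d) (h1 : c t < v t) (h2 : v t < c t + k - 1) :
    3 ≤ thS r k Θ c v := by
  have : (Θ.filter fun t => v t = c t ∨ v t = c t + k - 1).card < Θ.card :=
    Finset.card_lt_card (Finset.filter_ssubset.2 ⟨t, ht, by omega⟩)
  unfold thS
  omega

lemma det_RBlk (hG : RGeo) {d r k a : ℕ} {Θ : Finset (Fin d)} {c : Fin d → ℤ} {Y P : Bx d}
    {t : Fin d} {B K : Finset (Pt d)} {z : ℤ} (h : Θ.card + 2 ≤ r) (ht : t ∈ Θ)
    (hF : Fill (thS r k Θ c) B K P) (hY : P ≤ Y) (hT : P (t, true) = c t + k - 1)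
    (hB : P (t, false) = - c t) (hz : c t < z) (hz' : z + (a + 4 : ℕ) ≤ c t + k - 1) :
    Ev (fun _ => 2) (fun _ P => P ≤ Y ∧ a ≤ psi P)
      (B.filter fun x => z ≤ x t ∧ x t < z + (a + 4 : ℕ)) := by
  obtain ⟨hgap, hfill, hfam, hcut, -⟩ := hG
  obtain ⟨-, -, g3, -, -, -, -, -, -, g10, -⟩ := hgap d
  obtain ⟨-, hBK, -, hin, htop, hcon, -⟩ := hfill d _ (two_RBlk c h) B K P hF
  obtain ⟨I, i1, i2, i3, i4⟩ := hfam d (fun _ => 2) (fun _ => le_rfl)
    (B.filter fun x => z ≤ x t ∧ x t < z + (a + 4 : ℕ))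
  have hc := hcut d _ (fun _ => 2) B K _ P t z (a + 4) hF (by omega) (fun v h1 h2 => by
    have := three_RBlk (k := k) c h ht v (by omega) (by omega)
    split_ifs <;> omega) i4 (fun x hx h1 h2 => i3 (mem_filter.2 ⟨hx, h1, h2⟩))
  by_contra hno
  have hsm : ∀ u ∈ I, ∀ x ∈ u.2.1, ∀ y ∈ u.2.1, x t < y t + a := by
    intro u hu x hx y hy
    obtain ⟨-, -, -, j1, j2, -⟩ := hfill d (fun _ => 2) (fun _ => le_rfl) _ _ _ (i1 u hu).2
    have h1 : u.2.2 ≤ Y := fun s => by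
      obtain ⟨w, hw, e⟩ := j2 s
      rw [← e]
      exact (hin w (hBK (mem_filter.1 ((i1 u hu).1 hw)).1) s).trans (hY s)
    have h2 : psi u.2.2 < a := lt_of_not_ge fun h3 => hno ⟨_, _, _, (i1 u hu).1, (i1 u hu).2, h1, h3⟩
    have h3 := g10 _ x y (j1 x hx) (j1 y hy)
    have h4 := g3 x y (t, true)
    simp only [kap, if_true] at h4
    omega
  let φ : Pt d → Prop := fun x => x t < z ∨ ∃ u ∈ I, x ∈ u.2.1 ∧ ∃ y ∈ u.2.1, y t ≤ z + 1
  have hφ : ∀ x, φ x → x t ≤ z + a := by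
    rintro x (h1 | ⟨u, hu, hx, y, hy, h1⟩)
    · omega
    · have := hsm u hu x hx y hy
      omega
  obtain ⟨x0, hx0, e0⟩ := htop (t, false)
  obtain ⟨x1, hx1, e1⟩ := htop (t, true)
  simp only [kap, if_true, Bool.false_eq_true, if_false] at e0 e1
  have hfin := hφ x1 (hcon φ ?_ x0 (hBK hx0) x1 (hBK hx1) (Or.inl (by omega)))
  · omega
  intro x _ y hy hxy hx
  by_cases h1 : y t < z
  · exact Or.inl h1
  have h2 := hφ x hx
  have h3 := g3 x y (t, false)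
  simp only [kap, Bool.false_eq_true, if_false] at h3
  obtain ⟨v, hv, hyv⟩ := mem_biUnion.1 (hc y hy (by omega) (by omega))
  rcases hx with h4 | ⟨u, hu, hxu, hw⟩
  · exact Or.inr ⟨v, hv, hyv, y, hyv, by omega⟩
  · by_cases e : u = v
    · exact Or.inr ⟨u, hu, e ▸ hyv, hw⟩
    · have := (i2 u hu v hv e).2 x hxu y hyv
      omega

theorem rBlk (hO : SOld) (hG : RGeo) : RBlk := by
  intro d r k n a p Ω Θ c Y t h ht ha hk hp0 hp hq hY
  have hp1 : p ≤ 1 := by linarith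
  obtain ⟨hA, -, hBK, -⟩ := hO
  obtain ⟨a0, -, a2, -⟩ := hA (Pt d) Ω p hp0 hp1
  have hU := (hG.2.2.2.2.2.2.2.2 d Ω p hp0 hp1).2 (fun _ => 2) Y a 0 (fun _ => le_rfl) ha le_rfl
    (by simpa using hq)
  simp only [zero_mul, neg_zero, Real.exp_zero, mul_one] at hU
  have hb := hBK (Pt d) Ω p hp0 hp ℕ (range n)
    (fun _ => Ev (fun _ => 2) (fun _ P => P ≤ Y ∧ a ≤ psi P))
    (fun _ _ A A' hA ⟨B, K, P, h1, h2⟩ => ⟨B, K, P, h1.trans hA, h2⟩)
  refine (a2 _ _ ?_).trans (hb.trans ?_)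
  · rintro A - ⟨B, K, P, h1, h2, h3, h4, h5⟩
    refine ⟨fun j => B.filter fun x => c t + 1 + j * (a + 4 : ℕ) ≤ x t ∧
      x t < c t + 1 + j * (a + 4 : ℕ) + (a + 4 : ℕ), fun j hj => ⟨(filter_subset _ _).trans h1,
        det_RBlk hG h ht h2 h3 h4 h5 ?_ ?_⟩, fun j _ l _ hne => ?_⟩
    · have : (0 : ℤ) ≤ j * (a + 4 : ℕ) := by positivity
      omega
    · have h6 : (j + 1) * (a + 4) ≤ n * (a + 4) := Nat.mul_le_mul_right _ (mem_range.1 hj)
      have h7 : (((j + 1) * (a + 4) + 2 : ℕ) : ℤ) ≤ k := Int.ofNat_le.2 (by omega)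
      push_cast at h7 ⊢
      linarith
    · refine disjoint_filter.2 fun x _ ⟨h6, h7⟩ ⟨h8, h9⟩ => hne ?_
      have h0 : (0 : ℤ) < (a + 4 : ℕ) := by positivity
      have e1 : (j : ℤ) < l + 1 := lt_of_mul_lt_mul_right (by linarith) h0.le
      have e2 : (l : ℤ) < j + 1 := lt_of_mul_lt_mul_right (by linarith) h0.le
      omega
  · rw [prod_const, card_range, show (- (n : ℝ)) = n * (- 1) by ring, Real.exp_nat_mul]
    exact pow_le_pow_left₀ (a0 _) (hU.trans hY) n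

end Pool.Agent.MP_6d294b_pr

end

section

open Finset

namespace Pool.Agent.MP_6d294b_pr

theorem tele_RRed2 (N : ℕ) :
    ∑ t ∈ Ico 1 (N + 1), 1 / ((t : ℝ) + 1) ^ 2 ≤ 1 - 1 / ((N : ℝ) + 1) := by
  induction N with
  | zero => simp
  | succ n ih =>
    rw [Finset.sum_Ico_succ_top (by omega)]
    push_cast
    have h : 1 / ((n : ℝ) + 1 + 1) ^ 2 ≤ 1 / ((n : ℝ) + 1) - 1 / ((n : ℝ) + 1 + 1) := by
      rw [div_sub_div _ _ (by positivity) (by positivity), div_le_div_iff₀ (by positivity)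
        (by positivity)]
      have : (0 : ℝ) ≤ n := Nat.cast_nonneg n
      nlinarith
    linarith

/-- a box cut to a slab -/
def cut_RRed2 {d : ℕ} (k : ℕ) (Θ : Finset (Fin d)) (c : Fin d → ℤ) (Y : Bx d) : Bx d := fun s =>
  if s.1 ∈ Θ then min (Y s) (if s.2 then c s.1 + k - 1 else - c s.1) else Y s

theorem cut_le_RRed2 {d : ℕ} (k : ℕ) (Θ : Finset (Fin d)) (c : Fin d → ℤ) (Y : Bx d) :
    cut_RRed2 k Θ c Y ≤ Y := by
  intro s
  unfold cut_RRed2
  by_cases h : s.1 ∈ Θ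
  · rw [if_pos h]; exact min_le_left _ _
  · rw [if_neg h]

theorem cut_ins_RRed2 {d : ℕ} (k : ℕ) (Θ : Finset (Fin d)) (c : Fin d → ℤ) (Y : Bx d) :
    InS k Θ c (cut_RRed2 k Θ c Y) := by
  intro t ht
  unfold cut_RRed2
  simp only [ht, if_true, Bool.false_eq_true, if_false]
  exact ⟨min_le_right _ _, min_le_right _ _⟩

theorem le_cut_RRed2 {d : ℕ} {k : ℕ} {Θ : Finset (Fin d)} {c : Fin d → ℤ} {Y P : Bx d}
    (h1 : P ≤ Y) (h2 : InS k Θ c P) : P ≤ cut_RRed2 k Θ c Y := by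
  rintro ⟨l, b⟩
  unfold cut_RRed2
  by_cases h : l ∈ Θ
  · simp only [h, if_true]
    refine le_min (h1 _) ?_
    cases b
    · simpa using (h2 l h).1
    · simpa using (h2 l h).2
  · simp only [h, if_false]
    exact h1 _

theorem vol_RRed2 {d : ℕ} (x : Pt d) (t : ℕ) {Y : Bx d} (h : Y ≤ fun s => kap s x + t) :
    volB Y ≤ (2 * t + 1) ^ d := by
  unfold volB
  have h1 : ∏ i, (ex Y i + 1) ≤ ∏ _i : Fin d, (2 * t + 1) := by
    refine Finset.prod_le_prod' fun i _ => ?_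
    have a1 := h (i, true)
    have a2 := h (i, false)
    simp only [kap, if_true, Bool.false_eq_true, if_false] at a1 a2
    unfold ex
    omega
  simpa using h1

theorem near_RRed2 {d : ℕ} {x : Pt d} {t : ℕ} {P : Bx d} (hx : InB x P)
    (h : ∀ i, ex P i ≤ t) : P ≤ fun s => kap s x + t := by
  rintro ⟨l, b⟩
  have a1 := hx (l, true)
  have a2 := hx (l, false)
  have a3 := h l
  unfold ex at a3
  simp only [kap, if_true, Bool.false_eq_true, if_false] at a1 a2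
  cases b
  · simp only [kap, Bool.false_eq_true, if_false]; omega
  · simp only [kap, if_true]; omega

theorem box_RRed2 (hO : SOld) (hG : RGeo) (hC : RCrs) {d r k j : ℕ} {p : ℝ} {s : ℕ} {ε χ : ℝ}
    {g m : ℕ} (hR : Red d r k j p s ε χ g m) (Ω : Finset (Pt d)) (Θ : Finset (Fin d))
    (c : Fin d → ℤ) (hΘ : Θ.card = j) (P : Bx d) (hP : InS k Θ c P) (hm : psi P < m) :
    Pr Ω p (Ev (thS r k Θ c) fun _ P' => P' = P) ≤ (1 / 2) ^ (psi P / (d * g * k)) := by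
  obtain ⟨r1, r2, r3, r4, r5, -, -, -, r9, -⟩ := id hR
  obtain ⟨-, p2, p3, -⟩ := hO.1 (Pt d) Ω p r4 (by linarith)
  obtain ⟨-, b2, -, b4⟩ := (hG.2.2.2.2.2.2.2.1 d).2.2.2.1 P
  rcases Nat.eq_zero_or_pos (psi P / (d * g * k)) with h0 | h0
  · rw [h0, pow_zero]; exact p2 _
  obtain ⟨i, hi⟩ := b4 (by omega)
  set n := psi P / (d * g * k) with hn
  have a1 : n * (g * k) ≤ ex P i := by
    have c1 : n * (d * g * k) ≤ psi P := Nat.div_mul_le_self _ _
    have c2 : d * (n * (g * k)) ≤ d * ex P i := by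
      calc d * (n * (g * k)) = n * (d * g * k) := by ring
        _ ≤ _ := c1.trans hi
    exact Nat.le_of_mul_le_mul_left c2 (by omega)
  have a2 : k ≤ n * (g * k) := by
    calc k = 1 * (1 * k) := by ring
      _ ≤ n * (g * k) := Nat.mul_le_mul h0 (Nat.mul_le_mul_right k r9)
  have a3 : i ∉ Θ := by
    intro h
    obtain ⟨c1, c2⟩ := hP i h
    have c3 := a2.trans a1
    unfold ex at c3
    omega
  refine le_trans (p3 _ _ ?_) (hC d r k j p s ε χ g m hR Ω Θ c i (- P (i, false)) P n hΘ a3 hP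
    fun l => by have := (b2 l).2.2; omega)
  rintro A - ⟨B, K, P', c1, c2, rfl⟩
  refine ⟨B, K, P', c1, c2, le_rfl, le_rfl, ?_⟩
  have c3 : ((n * (g * k) : ℕ) : ℤ) ≤ P' (i, true) + P' (i, false) := by
    unfold ex at a1
    omega
  push_cast at c3
  linarith

theorem rRed2 (hO : SOld) (hG : RGeo) (hD : RDet) (hP : RPath) (hC : RCrs) : RRed2 := by
  classical
  intro d r k j p s ε χ τ g m s' t₁ hR hs' ht₁ hτ hτ' Ω Θ c x Z hΘ
  obtain ⟨r1, r2, r3, r4, r5, r6, r7, r8, r9, r10, r11, -⟩ := id hR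
  obtain ⟨p1, p2, p3, p4, p5, -⟩ := hO.1 (Pt d) Ω p r4 (by linarith)
  obtain ⟨i, -, hi⟩ : ∃ i ∈ (univ : Finset (Fin d)), i ∉ Θ :=
    Finset.exists_mem_notMem_of_card_lt_card (by rw [card_univ, Fintype.card_fin]; omega)
  have hθ : ∀ v, 2 ≤ thS r k Θ c v := by
    intro v
    unfold thS
    have := Finset.card_filter_le Θ fun t => v t = c t ∨ v t = c t + k - 1
    omega
  obtain ⟨-, -, -, -, -, -, -, -, -, g10, -, -, -, g14⟩ := hG.1 d
  obtain ⟨Bl, hBl, hBl'⟩ := g14 x t₁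
  obtain ⟨-, -, x3, x4, -⟩ := hG.2.2.2.2.2.2.2.1 d
  choose X hX hX' using x3 x
  set Y₀ : Bx d := fun s => kap s x + t₁ with hY₀
  set Y := cut_RRed2 k Θ c Y₀ with hY
  set z : ℤ := x i - t₁ with hz
  obtain ⟨q1, q2⟩ := hP d r k s Θ c i z x (by omega) (by omega) hi
  let I : Finset (Σ _ : ℕ, Bx d) :=
    (Ico t₁ s').sigma fun t => (X t).filter fun P => psi P = t ∧ InS k Θ c P
  have key : ∀ y, Pr Ω p (Ev (thS r k Θ c)
      fun K P => InS k Θ c P ∧ psi P < s' ∧ x ∈ K ∧ y ∈ K) ≤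
      ∑ n ∈ range Ω.card, Pr Ω p (Pth r k Θ c i z s x n y) +
      (∑ n ∈ (range (2 * t₁ + 1)).filter (fun _ => y ∈ Bl), Pr Ω p (BigS r k Θ c i z s Y n) +
       ∑ u ∈ I.filter (fun u => InB y u.2), Pr Ω p (Ev (thS r k Θ c) fun _ P' => P' = u.2)) := by
    intro y
    refine le_trans ?_ (add_le_add (p5 ℕ _ fun n => Pth r k Θ c i z s x n y)
      (add_le_add (p5 ℕ _ fun n => BigS r k Θ c i z s Y n)
        (p5 (Σ _ : ℕ, Bx d) _ fun u => Ev (thS r k Θ c) fun _ P' => P' = u.2)))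
    refine le_trans ?_ (add_le_add le_rfl (p4 _ _))
    refine le_trans (p3 _ _ ?_) (p4 _ _)
    rintro A hA ⟨B, K, P, c1, c2, c3, c4, c5, c6⟩
    obtain ⟨-, -, -, f4, -⟩ := hG.2.1 d _ hθ B K P c2
    rcases lt_or_ge (psi P) t₁ with hlt | hge
    · have a1 : P ≤ Y₀ := near_RRed2 (f4 x c5) fun l => by have := ((x4 P).2.1 l).2.2; omega
      have a2 := a1 (i, true)
      have a3 := a1 (i, false)
      simp only [hY₀, kap, if_true, Bool.false_eq_true, if_false] at a2 a3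
      have a4 : (2 * (t₁ : ℤ) + 1) * 1 ≤ (2 * t₁ + 1) * k :=
        mul_le_mul_of_nonneg_left (by omega) (by omega)
      rcases (hD d r k (2 * t₁ + 1) s Θ c i z B K P Y (by omega) r3 (by omega) hi c2
        (le_cut_RRed2 a1 c3) (cut_ins_RRed2 _ _ _ _)).2 (by omega) (by push_cast; omega)
        x c5 y c6 with ⟨n, hn, B', K', P', d1, d2⟩ | ⟨n, hn⟩
      · refine Or.inr (Or.inl ⟨n, mem_filter.2 ⟨mem_range.2 hn, hBl' y ?_⟩,
          B', K', P', d1.trans c1, d2⟩)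
        have := g10 P x y (f4 x c5) (f4 y c6)
        omega
      · refine Or.inl ⟨n, mem_range.2 ?_, (q1 n y).1 B A c1 hn⟩
        exact lt_of_lt_of_le ((q1 n y).2 B hn).2 (card_le_card (c1.trans hA))
    · refine Or.inr (Or.inr ⟨⟨psi P, P⟩, mem_filter.2 ⟨mem_sigma.2 ⟨mem_Ico.2 ⟨hge, c4⟩,
        mem_filter.2 ⟨hX' _ P (f4 x c5) le_rfl, rfl, c3⟩⟩, f4 y c6⟩, B, K, P, c1, c2, rfl⟩)
  refine (sum_le_sum fun y _ => key y).trans ?_
  rw [sum_add_distrib, sum_add_distrib, add_assoc]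
  refine add_le_add ?_ (add_le_add ?_ ?_)
  · rw [sum_comm]
    refine (sum_le_sum fun n _ => q2 Ω p χ r4 r5 r7 r8 (by rw [hΘ]; exact r11) n Z).trans ?_
    rw [← mul_sum, mul_comm]
    exact mul_le_mul_of_nonneg_right (sum_geometric_two_le _) r7
  · have a1 : ∀ n : ℕ, Pr Ω p (BigS r k Θ c i z s Y n) ≤ ε * (2 * t₁ + 1 : ℝ) ^ d := by
      intro n
      have b1 := r10 Ω (insert i Θ) (off k c i z n) (cut_RRed2 k (insert i Θ) (off k c i z n) Y₀)
        (by rw [card_insert_of_notMem hi, hΘ]) (cut_ins_RRed2 _ _ _ _)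
      refine le_trans (p3 _ _ ?_) (b1.trans (mul_le_mul_of_nonneg_left ?_ r6))
      · rintro A - ⟨B, K, P, c1, c2, c3, c4, c5⟩
        exact ⟨B, K, P, c1, c2, le_cut_RRed2 (c3.trans (cut_le_RRed2 _ _ _ _)) c4, c5⟩
      · exact_mod_cast vol_RRed2 x t₁ (cut_le_RRed2 _ _ _ _)
    have a2 : ∀ y, ∑ n ∈ (range (2 * t₁ + 1)).filter (fun _ => y ∈ Bl),
        Pr Ω p (BigS r k Θ c i z s Y n) ≤
        if y ∈ Bl then (2 * t₁ + 1 : ℝ) * (ε * (2 * t₁ + 1 : ℝ) ^ d) else 0 := by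
      intro y
      by_cases hy : y ∈ Bl
      · rw [if_pos hy, filter_true_of_mem fun _ _ => hy]
        refine (sum_le_sum fun n _ => a1 n).trans (le_of_eq ?_)
        rw [sum_const, card_range, nsmul_eq_mul]
        push_cast; ring
      · rw [if_neg hy, filter_false_of_mem fun _ _ => hy, sum_empty]
    refine (sum_le_sum fun y _ => a2 y).trans ?_
    rw [← sum_filter, sum_const, nsmul_eq_mul]
    have a3 : ((Z.filter fun y => y ∈ Bl).card : ℝ) ≤ (2 * t₁ + 1 : ℝ) ^ d := by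
      have : (Z.filter fun y => y ∈ Bl).card ≤ (2 * t₁ + 1) ^ d :=
        (card_le_card fun y hy => (mem_filter.1 hy).2).trans hBl
      exact_mod_cast this
    refine (mul_le_mul_of_nonneg_right a3 (by positivity)).trans (le_of_eq ?_)
    ring
  · simp only [sum_filter]
    rw [sum_comm]
    have a1 : ∀ u ∈ I, ∑ y ∈ Z, (if InB y u.2 then
        Pr Ω p (Ev (thS r k Θ c) fun _ P' => P' = u.2) else 0) ≤
        ((u.1 : ℝ) + 1) ^ d * (1 / 2) ^ (u.1 / (d * g * k)) := by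
      rintro ⟨t, P⟩ hu
      obtain ⟨b1, b2⟩ := mem_sigma.1 hu
      obtain ⟨-, b3, b4⟩ := mem_filter.1 b2
      simp only at b1 b3 b4 ⊢
      subst b3
      obtain ⟨v1, -, ⟨W, v2, v3⟩, -⟩ := x4 P
      rw [← sum_filter, sum_const, nsmul_eq_mul]
      refine mul_le_mul ?_ (box_RRed2 hO hG hC hR Ω Θ c hΘ P b4
        (lt_of_lt_of_le (mem_Ico.1 b1).2 hs')) (p1 _) (by positivity)
      have : (Z.filter fun y => InB y P).card ≤ (psi P + 1) ^ d :=
        (card_le_card fun y hy => (v3 y).2 (mem_filter.1 hy).2).trans (v2.trans v1)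
      exact_mod_cast this
    refine (sum_le_sum a1).trans ?_
    rw [sum_sigma]
    have a2 : ∀ t ∈ Ico t₁ s', ∑ _P ∈ (X t).filter (fun P => psi P = t ∧ InS k Θ c P),
        ((t : ℝ) + 1) ^ d * (1 / 2) ^ (t / (d * g * k)) ≤ τ * (1 / ((t : ℝ) + 1) ^ 2) := by
      intro t ht
      rw [sum_const, nsmul_eq_mul]
      have b1 : (((X t).filter fun P => psi P = t ∧ InS k Θ c P).card : ℝ) ≤
          ((t : ℝ) + 1) ^ (2 * d) := by
        have := (card_filter_le (X t) fun P => psi P = t ∧ InS k Θ c P).trans (hX t)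
        exact_mod_cast this
      refine (mul_le_mul_of_nonneg_right b1 (by positivity)).trans ?_
      rw [mul_one_div, le_div_iff₀ (by positivity)]
      refine le_trans (le_of_eq ?_) (hτ' t (mem_Ico.1 ht).1)
      ring
    refine (sum_le_sum a2).trans ?_
    rw [← mul_sum]
    have a3 : ∑ t ∈ Ico t₁ s', 1 / ((t : ℝ) + 1) ^ 2 ≤ 1 := by
      refine (sum_le_sum_of_subset_of_nonneg (Ico_subset_Ico ht₁ (Nat.le_succ s'))
        fun _ _ _ => by positivity).trans ((tele_RRed2 s').trans ?_)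
      have : (0 : ℝ) < 1 / ((s' : ℝ) + 1) := by positivity
      linarith
    exact mul_le_of_le_one_right hτ a3

end Pool.Agent.MP_6d294b_pr

end

section

open Finset

namespace Pool.Agent.MP_6d294b_pr

theorem det_RTop (hG : RGeo) {d r n s : ℕ} (hr : 2 ≤ r) (hd : 2 ≤ d) (hn : 2 ≤ n) (hs : s ≤ n)
    (θ : Pt d → ℕ) (hθ : ∀ v, θ v = r) (A : Finset (Fin d → Fin n)) (hA : PercR d n r A) :
    Ev θ (fun _ P => P ≤ cube d n ∧ s ≤ psi P) (A.image (emb d n)) := by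
  classical
  obtain ⟨-, hF, hI, -⟩ := hG
  have h2 : ∀ v, 2 ≤ θ v := fun v => (hθ v).symm ▸ hr
  obtain ⟨I, f1, f2, f3, f4⟩ := hI d θ h2 (A.image (emb d n))
  have hS := hA {v | emb d n v ∈ I.biUnion fun u => u.2.1}
    (fun v hv => f3 (mem_image_of_mem _ hv))
    (by
      intro v hv
      refine f4 _ ?_
      rw [hθ]
      refine hv.trans ?_
      rw [nb, ← Set.ncard_coe_finset]
      refine Set.ncard_le_ncard_of_injOn (emb d n) ?_ (emb_inj_Perc d n).injOn (Set.toFinite _)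
      rintro u ⟨h1, h3⟩
      exact mem_coe.2 (mem_filter.2 ⟨h1, h3⟩))
  have hall : ∀ v, ∃ m ∈ I, emb d n v ∈ m.2.1 := fun v => by
    have : v ∈ {v | emb d n v ∈ I.biUnion fun u => u.2.1} := hS ▸ Set.mem_univ v
    exact mem_biUnion.1 this
  have hn0 : 0 < n := by omega
  have hy : ∀ (i₀ : Fin d) (k : ℕ), k < n →
      ∃ m ∈ I, (fun i => if i = i₀ then (k : ℤ) else 0) ∈ m.2.1 := by
    intro i₀ k hk
    obtain ⟨m, hm, h⟩ := hall fun i => if i = i₀ then ⟨k, hk⟩ else ⟨0, hn0⟩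
    refine ⟨m, hm, ?_⟩
    have e : (emb d n fun i => if i = i₀ then ⟨k, hk⟩ else ⟨0, hn0⟩) =
        fun i => if i = i₀ then (k : ℤ) else 0 := by
      funext i
      simp only [emb]
      split_ifs <;> rfl
    rwa [e] at h
  obtain ⟨m, hm, h0⟩ := hall fun _ => ⟨0, hn0⟩
  have hline : ∀ (i₀ : Fin d) (k : ℕ), k < n →
      (fun i => if i = i₀ then (k : ℤ) else 0) ∈ m.2.1 := by
    intro i₀ k
    induction k with
    | zero =>
      intro _
      have e : (fun i : Fin d => if i = i₀ then ((0 : ℕ) : ℤ) else 0) =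
          emb d n fun _ => ⟨0, hn0⟩ := by
        funext i
        simp [emb]
      rw [e]
      exact h0
    | succ k ih =>
      intro hk
      obtain ⟨m', hm', h'⟩ := hy i₀ (k + 1) hk
      by_cases e : m = m'
      · rw [e]
        exact h'
      have h := (f2 m hm m' hm' e).2 _ (ih (by omega)) _ h'
      rw [dst, sum_eq_single i₀ (fun i _ hi => by simp [hi]) (by simp)] at h
      simp only [if_true] at h
      omega
  obtain ⟨-, -, -, g1, g2, -⟩ := hF d θ h2 _ _ _ (f1 m hm).2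
  refine ⟨m.1, m.2.1, m.2.2, (f1 m hm).1, (f1 m hm).2, fun t => ?_, ?_⟩
  · obtain ⟨x, hx, hk⟩ := g2 t
    obtain ⟨v, -, rfl⟩ := mem_image.1 ((f1 m hm).1 hx)
    have a2 := (v t.1).isLt
    rw [← hk]
    simp only [kap, cube, emb]
    split_ifs <;> omega
  · have hex : ∀ i ∈ (univ : Finset (Fin d)), n - 1 ≤ ex m.2.2 i := by
      intro i _
      have a1 := g1 _ (hline i (n - 1) (by omega)) (i, true)
      have a2 := g1 _ (hline i 0 hn0) (i, false)
      simp only [kap, if_true, Bool.false_eq_true, if_false] at a1 a2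
      rw [ex]
      omega
    have a3 := card_nsmul_le_sum _ _ _ hex
    rw [card_univ, Fintype.card_fin, smul_eq_mul] at a3
    have a4 : 2 * (n - 1) ≤ d * (n - 1) := Nat.mul_le_mul_right _ hd
    have a5 : d * (n - 1) ≤ psi m.2.2 := a3
    omega

theorem rTop (hO : SOld) (hG : RGeo) : RTop := by
  classical
  intro d r k n s p ε hr hd hn hs p0 p1 h
  have h1 := h ((univ : Finset (Fin d → Fin n)).image (emb d n)) ∅ 0 (cube d n) card_empty
    (fun t ht => absurd ht (notMem_empty t))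
  have h2 : volB (cube d n) = n ^ d := by
    have e : ∀ i, ex (cube d n) i + 1 = n := by
      intro i
      simp only [ex, cube, if_true, Bool.false_eq_true, if_false]
      omega
    simp only [volB, e, prod_const, card_univ, Fintype.card_fin]
  rw [h2, ← image_Perc univ (emb d n) (emb_inj_Perc d n)] at h1
  push_cast at h1
  refine le_trans ((hO.1 _ _ p p0 p1).2.2.1 _ _ fun A _ hA => ?_) h1
  exact det_RTop hG hr hd hn hs _ (fun v => by simp [thS]) A hA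

end Pool.Agent.MP_6d294b_pr

end

section

namespace Pool.Agent.MP_6d294b_pr

theorem red_GFin : RFinal := by
  have hG : RGeo :=
    ⟨bGap, bFill, rFam bGap bFill, rCut bGap, bLiftA, bLiftB, bLowC, bBoxC, bUni⟩
  have hP := rPath bOld hG
  have hD := rDet hG rGraph (rCover hG) hP
  have hC := rCrs bOld hG hD hP
  exact rFinal bOld (rBase (rBlk bOld hG) (rChi bOld hG) (rBase1 bOld hG))
    (rPerc (rStep2 (rRed1 bOld hG hC) (rRed2 bOld hG hD hP hC)) rTower (rTop bOld hG)) rTower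

theorem final_GFin (h : GDrop) : FinalG 0 := by
  refine red_GFin 0 fun d r hr hd => ?_
  obtain ⟨C, hC, h1⟩ := h (d - r + 2) d (by omega)
  refine ⟨C, hC, ?_⟩
  have e1 : d - (d - r + 2) + 1 = r - 1 := by omega
  have e2 : lamD (r - 1) (d - r + 2) = lamk d r := rfl
  rw [e1, e2] at h1
  simpa only [pow_zero, mul_one] using h1

end Pool.Agent.MP_6d294b_pr

end

section

open Finset

namespace Pool.Agent.MP_6d294b_pr

variable {d D : ℕ}

theorem ibr_incr_GInd (F : Fr D d) (T K Y : ℕ) (R : Bx D) : Incr (IBr F T K Y R) := by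
  rintro A A' h ⟨B, h1, h2⟩
  exact ⟨B, h1.trans h, h2⟩

theorem sed_incr_GInd (F : Fr D d) (T : ℕ) (S : Bx D) : Incr (Sed F T S) := by
  rintro A A' h ⟨P, h1, h2, h3, h4, B, h5, h6⟩
  exact ⟨P, h1, h2, h3, h4, B, h5.trans h, h6⟩

theorem lk_incr_GInd (F : Fr D d) (T : ℕ) (S : Bx D) (n : ℕ) : Incr (Lk F T S n) := by
  rintro A A' h (h0 | ⟨P, h1, h2, h3, h4, B, h5, h6⟩)
  · exact Or.inl h0
  · exact Or.inr ⟨P, h1, h2, h3, h4, B, h5.trans h, h6⟩

theorem gInd (h1 : GBrG) (h2 : GChn) : GInd := by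
  classical
  intro D d F Ω p p0 p1 T K Y N R₀ V X E hR₀ hX hS hM
  have hA := bPrA
  have hBK := bBK
  have hG := bGeoA
  have hB := bGeoB
  obtain ⟨a1, -, a3, a4, a5, -⟩ := hA (Pt d) Ω p p0 (by linarith)
  obtain ⟨c1, -, c3⟩ := h2 D d F T
  suffices h : ∀ n, ∀ R : Bx D, psi R < n → Val R → R ≤ R₀ →
      Pr Ω p (IBr F T K Y R) ≤ Real.exp (V R + E) from
    fun R => h _ R (Nat.lt_succ_self _)
  intro n
  induction n with
  | zero => exact fun R h => absurd h (Nat.not_lt_zero _)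
  | succ n ih =>
  intro R hn hR hRR
  have hRN : psi R ≤ 2 * N := by
    have := ((hG D).2.2.2.1 R R₀ hR hRR).2.2.2.1
    omega
  obtain ⟨X₁, hX₁⟩ : ∃ X : Finset (Bx D), X = (boxes R).filter fun S => Val S ∧ S ≤ R :=
    ⟨_, rfl⟩
  obtain ⟨X₂, hX₂⟩ : ∃ X : Finset (Bx D × Bx D × Bx D),
    X = (boxes R ×ˢ boxes R ×ˢ boxes R).filter fun z =>
      Val z.1 ∧ Val z.2.1 ∧ z.2.2 ≤ R ∧ z.1 ≤ z.2.2 ∧ z.2.1 ≤ z.2.2 ∧ psi z.2.1 ≤ psi z.1 ∧
        psi z.1 < psi z.2.2 := ⟨_, rfl⟩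
  obtain ⟨E₁, hE₁⟩ : ∃ E₁ : Bx D → Finset (Pt d) → Prop,
    E₁ = fun S => BoxInd (Sed F T S) (Chn2 F T (Gd K Y) S R) := ⟨_, rfl⟩
  obtain ⟨E₂, hE₂⟩ : ∃ E₂ : Bx D × Bx D × Bx D → Finset (Pt d) → Prop,
    E₂ = fun z => BoxInd (IBr F T K Y z.1) (BoxInd (IBr F T K Y z.2.1)
      (BoxInd (Lk F T z.2.2 (dfc (ex z.1) (ex z.2.1) (ex z.2.2)))
        (Chn2 F T (Gd K Y) z.2.2 R))) := ⟨_, rfl⟩
  have hincl : Pr Ω p (IBr F T K Y R) ≤
      Pr Ω p fun A => (∃ S ∈ X₁, E₁ S A) ∨ ∃ z ∈ X₂, E₂ z A := by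
    refine a3 _ _ ?_
    rintro A - ⟨A', hA', hsp⟩
    rcases c3 K Y A' R hsp with ⟨S, B, C, g1, g2, g3, g4, g5, g6⟩ |
      ⟨Q, P, S, B₁, B₂, B₃, C, g1, g2, g3, g4, d1, d2, d3, d4, d5, d6, g7, g8, g9, g10, g11,
        g12, g13⟩
    · have g7 := ((c1 _ _ _).2 _ g6).1
      refine Or.inl ⟨S, ?_, ?_⟩
      · rw [hX₁, mem_filter]
        exact ⟨((hG D).2.2.2.1 _ R g4 g7).2.2.2.2, g4, g7⟩
      · rw [hE₁]
        exact ⟨B, C, g1.trans hA', g2.trans hA', g3, g5, g6⟩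
    · have hv := ((h1 D d F T K Y _ _).1 g7).1
      have hv' := ((h1 D d F T K Y _ _).1 g8).1
      have g14 := ((c1 _ _ _).2 _ g10).1
      have hv'' := ((hG D).2.2.2.1 Q S hv g11).1
      refine Or.inr ⟨(Q, P, S), ?_, ?_⟩
      · rw [hX₂, mem_filter, mem_product, mem_product]
        exact ⟨⟨((hG D).2.2.2.1 Q R hv (g11.trans g14)).2.2.2.2,
          ((hG D).2.2.2.1 P R hv' (g12.trans g14)).2.2.2.2,
          ((hG D).2.2.2.1 S R hv'' g14).2.2.2.2⟩, hv, hv', g14, g11, g12, g13⟩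
      · rw [hE₂]
        exact ⟨B₁, B₂ ∪ (B₃ ∪ C), g1.trans hA',
          (union_subset g2 (union_subset g3 g4)).trans hA',
          disjoint_union_right.2 ⟨d1, disjoint_union_right.2 ⟨d2, d3⟩⟩, ⟨B₁, Subset.refl _, g7⟩,
          B₂, B₃ ∪ C, subset_union_left, subset_union_right, disjoint_union_right.2 ⟨d4, d5⟩,
          ⟨B₂, Subset.refl _, g8⟩, B₃, C, subset_union_left, subset_union_right, d6, g9, g10⟩
  obtain ⟨b, hb⟩ : ∃ b, b = Real.exp (V R + E - Lv D N) := ⟨_, rfl⟩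
  have hb0 : 0 ≤ b := hb ▸ (Real.exp_pos _).le
  have hfin : ∀ S : Bx D, Real.exp (V S + E - X - Lv D N) * Real.exp (V R - V S + X) = b := by
    intro S
    rw [hb, ← Real.exp_add]
    congr 1
    ring
  have t1 : ∀ S ∈ X₁, Pr Ω p (E₁ S) ≤ b := by
    intro S hS'
    rw [hX₁, mem_filter] at hS'
    obtain ⟨-, g1, g2⟩ := hS'
    rw [hE₁]
    exact (bk_Ind hA hBK Ω p0 p1 (sed_incr_GInd F T S) (c1 _ _ _).1).trans
      ((mul_le_mul (hS S g1 (g2.trans hRR)) (hX S R g1 g2 hRR) (a1 _)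
        (Real.exp_pos _).le).trans (hfin S).le)
  have t2 : ∀ z ∈ X₂, Pr Ω p (E₂ z) ≤ b := by
    rintro ⟨Q, P, S⟩ hz
    rw [hX₂, mem_filter] at hz
    obtain ⟨-, g1, g2, g3, g4, g5, g6, g7⟩ := hz
    rw [hE₂]
    simp only at g1 g2 g3 g4 g5 g6 g7 ⊢
    have v1 := ((hG D).2.2.2.1 Q S g1 g4).1
    have v4 := ((hG D).2.2.2.1 _ R v1 g3).2.2.2.1
    have iQ := ih Q (by omega) g1 ((g4.trans g3).trans hRR)
    have iP := ih P (by omega) g2 ((g5.trans g3).trans hRR)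
    have m := hM Q P S g1 g2 g4 g5 (g3.trans hRR) g6 iQ iP
    refine (bk_Ind hA hBK Ω p0 p1 (ibr_incr_GInd F T K Y Q) (box_incr_Ind _ _)).trans
      ((mul_le_mul_of_nonneg_left
        ((bk_Ind hA hBK Ω p0 p1 (ibr_incr_GInd F T K Y P) (box_incr_Ind _ _)).trans
          (mul_le_mul_of_nonneg_left
            (bk_Ind hA hBK Ω p0 p1 (lk_incr_GInd F T S _) (c1 _ _ _).1) (a1 _)))
        (a1 _)).trans ?_)
    rw [← mul_assoc, ← mul_assoc]
    exact (mul_le_mul m (hX _ R v1 g3 hRR) (a1 _) (Real.exp_pos _).le).trans (hfin S).le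
  have e1 := (hB D).1 R (2 * N + 1) fun i => by have := ex_le_Ind R i; omega
  have k1 : (X₁.card : ℝ) ≤ (2 * N + 1 : ℝ) ^ (6 * D) := by
    have e2 : X₁.card ≤ (2 * N + 1) ^ (6 * D) := by
      rw [hX₁]
      exact ((card_filter_le _ _).trans e1).trans
        (Nat.pow_le_pow_right (by omega) (by omega))
    exact_mod_cast e2
  have k2 : (X₂.card : ℝ) ≤ (2 * N + 1 : ℝ) ^ (6 * D) := by
    have e2 : X₂.card ≤ (2 * N + 1) ^ (6 * D) := by
      rw [hX₂, show 6 * D = 2 * D + (2 * D + 2 * D) by ring, pow_add, pow_add]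
      refine (card_filter_le _ _).trans ?_
      rw [card_product, card_product]
      exact Nat.mul_le_mul e1 (Nat.mul_le_mul e1 e1)
    exact_mod_cast e2
  have u1 := (a5 _ X₁ E₁).trans (sum_le_card_nsmul _ _ _ t1)
  have u2 := (a5 _ X₂ E₂).trans (sum_le_card_nsmul _ _ _ t2)
  rw [nsmul_eq_mul] at u1 u2
  have u4 := mul_le_mul_of_nonneg_right k1 hb0
  have u5 := mul_le_mul_of_nonneg_right k2 hb0
  have u6 : (2 * N + 1 : ℝ) ^ (6 * D) * b = Real.exp (V R + E - 1) := by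
    rw [show V R + E - 1 = V R + E - Lv D N + ((6 * D : ℕ) : ℝ) * Real.log (2 * N + 1) by
      unfold Lv; push_cast; ring, Real.exp_add, ← hb, Real.exp_nat_mul,
      Real.exp_log (by positivity), mul_comm]
  have u7 : 2 * Real.exp (V R + E - 1) ≤ Real.exp (V R + E) := by
    have w1 : (2 : ℝ) ≤ Real.exp 1 := by
      have := Real.add_one_le_exp 1
      linarith
    refine (mul_le_mul_of_nonneg_right w1 (Real.exp_pos _).le).trans ?_
    rw [← Real.exp_add, Real.exp_le_exp]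
    linarith
  refine (hincl.trans (a4 _ _)).trans ?_
  linarith

end Pool.Agent.MP_6d294b_pr

end

section

open Finset

namespace Pool.Agent.MP_6d294b_pr

lemma pot_GSpl {D : ℕ} {c : (Fin D → ℕ) → Fin D → ℝ} {Φ : (Fin D → ℕ) → ℝ} {c₀ : ℝ}
    (hΦ : IsPot2 c Φ) (ha : ∀ i, Antitone fun y => c y i) (hc : ∀ y i, 0 ≤ c y i ∧ c y i ≤ c₀)
    (h0 : 0 ≤ c₀) {a b y : Fin D → ℕ} (hay : a ≤ y) (hby : b ≤ y) (t : ℕ) (γ : ℝ) (hγ : 0 ≤ γ)
    (ht : t ≤ ∑ i, b i)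
    (h : ∀ i (y₁ y₂ : Fin D → ℕ), ∑ k, y₁ k < t → y₁ ≤ y₂ → a ≤ y₂ → c y₂ i + γ ≤ c y₁ i) :
    Φ y ≤ Φ a + Φ b + (dfc a b y + 2) * c₀ - γ * t := by
  obtain ⟨p1, -, p3⟩ := (bPotA D c).2 Φ c₀ hΦ ha hc h0
  have e1 := p1 (fun i => min (y i) (a i + b i)) y fun i => min_le_left _ _
  have e3 := p3 a b (fun i => min (y i) (a i + b i)) t γ
    (fun i => le_min (hay i) (Nat.le_add_right _ _))
    (fun i => le_min (hby i) (Nat.le_add_left _ _))
    ((sum_eq_zero fun i _ => by omega).trans_le (Nat.zero_le 2)) hγ ht h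
  have e2 : ∑ i, ((y i - min (y i) (a i + b i) : ℕ) : ℝ) * c (fun i => min (y i) (a i + b i)) i ≤
      dfc a b y * c₀ := by
    rw [dfc, Nat.cast_sum, sum_mul]
    refine sum_le_sum fun i _ => ?_
    rw [show y i - min (y i) (a i + b i) = y i - (a i + b i) by omega]
    exact mul_le_mul_of_nonneg_left (hc _ _).2 (Nat.cast_nonneg _)
  linarith

lemma two_GSpl {D : ℕ} (hD : 2 ≤ D) (a : Fin D → ℕ) :
    ∃ i j : Fin D, i ≠ j ∧ (∀ l, a l ≤ a i) ∧ ∀ l, l ≠ i → a l ≤ a j := by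
  obtain ⟨i, -, h1⟩ := exists_max_image (univ : Finset (Fin D)) a ⟨⟨0, by omega⟩, mem_univ _⟩
  have hc : (univ.erase i).card = D - 1 := by simp
  obtain ⟨j, h2, h3⟩ := exists_max_image (univ.erase i) a (card_pos.1 (by omega))
  exact ⟨i, j, (ne_of_mem_erase h2).symm, fun l => h1 l (mem_univ _),
    fun l hl => h3 l (mem_erase.2 ⟨hl, mem_univ _⟩)⟩

lemma sum_GSpl {D : ℕ} {f : Fin D → ℝ} {B : ℝ} (h : ∀ i, f i ≤ B) : ∑ i, f i ≤ D * B := by
  have := sum_le_sum (s := univ) fun i _ => h i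
  rwa [sum_const, card_univ, Fintype.card_fin, nsmul_eq_mul] at this

theorem gSpl (h1 : GN2) (h2 : GCost) (h3 : GGain) (h4 : GAri) : GSpl := by
  intro D k A₀ C hk hA₀ hC
  obtain ⟨A, hA, H⟩ := h4 D k A₀ C hk hA₀ hC
  refine ⟨A, hA, fun q p w N η ε η' Φ hB hη' g1 g2 g3 g4 g5 g6 a b y hay hby hba hy => ?_⟩
  obtain ⟨hD, -, hq, -, -, hw, -, -, -, hΦ⟩ := id hB
  obtain ⟨-, -, -, c4, -, -, c7, -, c9, -⟩ := h2 D k q p w η ε Φ hB
  obtain ⟨-, nm, nb, -⟩ := h1 q w hq (by omega)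
  have pot := pot_GSpl hΦ c4 (fun y i => ⟨(c7 y i).1, (c7 y i).2.2⟩) (by linarith) hay hby
  refine ⟨?_, ?_⟩
  · have := pot 0 0 le_rfl (Nat.zero_le _) fun i y₁ y₂ h => absurd h (Nat.not_lt_zero _)
    linarith
  obtain ⟨i, j, hij, m1, m2⟩ := two_GSpl hD a
  by_cases nd : Ndl A₀ q w a i
  · exact Or.inl ⟨i, nd⟩
  right
  have n1 : (a i : ℝ) * w < A₀ * cz D q w * ((a j : ℝ) + 1) * ((a j : ℝ) + 1 + 2 * w) :=
    not_le.1 fun h => nd ⟨j, hij, m2, h⟩
  have sa : ∑ l, a l ≤ ∑ l, y l := sum_le_sum fun l _ => hay l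
  have sD : ∑ l, a l ≤ D * a i := by
    have := sum_le_card_nsmul univ a (a i) fun l _ => m1 l
    rwa [card_univ, Fintype.card_fin, smul_eq_mul] at this
  have va : NV q w a ≤ NV q w y := sum_le_sum fun l _ => nm (hay l)
  have vb : NV q w b ≤ NV q w y := sum_le_sum fun l _ => nm (hby l)
  have sw : 0 < Real.sqrt w := Real.sqrt_pos.2 (by exact_mod_cast (by omega : 0 < w))
  have sq : 0 < Real.sqrt q := Real.sqrt_pos.2 hq
  have v1 : NV q w b ≤ D * (6 * ((∑ l, b l : ℕ) : ℝ) / Real.sqrt w) := sum_GSpl fun l => by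
    refine (nb _).2.2.1.trans ?_
    gcongr
    exact single_le_sum (f := b) (fun _ _ => Nat.zero_le _) (mem_univ l)
  have v2 : NV q w b ≤ D * (12 / Real.sqrt q) := sum_GSpl fun l => (nb _).2.2.2
  have v3 : NV q w a ≤ D * (12 * Real.sqrt (a i)) := sum_GSpl fun l => by
    refine (nb _).2.1.trans ?_
    gcongr
    exact m1 l
  have sa' : ((∑ l, a l : ℕ) : ℝ) ≤ ((∑ l, y l : ℕ) : ℝ) := Nat.cast_le.2 sa
  have sb' : ((∑ l, b l : ℕ) : ℝ) ≤ 2 * N := by exact_mod_cast hba.trans (sa.trans hy)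
  have b0 : (0 : ℝ) ≤ ((∑ l, b l : ℕ) : ℝ) := Nat.cast_nonneg _
  have w1 : η' * (((∑ l, a l : ℕ) : ℝ) + ((∑ l, b l : ℕ) : ℝ) - ((∑ l, y l : ℕ) : ℝ)) ≤
      η' * ((∑ l, b l : ℕ) : ℝ) := mul_le_mul_of_nonneg_left (by linarith) hη'
  have w2 := mul_le_mul_of_nonneg_left sb' hη'
  have u1 : C * (NV q w a + NV q w b - NV q w y) ≤
      C * (D * (6 * ((∑ l, b l : ℕ) : ℝ) / Real.sqrt w)) :=
    mul_le_mul_of_nonneg_left (by linarith) hC
  have u2 : η' * ((∑ l, b l : ℕ) : ℝ) ≤ ((∑ l, b l : ℕ) : ℝ) / Real.sqrt w := by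
    rw [le_div_iff₀ sw]
    linarith [mul_le_mul_of_nonneg_left g4 b0]
  have u3 : (6 * C * D + 1) * ((∑ l, b l : ℕ) : ℝ) / Real.sqrt w =
      C * (D * (6 * ((∑ l, b l : ℕ) : ℝ) / Real.sqrt w)) + ((∑ l, b l : ℕ) : ℝ) / Real.sqrt w := by
    ring
  have u4 : C * (NV q w a + NV q w b - NV q w y) ≤ C * (D * (12 / Real.sqrt q)) :=
    mul_le_mul_of_nonneg_left (by linarith) hC
  have u5 : η' * (2 * N) ≤ 1 / Real.sqrt q := by
    rw [le_div_iff₀ sq]
    linarith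
  have u6 : (12 * C * D + 1) / Real.sqrt q = C * (D * (12 / Real.sqrt q)) + 1 / Real.sqrt q := by
    ring
  have u7 : C * (NV q w a + NV q w b - NV q w y) ≤ C * (D * (12 * Real.sqrt (a i))) :=
    mul_le_mul_of_nonneg_left (by linarith) hC
  obtain ⟨t, t1, t2, t3, t4⟩ := H q (cz D q w) (C * (NV q w a + NV q w b - NV q w y) +
    η' * (((∑ l, a l : ℕ) : ℝ) + ((∑ l, b l : ℕ) : ℝ) - ((∑ l, y l : ℕ) : ℝ))) w (a i) (a j)
    (∑ l, b l) hq hw c9 g1 g2 g3 (hba.trans sD) n1 (by linarith) (by linarith) (by linarith)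
  have := pot t _ (by positivity) t2 (h3 D k q p w η ε Φ a t (a j) i j hB hij (m1 j) le_rfl t1 t3)
  linarith

end Pool.Agent.MP_6d294b_pr

end

section

/-! The weight of the single sites that serve two directions. -/

open Finset

namespace Pool.Agent.MP_6d294b_pr

theorem biU_GW1 {ι β : Type} {inst : DecidableEq β} (I : Finset ι) (t : ι → Finset β) (f : β → ℝ)
    (hf : ∀ x, 0 ≤ f x) : ∑ x ∈ I.biUnion t, f x ≤ ∑ i ∈ I, ∑ x ∈ t i, f x := by
  classical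
  induction I using Finset.induction_on with
  | empty => simp
  | insert a I ha ih =>
    rw [biUnion_insert, sum_insert ha]
    have h1 := sum_union_inter (s₁ := t a) (s₂ := I.biUnion t) (f := f)
    have h2 : 0 ≤ ∑ x ∈ t a ∩ I.biUnion t, f x := sum_nonneg fun x _ => hf x
    linarith

theorem ex_GW1 {d : ℕ} {P : Bx d} (h : psi P = 0) (i : Fin d) : ex P i = 0 :=
  sum_eq_zero_iff.1 h i (mem_univ i)

theorem inj_GW1 {D d : ℕ} {F : Fr D d} {P Q : Bx d} (h : F.pr P = F.pr Q)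
    (hP : Val P ∧ psi P = 0 ∧ F.Reg P ∧ F.lev P = 0)
    (hQ : Val Q ∧ psi Q = 0 ∧ F.Reg Q ∧ F.lev Q = 0) : P = Q := by
  funext ⟨t, b⟩
  by_cases e : ∃ i, F.io i = t
  · obtain ⟨i, rfl⟩ := e
    exact congrFun h (i, b)
  have m : t ∈ F.th := by simpa [Fr.th] using e
  have k : ∀ {P : Bx d}, Val P ∧ psi P = 0 ∧ F.Reg P ∧ F.lev P = 0 →
      F.c t - P (t, F.ta t) = 0 ∧ P (t, true) + P (t, false) = 0 := fun {P} h =>
    ⟨(sum_eq_zero_iff_of_nonneg fun t ht => sub_nonneg.2 (h.2.2.1 t ht).1).1 h.2.2.2 t m,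
      le_antisymm (Int.toNat_eq_zero.1 (ex_GW1 h.2.1 t)) (h.1 t)⟩
  have a := k hP
  have c := k hQ
  cases b <;> cases h' : F.ta t <;> rw [h'] at a c <;> omega

theorem cell_GW1 (h1 : GN2) (h2 : GCost) {D k w : ℕ} {κ q p η ε : ℝ} {Φ : (Fin D → ℕ) → ℝ}
    (hκ : 1 ≤ κ) (hB : Bas2 D k q p w η ε Φ) {R z o : Bx D} (hk : q * (psi R + 2 * w + 1) ≤ κ)
    (hz : Val z) (hzR : z ≤ R) (hzo : z ≤ o) (ho : ∀ s, o s ≤ z s + m2 q w (ex z s.1))
    (hex : ∀ i, ex o i ≤ ex z i + 2 * m2 q w (ex z i)) :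
    ∑ u ∈ adm1 1 R z o, q ^ (D - 1) *
        ∏ s : Sd D, (Real.exp (- gk k (F2 q w w (ex z) s.1)))⁻¹ ^ u.2 s ≤
      2 ^ (3 * D + 4) * D ^ 2 * (2 * D + 5) ^ D * (4 * (1 + κ)) ^ 2 *
        ((κ + 4 * κ * (1 + κ)) ^ (D - 1) + 1) := by
  obtain ⟨-, -, -, -, c5, -, -, c8, -⟩ := h2 D k q p w η ε Φ hB
  obtain ⟨-, -, hq, -, -, hw, -⟩ := hB
  have n1 := (h1 q w hq (by omega)).2.2.2.1
  have hw' : (8 : ℝ) ≤ w := by exact_mod_cast hw
  have hF := fun i => c8 _ (c5 w (ex z) i le_rfl)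
  have hy : ∀ i, q * ((ex z i : ℝ) + 2 * w + 1) ≤ κ := fun i => by
    have : (ex z i : ℝ) ≤ psi R := by
      exact_mod_cast (((bGeoA D).2.2.2.1 z R hz hzR).2.1 i).trans
        (((bBoxC D).2.2.2.1 R).2.1 i).2.2
    exact le_trans (mul_le_mul_of_nonneg_left (by linarith) hq.le) hk
  have hm : ∀ i, (m2 q w (ex z i) : ℝ) ≤ 2 * (1 + κ) * √((ex z i : ℝ) + 2 * w + 1) := fun i => by
    nlinarith [n1 (ex z i), mul_le_mul_of_nonneg_left (hy i)
      (Real.sqrt_nonneg ((ex z i : ℝ) + 2 * w + 1))]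
  have y0 : ∀ i, (0 : ℝ) ≤ ex z i := fun i => Nat.cast_nonneg _
  have hth : ∀ i, (ex z i : ℝ) + w ≤ t2 q w w (ex z i) := fun i =>
    le_add_of_nonneg_right (by positivity)
  refine bWs1 D 1 R z o (fun _ => q ^ (D - 1)) (fun i => Real.exp (- gk k (F2 q w w (ex z) i)))
    (fun i => t2 q w w (ex z i)) (cz D q w) _ (q ^ (D - 1)) (4 * (1 + κ))
    ((bGeoA D).2.2.2.1 z o hz hzo).1 (pow_pos hq _) (by linarith) (fun i => ?_) (fun s => ?_)
    (fun i => ⟨Real.exp_pos _, Real.exp_le_one_iff.2 (neg_nonpos.2 (hF i).2.1)⟩) (fun i => ?_)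
    (fun i => (hF i).2.2.2) (fun i => ?_) (by positivity) fun P _ hP => ?_
  · have : (ex o i : ℝ) ≤ ex z i + 2 * m2 q w (ex z i) := by exact_mod_cast hex i
    unfold t2
    linarith
  · have a : ((o s - z s : ℤ) : ℝ) ≤ m2 q w (ex z s.1) := by
      exact_mod_cast (show o s - z s ≤ (m2 q w (ex z s.1) : ℤ) by linarith [ho s])
    have b : √((ex z s.1 : ℝ) + 2 * w + 1) ≤ 2 * √(t2 q w w (ex z s.1)) :=
      Real.sqrt_le_iff.2 ⟨by positivity, by
        rw [mul_pow, Real.sq_sqrt (by linarith [hth s.1, y0 s.1])]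
        linarith [hth s.1, y0 s.1]⟩
    nlinarith [hm s.1, mul_le_mul_of_nonneg_left b (by linarith : 0 ≤ 1 + κ)]
  · rw [← Real.exp_neg, neg_neg]
    exact Real.exp_le_exp.2 (hF i).2.2.1
  · have h1 : (univ.erase i).card = D - 1 := by
      rw [card_erase_of_mem (mem_univ i), card_univ, Fintype.card_fin]
    rw [← h1, ← prod_const, ← prod_const, ← prod_mul_distrib]
    refine prod_le_prod (fun j _ => mul_nonneg hq.le (le_trans (by positivity) (hth j)))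
      fun j _ => ?_
    have a : √((ex z j : ℝ) + 2 * w + 1) ≤ (ex z j : ℝ) + 2 * w + 1 := by
      rw [Real.sqrt_le_left (by positivity)]
      nlinarith [y0 j]
    have b := mul_le_mul_of_nonneg_left ((hm j).trans
      (mul_le_mul_of_nonneg_left a (by linarith))) hq.le
    have c := mul_le_mul_of_nonneg_left (hy j) (by linarith : 0 ≤ 2 * (1 + κ))
    have e := mul_pos hq (by linarith : (0 : ℝ) < w + 1)
    unfold t2
    nlinarith [hy j]
  · simp [Nat.lt_one_iff.1 hP, hq.le]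

theorem gW1 (h1 : GN2) (h2 : GCost) : GW1 := by
  intro D d κ hκ
  refine ⟨2 ^ (3 * D + 4) * D ^ 2 * (2 * D + 5) ^ D * (4 * (1 + κ)) ^ 2 *
    ((κ + 4 * κ * (1 + κ)) ^ (D - 1) + 1), by positivity, ?_⟩
  intro k q p w η ε Φ F Ω S R M z hB hS hSR hk hz
  classical
  have hcell := fun τ => cell_GW1 h1 h2 hκ hB (z := z τ) (o := outB (m2 q w) R (z τ)) hk
  obtain ⟨⟨p0, p1, p2, p3, -⟩, -, c3, -, c5, -, -, c8, -⟩ := h2 D k q p w η ε Φ hB
  obtain ⟨hD, -, hq, hq1, -, hw, -, -, ⟨sl, -⟩, -⟩ := hB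
  obtain ⟨z1, z2, -, z4, -, -, z7, -⟩ := bPathA D _ S R M z (h1 q w hq (by omega)).1 hS hSR hz
  have hF := fun y i => (c8 _ (c5 w y i le_rfl)).1
  let g : Dat D → ℝ := fun u => q ^ (D - 1) * ∏ s : Sd D, ∏ j ∈ Ioc (u.1 s - u.2 s) (u.1 s),
    (Real.exp (- gk k (F2 q w w (ex (z (tm z M s j))) s.1)))⁻¹
  have n0 : ∀ u : Dat D, 0 ≤ ∏ s : Sd D, ∏ j ∈ Ioc (u.1 s - u.2 s) (u.1 s),
      (Real.exp (- gk k (F2 q w w (ex (z (tm z M s j))) s.1)))⁻¹ := fun u =>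
    prod_nonneg fun s _ => prod_nonneg fun j _ => inv_nonneg.2 (Real.exp_pos _).le
  have g0 : ∀ u, 0 ≤ g u := fun u => mul_nonneg (by positivity) (n0 u)
  have m : ∀ u ∈ admD F (m2 q w) M R z, (Val u.1 ∧ psi u.1 = 0 ∧ F.Reg u.1 ∧ F.lev u.1 = 0) ∧
      (F.pr u.1, u.2) ∈ admP (m2 q w) 1 M R z := fun u hu => by
    obtain ⟨-, a, b, c, e, f⟩ := mem_filter.1 hu
    exact ⟨⟨a, b, c, e⟩, f⟩
  calc _ ≤ ∑ u ∈ admD F (m2 q w) M R z, g (F.pr u.1, u.2) := sum_le_sum fun u hu => by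
        refine mul_le_mul_of_nonneg_right (le_trans ?_ p1) (n0 (F.pr u.1, u.2))
        have := (bSeed d Ω p p0 (by linarith) u.1 (F.io ⟨0, by omega⟩) 0 le_rfl).2 (by
          simp only [sg, ex_GW1 (m u hu).1.2.1, mul_zero, Real.exp_zero, zero_add, prod_const_one,
            Nat.cast_one, mul_one]
          nlinarith [Real.exp_one_lt_d9, Real.exp_pos 1])
        simpa [(m u hu).1.2.1] using this
    _ = ∑ u ∈ (admD F (m2 q w) M R z).image fun u => (F.pr u.1, u.2), g u :=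
        (sum_image (g := fun u : Rc2 D d => (F.pr u.1, u.2)) fun u hu v hv e => Prod.ext
          (inj_GW1 (Prod.mk.inj e).1 (m u hu).1 (m v hv).1) (Prod.mk.inj e).2).symm
    _ ≤ ∑ u ∈ admP (m2 q w) 1 M R z, g u := sum_le_sum_of_subset_of_nonneg
        (image_subset_iff.2 fun u hu => (m u hu).2) fun u _ _ => g0 u
    _ ≤ _ := (biU_GW1 _ _ _ g0).trans ?_
  refine le_trans (sum_le_card_nsmul _ _ _ fun τ hτ => le_trans (sum_le_sum fun u hu => ?_)
    (hcell τ (z2 τ).2.2 (z2 τ).2.1 (z4 τ).1 (z4 τ).2.2.1 fun i => ?_)) ?_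
  · refine mul_le_mul_of_nonneg_left (prod_le_prod (fun s _ => prod_nonneg fun j _ =>
      inv_nonneg.2 (Real.exp_pos _).le) fun s _ => ?_) (by positivity)
    have hA : Adm1 1 (z τ) (outB (m2 q w) R (z τ)) u := by
      unfold adm1 at hu
      rw [mem_filter] at hu
      exact hu.2
    have hc : (Ioc (u.1 s - u.2 s) (u.1 s)).card = u.2 s := by
      rw [Int.card_Ioc]
      omega
    rw [← hc, ← prod_const, hc]
    refine prod_le_prod (fun j _ => inv_nonneg.2 (Real.exp_pos _).le) fun j hj => ?_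
    obtain ⟨j1, j2⟩ := mem_Ioc.1 hj
    have e1 := hA.2.2.2.1 s (by omega)
    have e2 := z7 s j τ (by have := mem_range.1 hτ; omega) (by omega)
    have e3 := c3 w s.1 (((bGeoA D).2.2.2.1 _ _ (z2 τ).2.2 (z1 e2)).2.1)
    have e4 := sl.1 _ _ (hF (ex (z (tm z M s j))) s.1) (hF (ex (z τ)) s.1)
    have e5 := mul_nonneg_of_nonpos_of_nonpos (sl.2.2.1 _ (hF (ex (z (tm z M s j))) s.1))
      (sub_nonpos.2 e3)
    rw [← Real.exp_neg, ← Real.exp_neg]
    exact Real.exp_le_exp.2 (by linarith)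
  · simpa using (z4 τ).2.2.2 0 i
  · rw [card_range, nsmul_eq_mul]
    push_cast
    exact le_rfl

end Pool.Agent.MP_6d294b_pr

end

section

open Finset

namespace Pool.Agent.MP_6d294b_pr

theorem fib_GWM {D d : ℕ} (U : Finset (Rc2 D d)) (g : Bx d → ℝ) (hg : ∀ P, 0 ≤ g P)
    (hU : ∀ u ∈ U, ∀ t, u.2 t < psi u.1 + 3) :
    ∑ u ∈ U, g u.1 ≤ ∑ P ∈ U.image Prod.fst, ((psi P : ℝ) + 3) ^ (2 * D) * g P := by
  classical
  rw [Finset.sum_comp g Prod.fst]
  refine Finset.sum_le_sum fun P _ => ?_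
  rw [nsmul_eq_mul]
  refine mul_le_mul_of_nonneg_right ?_ (hg P)
  have hc : (U.filter fun u => u.1 = P).card ≤
      (Fintype.piFinset fun _ : Sd D => Finset.range (psi P + 3)).card := by
    refine Finset.card_le_card_of_injOn (fun u => u.2) ?_ ?_
    · intro u hu
      have hu' := Finset.mem_filter.mp hu
      simp only [Finset.mem_coe, Fintype.mem_piFinset, Finset.mem_range]
      intro t
      have := hU u hu'.1 t
      rwa [hu'.2] at this
    · intro u hu v hv huv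
      have hu' := Finset.mem_filter.mp hu
      have hv' := Finset.mem_filter.mp hv
      exact Prod.ext (hu'.2.trans hv'.2.symm) huv
  rw [Fintype.card_piFinset] at hc
  simp only [Finset.card_range, Finset.prod_const, Finset.card_univ, Fintype.card_prod,
    Fintype.card_fin, Fintype.card_bool] at hc
  rw [mul_comm D 2] at hc
  exact_mod_cast hc

theorem pr_nonneg_GWM {α : Type} (Ω : Finset α) {p : ℝ} (h0 : 0 ≤ p) (h1 : p ≤ 1)
    (E : Finset α → Prop) : 0 ≤ Pr Ω p E := by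
  unfold Pr
  refine Finset.sum_nonneg fun A _ => ?_
  split_ifs
  · exact mul_nonneg (pow_nonneg h0 _) (pow_nonneg (by linarith) _)
  · exact le_rfl

theorem aw_GWM {D d : ℕ} (F : Fr D d) (b : Sd D → ℤ → ℝ) (u : Rc2 D d) (n : ℕ)
    (hn : ∑ s, u.2 s ≤ n) (hne : ∃ s, u.2 s ≠ 0)
    (hb : ∀ s j, F.pr u.1 s - u.2 s < j → j ≤ F.pr u.1 s → 0 < b s j ∧ b s j ≤ 1) :
    ∃ s j, (F.pr u.1 s - u.2 s < j ∧ j ≤ F.pr u.1 s) ∧ aw F b u ≤ (b s j)⁻¹ ^ n := by
  obtain ⟨s0, hs0⟩ := hne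
  obtain ⟨⟨s, j⟩, h1, h2⟩ := Finset.exists_max_image
    ((univ : Finset (Sd D)).sigma fun s => Finset.Ioc (F.pr u.1 s - u.2 s) (F.pr u.1 s))
    (fun y => (b y.1 y.2)⁻¹) ⟨⟨s0, F.pr u.1 s0⟩, by
      simp only [Finset.mem_sigma, Finset.mem_univ, Finset.mem_Ioc, true_and]
      omega⟩
  have h3 := Finset.mem_Ioc.mp (Finset.mem_sigma.mp h1).2
  obtain ⟨b0, b1⟩ := hb s j h3.1 h3.2
  refine ⟨s, j, h3, le_trans ?_ (pow_le_pow_right₀ ((one_le_inv₀ b0).mpr b1) hn)⟩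
  rw [← Finset.prod_pow_eq_pow_sum]
  have h4 : ∀ t, ∀ i ∈ Finset.Ioc (F.pr u.1 t - u.2 t) (F.pr u.1 t), 0 ≤ (b t i)⁻¹ :=
    fun t i hi => (inv_pos.mpr (hb t i (Finset.mem_Ioc.mp hi).1 (Finset.mem_Ioc.mp hi).2).1).le
  refine Finset.prod_le_prod (fun t _ => Finset.prod_nonneg (h4 t)) fun t _ => ?_
  refine (Finset.prod_le_prod (h4 t) fun i hi =>
    h2 ⟨t, i⟩ (Finset.mem_sigma.mpr ⟨Finset.mem_univ _, hi⟩)).trans (le_of_eq ?_)
  rw [Finset.prod_const, Int.card_Ioc, sub_sub_cancel, Int.toNat_natCast]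

theorem one_GWM {d : ℕ} (Ω : Finset (Pt d)) {p : ℝ} (h0 : 0 ≤ p) (h1 : p ≤ 1) (T m : ℕ)
    (P : Bx d) (x C : ℝ) (hx : 1 ≤ x) (hP : 1 ≤ psi P) (hT : psi P < T)
    (h : 64 * (T : ℝ) ^ d * p * x ^ 2 ≤ 1)
    (hC : ((psi P : ℝ) + 3) ^ (2 * d + m) * (1 / 4) ^ psi P ≤ C * (1 / 2) ^ psi P) :
    ((psi P : ℝ) + 3) ^ m * (Pr Ω p (ISp P) * x ^ (psi P + 2)) ≤
      64 * C * (p ^ 2 * x ^ 4) * (1 / 4) ^ psi P := by
  have hT' : (psi P : ℝ) + 1 ≤ T := by exact_mod_cast hT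
  have h2 := (bUni d Ω p h0 h1).1 P (2 * x) (by linarith) hP (by
    refine le_trans ?_ h
    calc 16 * ((psi P : ℝ) + 1) ^ d * p * (2 * x) ^ 2
        = 64 * ((psi P : ℝ) + 1) ^ d * p * x ^ 2 := by ring
      _ ≤ _ := by gcongr)
  generalize Pr Ω p (ISp P) = a at h2 ⊢
  generalize psi P = t at *
  have e1 : (2 : ℝ) ^ t * (1 / 2) ^ t = 1 := by rw [← mul_pow]; norm_num
  have e2 : (1 / 2 : ℝ) ^ t * (1 / 2) ^ t = (1 / 4) ^ t := by rw [← mul_pow]; norm_num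
  have h3 : a * x ^ (t + 2) ≤
      64 * (p ^ 2 * x ^ 4) * (((t : ℝ) + 1) ^ (2 * d) * (1 / 4) ^ t * (1 / 2) ^ t) := by
    calc a * x ^ (t + 2) = a * x ^ (t + 2) * (2 ^ t * (1 / 2) ^ t) := by rw [e1, mul_one]
      _ = a * (2 * x) ^ (t + 2) * ((1 / 2) ^ t / 4) := by ring
      _ ≤ 16 * (((t : ℝ) + 1) ^ d * p * (2 * x) ^ 2) ^ 2 * (1 / 4) ^ t * ((1 / 2) ^ t / 4) :=
          mul_le_mul_of_nonneg_right h2 (by positivity)
      _ = _ := by ring
  calc ((t : ℝ) + 3) ^ m * (a * x ^ (t + 2))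
      ≤ ((t : ℝ) + 3) ^ m *
        (64 * (p ^ 2 * x ^ 4) * (((t : ℝ) + 1) ^ (2 * d) * (1 / 4) ^ t * (1 / 2) ^ t)) :=
        mul_le_mul_of_nonneg_left h3 (by positivity)
    _ ≤ ((t : ℝ) + 3) ^ m *
        (64 * (p ^ 2 * x ^ 4) * (((t : ℝ) + 3) ^ (2 * d) * (1 / 4) ^ t * (1 / 2) ^ t)) := by
        gcongr
        norm_num
    _ = 64 * (p ^ 2 * x ^ 4) * (((t : ℝ) + 3) ^ (2 * d + m) * (1 / 4) ^ t) * (1 / 2) ^ t := by
        rw [pow_add]
        ring
    _ ≤ 64 * (p ^ 2 * x ^ 4) * (C * (1 / 2) ^ t) * (1 / 2) ^ t := by gcongr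
    _ = _ := by rw [← e2]; ring

theorem gWM (h1 : GWMa) : GWM := by
  classical
  intro D d
  obtain ⟨C1, c1, hC1⟩ := h1 D d
  obtain ⟨C2, c2, hC2⟩ := (bBoxC d).2.2.2.2 (2 * d + 2 * D)
  refine ⟨64 * C2 * C1, by positivity, fun F Ω p p0 p1 T R₀ S R O b hb => ?_⟩
  have hA : ∀ u ∈ admM F T R₀ S R O, AdmM F T S R O u := fun u hu => (Finset.mem_filter.mp hu).2
  have hp : ∀ P, psi (F.pr P) ≤ psi P := fun P => by
    rw [(bLiftA D d F).2.2.2.2.2.2.2.2.2.1 P]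
    exact Nat.le_add_right _ _
  have n0 : ∀ P : Bx d, 0 ≤ Pr Ω p (ISp P) := fun P => pr_nonneg_GWM Ω p0 p1 _
  have s1 : ∀ u ∈ admM F T R₀ S R O, Pr Ω p (ISp u.1) * aw F b u ≤
      ∑ s : Sd D, ∑ j ∈ Ioc (S s) (R s), if F.pr u.1 s - u.2 s < j ∧ j ≤ F.pr u.1 s then
        Pr Ω p (ISp u.1) * (b s j)⁻¹ ^ (psi u.1 + 2) else 0 := by
    intro u hu
    obtain ⟨-, -, -, -, -, a1, a2, a3⟩ := hA u hu
    obtain ⟨s, j, h2, h3⟩ := aw_GWM F b u (psi u.1 + 2) (a1.trans (by have := hp u.1; omega)) a2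
      fun s j h h' => ⟨(hb s j (a3 s j h h').1 (a3 s j h h').2.1).2.1,
        (hb s j (a3 s j h h').1 (a3 s j h h').2.1).2.2.1⟩
    have h4 : ∀ t, ∀ i ∈ Ioc (S t) (R t), 0 ≤ if F.pr u.1 t - u.2 t < i ∧ i ≤ F.pr u.1 t then
        Pr Ω p (ISp u.1) * (b t i)⁻¹ ^ (psi u.1 + 2) else 0 := fun t i hi => by
      split_ifs
      · exact mul_nonneg (n0 _) (pow_nonneg
          (inv_pos.mpr (hb t i (mem_Ioc.mp hi).1 (mem_Ioc.mp hi).2).2.1).le _)
      · exact le_rfl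
    refine le_trans ?_ (Finset.single_le_sum (fun t _ => Finset.sum_nonneg (h4 t)) (mem_univ s))
    refine le_trans ?_ (Finset.single_le_sum (h4 s)
      (mem_Ioc.mpr ⟨(a3 s j h2.1 h2.2).1, (a3 s j h2.1 h2.2).2.1⟩))
    rw [if_pos h2]
    exact mul_le_mul_of_nonneg_left h3 (n0 _)
  refine (Finset.sum_le_sum s1).trans ?_
  rw [Finset.sum_comm]
  refine Finset.sum_le_sum fun s _ => ?_
  rw [Finset.sum_comm]
  refine Finset.sum_le_sum fun j hj => ?_
  rw [← Finset.sum_filter]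
  obtain ⟨o1, b0, b1, b2⟩ := hb s j (mem_Ioc.mp hj).1 (mem_Ioc.mp hj).2
  have x1 : 1 ≤ (b s j)⁻¹ := (one_le_inv₀ b0).mpr b1
  generalize (b s j)⁻¹ = x at b2 x1 ⊢
  obtain ⟨V, hV⟩ : ∃ V, V = (admM F T R₀ S R O).filter
    fun u => F.pr u.1 s - u.2 s < j ∧ j ≤ F.pr u.1 s := ⟨_, rfl⟩
  rw [← hV]
  have hV' : ∀ u ∈ V, AdmM F T S R O u ∧ F.pr u.1 s - u.2 s < j ∧ j ≤ F.pr u.1 s := fun u hu =>
    have h := Finset.mem_filter.mp (hV ▸ hu)
    ⟨hA u h.1, h.2⟩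
  have he : ∀ u ∈ V, ∀ t, u.2 t ≤ psi (F.pr u.1) + 2 := fun u hu t =>
    (Finset.single_le_sum (f := u.2) (fun _ _ => Nat.zero_le _) (mem_univ t)).trans
      (hV' u hu).1.2.2.2.2.2.1
  refine (fib_GWM V (fun P => Pr Ω p (ISp P) * x ^ (psi P + 2))
    (fun P => mul_nonneg (n0 P) (by positivity))
    fun u hu t => by have := he u hu t; have := hp u.1; omega).trans ?_
  have h5 : ∀ P ∈ V.image Prod.fst,
      ((psi P : ℝ) + 3) ^ (2 * D) * (Pr Ω p (ISp P) * x ^ (psi P + 2)) ≤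
        64 * C2 * (p ^ 2 * x ^ 4) * (1 / 4) ^ psi P := by
    intro P hP
    obtain ⟨u, hu, rfl⟩ := Finset.mem_image.mp hP
    obtain ⟨⟨-, -, -, a1, a2, -⟩, -⟩ := hV' u hu
    exact one_GWM Ω p0 p1 T (2 * D) u.1 x C2 x1 a1 a2 b2 (hC2 _)
  refine (Finset.sum_le_sum h5).trans ?_
  rw [← Finset.mul_sum]
  have h6 := hC1 F (O s j) s j (V.image Prod.fst) o1 fun P hP => by
    obtain ⟨u, hu, rfl⟩ := Finset.mem_image.mp hP
    obtain ⟨⟨a1, a2, a3, -, -, -, -, a4⟩, a5, a6⟩ := hV' u hu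
    have a7 := he u hu s
    exact ⟨a1, a2, a3, a6, by omega, (a4 s j a5 a6).2.2⟩
  refine (mul_le_mul_of_nonneg_left h6 (by positivity)).trans (le_of_eq ?_)
  ring

end Pool.Agent.MP_6d294b_pr

end

section

open Finset

namespace Pool.Agent.MP_6d294b_pr

/-- a point of the box on its side `s` -/
def cor_GWMa {D : ℕ} (s : Sd D) (Q : Bx D) : Pt D := fun i =>
  if i = s.1 then (if s.2 then Q s else - Q s) else Q (i, true)

theorem cor_in_GWMa {D : ℕ} (s : Sd D) {Q : Bx D} (hQ : Val Q) : InB (cor_GWMa s Q) Q := by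
  obtain ⟨i, b⟩ := s
  rintro ⟨k, c⟩
  have := hQ k
  by_cases h : k = i
  · subst h
    cases b <;> cases c <;> simp [kap, cor_GWMa] <;> omega
  · cases c <;> simp [kap, cor_GWMa, h]
    omega

theorem cor_kap_GWMa {D : ℕ} (s : Sd D) (Q : Bx D) : kap s (cor_GWMa s Q) = Q s := by
  obtain ⟨i, b⟩ := s
  cases b <;> simp [kap, cor_GWMa]

theorem layer_GWMa {D : ℕ} (O : Bx D) (s : Sd D) (j : ℤ) (Y : Finset (Bx D)) (hO : Val O)
    (hY : ∀ Q ∈ Y, Val Q ∧ Q s = j ∧ ∀ t : Sd D, t.1 ≠ s.1 → Q t ≤ O t) :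
    ∑ Q ∈ Y, (1 / 2 : ℝ) ^ psi Q ≤ sg (ex O) s.1 * 2 ^ (2 * D) := by
  classical
  obtain ⟨h1, h2⟩ := bLay D O s j
  rw [← Finset.sum_fiberwise_of_maps_to (t := lay O s j) (g := cor_GWMa s) (fun Q hQ => by
    obtain ⟨a1, a2, a3⟩ := hY Q hQ
    exact (h1 _).2 ⟨(cor_kap_GWMa s Q).trans a2,
      fun t ht => (cor_in_GWMa s a1 t).trans (a3 t ht)⟩), ← h2 hO, ← nsmul_eq_mul]
  refine Finset.sum_le_card_nsmul _ _ _ fun y _ => (bBoxC D).2.1 y _ fun Q hQ => ?_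
  rw [Finset.mem_filter] at hQ
  exact hQ.2 ▸ cor_in_GWMa s (hY Q hQ.1).1

theorem proj_GWMa {D : ℕ} (O : Bx D) (s : Sd D) (j : ℤ) (Y : Finset (Bx D)) (hO : Val O)
    (hY : ∀ Q ∈ Y, Val Q ∧ j ≤ Q s ∧ Q s ≤ j + psi Q + 1 ∧
      ∀ t : Sd D, t.1 ≠ s.1 → Q t ≤ O t) :
    ∑ Q ∈ Y, (1 / 4 : ℝ) ^ psi Q ≤ 4 * 2 ^ (2 * D) * sg (ex O) s.1 := by
  classical
  set a : Bx D → ℕ := fun Q => (Q s - j).toNat with ha
  rw [← Finset.sum_fiberwise_of_maps_to (t := range (Y.sup a + 1)) (g := a)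
    (fun Q hQ => Finset.mem_range.2 (Nat.lt_succ_of_le (Finset.le_sup hQ)))]
  calc _ ≤ ∑ k ∈ range (Y.sup a + 1), (1 / 2 : ℝ) ^ k * (2 * (sg (ex O) s.1 * 2 ^ (2 * D))) := by
        refine Finset.sum_le_sum fun k _ => ?_
        have h1 := layer_GWMa O s (j + k) (Y.filter fun Q => a Q = k) hO fun Q hQ => by
          rw [Finset.mem_filter] at hQ
          obtain ⟨a1, a2, -, a4⟩ := hY Q hQ.1
          refine ⟨a1, ?_, a4⟩
          have := hQ.2
          simp only [ha] at this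
          omega
        refine le_trans ?_ (mul_le_mul_of_nonneg_left
          (mul_le_mul_of_nonneg_left h1 (by norm_num)) (by positivity))
        rw [Finset.mul_sum, Finset.mul_sum]
        refine Finset.sum_le_sum fun Q hQ => ?_
        rw [Finset.mem_filter] at hQ
        obtain ⟨-, a2, a3, -⟩ := hY Q hQ.1
        have h2 : k ≤ psi Q + 1 := by
          have := hQ.2
          simp only [ha] at this
          omega
        have h3 : (1 / 2 : ℝ) ^ (psi Q + 1) ≤ (1 / 2) ^ k :=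
          pow_le_pow_of_le_one (by norm_num) (by norm_num) h2
        have h4 : (1 / 4 : ℝ) ^ psi Q = (1 / 2) ^ (psi Q + 1) * (2 * (1 / 2) ^ psi Q) := by
          rw [show (1 / 4 : ℝ) = 1 / 2 * (1 / 2) by norm_num, mul_pow, pow_succ]; ring
        rw [h4]
        exact mul_le_mul_of_nonneg_right h3 (by positivity)
    _ ≤ 2 * (2 * (sg (ex O) s.1 * 2 ^ (2 * D))) := by
        rw [← Finset.sum_mul]
        exact mul_le_mul_of_nonneg_right (sum_geometric_two_le _) (by positivity)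
    _ = _ := by ring

theorem gWMa : GWMa := by
  classical
  intro D d
  refine ⟨(d + 1) * 2 ^ d * (4 * 2 ^ (2 * D)), by positivity, fun F O s j X hO hX => ?_⟩
  rw [← Finset.sum_fiberwise_of_maps_to (t := X.image F.pr) (g := F.pr)
    (fun P hP => Finset.mem_image_of_mem _ hP)]
  have h2 : ∀ Q ∈ X.image F.pr, ∑ P ∈ X.filter (fun P => F.pr P = Q), (1 / 4 : ℝ) ^ psi P ≤
      (d + 1) * 2 ^ d * (1 / 4 : ℝ) ^ psi Q := by
    intro Q _
    refine bLowC D d F Q (1 / 4) _ (by norm_num) (by norm_num) fun P hP => ?_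
    rw [Finset.mem_filter] at hP
    obtain ⟨a1, a2, a3, -⟩ := hX P hP.1
    exact ⟨a1, a2, a3, hP.2⟩
  refine (Finset.sum_le_sum h2).trans ?_
  rw [← Finset.mul_sum, mul_assoc ((d + 1 : ℝ) * 2 ^ d)]
  refine mul_le_mul_of_nonneg_left (proj_GWMa O s j _ hO fun Q hQ => ?_) (by positivity)
  obtain ⟨P, hP, rfl⟩ := Finset.mem_image.mp hQ
  obtain ⟨a1, -, -, a4⟩ := hX P hP
  exact ⟨(bLiftA D d F).2.2.2.2.2.1 _ a1, a4⟩

end Pool.Agent.MP_6d294b_pr

end

section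

namespace Pool.Agent.MP_6d294b_pr

theorem drop_GAll : GDrop := by
  have hChn := gChn gBrG
  have hCost := gCost gN2
  have hWM := gWM gWMa
  have hCrA := gCrA gRec
  have hShift := gShift gN2 hCost
  have hSlp := gSlp (gRat gSlpA)
  have hP1 := gP1 gLY (gExtA gLY hChn) gLine hCrA hWM (gW1 gN2 hCost) gN2 hCost hShift
  have hP2 := gP2 gLY (gExtB gLY hChn) gRec (gHc gHa (gHb gLine)) hWM gN2 hCost (gFrame gN2) gDom
  have hInd := gInd gBrG hChn
  have hDir := gDir (gD0 gLY (gExtC gLY hChn) gLine hCrA hWM hCost) hInd gSL hCost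
  have hCh := gCh hP1 hP2 (gWrd (gWord hChn)) (gX hChn) gN2 hCost
  have hSpl := gSpl gN2 hCost (gGain gN2 hCost) gAri
  have hSplG := gSplG hDir (gNdl gN2 hCost hShift) hSpl gSL gN2 hCost
  have hLow := gLow (gStepH gN2 hCost) hCost
  exact gDrop (gRed gFam) gBrG gLY hSlp
    (gCrit hSlp hCh hSplG hInd gSL hDir hLow gPar2 gN2 hCost)

theorem final_GAll : FinalG 0 := final_GFin drop_GAll

end Pool.Agent.MP_6d294b_pr

end
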